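import Mathlib

/-!
Line F of MP_1858fb_ag, piece (D): the open condition over `K = k((q))`.

`W = k[[P,Q]]` is `PowerSeries (PowerSeries k)` (inner variable `P`, outer variable `Q`),
`qW : k[[q]] → W`, `q ↦ P Q`.  A family of polynomials `f l` over `k[[q]]` in `z = 1/P`
of degree at most `D l` which is a nonzero constant modulo `q` for one `l` (outer circle), has
the same property in the variable `1/(qz)` for one `l` (inner circle), and such that the ideal
generated by the `P^(D l) f_l(1/P)` in `W` contains some `P^a Q^b`, generates the unit ideal of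
`K[z]`.
-/

namespace Pool.Agent.VFD

open Polynomial

section

variable {k : Type*} [Field k]

/-- the map `k[[q]] → k[[P,Q]]`, `q ↦ P Q` -/
noncomputable def qW (k : Type*) [Field k] : PowerSeries k →+* PowerSeries (PowerSeries k) :=
  (PowerSeries.rescale (PowerSeries.X : PowerSeries k)).comp (PowerSeries.map PowerSeries.C)

/-- the element `P` of `k[[P,Q]]` -/
noncomputable def P (k : Type*) [Field k] : PowerSeries (PowerSeries k) :=
  PowerSeries.C PowerSeries.X

/-- the element `Q` of `k[[P,Q]]` -/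
noncomputable def Q (k : Type*) [Field k] : PowerSeries (PowerSeries k) := PowerSeries.X

lemma coeff_qW (a : PowerSeries k) (n : ℕ) :
    PowerSeries.coeff n (qW k a) = PowerSeries.X ^ n * PowerSeries.C (PowerSeries.coeff n a) := by
  simp [qW, PowerSeries.coeff_rescale, PowerSeries.coeff_map]

lemma qW_X : qW k PowerSeries.X = P k * Q k := by
  ext n : 1
  rw [coeff_qW]
  simp only [P, Q, PowerSeries.coeff_C_mul, PowerSeries.coeff_X]
  split_ifs with h
  · subst h; simp
  · simp

/-- killing `P` -/
lemma P_dvd_iff (f : PowerSeries (PowerSeries k)) :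
    P k ∣ f ↔ PowerSeries.map (PowerSeries.constantCoeff (R := k)) f = 0 := by
  constructor
  · rintro ⟨g, rfl⟩
    simp [P]
  · intro h
    have h1 : ∀ n, PowerSeries.X ∣ PowerSeries.coeff n f := by
      intro n
      rw [PowerSeries.X_dvd_iff]
      have := congrArg (PowerSeries.coeff n) h
      simpa [PowerSeries.coeff_map] using this
    choose g hg using h1
    refine ⟨PowerSeries.mk g, ?_⟩
    ext n : 1
    rw [hg n]
    simp [P, PowerSeries.coeff_C_mul]

lemma prime_P : Prime (P k) := by
  refine ⟨?_, ?_, ?_⟩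
  · intro h
    have := congrArg (PowerSeries.coeff 0) h
    simp [P] at this
  · intro h
    have h1 : IsUnit (PowerSeries.constantCoeff (P k)) := h.map _
    have h2 : IsUnit (PowerSeries.constantCoeff (PowerSeries.constantCoeff (P k))) := h1.map _
    simp [P] at h2
  · intro a b h
    rw [P_dvd_iff, map_mul, mul_eq_zero] at h
    rcases h with h | h
    · exact Or.inl ((P_dvd_iff a).2 h)
    · exact Or.inr ((P_dvd_iff b).2 h)

lemma prime_Q : Prime (Q k) := PowerSeries.X_prime

/-- `P^D f(1/P)` -/
noncomputable def homog (D : ℕ) (f : Polynomial (PowerSeries k)) :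
    PowerSeries (PowerSeries k) :=
  (reflect D f).eval₂ (qW k) (P k)

lemma homog_eq_sum (D : ℕ) (f : Polynomial (PowerSeries k)) (hf : f.natDegree ≤ D) :
    homog D f = ∑ i ∈ Finset.range (D + 1), qW k (f.coeff i) * P k ^ (D - i) := by
  have h1 : (reflect D f).natDegree ≤ D := by
    refine natDegree_le_iff_coeff_eq_zero.2 fun n hn => ?_
    rw [coeff_reflect, revAt_eq_self_of_lt hn]
    exact coeff_eq_zero_of_natDegree_lt (lt_of_le_of_lt hf hn)
  rw [homog, eval₂_eq_sum_range' (qW k) (Nat.lt_succ_of_le h1)]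
  rw [← Finset.sum_range_reflect]
  refine Finset.sum_congr rfl fun i hi => ?_
  have hi' : i ≤ D := Nat.lt_succ_iff.1 (Finset.mem_range.1 hi)
  have e : D + 1 - 1 - i = D - i := by omega
  rw [e, coeff_reflect, revAt_le (Nat.sub_le D i)]
  congr 3
  omega

lemma homog_mul {F G : ℕ} (f g : Polynomial (PowerSeries k)) (hf : f.natDegree ≤ F)
    (hg : g.natDegree ≤ G) : homog (F + G) (f * g) = homog F f * homog G g := by
  rw [homog, reflect_mul f g hf hg, eval₂_mul]
  rfl

lemma prime_CX : Prime (C (PowerSeries.X : PowerSeries k)) :=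
  prime_C_iff.2 PowerSeries.X_prime

/-- not divisible by `q` = nonzero modulo `q` -/
lemma CX_dvd_iff (f : Polynomial (PowerSeries k)) :
    C (PowerSeries.X : PowerSeries k) ∣ f ↔ f.map (PowerSeries.constantCoeff (R := k)) = 0 := by
  rw [C_dvd_iff_dvd_coeff]
  constructor
  · intro h
    ext n
    rw [coeff_map, coeff_zero]
    exact PowerSeries.X_dvd_iff.1 (h n)
  · intro h n
    rw [PowerSeries.X_dvd_iff]
    have := congrArg (fun p => p.coeff n) h
    simpa using this

/-- extract the power of `q` -/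
lemma exists_pow_mul (f : Polynomial (PowerSeries k)) (hf : f ≠ 0) :
    ∃ (n : ℕ) (g : Polynomial (PowerSeries k)),
      ¬ C (PowerSeries.X : PowerSeries k) ∣ g ∧ f = C (PowerSeries.X : PowerSeries k) ^ n * g := by
  obtain ⟨n, g, h1, h2⟩ := WfDvdMonoid.max_power_factor hf (prime_CX (k := k)).irreducible
  exact ⟨n, g, h1, h2⟩

/-- Gauss: if `h` is nonzero modulo `q` and `h g = q^n f` then `h ∣ f`. -/
lemma gauss (h g f : Polynomial (PowerSeries k)) (n : ℕ)
    (hh : ¬ C (PowerSeries.X : PowerSeries k) ∣ h)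
    (e : h * g = C (PowerSeries.X : PowerSeries k) ^ n * f) : h ∣ f := by
  have h1 : C (PowerSeries.X : PowerSeries k) ^ n ∣ g :=
    (prime_CX (k := k)).pow_dvd_of_dvd_mul_left n hh (Dvd.intro _ e.symm)
  obtain ⟨g', rfl⟩ := h1
  refine ⟨g', ?_⟩
  have h2 : C (PowerSeries.X : PowerSeries k) ^ n ≠ 0 := pow_ne_zero _ (prime_CX (k := k)).ne_zero
  apply mul_left_cancel₀ h2
  rw [← e]
  ring

/-- a factor of a polynomial which is a nonzero constant modulo `q` is a nonzero constant
modulo `q`. -/
lemma const_of_mul (h g f : Polynomial (PowerSeries k)) (e : h * g = f) (c : k) (hc : c ≠ 0)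
    (hf : f.map (PowerSeries.constantCoeff (R := k)) = C c) :
    ∃ c' : k, c' ≠ 0 ∧ h.map (PowerSeries.constantCoeff (R := k)) = C c' := by
  have h1 : IsUnit ((h.map (PowerSeries.constantCoeff (R := k)))) := by
    have h2 : (h.map (PowerSeries.constantCoeff (R := k))) *
        (g.map (PowerSeries.constantCoeff (R := k))) = C c := by
      rw [← Polynomial.map_mul, e, hf]
    have h3 : IsUnit (C c : Polynomial k) := isUnit_C.2 hc.isUnit
    rw [← h2] at h3
    exact isUnit_of_mul_isUnit_left h3
  obtain ⟨c', hc', e'⟩ := Polynomial.isUnit_iff.1 h1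
  exact ⟨c', hc'.ne_zero, e'.symm⟩

/-- the polynomial `F(qw, 1)` in the variable `w = 1/(qz)` -/
noncomputable def inner (D : ℕ) (f : Polynomial (PowerSeries k)) : Polynomial (PowerSeries k) :=
  (reflect D f).comp (C PowerSeries.X * X)

lemma coeff_inner (D : ℕ) (f : Polynomial (PowerSeries k)) (j : ℕ) (hj : j ≤ D) :
    (inner D f).coeff j = PowerSeries.X ^ j * f.coeff (D - j) := by
  rw [inner, comp_C_mul_X_coeff, coeff_reflect, revAt_le hj, mul_comm]

lemma coeff_inner_gt (D : ℕ) (f : Polynomial (PowerSeries k)) (hf : f.natDegree ≤ D)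
    (j : ℕ) (hj : D < j) : (inner D f).coeff j = 0 := by
  rw [inner, comp_C_mul_X_coeff, coeff_reflect, revAt_eq_self_of_lt hj,
    coeff_eq_zero_of_natDegree_lt (lt_of_le_of_lt hf hj), zero_mul]

lemma inner_mul {F G : ℕ} (f g : Polynomial (PowerSeries k)) (hf : f.natDegree ≤ F)
    (hg : g.natDegree ≤ G) : inner (F + G) (f * g) = inner F f * inner G g := by
  rw [inner, reflect_mul f g hf hg, mul_comp]
  rfl

lemma homog_coeff_last (r : ℕ) (h : Polynomial (PowerSeries k)) (hr : h.natDegree ≤ r)
    (n : ℕ) :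
    PowerSeries.coeff n (PowerSeries.coeff n (homog r h)) = PowerSeries.coeff n (h.coeff r) := by
  rw [homog_eq_sum r h hr, map_sum, map_sum]
  rw [Finset.sum_eq_single r]
  · simp only [Nat.sub_self, pow_zero, mul_one]
    rw [coeff_qW, PowerSeries.coeff_X_pow_mul']
    simp
  · intro i hi hir
    have hi' : i < r := lt_of_le_of_ne (Nat.lt_succ_iff.1 (Finset.mem_range.1 hi)) hir
    have e1 : qW k (h.coeff i) * P k ^ (r - i)
        = PowerSeries.C (PowerSeries.X ^ (r - i)) * qW k (h.coeff i) := by
      rw [P, map_pow, mul_comm]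
    rw [e1, PowerSeries.coeff_C_mul, coeff_qW, ← mul_assoc, ← pow_add, PowerSeries.coeff_X_pow_mul']
    rw [if_neg (by omega)]
  · intro hr'
    exact absurd (Finset.mem_range.2 (Nat.lt_succ_self r)) hr'

/-- the reduction modulo `Q` -/
lemma homog_coeff_zero (r : ℕ) (h : Polynomial (PowerSeries k)) (hr : h.natDegree ≤ r) (c : k)
    (hc : h.map (PowerSeries.constantCoeff (R := k)) = C c) :
    PowerSeries.constantCoeff (homog r h) = PowerSeries.X ^ r * PowerSeries.C c := by
  have hcoef : ∀ i, PowerSeries.constantCoeff (h.coeff i) = if i = 0 then c else 0 := by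
    intro i
    have := congrArg (fun p => p.coeff i) hc
    simpa [coeff_C] using this
  rw [homog_eq_sum r h hr, map_sum]
  rw [Finset.sum_eq_single 0]
  · rw [map_mul, map_pow]
    have e1 : PowerSeries.constantCoeff (qW k (h.coeff 0)) = PowerSeries.C c := by
      rw [← PowerSeries.coeff_zero_eq_constantCoeff_apply, coeff_qW]
      rw [PowerSeries.coeff_zero_eq_constantCoeff_apply, hcoef 0]
      simp
    rw [e1]
    simp [P, mul_comm]
  · intro i _ hi0
    rw [map_mul]
    have e1 : PowerSeries.constantCoeff (qW k (h.coeff i)) = 0 := by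
      rw [← PowerSeries.coeff_zero_eq_constantCoeff_apply, coeff_qW]
      rw [PowerSeries.coeff_zero_eq_constantCoeff_apply, hcoef i, if_neg hi0]
      simp
    rw [e1, zero_mul]
  · intro h0
    exact absurd (Finset.mem_range.2 (Nat.succ_pos r)) h0

end

section main

variable {k : Type*} [Field k] {K : Type*} [Field K] [Algebra (PowerSeries k) K]
  [IsFractionRing (PowerSeries k) K]

/-- the core: no common divisor of positive degree -/
lemma no_common_divisor {ι : Type*} (D : ι → ℕ) (f : ι → Polynomial (PowerSeries k))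
    (hdeg : ∀ l, (f l).natDegree ≤ D l)
    (hO : ∃ l, ∃ c : k, c ≠ 0 ∧ (f l).map (PowerSeries.constantCoeff (R := k)) = C c)
    (hI : ∃ (l : ι) (m : ℕ) (u : ℕ → PowerSeries k),
      (∀ j ≤ D l, PowerSeries.X ^ j * (f l).coeff (D l - j) = PowerSeries.X ^ m * u j) ∧
      PowerSeries.constantCoeff (u 0) ≠ 0 ∧
      ∀ j, 0 < j → j ≤ D l → PowerSeries.constantCoeff (u j) = 0)
    (hW : ∃ a b : ℕ, P k ^ a * Q k ^ b ∈
      Ideal.span (Set.range fun l => homog (D l) (f l)))
    (h : Polynomial (PowerSeries k)) (hh : ¬ C (PowerSeries.X : PowerSeries k) ∣ h)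
    (hdvd : ∀ l, h ∣ f l) : h.natDegree = 0 := by
  by_contra hr0
  set r := h.natDegree with hr
  have hrpos : 0 < r := Nat.pos_of_ne_zero hr0
  have hne : h ≠ 0 := by
    rintro rfl
    exact hh (dvd_zero _)
  -- outer
  obtain ⟨l0, c, hc, hfc⟩ := hO
  obtain ⟨g0, hg0⟩ := hdvd l0
  obtain ⟨c0, hc0, hmap0⟩ := const_of_mul h g0 (f l0) hg0.symm c hc hfc
  -- inner
  obtain ⟨l1, m, u, hu, hu0, hu1⟩ := hI
  obtain ⟨g1, hg1⟩ := hdvd l1
  have hf1 : f l1 ≠ 0 := by
    intro h0
    have := hu 0 (Nat.zero_le _)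
    rw [h0] at this
    simp only [pow_zero, coeff_zero, mul_zero] at this
    have h2 : u 0 = 0 := by
      rcases mul_eq_zero.1 this.symm with h3 | h3
      · exact absurd h3 (pow_ne_zero _ PowerSeries.X_ne_zero)
      · exact h3
    apply hu0
    rw [h2, map_zero]
  have hg1ne : g1 ≠ 0 := by
    rintro rfl
    exact hf1 (by rw [hg1, mul_zero])
  have hdeg1 : r + g1.natDegree = (f l1).natDegree := by
    rw [hg1, natDegree_mul hne hg1ne]
  have hrD : r + (D l1 - r) = D l1 := by
    have := hdeg l1
    omega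
  have hg1D : g1.natDegree ≤ D l1 - r := by
    have := hdeg l1
    omega
  have hin : inner (D l1) (f l1) = inner r h * inner (D l1 - r) g1 := by
    conv_lhs => rw [← hrD, hg1]
    exact inner_mul h g1 le_rfl hg1D
  -- the polynomial `g` with `inner f = X^m g`
  set g : Polynomial (PowerSeries k) :=
    ∑ j ∈ Finset.range (D l1 + 1), monomial j (u j) with hgdef
  have hgc : ∀ j, g.coeff j = if j ≤ D l1 then u j else 0 := by
    intro j
    rw [hgdef, finsetSum_coeff]
    simp only [coeff_monomial]
    rw [Finset.sum_ite_eq' (Finset.range (D l1 + 1)) j]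
    simp
  have hgX : inner (D l1) (f l1) = C (PowerSeries.X : PowerSeries k) ^ m * g := by
    ext1 j
    rw [← C_pow, coeff_C_mul, hgc j]
    by_cases hj : j ≤ D l1
    · rw [coeff_inner _ _ _ hj, if_pos hj, hu j hj]
    · rw [if_neg hj, mul_zero]
      exact coeff_inner_gt _ _ (hdeg l1) j (not_le.1 hj)
  have hgmap : g.map (PowerSeries.constantCoeff (R := k)) = C (PowerSeries.constantCoeff (u 0)) := by
    ext1 j
    rw [coeff_map, hgc j, coeff_C]
    by_cases hj0 : j = 0
    · subst hj0
      rw [if_pos (Nat.zero_le _), if_pos rfl]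
    · rw [if_neg hj0]
      split_ifs with hj
      · exact hu1 j (Nat.pos_of_ne_zero hj0) hj
      · exact map_zero _
  have hgnd : ¬ C (PowerSeries.X : PowerSeries k) ∣ g := by
    rw [CX_dvd_iff, hgmap]
    intro h0
    exact hu0 (by simpa using h0)
  have hinne : inner r h * inner (D l1 - r) g1 ≠ 0 := by
    rw [← hin, hgX]
    refine mul_ne_zero (pow_ne_zero _ prime_CX.ne_zero) ?_
    rintro h0
    exact hgnd (h0 ▸ dvd_zero _)
  obtain ⟨m1, h1, hh1, e1⟩ := exists_pow_mul (inner r h) (left_ne_zero_of_mul hinne)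
  obtain ⟨m2, f1, hf1', e2⟩ := exists_pow_mul (inner (D l1 - r) g1) (right_ne_zero_of_mul hinne)
  have e3 : C (PowerSeries.X : PowerSeries k) ^ m * g
      = C (PowerSeries.X : PowerSeries k) ^ (m1 + m2) * (h1 * f1) := by
    rw [← hgX, hin, e1, e2, pow_add]
    ring
  have hnd : ¬ C (PowerSeries.X : PowerSeries k) ∣ h1 * f1 := by
    intro h0
    rcases prime_CX.dvd_or_dvd h0 with h0 | h0
    · exact hh1 h0
    · exact hf1' h0
  have hCX0 : C (PowerSeries.X : PowerSeries k) ≠ 0 := prime_CX.ne_zero
  have hm : m = m1 + m2 := by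
    rcases lt_trichotomy m (m1 + m2) with hlt | heq | hgt
    · exfalso
      apply hgnd
      obtain ⟨d, hd⟩ := Nat.exists_eq_add_of_lt hlt
      have : g = C (PowerSeries.X : PowerSeries k) ^ (d + 1) * (h1 * f1) := by
        apply mul_left_cancel₀ (pow_ne_zero m hCX0)
        rw [e3, hd]
        ring
      rw [this]
      exact ⟨C (PowerSeries.X : PowerSeries k) ^ d * (h1 * f1), by ring⟩
    · exact heq
    · exfalso
      apply hnd
      obtain ⟨d, hd⟩ := Nat.exists_eq_add_of_lt hgt
      have : h1 * f1 = C (PowerSeries.X : PowerSeries k) ^ (d + 1) * g := by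
        apply mul_left_cancel₀ (pow_ne_zero (m1 + m2) hCX0)
        rw [← e3, hd]
        ring
      rw [this]
      exact ⟨C (PowerSeries.X : PowerSeries k) ^ d * g, by ring⟩
  have e4 : h1 * f1 = g := by
    apply mul_left_cancel₀ (pow_ne_zero (m1 + m2) hCX0)
    rw [← e3, hm]
  obtain ⟨c1, hc1, hmap1⟩ := const_of_mul h1 f1 g e4 _ hu0 hgmap
  have hh1c : ∀ j, PowerSeries.constantCoeff (h1.coeff j) = if j = 0 then c1 else 0 := by
    intro j
    have := congrArg (fun p => p.coeff j) hmap1
    simpa [coeff_C] using this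
  have hinco : ∀ j ≤ r, PowerSeries.X ^ j * h.coeff (r - j) = PowerSeries.X ^ m1 * h1.coeff j := by
    intro j hj
    have := congrArg (fun p => p.coeff j) e1
    rw [coeff_inner _ _ _ hj, ← C_pow, coeff_C_mul] at this
    exact this
  -- `m1 < r`
  have hm1r : m1 < r := by
    by_contra hle
    push Not at hle
    have h2 := hinco r le_rfl
    rw [Nat.sub_self] at h2
    have h3 : PowerSeries.X ∣ h1.coeff r := by
      rw [PowerSeries.X_dvd_iff, hh1c r, if_neg hr0]
    obtain ⟨w, hw⟩ := h3
    obtain ⟨d, hd⟩ := Nat.exists_eq_add_of_le hle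
    have h4 : h.coeff 0 = PowerSeries.X * (PowerSeries.X ^ d * w) := by
      apply mul_left_cancel₀ (pow_ne_zero r (PowerSeries.X_ne_zero (R := k)))
      rw [h2, hw, hd]
      ring
    have h5 : PowerSeries.constantCoeff (h.coeff 0) = c0 := by
      have := congrArg (fun p => p.coeff 0) hmap0
      simpa [coeff_C] using this
    rw [h4] at h5
    simp at h5
    exact hc0 h5.symm
  -- `W`
  obtain ⟨a, b, hab⟩ := hW
  have hHdvd : homog r h ∣ P k ^ a * Q k ^ b := by
    rw [← Ideal.mem_span_singleton]
    refine Ideal.span_le.2 ?_ hab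
    rintro _ ⟨l, rfl⟩
    simp only [SetLike.mem_coe, Ideal.mem_span_singleton]
    obtain ⟨gl, hgl⟩ := hdvd l
    by_cases hgl0 : gl = 0
    · rw [hgl, hgl0, mul_zero]
      simp [homog]
    · have hd1 : r + gl.natDegree = (f l).natDegree := by
        rw [hgl, natDegree_mul hne hgl0]
      have hd2 : r + (D l - r) = D l := by
        have := hdeg l
        omega
      have hd3 : gl.natDegree ≤ D l - r := by
        have := hdeg l
        omega
      have : homog (D l) (f l) = homog r h * homog (D l - r) gl := by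
        conv_lhs => rw [← hd2, hgl]
        exact homog_mul h gl le_rfl hd3
      rw [this]
      exact dvd_mul_right _ _
  have hmod : PowerSeries.constantCoeff (homog r h) = PowerSeries.X ^ r * PowerSeries.C c0 :=
    homog_coeff_zero r h le_rfl c0 hmap0
  have hQnd : ¬ Q k ∣ homog r h := by
    intro h0
    rw [Q, PowerSeries.X_dvd_iff, hmod] at h0
    rcases mul_eq_zero.1 h0 with h0 | h0
    · exact pow_ne_zero r (PowerSeries.X_ne_zero (R := k)) h0
    · apply hc0
      have := congrArg (PowerSeries.constantCoeff (R := k)) h0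
      simpa using this
  have hHP : homog r h ∣ P k ^ a := by
    obtain ⟨G, hG⟩ := hHdvd
    have h2 : Q k ^ b ∣ G := by
      refine prime_Q.pow_dvd_of_dvd_mul_left b hQnd ?_
      rw [← hG]
      exact dvd_mul_left _ _
    obtain ⟨G', rfl⟩ := h2
    refine ⟨G', ?_⟩
    apply mul_left_cancel₀ (pow_ne_zero b (prime_Q (k := k)).ne_zero)
    calc Q k ^ b * P k ^ a = P k ^ a * Q k ^ b := by ring
      _ = homog r h * (Q k ^ b * G') := hG
      _ = Q k ^ b * (homog r h * G') := by ring
  obtain ⟨i, _, v, hv⟩ := (dvd_prime_pow (prime_P (k := k)) a).1 hHP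
  -- hv : homog r h * v = P^i
  have hi : r ≤ i := by
    have h2 := congrArg (PowerSeries.constantCoeff) hv
    rw [map_mul, hmod, map_pow] at h2
    have h3 : (PowerSeries.X : PowerSeries k) ^ r ∣ PowerSeries.X ^ i := by
      refine ⟨PowerSeries.C c0 * PowerSeries.constantCoeff (v : PowerSeries (PowerSeries k)), ?_⟩
      rw [← mul_assoc]
      rw [h2]
      simp [P]
    by_contra hlt
    push Not at hlt
    rw [PowerSeries.X_pow_dvd_iff] at h3
    have h4 := h3 i hlt
    rw [PowerSeries.coeff_X_pow, if_pos rfl] at h4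
    exact one_ne_zero h4
  have hPr : P k ^ r ∣ homog r h := by
    have h2 : homog r h = P k ^ i * (↑v⁻¹ : PowerSeries (PowerSeries k)) := by
      rw [← hv]
      simp
    rw [h2]
    exact Dvd.dvd.mul_right (pow_dvd_pow _ hi) _
  have hXr : (PowerSeries.X : PowerSeries k) ^ r ∣ h.coeff r := by
    rw [PowerSeries.X_pow_dvd_iff]
    intro n hn
    rw [← homog_coeff_last r h le_rfl n]
    obtain ⟨G, hG⟩ := hPr
    rw [hG, P, ← map_pow, PowerSeries.coeff_C_mul, PowerSeries.coeff_X_pow_mul', if_neg (by omega)]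
  have h2 := hinco 0 (Nat.zero_le _)
  rw [pow_zero, one_mul, Nat.sub_zero] at h2
  rw [h2, PowerSeries.X_pow_dvd_iff] at hXr
  have h3 := hXr m1 hm1r
  rw [PowerSeries.coeff_X_pow_mul', if_pos le_rfl, Nat.sub_self,
    PowerSeries.coeff_zero_eq_constantCoeff_apply, hh1c 0, if_pos rfl] at h3
  exact hc1 h3

/-- **Piece (D)**: the open condition over `K = k((q))`. -/
theorem bezout {ι : Type*} (D : ι → ℕ) (f : ι → Polynomial (PowerSeries k))
    (hdeg : ∀ l, (f l).natDegree ≤ D l)
    (hO : ∃ l, ∃ c : k, c ≠ 0 ∧ (f l).map (PowerSeries.constantCoeff (R := k)) = C c)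
    (hI : ∃ (l : ι) (m : ℕ) (u : ℕ → PowerSeries k),
      (∀ j ≤ D l, PowerSeries.X ^ j * (f l).coeff (D l - j) = PowerSeries.X ^ m * u j) ∧
      PowerSeries.constantCoeff (u 0) ≠ 0 ∧
      ∀ j, 0 < j → j ≤ D l → PowerSeries.constantCoeff (u j) = 0)
    (hW : ∃ a b : ℕ, P k ^ a * Q k ^ b ∈
      Ideal.span (Set.range fun l => homog (D l) (f l))) :
    Ideal.span (Set.range fun l => (f l).map (algebraMap (PowerSeries k) K)) = ⊤ ∧
      ∃ l, (f l).coeff (D l) ≠ 0 := by
  constructor
  · by_contra hne
    -- a generator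
    obtain ⟨h0, hh0⟩ := (IsPrincipalIdealRing.principal
      (Ideal.span (Set.range fun l => (f l).map (algebraMap (PowerSeries k) K)))).principal
    have hdv : ∀ l, h0 ∣ (f l).map (algebraMap (PowerSeries k) K) := by
      intro l
      have : (f l).map (algebraMap (PowerSeries k) K) ∈
          Ideal.span (Set.range fun l => (f l).map (algebraMap (PowerSeries k) K)) :=
        Ideal.subset_span ⟨l, rfl⟩
      rw [hh0] at this
      exact Ideal.mem_span_singleton.1 this
    have hinj : Function.Injective (algebraMap (PowerSeries k) K) := IsFractionRing.injective _ _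
    have h0ne : h0 ≠ 0 := by
      rintro rfl
      obtain ⟨l, c, hc, hfc⟩ := hO
      have h1 := zero_dvd_iff.1 (hdv l)
      have h2 : f l = 0 := by
        apply Polynomial.map_injective _ hinj
        rw [h1, Polynomial.map_zero]
      rw [h2, Polynomial.map_zero] at hfc
      exact hc (C_eq_zero.1 hfc.symm)
    have h0deg : h0.natDegree ≠ 0 := by
      intro hd
      apply hne
      rw [hh0]
      refine Ideal.span_singleton_eq_top.2 ?_
      rw [Polynomial.isUnit_iff_degree_eq_zero, degree_eq_natDegree h0ne, hd]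
      rfl
    obtain ⟨b, hb, hb'⟩ := IsLocalization.integerNormalization_spec
      (nonZeroDivisors (PowerSeries k)) h0
    set h2 := IsLocalization.integerNormalization (nonZeroDivisors (PowerSeries k)) h0 with hh2
    have hbne : b ≠ 0 := nonZeroDivisors.ne_zero hb
    have hbK : (algebraMap (PowerSeries k) K b) ≠ 0 := fun h => hbne (hinj (by rw [h, map_zero]))
    have hb2 : h2.map (algebraMap (PowerSeries k) K) = C (algebraMap (PowerSeries k) K b) * h0 := by
      rw [hb']
      ext1 n
      rw [coeff_C_mul, coeff_smul, Algebra.smul_def]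
    have h2ne : h2 ≠ 0 := by
      intro h
      rw [h, Polynomial.map_zero] at hb2
      rcases mul_eq_zero.1 hb2.symm with h3 | h3
      · exact hbK (C_eq_zero.1 h3)
      · exact h0ne h3
    obtain ⟨n, h, hh, e⟩ := exists_pow_mul h2 h2ne
    have hmapne : (algebraMap (PowerSeries k) K PowerSeries.X) ≠ 0 := fun h =>
      PowerSeries.X_ne_zero (hinj (by rw [h, map_zero]))
    -- h map = unit * h0
    obtain ⟨κ, hκ, hhκ⟩ : ∃ κ : K, κ ≠ 0 ∧ h.map (algebraMap (PowerSeries k) K) = C κ * h0 := by
      refine ⟨(algebraMap (PowerSeries k) K PowerSeries.X ^ n)⁻¹ * algebraMap (PowerSeries k) K b,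
        mul_ne_zero (inv_ne_zero (pow_ne_zero _ hmapne)) hbK, ?_⟩
      have e' : C (algebraMap (PowerSeries k) K PowerSeries.X ^ n) *
          h.map (algebraMap (PowerSeries k) K) = C (algebraMap (PowerSeries k) K b) * h0 := by
        rw [← hb2, e, Polynomial.map_mul, Polynomial.map_pow, map_C, C_pow]
      rw [C_mul, mul_assoc, ← e', ← mul_assoc, ← C_mul, inv_mul_cancel₀ (pow_ne_zero _ hmapne),
        C_1, one_mul]
    have hdeg0 : h.natDegree = h0.natDegree := by
      rw [← natDegree_map_eq_of_injective hinj h, hhκ, natDegree_C_mul hκ]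
    have hall : ∀ l, h ∣ f l := by
      intro l
      obtain ⟨g, hg⟩ := hdv l
      -- clear denominators of κ⁻¹ g
      obtain ⟨b', hb'', hg'⟩ := IsLocalization.integerNormalization_spec
        (nonZeroDivisors (PowerSeries k)) (C κ⁻¹ * g)
      set g2 := IsLocalization.integerNormalization (nonZeroDivisors (PowerSeries k))
        (C κ⁻¹ * g) with hg2
      have hb'ne : b' ≠ 0 := nonZeroDivisors.ne_zero hb''
      have hg3 : g2.map (algebraMap (PowerSeries k) K)
          = C (algebraMap (PowerSeries k) K b') * (C κ⁻¹ * g) := by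
        rw [hg']
        ext1 n
        rw [coeff_C_mul, coeff_smul, Algebra.smul_def]
      have h4 : h * g2 = C b' * f l := by
        apply Polynomial.map_injective _ hinj
        rw [Polynomial.map_mul, Polynomial.map_mul, map_C, hg3, hhκ, hg]
        have : (C κ * C κ⁻¹ : Polynomial K) = 1 := by
          rw [← C_mul, mul_inv_cancel₀ hκ, C_1]
        calc C κ * h0 * (C (algebraMap (PowerSeries k) K b') * (C κ⁻¹ * g))
            = (C κ * C κ⁻¹) * (C (algebraMap (PowerSeries k) K b') * (h0 * g)) := by ring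
          _ = _ := by rw [this, one_mul]
      -- b' = X^s * unit
      obtain ⟨s, w, hw⟩ : ∃ (s : ℕ) (w : (PowerSeries k)ˣ),
          b' = PowerSeries.X ^ s * (w : PowerSeries k) := by
        refine ⟨b'.order.toNat, PowerSeries.Unit_of_divided_by_X_pow_order b', ?_⟩
        refine (PowerSeries.X_pow_order_mul_divXPowOrder (f := b')).symm.trans ?_
        exact congrArg (fun t => PowerSeries.X ^ b'.order.toNat * t)
          (PowerSeries.Unit_of_divided_by_X_pow_order_nonzero hb'ne).symm
      refine gauss h (g2 * C (↑w⁻¹ : PowerSeries k)) (f l) s hh ?_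
      rw [← mul_assoc, h4, hw, C_mul, C_pow]
      have : (C (w : PowerSeries k) * C (↑w⁻¹ : PowerSeries k) : Polynomial (PowerSeries k)) = 1 := by
        rw [← C_mul, Units.mul_inv, C_1]
      calc C PowerSeries.X ^ s * C (w : PowerSeries k) * f l * C (↑w⁻¹ : PowerSeries k)
          = C PowerSeries.X ^ s * f l * (C (w : PowerSeries k) * C (↑w⁻¹ : PowerSeries k)) := by ring
        _ = _ := by rw [this, mul_one]
    have := no_common_divisor D f hdeg hO hI hW h hh hall
    exact h0deg (by rw [← hdeg0, this])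
  · obtain ⟨l, m, u, hu, hu0, _⟩ := hI
    refine ⟨l, fun h0 => ?_⟩
    have h1 := hu 0 (Nat.zero_le _)
    rw [Nat.sub_zero, h0, mul_zero] at h1
    rcases mul_eq_zero.1 h1.symm with h3 | h3
    · exact pow_ne_zero _ PowerSeries.X_ne_zero h3
    · exact hu0 (by rw [h3, map_zero])

end main

end Pool.Agent.VFD
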