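import Pool.Agent.Lib_MP_1858fb_f.FDefs

/-!
# MP_1858fb_ag, line F, F-CERT: deformation of the certificate
-/

namespace Pool.Agent.VFF

open Pool.Agent.VF Polynomial

variable {k : Type} [Field k] {N n c : ℕ}

/-- the degree of a homogeneous polynomial of degree `e` at polynomials of degree at most `d` -/
private theorem certDef_natDegree_aeval {A : Type} [CommRing A] [Algebra k A] {d e : ℕ}
    (F : Fin (N + 1) → A[X]) (hF : ∀ i, (F i).natDegree ≤ d) (H : MvPolynomial (Fin (N + 1)) k)
    (hH : H.IsHomogeneous e) : (MvPolynomial.aeval F H).natDegree ≤ d * e := by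
  rw [MvPolynomial.aeval_def, MvPolynomial.eval₂_eq']
  refine Polynomial.natDegree_sum_le_of_forall_le _ _ fun m hm => ?_
  have hm' : m.degree = e := by
    have := hH (MvPolynomial.mem_support_iff.1 hm)
    rw [← this, Finsupp.degree_eq_weight_one]
    rfl
  refine (Polynomial.natDegree_mul_le).trans ?_
  rw [Polynomial.algebraMap_apply, Polynomial.natDegree_C, zero_add]
  refine (Polynomial.natDegree_prod_le _ _).trans ?_
  calc ∑ i, ((F i) ^ m i).natDegree ≤ ∑ i, m i * d := by
        refine Finset.sum_le_sum fun i _ => ?_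
        exact (Polynomial.natDegree_pow_le).trans (Nat.mul_le_mul_left _ (hF i))
    _ = d * e := by
        rw [← Finset.sum_mul, mul_comm, ← hm', Finsupp.degree_eq_sum]

/-- [F-CERT] deformation of the certificate -/
theorem cert_deform (D : VData k N n c) {O : Type} [CommRing O] [IsDomain O] [Algebra k O]
    {d M p : ℕ} {R : Fin (N + 1) → O[X]} {μ : O} (hμ : μ ≠ 0) (hc : Cert D d R μ M) (t : O)
    (ht : μ ∣ t) (F : Fin (N + 1) → (MvPowerSeries (Fin p) O)[X]) (hF : ∀ i, (F i).natDegree ≤ d)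
    (hRd : ∀ i, (R i).natDegree ≤ d)
    (hFR : ∀ i m, ∃ Δ : MvPowerSeries (Fin p) O, MvPowerSeries.constantCoeff Δ = 0 ∧
        (F i).coeff m = MvPowerSeries.C ((R i).coeff m) + MvPowerSeries.C t * Δ) :
    Cert D d F (MvPowerSeries.C μ) M := by
  classical
  obtain ⟨s, rfl⟩ := ht
  set J : Ideal (MvPowerSeries (Fin p) O) :=
    Ideal.span {MvPowerSeries.C (μ * s)} * RingHom.ker (MvPowerSeries.constantCoeff (σ := Fin p) (R := O))
    with hJ
  let CA : O →ₐ[k] MvPowerSeries (Fin p) O :=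
    { (MvPowerSeries.C : O →+* MvPowerSeries (Fin p) O) with
      commutes' := fun r => by
        rw [MvPowerSeries.algebraMap_apply]
        rfl }
  let ψ : O[X] →ₐ[k] (MvPowerSeries (Fin p) O)[X] := Polynomial.mapAlgHom CA
  have hψ : ∀ (f : O[X]) (m : ℕ), (ψ f).coeff m = MvPowerSeries.C (f.coeff m) := by
    intro f m
    change (Polynomial.map (CA : O →+* MvPowerSeries (Fin p) O) f).coeff m = _
    rw [Polynomial.coeff_map]
    rfl
  have hψd : ∀ f : O[X], (ψ f).natDegree ≤ f.natDegree := fun f => Polynomial.natDegree_map_le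
  -- congruences
  have h1 : ∀ i, F i - ψ (R i) ∈ J.map (Polynomial.C) := by
    intro i
    rw [Ideal.mem_map_C_iff]
    intro m
    obtain ⟨Δ, hΔ, hFm⟩ := hFR i m
    rw [Polynomial.coeff_sub, hψ, hFm, add_sub_cancel_left, hJ]
    exact Ideal.mem_span_singleton_mul.2 ⟨Δ, by rwa [RingHom.mem_ker], rfl⟩
  have h2 : ∀ H : MvPolynomial (Fin (N + 1)) k,
      MvPolynomial.aeval F H - ψ (MvPolynomial.aeval R H) ∈ J.map (Polynomial.C) := by
    intro H
    induction H using MvPolynomial.induction_on with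
    | C a =>
      rw [MvPolynomial.aeval_C, MvPolynomial.aeval_C, AlgHom.commutes, sub_self]
      exact Ideal.zero_mem _
    | add P Q hP hQ =>
      rw [map_add, map_add, map_add, add_sub_add_comm]
      exact Ideal.add_mem _ hP hQ
    | mul_X P i hP =>
      rw [map_mul, map_mul, map_mul, MvPolynomial.aeval_X, MvPolynomial.aeval_X]
      have e : MvPolynomial.aeval F P * F i - ψ (MvPolynomial.aeval R P) * ψ (R i) =
          F i * (MvPolynomial.aeval F P - ψ (MvPolynomial.aeval R P)) +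
            ψ (MvPolynomial.aeval R P) * (F i - ψ (R i)) := by ring
      rw [e]
      exact Ideal.add_mem _ (Ideal.mul_mem_left _ _ hP) (Ideal.mul_mem_left _ _ (h1 i))
  choose A hA1 hA2 using hc
  let A' : Fin (M + 1) → Fin D.t → O[X] := fun i => A i (by omega)
  have hA1' : ∀ i l, A' i l ≠ 0 → (A' i l).natDegree + d * D.h l ≤ M := fun i l => hA1 _ _ l
  have hA2' : ∀ i : Fin (M + 1), ∑ l, A' i l * MvPolynomial.aeval R (D.H l) =
      C μ * X ^ (i : ℕ) := fun i => hA2 _ _
  let T : Fin (M + 1) → (MvPowerSeries (Fin p) O)[X] := fun i =>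
    ∑ l, ψ (A' i l) * MvPolynomial.aeval F (D.H l)
  have hTd : ∀ i, (T i).natDegree ≤ M := by
    intro i
    refine Polynomial.natDegree_sum_le_of_forall_le _ _ fun l _ => ?_
    by_cases h0 : A' i l = 0
    · rw [h0, map_zero, zero_mul, Polynomial.natDegree_zero]
      exact Nat.zero_le _
    · refine (Polynomial.natDegree_mul_le).trans ?_
      exact (Nat.add_le_add (hψd _) (certDef_natDegree_aeval F hF _ (D.homH l))).trans
        (hA1' i l h0)
  have hTJ : ∀ i, T i - ψ (C μ * X ^ (i : ℕ)) ∈ J.map (Polynomial.C) := by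
    intro i
    rw [← hA2' i, map_sum, ← Finset.sum_sub_distrib]
    refine Ideal.sum_mem _ fun l _ => ?_
    rw [map_mul, ← mul_sub]
    exact Ideal.mul_mem_left _ _ (h2 _)
  have hcoef : ∀ i j : Fin (M + 1), ∃ δ : MvPowerSeries (Fin p) O,
      MvPowerSeries.constantCoeff δ = 0 ∧ (T i).coeff j =
        MvPowerSeries.C μ * ((1 : Matrix (Fin (M + 1)) (Fin (M + 1)) _) i j + δ) := by
    intro i j
    have h3 := (Ideal.mem_map_C_iff.1 (hTJ i)) j
    rw [hJ, Ideal.mem_span_singleton_mul] at h3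
    obtain ⟨Δ, hΔ, hΔ'⟩ := h3
    rw [RingHom.mem_ker] at hΔ
    refine ⟨MvPowerSeries.C s * Δ, by rw [map_mul, hΔ, mul_zero], ?_⟩
    rw [Polynomial.coeff_sub, hψ, Polynomial.coeff_C_mul, Polynomial.coeff_X_pow,
      eq_sub_iff_add_eq] at hΔ'
    rw [← hΔ', Matrix.one_apply, mul_add, map_mul MvPowerSeries.C μ s, mul_assoc, add_comm]
    congr 1
    by_cases hij : i = j
    · rw [if_pos hij, if_pos (by rw [hij]), mul_one, mul_one]
    · rw [if_neg hij, if_neg (fun h => hij (Fin.ext h.symm)), mul_zero, mul_zero, map_zero]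
  choose δ hδ0 hδ using hcoef
  let Mx : Matrix (Fin (M + 1)) (Fin (M + 1)) (MvPowerSeries (Fin p) O) :=
    Matrix.of fun i j => (1 : Matrix (Fin (M + 1)) (Fin (M + 1)) _) i j + δ i j
  have hMx : ∀ i j, Mx i j = (1 : Matrix (Fin (M + 1)) (Fin (M + 1)) _) i j + δ i j :=
    fun i j => rfl
  have hdet : IsUnit Mx.det := by
    rw [MvPowerSeries.isUnit_iff_constantCoeff, RingHom.map_det]
    have : (MvPowerSeries.constantCoeff (σ := Fin p) (R := O)).mapMatrix Mx = 1 := by
      ext i j
      rw [RingHom.mapMatrix_apply, Matrix.map_apply, hMx, map_add, hδ0, add_zero]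
      simp only [Matrix.one_apply]
      split_ifs
      · rw [map_one]
      · rw [map_zero]
    rw [this, Matrix.det_one]
    exact isUnit_one
  have hinv : Mx⁻¹ * Mx = 1 := Matrix.nonsing_inv_mul _ hdet
  intro i hi
  refine ⟨fun l => ∑ i', C (Mx⁻¹ ⟨i, by omega⟩ i') * ψ (A' i' l), fun l hl => ?_, ?_⟩
  · obtain ⟨i₀, -, hi₀⟩ := Finset.exists_ne_zero_of_sum_ne_zero hl
    have hA0 : A' i₀ l ≠ 0 := by
      intro h0
      apply hi₀
      rw [h0, map_zero, mul_zero]
    have hle := hA1' i₀ l hA0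
    have hall : ∀ i', (A' i' l).natDegree ≤ M - d * D.h l := by
      intro i'
      by_cases h0 : A' i' l = 0
      · rw [h0, Polynomial.natDegree_zero]
        exact Nat.zero_le _
      · have := hA1' i' l h0
        omega
    have : (∑ i', C (Mx⁻¹ ⟨i, by omega⟩ i') * ψ (A' i' l)).natDegree ≤ M - d * D.h l := by
      refine Polynomial.natDegree_sum_le_of_forall_le _ _ fun i' _ => ?_
      exact (Polynomial.natDegree_C_mul_le _ _).trans ((hψd _).trans (hall i'))
    exact le_trans (Nat.add_le_add_right this _) (by omega)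
  · have hT : ∀ i', T i' = ∑ j : Fin (M + 1), C (MvPowerSeries.C μ * Mx i' j) * X ^ (j : ℕ) := by
      intro i'
      rw [Polynomial.as_sum_range' (T i') (M + 1) (Nat.lt_succ_of_le (hTd i')),
        Finset.sum_range]
      refine Finset.sum_congr rfl fun j _ => ?_
      rw [hδ, Polynomial.C_mul_X_pow_eq_monomial]
      rfl
    have e1 : ∑ l, (∑ i', C (Mx⁻¹ ⟨i, by omega⟩ i') * ψ (A' i' l)) *
        MvPolynomial.aeval F (D.H l) = ∑ i', C (Mx⁻¹ ⟨i, by omega⟩ i') * T i' := by
      simp only [Finset.sum_mul, T, Finset.mul_sum]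
      rw [Finset.sum_comm]
      simp only [mul_assoc]
    rw [e1]
    simp only [hT, Finset.mul_sum]
    rw [Finset.sum_comm]
    have e2 : ∀ j : Fin (M + 1), ∑ i', C (Mx⁻¹ ⟨i, by omega⟩ i') *
        (C (MvPowerSeries.C μ * Mx i' j) * X ^ (j : ℕ)) =
        C (MvPowerSeries.C μ) * (C ((1 : Matrix (Fin (M + 1)) (Fin (M + 1)) _) ⟨i, by omega⟩ j) *
          X ^ (j : ℕ)) := by
      intro j
      rw [← hinv, Matrix.mul_apply, map_sum, Finset.sum_mul, Finset.mul_sum]
      refine Finset.sum_congr rfl fun i' _ => ?_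
      rw [map_mul, map_mul]
      ring
    rw [Finset.sum_congr rfl fun j _ => e2 j, Finset.sum_eq_single ⟨i, by omega⟩]
    · rw [Matrix.one_apply_eq, map_one, one_mul]
    · intro j _ hj
      rw [Matrix.one_apply_ne hj.symm, map_zero, zero_mul, mul_zero]
    · intro h
      exact absurd (Finset.mem_univ _) h

end Pool.Agent.VFF
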