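import Pool.Agent.Lib_MP_1858fb_f.FDefs

/-!
# [F-CERTEX] existence of certificates over an algebraically closed field
-/

namespace Pool.Agent.VFF

open Pool.Agent.VF Polynomial

section

variable {k : Type} [Field k] {N n c : ℕ}

/-- degree and leading coefficient of a product -/
theorem CertEx_prod {ι : Type} (s : Finset ι) (f : ι → k[X]) (m : ι → ℕ) (a : ι → k)
    (h : ∀ i ∈ s, (f i).natDegree ≤ m i ∧ (f i).coeff (m i) = a i) :
    (∏ i ∈ s, f i).natDegree ≤ ∑ i ∈ s, m i ∧ (∏ i ∈ s, f i).coeff (∑ i ∈ s, m i) = ∏ i ∈ s, a i := by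
  classical
  induction s using Finset.induction_on with
  | empty => simp
  | insert i s hi ih =>
    obtain ⟨h1, h2⟩ := ih fun j hj => h j (Finset.mem_insert_of_mem hj)
    obtain ⟨h3, h4⟩ := h i (Finset.mem_insert_self i s)
    rw [Finset.prod_insert hi, Finset.sum_insert hi, Finset.prod_insert hi]
    refine ⟨(natDegree_mul_le).trans (add_le_add h3 h1), ?_⟩
    rw [coeff_mul_add_eq_of_natDegree_le h3 h1, h4, h2]

/-- degree and leading coefficient of a form in polynomials of degree `≤ d` -/
theorem CertEx_form {d e : ℕ} {R : Fin (N + 1) → k[X]} (hd : ∀ i, (R i).natDegree ≤ d)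
    {H : MvPolynomial (Fin (N + 1)) k} (hH : H.IsHomogeneous e) :
    (MvPolynomial.aeval R H).natDegree ≤ d * e ∧
      (MvPolynomial.aeval R H).coeff (d * e) = MvPolynomial.aeval (fun i => (R i).coeff d) H := by
  classical
  have key : ∀ m ∈ H.support, (∏ i ∈ m.support, R i ^ m i).natDegree ≤ d * e ∧
      (∏ i ∈ m.support, R i ^ m i).coeff (d * e) = ∏ i ∈ m.support, (R i).coeff d ^ m i := by
    intro m hm
    have h1 := CertEx_prod m.support (fun i => R i ^ m i) (fun i => m i * d)
      (fun i => (R i).coeff d ^ m i) (fun i _ => ⟨natDegree_pow_le_of_le _ (hd i),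
        coeff_pow_of_natDegree_le (hd i)⟩)
    have h2 : ∑ i ∈ m.support, m i * d = d * e := by
      rw [← Finset.sum_mul, mul_comm]
      congr 1
      have h3 := hH (MvPolynomial.mem_support_iff.1 hm)
      rw [← h3, Finsupp.weight_apply, Finsupp.sum]
      simp
    rw [h2] at h1
    exact h1
  rw [MvPolynomial.aeval_eq_eval₂Hom, MvPolynomial.coe_eval₂Hom, MvPolynomial.eval₂_eq]
  constructor
  · refine natDegree_sum_le_of_forall_le _ _ fun m hm => ?_
    exact (natDegree_C_mul_le _ _).trans (key m hm).1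
  · rw [finsetSum_coeff, MvPolynomial.aeval_eq_eval₂Hom, MvPolynomial.coe_eval₂Hom,
      MvPolynomial.eval₂_eq]
    refine Finset.sum_congr rfl fun m hm => ?_
    rw [Polynomial.algebraMap_eq, coeff_C_mul, (key m hm).2]
    rfl

/-- polynomials without common root generate the unit ideal -/
theorem CertEx_bezout [IsAlgClosed k] {t : ℕ} (P : Fin t → k[X])
    (h : ∀ x : k, ∃ l, (P l).eval x ≠ 0) : ∃ B : Fin t → k[X], ∑ l, B l * P l = 1 := by
  have h1 : Ideal.span (Set.range P) = ⊤ := by
    by_contra hne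
    obtain ⟨m, hm, hle⟩ := Ideal.exists_le_maximal _ hne
    obtain ⟨p, hp⟩ := (IsPrincipalIdealRing.principal m).principal
    have hp1 : ¬ IsUnit p := by
      intro hu
      apply hm.ne_top
      rw [hp]
      exact Ideal.span_singleton_eq_top.2 hu
    have hdeg : p.degree ≠ 0 := by
      intro h0
      exact hp1 (Polynomial.isUnit_iff_degree_eq_zero.2 h0)
    obtain ⟨x, hx⟩ := IsAlgClosed.exists_root p hdeg
    obtain ⟨l, hl⟩ := h x
    have h2 : P l ∈ m := hle (Ideal.subset_span ⟨l, rfl⟩)
    rw [hp] at h2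
    obtain ⟨a, ha⟩ := Ideal.mem_span_singleton'.1 h2
    apply hl
    rw [← ha, eval_mul, hx.eq_zero, mul_zero]
  have h2 : (1 : k[X]) ∈ Ideal.span (Set.range P) := by
    rw [h1]
    trivial
  exact Ideal.mem_span_range_iff_exists_fun.1 h2

/-- [F-CERTEX] over an algebraically closed field the certificate exists if no point of the
projective line is mapped into the closed set -/
theorem cert_of_points [IsAlgClosed k] (D : VData k N n c) {d : ℕ} {R : Fin (N + 1) → k[X]}
    (hd : ∀ i, (R i).natDegree ≤ d) (h : ∀ x : k, ∃ l, MvPolynomial.aeval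
      (fun i => (R i).eval x) (D.H l) ≠ 0)
    (hinf : ∃ l, MvPolynomial.aeval (fun i => (R i).coeff d) (D.H l) ≠ 0) :
    ∃ M, Cert D d R (1 : k) M := by
  classical
  let P : Fin D.t → k[X] := fun l => MvPolynomial.aeval R (D.H l)
  have hP : ∀ l, (P l).natDegree ≤ d * D.h l := fun l => (CertEx_form hd (D.homH l)).1
  obtain ⟨B, hB⟩ := CertEx_bezout P (by
    intro x
    obtain ⟨l, hl⟩ := h x
    refine ⟨l, ?_⟩
    have h1 := MvPolynomial.comp_aeval_apply R (Polynomial.aeval x : k[X] →ₐ[k] k) (D.H l)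
    simp only [Polynomial.coe_aeval_eq_eval] at h1
    change eval x (MvPolynomial.aeval R (D.H l)) ≠ 0
    rw [h1]
    exact hl)
  obtain ⟨l0, hl0⟩ := hinf
  rw [← (CertEx_form hd (D.homH l0)).2] at hl0
  change (P l0).coeff (d * D.h l0) ≠ 0 at hl0
  have hP0 : P l0 ≠ 0 := by
    intro h0
    rw [h0, coeff_zero] at hl0
    exact hl0 rfl
  have hdeg0 : (P l0).natDegree = d * D.h l0 := le_antisymm (hP l0) (le_natDegree_of_ne_zero hl0)
  let M := d * D.h l0 + ∑ l, d * D.h l
  have hle : ∀ l, d * D.h l ≤ ∑ l, d * D.h l := fun l =>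
    Finset.single_le_sum (f := fun l => d * D.h l) (fun _ _ => Nat.zero_le _) (Finset.mem_univ l)
  refine ⟨M, fun i hi => ?_⟩
  let A0 : Fin D.t → k[X] := fun l => (X ^ i * B l) % P l0
  have hA0 : ∀ l, A0 l ≠ 0 → (A0 l).natDegree < (P l0).natDegree := by
    intro l hl
    exact Polynomial.natDegree_lt_natDegree hl (Polynomial.degree_mod_lt _ hP0)
  let Z : k[X] := X ^ i - ∑ l ∈ Finset.univ.erase l0, A0 l * P l
  have hZdvd : P l0 ∣ Z := by
    have h1 : X ^ i = ∑ l, (X ^ i * B l) * P l := by
      simp only [mul_assoc]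
      rw [← Finset.mul_sum, hB, mul_one]
    have h2 : Z = ∑ l ∈ Finset.univ.erase l0, (X ^ i * B l - A0 l) * P l +
        (X ^ i * B l0) * P l0 := by
      have h3 : ∑ l, (X ^ i * B l) * P l = ∑ l ∈ Finset.univ.erase l0, (X ^ i * B l) * P l +
          (X ^ i * B l0) * P l0 := (Finset.sum_erase_add _ _ (Finset.mem_univ l0)).symm
      have h5 := h1.trans h3
      simp only [Z, sub_mul, Finset.sum_sub_distrib]
      linear_combination h5
    rw [h2]
    refine dvd_add (Finset.dvd_sum fun l _ => ?_) (dvd_mul_left _ _)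
    refine Dvd.dvd.mul_right ?_ _
    refine ⟨(X ^ i * B l) / P l0, ?_⟩
    have h4 := EuclideanDomain.div_add_mod (X ^ i * B l) (P l0)
    simp only [A0]
    linear_combination -h4
  obtain ⟨Y, hY⟩ := hZdvd
  have hZdeg : Z.natDegree ≤ M := by
    refine (natDegree_sub_le _ _).trans (max_le ?_ ?_)
    · rw [natDegree_X_pow]
      exact hi
    · refine natDegree_sum_le_of_forall_le _ _ fun l _ => ?_
      by_cases hl : A0 l = 0
      · rw [hl, zero_mul, natDegree_zero]
        exact Nat.zero_le _
      · refine natDegree_mul_le.trans ?_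
        have h1 := hA0 l hl
        have h2 := hP l
        have h3 := hle l
        simp only [M]
        omega
  refine ⟨fun l => if l = l0 then Y else A0 l, fun l hl => ?_, ?_⟩
  · dsimp only at hl ⊢
    by_cases hll : l = l0
    · subst hll
      rw [if_pos rfl] at hl ⊢
      have h1 : Z.natDegree = (P l).natDegree + Y.natDegree := by
        rw [hY, natDegree_mul hP0 hl]
      omega
    · rw [if_neg hll] at hl ⊢
      have h1 := hA0 l hl
      have h3 := hle l
      simp only [M]
      omega
  · rw [C_1, one_mul, ← Finset.sum_erase_add _ _ (Finset.mem_univ l0)]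
    dsimp only
    rw [if_pos rfl]
    have h1 : ∑ l ∈ Finset.univ.erase l0, (if l = l0 then Y else A0 l) *
        MvPolynomial.aeval R (D.H l) = ∑ l ∈ Finset.univ.erase l0, A0 l * P l := by
      refine Finset.sum_congr rfl fun l hl => ?_
      rw [if_neg (Finset.ne_of_mem_erase hl)]
    rw [h1]
    have h2 : Y * MvPolynomial.aeval R (D.H l0) = Z := by
      rw [hY, mul_comm]
    rw [h2]
    simp only [Z]
    ring

end

end Pool.Agent.VFF
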