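import Pool.Agent.Lib_MP_1858fb_f.FDefs
import Pool.Agent.Lib_MP_1858fb_w.Formal

set_option autoImplicit false

/-!
# MP_1858fb_ag, line F: F-CHART (chart_sub), by induction on the coefficient
-/

namespace Pool.Agent.VFF

open Pool.Agent.VF Polynomial

variable {k : Type} [Field k] {N n c : ℕ}

/-- [F-CHART] A point of `V` over `A⟦X⟧`, congruent to `y`, whose frame coordinates have all
coefficients in the subalgebra `B`, has all coefficients in `B`. -/
theorem chart_sub [IsAlgClosed k] (D : VData k N n c) {y : Fin (N + 1) → k} (fy : FrameAt D y)
    {A : Type} [CommRing A] [Algebra k A] (B : Subalgebra k A) (x : Fin (N + 1) → PowerSeries A)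
    (hx : OnV D.V x) (hx0 : ∀ i, PowerSeries.constantCoeff (x i) = algebraMap k A (y i))
    (hl : ∀ a m, PowerSeries.coeff m (lin (fy.l a) x) ∈ B) :
    ∀ i m, PowerSeries.coeff m (x i) ∈ B := by
  suffices h : ∀ m i, PowerSeries.coeff m (x i) ∈ B from fun i m => h m i
  intro m
  induction m using Nat.strong_induction_on with
  | _ m ih =>
    rcases Nat.eq_zero_or_pos m with rfl | hm
    · intro i
      rw [PowerSeries.coeff_zero_eq_constantCoeff_apply, hx0]
      exact B.algebraMap_mem _
    · -- the truncation
      let s'' : Fin (N + 1) → PowerSeries B := fun j => PowerSeries.mk fun m' =>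
        if h : m' < m then ⟨PowerSeries.coeff m' (x j), ih m' h j⟩ else 0
      let f : PowerSeries B →+* PowerSeries A := PowerSeries.map (B.val : B →+* A)
      let s' : Fin (N + 1) → PowerSeries A := fun j => f (s'' j)
      have hs' : ∀ j m', PowerSeries.coeff m' (s' j) =
          if m' < m then PowerSeries.coeff m' (x j) else 0 := by
        intro j m'
        simp only [s', s'', f, PowerSeries.coeff_map, PowerSeries.coeff_mk]
        split_ifs with h
        · rfl
        · simp
      let Δ : Fin (N + 1) → PowerSeries A := fun j => x j - s' j
      have hΔ : ∀ j, Δ j ∈ Ideal.span {(PowerSeries.X : PowerSeries A) ^ m} := by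
        intro j
        rw [Ideal.mem_span_singleton, PowerSeries.X_pow_dvd_iff]
        intro m' hm'
        simp only [Δ, map_sub, hs', if_pos hm', sub_self]
      have hsum : (fun j => s' j + Δ j) = x := by
        funext j
        simp [Δ]
      -- the differentials of the members of the ideal
      have hdE : ∀ E ∈ van D.V, ∑ l, algebraMap k A (MvPolynomial.aeval y
          (MvPolynomial.pderiv l E)) * PowerSeries.coeff m (x l) ∈ B := by
        intro E hE
        have htay := VF.Fm.taylor_mem (Ideal.span {(PowerSeries.X : PowerSeries A) ^ m})
          (Ideal.span {(PowerSeries.X : PowerSeries A) ^ (m + 1)}) (by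
            intro x hx y hy
            rw [Ideal.mem_span_singleton] at hx hy ⊢
            refine (pow_dvd_pow _ (by omega : m + 1 ≤ m + m)).trans ?_
            rw [pow_add]
            exact mul_dvd_mul hx hy) s' Δ hΔ E
        rw [hsum, hx E hE, zero_sub, Ideal.mem_span_singleton, PowerSeries.X_pow_dvd_iff] at htay
        have h1 := htay m (by omega)
        rw [map_sub, map_neg, map_sum, sub_eq_zero] at h1
        have h2 : ∀ l, PowerSeries.coeff m (MvPolynomial.aeval s' (MvPolynomial.pderiv l E) * Δ l) =
            algebraMap k A (MvPolynomial.aeval y (MvPolynomial.pderiv l E)) *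
              PowerSeries.coeff m (x l) := by
          intro l
          have hc : PowerSeries.constantCoeff (MvPolynomial.aeval s' (MvPolynomial.pderiv l E)) =
              algebraMap k A (MvPolynomial.aeval y (MvPolynomial.pderiv l E)) := by
            have e1 : (PowerSeries.constantCoeff (R := A))
                (MvPolynomial.aeval s' (MvPolynomial.pderiv l E)) =
                MvPolynomial.aeval (fun j => PowerSeries.constantCoeff (s' j))
                  (MvPolynomial.pderiv l E) := by
              have := MvPolynomial.map_aeval (R := k) s' (PowerSeries.constantCoeff (R := A))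
                (MvPolynomial.pderiv l E)
              rw [this, MvPolynomial.aeval_def]
              congr 1
            have e2 : (fun j => PowerSeries.constantCoeff (s' j)) =
                fun j => algebraMap k A (y j) := by
              funext j
              rw [← PowerSeries.coeff_zero_eq_constantCoeff_apply, hs', if_pos hm,
                PowerSeries.coeff_zero_eq_constantCoeff_apply, hx0]
            rw [e1, e2]
            exact MvPolynomial.aeval_algebraMap_apply A y (MvPolynomial.pderiv l E)
          obtain ⟨r, hr⟩ := Ideal.mem_span_singleton.1 (hΔ l)
          have hcr : PowerSeries.coeff m (x l) = PowerSeries.constantCoeff r := by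
            have : PowerSeries.coeff m (Δ l) = PowerSeries.coeff m (x l) := by
              simp only [Δ, map_sub, hs', lt_irrefl, if_false, sub_zero]
            rw [← this, hr]
            have := PowerSeries.coeff_X_pow_mul r m 0
            simpa using this
          rw [hr, hcr]
          have e3 : MvPolynomial.aeval s' (MvPolynomial.pderiv l E) *
              ((PowerSeries.X : PowerSeries A) ^ m * r) =
              (PowerSeries.X : PowerSeries A) ^ m *
                (MvPolynomial.aeval s' (MvPolynomial.pderiv l E) * r) := by ring
          rw [e3]
          have := PowerSeries.coeff_X_pow_mul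
            (MvPolynomial.aeval s' (MvPolynomial.pderiv l E) * r) m 0
          rw [zero_add] at this
          rw [this, PowerSeries.coeff_zero_eq_constantCoeff_apply, map_mul, hc]
        simp only [h2] at h1
        rw [← h1]
        apply B.neg_mem
        have h3 : MvPolynomial.aeval s' E = f (MvPolynomial.aeval s'' E) := by
          have := MvPolynomial.map_aeval (R := k) s'' f E
          rw [this, MvPolynomial.aeval_def]
          congr 1
        rw [h3]
        simp only [f, PowerSeries.coeff_map]
        exact (PowerSeries.coeff m (MvPolynomial.aeval s'' E)).2
      -- the left inverse of the frame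
      obtain ⟨hE, Bm, hB⟩ := fy.hfr
      have hrow : ∀ a, ∑ j, algebraMap k A (row fy.l fy.E y a j) * PowerSeries.coeff m (x j) ∈
          B := by
        intro a
        rcases a with a | b
        · have h1 := hl a m
          have h2 : PowerSeries.coeff m (lin (fy.l a) x) =
              ∑ j, algebraMap k A (fy.l a j) * PowerSeries.coeff m (x j) := by
            simp only [lin, map_sum]
            refine Finset.sum_congr rfl fun j _ => ?_
            rw [PowerSeries.algebraMap_apply, PowerSeries.coeff_C_mul]
          rw [h2] at h1
          simpa [row] using h1
        · have := hdE (fy.E b) (hE b)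
          simpa [row] using this
      intro i
      have h1 : PowerSeries.coeff m (x i) = ∑ a, algebraMap k A (Bm i a) *
          ∑ j, algebraMap k A (row fy.l fy.E y a j) * PowerSeries.coeff m (x j) := by
        simp only [Finset.mul_sum]
        rw [Finset.sum_comm]
        have h2 : ∀ j, ∑ a, algebraMap k A (Bm i a) * (algebraMap k A (row fy.l fy.E y a j) *
            PowerSeries.coeff m (x j)) = (if i = j then 1 else 0) * PowerSeries.coeff m (x j) := by
          intro j
          have h3 := congrArg (algebraMap k A) (hB i j)
          rw [map_sum] at h3
          simp only [← mul_assoc]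
          rw [← Finset.sum_mul]
          congr 1
          rw [show (∑ a, algebraMap k A (Bm i a) * algebraMap k A (row fy.l fy.E y a j)) =
            ∑ a, algebraMap k A (Bm i a * row fy.l fy.E y a j) from
            Finset.sum_congr rfl fun a _ => (map_mul _ _ _).symm, h3]
          split_ifs <;> simp
        simp only [h2]
        simp
      rw [h1]
      exact B.sum_mem fun a _ => B.mul_mem (B.algebraMap_mem _) (hrow a)

end Pool.Agent.VFF
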