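import Pool.Agent.Lib_MP_1858fb_f.FDefs

/-!
# MP_1858fb_ag, line F: points over `A⟦X⟧` whose frame coordinates have coefficients in `B`
-/

namespace Pool.Agent.VFF

open Pool.Agent.VF

namespace Chart9

variable {k : Type} [Field k] {A : Type} [CommRing A] [Algebra k A]

lemma coeff_mul_low {f g : PowerSeries A} {m : ℕ} (h : ∀ j < m, PowerSeries.coeff j f = 0) :
    (∀ j < m, PowerSeries.coeff j (f * g) = 0) ∧
      PowerSeries.coeff m (f * g) = PowerSeries.coeff m f * PowerSeries.constantCoeff g := by
  have hd : PowerSeries.X ^ m ∣ f := by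
    rw [PowerSeries.X_pow_dvd_iff]
    exact h
  obtain ⟨f', rfl⟩ := hd
  constructor
  · intro j hj
    have : PowerSeries.X ^ m ∣ PowerSeries.X ^ m * f' * g := ⟨f' * g, by ring⟩
    exact (PowerSeries.X_pow_dvd_iff.1 this) j hj
  · rw [mul_assoc, PowerSeries.coeff_X_pow_mul', PowerSeries.coeff_X_pow_mul', if_pos le_rfl,
      Nat.sub_self]
    simp

/-- first order Taylor formula for the coefficient `m` -/
lemma taylor {σ : Type} [Fintype σ] {x u : σ → PowerSeries A} {m : ℕ} (hm : 0 < m)
    (h : ∀ i, ∀ j < m, PowerSeries.coeff j (x i - u i) = 0) (E : MvPolynomial σ k) :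
    (∀ j < m, PowerSeries.coeff j (MvPolynomial.aeval x E - MvPolynomial.aeval u E) = 0) ∧
      PowerSeries.coeff m (MvPolynomial.aeval x E - MvPolynomial.aeval u E) =
        ∑ i, MvPolynomial.aeval (fun i => PowerSeries.constantCoeff (x i))
          (MvPolynomial.pderiv i E) * PowerSeries.coeff m (x i - u i) := by
  classical
  have hc : ∀ F : MvPolynomial σ k, PowerSeries.constantCoeff (MvPolynomial.aeval u F) =
      MvPolynomial.aeval (fun i => PowerSeries.constantCoeff (x i)) F := by
    intro F
    have h0 : ∀ i, PowerSeries.constantCoeff (u i) = PowerSeries.constantCoeff (x i) := by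
      intro i
      have := h i 0 hm
      rw [map_sub, sub_eq_zero] at this
      simpa using this.symm
    have h1 : (PowerSeries.constantCoeff (R := A)) (MvPolynomial.aeval u F) =
        MvPolynomial.aeval (fun i => PowerSeries.constantCoeff (u i)) F := by
      rw [MvPolynomial.aeval_def, MvPolynomial.aeval_def, MvPolynomial.hom_eval₂]
      congr 1
    rw [h1]
    congr 2
    funext i
    exact h0 i
  induction E using MvPolynomial.induction_on with
  | C a => simp
  | add p q hp hq =>
    constructor
    · intro j hj
      have : MvPolynomial.aeval x (p + q) - MvPolynomial.aeval u (p + q) =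
          (MvPolynomial.aeval x p - MvPolynomial.aeval u p) +
            (MvPolynomial.aeval x q - MvPolynomial.aeval u q) := by
        rw [map_add, map_add]; ring
      rw [this, map_add, hp.1 j hj, hq.1 j hj, add_zero]
    · have : MvPolynomial.aeval x (p + q) - MvPolynomial.aeval u (p + q) =
          (MvPolynomial.aeval x p - MvPolynomial.aeval u p) +
            (MvPolynomial.aeval x q - MvPolynomial.aeval u q) := by
        rw [map_add, map_add]; ring
      rw [this, map_add, hp.2, hq.2, ← Finset.sum_add_distrib]
      refine Finset.sum_congr rfl fun i _ => ?_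
      rw [map_add, map_add]; ring
  | mul_X p s hp =>
    have key : MvPolynomial.aeval x (p * MvPolynomial.X s) -
        MvPolynomial.aeval u (p * MvPolynomial.X s) =
          (MvPolynomial.aeval x p - MvPolynomial.aeval u p) * x s +
            (x s - u s) * MvPolynomial.aeval u p := by
      rw [map_mul, map_mul, MvPolynomial.aeval_X, MvPolynomial.aeval_X]; ring
    have h1 := coeff_mul_low (g := x s) hp.1
    have h2 := coeff_mul_low (g := MvPolynomial.aeval u p) (h s)
    constructor
    · intro j hj
      rw [key, map_add, h1.1 j hj, h2.1 j hj, add_zero]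
    · rw [key, map_add, h1.2, h2.2, hp.2, hc, Finset.sum_mul]
      have : ∀ i, MvPolynomial.aeval (fun i => PowerSeries.constantCoeff (x i))
          (MvPolynomial.pderiv i (p * MvPolynomial.X s)) * PowerSeries.coeff m (x i - u i) =
          MvPolynomial.aeval (fun i => PowerSeries.constantCoeff (x i))
          (MvPolynomial.pderiv i p) * PowerSeries.coeff m (x i - u i) *
            PowerSeries.constantCoeff (x s) +
          (if s = i then PowerSeries.coeff m (x i - u i) *
            MvPolynomial.aeval (fun i => PowerSeries.constantCoeff (x i)) p else 0) := by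
        intro i
        rw [Derivation.leibniz, MvPolynomial.pderiv_X, smul_eq_mul, smul_eq_mul, map_add,
          map_mul, map_mul, MvPolynomial.aeval_X]
        by_cases hi : s = i
        · subst hi
          rw [if_pos rfl, Pi.single_eq_same, map_one]
          ring
        · rw [if_neg hi, Pi.single_eq_of_ne hi, map_zero]
          ring
      rw [Finset.sum_congr rfl fun i _ => this i, Finset.sum_add_distrib,
        Finset.sum_ite_eq Finset.univ s, if_pos (Finset.mem_univ s)]

/-- the power series with coefficients in `B` -/
def ser (B : Subalgebra k A) : Subalgebra k (PowerSeries A) where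
  carrier := {f | ∀ m, PowerSeries.coeff m f ∈ B}
  mul_mem' := by
    intro f g hf hg m
    rw [PowerSeries.coeff_mul]
    exact Subalgebra.sum_mem _ fun p _ => Subalgebra.mul_mem _ (hf _) (hg _)
  add_mem' := by
    intro f g hf hg m
    rw [map_add]
    exact Subalgebra.add_mem _ (hf _) (hg _)
  algebraMap_mem' := by
    intro r m
    rw [PowerSeries.algebraMap_apply, PowerSeries.coeff_C]
    split_ifs
    · exact Subalgebra.algebraMap_mem _ _
    · exact Subalgebra.zero_mem _

lemma aeval_mem {σ : Type} (B : Subalgebra k A) {u : σ → PowerSeries A} (hu : ∀ i, u i ∈ ser B)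
    (E : MvPolynomial σ k) : MvPolynomial.aeval u E ∈ ser B := by
  induction E using MvPolynomial.induction_on with
  | C a =>
    rw [MvPolynomial.aeval_C]
    exact Subalgebra.algebraMap_mem _ _
  | add p q hp hq =>
    rw [map_add]
    exact Subalgebra.add_mem _ hp hq
  | mul_X p s hp =>
    rw [map_mul, MvPolynomial.aeval_X]
    exact Subalgebra.mul_mem _ hp (hu s)

end Chart9

open Chart9 in
/-- [F-CHART] A point of `V` over `A⟦X⟧`, congruent to `y`, whose frame coordinates have all
coefficients in the subalgebra `B`, has all coefficients in `B`. -/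
theorem chart_sub {k : Type} [Field k] {N n c : ℕ} [IsAlgClosed k] (D : VData k N n c)
    {y : Fin (N + 1) → k} (fy : FrameAt D y)
    {A : Type} [CommRing A] [Algebra k A] (B : Subalgebra k A) (x : Fin (N + 1) → PowerSeries A)
    (hx : OnV D.V x) (hx0 : ∀ i, PowerSeries.constantCoeff (x i) = algebraMap k A (y i))
    (hl : ∀ a m, PowerSeries.coeff m (lin (fy.l a) x) ∈ B) :
    ∀ i m, PowerSeries.coeff m (x i) ∈ B := by
  obtain ⟨hE, M, hM⟩ := fy.hfr
  suffices h : ∀ m i, PowerSeries.coeff m (x i) ∈ B from fun i m => h m i
  intro m
  induction m using Nat.strong_induction_on with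
  | _ m ih =>
  rcases Nat.eq_zero_or_pos m with rfl | hm
  · intro i
    have := hx0 i
    rw [← PowerSeries.coeff_zero_eq_constantCoeff_apply] at this
    rw [this]
    exact Subalgebra.algebraMap_mem _ _
  -- the truncation
  set u : Fin (N + 1) → PowerSeries A := fun i => (PowerSeries.trunc m (x i) : Polynomial A)
    with hu
  have hcu : ∀ i j, PowerSeries.coeff j (u i) = if j < m then PowerSeries.coeff j (x i) else 0 := by
    intro i j
    rw [hu]
    simp only [Polynomial.coeff_coe, PowerSeries.coeff_trunc]
  have huB : ∀ i, u i ∈ ser B := by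
    intro i j
    rw [hcu]
    split_ifs with h
    · exact ih j h i
    · exact Subalgebra.zero_mem _
  have hxu : ∀ i, ∀ j < m, PowerSeries.coeff j (x i - u i) = 0 := by
    intro i j hj
    rw [map_sub, hcu, if_pos hj, sub_self]
  have hxm : ∀ i, PowerSeries.coeff m (x i - u i) = PowerSeries.coeff m (x i) := by
    intro i
    rw [map_sub, hcu, if_neg (lt_irrefl m), sub_zero]
  have hcy : (fun i => PowerSeries.constantCoeff (x i)) = fun i => algebraMap k A (y i) :=
    funext hx0
  -- the rows
  have hrow : ∀ a, ∑ i, algebraMap k A (row fy.l fy.E y a i) * PowerSeries.coeff m (x i) ∈ B := by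
    rintro (a | b)
    · have h1 := hl a m
      rw [lin, map_sum] at h1
      have h2 : ∀ i, PowerSeries.coeff m (algebraMap k (PowerSeries A) (fy.l a i) * x i) =
          algebraMap k A (row fy.l fy.E y (Sum.inl a) i) * PowerSeries.coeff m (x i) := by
        intro i
        rw [PowerSeries.algebraMap_apply, PowerSeries.coeff_C_mul]
        rfl
      rw [Finset.sum_congr rfl fun i _ => h2 i] at h1
      exact h1
    · have h1 := (taylor hm hxu (fy.E b)).2
      rw [hx (fy.E b) (hE b), zero_sub, map_neg, hcy] at h1
      have h2 : ∀ i, MvPolynomial.aeval (fun i => algebraMap k A (y i))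
          (MvPolynomial.pderiv i (fy.E b)) * PowerSeries.coeff m (x i - u i) =
          algebraMap k A (row fy.l fy.E y (Sum.inr b) i) * PowerSeries.coeff m (x i) := by
        intro i
        rw [hxm]
        congr 1
        exact MvPolynomial.aeval_algebraMap_apply A y _
      rw [Finset.sum_congr rfl fun i _ => h2 i] at h1
      rw [← h1]
      exact Subalgebra.neg_mem _ (aeval_mem B huB (fy.E b) m)
  intro i
  have h3 : PowerSeries.coeff m (x i) = ∑ a, algebraMap k A (M i a) *
      ∑ j, algebraMap k A (row fy.l fy.E y a j) * PowerSeries.coeff m (x j) := by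
    have h4 : ∀ j, ∑ a, algebraMap k A (M i a) * algebraMap k A (row fy.l fy.E y a j) =
        if i = j then 1 else 0 := by
      intro j
      have := congrArg (algebraMap k A) (hM i j)
      rw [map_sum] at this
      simp only [map_mul] at this
      rw [this]
      split_ifs <;> simp
    simp only [Finset.mul_sum]
    rw [Finset.sum_comm]
    simp only [← mul_assoc, ← Finset.sum_mul, h4]
    simp
  rw [h3]
  exact Subalgebra.sum_mem _ fun a _ => Subalgebra.mul_mem _ (Subalgebra.algebraMap_mem _ _)
    (hrow a)

end Pool.Agent.VFF
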