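import Mathlib

set_option autoImplicit false

/-!
# MP_1858fb_ag, line F: fixed points, congruences, Laurent parts, factorisation of units
-/

namespace Pool.Agent.VFF

section Fixed

/-- A contraction for a complete separated sequence of relations has exactly one fixed point. -/
theorem exists_fixed {T : Type*} (r : ℕ → T → T → Prop) (hr : ∀ n, Equivalence (r n))
    (h0 : ∀ x y, r 0 x y)
    (hcomp : ∀ s : ℕ → T, (∀ n, r n (s n) (s (n + 1))) → ∃ x, ∀ n, r n (s n) x)
    (hsep : ∀ x y, (∀ n, r n x y) → x = y) (Ψ : T → T)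
    (hΨ : ∀ n x y, r n x y → r (n + 1) (Ψ x) (Ψ y)) (x0 : T) : ∃! x, Ψ x = x := by
  let s : ℕ → T := fun n => Ψ^[n] x0
  have hs : ∀ n, r n (s n) (s (n + 1)) := by
    intro n
    induction n with
    | zero => exact h0 _ _
    | succ n ih =>
      have := hΨ n _ _ ih
      simpa only [s, ← Function.iterate_succ_apply' Ψ] using this
  obtain ⟨x, hx⟩ := hcomp s hs
  refine ⟨x, ?_, ?_⟩
  · apply hsep
    intro n
    cases n with
    | zero => exact h0 _ _
    | succ n =>
      have h1 : r (n + 1) (s (n + 1)) (Ψ x) := by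
        have := hΨ n _ _ (hx n)
        simpa only [s, ← Function.iterate_succ_apply' Ψ] using this
      exact (hr _).trans ((hr _).symm h1) (hx (n + 1))
  · intro y hy
    apply hsep
    intro n
    induction n with
    | zero => exact h0 _ _
    | succ n ih =>
      have := hΨ n _ _ ih
      rwa [hy, show Ψ x = x from ?_] at this
      apply hsep
      intro n
      cases n with
      | zero => exact h0 _ _
      | succ n =>
        have h1 : r (n + 1) (s (n + 1)) (Ψ x) := by
          have := hΨ n _ _ (hx n)
          simpa only [s, ← Function.iterate_succ_apply' Ψ] using this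
        exact (hr _).trans ((hr _).symm h1) (hx (n + 1))

open PowerSeries in
/-- Fixed points of maps that are contracting for the `X`-adic distance on a product of rings of
power series, on the set of the families divisible by `X ^ s`. -/
theorem exists_fixed_powerSeries {ι : Type*} {B : ι → Type*} [∀ i, CommRing (B i)] (m : ℕ)
    (Ψ : (∀ i, PowerSeries (B i)) → (∀ i, PowerSeries (B i)))
    (hm : ∀ a, (∀ i, (X : PowerSeries (B i)) ^ m ∣ a i) →
      ∀ i, (X : PowerSeries (B i)) ^ m ∣ Ψ a i)
    (hΨ : ∀ j a b, (∀ i, (X : PowerSeries (B i)) ^ m ∣ a i) →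
      (∀ i, (X : PowerSeries (B i)) ^ m ∣ b i) →
      (∀ i, (X : PowerSeries (B i)) ^ j ∣ a i - b i) →
      ∀ i, (X : PowerSeries (B i)) ^ (j + 1) ∣ Ψ a i - Ψ b i) :
    ∃ a : ∀ i, PowerSeries (B i), (∀ i, (X : PowerSeries (B i)) ^ m ∣ a i) ∧ Ψ a = a ∧
      ∀ b, (∀ i, (X : PowerSeries (B i)) ^ m ∣ b i) → Ψ b = b → b = a := by
  let T := {a : ∀ i, PowerSeries (B i) // ∀ i, (X : PowerSeries (B i)) ^ m ∣ a i}
  let r : ℕ → T → T → Prop := fun n a b => ∀ i, (X : PowerSeries (B i)) ^ n ∣ a.1 i - b.1 i
  obtain ⟨⟨a, ha⟩, h1, h2⟩ := exists_fixed (T := T) r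
    (fun n => ⟨fun a i => by simp, fun h i => by rw [← neg_sub]; exact (h i).neg_right,
      fun h h' i => by
        have := dvd_add (h i) (h' i)
        rwa [sub_add_sub_cancel] at this⟩)
    (fun a b i => by simp)
    (by
      intro s hs
      have key : ∀ i n k, n ≤ k → (X : PowerSeries (B i)) ^ n ∣ (s n).1 i - (s k).1 i := by
        intro i n k hnk
        induction k, hnk using Nat.le_induction with
        | base => simp
        | succ k hk ih =>
          have := dvd_add ih ((pow_dvd_pow _ hk).trans (hs k i))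
          rwa [sub_add_sub_cancel] at this
      have hlim : ∀ i, ∃ x : PowerSeries (B i), ∀ n,
          (X : PowerSeries (B i)) ^ n ∣ (s n).1 i - x := by
        intro i
        refine ⟨PowerSeries.mk fun n => coeff n ((s (n + 1)).1 i), fun n => ?_⟩
        rw [PowerSeries.X_pow_dvd_iff]
        intro l hl
        rw [map_sub, PowerSeries.coeff_mk, sub_eq_zero]
        have := PowerSeries.X_pow_dvd_iff.1 (key i (l + 1) n (by omega)) l (by omega)
        rw [map_sub, sub_eq_zero] at this
        exact this.symm
      choose x hx using hlim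
      refine ⟨⟨x, fun i => ?_⟩, fun n i => hx i n⟩
      have := dvd_sub ((s m).2 i) (hx i m)
      rwa [sub_sub_cancel] at this)
    (by
      intro a b h
      apply Subtype.ext
      funext i
      rw [← sub_eq_zero]
      ext n
      exact PowerSeries.X_pow_dvd_iff.1 (h (n + 1) i) n (by omega))
    (fun a => ⟨Ψ a.1, hm a.1 a.2⟩)
    (fun n a b h => hΨ n a.1 b.1 a.2 b.2 h)
    ⟨0, fun i => dvd_zero _⟩
  refine ⟨a, ha, congrArg Subtype.val h1, fun b hb hb' => ?_⟩
  exact congrArg Subtype.val (h2 ⟨b, hb⟩ (Subtype.ext hb'))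

end Fixed

section Congr

open MvPowerSeries

/-- Power series respect congruences modulo an ideal all of whose elements have coefficient
zero at `e`. -/
theorem coeff_subst_congr {σ τ R S : Type*} [CommRing R] [CommRing S] [Algebra R S]
    {a b : σ → MvPowerSeries τ S} (ha : HasSubst a) (hb : HasSubst b)
    (I : Ideal (MvPowerSeries τ S)) (hab : ∀ i, a i - b i ∈ I) (e : τ →₀ ℕ)
    (he : ∀ g ∈ I, coeff e g = 0) (f : MvPowerSeries σ R) :
    coeff e (subst a f) = coeff e (subst b f) := by
  rw [coeff_subst ha, coeff_subst hb]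
  apply finsum_congr
  intro d
  congr 1
  rw [← sub_eq_zero, ← map_sub]
  apply he
  rw [← Ideal.Quotient.eq]
  simp only [Finsupp.prod, map_prod, map_pow]
  refine Finset.prod_congr rfl fun i _ => ?_
  rw [Ideal.Quotient.eq.2 (hab i)]

end Congr

end Pool.Agent.VFF
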