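import Mathlib

set_option autoImplicit false

/-!
# MP_1858fb_ag, line F: parts of Laurent series, factorisation of units
-/

namespace Pool.Agent.VFF

section Laurent

variable {A : Type*} [CommRing A]

/-- the part of a Laurent series with exponents at least `0` -/
noncomputable def lp : LaurentSeries A →+ LaurentSeries A where
  toFun f := f - HahnSeries.truncLT (0 : ℤ) f
  map_zero' := by
    ext i
    simp
  map_add' f g := by
    ext i
    simp only [HahnSeries.coeff_sub, HahnSeries.coeff_add, HahnSeries.coeff_truncLT]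
    split_ifs <;> ring

theorem coeff_lp (f : LaurentSeries A) (i : ℤ) :
    (lp f).coeff i = if 0 ≤ i then f.coeff i else 0 := by
  show (f - HahnSeries.truncLT (0 : ℤ) f).coeff i = _
  rw [HahnSeries.coeff_sub, HahnSeries.coeff_truncLT]
  by_cases h : 0 ≤ i
  · rw [if_pos h, if_neg (not_lt.2 h), sub_zero]
  · rw [if_neg h, if_pos (not_le.1 h), sub_self]

variable (R : Type*) [CommRing R] [Algebra R A]

theorem coeff_algebraMap (r : R) (i : ℤ) :
    (algebraMap R (LaurentSeries A) r).coeff i = if i = 0 then algebraMap R A r else 0 := by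
  rw [HahnSeries.algebraMap_apply', PowerSeries.algebraMap_apply, HahnSeries.ofPowerSeries_C,
    HahnSeries.C_apply, HahnSeries.coeff_single]
  split_ifs <;> rfl

variable (A)

/-- Laurent series without negative exponents -/
noncomputable def Lge : Subalgebra R (LaurentSeries A) where
  carrier := {f | ∀ i, i < 0 → f.coeff i = 0}
  add_mem' := by
    intro a b ha hb i hi
    rw [HahnSeries.coeff_add, ha i hi, hb i hi, add_zero]
  mul_mem' := by
    intro a b ha hb i hi
    rw [HahnSeries.coeff_mul]
    apply Finset.sum_eq_zero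
    intro x hx
    rw [Finset.mem_antidiagonal] at hx
    obtain ⟨h1, h2, h3⟩ := hx
    have : x.1 < 0 ∨ x.2 < 0 := by
      by_contra hcon
      push Not at hcon
      have : 0 ≤ x.1 + x.2 := add_nonneg hcon.1 hcon.2
      rw [h3] at this
      exact absurd hi (not_lt.2 this)
    rcases this with h | h
    · rw [ha _ h, zero_mul]
    · rw [hb _ h, mul_zero]
  algebraMap_mem' := by
    intro r i hi
    rw [coeff_algebraMap, if_neg hi.ne]

/-- Laurent series without positive exponents -/
noncomputable def Lle : Subalgebra R (LaurentSeries A) where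
  carrier := {f | ∀ i, 0 < i → f.coeff i = 0}
  add_mem' := by
    intro a b ha hb i hi
    rw [HahnSeries.coeff_add, ha i hi, hb i hi, add_zero]
  mul_mem' := by
    intro a b ha hb i hi
    rw [HahnSeries.coeff_mul]
    apply Finset.sum_eq_zero
    intro x hx
    rw [Finset.mem_antidiagonal] at hx
    obtain ⟨h1, h2, h3⟩ := hx
    have : 0 < x.1 ∨ 0 < x.2 := by
      by_contra hcon
      push Not at hcon
      have : x.1 + x.2 ≤ 0 := add_nonpos hcon.1 hcon.2
      rw [h3] at this
      exact absurd hi (not_lt.2 this)
    rcases this with h | h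
    · rw [ha _ h, zero_mul]
    · rw [hb _ h, mul_zero]
  algebraMap_mem' := by
    intro r i hi
    rw [coeff_algebraMap, if_neg hi.ne']

variable {A}

theorem mem_Lge {f : LaurentSeries A} : f ∈ Lge A R ↔ ∀ i, i < 0 → f.coeff i = 0 := Iff.rfl

theorem mem_Lle {f : LaurentSeries A} : f ∈ Lle A R ↔ ∀ i, 0 < i → f.coeff i = 0 := Iff.rfl

theorem lp_mem (f : LaurentSeries A) : lp f ∈ Lge A R := by
  intro i hi
  rw [coeff_lp, if_neg (not_le.2 hi)]

theorem coeff_sub_lp (f : LaurentSeries A) (i : ℤ) (hi : 0 ≤ i) : (f - lp f).coeff i = 0 := by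
  rw [HahnSeries.coeff_sub, coeff_lp, if_pos hi, sub_self]

theorem sub_lp_mem (f : LaurentSeries A) : f - lp f ∈ Lle A R := fun i hi =>
  coeff_sub_lp f i hi.le

end Laurent

section Coeffwise

open PowerSeries

/-- apply an additive map to every coefficient -/
noncomputable def cw {B : Type*} [CommRing B] (π : B →+ B) : PowerSeries B →+ PowerSeries B where
  toFun f := PowerSeries.mk fun n => π (coeff n f)
  map_zero' := by ext n; simp
  map_add' f g := by ext n; simp

theorem coeff_cw {B : Type*} [CommRing B] (π : B →+ B) (f : PowerSeries B) (n : ℕ) :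
    coeff n (cw π f) = π (coeff n f) := by
  show coeff n (PowerSeries.mk fun n => π (coeff n f)) = _
  rw [coeff_mk]

theorem dvd_cw {B : Type*} [CommRing B] (π : B →+ B) {f : PowerSeries B} {j : ℕ}
    (h : (X : PowerSeries B) ^ j ∣ f) : (X : PowerSeries B) ^ j ∣ cw π f := by
  rw [X_pow_dvd_iff] at h ⊢
  intro m hm
  rw [coeff_cw, h m hm, map_zero]

/-- the power series with coefficients in a subalgebra -/
def PS {R B : Type*} [CommRing R] [CommRing B] [Algebra R B] (L : Subalgebra R B) :
    Subring (PowerSeries B) where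
  carrier := {f | ∀ n, coeff n f ∈ L}
  add_mem' := by
    intro a b ha hb n
    rw [map_add]
    exact L.add_mem (ha n) (hb n)
  mul_mem' := by
    intro a b ha hb n
    rw [coeff_mul]
    exact L.sum_mem fun x _ => L.mul_mem (ha _) (hb _)
  zero_mem' := by
    intro n
    rw [map_zero]
    exact L.zero_mem
  one_mem' := by
    intro n
    rw [coeff_one]
    split_ifs
    · exact L.one_mem
    · exact L.zero_mem
  neg_mem' := by
    intro a ha n
    rw [map_neg]
    exact L.neg_mem (ha n)

theorem mem_PS {R B : Type*} [CommRing R] [CommRing B] [Algebra R B] {L : Subalgebra R B}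
    {f : PowerSeries B} : f ∈ PS L ↔ ∀ n, coeff n f ∈ L := Iff.rfl

/-- the inverse of `1 + e` with `e = 0 mod q` has its coefficients where `e` has them -/
theorem exists_inv {R B : Type*} [CommRing R] [CommRing B] [Algebra R B] (L : Subalgebra R B)
    (e : PowerSeries B) (he : (X : PowerSeries B) ∣ e) (heL : e ∈ PS L) :
    ∃ w ∈ PS L, (1 + e) * w = 1 ∧ (X : PowerSeries B) ∣ w - 1 := by
  have h0 : constantCoeff e = 0 := X_dvd_iff.1 he
  have hu : constantCoeff (1 + e) = ((1 : Bˣ) : B) := by simp [h0]
  let w := invOfUnit (1 + e) 1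
  have hw : (1 + e) * w = 1 := mul_invOfUnit _ _ hu
  refine ⟨w, ?_, hw, ?_⟩
  · intro n
    induction n using Nat.strong_induction_on with
    | _ n ih =>
      have h1 : w = 1 - e * w := by linear_combination hw
      rw [h1, map_sub, coeff_mul]
      refine L.sub_mem ?_ (L.sum_mem fun x hx => ?_)
      · rw [coeff_one]
        split_ifs
        · exact L.one_mem
        · exact L.zero_mem
      · rw [Finset.HasAntidiagonal.mem_antidiagonal] at hx
        rcases Nat.eq_zero_or_pos x.1 with h | h
        · rw [h, coeff_zero_eq_constantCoeff_apply, h0, zero_mul]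
          exact L.zero_mem
        · exact L.mul_mem (heL _) (ih _ (by omega))
  · have h1 : w - 1 = -(e * w) := by linear_combination hw
    rw [h1]
    exact (he.mul_right _).neg_right

end Coeffwise

end Pool.Agent.VFF
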