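import Mathlib

set_option autoImplicit false

/-!
# MP_1858fb_ag, line F: the rings of the formal gluing

`W = A[[Q, P]]` is `MvPowerSeries (Fin 2) A` with `Q = X 0`, `P = X 1`, `q = P Q`. The ring of a
circle is `OO A = A((P))[[q]]` (`PowerSeries (LaurentSeries A)`); `toOO : W → OO A` is the
embedding with `Q = q / P`. The ring of the other circle is the same with `P`, `Q` exchanged
(`swap`).
-/

namespace Pool.Agent.VFF

open MvPowerSeries

variable (A : Type*) [CommRing A]

/-- The ring of a circle: power series in `q` over the Laurent series in `P`. -/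
abbrev OO := PowerSeries (LaurentSeries A)

/-- exponents: `j` for the variable `0`, `i` for the variable `1` -/
noncomputable def ex (i j : ℕ) : Fin 2 →₀ ℕ := Finsupp.cons j (Finsupp.single 0 i)

theorem ex_zero (i j : ℕ) : ex i j 0 = j := by simp [ex]

theorem ex_one (i j : ℕ) : ex i j 1 = i := by simp [ex, Finsupp.cons]

theorem eq_ex (e : Fin 2 →₀ ℕ) : e = ex (e 1) (e 0) := by
  ext x
  fin_cases x
  · simp [ex_zero]
  · simp [ex_one]

/-- `A[[Q, P]]` as power series in `Q = X 0` over the power series in `P = X 1`. -/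
noncomputable def toPP : MvPowerSeries (Fin 2) A →+* PowerSeries (PowerSeries A) :=
  (PowerSeries.map (renameEquiv A (Equiv.equivPUnit (Fin 1) : Fin 1 ≃ Unit) :
    MvPowerSeries (Fin 1) A →+* MvPowerSeries Unit A)).comp
      ((finSuccEquiv A 1 : MvPowerSeries (Fin 2) A ≃ₐ[A] PowerSeries (MvPowerSeries (Fin 1) A)) :
        MvPowerSeries (Fin 2) A →+* PowerSeries (MvPowerSeries (Fin 1) A))

variable {A}

theorem coeff_toPP (w : MvPowerSeries (Fin 2) A) (i j : ℕ) :
    PowerSeries.coeff i (PowerSeries.coeff j (toPP A w)) = coeff (ex i j) w := by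
  have h1 : PowerSeries.coeff j (toPP A w) =
      rename (Equiv.equivPUnit (Fin 1)) (PowerSeries.coeff j (finSuccEquiv A 1 w)) := by
    simp [toPP]
  rw [h1, PowerSeries.coeff, ex, ← coeff_coeff_finSuccEquiv]
  have h2 : (Finsupp.single () i : Unit →₀ ℕ) =
      Finsupp.embDomain (Equiv.equivPUnit (Fin 1)).toEmbedding (Finsupp.single 0 i) := by
    rw [Finsupp.embDomain_single]
  rw [h2]
  exact coeff_embDomain_rename (Equiv.equivPUnit (Fin 1)).toEmbedding _ _

variable (A) in
/-- The embedding of `A[[Q, P]]` in the ring of the circle, `Q = q / P`. -/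
noncomputable def toOO : MvPowerSeries (Fin 2) A →+* OO A :=
  (PowerSeries.rescale (HahnSeries.single (-1 : ℤ) (1 : A))).comp
    ((PowerSeries.map (HahnSeries.ofPowerSeries ℤ A)).comp (toPP A))

theorem coeff_toOO (w : MvPowerSeries (Fin 2) A) (n : ℕ) (i : ℤ) :
    (PowerSeries.coeff n (toOO A w)).coeff i =
      if 0 ≤ i + n then coeff (ex (i + n).toNat n) w else 0 := by
  have h1 : PowerSeries.coeff n (toOO A w) =
      HahnSeries.single (-(n : ℤ)) (1 : A) *
        HahnSeries.ofPowerSeries ℤ A (PowerSeries.coeff n (toPP A w)) := by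
    simp [toOO, PowerSeries.coeff_rescale, HahnSeries.single_pow]
  have h2 : i = (i + n) + (-(n : ℤ)) := by ring
  rw [h1, h2, HahnSeries.coeff_single_mul_add, one_mul, ← h2]
  split_ifs with h
  · obtain ⟨m, hm⟩ := Int.eq_ofNat_of_zero_le h
    rw [hm, HahnSeries.ofPowerSeries_apply_coeff, coeff_toPP]
    simp
  · rw [HahnSeries.ofPowerSeries_apply]
    apply HahnSeries.embDomain_of_notMem_range
    rintro ⟨m, hm⟩
    apply h
    rw [← hm]
    exact Int.natCast_nonneg m

theorem toOO_injective : Function.Injective (toOO A) := by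
  intro w w' h
  ext e
  have h1 := coeff_toOO w (e 0) ((e 1 : ℤ) - (e 0 : ℤ))
  have h2 := coeff_toOO w' (e 0) ((e 1 : ℤ) - (e 0 : ℤ))
  rw [h, h2] at h1
  simp only [sub_add_cancel, Int.natCast_nonneg, if_true, Int.toNat_natCast] at h1
  rw [← eq_ex e] at h1
  exact h1.symm

/-- The image of `A[[Q, P]]` in the ring of the circle. -/
theorem exists_toOO (f : OO A) (h : ∀ (n : ℕ) (i : ℤ), i + n < 0 →
    (PowerSeries.coeff n f).coeff i = 0) : ∃ w, toOO A w = f := by
  let w : MvPowerSeries (Fin 2) A :=
    fun e => (PowerSeries.coeff (e 0) f).coeff ((e 1 : ℤ) - (e 0 : ℤ))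
  have hw : ∀ e, coeff e w = (PowerSeries.coeff (e 0) f).coeff ((e 1 : ℤ) - (e 0 : ℤ)) :=
    fun e => rfl
  refine ⟨w, ?_⟩
  ext n i
  rw [coeff_toOO]
  split_ifs with h0
  · rw [hw, ex_zero, ex_one, Int.toNat_of_nonneg h0, add_sub_cancel_right]
  · exact (h n i (by omega)).symm

theorem toOO_X0 : toOO A (X 0) = PowerSeries.C (HahnSeries.single (-1 : ℤ) (1 : A)) *
    PowerSeries.X := by
  have h1 : toPP A (X 0) = PowerSeries.X := by
    simp [toPP]
  simp only [toOO, RingHom.comp_apply, h1, PowerSeries.map_X, PowerSeries.rescale_X]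

theorem toOO_X1 : toOO A (X 1) = PowerSeries.C (HahnSeries.single (1 : ℤ) (1 : A)) := by
  have h1 : toPP A (X 1) = PowerSeries.C (PowerSeries.X : PowerSeries A) := by
    have h2 : finSuccEquiv A 1 (X 1) = PowerSeries.C (X 0) :=
      finSuccEquiv_X_succ (R := A) (n := 1) 0
    simp only [toPP, RingHom.comp_apply]
    rw [show ((finSuccEquiv A 1 : MvPowerSeries (Fin 2) A ≃ₐ[A]
        PowerSeries (MvPowerSeries (Fin 1) A)) : MvPowerSeries (Fin 2) A →+*
          PowerSeries (MvPowerSeries (Fin 1) A)) (X 1) = PowerSeries.C (X 0) from h2,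
      PowerSeries.map_C]
    congr 1
    show rename (Equiv.equivPUnit (Fin 1)) (X 0) = (PowerSeries.X : PowerSeries A)
    rw [rename_X]
    rfl
  simp only [toOO, RingHom.comp_apply, h1, PowerSeries.map_C, HahnSeries.ofPowerSeries_X]
  ext n i
  simp only [PowerSeries.coeff_rescale, PowerSeries.coeff_C]
  split_ifs with h
  · subst h; simp
  · simp

theorem toOO_q : toOO A (X 1 * X 0) = PowerSeries.X := by
  rw [map_mul, toOO_X0, toOO_X1, ← mul_assoc, ← map_mul, HahnSeries.single_mul_single]
  simp

theorem toOO_C (a : A) : toOO A (C a) = PowerSeries.C (HahnSeries.C a) := by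
  have h1 : toPP A (C a) = PowerSeries.C (PowerSeries.C a) := by
    ext j i
    rw [coeff_toPP, PowerSeries.coeff_C]
    split_ifs with hj
    · subst hj
      rw [PowerSeries.coeff_C]
      split_ifs with hi
      · subst hi
        have : ex 0 0 = 0 := by
          ext x; fin_cases x
          · simp [ex_zero]
          · simp [ex_one]
        rw [this, coeff_C, if_pos rfl]
      · rw [coeff_C, if_neg]
        intro h
        apply hi
        rw [← ex_one i 0, h]
        rfl
    · rw [map_zero, coeff_C, if_neg]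
      intro h
      apply hj
      rw [← ex_zero i j, h]
      rfl
  simp only [toOO, RingHom.comp_apply, h1, PowerSeries.map_C, HahnSeries.ofPowerSeries_C]
  ext n i
  simp only [PowerSeries.coeff_rescale, PowerSeries.coeff_C]
  split_ifs with h
  · subst h; simp
  · simp

end Pool.Agent.VFF
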