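import Mathlib
import Pool.Agent.Lib_MP_1858fb_f.Fix
import Pool.Agent.Lib_MP_1858fb_f.Ring
import Pool.Agent.Lib_MP_1858fb_f.Parts

set_option autoImplicit false

/-!
# MP_1858fb_ag, line F: factorisation of units, polynomials
-/

namespace Pool.Agent.VFF

open PowerSeries

/-- `1 + e = (1 + p) (1 + r)` with `p` in the image of `π` and `r` in the image of `1 - π`. -/
theorem exists_factor {B : Type*} [CommRing B] (π : B →+ B) (e : PowerSeries B)
    (he : (X : PowerSeries B) ∣ e) : ∃ p r : PowerSeries B, X ∣ p ∧ X ∣ r ∧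
      (∀ n, ∃ b, coeff n p = π b) ∧ (∀ n, ∃ b, coeff n r = b - π b) ∧
      1 + e = (1 + p) * (1 + r) := by
  -- the contraction: first component p, second component r
  let f : (Fin 2 → PowerSeries B) → PowerSeries B := fun a => e - a 0 * a 1
  let Ψ : (Fin 2 → PowerSeries B) → (Fin 2 → PowerSeries B) := fun a =>
    ![cw π (f a), f a - cw π (f a)]
  have hf : ∀ a, (∀ i, (X : PowerSeries B) ^ 1 ∣ a i) → (X : PowerSeries B) ^ 1 ∣ f a := by
    intro a ha
    refine dvd_sub (by rwa [pow_one]) ?_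
    exact (ha 0).mul_right _
  obtain ⟨a, ha, hfix, -⟩ := exists_fixed_powerSeries (ι := Fin 2) (B := fun _ => B) 1 Ψ
    (by
      intro a ha i
      have := hf a ha
      fin_cases i
      · exact dvd_cw π this
      · exact dvd_sub this (dvd_cw π this))
    (by
      intro j a b ha hb hab i
      have h1 : (X : PowerSeries B) ^ (j + 1) ∣ f a - f b := by
        have e1 : f a - f b = -(a 0 * (a 1 - b 1) + (a 0 - b 0) * b 1) := by
          simp only [f]; ring
        rw [e1, pow_add]
        refine (dvd_add ?_ ?_).neg_right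
        · rw [mul_comm (X ^ j)]
          exact mul_dvd_mul (ha 0) (hab 1)
        · exact mul_dvd_mul (hab 0) (hb 1)
      have h2 : (X : PowerSeries B) ^ (j + 1) ∣ cw π (f a) - cw π (f b) := by
        rw [← map_sub]
        exact dvd_cw π h1
      fin_cases i
      · exact h2
      · have e2 : Ψ a 1 - Ψ b 1 = (f a - f b) - (cw π (f a) - cw π (f b)) := by
          show (f a - cw π (f a)) - (f b - cw π (f b)) = _
          ring
        show (X : PowerSeries B) ^ (j + 1) ∣ Ψ a 1 - Ψ b 1
        rw [e2]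
        exact dvd_sub h1 h2)
  have h0 : a 0 = cw π (f a) := (congrFun hfix 0).symm
  have h1 : a 1 = f a - cw π (f a) := (congrFun hfix 1).symm
  refine ⟨a 0, a 1, by simpa using ha 0, by simpa using ha 1, fun n => ?_, fun n => ?_, ?_⟩
  · exact ⟨coeff n (f a), by rw [h0, coeff_cw]⟩
  · exact ⟨coeff n (f a), by rw [h1, map_sub, coeff_cw]⟩
  · have h2 : a 0 + a 1 = e - a 0 * a 1 := by
      have : a 0 + a 1 = f a := by
        rw [h1]
        conv_lhs => rw [h0]
        ring
      rw [this]
    linear_combination -h2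

variable {A : Type*} [CommRing A]

/-- factorisation of a unit `1 + O(q)` on the circle: `p` has exponents `≥ 0`, `r` exponents
`< 0` -/
theorem exists_factor_circle (R : Type*) [CommRing R] [Algebra R A] (e : OO A)
    (he : (X : OO A) ∣ e) : ∃ p r : OO A, X ∣ p ∧ X ∣ r ∧ p ∈ PS (Lge A R) ∧
      (∀ (n : ℕ) (i : ℤ), 0 ≤ i → (coeff n r).coeff i = 0) ∧ 1 + e = (1 + p) * (1 + r) := by
  obtain ⟨p, r, hp, hr, hp1, hr1, h⟩ := exists_factor lp e he
  refine ⟨p, r, hp, hr, fun n => ?_, fun n i hi => ?_, h⟩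
  · obtain ⟨b, hb⟩ := hp1 n
    rw [hb]
    exact lp_mem R b
  · obtain ⟨b, hb⟩ := hr1 n
    rw [hb]
    exact coeff_sub_lp b i hi

variable (A) in
/-- exchange of `P` and `Q` -/
noncomputable def sw : MvPowerSeries (Fin 2) A ≃ₐ[A] MvPowerSeries (Fin 2) A :=
  MvPowerSeries.renameEquiv A (Equiv.swap 0 1)

theorem coeff_sw (w : MvPowerSeries (Fin 2) A) (i j : ℕ) :
    MvPowerSeries.coeff (ex i j) (sw A w) = MvPowerSeries.coeff (ex j i) w := by
  have h1 : ex i j = Finsupp.embDomain (Equiv.swap (0 : Fin 2) 1).toEmbedding (ex j i) := by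
    rw [Finsupp.embDomain_eq_mapDomain]
    ext x
    have h2 : x = (Equiv.swap (0 : Fin 2) 1) ((Equiv.swap (0 : Fin 2) 1) x) := by simp
    rw [h2]
    rw [show ((Equiv.swap (0 : Fin 2) 1).toEmbedding : Fin 2 → Fin 2) =
      (Equiv.swap (0 : Fin 2) 1) from rfl,
      Finsupp.mapDomain_apply (Equiv.swap (0 : Fin 2) 1).injective]
    fin_cases x
    · simp [ex_zero, ex_one]
    · simp [ex_zero, ex_one]
  rw [h1]
  exact MvPowerSeries.coeff_embDomain_rename (Equiv.swap (0 : Fin 2) 1).toEmbedding w (ex j i)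

/-- the exponents of an element of `A[[Q, P]]` that has bounded exponents on both circles -/
theorem le_of_circles (w : MvPowerSeries (Fin 2) A) (D : ℕ)
    (h2 : ∀ (n : ℕ) (i : ℤ), 0 < i → (coeff n (toOO A w)).coeff i = 0)
    (h1 : ∀ (n : ℕ) (i : ℤ), D < i → (coeff n (toOO A (sw A w))).coeff i = 0) (i j : ℕ)
    (h : MvPowerSeries.coeff (ex i j) w ≠ 0) : i ≤ j ∧ j ≤ i + D := by
  constructor
  · by_contra hcon
    apply h
    have := h2 j ((i : ℤ) - j) (by omega)
    rw [coeff_toOO] at this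
    simpa using this
  · by_contra hcon
    apply h
    have := h1 i ((j : ℤ) - i) (by omega)
    rw [coeff_toOO] at this
    simp only [sub_add_cancel, Int.natCast_nonneg, if_true, Int.toNat_natCast] at this
    rwa [coeff_sw] at this

end Pool.Agent.VFF
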