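import Mathlib

/-!
# Contractions for the adic topology, by coefficients
-/

namespace Pool.Agent.Lib_MP_1858fb_f

/-- Fixed points by coefficients. `x : ℕ → Y` is a sequence of coefficients. `S` is a closed
condition, `Ψ` preserves `S` and improves agreement by one. -/
theorem exists_fixed {Y : Type*} (S : Set (ℕ → Y))
    (hcl : ∀ x : ℕ → Y, (∀ j : ℕ, ∃ y ∈ S, ∀ i < j, y i = x i) → x ∈ S)
    (Ψ : (ℕ → Y) → ℕ → Y) (hmaps : ∀ x ∈ S, Ψ x ∈ S)
    (hcontr : ∀ x ∈ S, ∀ y ∈ S, ∀ j : ℕ, (∀ i < j, x i = y i) → ∀ i < j + 1, Ψ x i = Ψ y i)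
    (x₀ : ℕ → Y) (hx₀ : x₀ ∈ S) :
    ∃ x ∈ S, Ψ x = x ∧ ∀ y ∈ S, Ψ y = y → y = x := by
  set u : ℕ → ℕ → Y := fun n => Ψ^[n] x₀ with hu
  have hu1 : ∀ n, u (n + 1) = Ψ (u n) := fun n => Function.iterate_succ_apply' Ψ n x₀
  have huS : ∀ n, u n ∈ S := by
    intro n
    induction n with
    | zero => exact hx₀
    | succ n ih => rw [hu1]; exact hmaps _ ih
  have h1 : ∀ n, ∀ i < n, u (n + 1) i = u n i := by
    intro n
    induction n with
    | zero => intro i hi; omega
    | succ n ih =>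
      intro i hi
      rw [hu1 (n + 1)]
      conv_rhs => rw [hu1 n]
      exact hcontr _ (huS _) _ (huS _) n ih i hi
  have h2 : ∀ i n, i < n → ∀ m, n ≤ m → u m i = u n i := by
    intro i n hn m hm
    induction m, hm using Nat.le_induction with
    | base => rfl
    | succ m hm ih => rw [h1 m i (lt_of_lt_of_le hn hm), ih]
  set x : ℕ → Y := fun i => u (i + 1) i with hx
  have hxu : ∀ n, ∀ i < n, x i = u n i := by
    intro n i hi
    rw [hx]
    exact (h2 i (i + 1) (by omega) n (by omega)).symm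
  have hxS : x ∈ S := hcl x fun j => ⟨u j, huS j, fun i hi => (hxu j i hi).symm⟩
  have hfix : Ψ x = x := by
    funext i
    have h3 := hcontr x hxS (u i) (huS i) i (hxu i) i (by omega)
    rw [h3, ← hu1]
  refine ⟨x, hxS, hfix, fun y hy hyf => ?_⟩
  have h4 : ∀ j : ℕ, ∀ i < j, y i = x i := by
    intro j
    induction j with
    | zero => intro i hi; omega
    | succ j ih =>
      intro i hi
      have := hcontr y hy x hxS j ih i hi
      rwa [hyf, hfix] at this
  funext i
  exact h4 (i + 1) i (by omega)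

end Pool.Agent.Lib_MP_1858fb_f
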