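import Pool.Agent.Lib_MP_1858fb_f.GDefs

/-! # MP_1858fb_ag, line F, piece F-COVER: pull back of the curve by `X ↦ X ^ (w + 1)` -/

namespace Pool.Agent.VFF

open Pool.Agent.VF Polynomial

variable {k : Type} [Field k] {N n c : ℕ}

namespace CoverF

theorem aeval_alg {A B : Type} [CommRing A] [CommRing B] [Algebra k A] [Algebra k B]
    (φ : A →ₐ[k] B) {σ : Type} (x : σ → A) (E : MvPolynomial σ k) :
    MvPolynomial.aeval (fun i => φ (x i)) E = φ (MvPolynomial.aeval x E) := by
  have h : MvPolynomial.aeval (fun i => φ (x i)) = φ.comp (MvPolynomial.aeval x) := by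
    apply MvPolynomial.algHom_ext
    intro i
    simp
  rw [h]
  rfl

theorem onV_alg {A B : Type} [CommRing A] [CommRing B] [Algebra k A] [Algebra k B]
    (φ : A →ₐ[k] B) {V : Set (Fin (N + 1) → k)} {x : Fin (N + 1) → A} (h : OnV V x) :
    OnV V (fun i => φ (x i)) := by
  intro E hE
  rw [aeval_alg, h E hE, map_zero]

theorem tang_alg {A B : Type} [CommRing A] [CommRing B] [Algebra k A] [Algebra k B]
    (φ : A →ₐ[k] B) {V : Set (Fin (N + 1) → k)} {x w : Fin (N + 1) → A} (h : Tang V x w) :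
    Tang V (fun i => φ (x i)) (fun i => φ (w i)) := by
  intro E hE
  have h1 := congrArg φ (h E hE)
  rw [map_zero, dif, map_sum] at h1
  rw [dif, ← h1]
  refine Finset.sum_congr rfl fun j _ => ?_
  rw [aeval_alg, map_mul]

theorem tang_smul {A : Type} [CommRing A] [Algebra k A]
    {V : Set (Fin (N + 1) → k)} {x w : Fin (N + 1) → A} (h : Tang V x w) (a : A) :
    Tang V x (fun i => a * w i) := by
  intro E hE
  have h1 := h E hE
  rw [dif] at h1 ⊢
  have : ∑ j, MvPolynomial.aeval x (MvPolynomial.pderiv j E) * (a * w j) =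
      a * ∑ j, MvPolynomial.aeval x (MvPolynomial.pderiv j E) * w j := by
    rw [Finset.mul_sum]
    exact Finset.sum_congr rfl fun j _ => by ring
  rw [this, h1, mul_zero]

theorem cert_expand (D : VData k N n c) {d : ℕ} {R : Fin (N + 1) → k[X]} {μ : k} {M : ℕ}
    (h : Cert D d R μ M) (w : ℕ) :
    Cert D ((w + 1) * d) (fun i => expand k (w + 1) (R i)) μ ((w + 1) * M + w) := by
  intro i hi
  have hq : i / (w + 1) ≤ M := by
    rw [← Nat.lt_add_one_iff]
    apply Nat.div_lt_of_lt_mul
    nlinarith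
  obtain ⟨A, hA1, hA2⟩ := h (i / (w + 1)) hq
  have hr : i % (w + 1) ≤ w := Nat.lt_add_one_iff.mp (Nat.mod_lt _ (Nat.succ_pos w))
  refine ⟨fun l => X ^ (i % (w + 1)) * expand k (w + 1) (A l), ?_, ?_⟩
  · intro l hl
    have hAl : A l ≠ 0 := by
      rintro h0
      apply hl
      simp only [h0, map_zero, mul_zero]
    have h1 := hA1 l hAl
    have h2 : (X ^ (i % (w + 1)) * expand k (w + 1) (A l)).natDegree ≤
        i % (w + 1) + (A l).natDegree * (w + 1) := by
      refine natDegree_mul_le.trans ?_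
      rw [natDegree_expand]
      exact Nat.add_le_add_right (natDegree_X_pow_le _) _
    have h3 : (w + 1) * ((A l).natDegree + d * D.h l) ≤ (w + 1) * M := Nat.mul_le_mul_left _ h1
    calc _ ≤ i % (w + 1) + (A l).natDegree * (w + 1) + (w + 1) * d * D.h l :=
          Nat.add_le_add_right h2 _
      _ = i % (w + 1) + (w + 1) * ((A l).natDegree + d * D.h l) := by ring
      _ ≤ w + (w + 1) * M := Nat.add_le_add hr h3
      _ = (w + 1) * M + w := Nat.add_comm _ _
  · have h1 := congrArg (expand k (w + 1)) hA2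
    rw [map_sum, map_mul, map_pow, expand_C, expand_X, ← pow_mul] at h1
    have h2 : ∀ l, X ^ (i % (w + 1)) * expand k (w + 1) (A l) *
        MvPolynomial.aeval (fun i => expand k (w + 1) (R i)) (D.H l) =
        X ^ (i % (w + 1)) * expand k (w + 1) (A l * MvPolynomial.aeval R (D.H l)) := by
      intro l
      rw [aeval_alg (expand k (w + 1)) R (D.H l), map_mul, mul_assoc]
    simp only [h2]
    rw [← Finset.mul_sum, h1]
    have h3 : (w + 1) * (i / (w + 1)) + i % (w + 1) = i := Nat.div_add_mod _ _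
    calc X ^ (i % (w + 1)) * (C μ * X ^ ((w + 1) * (i / (w + 1))))
        = C μ * X ^ ((w + 1) * (i / (w + 1)) + i % (w + 1)) := by rw [pow_add]; ring
      _ = C μ * X ^ i := by rw [h3]

end CoverF

open CoverF in
/-- [F-COVER] pull back by `X ↦ X ^ (w + 1)`: sections adapted to the marks -/
theorem exists_cover [IsAlgClosed k] (D : VData k N n c) {w : ℕ} (vs : Fin w → Fin (N + 1) → k)
    (h : HasCurve D vs) :
    ∃ d : ℕ, 0 < d ∧ ∃ (R : Fin (N + 1) → k[X]) (cm : Fin w → k), Function.Injective cm ∧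
      (∀ l, cm l ≠ 0) ∧ Curve D d R ∧ (∀ l, Prop' (vs l) (fun i => (R i).eval (cm l))) ∧
      ∃ g : Fin n → Fin (N + 1) → k[X], Sec D d R cm g := by
  obtain ⟨d, hd, R, cm, hinj, hne, hR, hP, g, hg⟩ := h
  have hroot : ∀ l, ∃ z : k, z ^ (w + 1) = cm l := fun l =>
    IsAlgClosed.exists_pow_nat_eq (cm l) (Nat.succ_pos w)
  choose ρ hρ using hroot
  have hev : ∀ (f : k[X]) (l : Fin w), (expand k (w + 1) f).eval (ρ l) = f.eval (cm l) := by
    intro f l
    rw [expand_eval, hρ]
  set Q : k[X] := ∏ l, (X - C (ρ l)) with hQ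
  have hQm : Q.Monic := monic_prod_of_monic _ _ fun l _ => monic_X_sub_C _
  have hQd : Q.natDegree = w := by
    rw [hQ, natDegree_prod_of_monic _ _ fun l _ => monic_X_sub_C _]
    simp
  have hQ0 : ∀ l, Q.eval (ρ l) = 0 := by
    intro l
    rw [hQ, eval_prod]
    exact Finset.prod_eq_zero (Finset.mem_univ l) (by simp)
  refine ⟨(w + 1) * d, Nat.mul_pos (Nat.succ_pos w) hd, fun i => expand k (w + 1) (R i), ρ,
    ?_, ?_, ⟨?_, ?_, ?_⟩, ?_, fun j i => Q * expand k (w + 1) (g j i), ⟨?_, ?_, ?_, ?_⟩⟩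
  · intro a b hab
    apply hinj
    rw [← hρ a, ← hρ b, hab]
  · intro l hl
    apply hne l
    rw [← hρ l, hl, zero_pow (Nat.succ_ne_zero w)]
  · intro i
    rw [natDegree_expand, mul_comm]
    exact Nat.mul_le_mul_left _ (hR.deg i)
  · exact onV_alg (expand k (w + 1)) hR.onV
  · obtain ⟨μ, hμ, M, hM⟩ := hR.cert
    exact ⟨μ, hμ, _, cert_expand D hM w⟩
  · intro l
    have h1 := hP l
    simp only [hev]
    exact h1
  · intro j i
    have h1 := hg.deg j i
    have h2 : (Q * expand k (w + 1) (g j i)).natDegree ≤ w + (g j i).natDegree * (w + 1) := by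
      refine natDegree_mul_le.trans ?_
      rw [natDegree_expand, hQd]
    have h3 : (w + 1) * ((g j i).natDegree + 1) ≤ (w + 1) * d := Nat.mul_le_mul_left _ h1
    calc _ ≤ w + (g j i).natDegree * (w + 1) := h2
      _ < (w + 1) * ((g j i).natDegree + 1) := by linarith
      _ ≤ _ := h3
  · intro j
    exact tang_smul (tang_alg (expand k (w + 1)) (hg.tan j)) Q
  · intro j l
    refine ⟨0, fun i => ?_⟩
    have : (algebraMap k k (ρ l)) = ρ l := rfl
    rw [this, eval_mul, hQ0, zero_mul, zero_mul]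
  · have h1 := hg.ind
    have h2 : ∀ i, (expand k (w + 1) (R i)).coeff ((w + 1) * d) = (R i).coeff d := by
      intro i
      rw [coeff_expand_mul' (Nat.succ_pos w)]
    have h3 : ∀ j i, (Q * expand k (w + 1) (g j i)).coeff ((w + 1) * d - 1) =
        (g j i).coeff (d - 1) := by
      intro j i
      have h4 : (w + 1) * d - 1 = w + (w + 1) * (d - 1) := by
        obtain ⟨d, rfl⟩ : ∃ d', d = d' + 1 := ⟨d - 1, by omega⟩
        have : (w + 1) * (d + 1) = w + (w + 1) * d + 1 := by ring
        rw [this]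
        simp
      have h5 : (expand k (w + 1) (g j i)).natDegree ≤ (w + 1) * (d - 1) := by
        rw [natDegree_expand, mul_comm]
        apply Nat.mul_le_mul_left
        have := hg.deg j i
        omega
      rw [h4, coeff_mul_add_eq_of_natDegree_le hQd.le h5, coeff_expand_mul' (Nat.succ_pos w)]
      have h6 : Q.coeff w = 1 := by
        have := hQm.coeff_natDegree
        rwa [hQd] at this
      rw [h6, one_mul]
    simp only [h2, h3]
    exact h1

end Pool.Agent.VFF
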