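import Pool.Agent.Lib_MP_1858fb_f.FDefs
import Pool.Agent.Lib_MP_1858fb_w.Van1

/-! # MP_1858fb_ag, line F: the data of `V`, homogeneity of the ideal, Euler's relation -/

namespace Pool.Agent.VFF

open Pool.Agent.VF Polynomial

variable {k : Type} [Field k] {N n c : ℕ}

/-- [F-DATA] -/
theorem exists_vdata [IsAlgClosed k] {V : Set (Fin (N + 1) → k)} (hV : LocClosed V)
    (hirr : Irred V) (hn : 0 < n) (hc : n + c = N) (hs : ∀ x ∈ V, SmoothAt c V x) :
    ∃ D : VData k N n c, D.V = V := by
  have hinf : Infinite k := IsAlgClosed.instInfinite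
  obtain ⟨t, G, e, hG, he, hiff⟩ := exists_open_forms hV
  exact ⟨{ V := V, t := t, H := G, h := e, hpos := he, homH := hG, mem_iff := hiff,
           hom := fun E hE e => van_homogeneousComponent hV hE e, irr := hirr,
           hn := hn, hc := hc, smooth := hs }, rfl⟩

/-- [F-DATA] `van V` is a homogeneous ideal. -/
theorem van_homog [IsAlgClosed k] (D : VData k N n c) {E : MvPolynomial (Fin (N + 1)) k}
    (hE : E ∈ van D.V) (e : ℕ) : MvPolynomial.homogeneousComponent e E ∈ van D.V :=
  D.hom E hE e

/-- [F-DATA] Euler -/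
theorem tang_self [IsAlgClosed k] (D : VData k N n c) {A : Type} [CommRing A] [Algebra k A]
    {x : Fin (N + 1) → A} (hx : OnV D.V x) : Tang D.V x x := by
  intro E hE
  have hhom : ∀ (e : ℕ) (F : MvPolynomial (Fin (N + 1)) k), F.IsHomogeneous e → F ∈ van D.V →
      dif F x x = 0 := by
    intro e F hF hFV
    have h1 := hF.sum_X_mul_pderiv
    have h2 := congrArg (MvPolynomial.aeval x) h1
    rw [map_sum, map_nsmul, hx F hFV, smul_zero] at h2
    unfold dif
    rw [← h2]
    refine Finset.sum_congr rfl fun j _ => ?_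
    rw [map_mul, MvPolynomial.aeval_X, mul_comm]
  have h3 : dif E x x = ∑ i ∈ Finset.range (E.totalDegree + 1),
      dif (MvPolynomial.homogeneousComponent i E) x x := by
    unfold dif
    rw [Finset.sum_comm]
    refine Finset.sum_congr rfl fun j _ => ?_
    rw [← Finset.sum_mul, ← map_sum, ← map_sum, MvPolynomial.sum_homogeneousComponent]
  rw [h3]
  refine Finset.sum_eq_zero fun i _ => hhom i _
    (MvPolynomial.homogeneousComponent_isHomogeneous i E) (van_homog D hE i)

end Pool.Agent.VFF
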