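import Pool.Agent.Lib_MP_1858fb_f.FDefs

/-! # MP_1858fb_ag, line F: F-DUAL, derivative of the equations -/

namespace Pool.Agent.VFF

open Pool.Agent.VF Polynomial

variable {k : Type} [Field k] {N n c : ℕ}

theorem dual_aeval {A B : Type} [CommRing A] [CommRing B] [Algebra k A] [Algebra k B]
    (φ : A →ₐ[k] B) {ι : Type} (S : ι → A) (E : MvPolynomial ι k) :
    MvPolynomial.aeval (fun i => φ (S i)) E = φ (MvPolynomial.aeval S E) := by
  have h : (MvPolynomial.aeval (fun i => φ (S i)) : MvPolynomial ι k →ₐ[k] B) =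
      φ.comp (MvPolynomial.aeval S) := by
    apply MvPolynomial.algHom_ext
    intro i
    simp
  rw [h]
  rfl

theorem dual_chain {A B : Type} [CommRing A] [CommRing B] [Algebra k A] [Algebra k B]
    (φ : A →ₐ[k] B) (δ : A →+ B) (hδ : ∀ f g, δ (f * g) = φ f * δ g + φ g * δ f)
    (hδk : ∀ a : k, δ (algebraMap k A a) = 0) {ι : Type} [Fintype ι] (S : ι → A)
    (E : MvPolynomial ι k) :
    δ (MvPolynomial.aeval S E) = dif E (fun i => φ (S i)) (fun i => δ (S i)) := by
  classical
  induction E using MvPolynomial.induction_on with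
  | C a => simp [dif, hδk]
  | add p q hp hq =>
    simp only [dif, map_add, add_mul, Finset.sum_add_distrib] at hp hq ⊢
    rw [hp, hq]
  | mul_X p j hp =>
    rw [map_mul, hδ, hp, MvPolynomial.aeval_X, ← dual_aeval]
    simp only [dif, Derivation.leibniz, smul_eq_mul, map_add, map_mul, MvPolynomial.aeval_X,
      MvPolynomial.pderiv_X, add_mul, Finset.sum_add_distrib]
    congr 1
    · rw [Finset.sum_eq_single j]
      · simp
      · intro b _ hb
        rw [Pi.single_eq_of_ne (Ne.symm hb), map_zero, mul_zero, zero_mul]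
      · intro hj
        exact absurd (Finset.mem_univ j) hj
    · rw [Finset.mul_sum]
      exact Finset.sum_congr rfl fun i _ => by ring

/-- [F-DUAL] derivative of the equations -/
theorem dual_sections (V : Set (Fin (N + 1) → k)) {A B : Type} [CommRing A] [CommRing B]
    [Algebra k A] [Algebra k B] (φ : A →ₐ[k] B) (δ : A →+ B)
    (hδ : ∀ f g, δ (f * g) = φ f * δ g + φ g * δ f) (hδk : ∀ a : k, δ (algebraMap k A a) = 0)
    (S : Fin (N + 1) → A) (h : OnV V S) :
    OnV V (fun i => φ (S i)) ∧ Tang V (fun i => φ (S i)) (fun i => δ (S i)) := by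
  refine ⟨fun E hE => ?_, fun E hE => ?_⟩
  · rw [dual_aeval, h E hE, map_zero]
  · rw [← dual_chain φ δ hδ hδk S E, h E hE, map_zero]

end Pool.Agent.VFF
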