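import Pool.Agent.Lib_MP_1858fb_f.GDefs

/-! # MP_1858fb_ag, line F: F-GS1, first order parameters -/

namespace Pool.Agent.VFF

open Pool.Agent.VF Polynomial

variable {k : Type} [Field k] {N n c : ℕ}

/-- the first order parameters `ε 1, .., ε n` -/
abbrev Eps (k : Type) [Field k] (n : ℕ) : Type := TrivSqZeroExt k (Fin n → k)

/-- [F-GS1] `ε = 0` -/
noncomputable def fstP (k : Type) [Field k] (n : ℕ) :
    (PowerSeries (Eps k n))[X] →ₐ[k] (PowerSeries k)[X] :=
  Polynomial.mapAlgHom (PowerSeries.mapAlgHom (TrivSqZeroExt.fstHom k k (Fin n → k)))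

/-- the coefficient of `ε j`, for power series -/
noncomputable def epsP_snd (k : Type) [Field k] {n : ℕ} (j : Fin n) :
    PowerSeries (Eps k n) →+ PowerSeries k where
  toFun f := PowerSeries.mk fun b => (PowerSeries.coeff b f).snd j
  map_zero' := by
    ext b
    simp
  map_add' f g := by
    ext b
    simp

theorem epsP_coeff_snd (j : Fin n) (f : PowerSeries (Eps k n)) (b : ℕ) :
    PowerSeries.coeff b (epsP_snd k j f) = (PowerSeries.coeff b f).snd j := by
  show PowerSeries.coeff b (PowerSeries.mk fun b => (PowerSeries.coeff b f).snd j) = _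
  rw [PowerSeries.coeff_mk]

theorem epsP_snd_mul (j : Fin n) (f g : PowerSeries (Eps k n)) :
    epsP_snd k j (f * g) =
      PowerSeries.map ((TrivSqZeroExt.fstHom k k (Fin n → k) : Eps k n →ₐ[k] k) :
        Eps k n →+* k) f * epsP_snd k j g +
      PowerSeries.map ((TrivSqZeroExt.fstHom k k (Fin n → k) : Eps k n →ₐ[k] k) :
        Eps k n →+* k) g * epsP_snd k j f := by
  rw [mul_comm (PowerSeries.map _ g)]
  ext b
  rw [epsP_coeff_snd, PowerSeries.coeff_mul, map_add, PowerSeries.coeff_mul,
    PowerSeries.coeff_mul, ← Finset.sum_add_distrib, TrivSqZeroExt.snd_sum, Finset.sum_apply]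
  refine Finset.sum_congr rfl fun p _ => ?_
  rw [epsP_coeff_snd, epsP_coeff_snd, PowerSeries.coeff_map, PowerSeries.coeff_map,
    TrivSqZeroExt.snd_mul, Pi.add_apply, Pi.smul_apply, Pi.smul_apply, smul_eq_mul,
    MulOpposite.smul_eq_mul_unop, MulOpposite.unop_op]
  rfl

/-- [F-GS1] the coefficient of `ε j` -/
noncomputable def sndP (k : Type) [Field k] {n : ℕ} (j : Fin n) :
    (PowerSeries (Eps k n))[X] →+ (PowerSeries k)[X] :=
  (Polynomial.lsum (R := ℕ) fun m =>
    ((Polynomial.monomial m : PowerSeries k →ₗ[PowerSeries k] (PowerSeries k)[X]).toAddMonoidHom.comp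
      (epsP_snd k j)).toNatLinearMap).toAddMonoidHom

theorem epsP_coeff_fst (f : (PowerSeries (Eps k n))[X]) (m : ℕ) :
    (fstP k n f).coeff m = PowerSeries.map
      ((TrivSqZeroExt.fstHom k k (Fin n → k) : Eps k n →ₐ[k] k) : Eps k n →+* k)
        (f.coeff m) := by
  show (Polynomial.map _ f).coeff m = _
  rw [Polynomial.coeff_map]
  rfl

theorem epsP_sndP_coeff (j : Fin n) (f : (PowerSeries (Eps k n))[X]) (m : ℕ) :
    (sndP k j f).coeff m = epsP_snd k j (f.coeff m) := by
  induction f using Polynomial.induction_on' with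
  | add p q hp hq => rw [map_add, coeff_add, hp, hq, coeff_add, map_add]
  | monomial r a =>
    have h1 : sndP k j (Polynomial.monomial r a) = Polynomial.monomial r (epsP_snd k j a) := by
      show (Polynomial.monomial r a).sum _ = _
      rw [Polynomial.sum_monomial_index]
      · rfl
      · show Polynomial.monomial r (epsP_snd k j 0) = 0
        rw [map_zero, map_zero]
    rw [h1, coeff_monomial, coeff_monomial]
    split_ifs
    · rfl
    · rw [map_zero]

theorem coeff_fstP (f : (PowerSeries (Eps k n))[X]) (m b : ℕ) :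
    PowerSeries.coeff b ((fstP k n f).coeff m) = (PowerSeries.coeff b (f.coeff m)).fst := by
  rw [epsP_coeff_fst, PowerSeries.coeff_map]
  rfl

theorem coeff_sndP (j : Fin n) (f : (PowerSeries (Eps k n))[X]) (m b : ℕ) :
    PowerSeries.coeff b ((sndP k j f).coeff m) = (PowerSeries.coeff b (f.coeff m)).snd j := by
  rw [epsP_sndP_coeff, epsP_coeff_snd]

theorem fstP_eq_map (f : (PowerSeries (Eps k n))[X]) : fstP k n f =
    f.map (PowerSeries.map ((TrivSqZeroExt.fstHom k k (Fin n → k) : Eps k n →ₐ[k] k) :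
      Eps k n →+* k)) := by
  ext m : 1
  rw [epsP_coeff_fst, Polynomial.coeff_map]

theorem sndP_mul (j : Fin n) (f g : (PowerSeries (Eps k n))[X]) :
    sndP k j (f * g) = fstP k n f * sndP k j g + fstP k n g * sndP k j f := by
  rw [mul_comm (fstP k n g)]
  ext m : 1
  rw [epsP_sndP_coeff, coeff_mul, map_sum, coeff_add, coeff_mul, coeff_mul,
    ← Finset.sum_add_distrib]
  refine Finset.sum_congr rfl fun p _ => ?_
  rw [epsP_sndP_coeff, epsP_sndP_coeff, epsP_coeff_fst, epsP_coeff_fst, epsP_snd_mul,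
    mul_comm (epsP_snd k j (f.coeff p.1))]

theorem sndP_algebraMap (j : Fin n) (a : k) :
    sndP k j (algebraMap k (PowerSeries (Eps k n))[X] a) = 0 := by
  ext m b
  rw [coeff_sndP, Polynomial.algebraMap_apply, coeff_C]
  split_ifs
  · rw [PowerSeries.algebraMap_apply, PowerSeries.coeff_C]
    split_ifs
    · rfl
    · rfl
  · rfl

end Pool.Agent.VFF
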