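import Pool.Agent.Lib_MP_1858fb_f.Ring2

/-!
# MP_1858fb_ag, line F, piece F-EV: evaluation of power series over `k⟦τ⟧` in `κ⟦P, Q⟧`
-/

namespace Pool.Agent.VFF

open Pool.Agent.VF Polynomial
open MvPowerSeries.WithPiTopology

section EvAux

variable {k : Type} [Field k] {κ : Type} [CommRing κ]

theorem ev_hasEval [UniformSpace κ] [DiscreteUniformity κ] {p : ℕ} (x : Fin p → W κ)
    (hx : ∀ j, MvPowerSeries.constantCoeff (x j) = 0) : MvPowerSeries.HasEval x where
  hpow j := isTopologicallyNilpotent_of_constantCoeff_zero (hx j)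
  tendsto_zero := by
    rw [Filter.cofinite_eq_bot]
    exact Filter.tendsto_bot

/-- evaluation, as a ring homomorphism, along a ring homomorphism of the coefficients -/
noncomputable def evHom (φ : PowerSeries k →+* W κ) {p : ℕ} (x : Fin p → W κ)
    (hx : ∀ j, MvPowerSeries.constantCoeff (x j) = 0) :
    MvPowerSeries (Fin p) (PowerSeries k) →+* W κ :=
  letI : UniformSpace κ := ⊥
  letI : UniformSpace (PowerSeries k) := ⊥
  haveI : DiscreteUniformity κ := ⟨rfl⟩
  haveI : DiscreteUniformity (PowerSeries k) := ⟨rfl⟩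
  MvPowerSeries.eval₂Hom (R := PowerSeries k) (φ := φ) (continuous_of_discreteTopology)
    (ev_hasEval x hx)

theorem ev_finite (p n : ℕ) : {m : Fin p →₀ ℕ | m.degree ≤ n}.Finite :=
  Finsupp.finite_of_degree_le n

theorem ev_ord_mul {n : ℕ} {f g : W κ} (h : (n : ℕ∞) ≤ g.order) : (n : ℕ∞) ≤ (f * g).order :=
  (h.trans (le_add_self)).trans MvPowerSeries.le_order_mul

theorem ev_ord_mul' {n l : ℕ} {f g : W κ} (h : (n : ℕ∞) ≤ f.order) (h' : (l : ℕ∞) ≤ g.order) :
    ((n + l : ℕ) : ℕ∞) ≤ (f * g).order := by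
  push_cast
  exact (add_le_add h h').trans MvPowerSeries.le_order_mul

theorem ev_ord_add {n : ℕ} {f g : W κ} (h : (n : ℕ∞) ≤ f.order) (h' : (n : ℕ∞) ≤ g.order) :
    (n : ℕ∞) ≤ (f + g).order :=
  (le_min h h').trans MvPowerSeries.min_order_le_add

theorem ev_coeff_zero {n : ℕ} {f : W κ} (h : (n : ℕ∞) ≤ f.order) {e : Fin 2 →₀ ℕ}
    (he : e.degree < n) : MvPowerSeries.coeff e f = 0 :=
  MvPowerSeries.coeff_of_lt_order (lt_of_lt_of_le (by exact_mod_cast he) h)

theorem ev_ord_prod {p : ℕ} {x : Fin p → W κ} (hx : ∀ j, MvPowerSeries.constantCoeff (x j) = 0)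
    (m : Fin p →₀ ℕ) : (m.degree : ℕ∞) ≤ (m.prod fun j a => x j ^ a).order := by
  have h1 : (m.degree : ℕ∞) = ∑ j ∈ m.support, (m j : ℕ∞) := by
    rw [Finsupp.degree_apply]
    push_cast
    rfl
  rw [h1, Finsupp.prod]
  refine (Finset.sum_le_sum fun j _ => ?_).trans (MvPowerSeries.le_order_prod _ _)
  exact MvPowerSeries.le_order_pow_of_constantCoeff_eq_zero _ (hx j)

/-- the terms of the evaluation -/
noncomputable def evTerm (φ : PowerSeries k →+* W κ) {p : ℕ} (x : Fin p → W κ)
    (G : MvPowerSeries (Fin p) (PowerSeries k)) (m : Fin p →₀ ℕ) : W κ :=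
  φ (MvPowerSeries.coeff m G) * m.prod (fun j a => x j ^ a)

theorem evTerm_ord (φ : PowerSeries k →+* W κ) {p : ℕ} {x : Fin p → W κ}
    (hx : ∀ j, MvPowerSeries.constantCoeff (x j) = 0) (G : MvPowerSeries (Fin p) (PowerSeries k))
    (m : Fin p →₀ ℕ) : (m.degree : ℕ∞) ≤ (evTerm φ x G m).order :=
  ev_ord_mul (ev_ord_prod hx m)

/-- the coefficients of the evaluation are finite sums -/
theorem coeff_evHom (φ : PowerSeries k →+* W κ) {p : ℕ} (x : Fin p → W κ)
    (hx : ∀ j, MvPowerSeries.constantCoeff (x j) = 0) (G : MvPowerSeries (Fin p) (PowerSeries k))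
    (e : Fin 2 →₀ ℕ) (S : Finset (Fin p →₀ ℕ)) (hS : ∀ m, m.degree ≤ e.degree → m ∈ S) :
    MvPowerSeries.coeff e (evHom φ x hx G) = ∑ m ∈ S, MvPowerSeries.coeff e (evTerm φ x G m) := by
  let _ : UniformSpace κ := ⊥
  let _ : UniformSpace (PowerSeries k) := ⊥
  have : DiscreteUniformity κ := ⟨rfl⟩
  have : DiscreteUniformity (PowerSeries k) := ⟨rfl⟩
  have h1 := MvPowerSeries.hasSum_eval₂ (R := PowerSeries k) (φ := φ)
    (continuous_of_discreteTopology) (ev_hasEval x hx) G
  rw [hasSum_iff_hasSum_coeff] at h1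
  have h2 := h1 e
  have h3 : HasSum (fun m => MvPowerSeries.coeff e (evTerm φ x G m))
      (∑ m ∈ S, MvPowerSeries.coeff e (evTerm φ x G m)) := by
    refine hasSum_sum_of_ne_finset_zero fun m hm => ?_
    refine ev_coeff_zero (evTerm_ord φ hx G m) ?_
    by_contra h4
    exact hm (hS m (not_lt.1 h4))
  have h5 : evHom φ x hx G = MvPowerSeries.eval₂ φ x G := by
    show MvPowerSeries.eval₂Hom _ _ G = _
    rw [MvPowerSeries.coe_eval₂Hom]
  rw [h5]
  exact h2.unique h3

theorem evHom_C (φ : PowerSeries k →+* W κ) {p : ℕ} (x : Fin p → W κ)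
    (hx : ∀ j, MvPowerSeries.constantCoeff (x j) = 0) (g : PowerSeries k) :
    evHom φ x hx (MvPowerSeries.C g) = φ g := by
  let _ : UniformSpace κ := ⊥
  let _ : UniformSpace (PowerSeries k) := ⊥
  have : DiscreteUniformity κ := ⟨rfl⟩
  have : DiscreteUniformity (PowerSeries k) := ⟨rfl⟩
  show MvPowerSeries.eval₂Hom _ _ _ = _
  rw [MvPowerSeries.coe_eval₂Hom, MvPowerSeries.eval₂_C]

theorem evHom_X (φ : PowerSeries k →+* W κ) {p : ℕ} (x : Fin p → W κ)
    (hx : ∀ j, MvPowerSeries.constantCoeff (x j) = 0) (j : Fin p) :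
    evHom φ x hx (MvPowerSeries.X j) = x j := by
  let _ : UniformSpace κ := ⊥
  let _ : UniformSpace (PowerSeries k) := ⊥
  have : DiscreteUniformity κ := ⟨rfl⟩
  have : DiscreteUniformity (PowerSeries k) := ⟨rfl⟩
  show MvPowerSeries.eval₂Hom _ _ _ = _
  rw [MvPowerSeries.coe_eval₂Hom, MvPowerSeries.eval₂_X]

/-- divided differences of the monomials -/
theorem ev_divdiff {p : ℕ} {x x' : Fin p → W κ} (hx : ∀ j, MvPowerSeries.constantCoeff (x j) = 0)
    (hx' : ∀ j, MvPowerSeries.constantCoeff (x' j) = 0) (m : Fin p →₀ ℕ) :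
    ∃ D : Fin p → W κ, (m.prod (fun j a => x j ^ a) - m.prod (fun j a => x' j ^ a) =
      ∑ j, (x j - x' j) * D j) ∧ ∀ j, ((m.degree - 1 : ℕ) : ℕ∞) ≤ (D j).order := by
  induction m using Finsupp.induction_linear with
  | zero => exact ⟨0, by simp, fun j => by simp⟩
  | add m l hm hl =>
    obtain ⟨D, hD, hDo⟩ := hm
    obtain ⟨E, hE, hEo⟩ := hl
    have pm : ∀ (y : Fin p → W κ), (m + l).prod (fun j a => y j ^ a) =
        m.prod (fun j a => y j ^ a) * l.prod (fun j a => y j ^ a) := fun y =>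
      Finsupp.prod_add_index' (fun _ => pow_zero _) (fun _ _ _ => pow_add _ _ _)
    by_cases hm0 : m = 0
    · subst hm0
      exact ⟨E, by simpa using hE, by simpa using hEo⟩
    by_cases hl0 : l = 0
    · subst hl0
      exact ⟨D, by simpa using hD, by simpa using hDo⟩
    have dm : 1 ≤ m.degree := by
      by_contra h
      exact hm0 ((Finsupp.degree_eq_zero_iff m).1 (by omega))
    have dl : 1 ≤ l.degree := by
      by_contra h
      exact hl0 ((Finsupp.degree_eq_zero_iff l).1 (by omega))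
    refine ⟨fun j => D j * l.prod (fun j a => x j ^ a) + m.prod (fun j a => x' j ^ a) * E j, ?_, ?_⟩
    · rw [pm, pm]
      have e1 : ∑ j, (x j - x' j) * (D j * l.prod (fun j a => x j ^ a) +
          m.prod (fun j a => x' j ^ a) * E j) =
          (∑ j, (x j - x' j) * D j) * l.prod (fun j a => x j ^ a) +
          m.prod (fun j a => x' j ^ a) * ∑ j, (x j - x' j) * E j := by
        rw [Finset.sum_mul, Finset.mul_sum, ← Finset.sum_add_distrib]
        exact Finset.sum_congr rfl fun j _ => by ring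
      rw [e1, ← hD, ← hE]
      ring
    · intro j
      have e2 : (m + l).degree - 1 = (m.degree - 1) + l.degree := by
        rw [map_add]; omega
      have e3 : (m + l).degree - 1 = m.degree + (l.degree - 1) := by
        rw [map_add]; omega
      refine ev_ord_add ?_ ?_
      · rw [e2]
        exact ev_ord_mul' (hDo j) (ev_ord_prod hx l)
      · rw [e3]
        exact ev_ord_mul' (ev_ord_prod hx' m) (hEo j)
  | single i a =>
    have ps : ∀ (y : Fin p → W κ), (Finsupp.single i a).prod (fun j a => y j ^ a) = y i ^ a :=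
      fun y => Finsupp.prod_single_index (pow_zero _)
    refine ⟨fun j => if j = i then ∑ l ∈ Finset.range a, x i ^ l * x' i ^ (a - 1 - l) else 0, ?_, ?_⟩
    · rw [ps, ps, Finset.sum_eq_single i]
      · show _ = _ * (if i = i then _ else _)
        rw [if_pos rfl, mul_comm, Commute.geom_sum₂_mul (Commute.all _ _)]
      · intro j _ hj
        show _ * (if j = i then _ else _) = _
        rw [if_neg hj, mul_zero]
      · intro h
        exact absurd (Finset.mem_univ _) h
    · intro j
      rw [Finsupp.degree_single]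
      show _ ≤ MvPowerSeries.order (if j = i then _ else _)
      by_cases hj : j = i
      · rw [if_pos hj]
        refine MvPowerSeries.le_order (fun e he => ?_)
        rw [map_sum]
        refine Finset.sum_eq_zero fun l hl => ?_
        have hl' := Finset.mem_range.1 hl
        have e4 : ((l + (a - 1 - l) : ℕ) : ℕ∞) ≤ (x i ^ l * x' i ^ (a - 1 - l)).order :=
          ev_ord_mul' (MvPowerSeries.le_order_pow_of_constantCoeff_eq_zero _ (hx i))
            (MvPowerSeries.le_order_pow_of_constantCoeff_eq_zero _ (hx' i))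
        refine ev_coeff_zero e4 ?_
        have he' : e.degree < a - 1 := by exact_mod_cast he
        omega
      · rw [if_neg hj]
        simp

/-- Hadamard -/
theorem evHom_sub (φ : PowerSeries k →+* W κ) {p : ℕ} (x : Fin p → W κ)
    (hx : ∀ j, MvPowerSeries.constantCoeff (x j) = 0) (x' : Fin p → W κ)
    (hx' : ∀ j, MvPowerSeries.constantCoeff (x' j) = 0)
    (G : MvPowerSeries (Fin p) (PowerSeries k)) :
    ∃ h : Fin p → W κ, evHom φ x hx G - evHom φ x' hx' G = ∑ j, (x j - x' j) * h j := by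
  let _ : UniformSpace κ := ⊥
  let _ : UniformSpace (PowerSeries k) := ⊥
  have : DiscreteUniformity κ := ⟨rfl⟩
  have : DiscreteUniformity (PowerSeries k) := ⟨rfl⟩
  choose D hD hDo using fun m => ev_divdiff hx hx' m
  have hs : ∀ j, Summable fun m => φ (MvPowerSeries.coeff m G) * D m j := by
    intro j
    rw [summable_iff_summable_coeff]
    intro e
    refine summable_of_hasFiniteSupport ((ev_finite p (e.degree + 1)).subset fun m hm => ?_)
    by_contra h4
    have h5 : e.degree + 1 < m.degree := not_le.1 h4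
    exact hm (ev_coeff_zero (ev_ord_mul (hDo m j)) (by omega))
  refine ⟨fun j => ∑' m, φ (MvPowerSeries.coeff m G) * D m j, ?_⟩
  have h1 := MvPowerSeries.hasSum_eval₂ (R := PowerSeries k) (φ := φ)
    (continuous_of_discreteTopology) (ev_hasEval x hx) G
  have h2 := MvPowerSeries.hasSum_eval₂ (R := PowerSeries k) (φ := φ)
    (continuous_of_discreteTopology) (ev_hasEval x' hx') G
  have h3 := h1.sub h2
  have h4 : HasSum (fun m => ∑ j, (x j - x' j) * (φ (MvPowerSeries.coeff m G) * D m j))
      (∑ j, (x j - x' j) * ∑' m, φ (MvPowerSeries.coeff m G) * D m j) :=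
    hasSum_sum fun j _ => (hs j).hasSum.mul_left _
  have h5 : ∀ m, φ (MvPowerSeries.coeff m G) * m.prod (fun s e => x s ^ e) -
      φ (MvPowerSeries.coeff m G) * m.prod (fun s e => x' s ^ e) =
      ∑ j, (x j - x' j) * (φ (MvPowerSeries.coeff m G) * D m j) := by
    intro m
    rw [← mul_sub, hD m, Finset.mul_sum]
    exact Finset.sum_congr rfl fun j _ => by ring
  simp only [h5] at h3
  have h6 : ∀ (z : Fin p → W κ) (hz : ∀ j, MvPowerSeries.constantCoeff (z j) = 0),
      evHom φ z hz G = MvPowerSeries.eval₂ φ z G := by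
    intro z hz
    show MvPowerSeries.eval₂Hom _ _ G = _
    rw [MvPowerSeries.coe_eval₂Hom]
  rw [h6, h6]
  exact h3.unique h4

end EvAux

section EvMain

variable (k : Type) [Field k] (κ : Type) [CommRing κ] [Algebra k κ]

/-- [F-EV] evaluation of a power series over `k⟦τ⟧` at `τ = P` and small elements `x` of `W` -/
noncomputable def ev {p : ℕ} (x : Fin p → W κ) (hx : ∀ j, MvPowerSeries.constantCoeff (x j) = 0) :
    MvPowerSeries (Fin p) (PowerSeries k) →ₐ[k] W κ :=
  { evHom (serP k κ : PowerSeries k →+* W κ) x hx with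
    commutes' := fun r => by
      have h1 : algebraMap k (MvPowerSeries (Fin p) (PowerSeries k)) r =
          MvPowerSeries.C (algebraMap k (PowerSeries k) r) := MvPowerSeries.algebraMap_apply
      have h2 : evHom (serP k κ : PowerSeries k →+* W κ) x hx
          (algebraMap k (MvPowerSeries (Fin p) (PowerSeries k)) r) = algebraMap k (W κ) r := by
        rw [h1, evHom_C]
        exact (serP k κ).commutes r
      exact h2 }

theorem ev_apply {p : ℕ} (x : Fin p → W κ) (hx : ∀ j, MvPowerSeries.constantCoeff (x j) = 0)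
    (G : MvPowerSeries (Fin p) (PowerSeries k)) :
    ev k κ x hx G = evHom (serP k κ : PowerSeries k →+* W κ) x hx G := rfl

/-- the coefficients of the evaluation are finite sums -/
theorem coeff_ev {p : ℕ} (x : Fin p → W κ) (hx : ∀ j, MvPowerSeries.constantCoeff (x j) = 0)
    (G : MvPowerSeries (Fin p) (PowerSeries k)) (e : Fin 2 →₀ ℕ) (S : Finset (Fin p →₀ ℕ))
    (hS : ∀ m, m.degree ≤ e.degree → m ∈ S) :
    MvPowerSeries.coeff e (ev k κ x hx G) = ∑ m ∈ S, MvPowerSeries.coeff e
      (serP k κ (MvPowerSeries.coeff m G) * m.prod (fun j a => x j ^ a)) :=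
  coeff_evHom (serP k κ : PowerSeries k →+* W κ) x hx G e S hS

theorem ev_C {p : ℕ} (x : Fin p → W κ) (hx : ∀ j, MvPowerSeries.constantCoeff (x j) = 0)
    (g : PowerSeries k) : ev k κ x hx (MvPowerSeries.C g) = serP k κ g := by
  rw [ev_apply, evHom_C]
  rfl

theorem ev_X {p : ℕ} (x : Fin p → W κ) (hx : ∀ j, MvPowerSeries.constantCoeff (x j) = 0)
    (j : Fin p) : ev k κ x hx (MvPowerSeries.X j) = x j := by
  rw [ev_apply, evHom_X]

/-- Hadamard -/
theorem ev_sub {p : ℕ} (x : Fin p → W κ) (hx : ∀ j, MvPowerSeries.constantCoeff (x j) = 0)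
    (x' : Fin p → W κ) (hx' : ∀ j, MvPowerSeries.constantCoeff (x' j) = 0)
    (G : MvPowerSeries (Fin p) (PowerSeries k)) :
    ∃ h : Fin p → W κ, ev k κ x hx G - ev k κ x' hx' G = ∑ j, (x j - x' j) * h j :=
  evHom_sub (serP k κ : PowerSeries k →+* W κ) x hx x' hx' G

/-- the part without constant coefficient is in the ideal of the `x j` -/
theorem ev_of_constantCoeff {p : ℕ} (x : Fin p → W κ)
    (hx : ∀ j, MvPowerSeries.constantCoeff (x j) = 0) (G : MvPowerSeries (Fin p) (PowerSeries k))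
    (hG : MvPowerSeries.constantCoeff G = 0) :
    ∃ h : Fin p → W κ, ev k κ x hx G = ∑ j, x j * h j := by
  obtain ⟨h, hh⟩ := ev_sub k κ x hx (fun _ => 0) (fun _ => map_zero _) G
  have h0 : ev k κ (fun _ : Fin p => (0 : W κ)) (fun _ => map_zero _) G = 0 := by
    ext e
    rw [coeff_ev k κ _ _ G e (ev_finite p e.degree).toFinset
      (fun m hm => (ev_finite p e.degree).mem_toFinset.2 hm), map_zero]
    refine Finset.sum_eq_zero fun m _ => ?_
    by_cases hm : m = 0
    · subst hm
      have h1 : MvPowerSeries.coeff (0 : Fin p →₀ ℕ) G = 0 := by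
        rw [MvPowerSeries.coeff_zero_eq_constantCoeff_apply]
        exact hG
      rw [h1, map_zero, zero_mul, map_zero]
    · obtain ⟨j, hj⟩ : ∃ j, m j ≠ 0 := by
        by_contra h2
        push Not at h2
        exact hm (Finsupp.ext h2)
      have h3 : m.prod (fun j a => (0 : W κ) ^ a) = 0 :=
        Finset.prod_eq_zero (Finsupp.mem_support_iff.2 hj) (zero_pow hj)
      rw [h3, mul_zero, map_zero]
  rw [h0, sub_zero] at hh
  exact ⟨h, by simpa using hh⟩

/-- [F-NAT] naturality in `κ` -/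
theorem ev_map (κ' : Type) [CommRing κ'] [Algebra k κ'] (φ : κ →ₐ[k] κ') {p : ℕ} (x : Fin p → W κ)
    (hx : ∀ j, MvPowerSeries.constantCoeff (x j) = 0)
    (hx' : ∀ j, MvPowerSeries.constantCoeff (MvPowerSeries.map (φ : κ →+* κ') (x j)) = 0)
    (G : MvPowerSeries (Fin p) (PowerSeries k)) :
    MvPowerSeries.map (φ : κ →+* κ') (ev k κ x hx G) =
      ev k κ' (fun j => MvPowerSeries.map (φ : κ →+* κ') (x j)) hx' G := by
  have hser : ∀ g : PowerSeries k, MvPowerSeries.map (φ : κ →+* κ') (serP k κ g) = serP k κ' g := by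
    intro g
    apply Ring2.ext_ij
    intro i j
    rw [MvPowerSeries.coeff_map, coeff_serP, coeff_serP]
    by_cases hj : j = 0
    · rw [if_pos hj, if_pos hj]
      exact φ.commutes _
    · rw [if_neg hj, if_neg hj, map_zero]
  ext e
  have hS : ∀ m : Fin p →₀ ℕ, m.degree ≤ e.degree → m ∈ (ev_finite p e.degree).toFinset :=
    fun m hm => (ev_finite p e.degree).mem_toFinset.2 hm
  rw [MvPowerSeries.coeff_map, coeff_ev k κ _ _ G e _ hS, coeff_ev k κ' _ _ G e _ hS, map_sum]
  refine Finset.sum_congr rfl fun m _ => ?_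
  rw [← MvPowerSeries.coeff_map, map_mul, hser, map_finsuppProd]
  simp only [map_pow]

end EvMain

end Pool.Agent.VFF
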