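import Mathlib

/-!
# Implicit functions over `A⟦q⟧` in several variables

A `q`-adic fixed point theorem and the implicit function theorem for polynomial systems over the
power series ring `A⟦q⟧`, `A` any commutative ring.
-/

namespace Pool.Agent.VFF

open Finset

/-- fixed points of maps that raise the order of agreement -/
theorem exists_unique_fixed {T Y : Type*} [Nonempty T] (e : T ≃ (ℕ → Y)) (F : T → T)
    (h : ∀ (a b : T) (j : ℕ), (∀ i < j, e a i = e b i) → e (F a) j = e (F b) j) :
    ∃! a, F a = a := by
  obtain ⟨t0⟩ := ‹Nonempty T›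
  have key : ∀ (n m j : ℕ), j < n → n ≤ m → e (F^[n] t0) j = e (F^[m] t0) j := by
    intro n
    induction n with
    | zero => intro m j hj; omega
    | succ n ih =>
      intro m j hj hm
      obtain ⟨m, rfl⟩ : ∃ m', m = m' + 1 := ⟨m - 1, by omega⟩
      rw [Function.iterate_succ_apply', Function.iterate_succ_apply']
      refine h _ _ _ fun i hi => ih m i (by omega) (by omega)
  refine ⟨e.symm fun i => e (F^[i + 1] t0) i, ?_, ?_⟩
  · apply e.injective
    funext j
    rw [Equiv.apply_symm_apply]
    show _ = e (F^[j + 1] t0) j
    rw [Function.iterate_succ_apply']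
    refine h _ _ _ fun i hi => ?_
    rw [Equiv.apply_symm_apply]
    exact key (i + 1) j i (by omega) (by omega)
  · intro b hb
    apply e.injective
    funext j
    rw [Equiv.apply_symm_apply]
    have hb' : ∀ n, F^[n] b = b := fun n => Function.iterate_fixed hb n
    have h2 : ∀ (n j : ℕ), j < n → e b j = e (F^[n] t0) j := by
      intro n
      induction n with
      | zero => intro j hj; omega
      | succ n ih =>
        intro j hj
        rw [Function.iterate_succ_apply']
        nth_rewrite 1 [← hb]
        exact h _ _ _ fun i hi => ih i (by omega)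
    exact h2 (j + 1) j (by omega)

/-- Taylor formula of order two for polynomials in several variables -/
theorem taylor_mem {R σ : Type*} [CommRing R] [Fintype σ] [DecidableEq σ] (I : Ideal R)
    (x h : σ → R) (hh : ∀ s, h s ∈ I) (p : MvPolynomial σ R) :
    MvPolynomial.eval (x + h) p - MvPolynomial.eval x p
      - ∑ s, h s * MvPolynomial.eval x (MvPolynomial.pderiv s p) ∈ I ^ 2 := by
  have h1 : ∀ p : MvPolynomial σ R, MvPolynomial.eval (x + h) p - MvPolynomial.eval x p ∈ I := by
    intro p
    induction p using MvPolynomial.induction_on with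
    | C a => simp
    | add p q hp hq =>
      have := I.add_mem hp hq
      rw [map_add, map_add]
      convert this using 1
      ring
    | mul_X p s hp =>
      rw [map_mul, map_mul, MvPolynomial.eval_X, MvPolynomial.eval_X, Pi.add_apply]
      have := I.add_mem (I.mul_mem_right (x s) hp)
        (I.mul_mem_left (MvPolynomial.eval (x + h) p) (hh s))
      convert this using 1
      ring
  induction p using MvPolynomial.induction_on with
  | C a => simp
  | add p q hp hq =>
    have := (I ^ 2).add_mem hp hq
    convert this using 1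
    simp only [map_add, mul_add, sum_add_distrib]
    ring
  | mul_X p s hp =>
    have e1 : ∑ t, h t * MvPolynomial.eval x (MvPolynomial.pderiv t (p * MvPolynomial.X s))
        = (∑ t, h t * MvPolynomial.eval x (MvPolynomial.pderiv t p)) * x s
          + h s * MvPolynomial.eval x p := by
      rw [sum_mul]
      have : ∀ t, h t * MvPolynomial.eval x (MvPolynomial.pderiv t (p * MvPolynomial.X s))
          = h t * MvPolynomial.eval x (MvPolynomial.pderiv t p) * x s
            + (if t = s then h s * MvPolynomial.eval x p else 0) := by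
        intro t
        rw [Derivation.leibniz, smul_eq_mul, smul_eq_mul, map_add, map_mul, map_mul,
          MvPolynomial.eval_X, MvPolynomial.pderiv_X]
        by_cases hts : t = s
        · subst hts
          simp only [Pi.single_eq_same, map_one, if_true]
          ring
        · rw [if_neg hts, Pi.single_eq_of_ne (fun h => hts h.symm)]
          simp only [map_zero]
          ring
      rw [sum_congr rfl fun t _ => this t, sum_add_distrib]
      simp
    rw [e1, map_mul, map_mul, MvPolynomial.eval_X, MvPolynomial.eval_X, Pi.add_apply]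
    have h2 : h s * (MvPolynomial.eval (x + h) p - MvPolynomial.eval x p) ∈ I ^ 2 := by
      rw [pow_two]
      exact Ideal.mul_mem_mul (hh s) (h1 p)
    have := (I ^ 2).add_mem ((I ^ 2).mul_mem_right (x s) hp) h2
    convert this using 1
    ring

section

open PowerSeries

variable {A : Type*} [CommRing A]

/-- the shift `f ↦ (f - f(0)) / X` -/
noncomputable def sh (f : A⟦X⟧) : A⟦X⟧ := PowerSeries.mk fun n => coeff (n + 1) f

@[simp] theorem coeff_sh (f : A⟦X⟧) (n : ℕ) : coeff n (sh f) = coeff (n + 1) f := by
  simp [sh]

theorem X_mul_sh {f : A⟦X⟧} (h : constantCoeff f = 0) : X * sh f = f := by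
  ext n
  cases n with
  | zero => simpa using h.symm
  | succ n => simp [PowerSeries.coeff_succ_X_mul]

theorem coeff_eq_zero_of_X_pow_dvd {f : A⟦X⟧} {n m : ℕ} (h : X ^ n ∣ f) (hm : m < n) :
    coeff m f = 0 := (PowerSeries.X_pow_dvd_iff.1 h) m hm

theorem coeff_mul_of_X_pow_dvd {f g : A⟦X⟧} {n : ℕ} (h : X ^ n ∣ f) :
    coeff n (f * g) = coeff n f * constantCoeff g := by
  obtain ⟨f, rfl⟩ := h
  rw [mul_assoc, PowerSeries.coeff_X_pow_mul', PowerSeries.coeff_X_pow_mul']
  simp

theorem constantCoeff_eval {σ : Type*} {x y : σ → A⟦X⟧}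
    (h : ∀ s, constantCoeff (x s) = constantCoeff (y s)) (p : MvPolynomial σ A⟦X⟧) :
    constantCoeff (MvPolynomial.eval x p) = constantCoeff (MvPolynomial.eval y p) := by
  induction p using MvPolynomial.induction_on with
  | C a => simp
  | add p q hp hq => simp [hp, hq]
  | mul_X p s hp => simp [hp, h s]

variable {σ ι : Type*} [Fintype σ] [DecidableEq σ] [Fintype ι] [DecidableEq ι]

/-- the approximate solution `z` corrected by `X w` in the coordinates `e i` -/
noncomputable def corr (e : ι → σ) (z : σ → A⟦X⟧) (w : ι → A⟦X⟧) : σ → A⟦X⟧ := fun s =>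
  z s + X * ∑ i, if e i = s then w i else 0

omit [Fintype σ] [DecidableEq ι] in
theorem corr_apply {e : ι → σ} (he : Function.Injective e) (z : σ → A⟦X⟧) (w : ι → A⟦X⟧)
    (i : ι) : corr e z w (e i) = z (e i) + X * w i := by
  unfold corr
  congr 2
  rw [sum_eq_single i]
  · simp
  · intro j _ hj
    rw [if_neg fun h => hj (he h)]
  · simp

omit [Fintype σ] [DecidableEq ι] in
theorem corr_of_not_mem {e : ι → σ} (z : σ → A⟦X⟧) (w : ι → A⟦X⟧) {s : σ}
    (hs : s ∉ Set.range e) : corr e z w s = z s := by
  unfold corr
  rw [sum_eq_zero]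
  · simp
  · intro i _
    rw [if_neg fun h => hs ⟨i, h⟩]

omit [Fintype σ] [DecidableEq ι] in
theorem constantCoeff_corr (e : ι → σ) (z : σ → A⟦X⟧) (w : ι → A⟦X⟧) (s : σ) :
    constantCoeff (corr e z w s) = constantCoeff (z s) := by
  simp [corr]

/-- the implicit function theorem over `A⟦X⟧`: a system of polynomial equations with an approximate
solution `z` (modulo `X`) whose Jacobian in the coordinates `e i` is invertible modulo `X` has
exactly one solution that is `z` modulo `X` and coincides with `z` in the other coordinates. -/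
theorem exists_unique_implicit {e : ι → σ} (he : Function.Injective e)
    (E : ι → MvPolynomial σ A⟦X⟧) (z : σ → A⟦X⟧)
    (h0 : ∀ i, constantCoeff (MvPolynomial.eval z (E i)) = 0)
    (hJ : IsUnit (Matrix.det (Matrix.of fun i j =>
      constantCoeff (MvPolynomial.eval z (MvPolynomial.pderiv (e j) (E i)))))) :
    ∃! x : σ → A⟦X⟧, (∀ s, s ∉ Set.range e → x s = z s) ∧
      (∀ s, constantCoeff (x s) = constantCoeff (z s)) ∧ ∀ i, MvPolynomial.eval x (E i) = 0 := by
  classical
  set J : Matrix ι ι A := Matrix.of fun i j =>
      constantCoeff (MvPolynomial.eval z (MvPolynomial.pderiv (e j) (E i))) with hJdef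
  have hJ1 : J⁻¹ * J = 1 := Matrix.nonsing_inv_mul _ hJ
  have hJ2 : J * J⁻¹ = 1 := Matrix.mul_nonsing_inv _ hJ
  let F : (ι → A⟦X⟧) → (ι → A⟦X⟧) := fun w i =>
    w i - ∑ k, C (J⁻¹ i k) * sh (MvPolynomial.eval (corr e z w) (E k))
  let eq : (ι → A⟦X⟧) ≃ (ℕ → ι → A) :=
    { toFun := fun w j i => coeff j (w i)
      invFun := fun f i => PowerSeries.mk fun j => f j i
      left_inv := fun w => by
        funext i
        ext j
        simp
      right_inv := fun f => by
        funext j i
        simp }
  have hzero : ∀ (w : ι → A⟦X⟧) (k : ι),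
      constantCoeff (MvPolynomial.eval (corr e z w) (E k)) = 0 := fun w k => by
    rw [constantCoeff_eval (constantCoeff_corr e z w), h0]
  have hcon : ∀ (a b : ι → A⟦X⟧) (j : ℕ), (∀ i < j, eq a i = eq b i) →
      eq (F a) j = eq (F b) j := by
    intro a b j hab
    have hdvd : ∀ i, (X : A⟦X⟧) ^ j ∣ a i - b i := by
      intro i
      rw [PowerSeries.X_pow_dvd_iff]
      intro m hm
      rw [map_sub, sub_eq_zero]
      exact congrFun (hab m hm) i
    have hstep : ∀ k, coeff (j + 1) (MvPolynomial.eval (corr e z a) (E k))
        - coeff (j + 1) (MvPolynomial.eval (corr e z b) (E k))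
        = ∑ i, J k i * coeff j (a i - b i) := by
      intro k
      have hh : ∀ s, corr e z a s - corr e z b s
          = X * ∑ i, if e i = s then a i - b i else 0 := by
        intro s
        unfold corr
        rw [add_sub_add_left_eq_sub, ← mul_sub, ← sum_sub_distrib]
        congr 1
        refine sum_congr rfl fun i _ => ?_
        split_ifs <;> simp
      have hmem : ∀ s, (corr e z a - corr e z b) s ∈ Ideal.span {(X : A⟦X⟧) ^ (j + 1)} := by
        intro s
        rw [Pi.sub_apply, hh, Ideal.mem_span_singleton, pow_succ']
        refine mul_dvd_mul_left _ (dvd_sum fun i _ => ?_)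
        split_ifs
        · exact hdvd i
        · exact dvd_zero _
      have ht := taylor_mem (Ideal.span {(X : A⟦X⟧) ^ (j + 1)}) (corr e z b)
        (corr e z a - corr e z b) hmem (E k)
      rw [add_sub_cancel, Ideal.span_singleton_pow, Ideal.mem_span_singleton, ← pow_mul] at ht
      have ht2 := coeff_eq_zero_of_X_pow_dvd ht (m := j + 1) (by omega)
      rw [map_sub, map_sub, sub_eq_zero] at ht2
      rw [ht2]
      have h3 : ∑ s, (corr e z a - corr e z b) s *
          MvPolynomial.eval (corr e z b) (MvPolynomial.pderiv s (E k))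
          = X * ∑ i, (a i - b i) *
            MvPolynomial.eval (corr e z b) (MvPolynomial.pderiv (e i) (E k)) := by
        rw [mul_sum]
        have : ∀ s, (corr e z a - corr e z b) s *
            MvPolynomial.eval (corr e z b) (MvPolynomial.pderiv s (E k))
            = ∑ i, if e i = s then X * ((a i - b i) *
              MvPolynomial.eval (corr e z b) (MvPolynomial.pderiv (e i) (E k))) else 0 := by
          intro s
          rw [Pi.sub_apply, hh, mul_assoc, sum_mul, mul_sum]
          refine sum_congr rfl fun i _ => ?_
          by_cases his : e i = s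
          · simp [his]
          · simp [his]
        rw [sum_congr rfl fun s _ => this s, sum_comm]
        refine sum_congr rfl fun i _ => ?_
        rw [sum_ite_eq]
        simp
      rw [h3, PowerSeries.coeff_succ_X_mul, map_sum]
      refine sum_congr rfl fun i _ => ?_
      rw [coeff_mul_of_X_pow_dvd (hdvd i), mul_comm, hJdef, Matrix.of_apply,
        constantCoeff_eval (constantCoeff_corr e z b)]
    funext i
    show coeff j (F a i) = coeff j (F b i)
    rw [← sub_eq_zero]
    have h4 : coeff j (F a i) - coeff j (F b i) = coeff j (a i - b i)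
        - ∑ k, J⁻¹ i k * ∑ l, J k l * coeff j (a l - b l) := by
      have h11 : ∑ k, J⁻¹ i k * ∑ l, J k l * coeff j (a l - b l)
          = ∑ k, J⁻¹ i k * coeff (j + 1) (MvPolynomial.eval (corr e z a) (E k))
            - ∑ k, J⁻¹ i k * coeff (j + 1) (MvPolynomial.eval (corr e z b) (E k)) := by
        rw [← sum_sub_distrib]
        refine sum_congr rfl fun k _ => ?_
        rw [← hstep k]
        ring
      rw [h11]
      simp only [F, map_sub, map_sum, PowerSeries.coeff_C_mul, coeff_sh]
      ring
    rw [h4]
    have h5 : ∑ k, J⁻¹ i k * ∑ l, J k l * coeff j (a l - b l)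
        = ∑ l, (J⁻¹ * J) i l * coeff j (a l - b l) := by
      simp only [Matrix.mul_apply, mul_sum, sum_mul]
      rw [sum_comm]
      refine sum_congr rfl fun l _ => sum_congr rfl fun k _ => by ring
    rw [h5, hJ1]
    simp [Matrix.one_apply]
  obtain ⟨w, hw, huniq⟩ := exists_unique_fixed eq F hcon
  have hsol : ∀ w, F w = w ↔ ∀ k, MvPolynomial.eval (corr e z w) (E k) = 0 := by
    intro w
    constructor
    · intro hw k
      have h6 : ∀ i, ∑ k, C (J⁻¹ i k) * sh (MvPolynomial.eval (corr e z w) (E k)) = 0 := by
        intro i
        have := congrFun hw i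
        simp only [F] at this
        simpa using this
      have h7 : sh (MvPolynomial.eval (corr e z w) (E k)) = 0 := by
        have h8 : ∑ i, C (J k i) * ∑ l, C (J⁻¹ i l)
            * sh (MvPolynomial.eval (corr e z w) (E l)) = 0 :=
          sum_eq_zero fun i _ => by rw [h6 i, mul_zero]
        have h9 : ∑ i, C (J k i) * ∑ l, C (J⁻¹ i l)
            * sh (MvPolynomial.eval (corr e z w) (E l))
            = ∑ l, C ((J * J⁻¹) k l) * sh (MvPolynomial.eval (corr e z w) (E l)) := by
          simp only [Matrix.mul_apply, map_sum, map_mul, mul_sum, sum_mul]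
          rw [sum_comm]
          refine sum_congr rfl fun l _ => sum_congr rfl fun i _ => by ring
        rw [h9, hJ2] at h8
        simpa [Matrix.one_apply] using h8
      rw [← X_mul_sh (hzero w k), h7, mul_zero]
    · intro hk
      funext i
      simp only [F]
      rw [sum_eq_zero, sub_zero]
      intro k _
      rw [hk k]
      have : sh (0 : A⟦X⟧) = 0 := by
        ext n
        simp
      rw [this, mul_zero]
  refine ⟨corr e z w, ⟨fun s hs => corr_of_not_mem z w hs, constantCoeff_corr e z w,
    (hsol w).1 hw⟩, ?_⟩
  rintro x ⟨hx1, hx2, hx3⟩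
  have hx : x = corr e z fun i => sh (x (e i) - z (e i)) := by
    funext s
    by_cases hs : s ∈ Set.range e
    · obtain ⟨i, rfl⟩ := hs
      rw [corr_apply he, X_mul_sh (by rw [map_sub, hx2, sub_self])]
      ring
    · rw [corr_of_not_mem z _ hs, hx1 s hs]
  have h10 : (fun i => sh (x (e i) - z (e i))) = w := by
    apply huniq
    rw [hsol, ← hx]
    exact hx3
  rw [hx, h10]

end

end Pool.Agent.VFF
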