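import Pool.Agent.Lib_MP_1858fb_f.FDefs
import Pool.Agent.Lib_MP_1858fb_f.Implicit

/-!
# MP_1858fb_ag, line F: [F-REC], the abstract recursion with bounded denominators
-/

namespace Pool.Agent.VFF

open Pool.Agent.VF

namespace Rec

section order

variable {B : Type} [CommRing B] {p : ℕ}

/-- the ideal of the power series without terms of degree `< j` -/
def ordI (B : Type) [CommRing B] (p j : ℕ) : Ideal (MvPowerSeries (Fin p) B) where
  carrier := {f | ∀ m : Fin p →₀ ℕ, m.degree < j → MvPowerSeries.coeff m f = 0}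
  add_mem' := by
    intro a b ha hb m hm
    rw [map_add, ha m hm, hb m hm, add_zero]
  zero_mem' := by
    intro m _
    exact map_zero _
  smul_mem' := by
    classical
    intro c a ha m hm
    rw [smul_eq_mul, MvPowerSeries.coeff_mul]
    refine Finset.sum_eq_zero fun x hx => ?_
    rw [Finset.HasAntidiagonal.mem_antidiagonal] at hx
    have h1 : x.1.degree + x.2.degree = m.degree := by rw [← hx, map_add]
    rw [ha x.2 (by omega), mul_zero]

theorem mem_ordI {j : ℕ} {f : MvPowerSeries (Fin p) B} :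
    f ∈ ordI B p j ↔ ∀ m : Fin p →₀ ℕ, m.degree < j → MvPowerSeries.coeff m f = 0 := Iff.rfl

theorem ordI_mul {i j : ℕ} {f g : MvPowerSeries (Fin p) B} (hf : f ∈ ordI B p i)
    (hg : g ∈ ordI B p j) : f * g ∈ ordI B p (i + j) := by
  classical
  rw [mem_ordI] at *
  intro m hm
  rw [MvPowerSeries.coeff_mul]
  refine Finset.sum_eq_zero fun x hx => ?_
  rw [Finset.HasAntidiagonal.mem_antidiagonal] at hx
  have h1 : x.1.degree + x.2.degree = m.degree := by rw [← hx, map_add]
  by_cases h : x.1.degree < i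
  · rw [hf x.1 h, zero_mul]
  · rw [hg x.2 (by omega), mul_zero]

theorem ordI_anti {i j : ℕ} (h : i ≤ j) : ordI B p j ≤ ordI B p i := by
  intro f hf m hm
  exact hf m (by omega)

theorem ordI_sq {j : ℕ} (hj : 0 < j) : ordI B p j ^ 2 ≤ ordI B p (j + 1) := by
  rw [pow_two, Ideal.mul_le]
  intro f hf g hg
  exact ordI_anti (by omega) (ordI_mul hf hg)

theorem mem_ordI_one {f : MvPowerSeries (Fin p) B} (h : MvPowerSeries.constantCoeff f = 0) :
    f ∈ ordI B p 1 := by
  intro m hm
  have : m.degree = 0 := by omega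
  rw [Finsupp.degree_eq_zero_iff] at this
  subst this
  rw [MvPowerSeries.coeff_zero_eq_constantCoeff_apply, h]

theorem coeff_mul_ord {j : ℕ} {f g : MvPowerSeries (Fin p) B} (hf : f ∈ ordI B p j)
    {m : Fin p →₀ ℕ} (hm : m.degree ≤ j) :
    MvPowerSeries.coeff m (f * g) =
      MvPowerSeries.coeff m f * MvPowerSeries.constantCoeff g := by
  have h1 : g - MvPowerSeries.C (MvPowerSeries.constantCoeff g) ∈ ordI B p 1 := by
    refine mem_ordI_one ?_
    rw [map_sub, MvPowerSeries.constantCoeff_C, sub_self]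
  have h2 := ordI_mul hf h1 m (by omega)
  rw [mul_sub, map_sub, MvPowerSeries.coeff_mul_C, sub_eq_zero] at h2
  exact h2

end order

section taylor

variable {O : Type} [CommRing O] {B : Type} [CommRing B] [Algebra O B] {r p : ℕ}

theorem eval_map_eq {σ : Type} (z : σ → MvPowerSeries (Fin p) B) (Φ : MvPolynomial σ O) :
    MvPolynomial.eval z (MvPolynomial.map (algebraMap O (MvPowerSeries (Fin p) B)) Φ) =
      MvPolynomial.aeval z Φ := by
  rw [MvPolynomial.eval_map, MvPolynomial.aeval_def]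

theorem constantCoeff_aeval' {σ : Type} (z : σ → MvPowerSeries (Fin p) B) (z0 : σ → O)
    (hz : ∀ i, MvPowerSeries.constantCoeff (z i) = algebraMap O B (z0 i))
    (Φ : MvPolynomial σ O) :
    MvPowerSeries.constantCoeff (MvPolynomial.aeval z Φ) =
      algebraMap O B (MvPolynomial.eval z0 Φ) := by
  induction Φ using MvPolynomial.induction_on with
  | C a =>
    rw [MvPolynomial.aeval_C, MvPolynomial.eval_C, MvPowerSeries.algebraMap_apply,
      MvPowerSeries.constantCoeff_C]
  | add P Q hP hQ => rw [map_add, map_add, map_add, map_add, hP, hQ]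
  | mul_X P i hP =>
    rw [map_mul, map_mul, map_mul, map_mul, hP, MvPolynomial.aeval_X, MvPolynomial.eval_X, hz]

/-- first order Taylor formula for the coefficients of degree `≤ j` -/
theorem taylor_coeff (Φ : MvPolynomial (Fin r ⊕ Fin p) O) (x0 : Fin r → O)
    (x δ : Fin r → MvPowerSeries (Fin p) B) (y : Fin p → MvPowerSeries (Fin p) B)
    (hx : ∀ i, MvPowerSeries.constantCoeff (x i) = algebraMap O B (x0 i))
    (hy : ∀ q, MvPowerSeries.constantCoeff (y q) = 0) {j : ℕ} (hj : 0 < j)
    (hδ : ∀ i, δ i ∈ ordI B p j) (m : Fin p →₀ ℕ) (hm : m.degree ≤ j) :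
    MvPowerSeries.coeff m (MvPolynomial.aeval (Sum.elim (x + δ) y) Φ) =
      MvPowerSeries.coeff m (MvPolynomial.aeval (Sum.elim x y) Φ) +
      ∑ i, algebraMap O B (MvPolynomial.eval (Sum.elim x0 0)
        (MvPolynomial.pderiv (Sum.inl i) Φ)) * MvPowerSeries.coeff m (δ i) := by
  have h1 := taylor_mem (ordI B p j) (Sum.elim x y) (Sum.elim δ 0)
    (by
      rintro (i | q)
      · exact hδ i
      · exact Ideal.zero_mem _)
    (MvPolynomial.map (algebraMap O (MvPowerSeries (Fin p) B)) Φ)
  have h2 := ordI_sq hj h1 m (by omega)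
  rw [map_sub, map_sub, sub_eq_zero, sub_eq_iff_eq_add, eval_map_eq, eval_map_eq,
    map_sum, Fintype.sum_sum_type] at h2
  have e : (Sum.elim x y : Fin r ⊕ Fin p → _) + Sum.elim δ 0 = Sum.elim (x + δ) y := by
    funext s
    rcases s with i | q <;> simp
  rw [e] at h2
  rw [h2, add_comm]
  congr 1
  have h3 : ∑ q : Fin p, MvPowerSeries.coeff m (Sum.elim δ 0 (Sum.inr q : Fin r ⊕ Fin p) *
      MvPolynomial.eval (Sum.elim x y) (MvPolynomial.pderiv (Sum.inr q)
        (MvPolynomial.map (algebraMap O (MvPowerSeries (Fin p) B)) Φ))) = 0 := by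
    refine Finset.sum_eq_zero fun q _ => ?_
    simp
  rw [h3, add_zero]
  refine Finset.sum_congr rfl fun i _ => ?_
  rw [Sum.elim_inl, MvPolynomial.pderiv_map, eval_map_eq, coeff_mul_ord (hδ i) hm,
    constantCoeff_aeval' (z0 := Sum.elim x0 0), mul_comm]
  rintro (i | q)
  · exact hx i
  · simpa using hy q

/-- divisibility by `t ^ 2` -/
theorem coeff_dvd (Φ : MvPolynomial (Fin r ⊕ Fin p) O) (x0 : Fin r → O)
    (h0 : MvPolynomial.eval (Sum.elim x0 0) Φ = 0) (t : O)
    (Δ : Fin r → MvPowerSeries (Fin p) O) (m : Fin p →₀ ℕ)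
    (hm : ∀ i, MvPowerSeries.coeff m (Δ i) = 0) :
    t ^ 2 ∣ MvPowerSeries.coeff m (MvPolynomial.aeval (Sum.elim
        (fun i => MvPowerSeries.C (x0 i) + MvPowerSeries.C t * Δ i)
        (fun q => MvPowerSeries.C (t ^ 2) * MvPowerSeries.X q)) Φ) := by
  classical
  have h1 := taylor_mem (Ideal.span {(MvPowerSeries.C t : MvPowerSeries (Fin p) O)})
    (Sum.elim (fun i => MvPowerSeries.C (x0 i)) 0)
    (Sum.elim (fun i => MvPowerSeries.C t * Δ i)
      (fun q => MvPowerSeries.C (t ^ 2) * MvPowerSeries.X q))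
    (by
      rintro (i | q)
      · exact Ideal.mem_span_singleton.2 (Dvd.intro _ rfl)
      · refine Ideal.mem_span_singleton.2 ?_
        rw [Sum.elim_inr, pow_two, map_mul, mul_assoc]
        exact Dvd.intro _ rfl)
    (MvPolynomial.map (algebraMap O (MvPowerSeries (Fin p) O)) Φ)
  rw [Ideal.span_singleton_pow, Ideal.mem_span_singleton] at h1
  obtain ⟨g, hg⟩ := h1
  have h2 : MvPolynomial.eval (Sum.elim (fun i => MvPowerSeries.C (x0 i)) 0)
      (MvPolynomial.map (algebraMap O (MvPowerSeries (Fin p) O)) Φ) = 0 := by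
    have h3 : (Sum.elim (fun i => MvPowerSeries.C (x0 i)) 0 :
        Fin r ⊕ Fin p → MvPowerSeries (Fin p) O) =
        fun s => MvPowerSeries.C (Sum.elim x0 0 s) := by
      funext s
      rcases s with i | q <;> simp
    rw [eval_map_eq, h3]
    have h4 := MvPolynomial.eval₂_comp_left
      (MvPowerSeries.C : O →+* MvPowerSeries (Fin p) O) (RingHom.id O) (Sum.elim x0 0) Φ
    rw [MvPolynomial.eval₂_id] at h4
    rw [h0, map_zero] at h4
    rw [MvPolynomial.aeval_def]
    exact h4.symm
  have e : (Sum.elim (fun i => MvPowerSeries.C (x0 i)) 0 :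
      Fin r ⊕ Fin p → MvPowerSeries (Fin p) O) +
      Sum.elim (fun i => MvPowerSeries.C t * Δ i)
      (fun q => MvPowerSeries.C (t ^ 2) * MvPowerSeries.X q) =
      Sum.elim (fun i => MvPowerSeries.C (x0 i) + MvPowerSeries.C t * Δ i)
        (fun q => MvPowerSeries.C (t ^ 2) * MvPowerSeries.X q) := by
    funext s
    rcases s with i | q <;> simp
  rw [h2, sub_zero, e, eval_map_eq, sub_eq_iff_eq_add, Fintype.sum_sum_type] at hg
  rw [hg, map_add, map_add, map_sum, map_sum]
  refine dvd_add ?_ (dvd_add ?_ ?_)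
  · rw [← map_pow, MvPowerSeries.coeff_C_mul]
    exact Dvd.intro _ rfl
  · refine Finset.dvd_sum fun i _ => ?_
    have h5 : MvPolynomial.eval (Sum.elim (fun i => MvPowerSeries.C (x0 i)) 0)
        (MvPolynomial.pderiv (Sum.inl i)
          (MvPolynomial.map (algebraMap O (MvPowerSeries (Fin p) O)) Φ)) =
        MvPowerSeries.C (MvPolynomial.eval (Sum.elim x0 0)
          (MvPolynomial.pderiv (Sum.inl i) Φ)) := by
      have h3 : (Sum.elim (fun i => MvPowerSeries.C (x0 i)) 0 :
          Fin r ⊕ Fin p → MvPowerSeries (Fin p) O) =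
          fun s => MvPowerSeries.C (Sum.elim x0 0 s) := by
        funext s
        rcases s with i | q <;> simp
      rw [MvPolynomial.pderiv_map, eval_map_eq, h3]
      have h4 := MvPolynomial.eval₂_comp_left
        (MvPowerSeries.C : O →+* MvPowerSeries (Fin p) O) (RingHom.id O) (Sum.elim x0 0)
        (MvPolynomial.pderiv (Sum.inl i) Φ)
      rw [MvPolynomial.eval₂_id] at h4
      rw [MvPolynomial.aeval_def]
      exact h4.symm
    rw [h5, Sum.elim_inl, MvPowerSeries.coeff_mul_C, MvPowerSeries.coeff_C_mul, hm i, mul_zero,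
      zero_mul]
    exact dvd_zero _
  · refine Finset.dvd_sum fun q _ => ?_
    rw [Sum.elim_inr, mul_assoc, MvPowerSeries.coeff_C_mul]
    exact Dvd.intro _ rfl

end taylor

section ginv

/-- a generalised inverse of a matrix over a field -/
theorem exists_ginv_field {F : Type} [Field F] {r : ℕ} {S : Type} [Fintype S] [DecidableEq S]
    (A : Matrix S (Fin r) F) : ∃ G : Matrix (Fin r) S F, A * G * A = A := by
  classical
  set f := Matrix.toLin' A with hf
  obtain ⟨s, hs⟩ := LinearMap.exists_rightInverse_of_surjective f.rangeRestrict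
    (LinearMap.range_rangeRestrict f)
  obtain ⟨g, hg⟩ := LinearMap.exists_extend s
  refine ⟨LinearMap.toMatrix' g, ?_⟩
  have key : f ∘ₗ g ∘ₗ f = f := by
    refine LinearMap.ext fun v => ?_
    have h1 : g (f v) = s ⟨f v, LinearMap.mem_range_self f v⟩ := by
      have := LinearMap.congr_fun hg ⟨f v, LinearMap.mem_range_self f v⟩
      simpa using this
    have h2 : f (s ⟨f v, LinearMap.mem_range_self f v⟩) = f v := by
      have := LinearMap.congr_fun hs ⟨f v, LinearMap.mem_range_self f v⟩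
      have := congrArg Subtype.val this
      simpa using this
    rw [LinearMap.comp_apply, LinearMap.comp_apply, h1, h2]
  have h3 : LinearMap.toMatrix' (f ∘ₗ g ∘ₗ f) = A * (LinearMap.toMatrix' g * A) := by
    rw [LinearMap.toMatrix'_comp, LinearMap.toMatrix'_comp, hf, LinearMap.toMatrix'_toLin']
  rw [Matrix.mul_assoc, ← h3, key, hf, LinearMap.toMatrix'_toLin']

/-- a generalised inverse with a denominator, over a domain -/
theorem exists_ginv {O : Type} [CommRing O] [IsDomain O] {r : ℕ} {S : Type} [Fintype S]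
    [DecidableEq S] (A : Matrix S (Fin r) O) :
    ∃ (t1 : O) (G : Matrix (Fin r) S O), t1 ≠ 0 ∧ A * G * A = t1 • A := by
  classical
  obtain ⟨G, hG⟩ := exists_ginv_field (A.map (algebraMap O (FractionRing O)))
  obtain ⟨b, hb⟩ := IsLocalization.exist_integer_multiples_of_finite (nonZeroDivisors O)
    (fun q : Fin r × S => G q.1 q.2)
  choose g hg using hb
  set g' : Matrix (Fin r) S O := Matrix.of fun i s => g (i, s) with hg'
  refine ⟨b, g', nonZeroDivisors.ne_zero b.2, ?_⟩
  have hinj : Function.Injective (algebraMap O (FractionRing O)) := IsFractionRing.injective _ _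
  have h1 : g'.map (algebraMap O (FractionRing O)) = algebraMap O (FractionRing O) b • G := by
    ext i s
    rw [Matrix.map_apply, hg', Matrix.of_apply, hg (i, s), Matrix.smul_apply, Algebra.smul_def,
      smul_eq_mul]
  have h2 : (A * g' * A).map (algebraMap O (FractionRing O)) =
      ((b : O) • A).map (algebraMap O (FractionRing O)) := by
    rw [Matrix.map_mul, Matrix.map_mul, h1, Matrix.mul_smul, Matrix.smul_mul, hG]
    ext s i
    simp
  ext s i
  have h3 := congrFun (congrFun h2 s) i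
  exact hinj h3

end ginv

section scale

variable {O K : Type} [CommRing O] [Field K] [Algebra O K] {p : ℕ}

/-- the homomorphism `ξ ↦ u ξ` -/
noncomputable def sc (O : Type) {K : Type} [CommRing O] [Field K] [Algebra O K] (p : ℕ) (u : K) :
    MvPowerSeries (Fin p) O →+* MvPowerSeries (Fin p) K :=
  (MvPowerSeries.rescale (fun _ => u)).comp (MvPowerSeries.map (algebraMap O K))

theorem coeff_sc (u : K) (f : MvPowerSeries (Fin p) O) (m : Fin p →₀ ℕ) :
    MvPowerSeries.coeff m (sc O p u f) =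
      u ^ m.degree * algebraMap O K (MvPowerSeries.coeff m f) := by
  rw [sc, RingHom.comp_apply, MvPowerSeries.coeff_rescale, MvPowerSeries.coeff_map]
  congr 1
  rw [Finsupp.prod, Finset.prod_pow_eq_pow_sum, Finsupp.degree_apply]

theorem sc_comp_algebraMap (u : K) :
    (sc O p u).comp (algebraMap O (MvPowerSeries (Fin p) O)) =
      algebraMap O (MvPowerSeries (Fin p) K) := by
  classical
  refine RingHom.ext fun a => ?_
  refine MvPowerSeries.ext fun m => ?_
  rw [RingHom.comp_apply, coeff_sc, MvPowerSeries.algebraMap_apply,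
    MvPowerSeries.algebraMap_apply, MvPowerSeries.coeff_C, MvPowerSeries.coeff_C]
  by_cases hm : m = 0
  · subst hm
    simp
  · simp [hm]

theorem sc_aeval {σ : Type} (u : K) (z : σ → MvPowerSeries (Fin p) O) (Φ : MvPolynomial σ O) :
    sc O p u (MvPolynomial.aeval z Φ) = MvPolynomial.aeval (fun s => sc O p u (z s)) Φ := by
  rw [MvPolynomial.aeval_def, MvPolynomial.aeval_def, MvPolynomial.eval₂_comp_left,
    sc_comp_algebraMap]
  rfl

theorem sc_X (t : O) (u : K) (hu : u * algebraMap O K (t ^ 2) = 1) (q : Fin p) :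
    sc O p u (MvPowerSeries.C (t ^ 2) * MvPowerSeries.X q) = MvPowerSeries.X q := by
  classical
  refine MvPowerSeries.ext fun m => ?_
  rw [coeff_sc, MvPowerSeries.coeff_C_mul, MvPowerSeries.coeff_X, MvPowerSeries.coeff_X]
  by_cases hm : m = Finsupp.single q 1
  · rw [if_pos hm, if_pos hm, mul_one, hm, Finsupp.degree_single, pow_one, hu]
  · rw [if_neg hm, if_neg hm, mul_zero, map_zero, mul_zero]

end scale

section main

variable {O K : Type} [CommRing O] [Field K] [Algebra O K] {r p : ℕ} {S : Type}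

/-- the polynomials at `x0 + t Δ`, `t ^ 2 ξ` -/
noncomputable def P (x0 : Fin r → O) (Φ : S → MvPolynomial (Fin r ⊕ Fin p) O) (t : O)
    (Δ : Fin r → MvPowerSeries (Fin p) O) (s : S) : MvPowerSeries (Fin p) O :=
  MvPolynomial.aeval (Sum.elim
        (fun i => MvPowerSeries.C (x0 i) + MvPowerSeries.C t * Δ i)
        (fun q => MvPowerSeries.C (t ^ 2) * MvPowerSeries.X q)) (Φ s)

theorem P_add (x0 : Fin r → O) (Φ : S → MvPolynomial (Fin r ⊕ Fin p) O) (t : O)
    (Δ δ : Fin r → MvPowerSeries (Fin p) O) (hΔ : ∀ i, MvPowerSeries.constantCoeff (Δ i) = 0)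
    {j : ℕ} (hj : 0 < j) (hδ : ∀ i, δ i ∈ ordI O p j) (s : S) (m : Fin p →₀ ℕ)
    (hm : m.degree ≤ j) :
    MvPowerSeries.coeff m (P x0 Φ t (Δ + δ) s) = MvPowerSeries.coeff m (P x0 Φ t Δ s) +
      t * ∑ i, MvPolynomial.eval (Sum.elim x0 0) (MvPolynomial.pderiv (Sum.inl i) (Φ s)) *
        MvPowerSeries.coeff m (δ i) := by
  have h := taylor_coeff (B := O) (Φ s) x0
    (fun i => MvPowerSeries.C (x0 i) + MvPowerSeries.C t * Δ i)
    (fun i => MvPowerSeries.C t * δ i)
    (fun q => MvPowerSeries.C (t ^ 2) * MvPowerSeries.X q)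
    (by
      intro i
      rw [map_add, map_mul, MvPowerSeries.constantCoeff_C, hΔ, mul_zero, add_zero]
      rfl)
    (by
      intro q
      rw [map_mul, MvPowerSeries.constantCoeff_X, mul_zero])
    hj (fun i => Ideal.mul_mem_left _ _ (hδ i)) m hm
  have e : (fun i => MvPowerSeries.C (x0 i) + MvPowerSeries.C t * Δ i) +
      (fun i => MvPowerSeries.C t * δ i) =
      (fun i => MvPowerSeries.C (x0 i) + MvPowerSeries.C t * (Δ + δ) i :
        Fin r → MvPowerSeries (Fin p) O) := by
    funext i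
    simp only [Pi.add_apply]
    ring
  rw [e] at h
  rw [P, P, h]
  congr 1
  rw [Finset.mul_sum]
  refine Finset.sum_congr rfl fun i _ => ?_
  rw [MvPowerSeries.coeff_C_mul]
  show MvPolynomial.eval _ _ * _ = _
  ring

/-- a solution up to degree `< j` -/
def Good (x0 : Fin r → O) (Φ : S → MvPolynomial (Fin r ⊕ Fin p) O) (t : O) (j : ℕ)
    (Δ : Fin r → MvPowerSeries (Fin p) O) : Prop :=
  (∀ i, ∀ m : Fin p →₀ ℕ, m.degree = 0 ∨ j ≤ m.degree → MvPowerSeries.coeff m (Δ i) = 0) ∧
  ∀ s, ∀ m : Fin p →₀ ℕ, m.degree < j → MvPowerSeries.coeff m (P x0 Φ t Δ s) = 0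

theorem good_step (hinj : Function.Injective (algebraMap O K)) [Fintype S] [DecidableEq S]
    (x0 : Fin r → O) (Φ : S → MvPolynomial (Fin r ⊕ Fin p) O)
    (h0 : ∀ s, MvPolynomial.eval (Sum.elim x0 0) (Φ s) = 0)
    (hU : ∀ j : ℕ, 0 < j → ∀ x : Fin r → MvPowerSeries (Fin p) K,
      (∀ i, MvPowerSeries.constantCoeff (x i) = algebraMap O K (x0 i)) →
      (∀ s, ∀ m : Fin p →₀ ℕ, m.degree < j → MvPowerSeries.coeff m
        (MvPolynomial.aeval (Sum.elim x (fun q => MvPowerSeries.X q)) (Φ s)) = 0) →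
      ∃ δ : Fin r → MvPowerSeries (Fin p) K,
        (∀ i, ∀ m : Fin p →₀ ℕ, m.degree ≠ j → MvPowerSeries.coeff m (δ i) = 0) ∧
        (∀ s, ∀ m : Fin p →₀ ℕ, m.degree ≤ j → MvPowerSeries.coeff m
          (MvPolynomial.aeval (Sum.elim (x + δ) (fun q => MvPowerSeries.X q)) (Φ s)) = 0))
    (A : Matrix S (Fin r) O)
    (hA : ∀ s i, A s i =
      MvPolynomial.eval (Sum.elim x0 0) (MvPolynomial.pderiv (Sum.inl i) (Φ s)))
    (t0 t1 t : O) (G : Matrix (Fin r) S O) (hG : A * G * A = t1 • A) (ht : t = t0 * t1)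
    (htn : t ≠ 0) (j : ℕ) (hj : 0 < j) (Δ : Fin r → MvPowerSeries (Fin p) O)
    (hΔ : Good x0 Φ t j Δ) :
    ∃ Δ' : Fin r → MvPowerSeries (Fin p) O, Good x0 Φ t (j + 1) Δ' ∧
      ∀ i, ∀ m : Fin p →₀ ℕ, m.degree ≠ j →
        MvPowerSeries.coeff m (Δ' i) = MvPowerSeries.coeff m (Δ i) := by
  classical
  obtain ⟨hΔ1, hΔ2⟩ := hΔ
  have hτ : algebraMap O K t ≠ 0 := fun h => htn (hinj (by rw [h, map_zero]))
  set u : K := (algebraMap O K (t ^ 2))⁻¹ with hu
  have hτ2 : algebraMap O K (t ^ 2) ≠ 0 := by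
    rw [map_pow]
    exact pow_ne_zero 2 hτ
  have hu1 : u * algebraMap O K (t ^ 2) = 1 := inv_mul_cancel₀ hτ2
  have hu0 : u ≠ 0 := inv_ne_zero hτ2
  have hΔc : ∀ i, MvPowerSeries.constantCoeff (Δ i) = 0 := by
    intro i
    rw [← MvPowerSeries.coeff_zero_eq_constantCoeff_apply]
    exact hΔ1 i 0 (Or.inl (map_zero _))
  -- the scaled solution
  set x : Fin r → MvPowerSeries (Fin p) K :=
    fun i => sc O p u (MvPowerSeries.C (x0 i) + MvPowerSeries.C t * Δ i) with hx
  have hxP : ∀ s, MvPolynomial.aeval (Sum.elim x (fun q => MvPowerSeries.X q)) (Φ s) =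
      sc O p u (P x0 Φ t Δ s) := by
    intro s
    rw [P, sc_aeval]
    congr 2
    funext a
    rcases a with i | q
    · rfl
    · rw [Sum.elim_inr, Sum.elim_inr, sc_X t u hu1]
  obtain ⟨δ, hδ1, hδ2⟩ := hU j hj x
    (by
      intro i
      rw [← MvPowerSeries.coeff_zero_eq_constantCoeff_apply, hx, coeff_sc,
        MvPowerSeries.coeff_zero_eq_constantCoeff_apply, map_add, map_mul,
        MvPowerSeries.constantCoeff_C, hΔc, mul_zero, add_zero, map_zero, pow_zero, one_mul])
    (by
      intro s m hm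
      rw [hxP, coeff_sc, hΔ2 s m hm, map_zero, mul_zero])
  -- the coefficients of degree `j`
  have hdvd : ∀ s, ∀ m : Fin p →₀ ℕ, m.degree = j →
      ∃ ψ : O, MvPowerSeries.coeff m (P x0 Φ t Δ s) = t ^ 2 * ψ := by
    intro s m hm
    exact coeff_dvd (Φ s) x0 (h0 s) t Δ m (fun i => hΔ1 i m (Or.inr (by omega)))
  choose! ψ hψ using hdvd
  have hrange : ∀ m : Fin p →₀ ℕ, m.degree = j → ∀ s,
      algebraMap O K (ψ s m) = ∑ i, algebraMap O K (A s i) *
        (- (u * (u ^ j)⁻¹ * MvPowerSeries.coeff m (δ i))) := by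
    intro m hm s
    have h1 := taylor_coeff (B := K) (Φ s) x0 x δ (fun q => MvPowerSeries.X q)
      (by
        intro i
        rw [← MvPowerSeries.coeff_zero_eq_constantCoeff_apply, hx, coeff_sc,
          MvPowerSeries.coeff_zero_eq_constantCoeff_apply, map_add, map_mul,
          MvPowerSeries.constantCoeff_C, hΔc, mul_zero, add_zero, map_zero, pow_zero, one_mul])
      (fun q => MvPowerSeries.constantCoeff_X q) hj
      (fun i m' hm' => hδ1 i m' (by omega)) m (by omega)
    rw [hδ2 s m (by omega), hxP, coeff_sc, hψ s m hm, hm, map_mul] at h1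
    have h2 : (u ^ j) * (algebraMap O K (t ^ 2) * algebraMap O K (ψ s m)) =
        - ∑ i, algebraMap O K (A s i) * MvPowerSeries.coeff m (δ i) := by
      rw [eq_neg_iff_add_eq_zero, h1]
      congr 1
      exact Finset.sum_congr rfl fun i _ => by rw [hA]
    have huj : u ^ j ≠ 0 := pow_ne_zero _ hu0
    have h3 : algebraMap O K (ψ s m) =
        u * (u ^ j)⁻¹ * ((u ^ j) * (algebraMap O K (t ^ 2) * algebraMap O K (ψ s m))) := by
      calc algebraMap O K (ψ s m) = (u * algebraMap O K (t ^ 2)) * ((u ^ j)⁻¹ * u ^ j) *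
            algebraMap O K (ψ s m) := by rw [hu1, inv_mul_cancel₀ huj, one_mul, one_mul]
        _ = _ := by ring
    rw [h3, h2, mul_neg, Finset.mul_sum, ← Finset.sum_neg_distrib]
    exact Finset.sum_congr rfl fun i _ => by ring
  have hAG : ∀ m : Fin p →₀ ℕ, m.degree = j → ∀ s,
      ∑ i, A s i * ∑ s', G i s' * ψ s' m = t1 * ψ s m := by
    intro m hm s
    apply hinj
    set w : Fin r → K := fun i => - (u * (u ^ j)⁻¹ * MvPowerSeries.coeff m (δ i)) with hw
    have h1 : Matrix.mulVec (A.map (algebraMap O K)) w = fun s => algebraMap O K (ψ s m) := by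
      funext s
      rw [hrange m hm s]
      rfl
    have h2 : (A.map (algebraMap O K)) * (G.map (algebraMap O K)) * (A.map (algebraMap O K)) =
        algebraMap O K t1 • A.map (algebraMap O K) := by
      rw [← Matrix.map_mul, ← Matrix.map_mul, hG]
      ext s i
      simp
    have h3 : Matrix.mulVec (A.map (algebraMap O K)) (Matrix.mulVec (G.map (algebraMap O K))
        (fun s => algebraMap O K (ψ s m))) =
        algebraMap O K t1 • fun s => algebraMap O K (ψ s m) := by
      rw [← h1, Matrix.mulVec_mulVec, Matrix.mulVec_mulVec, h2, Matrix.smul_mulVec]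
    have h4 := congrFun h3 s
    rw [map_sum, map_mul]
    refine Eq.trans ?_ h4
    show _ = ∑ i, A.map (algebraMap O K) s i * ∑ s', _
    refine Finset.sum_congr rfl fun i _ => ?_
    rw [map_mul, map_sum]
    congr 1
    exact Finset.sum_congr rfl fun s' _ => by rw [map_mul]; rfl
  -- the correction
  set η : Fin r → MvPowerSeries (Fin p) O := fun i =>
    (fun m : Fin p →₀ ℕ => if m.degree = j then - (t0 * ∑ s', G i s' * ψ s' m) else 0) with hη
  have hηc : ∀ i m, MvPowerSeries.coeff m (η i) =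
      if m.degree = j then - (t0 * ∑ s', G i s' * ψ s' m) else 0 := fun i m => rfl
  have hηo : ∀ i, η i ∈ ordI O p j := by
    intro i m hm
    rw [hηc, if_neg (by omega)]
  refine ⟨Δ + η, ⟨?_, ?_⟩, ?_⟩
  · intro i m hm
    rw [Pi.add_apply, map_add, hΔ1 i m (by omega), hηc, if_neg (by omega), add_zero]
  · intro s m hm
    rw [P_add x0 Φ t Δ η hΔc hj hηo s m (by omega)]
    by_cases hmj : m.degree = j
    · have e1 : ∑ i, MvPolynomial.eval (Sum.elim x0 0)
          (MvPolynomial.pderiv (Sum.inl i) (Φ s)) * MvPowerSeries.coeff m (η i) =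
          - (t0 * (t1 * ψ s m)) := by
        rw [← hAG m hmj s, Finset.mul_sum, ← Finset.sum_neg_distrib]
        refine Finset.sum_congr rfl fun i _ => ?_
        rw [hηc, if_pos hmj, hA]
        ring
      rw [e1, hψ s m hmj, ht]
      ring
    · have e1 : ∑ i, MvPolynomial.eval (Sum.elim x0 0)
          (MvPolynomial.pderiv (Sum.inl i) (Φ s)) * MvPowerSeries.coeff m (η i) = 0 := by
        refine Finset.sum_eq_zero fun i _ => ?_
        rw [hηc, if_neg hmj, mul_zero]
      rw [e1, hΔ2 s m (by omega)]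
      ring
  · intro i m hm
    rw [Pi.add_apply, map_add, hηc, if_neg hm, add_zero]

end main

end Rec

open Rec in
/-- [F-REC] Abstract recursion with bounded denominators. `Φ s` are polynomials in the unknowns
`x` (`Fin r`) and the parameters `ξ` (`Fin p`), `x0` solves the system at `ξ = 0`, and every
solution modulo degree `j` over `K` (an extension field of `O`) can be corrected in degree `j`
to a solution modulo degree `j + 1`. -/
theorem rec_int {O K : Type} [CommRing O] [IsDomain O] [Field K] [Algebra O K]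
    (hinj : Function.Injective (algebraMap O K)) {r p : ℕ} {S : Type} [Finite S] (x0 : Fin r → O)
    (Φ : S → MvPolynomial (Fin r ⊕ Fin p) O)
    (h0 : ∀ s, MvPolynomial.eval (Sum.elim x0 0) (Φ s) = 0)
    (hU : ∀ j : ℕ, 0 < j → ∀ x : Fin r → MvPowerSeries (Fin p) K,
      (∀ i, MvPowerSeries.constantCoeff (x i) = algebraMap O K (x0 i)) →
      (∀ s, ∀ m : Fin p →₀ ℕ, m.degree < j → MvPowerSeries.coeff m
        (MvPolynomial.aeval (Sum.elim x (fun q => MvPowerSeries.X q)) (Φ s)) = 0) →
      ∃ δ : Fin r → MvPowerSeries (Fin p) K,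
        (∀ i, ∀ m : Fin p →₀ ℕ, m.degree ≠ j → MvPowerSeries.coeff m (δ i) = 0) ∧
        (∀ s, ∀ m : Fin p →₀ ℕ, m.degree ≤ j → MvPowerSeries.coeff m
          (MvPolynomial.aeval (Sum.elim (x + δ) (fun q => MvPowerSeries.X q)) (Φ s)) = 0))
    (t0 : O) (ht0 : t0 ≠ 0) :
    ∃ t : O, t ≠ 0 ∧ t0 ∣ t ∧ ∃ Δ : Fin r → MvPowerSeries (Fin p) O,
      (∀ i, MvPowerSeries.constantCoeff (Δ i) = 0) ∧
      ∀ s, MvPolynomial.aeval (Sum.elim
        (fun i => MvPowerSeries.C (x0 i) + MvPowerSeries.C t * Δ i)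
        (fun q => MvPowerSeries.C (t ^ 2) * MvPowerSeries.X q)) (Φ s) = 0 := by
  classical
  have := Fintype.ofFinite S
  set A : Matrix S (Fin r) O := Matrix.of fun s i =>
    MvPolynomial.eval (Sum.elim x0 0) (MvPolynomial.pderiv (Sum.inl i) (Φ s)) with hA
  obtain ⟨t1, G, ht1, hG⟩ := exists_ginv A
  set t : O := t0 * t1 with ht
  have htn : t ≠ 0 := mul_ne_zero ht0 ht1
  have step := good_step hinj x0 Φ h0 hU A (fun s i => rfl) t0 t1 t G hG ht htn
  choose! f hf1 hf2 using step
  let st : ℕ → (Fin r → MvPowerSeries (Fin p) O) := fun j =>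
    Nat.rec 0 (fun j Δ => f (j + 1) Δ) j
  have st0 : st 0 = 0 := rfl
  have sts : ∀ j, st (j + 1) = f (j + 1) (st j) := fun j => rfl
  have hgood : ∀ j, Good x0 Φ t (j + 1) (st j) := by
    intro j
    induction j with
    | zero =>
      refine ⟨fun i m _ => by rw [st0]; simp, fun s m hm => ?_⟩
      have hm0 : m = 0 := by
        rw [← Finsupp.degree_eq_zero_iff]
        omega
      rw [hm0, MvPowerSeries.coeff_zero_eq_constantCoeff_apply, P,
        constantCoeff_aeval' (z0 := Sum.elim x0 0), h0 s, map_zero]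
      rintro (i | q)
      · rw [Sum.elim_inl, Sum.elim_inl, st0, Pi.zero_apply, mul_zero, add_zero,
          MvPowerSeries.constantCoeff_C]
        rfl
      · rw [Sum.elim_inr, Sum.elim_inr, map_mul, MvPowerSeries.constantCoeff_X, mul_zero,
          Pi.zero_apply, map_zero]
    | succ j ih => exact hf1 (j + 1) (Nat.succ_pos j) (st j) ih
  have hagree : ∀ (i : Fin r) (m : Fin p →₀ ℕ) (j : ℕ), m.degree ≤ j →
      MvPowerSeries.coeff m (st j i) = MvPowerSeries.coeff m (st m.degree i) := by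
    intro i m j hmj
    induction j, hmj using Nat.le_induction with
    | base => rfl
    | succ j hj ih =>
      rw [sts, hf2 (j + 1) (Nat.succ_pos j) (st j) (hgood j) i m (by omega), ih]
  set L : Fin r → MvPowerSeries (Fin p) O := fun i =>
    (fun m : Fin p →₀ ℕ => MvPowerSeries.coeff m (st m.degree i)) with hL
  have hLc : ∀ i m, MvPowerSeries.coeff m (L i) = MvPowerSeries.coeff m (st m.degree i) :=
    fun i m => rfl
  have hc0 : ∀ j i, MvPowerSeries.constantCoeff (st j i) = 0 := by
    intro j i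
    rw [← MvPowerSeries.coeff_zero_eq_constantCoeff_apply]
    exact (hgood j).1 i 0 (Or.inl (map_zero _))
  refine ⟨t, htn, Dvd.intro _ rfl, L, ?_, ?_⟩
  · intro i
    rw [← MvPowerSeries.coeff_zero_eq_constantCoeff_apply, hLc,
      MvPowerSeries.coeff_zero_eq_constantCoeff_apply]
    exact hc0 (Finsupp.degree (0 : Fin p →₀ ℕ)) i
  · intro s
    change P x0 Φ t L s = 0
    refine MvPowerSeries.ext fun m => ?_
    rw [map_zero]
    have hd : ∀ i, L i - st m.degree i ∈ ordI O p (m.degree + 1) := by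
      intro i m' hm'
      rw [map_sub, hLc, sub_eq_zero]
      exact (hagree i m' _ (by omega)).symm
    have h1 := P_add x0 Φ t (st m.degree) (fun i => L i - st m.degree i) (hc0 _)
      (Nat.succ_pos m.degree) hd s m (by omega)
    have e : st m.degree + (fun i => L i - st m.degree i) = L := by
      funext i
      simp
    rw [e, (hgood m.degree).2 s m (by omega), zero_add] at h1
    rw [h1]
    have e2 : ∑ i, MvPolynomial.eval (Sum.elim x0 0)
        (MvPolynomial.pderiv (Sum.inl i) (Φ s)) *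
          MvPowerSeries.coeff m (L i - st m.degree i) = 0 := by
      refine Finset.sum_eq_zero fun i _ => ?_
      rw [hd i m (by omega), mul_zero]
    rw [e2, mul_zero]

end Pool.Agent.VFF
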