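import Pool.Agent.Lib_MP_1858fb_f.FDU
import Pool.Agent.Lib_MP_1858fb_f.Rec

/-! # MP_1858fb_ag, line F, piece F-FD: the formal deformation with bounded denominators -/

namespace Pool.Agent.VFF

open Pool.Agent.VF Polynomial

variable {k : Type} [Field k] {N n c : ℕ}

/-- [F-FD] The formal deformation with bounded denominators, with moving ends and marks. -/
theorem fd_int [IsAlgClosed k] (D : VData k N n c) {O : Type} [CommRing O] [IsDomain O]
    [Algebra k O] {d w : ℕ} {R : Fin (N + 1) → O[X]} (hR : Curve D d R) (cm : Fin w → k)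
    (hcm : Function.Injective cm) (hcm0 : ∀ l, cm l ≠ 0) (vs : Fin w → Fin (N + 1) → k)
    (hvs : ∀ l, vs l ∈ D.V)
    (hRm : ∀ l, Prop' (vs l) (fun i => (R i).eval (algebraMap k O (cm l))))
    {g : Fin n → Fin (N + 1) → O[X]} (hg : Sec D d R cm g)
    {y : Fin (N + 1) → k} (hy : y ∈ D.V) (fy : FrameAt D y) (ρ0 : O) (hρ0 : ρ0 ≠ 0)
    (hR0 : ∀ i, (R i).coeff 0 = ρ0 * algebraMap k O (y i))
    (α : Fin (N + 1) → O) (ρ1 : O) (hρ1 : ρ1 ≠ 0) (hR1 : ∀ i, (R i).coeff d = ρ1 * α i)
    (l : Fin (n + 1) → Fin (N + 1) → k) (E : Fin c → MvPolynomial (Fin (N + 1)) k)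
    (hα0 : lin (l 0) α = 1) (μ : O) (hμ : μ ≠ 0) (hfr : Frame D.V l E α μ)
    {p : ℕ} (a b : Fin n → Fin p → k) (t0 : O) (ht0 : t0 ≠ 0) :
    ∃ t : O, t ≠ 0 ∧ t0 ∣ t ∧ ∃ F : Fin (N + 1) → (MvPowerSeries (Fin p) O)[X],
      (∀ i, (F i).natDegree ≤ d) ∧ OnV D.V F ∧
      (∀ i m, ∃ Δ : MvPowerSeries (Fin p) O, MvPowerSeries.constantCoeff Δ = 0 ∧
        (F i).coeff m = MvPowerSeries.C ((R i).coeff m) + MvPowerSeries.C t * Δ) ∧
      (∀ l', Prop' (vs l') (fun i => (F i).eval (algebraMap k _ (cm l')))) ∧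
      (lin (fy.l 0) (fun i => (F i).coeff 0) = MvPowerSeries.C ρ0) ∧
      (∀ j : Fin n, lin (fy.l j.succ) (fun i => (F i).coeff 0) =
        MvPowerSeries.C (ρ0 * t ^ 2) *
          ∑ q, MvPowerSeries.C (algebraMap k O (a j q)) * MvPowerSeries.X q) ∧
      (∀ j : Fin n, lin (l j.succ) (fun i => (F i).coeff d) =
        (MvPowerSeries.C (lin (l j.succ) α) + MvPowerSeries.C (t ^ 2) *
          ∑ q, MvPowerSeries.C (algebraMap k O (b j q)) * MvPowerSeries.X q) *
        lin (l 0) (fun i => (F i).coeff d)) := by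
  classical
  set K := AlgebraicClosure (FractionRing O) with hK
  have hinj : Function.Injective (algebraMap O K) := by
    rw [IsScalarTower.algebraMap_eq O (FractionRing O) K]
    exact (algebraMap (FractionRing O) K).injective.comp
      (IsFractionRing.injective O (FractionRing O))
  have hφ : ∀ c : k, algebraMap O K (algebraMap k O c) = algebraMap k K c := fun c =>
    (IsScalarTower.algebraMap_apply _ _ _ _).symm
  obtain ⟨T, hT⟩ : (van D.V).FG := IsNoetherian.noetherian _
  have hT' : Ideal.span (T : Set (MvPolynomial (Fin (N + 1)) k)) = van D.V := hT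
  -- the algebra maps
  have hOA : ∀ c : k, algebraMap O (MvPowerSeries (Fin p) O) (algebraMap k O c) =
      algebraMap k (MvPowerSeries (Fin p) O) c := fun c => by
    rw [MvPowerSeries.algebraMap_apply, MvPowerSeries.algebraMap_apply,
      Algebra.algebraMap_self_apply]
  have hKA : ∀ c : k, algebraMap O (MvPowerSeries (Fin p) K) (algebraMap k O c) =
      algebraMap k (MvPowerSeries (Fin p) K) c := fun c => by
    rw [MvPowerSeries.algebraMap_apply, MvPowerSeries.algebraMap_apply, hφ]
  -- the system at the start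
  have h0 : ∀ s, MvPolynomial.eval (Sum.elim (fdCo N d R) 0)
      (fdPhi d T (fun E => d * E.totalDegree) cm vs fy.l l a b ρ0
        (fun j => lin (l j.succ) α) s) = 0 := by
    intro s
    have h1 := aeval_fdPhi (d := d) T (fun E => d * E.totalDegree) cm vs fy.l l a b ρ0
      (fun j => lin (l j.succ) α) (A := O) (fun c => rfl) (fdCo N d R) 0 s
    have h1' : ∀ q : MvPolynomial (Fin ((N + 1) * (d + 1)) ⊕ Fin p) O,
        MvPolynomial.eval (Sum.elim (fdCo N d R) 0) q =
          MvPolynomial.aeval (Sum.elim (fdCo N d R) 0) q := fun q =>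
      (congrFun (congrArg DFunLike.coe
        (MvPolynomial.coe_aeval_eq_eval (Sum.elim (fdCo N d R) 0))) q).symm
    rw [h1', h1]
    have hco : fdTup N d (fdCo N d R) = R := fdTup_fdCo hR.deg
    rcases s with ⟨E', a'⟩ | (⟨l', i, i'⟩ | (a' | j'))
    · simp only [fdEq]
      rw [hco, hR.onV E' (by rw [← hT']; exact Ideal.subset_span E'.2), coeff_zero]
    · simp only [fdEq]
      rw [hco, sub_eq_zero]
      exact hRm l' i i'
    · simp only [fdEq]
      rw [hco]
      have h2 : (fun i => (R i).coeff 0) = fun i => ρ0 * algebraMap k O (y i) := by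
        funext i; exact hR0 i
      rw [h2, fd_lin_smul, fd_lin_algebraMap, fy.hl]
      refine Fin.cases ?_ (fun j => ?_) a'
      · simp
      · simp [Fin.succ_ne_zero]
    · simp only [fdEq]
      rw [hco]
      have h2 : (fun i => (R i).coeff d) = fun i => ρ1 * α i := by
        funext i; exact hR1 i
      rw [h2, fd_lin_smul, fd_lin_smul, hα0]
      simp only [Pi.zero_apply, mul_zero, Finset.sum_const_zero, add_zero,
        Algebra.algebraMap_self_apply]
      ring
  -- the recursion
  have hlinφ : ∀ j : Fin n, algebraMap O K (lin (l j.succ) α) =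
      lin (l j.succ) (fun i => algebraMap O K (α i)) := fun j => fdMap_lin _ hφ _ _
  obtain ⟨t, ht, htt, Δ, hΔ0, hΔ⟩ := rec_int (O := O) (K := K) hinj (fdCo N d R)
    (fun s => fdPhi d T (fun E => d * E.totalDegree) cm vs fy.l l a b ρ0
        (fun j => lin (l j.succ) α) s) h0 (by
      intro j hj x hx0 hx
      have hsys : ∀ (z : Fin ((N + 1) * (d + 1)) → MvPowerSeries (Fin p) K)
          (s : fdS T (fun E => d * E.totalDegree) n w),
          MvPolynomial.aeval (Sum.elim z (fun q => MvPowerSeries.X q))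
            (fdPhi d T (fun E => d * E.totalDegree) cm vs fy.l l a b ρ0
              (fun j => lin (l j.succ) α) s) =
          fdEq d T (fun E => d * E.totalDegree) cm vs fy.l l a b
            (MvPowerSeries.C (algebraMap O K ρ0))
            (fun j => MvPowerSeries.C (lin (l j.succ) (fun i => algebraMap O K (α i)))) z
            (fun q => MvPowerSeries.X q) s := by
        intro z s
        rw [aeval_fdPhi (d := d) T (fun E => d * E.totalDegree) cm vs fy.l l a b ρ0
          (fun j => lin (l j.succ) α) (A := MvPowerSeries (Fin p) K) hKA z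
          (fun q => MvPowerSeries.X q) s]
        simp only [MvPowerSeries.algebraMap_apply, hlinφ]
      obtain ⟨δ, hδ1, hδ2⟩ := fd_hU D (fdCurve_map D (algebraMap O K) hφ hinj hR) cm hcm hcm0 vs
        hvs (fun l' i i' => by
          have h1 : ∀ q : O[X], (q.map (algebraMap O K)).eval (algebraMap k K (cm l')) =
              algebraMap O K (q.eval (algebraMap k O (cm l'))) := by
            intro q
            rw [eval_map, ← hφ, ← eval₂_hom]
          show ((R i).map (algebraMap O K)).eval (algebraMap k K (cm l')) *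
            algebraMap k K (vs l' i') = ((R i').map (algebraMap O K)).eval
              (algebraMap k K (cm l')) * algebraMap k K (vs l' i)
          rw [h1, h1, ← hφ, ← hφ, ← map_mul, ← map_mul]
          exact congrArg _ (hRm l' i i'))
        (fdSec_map D hg) hy fy (algebraMap O K ρ0)
        (fun h => hρ0 (hinj (h.trans (map_zero _).symm)))
        (fun i => by rw [coeff_map, hR0 i, map_mul, hφ])
        (fun i => algebraMap O K (α i)) (algebraMap O K ρ1)
        (fun h => hρ1 (hinj (h.trans (map_zero _).symm)))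
        (fun i => by rw [coeff_map, hR1 i, map_mul]) l E
        (by rw [← fdMap_lin (algebraMap O K) hφ, hα0, map_one]) (algebraMap O K μ)
        (fun h => hμ (hinj (h.trans (map_zero _).symm))) (fdFrame_map (algebraMap O K) hφ hfr)
        a b T hT' hj x
        (fun i => by rw [hx0 i, fdCo, fdCo, coeff_map])
        (fun s m hm => by rw [← hsys]; exact hx s m hm)
      exact ⟨δ, hδ1, fun s m hm => by rw [hsys]; exact hδ2 s m hm⟩) t0 ht0
  -- the output
  set z : Fin ((N + 1) * (d + 1)) → MvPowerSeries (Fin p) O :=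
    fun i => MvPowerSeries.C (fdCo N d R i) + MvPowerSeries.C t * Δ i with hz
  have hsol : ∀ s, fdEq d T (fun E => d * E.totalDegree) cm vs fy.l l a b
      (MvPowerSeries.C ρ0) (fun j => MvPowerSeries.C (lin (l j.succ) α)) z
      (fun q => MvPowerSeries.C (t ^ 2) * MvPowerSeries.X q) s = 0 := by
    intro s
    have h1 := hΔ s
    rw [aeval_fdPhi (d := d) T (fun E => d * E.totalDegree) cm vs fy.l l a b ρ0
      (fun j => lin (l j.succ) α) (A := MvPowerSeries (Fin p) O) hOA z
      (fun q => MvPowerSeries.C (t ^ 2) * MvPowerSeries.X q) s] at h1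
    simpa only [MvPowerSeries.algebraMap_apply, Algebra.algebraMap_self_apply] using h1
  refine ⟨t, ht, htt, fdTup N d z, fdTup_natDegree z, ?_, ?_, ?_, ?_, ?_, ?_⟩
  · intro E' hE'
    have h1 := fd_ideal hT' (fdTup N d z) (⊥ : Ideal (MvPowerSeries (Fin p) O)[X])
      (fun E'' hE'' => ?_) E' hE'
    · exact (Submodule.mem_bot _).1 h1
    · rw [Submodule.mem_bot]
      ext1 a'
      rw [coeff_zero]
      by_cases ha : a' ≤ d * E''.totalDegree
      · exact hsol (Sum.inl ⟨⟨E'', hE''⟩, ⟨a', Nat.lt_succ_iff.2 ha⟩⟩)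
      · exact coeff_eq_zero_of_natDegree_lt
          (lt_of_le_of_lt (fd_natDegree_aeval (fdTup_natDegree z) E'') (by omega))
  · intro i m
    by_cases hm : m ≤ d
    · refine ⟨Δ (finProdFinEquiv (i, ⟨m, Nat.lt_succ_iff.2 hm⟩)), hΔ0 _, ?_⟩
      rw [fdTup_coeff' _ _ _ hm, hz]
      simp only [fdCo_apply]
    · refine ⟨0, map_zero _, ?_⟩
      rw [fdTup_coeff_gt _ _ _ (by omega),
        coeff_eq_zero_of_natDegree_lt (lt_of_le_of_lt (hR.deg i) (by omega)), map_zero, mul_zero,
        add_zero]
  · intro l' i i'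
    have h1 := hsol (Sum.inr (Sum.inl (l', i, i')))
    simp only [fdEq, sub_eq_zero] at h1
    exact h1
  · have h1 := hsol (Sum.inr (Sum.inr (Sum.inl 0)))
    simp only [fdEq, Fin.cons_zero, sub_eq_zero] at h1
    exact h1
  · intro j
    have h1 := hsol (Sum.inr (Sum.inr (Sum.inl j.succ)))
    simp only [fdEq, Fin.cons_succ, sub_eq_zero] at h1
    rw [h1, map_mul, mul_assoc, Finset.mul_sum, Finset.mul_sum, Finset.mul_sum]
    refine Finset.sum_congr rfl fun q _ => ?_
    rw [MvPowerSeries.algebraMap_apply]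
    ring
  · intro j
    have h1 := hsol (Sum.inr (Sum.inr (Sum.inr j)))
    simp only [fdEq, sub_eq_zero] at h1
    rw [h1]
    congr 2
    rw [Finset.mul_sum]
    refine Finset.sum_congr rfl fun q _ => ?_
    rw [MvPowerSeries.algebraMap_apply]
    ring

end Pool.Agent.VFF
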