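import Pool.Agent.Lib_MP_1858fb_f.FDefs

/-!
# MP_1858fb_ag, line F: existence of a frame at a point of `V`
-/

set_option autoImplicit false

namespace Pool.Agent.VFF

open Pool.Agent.VF Module

private theorem frameEx_grow {k : Type} [Field k] {N j c : ℕ} (l' : Fin j → Fin (N + 1) → k)
    (e : Fin c → Fin (N + 1) → k) {x : Fin (N + 1) → k}
    (hx : x ∉ Submodule.span k (Set.range (Sum.elim l' e))) :
    finrank k (Submodule.span k (Set.range (Sum.elim l' e))) <
      finrank k (Submodule.span k (Set.range
        (Sum.elim (Fin.cons x l' : Fin (j + 1) → Fin (N + 1) → k) e))) := by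
  apply Submodule.finrank_lt_finrank_of_lt
  refine lt_of_le_of_ne ?_ ?_
  · rw [Submodule.span_le]
    rintro _ ⟨a | b, rfl⟩
    · exact Submodule.subset_span ⟨Sum.inl a.succ, by simp⟩
    · exact Submodule.subset_span ⟨Sum.inr b, by simp⟩
  · intro h
    apply hx
    rw [h]
    exact Submodule.subset_span ⟨Sum.inl 0, by simp⟩

/-- `c` independent rows `e` can be completed by `n + 1` rows, the first with value `1` at `y`, the
others with value `0`, to a square matrix with an inverse -/
private theorem frameEx_lin {k : Type} [Field k] {N n c : ℕ} (hc : n + c = N)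
    {y : Fin (N + 1) → k} (hy : y ≠ 0) {e : Fin c → Fin (N + 1) → k} (he : LinearIndependent k e) :
    ∃ l : Fin (n + 1) → Fin (N + 1) → k, (∀ a, ∑ i, l a i * y i = if a = 0 then 1 else 0) ∧
      ∃ B : Fin (N + 1) → (Fin (n + 1) ⊕ Fin c) → k,
        ∀ i j, ∑ a, B i a * (Sum.elim l e a) j = if i = j then 1 else 0 := by
  classical
  let f : (Fin (N + 1) → k) →ₗ[k] k :=
    { toFun := fun x => ∑ i, x i * y i
      map_add' := by
        intro a b
        simp only [Pi.add_apply, add_mul, Finset.sum_add_distrib]
      map_smul' := by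
        intro r a
        simp only [Pi.smul_apply, smul_eq_mul, RingHom.id_apply]
        rw [Finset.mul_sum]
        exact Finset.sum_congr rfl fun j _ => by ring }
  have hf : ∀ x, f x = ∑ i, x i * y i := fun x => rfl
  -- a form with value `1` at `y`
  have hu : ∃ u : Fin (N + 1) → k, f u = 1 := by
    obtain ⟨i, hi⟩ := Function.ne_iff.mp hy
    rw [Pi.zero_apply] at hi
    refine ⟨Pi.single i (y i)⁻¹, ?_⟩
    rw [hf, Finset.sum_eq_single i]
    · rw [Pi.single_eq_same, inv_mul_cancel₀ hi]
    · intro j _ hj
      rw [Pi.single_eq_of_ne hj, zero_mul]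
    · intro h
      exact absurd (Finset.mem_univ i) h
  obtain ⟨u, hu⟩ := hu
  have hrange : LinearMap.range f = ⊤ := by
    rw [LinearMap.range_eq_top]
    intro t
    exact ⟨t • u, by rw [map_smul, hu, smul_eq_mul, mul_one]⟩
  have hkerdim : finrank k (LinearMap.ker f) = N := by
    have h1 := LinearMap.finrank_range_add_finrank_ker f
    rw [hrange, finrank_top, finrank_self, Module.finrank_fin_fun] at h1
    omega
  have key : ∀ j ≤ n, ∃ l' : Fin j → Fin (N + 1) → k, (∀ i, f (l' i) = 0) ∧
      j + c ≤ finrank k (Submodule.span k (Set.range (Sum.elim l' e))) := by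
    intro j
    induction j with
    | zero =>
      intro _
      refine ⟨Fin.elim0, fun i => i.elim0, ?_⟩
      have h1 : Set.range e ⊆ Set.range (Sum.elim (Fin.elim0 : Fin 0 → Fin (N + 1) → k) e) := by
        rintro _ ⟨b, rfl⟩
        exact ⟨Sum.inr b, rfl⟩
      have h2 := Submodule.finrank_mono (Submodule.span_mono (R := k) h1)
      rw [finrank_span_eq_card he, Fintype.card_fin] at h2
      omega
    | succ j ih =>
      intro hj
      obtain ⟨l', hl', hdim⟩ := ih (by omega)
      by_cases hbig : j + 1 + c ≤ finrank k (Submodule.span k (Set.range (Sum.elim l' e)))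
      · refine ⟨Fin.cons 0 l', ?_, hbig.trans ?_⟩
        · intro i
          refine Fin.cases ?_ (fun i => ?_) i
          · rw [Fin.cons_zero, map_zero]
          · rw [Fin.cons_succ]
            exact hl' i
        · apply Submodule.finrank_mono
          rw [Submodule.span_le]
          rintro _ ⟨a | b, rfl⟩
          · exact Submodule.subset_span ⟨Sum.inl a.succ, by simp⟩
          · exact Submodule.subset_span ⟨Sum.inr b, by simp⟩
      · have hex : ∃ x ∈ LinearMap.ker f, x ∉ Submodule.span k (Set.range (Sum.elim l' e)) := by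
          by_contra hcon
          push Not at hcon
          have h2 := Submodule.finrank_mono (show LinearMap.ker f ≤ _ from hcon)
          omega
        obtain ⟨x, hx, hx'⟩ := hex
        refine ⟨Fin.cons x l', ?_, ?_⟩
        · intro i
          refine Fin.cases ?_ (fun i => ?_) i
          · rw [Fin.cons_zero]
            exact hx
          · rw [Fin.cons_succ]
            exact hl' i
        · have := frameEx_grow l' e hx'
          omega
  obtain ⟨l', hl', hdim⟩ := key n le_rfl
  set U := Submodule.span k (Set.range (Sum.elim l' e)) with hU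
  have hUle : finrank k U ≤ n + c := by
    have h1 := finrank_range_le_card (R := k) (Sum.elim l' e)
    rw [Fintype.card_sum, Fintype.card_fin, Fintype.card_fin] at h1
    exact h1
  have hx : ∃ x, f x = 1 ∧ x ∉ U := by
    by_contra hcon
    push Not at hcon
    have h1 : (⊤ : Submodule k (Fin (N + 1) → k)) ≤ U := by
      intro x _
      have h2 : u + (x - f x • u) ∈ U := by
        apply hcon
        rw [map_add, map_sub, map_smul, hu, smul_eq_mul, mul_one, sub_self, add_zero]
      have h3 : x = (u + (x - f x • u)) + (f x - 1) • u := by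
        rw [sub_smul, one_smul]
        abel
      rw [h3]
      exact U.add_mem h2 (U.smul_mem _ (hcon u hu))
    have h2 := Submodule.finrank_mono h1
    rw [finrank_top, Module.finrank_fin_fun] at h2
    omega
  obtain ⟨x, hx1, hxU⟩ := hx
  have hgrow := frameEx_grow l' e hxU
  rw [← hU] at hgrow
  refine ⟨Fin.cons x l', ?_, ?_⟩
  · intro a
    refine Fin.cases ?_ (fun i => ?_) a
    · rw [Fin.cons_zero, if_pos rfl, ← hf, hx1]
    · rw [Fin.cons_succ, if_neg (Fin.succ_ne_zero i), ← hf, hl' i]
  · have htop : Submodule.span k (Set.range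
        (Sum.elim (Fin.cons x l' : Fin (n + 1) → Fin (N + 1) → k) e)) = ⊤ := by
      apply Submodule.eq_top_of_finrank_eq
      apply le_antisymm (Submodule.finrank_le _)
      rw [Module.finrank_fin_fun]
      omega
    have hex : ∀ i : Fin (N + 1), ∃ b : (Fin (n + 1) ⊕ Fin c) → k,
        ∑ a, b a • (Sum.elim (Fin.cons x l' : Fin (n + 1) → Fin (N + 1) → k) e) a =
          Pi.single i 1 := by
      intro i
      have h1 : (Pi.single i 1 : Fin (N + 1) → k) ∈ Submodule.span k (Set.range
          (Sum.elim (Fin.cons x l' : Fin (n + 1) → Fin (N + 1) → k) e)) := by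
        rw [htop]
        exact Submodule.mem_top
      exact (Submodule.mem_span_range_iff_exists_fun k).mp h1
    choose B hB using hex
    refine ⟨B, fun i j => ?_⟩
    have h1 := congrFun (hB i) j
    rw [Finset.sum_apply] at h1
    simp only [Pi.smul_apply, smul_eq_mul] at h1
    rw [h1, Pi.single_apply]
    by_cases hij : i = j
    · rw [if_pos hij, if_pos hij.symm]
    · rw [if_neg hij, if_neg (fun h => hij h.symm)]

section

variable {k : Type} [Field k] {N n c : ℕ}

/-- [F-DATA] -/
theorem exists_frameAt [IsAlgClosed k] (D : VData k N n c) {y : Fin (N + 1) → k} (hy : y ∈ D.V) :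
    Nonempty (FrameAt D y) := by
  obtain ⟨E, G, hE, hli, hG, hgen⟩ := D.smooth y hy
  have hy0 : y ≠ 0 := by
    rintro rfl
    obtain ⟨_, l, hl⟩ := (D.mem_iff 0).mp hy
    apply hl
    have h0 : MvPolynomial.coeff 0 (D.H l) = 0 := by
      by_contra hne
      have h1 := D.homH l hne
      rw [map_zero] at h1
      exact absurd h1.symm (D.hpos l).ne'
    rw [MvPolynomial.aeval_zero, MvPolynomial.constantCoeff_eq, h0, map_zero]
  obtain ⟨l, hl, B, hB⟩ := frameEx_lin D.hc hy0 hli
  refine ⟨{ l := l, E := E, G := G, hl := ?_, hfr := ?_, hG := hG, gen := hgen }⟩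
  · intro a
    unfold lin
    simp only [Algebra.algebraMap_self_apply]
    exact hl a
  · refine ⟨hE, B, fun i j => ?_⟩
    have h1 := hB i j
    have h2 : row l E y = Sum.elim l (fun (i : Fin c) (j : Fin (N + 1)) =>
        MvPolynomial.aeval y (MvPolynomial.pderiv j (E i))) := by
      unfold row
      simp only [Algebra.algebraMap_self_apply]
    rw [h2]
    exact h1

end

end Pool.Agent.VFF
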