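import Pool.Agent.Lib_MP_1858fb_f.FDefs

/-! # MP_1858fb_ag, line F: F-UNIQ (points with the same frame coordinates are equal) -/

namespace Pool.Agent.VFF

open Pool.Agent.VF Polynomial

variable {k : Type} [Field k] {N n c : ℕ}

/-- the differential is additive in the polynomial -/
theorem uniq_dif_add {A : Type} [CommRing A] [Algebra k A] (E E' : MvPolynomial (Fin (N + 1)) k)
    (x w : Fin (N + 1) → A) : dif (E + E') x w = dif E x w + dif E' x w := by
  simp only [dif, map_add, add_mul, Finset.sum_add_distrib]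

/-- Leibniz rule for a variable -/
theorem uniq_dif_mul_X {A : Type} [CommRing A] [Algebra k A] (E : MvPolynomial (Fin (N + 1)) k)
    (i : Fin (N + 1)) (x w : Fin (N + 1) → A) :
    dif (E * MvPolynomial.X i) x w = dif E x w * x i + MvPolynomial.aeval x E * w i := by
  classical
  have h : ∀ j, MvPolynomial.aeval x (MvPolynomial.pderiv j (E * MvPolynomial.X i)) * w j =
      (MvPolynomial.aeval x (MvPolynomial.pderiv j E) * w j) * x i +
        (if j = i then MvPolynomial.aeval x E * w j else 0) := by
    intro j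
    rw [MvPolynomial.pderiv_mul, MvPolynomial.pderiv_X, map_add, map_mul, map_mul,
      MvPolynomial.aeval_X]
    by_cases hji : j = i
    · subst hji
      simp only [Pi.single_eq_same, map_one, mul_one, if_true]
      ring
    · rw [if_neg hji, Pi.single_eq_of_ne' hji]
      simp only [map_zero, mul_zero, add_zero]
      ring
  simp only [dif]
  rw [Finset.sum_congr rfl fun j _ => h j, Finset.sum_add_distrib, ← Finset.sum_mul]
  simp

/-- Taylor expansion to the first order -/
theorem uniq_taylor {A : Type} [CommRing A] [Algebra k A] (x' w : Fin (N + 1) → A) (J : Ideal A)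
    (hw : ∀ i, w i ∈ J) (E : MvPolynomial (Fin (N + 1)) k) :
    MvPolynomial.aeval (x' + w) E - MvPolynomial.aeval x' E - dif E x' w ∈ J ^ 2 := by
  induction E using MvPolynomial.induction_on with
  | C a =>
    have : dif (MvPolynomial.C a) x' w = 0 := by simp [dif]
    rw [this]
    simp
  | add p q hp hq =>
    rw [uniq_dif_add, map_add, map_add]
    have := Ideal.add_mem _ hp hq
    convert this using 1
    ring
  | mul_X p i hp =>
    rw [uniq_dif_mul_X, map_mul, map_mul, MvPolynomial.aeval_X, MvPolynomial.aeval_X]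
    have hd : dif p x' w ∈ J := by
      simp only [dif]
      exact Ideal.sum_mem _ fun j _ => Ideal.mul_mem_left _ _ (hw j)
    have h1 : MvPolynomial.aeval (x' + w) p - MvPolynomial.aeval x' p ∈ J := by
      have h2 := Ideal.add_mem J (Ideal.pow_le_self (two_ne_zero) hp) hd
      convert h2 using 1
      ring
    have h3 : (MvPolynomial.aeval (x' + w) p - MvPolynomial.aeval x' p) * w i ∈ J ^ 2 := by
      rw [pow_two]
      exact Ideal.mul_mem_mul h1 (hw i)
    have h4 : x' i * (MvPolynomial.aeval (x' + w) p - MvPolynomial.aeval x' p - dif p x' w) ∈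
        J ^ 2 := Ideal.mul_mem_left _ _ hp
    have h5 := Ideal.add_mem _ h3 h4
    convert h5 using 1
    simp only [Pi.add_apply]
    ring

/-- [F-UNIQ] points with the same frame coordinates which are congruent are equal -/
theorem uniq {A : Type} [CommRing A] [Algebra k A] (V : Set (Fin (N + 1) → k)) (I : Ideal A)
    (hI : ∀ a : A, (∀ m : ℕ, a ∈ I ^ m) → a = 0) (x x' : Fin (N + 1) → A) (hx : OnV V x)
    (hx' : OnV V x') (hxx : ∀ i, x i - x' i ∈ I) (l : Fin (n + 1) → Fin (N + 1) → k)
    (hl : ∀ a, lin (l a) x = lin (l a) x') (E : Fin c → MvPolynomial (Fin (N + 1)) k) (μ : A)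
    (hμ : IsUnit μ) (hfr : Frame V l E x' μ) : x = x' := by
  classical
  obtain ⟨hE, B, hB⟩ := hfr
  set w : Fin (N + 1) → A := x - x' with hwdef
  set J : Ideal A := Ideal.span (Set.range w) with hJ
  have hwJ : ∀ i, w i ∈ J := fun i => Ideal.subset_span ⟨i, rfl⟩
  have hxw : x' + w = x := by rw [hwdef]; ring
  have hJI : J ≤ I := by
    rw [hJ, Ideal.span_le]
    rintro _ ⟨i, rfl⟩
    exact hxx i
  -- the rows applied to `w`
  have hrow : ∀ a, ∑ j, row l E x' a j * w j ∈ J ^ 2 := by
    rintro (a | b)
    · have : ∑ j, row l E x' (Sum.inl a) j * w j = lin (l a) x - lin (l a) x' := by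
        simp only [row, Sum.elim_inl, lin, hwdef, Pi.sub_apply, mul_sub, Finset.sum_sub_distrib]
      rw [this, hl a, sub_self]
      exact Ideal.zero_mem _
    · have h1 := uniq_taylor x' w J hwJ (E b)
      rw [hxw, hx _ (hE b), hx' _ (hE b), sub_zero, zero_sub] at h1
      have h2 := (Ideal.neg_mem_iff _).1 h1
      simpa only [row, Sum.elim_inr, dif] using h2
  have hw2 : ∀ i, w i ∈ J ^ 2 := by
    intro i
    have h1 : ∑ a, B i a * ∑ j, row l E x' a j * w j ∈ J ^ 2 :=
      Ideal.sum_mem _ fun a _ => Ideal.mul_mem_left _ _ (hrow a)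
    have h2 : ∑ a, B i a * ∑ j, row l E x' a j * w j = μ * w i := by
      simp only [Finset.mul_sum]
      rw [Finset.sum_comm]
      have : ∀ j, ∑ a, B i a * (row l E x' a j * w j) = (if i = j then μ else 0) * w j := by
        intro j
        rw [← hB i j, Finset.sum_mul]
        exact Finset.sum_congr rfl fun a _ => by ring
      rw [Finset.sum_congr rfl fun j _ => this j]
      simp
    rw [h2] at h1
    obtain ⟨u, rfl⟩ := hμ
    have h3 := Ideal.mul_mem_left (J ^ 2) (↑u⁻¹ : A) h1
    rwa [← mul_assoc, Units.inv_mul, one_mul] at h3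
  have hJ2 : J ≤ J ^ 2 := by
    conv_lhs => rw [hJ]
    rw [Ideal.span_le]
    rintro _ ⟨i, rfl⟩
    exact hw2 i
  have hJm : ∀ m : ℕ, J ≤ J ^ m := by
    intro m
    induction m with
    | zero => simp
    | succ m ih =>
      calc J ≤ J ^ 2 := hJ2
        _ = J * J := pow_two J
        _ ≤ J ^ m * J := Ideal.mul_mono_left ih
        _ = J ^ (m + 1) := (pow_succ J m).symm
  have hw0 : ∀ i, w i = 0 := fun i => hI _ fun m => Ideal.pow_right_mono hJI m (hJm m (hwJ i))
  funext i
  have := hw0 i
  rw [hwdef, Pi.sub_apply] at this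
  exact sub_eq_zero.1 this

end Pool.Agent.VFF
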