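import Pool.Agent.Lib_MP_1858fb_f.GenSolA
import Pool.Agent.Lib_MP_1858fb_f.Uniq
import Pool.Agent.Lib_MP_1858fb_f.FrameEx
import Pool.Agent.Lib_MP_1858fb_f.FD
import Pool.Agent.Lib_MP_1858fb_f.CertDef

/-! # MP_1858fb_ag, line F, piece F-GEN, first part: the generic deformation over
`K = Frac k⟦ξ⟧` solves the system -/

set_option autoImplicit false

namespace Pool.Agent.VFF

open Pool.Agent.VF Polynomial

variable {k : Type} [Field k] {N n c : ℕ}

/-- an explicit independence criterion -/
theorem genSol_ind {K : Type} [Field K] [Algebra k K] (l : Fin (n + 1) → Fin (N + 1) → k)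
    (v0 : Fin (N + 1) → K) (v : Fin n → Fin (N + 1) → K) (L s : K) (x : Fin n → K)
    (hL : L ≠ 0) (hs : s ≠ 0) (h0 : lin (l 0) v0 = L)
    (h1 : ∀ a : Fin n, lin (l a.succ) v0 = s * x a * L)
    (h2 : ∀ a q : Fin n, lin (l a.succ) (v q) =
      s * ((if a = q then L else 0) + x a * lin (l 0) (v q))) :
    LinearIndependent K (Fin.cons v0 v : Fin (n + 1) → Fin (N + 1) → K) := by
  have hlin : ∀ (t : Fin (N + 1) → k) (c0 : K) (cs : Fin n → K)
      (_ : c0 • v0 + ∑ q, cs q • v q = 0), c0 * lin t v0 + ∑ q, cs q * lin t (v q) = 0 := by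
    intro t c0 cs h
    have h3 : lin t (c0 • v0 + ∑ q, cs q • v q) = 0 := by
      rw [h]
      simp [lin]
    rw [← h3]
    simp only [lin, Pi.add_apply, Pi.smul_apply, smul_eq_mul, Finset.sum_apply, mul_add,
      Finset.sum_add_distrib, Finset.mul_sum]
    congr 1
    · exact Finset.sum_congr rfl fun i _ => by ring
    · rw [Finset.sum_comm]
      exact Finset.sum_congr rfl fun i _ => Finset.sum_congr rfl fun q _ => by ring
  rw [Fintype.linearIndependent_iff]
  intro cf hcf
  rw [Fin.sum_univ_succ] at hcf
  simp only [Fin.cons_zero, Fin.cons_succ] at hcf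
  have e0 := hlin (l 0) _ _ hcf
  rw [h0] at e0
  have hz : ∀ a : Fin n, cf a.succ = 0 := by
    intro a
    have e1 := hlin (l a.succ) _ _ hcf
    rw [h1 a] at e1
    simp_rw [h2 a] at e1
    have e2 : ∑ q, cf (Fin.succ q) * (s * ((if a = q then L else 0) + x a * lin (l 0) (v q))) =
        s * (cf a.succ * L) + s * x a * ∑ q, cf (Fin.succ q) * lin (l 0) (v q) := by
      have e3 : cf a.succ * L = ∑ q, cf (Fin.succ q) * (if a = q then L else 0) := by
        rw [Finset.sum_eq_single a]
        · rw [if_pos rfl]
        · intro b _ hb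
          rw [if_neg (Ne.symm hb), mul_zero]
        · intro ha
          exact absurd (Finset.mem_univ a) ha
      rw [e3, Finset.mul_sum, Finset.mul_sum, ← Finset.sum_add_distrib]
      exact Finset.sum_congr rfl fun q _ => by ring
    rw [e2] at e1
    have e4 : s * L * cf a.succ = 0 := by
      have : s * L * cf a.succ = (cf 0 * (s * x a * L) + (s * (cf a.succ * L) +
          s * x a * ∑ q, cf (Fin.succ q) * lin (l 0) (v q))) -
          s * x a * (cf 0 * L + ∑ q, cf (Fin.succ q) * lin (l 0) (v q)) := by ring
      rw [this, e1, e0, mul_zero, sub_zero]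
    exact (mul_eq_zero.1 e4).resolve_left (mul_ne_zero hs hL)
  intro i
  refine Fin.cases ?_ hz i
  simp only [hz, zero_mul, Finset.sum_const_zero, add_zero] at e0
  exact (mul_eq_zero.1 e0).resolve_right hL

theorem gen_sol [IsAlgClosed k] (D : VData k N n c) {d w : ℕ} {R : Fin (N + 1) → k[X]}
    (hR : Curve D d R) (cm : Fin w → k) (hcm : Function.Injective cm) (hcm0 : ∀ l, cm l ≠ 0)
    (vs : Fin w → Fin (N + 1) → k) (hvs : ∀ l, vs l ∈ D.V)
    (hRm : ∀ l, Prop' (vs l) (fun i => (R i).eval (cm l)))
    {g : Fin n → Fin (N + 1) → k[X]} (hg : Sec D d R cm g) :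
    (fun i => (R i).coeff d) ∈ D.V ∧
    ∃ (M : ℕ) (F : Fin (N + 1) → (MvPowerSeries (Fin n) k)[X]),
      (∀ i, (F i).natDegree ≤ d) ∧ OnV D.V F ∧
      (∀ i, (F i).coeff 0 = MvPowerSeries.C ((R i).coeff 0)) ∧
      (∀ i m, MvPowerSeries.constantCoeff ((F i).coeff m) = (R i).coeff m) ∧
      LinearIndependent k (Fin.cons (fun i => (R i).coeff d)
        (fun j i => MvPowerSeries.coeff (Finsupp.single j 1) ((F i).coeff d)) :
        Fin (n + 1) → Fin (N + 1) → k) ∧
      ∀ (z : Fin (N + 1) → FractionRing (MvPowerSeries (Fin n) k))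
        (u : FractionRing (MvPowerSeries (Fin n) k)), u ≠ 0 →
        (∀ i, algebraMap (MvPowerSeries (Fin n) k) (FractionRing (MvPowerSeries (Fin n) k))
          ((F i).coeff d) = u * z i) →
        Sol D d cm vs (fun i => (R i).coeff 0) M (FractionRing (MvPowerSeries (Fin n) k)) z := by
  classical
  have hy0 := genSol_mem_zero D hR
  have hyd := genSol_mem_inf D hR
  refine ⟨hyd, ?_⟩
  obtain ⟨fy⟩ := exists_frameAt D hy0
  obtain ⟨fv⟩ := exists_frameAt D hyd
  have hd : 0 < d := lt_of_le_of_lt (Nat.zero_le _) (hg.deg ⟨0, D.hn⟩ 0)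
  obtain ⟨t, ht, -, F, hFd, hFV, hFR, hFm, hF0, hF0', hFinf⟩ := fd_int D hR cm hcm hcm0 vs hvs hRm
    hg hy0 fy 1 one_ne_zero (fun i => by rw [one_mul]; rfl) (fun i => (R i).coeff d) 1 one_ne_zero
    (fun i => by rw [one_mul]) fv.l fv.E (by rw [fv.hl 0, if_pos rfl]) 1 one_ne_zero fv.hfr
    (p := n) (fun _ _ => 0) (fun j q => if j = q then 1 else 0) 1 one_ne_zero
  obtain ⟨μ, hμ, M, hM⟩ := hR.cert
  have hcert := cert_deform D hμ hM t (IsUnit.dvd (Ne.isUnit hμ)) F hFd hR.deg hFR
  -- the rings
  let A := MvPowerSeries (Fin n) k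
  let K := FractionRing A
  let φ : A →ₐ[k] K := IsScalarTower.toAlgHom k A K
  have hφi : Function.Injective φ := IsFractionRing.injective A K
  have hφk : ∀ c : k, (φ : A →+* K) (algebraMap k A c) = algebraMap k K c := φ.commutes
  have halg : ∀ x : k, algebraMap k A x = MvPowerSeries.C x := fun x => rfl
  -- constant coefficients
  have hconst : ∀ i m, MvPowerSeries.constantCoeff ((F i).coeff m) = (R i).coeff m := by
    intro i m
    obtain ⟨Δ, hΔ, h⟩ := hFR i m
    rw [h, map_add, map_mul, MvPowerSeries.constantCoeff_C, MvPowerSeries.constantCoeff_C, hΔ,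
      mul_zero, add_zero]
  have hcc : ∀ x : k, MvPowerSeries.constantCoeff (algebraMap k A x) = algebraMap k k x := by
    intro x
    rw [halg, MvPowerSeries.constantCoeff_C]
    rfl
  -- the starting point does not move
  have hF0c : ∀ i, (F i).coeff 0 = MvPowerSeries.C ((R i).coeff 0) := by
    have h := uniq (k := k) D.V (RingHom.ker (MvPowerSeries.constantCoeff (σ := Fin n) (R := k)))
      genSol_sep (fun i => (F i).coeff 0) (fun i => algebraMap k A ((R i).coeff 0))
      (genSol_onV_zero D hFV) ?_ ?_ fy.l ?_ fy.E 1 isUnit_one ?_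
    · intro i
      exact congrFun h i
    · intro E hE
      have h1 := dual_aeval (Algebra.ofId k A) (fun i => (R i).coeff 0) E
      have h2 : MvPolynomial.aeval (fun i => (R i).coeff 0) E = 0 := by
        rw [← genSol_aeval_coeff_zero, hR.onV E hE, coeff_zero]
      rw [h2, map_zero] at h1
      exact h1
    · intro i
      rw [RingHom.mem_ker, map_sub, hconst, hcc]
      exact sub_self _
    · intro a
      rw [fd_lin_algebraMap, fy.hl a]
      refine Fin.cases ?_ (fun j => ?_) a
      · rw [hF0, if_pos rfl, map_one]
        rfl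
      · rw [hF0' j, if_neg (Fin.succ_ne_zero j), map_zero]
        simp
    · have h1 := genSol_frame_map (Algebra.ofId k A) fy.hfr
      rw [map_one] at h1
      exact h1
  -- the end point
  set L' : A := lin (fv.l 0) (fun i => (F i).coeff d) with hL'def
  have hL' : MvPowerSeries.constantCoeff L' = 1 := by
    rw [hL'def, fdMap_lin (MvPowerSeries.constantCoeff (σ := Fin n) (R := k)) hcc]
    simp_rw [hconst]
    rw [fv.hl 0, if_pos rfl]
  have hinf : ∀ j : Fin n, lin (fv.l j.succ) (fun i => (F i).coeff d) =
      MvPowerSeries.C (t ^ 2) * MvPowerSeries.X j * L' := by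
    intro j
    rw [hFinf j, fv.hl j.succ, if_neg (Fin.succ_ne_zero j), map_zero, zero_add]
    congr 2
    rw [Finset.sum_eq_single j]
    · rw [if_pos rfl]
      simp
    · intro b _ hb
      rw [if_neg (Ne.symm hb)]
      simp
    · intro hj
      exact absurd (Finset.mem_univ j) hj
  have hpl : ∀ (q : Fin n) (l : Fin (N + 1) → k) (x : Fin (N + 1) → A),
      MvPowerSeries.pderiv k q (lin l x) = lin l (fun i => MvPowerSeries.pderiv k q (x i)) := by
    intro q l x
    simp only [lin, map_sum]
    refine Finset.sum_congr rfl fun i _ => ?_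
    rw [← Algebra.smul_def, ← Algebra.smul_def]
    exact (MvPowerSeries.pderiv k q).map_smul (l i) (x i)
  have hpd : ∀ a q : Fin n, lin (fv.l a.succ)
      (fun i => MvPowerSeries.pderiv k q ((F i).coeff d)) = MvPowerSeries.C (t ^ 2) *
      ((if a = q then L' else 0) + MvPowerSeries.X a *
        lin (fv.l 0) (fun i => MvPowerSeries.pderiv k q ((F i).coeff d))) := by
    intro a q
    rw [← hpl, hinf a, ← hpl, ← hL'def, mul_assoc, Derivation.leibniz, Derivation.leibniz,
      MvPowerSeries.pderiv_C]
    simp only [smul_eq_mul, mul_zero, add_zero]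
    congr 1
    rw [add_comm]
    congr 1
    by_cases h : a = q
    · subst h
      rw [MvPowerSeries.pderiv_X_self, if_pos rfl, mul_one]
    · rw [if_neg h, MvPowerSeries.pderiv_X_of_ne h, mul_zero]
  refine ⟨M, F, hFd, hFV, hF0c, hconst, ?_, ?_⟩
  · have hco : ∀ (q : Fin n) (f : A), MvPowerSeries.coeff (Finsupp.single q 1) f =
        MvPowerSeries.constantCoeff (MvPowerSeries.pderiv k q f) := by
      intro q f
      rw [← MvPowerSeries.coeff_zero_eq_constantCoeff_apply, MvPowerSeries.coeff_pderiv]
      simp
    have hlc : ∀ (l : Fin (N + 1) → k) (x : Fin (N + 1) → A),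
        MvPowerSeries.constantCoeff (lin l x) =
          lin l (fun i => MvPowerSeries.constantCoeff (x i)) :=
      fun l x => fdMap_lin (MvPowerSeries.constantCoeff (σ := Fin n) (R := k)) hcc l x
    refine genSol_ind fv.l _ _ 1 (t ^ 2) 0 one_ne_zero (pow_ne_zero 2 ht) ?_ ?_ ?_
    · rw [fv.hl 0, if_pos rfl]
    · intro a
      rw [fv.hl a.succ, if_neg (Fin.succ_ne_zero a)]
      simp
    · intro a q
      simp_rw [hco]
      rw [← hlc, hpd a q, map_mul, map_add, map_mul, MvPowerSeries.constantCoeff_C,
        MvPowerSeries.constantCoeff_X]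
      simp only [Pi.zero_apply, zero_mul, add_zero]
      congr 1
      split_ifs with h
      · exact hL'
      · rw [map_zero]
  · intro z u hu hz
    have hcoeff : ∀ i m, ((F i).map (φ : A →+* K)).coeff m = φ ((F i).coeff m) := by
      intro i m
      rw [coeff_map]
      rfl
    have heval : ∀ i (r : k), ((F i).map (φ : A →+* K)).eval (algebraMap k K r) =
        φ ((F i).eval (algebraMap k A r)) := by
      intro i r
      rw [eval_map, ← hφk, eval₂_at_apply]
      rfl
    have hOn : OnV D.V (fun i => (F i).map (φ : A →+* K)) := by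
      intro E hE
      rw [← fdMap_aeval (φ : A →+* K) hφk, hFV E hE, Polynomial.map_zero]
    refine ⟨fun i => (F i).map (φ : A →+* K), fun i => natDegree_map_le.trans (hFd i), hOn,
      ?_, ?_, ⟨u, hu, ?_⟩, ?_, ?_⟩
    · -- the certificate
      intro i hi
      obtain ⟨B, hB1, hB2⟩ := hcert i hi
      have hμ' : algebraMap k K μ ≠ 0 := by
        rw [← hφk]
        intro h
        have h1 : (algebraMap k A μ) = 0 := hφi (h.trans (map_zero φ).symm)
        have h2 := hcc μ
        rw [h1, map_zero] at h2
        exact hμ h2.symm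
      refine ⟨fun l => C (algebraMap k K μ)⁻¹ * (B l).map (φ : A →+* K), fun l hl => ?_, ?_⟩
      · have h1 : B l ≠ 0 := fun h => hl (by simp [h])
        have h2 := hB1 l h1
        have h3 : (C (algebraMap k K μ)⁻¹ * (B l).map (φ : A →+* K)).natDegree ≤
            (B l).natDegree := (natDegree_C_mul_le _ _).trans natDegree_map_le
        exact (Nat.add_le_add_right h3 _).trans h2
      · have h1 := congrArg (Polynomial.map (φ : A →+* K)) hB2
        rw [Polynomial.map_sum, Polynomial.map_mul, map_C, Polynomial.map_pow, map_X] at h1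
        have h2 : (φ : A →+* K) (MvPowerSeries.C μ) = algebraMap k K μ := hφk μ
        rw [h2] at h1
        calc ∑ l, C (algebraMap k K μ)⁻¹ * (B l).map (φ : A →+* K) *
              MvPolynomial.aeval (fun i => (F i).map (φ : A →+* K)) (D.H l)
            = C (algebraMap k K μ)⁻¹ * ∑ l, ((B l) * MvPolynomial.aeval F (D.H l)).map
                (φ : A →+* K) := by
              rw [Finset.mul_sum]
              refine Finset.sum_congr rfl fun l _ => ?_
              rw [Polynomial.map_mul, fdMap_aeval (φ : A →+* K) hφk]
              ring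
          _ = C 1 * X ^ i := by
              rw [h1, ← mul_assoc, ← C_mul, inv_mul_cancel₀ hμ']
    · intro i
      rw [hcoeff, hF0c i]
      exact hφk _
    · intro i
      rw [hcoeff]
      exact hz i
    · intro l i j
      have h1 := congrArg φ (hFm l i j)
      rw [map_mul, map_mul] at h1
      show ((F i).map (φ : A →+* K)).eval (algebraMap k K (cm l)) * algebraMap k K (vs l j) =
        ((F j).map (φ : A →+* K)).eval (algebraMap k K (cm l)) * algebraMap k K (vs l i)
      rw [heval, heval, ← hφk, ← hφk]
      exact h1
    · -- the sections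
      let ψ : Fin n → A →+ K := fun q => (φ : A →+* K).toAddMonoidHom.comp
        (MvPowerSeries.pderiv k q : Derivation k A A).toLinearMap.toAddMonoidHom
      have hψa : ∀ q a, ψ q a = φ (MvPowerSeries.pderiv k q a) := fun q a => rfl
      have hψ : ∀ q a b, ψ q (a * b) = (φ : A →+* K) a * ψ q b + (φ : A →+* K) b * ψ q a := by
        intro q a b
        rw [hψa, hψa, hψa, Derivation.leibniz, smul_eq_mul, smul_eq_mul, map_add, map_mul,
          map_mul]
        rfl
      have hψC : ∀ q (r : k), ψ q (algebraMap k A r) = 0 := by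
        intro q r
        rw [hψa, halg, MvPowerSeries.pderiv_C, map_zero]
      have hψk : ∀ q a (r : k), ψ q (a * algebraMap k A r) = ψ q a * algebraMap k K r := by
        intro q a r
        rw [hψ, hψC, mul_zero, zero_add, hφk, mul_comm]
      have hD0 : ∀ q i, (genSolD (ψ q) (F i)).coeff 0 = 0 := by
        intro q i
        rw [genSolD_coeff, hF0c i]
        exact hψC q _
      have hDX : ∀ q i, (genSolD (ψ q) (F i)).divX * X = genSolD (ψ q) (F i) := by
        intro q i
        have h1 := divX_mul_X_add (genSolD (ψ q) (F i))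
        rw [hD0, C_0, add_zero] at h1
        exact h1
      have hDd : ∀ q i, (genSolD (ψ q) (F i)).natDegree ≤ d :=
        fun q i => genSolD_natDegree (ψ q) (hFd i)
      refine ⟨fun q i => (genSolD (ψ q) (F i)).divX, ?_, ?_, ?_, ?_⟩
      · intro q i
        show ((genSolD (ψ q) (F i)).divX).natDegree < d
        rw [natDegree_divX_eq_natDegree_tsub_one]
        have := hDd q i
        omega
      · intro q E hE
        have h1 := (dual_sections D.V (mapAlgHom φ : A[X] →ₐ[k] K[X]) (genSolD (ψ q))
          (genSolD_mul (φ : A →+* K) (ψ q) (hψ q)) ?_ F hFV).2 E hE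
        · have h2 : dif E (fun i => (F i).map (φ : A →+* K)) (fun i => genSolD (ψ q) (F i)) = 0 := h1
          have h3 : dif E (fun i => (F i).map (φ : A →+* K)) (fun i => genSolD (ψ q) (F i)) =
              dif E (fun i => (F i).map (φ : A →+* K)) (fun i => (genSolD (ψ q) (F i)).divX) *
                X := by
            simp only [dif, Finset.sum_mul]
            refine Finset.sum_congr rfl fun i _ => ?_
            rw [mul_assoc, hDX]
          rw [h3] at h2
          exact (mul_eq_zero.1 h2).resolve_right X_ne_zero
        · intro a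
          ext m
          rw [genSolD_coeff, Polynomial.algebraMap_apply, coeff_C, coeff_zero]
          split_ifs
          · exact hψC q a
          · exact map_zero _
      · intro q l
        obtain ⟨i0, hi0⟩ := fd_vs_ne D (hvs l)
        let e : Fin (N + 1) → A := fun i => (F i).eval (algebraMap k A (cm l))
        let s : A := e i0 * algebraMap k A (vs l i0)⁻¹
        have hes : ∀ i, e i = s * algebraMap k A (vs l i) := by
          intro i
          have h1 : e i * algebraMap k A (vs l i0) = e i0 * algebraMap k A (vs l i) := hFm l i i0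
          calc e i = e i * algebraMap k A (vs l i0) * algebraMap k A (vs l i0)⁻¹ := by
                rw [mul_assoc, ← map_mul, mul_inv_cancel₀ hi0, map_one, mul_one]
            _ = e i0 * algebraMap k A (vs l i) * algebraMap k A (vs l i0)⁻¹ := by rw [h1]
            _ = s * algebraMap k A (vs l i) := by
                show _ = e i0 * algebraMap k A (vs l i0)⁻¹ * algebraMap k A (vs l i)
                ring
        have hec : ∀ i, MvPowerSeries.constantCoeff (e i) = (R i).eval (cm l) := by
          intro i
          have h1 : (F i).map (MvPowerSeries.constantCoeff (σ := Fin n) (R := k)) = R i := by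
            ext m
            rw [coeff_map]
            exact hconst i m
          have h2 := eval₂_at_apply (p := F i) (MvPowerSeries.constantCoeff (σ := Fin n) (R := k))
            (algebraMap k A (cm l))
          rw [← eval_map, h1, hcc] at h2
          exact h2.symm
        have hs : φ s ≠ 0 := by
          intro h
          have h1 : s = 0 := hφi (h.trans (map_zero φ).symm)
          obtain ⟨i, hi⟩ := fd_eval_ne_zero D hR (cm l)
          apply hi
          rw [← hec i, hes i, h1, zero_mul, map_zero]
        have hcl : algebraMap k K (cm l) ≠ 0 := by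
          intro h
          exact hcm0 l ((algebraMap k K).injective (h.trans (map_zero _).symm))
        refine ⟨ψ q s * (φ s)⁻¹ * (algebraMap k K (cm l))⁻¹, fun i => ?_⟩
        show ((genSolD (ψ q) (F i)).divX).eval (algebraMap k K (cm l)) =
          ψ q s * (φ s)⁻¹ * (algebraMap k K (cm l))⁻¹ *
            ((F i).map (φ : A →+* K)).eval (algebraMap k K (cm l))
        have h1 := genSolD_eval (ψ q) (hψk q) (F i) (cm l)
        rw [← hDX q i, eval_mul, eval_X] at h1
        have h2 : ψ q ((F i).eval (algebraMap k A (cm l))) = ψ q s * algebraMap k K (vs l i) := by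
          have h3 : (F i).eval (algebraMap k A (cm l)) = s * algebraMap k A (vs l i) := hes i
          rw [h3, hψk]
        have h4 : ((F i).map (φ : A →+* K)).eval (algebraMap k K (cm l)) =
            φ s * algebraMap k K (vs l i) := by
          rw [heval]
          have h3 : (F i).eval (algebraMap k A (cm l)) = s * algebraMap k A (vs l i) := hes i
          rw [h3, map_mul]
          congr 1
        rw [h2] at h1
        rw [h4]
        calc ((genSolD (ψ q) (F i)).divX).eval (algebraMap k K (cm l))
            = (((genSolD (ψ q) (F i)).divX).eval (algebraMap k K (cm l)) *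
                algebraMap k K (cm l)) * (algebraMap k K (cm l))⁻¹ := by
              rw [mul_assoc, mul_inv_cancel₀ hcl, mul_one]
          _ = ψ q s * algebraMap k K (vs l i) * (algebraMap k K (cm l))⁻¹ := by rw [h1]
          _ = ψ q s * algebraMap k K (vs l i) * (algebraMap k K (cm l))⁻¹ *
                ((φ s)⁻¹ * φ s) := by rw [inv_mul_cancel₀ hs, mul_one]
          _ = _ := by ring
      · have hfin : ∀ q i, ((genSolD (ψ q) (F i)).divX).coeff (d - 1) =
            φ (MvPowerSeries.pderiv k q ((F i).coeff d)) := by
          intro q i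
          rw [coeff_divX, Nat.sub_add_cancel hd, genSolD_coeff]
          rfl
        have hlφ : ∀ (l : Fin (N + 1) → k) (x : Fin (N + 1) → A),
            lin l (fun i => φ (x i)) = φ (lin l x) :=
          fun l x => (fdMap_lin (φ : A →+* K) hφk l x).symm
        have h9 := genSol_ind (K := K) fv.l (fun i => φ ((F i).coeff d))
          (fun q i => φ (MvPowerSeries.pderiv k q ((F i).coeff d))) (φ L')
          (φ (MvPowerSeries.C (t ^ 2))) (fun a => φ (MvPowerSeries.X a)) ?_ ?_ ?_ ?_ ?_
        · have e1 : (fun i => ((F i).map (φ : A →+* K)).coeff d) =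
              fun i => φ ((F i).coeff d) := funext fun i => hcoeff i d
          have e2 : (fun (q : Fin n) (i : Fin (N + 1)) =>
              ((genSolD (ψ q) (F i)).divX).coeff (d - 1)) =
              fun q i => φ (MvPowerSeries.pderiv k q ((F i).coeff d)) :=
            funext fun q => funext fun i => hfin q i
          show LinearIndependent K (Fin.cons (fun i => ((F i).map (φ : A →+* K)).coeff d)
            (fun (q : Fin n) (i : Fin (N + 1)) =>
              ((genSolD (ψ q) (F i)).divX).coeff (d - 1)) : Fin (n + 1) → Fin (N + 1) → K)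
          rw [e1, e2]
          exact h9
        · intro h
          have h1 : L' = 0 := hφi (h.trans (map_zero φ).symm)
          rw [h1, map_zero] at hL'
          exact zero_ne_one hL'
        · intro h
          have h1 : (MvPowerSeries.C (t ^ 2) : A) = 0 := hφi (h.trans (map_zero φ).symm)
          have h2 := congrArg (MvPowerSeries.constantCoeff (σ := Fin n) (R := k)) h1
          rw [MvPowerSeries.constantCoeff_C, map_zero] at h2
          exact pow_ne_zero 2 ht h2
        · exact hlφ _ _
        · intro a
          rw [hlφ, hinf a, map_mul, map_mul]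
        · intro a q
          rw [hlφ, hpd a q, map_mul, map_add, map_mul, hlφ]
          congr 2
          split_ifs
          · rfl
          · exact map_zero φ

end Pool.Agent.VFF
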