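import Pool.Agent.Lib_MP_1858fb_f.GenA
import Pool.Agent.Lib_MP_1858fb_f.GenSol

/-!
# MP_1858fb_ag, F-GEN: generic solvability
-/

set_option autoImplicit false

namespace Pool.Agent.VFF

open Pool.Agent.VF Polynomial

variable {k : Type} [Field k] {N n c : ℕ}

/-- [F-GEN] generic solvability, from the formal deformation of `R0` (`fd_int` with `O = k`,
`p = n`, `a = 0`, `b = 1`, i.e. `F(0) = R0(0)` fixed and `F(∞)` moving in all directions) and the
injectivity of `k[V] → k⟦ξ⟧`. -/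
theorem exists_gen [IsAlgClosed k] (D : VData k N n c) {d w : ℕ} {R : Fin (N + 1) → k[X]}
    (hR : Curve D d R) (cm : Fin w → k) (hcm : Function.Injective cm) (hcm0 : ∀ l, cm l ≠ 0)
    (vs : Fin w → Fin (N + 1) → k) (hvs : ∀ l, vs l ∈ D.V)
    (hRm : ∀ l, Prop' (vs l) (fun i => (R i).eval (cm l)))
    {g : Fin n → Fin (N + 1) → k[X]} (hg : Sec D d R cm g) :
    ∃ (M : ℕ), ∀ (l0 : Fin (N + 1) → k), (∃ x ∈ D.V, lin l0 x ≠ 0) →
      ∀ (b : MvPolynomial (Fin (N + 1)) k) (e : ℕ), b.IsHomogeneous e → b ∉ van D.V →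
      ∃ (K : Type) (_ : Field K) (_ : Algebra k K) (z : Fin (N + 1) → K), OnV D.V z ∧
        lin l0 z = 1 ∧ MvPolynomial.aeval z b ≠ 0 ∧
        Sol D d cm vs (fun i => (R i).coeff 0) M K z := by
  obtain ⟨hinf, M, F, hdeg, hon, _, hcc, hind, hsol⟩ :=
    gen_sol D hR cm hcm hcm0 vs hvs hRm hg
  refine ⟨M, fun l0 hl0 b e hb hbV => ?_⟩
  have h1 : (fun i => MvPowerSeries.constantCoeff ((F i).coeff d)) = fun i => (R i).coeff d :=
    funext fun i => hcc i d
  refine genA_of_sol D cm vs _ F hdeg hon ?_ ?_ hsol l0 hl0 b e hb hbV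
  · rw [h1]
    exact hinf
  · rw [h1]
    exact hind

end Pool.Agent.VFF
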