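import Pool.Agent.Lib_MP_1858fb_f.GDefs
import Pool.Agent.Lib_MP_1858fb_w.Transfer
import Pool.Agent.Lib_MP_1858fb_p.ArcSol

/-! # MP_1858fb_ag, line F: curve selection for systems of equations over `V` -/

namespace Pool.Agent.VFF

open Pool.Agent.VF Polynomial

variable {k : Type} [Field k] {N n c : ℕ}

/-! ## Scaling -/

theorem sel_aeval_smul {σ : Type} {E : MvPolynomial σ k} {n : ℕ}
    (hE : E.IsHomogeneous n) (x : σ → k) (a : k) :
    MvPolynomial.aeval (a • x) E = a ^ n * MvPolynomial.aeval x E := by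
  classical
  rw [MvPolynomial.aeval_eq_eval₂Hom, MvPolynomial.aeval_eq_eval₂Hom, MvPolynomial.coe_eval₂Hom,
    MvPolynomial.coe_eval₂Hom, MvPolynomial.eval₂_eq, MvPolynomial.eval₂_eq, Finset.mul_sum]
  refine Finset.sum_congr rfl fun d hd => ?_
  have h1 : d.degree = n := by
    have h0 := hE (MvPolynomial.mem_support_iff.mp hd)
    rw [← h0]
    exact DFunLike.congr_fun (Finsupp.degree_eq_weight_one (R := ℕ) (σ := σ)) d
  have h2 : ∏ i ∈ d.support, (a • x) i ^ d i = a ^ n * ∏ i ∈ d.support, x i ^ d i := by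
    rw [← h1, Finsupp.degree_apply, ← Finset.prod_pow_eq_pow_sum, ← Finset.prod_mul_distrib]
    exact Finset.prod_congr rfl fun i _ => by simp [mul_pow]
  rw [h2]
  ring

theorem sel_smul_mem (D : VData k N n c) {x : Fin (N + 1) → k} (hx : x ∈ D.V) {a : k}
    (ha : a ≠ 0) : a • x ∈ D.V := by
  rw [D.mem_iff]
  obtain ⟨h1, l, h2⟩ := (D.mem_iff x).1 hx
  refine ⟨fun E hE => ?_, l, ?_⟩
  · rw [← MvPolynomial.sum_homogeneousComponent E, map_sum]
    refine Finset.sum_eq_zero fun e _ => ?_
    rw [sel_aeval_smul (MvPolynomial.homogeneousComponent_isHomogeneous e E),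
      h1 _ (D.hom E hE e), mul_zero]
  · rw [sel_aeval_smul (D.homH l)]
    exact mul_ne_zero (pow_ne_zero _ ha) h2

/-! ## Homogenization by the linear form -/

/-- the linear form -/
noncomputable def selL (l0 : Fin (N + 1) → k) : MvPolynomial (Fin (N + 1)) k :=
  ∑ i, MvPolynomial.C (l0 i) * MvPolynomial.X i

theorem sel_aeval_L (l0 : Fin (N + 1) → k) {A : Type} [CommRing A] [Algebra k A]
    (x : Fin (N + 1) → A) : MvPolynomial.aeval x (selL l0) = lin l0 x := by
  unfold selL lin
  rw [map_sum]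
  refine Finset.sum_congr rfl fun i _ => ?_
  rw [map_mul, MvPolynomial.aeval_C, MvPolynomial.aeval_X]

theorem sel_L_homog (l0 : Fin (N + 1) → k) : (selL l0).IsHomogeneous 1 := by
  unfold selL
  refine MvPolynomial.IsHomogeneous.sum _ _ _ fun i _ => ?_
  have h := (MvPolynomial.isHomogeneous_C (Fin (N + 1)) (l0 i)).mul
    (MvPolynomial.isHomogeneous_X k i)
  rwa [zero_add] at h

/-- the homogenization -/
noncomputable def selH (l0 : Fin (N + 1) → k) (f : MvPolynomial (Fin (N + 1)) k) :
    MvPolynomial (Fin (N + 1)) k :=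
  ∑ e ∈ Finset.range (f.totalDegree + 1),
    selL l0 ^ (f.totalDegree - e) * MvPolynomial.homogeneousComponent e f

theorem sel_H_homog (l0 : Fin (N + 1) → k) (f : MvPolynomial (Fin (N + 1)) k) :
    (selH l0 f).IsHomogeneous f.totalDegree := by
  unfold selH
  refine MvPolynomial.IsHomogeneous.sum _ _ _ fun e he => ?_
  have h1 : e ≤ f.totalDegree := Nat.lt_succ_iff.1 (Finset.mem_range.1 he)
  have h := ((sel_L_homog l0).pow (f.totalDegree - e)).mul
    (MvPolynomial.homogeneousComponent_isHomogeneous e f)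
  have h2 : 1 * (f.totalDegree - e) + e = f.totalDegree := by omega
  rwa [h2] at h

theorem sel_aeval_H (l0 : Fin (N + 1) → k) (f : MvPolynomial (Fin (N + 1)) k) {A : Type}
    [CommRing A] [Algebra k A] (x : Fin (N + 1) → A) (hx : lin l0 x = 1) :
    MvPolynomial.aeval x (selH l0 f) = MvPolynomial.aeval x f := by
  conv_rhs => rw [← MvPolynomial.sum_homogeneousComponent f]
  unfold selH
  rw [map_sum, map_sum]
  refine Finset.sum_congr rfl fun e _ => ?_
  rw [map_mul, map_pow, sel_aeval_L, hx, one_pow, one_mul]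

theorem sel_lin_smul (l0 : Fin (N + 1) → k) (a : k) (x : Fin (N + 1) → k) :
    lin l0 (a • x) = a * lin l0 x := by
  unfold lin
  rw [Finset.mul_sum]
  refine Finset.sum_congr rfl fun i _ => ?_
  rw [Pi.smul_apply, smul_eq_mul]
  ring

/-! ## The affine part -/

/-- the part of `V` in the affine hyperplane -/
def selV (D : VData k N n c) (l0 : Fin (N + 1) → k) : Set (Fin (N + 1) → k) :=
  {x | x ∈ D.V ∧ lin l0 x = 1}

theorem sel_scale (D : VData k N n c) (l0 : Fin (N + 1) → k) {F : MvPolynomial (Fin (N + 1)) k}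
    {e : ℕ} (hF : F.IsHomogeneous e) (h : ∀ x ∈ selV D l0, MvPolynomial.aeval x F = 0) :
    selL l0 * F ∈ van D.V := by
  intro x hx
  rw [map_mul, sel_aeval_L]
  by_cases ha : lin l0 x = 0
  · rw [ha, zero_mul]
  · have h1 : (lin l0 x)⁻¹ • x ∈ selV D l0 := by
      refine ⟨sel_smul_mem D hx (inv_ne_zero ha), ?_⟩
      rw [sel_lin_smul, inv_mul_cancel₀ ha]
    have h2 := h _ h1
    rw [sel_aeval_smul hF] at h2
    rw [(mul_eq_zero.1 h2).resolve_left (pow_ne_zero _ (inv_ne_zero ha)), mul_zero]

theorem sel_L_notMem (D : VData k N n c) {v : Fin (N + 1) → k} (hv : v ∈ D.V)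
    {l0 : Fin (N + 1) → k} (hl0 : lin l0 v = 1) : selL l0 ∉ van D.V := by
  intro h
  have h1 := h v hv
  rw [sel_aeval_L, hl0] at h1
  exact one_ne_zero h1

theorem sel_prime (D : VData k N n c) {v : Fin (N + 1) → k} (hv : v ∈ D.V)
    {l0 : Fin (N + 1) → k} (hl0 : lin l0 v = 1) : (van (selV D l0)).IsPrime := by
  rw [Ideal.isPrime_iff]
  refine ⟨?_, ?_⟩
  · rw [Ideal.ne_top_iff_one]
    intro h
    have h1 := h v ⟨hv, hl0⟩
    rw [map_one] at h1
    exact one_ne_zero h1
  · intro f g hfg
    have h1 : selL l0 * (selH l0 f * selH l0 g) ∈ van D.V := by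
      refine sel_scale D l0 ((sel_H_homog l0 f).mul (sel_H_homog l0 g)) fun x hx => ?_
      rw [map_mul, sel_aeval_H l0 f x hx.2, sel_aeval_H l0 g x hx.2, ← map_mul]
      exact hfg x hx
    have h2 := (D.irr.2 _ _ h1).resolve_left (sel_L_notMem D hv hl0)
    rcases D.irr.2 _ _ h2 with h3 | h3
    · left
      intro x hx
      rw [← sel_aeval_H l0 f x hx.2]
      exact h3 x hx.1
    · right
      intro x hx
      rw [← sel_aeval_H l0 g x hx.2]
      exact h3 x hx.1

/-- the polynomials vanishing on the affine part vanish at the points with `λ0 = 1` of `V` -/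
theorem sel_vanish (D : VData k N n c) (l0 : Fin (N + 1) → k) {A : Type} [CommRing A]
    [Algebra k A] {z : Fin (N + 1) → A} (hz : OnV D.V z) (hz0 : lin l0 z = 1)
    {f : MvPolynomial (Fin (N + 1)) k} (hf : f ∈ van (selV D l0)) :
    MvPolynomial.aeval z f = 0 := by
  have h1 : selL l0 * selH l0 f ∈ van D.V := by
    refine sel_scale D l0 (sel_H_homog l0 f) fun x hx => ?_
    rw [sel_aeval_H l0 f x hx.2]
    exact hf x hx
  have h2 := hz _ h1
  rw [map_mul, sel_aeval_L, hz0, one_mul, sel_aeval_H l0 f z hz0] at h2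
  exact h2

/-- [F-SEL] curve selection: a system of equations over `V`, solvable over a field at points of
`V` outside of every proper closed subset, is solvable over `k((τ))` along an arc through the
given point `v`. The linear form `λ0` normalises the coordinate vectors. -/
theorem curve_sel [IsAlgClosed k] (D : VData k N n c) {v : Fin (N + 1) → k} (hv : v ∈ D.V)
    (l0 : Fin (N + 1) → k) (hl0 : lin l0 v = 1) {r : ℕ}
    (Sys : Finset (MvPolynomial (Fin (N + 1) ⊕ Fin r) k))
    (h : ∀ (b : MvPolynomial (Fin (N + 1)) k) (e : ℕ), b.IsHomogeneous e → b ∉ van D.V →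
      ∃ (K : Type) (_ : Field K) (_ : Algebra k K) (z : Fin (N + 1) → K) (x : Fin r → K),
        OnV D.V z ∧ lin l0 z = 1 ∧ MvPolynomial.aeval z b ≠ 0 ∧
        ∀ f ∈ Sys, MvPolynomial.aeval (Sum.elim z x) f = 0) :
    ∃ (z : Fin (N + 1) → PowerSeries k) (x : Fin r → LaurentSeries k), OnV D.V z ∧
      lin l0 z = 1 ∧ (∀ i, PowerSeries.constantCoeff (z i) = v i) ∧
      ∀ f ∈ Sys, MvPolynomial.aeval
        (Sum.elim (fun i => HahnSeries.ofPowerSeries ℤ k (z i)) x) f = 0 := by
  classical
  set P : Ideal (MvPolynomial (Fin (N + 1)) k) := van (selV D l0) with hP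
  haveI hprime : P.IsPrime := sel_prime D hv hl0
  let B := MvPolynomial (Fin (N + 1)) k ⧸ P
  haveI : IsDomain B := Ideal.Quotient.isDomain P
  let q : MvPolynomial (Fin (N + 1)) k →ₐ[k] B := Ideal.Quotient.mkₐ k P
  have hq : Function.Surjective q := Ideal.Quotient.mkₐ_surjective k P
  have hq0 : ∀ f ∈ P, q f = 0 := fun f hf => Ideal.Quotient.eq_zero_iff_mem.2 hf
  -- the system over `B`
  let θ : MvPolynomial (Fin (N + 1) ⊕ Fin r) k →ₐ[k] MvPolynomial (Fin r) B :=
    MvPolynomial.aeval (Sum.elim (fun i => MvPolynomial.C (q (MvPolynomial.X i)))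
      MvPolynomial.X)
  have hθ : ∀ {R : Type} [CommRing R] [Algebra k R] (φ : B →+* R)
      (_ : ∀ a : k, φ (algebraMap k B a) = algebraMap k R a) (x : Fin r → R)
      (f : MvPolynomial (Fin (N + 1) ⊕ Fin r) k),
      MvPolynomial.eval₂ φ x (θ f) =
        MvPolynomial.aeval (Sum.elim (fun i => φ (q (MvPolynomial.X i))) x) f := by
    intro R _ _ φ hφ x f
    induction f using MvPolynomial.induction_on with
    | C a =>
      have h1 : θ (MvPolynomial.C a) = MvPolynomial.C (algebraMap k B a) := by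
        simp only [θ, MvPolynomial.aeval_C]
        rfl
      rw [h1, MvPolynomial.eval₂_C, MvPolynomial.aeval_C, hφ]
    | add p p' hp hp' => rw [map_add, MvPolynomial.eval₂_add, hp, hp', map_add]
    | mul_X p i hp =>
      rw [map_mul, MvPolynomial.eval₂_mul, hp, map_mul]
      congr 1
      rcases i with i | i
      · simp [θ, MvPolynomial.eval₂_C]
      · simp [θ, MvPolynomial.eval₂_X]
  -- generic solvability
  obtain ⟨D0, hD0, hfam⟩ := Pool.Agent.VFree.family_field (Sys.image θ) (by
    intro b hb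
    obtain ⟨f, rfl⟩ := hq b
    have hf : f ∉ P := fun hf => hb (hq0 f hf)
    have hfH : selH l0 f ∉ van D.V := by
      intro h1
      apply hf
      intro x hx
      rw [← sel_aeval_H l0 f x hx.2]
      exact h1 x hx.1
    obtain ⟨K, _, _, z, x, hz, hz0, hzb, hzf⟩ := h _ _ (sel_H_homog l0 f) hfH
    let φ : B →ₐ[k] K := Ideal.Quotient.liftₐ P (MvPolynomial.aeval z)
      (fun a ha => sel_vanish D l0 hz hz0 ha)
    have hφq : ∀ g, φ (q g) = MvPolynomial.aeval z g := fun g => rfl
    refine ⟨K, inferInstance, φ.toRingHom, ?_, x, ?_⟩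
    · change φ (q f) ≠ 0
      rw [hφq, ← sel_aeval_H l0 f z hz0]
      exact hzb
    · intro g hg
      obtain ⟨g', hg', rfl⟩ := Finset.mem_image.1 hg
      rw [hθ φ.toRingHom (fun a => φ.commutes a) x g']
      have h1 : (fun i => φ.toRingHom (q (MvPolynomial.X i))) = z := by
        funext i
        change φ (q (MvPolynomial.X i)) = z i
        rw [hφq, MvPolynomial.aeval_X]
      rw [h1]
      exact hzf g' hg')
  -- a solution over the algebraic closure of the fraction field
  let R := AlgebraicClosure (FractionRing B)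
  have hj : Function.Injective (algebraMap B R) :=
    (algebraMap (FractionRing B) R).injective.comp (IsFractionRing.injective B (FractionRing B))
  obtain ⟨x, hx⟩ := hfam R (algebraMap B R) (by
    intro h0
    exact hD0 (hj (by rw [h0, map_zero])))
  -- the point `v`
  let ev : B →ₐ[k] k := Ideal.Quotient.liftₐ P (MvPolynomial.aeval v)
    (fun a ha => ha v ⟨hv, hl0⟩)
  have hevq : ∀ g, ev (q g) = MvPolynomial.aeval v g := fun g => rfl
  have hevs : Function.Surjective ev := fun a => ⟨algebraMap k B a, ev.commutes a⟩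
  haveI hm : (RingHom.ker ev.toRingHom).IsMaximal :=
    RingHom.ker_isMaximal_of_surjective ev.toRingHom hevs
  obtain ⟨φ, y, hφm, -, hφy⟩ := MP1858fbP.arc_solution (k := k) (RingHom.ker ev.toRingHom)
    ((Sys.image θ : Finset _) : Set (MvPolynomial (Fin r) B)) (algebraMap B R) hj x
    (fun f hf => hx f hf) 1 one_ne_zero
  have hφq : ∀ g, φ (q g) = MvPolynomial.aeval (fun i => φ (q (MvPolynomial.X i))) g := by
    intro g
    have h1 : φ.comp q = MvPolynomial.aeval (fun i => φ (q (MvPolynomial.X i))) := by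
      apply MvPolynomial.algHom_ext
      intro i
      rw [MvPolynomial.aeval_X]
      rfl
    exact DFunLike.congr_fun h1 g
  refine ⟨fun i => φ (q (MvPolynomial.X i)), y, ?_, ?_, ?_, ?_⟩
  · intro E hE
    have hEP : E ∈ P := fun x hx => hE x hx.1
    rw [← hφq, hq0 E hEP, map_zero]
  · have hLP : selL l0 - 1 ∈ P := by
      intro x hx
      rw [map_sub, sel_aeval_L, hx.2, map_one, sub_self]
    have h1 : q (selL l0) = 1 := by
      have h2 := hq0 _ hLP
      rw [map_sub, map_one] at h2
      exact sub_eq_zero.1 h2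
    rw [← sel_aeval_L, ← hφq, h1, map_one]
  · intro i
    have h1 : q (MvPolynomial.X i) - algebraMap k B (v i) ∈ RingHom.ker ev.toRingHom := by
      rw [RingHom.mem_ker]
      change ev (q (MvPolynomial.X i) - algebraMap k B (v i)) = 0
      rw [map_sub, hevq, MvPolynomial.aeval_X, ev.commutes]
      exact sub_self _
    have h2 := hφm _ h1
    rw [map_sub, map_sub, φ.commutes] at h2
    have h3 := sub_eq_zero.1 h2
    rw [h3]
    rfl
  · intro f hf
    have h1 := hφy (θ f) (Finset.mem_coe.2 (Finset.mem_image_of_mem θ hf))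
    rw [hθ (R := LaurentSeries k) _ (fun a => by
      change algebraMap (PowerSeries k) (LaurentSeries k) (φ (algebraMap k B a)) = _
      rw [φ.commutes]
      change HahnSeries.ofPowerSeries ℤ k (PowerSeries.C a) = _
      rw [HahnSeries.ofPowerSeries_C]
      exact (LaurentSeries.algebraMap_apply k a).symm)] at h1
    exact h1

end Pool.Agent.VFF
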