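import Pool.Agent.Lib_MP_1858fb_f.GDefs

/-!
# MP_1858fb_ag, line F: auxiliary lemmas for F-SYS (polynomial form of the conditions)
-/

set_option autoImplicit false

namespace Pool.Agent.VFF

open Pool.Agent.VF Polynomial

/-- (a) linear independence is the existence of a left inverse -/
theorem sys_li_iff {K : Type} [Field K] {a b : ℕ} (v : Fin a → Fin b → K) :
    LinearIndependent K v ↔ ∃ B : Fin a → Fin b → K, ∀ i j, ∑ l, B i l * v j l =
      if i = j then 1 else 0 := by
  classical
  constructor
  · intro hv
    have hinj : LinearMap.ker (Fintype.linearCombination K v) = ⊥ := by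
      rw [LinearMap.ker_eq_bot']
      intro c hc
      funext i
      exact Fintype.linearIndependent_iff.mp hv c hc i
    obtain ⟨g, hg⟩ := LinearMap.exists_leftInverse_of_injective _ hinj
    refine ⟨fun i l => g (Pi.single l 1) i, fun i j => ?_⟩
    have h1 : v j = ∑ l, v j l • (Pi.single l 1 : Fin b → K) := by
      funext l
      rw [Finset.sum_apply, Finset.sum_eq_single l]
      · rw [Pi.smul_apply, Pi.single_eq_same, smul_eq_mul, mul_one]
      · intro l' _ hl'
        rw [Pi.smul_apply, Pi.single_eq_of_ne hl'.symm, smul_zero]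
      · intro h
        exact absurd (Finset.mem_univ l) h
    have h2 : g (v j) = Pi.single j 1 := by
      have h3 := LinearMap.congr_fun hg (Pi.single j 1)
      rw [LinearMap.comp_apply, LinearMap.id_apply, Fintype.linearCombination_apply_single,
        one_smul] at h3
      exact h3
    have h3 := congrFun h2 i
    rw [h1, map_sum, Finset.sum_apply] at h3
    simp only [map_smul, Pi.smul_apply, smul_eq_mul] at h3
    rw [Pi.single_apply] at h3
    rw [← h3]
    exact Finset.sum_congr rfl fun l _ => mul_comm _ _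
  · rintro ⟨B, hB⟩
    rw [Fintype.linearIndependent_iff]
    intro c hc i
    have h1 : ∑ l, B i l * (∑ j, c j • v j) l = c i := by
      have h2 : ∀ l, B i l * (∑ j, c j • v j) l = ∑ j, c j * (B i l * v j l) := by
        intro l
        rw [Finset.sum_apply, Finset.mul_sum]
        refine Finset.sum_congr rfl fun j _ => ?_
        rw [Pi.smul_apply, smul_eq_mul]
        ring
      simp only [h2]
      rw [Finset.sum_comm]
      simp only [← Finset.mul_sum, hB]
      rw [Finset.sum_eq_single i]
      · rw [if_pos rfl, mul_one]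
      · intro j _ hj
        rw [if_neg hj.symm, mul_zero]
      · intro h
        exact absurd (Finset.mem_univ i) h
    rw [← h1, hc]
    simp

/-- (b) tangency for generators of `van V` is enough -/
theorem sys_tang_span {k : Type} [Field k] {N g : ℕ} {V : Set (Fin (N + 1) → k)}
    {E : Fin g → MvPolynomial (Fin (N + 1)) k} (hE : Ideal.span (Set.range E) = van V)
    {A : Type} [CommRing A] [Algebra k A] {x w : Fin (N + 1) → A} (hx : OnV V x)
    (hw : ∀ l, dif (E l) x w = 0) : Tang V x w := by
  intro E' hE'
  have hE0 := hE'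
  rw [← hE] at hE'
  have h1 : MvPolynomial.aeval x E' = 0 ∧ dif E' x w = 0 := by
    refine Submodule.span_induction
      (p := fun G _ => MvPolynomial.aeval x G = 0 ∧ dif G x w = 0) ?_ ?_ ?_ ?_ hE'
    · rintro _ ⟨i, rfl⟩
      exact ⟨hx _ (hE ▸ Ideal.subset_span ⟨i, rfl⟩), hw i⟩
    · simp [dif]
    · rintro a b _ _ ⟨ha0, ha⟩ ⟨hb0, hb⟩
      refine ⟨by rw [map_add, ha0, hb0, add_zero], ?_⟩
      simp only [dif, map_add, add_mul, Finset.sum_add_distrib] at ha hb ⊢
      rw [ha, hb, add_zero]
    · rintro r a _ ⟨ha0, ha⟩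
      refine ⟨by rw [smul_eq_mul, map_mul, ha0, mul_zero], ?_⟩
      have h2 : dif (r • a) x w = MvPolynomial.aeval x r * dif a x w := by
        unfold dif
        rw [Finset.mul_sum]
        refine Finset.sum_congr rfl fun j _ => ?_
        rw [smul_eq_mul, Derivation.leibniz, smul_eq_mul, smul_eq_mul, map_add, map_mul, map_mul,
          ha0]
        ring
      rw [h2, ha, mul_zero]
  exact h1.2

/-- the polynomial with the coefficients `al`, cut to the degrees `e` with `e + b ≤ M` -/
noncomputable def sysPoly {K : Type} [CommRing K] (M b : ℕ) (al : Fin (M + 1) → K) : K[X] :=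
  ∑ e : Fin (M + 1), if (e : ℕ) + b ≤ M then C (al e) * X ^ (e : ℕ) else 0

theorem sysPoly_map {K K' : Type} [CommRing K] [CommRing K'] (f : K →+* K') (M b : ℕ)
    (al : Fin (M + 1) → K) : (sysPoly M b al).map f = sysPoly M b fun e => f (al e) := by
  unfold sysPoly
  rw [Polynomial.map_sum]
  refine Finset.sum_congr rfl fun e _ => ?_
  split_ifs
  · rw [Polynomial.map_mul, Polynomial.map_C, Polynomial.map_pow, Polynomial.map_X]
  · rw [Polynomial.map_zero]

theorem sysPoly_degree {K : Type} [CommRing K] (M b : ℕ) (al : Fin (M + 1) → K)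
    (h : sysPoly M b al ≠ 0) : (sysPoly M b al).natDegree + b ≤ M := by
  by_cases hb : b ≤ M
  · have h1 : (sysPoly M b al).natDegree ≤ M - b := by
      unfold sysPoly
      refine natDegree_sum_le_of_forall_le _ _ fun e _ => ?_
      split_ifs with he
      · exact (natDegree_C_mul_X_pow_le _ _).trans (by omega)
      · simp
    omega
  · exfalso
    apply h
    unfold sysPoly
    refine Finset.sum_eq_zero fun e _ => ?_
    rw [if_neg (by omega)]

theorem sysPoly_coeffs {K : Type} [CommRing K] (M b : ℕ) (p : K[X])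
    (h : p ≠ 0 → p.natDegree + b ≤ M) : sysPoly M b (fun e => p.coeff e) = p := by
  by_cases hp : p = 0
  · subst hp
    unfold sysPoly
    refine Finset.sum_eq_zero fun e _ => ?_
    split_ifs <;> simp
  · have h1 := h hp
    unfold sysPoly
    conv_rhs => rw [p.as_sum_range' (M + 1) (by omega)]
    rw [Finset.sum_range]
    refine Finset.sum_congr rfl fun e _ => ?_
    split_ifs with he
    · rw [C_mul_X_pow_eq_monomial]
    · rw [coeff_eq_zero_of_natDegree_lt (by omega), map_zero]

/-- (c) the certificate with `μ = 1` by its coefficients -/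
theorem sys_cert_iff {k : Type} [Field k] {N n c : ℕ} (D : VData k N n c) {K : Type} [CommRing K]
    [Algebra k K] (d : ℕ) (R : Fin (N + 1) → K[X]) (M : ℕ) :
    Cert D d R (1 : K) M ↔ ∃ al : Fin (M + 1) → Fin D.t → Fin (M + 1) → K,
      ∀ i : Fin (M + 1), ∑ l, sysPoly M (d * D.h l) (al i l) * MvPolynomial.aeval R (D.H l) =
        X ^ (i : ℕ) := by
  constructor
  · intro h
    choose A hA1 hA2 using h
    refine ⟨fun i l e => (A i (Nat.lt_succ_iff.mp i.2) l).coeff e, fun i => ?_⟩
    have h1 := hA2 i (Nat.lt_succ_iff.mp i.2)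
    rw [map_one, one_mul] at h1
    rw [← h1]
    refine Finset.sum_congr rfl fun l _ => ?_
    rw [sysPoly_coeffs _ _ _ (hA1 i _ l)]
  · rintro ⟨al, hal⟩ i hi
    refine ⟨fun l => sysPoly M (d * D.h l) (al ⟨i, Nat.lt_succ_of_le hi⟩ l),
      fun l hl => sysPoly_degree _ _ _ hl, ?_⟩
    rw [map_one, one_mul]
    exact hal ⟨i, Nat.lt_succ_of_le hi⟩

end Pool.Agent.VFF
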