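import Pool.Agent.Lib_MP_1858fb_f.SysFrame
import Pool.Agent.Lib_MP_1858fb_f.SysAux

/-!
# MP_1858fb_ag, line F, F-SYS: the system of equations for `Sol`
-/

set_option autoImplicit false

namespace Pool.Agent.VFF

open Pool.Agent.VF Polynomial

variable {k : Type} [Field k] {N n c : ℕ}

theorem sys_exists_gens (V : Set (Fin (N + 1) → k)) :
    ∃ (g : ℕ) (E : Fin g → MvPolynomial (Fin (N + 1)) k), Ideal.span (Set.range E) = van V :=
  Submodule.fg_iff_exists_fin_generating_family.mp (IsNoetherian.noetherian (van V))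

theorem sys_onV {σ : Type} (V : Set (Fin (N + 1) → k))
    {R : (K : Type) → [Field K] → [Algebra k K] → (σ → K) → Fin (N + 1) → K[X]}
    (hR : ∀ i, SysPx (k := k) (fun K _ _ z => R K z i)) :
    SysP (k := k) (fun K _ _ z => OnV V (R K z)) := by
  obtain ⟨g, E, hE⟩ := sys_exists_gens V
  have h : SysP (k := k) (fun K _ _ (z : σ → K) =>
      ∀ l : Fin g, MvPolynomial.aeval (R K z) (E l) = 0) :=
    SysP.forall fun l => SysP.eqPx (SysPx.aeval hR (E l)) SysPx.zero
  refine h.congr fun K _ _ z => ⟨fun h l => h _ (hE ▸ Ideal.subset_span ⟨l, rfl⟩),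
    fun h E' hE' => ?_⟩
  rw [← hE] at hE'
  have h6 : Ideal.span (Set.range E) ≤ RingHom.ker
      (MvPolynomial.aeval (R K z) : MvPolynomial (Fin (N + 1)) k →ₐ[k] K[X]) := by
    rw [Ideal.span_le]
    rintro _ ⟨l, rfl⟩
    exact h l
  exact h6 hE'

theorem sys_tang {σ : Type} (V : Set (Fin (N + 1) → k))
    {R G : (K : Type) → [Field K] → [Algebra k K] → (σ → K) → Fin (N + 1) → K[X]}
    (hR : ∀ i, SysPx (k := k) (fun K _ _ z => R K z i))
    (hG : ∀ i, SysPx (k := k) (fun K _ _ z => G K z i)) :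
    SysP (k := k) (fun K _ _ z => OnV V (R K z) ∧ Tang V (R K z) (G K z)) := by
  obtain ⟨g, E, hE⟩ := sys_exists_gens V
  have h : SysP (k := k) (fun K _ _ (z : σ → K) => OnV V (R K z) ∧
      ∀ l : Fin g, dif (E l) (R K z) (G K z) = 0) :=
    (sys_onV V hR).and (SysP.forall fun l => SysP.eqPx (SysPx.dif hR hG (E l)) SysPx.zero)
  exact h.congr fun K _ _ z => ⟨fun h => ⟨h.1, fun l => h.2 _ (hE ▸ Ideal.subset_span ⟨l, rfl⟩)⟩,
    fun h => ⟨h.1, sys_tang_span hE h.1 h.2⟩⟩

theorem sys_sysPoly {σ : Type} (M b : ℕ)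
    {x : (K : Type) → [Field K] → [Algebra k K] → (σ → K) → Fin (M + 1) → K}
    (hx : ∀ e, SysFn (k := k) (fun K _ _ z => x K z e)) :
    SysPx (k := k) (fun K _ _ z => sysPoly M b (x K z)) := by
  unfold sysPoly
  refine SysPx.sum _ fun e => ?_
  by_cases h : (e : ℕ) + b ≤ M
  · simp only [if_pos h]
    exact (SysPx.C (hx e)).mul (SysPx.X.pow _)
  · simp only [if_neg h]
    exact SysPx.zero

theorem sys_cert {σ : Type} (D : VData k N n c) (d M : ℕ)
    {R : (K : Type) → [Field K] → [Algebra k K] → (σ → K) → Fin (N + 1) → K[X]}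
    (hR : ∀ i, SysPx (k := k) (fun K _ _ z => R K z i)) :
    SysP (k := k) (fun K _ _ z => Cert D d (R K z) (1 : K) M) := by
  have h : SysP (k := k) (fun K _ _ (z : σ → K) =>
      ∃ x : Fin (M + 1) × Fin D.t × Fin (M + 1) → K, ∀ i : Fin (M + 1),
        ∑ l, sysPoly M (d * D.h l) (fun e => x (i, l, e)) *
          MvPolynomial.aeval (R K z) (D.H l) = X ^ (i : ℕ)) := by
    refine SysP.ex (P := fun K _ _ z x => ∀ i : Fin (M + 1),
        ∑ l, sysPoly M (d * D.h l) (fun e => x (i, l, e)) *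
          MvPolynomial.aeval (R K z) (D.H l) = X ^ (i : ℕ)) ?_
    refine SysP.forall fun i => SysP.eqPx (SysPx.sum _ fun l => SysPx.mul ?_ ?_) (SysPx.X.pow _)
    · exact sys_sysPoly M _ fun e => SysFn.var _
    · exact SysPx.aeval (fun i => (hR i).comp Sum.inl) _
  refine h.congr fun K _ _ z => ?_
  rw [sys_cert_iff]
  exact ⟨fun ⟨al, h⟩ => ⟨fun u => al u.1 u.2.1 u.2.2, h⟩,
    fun ⟨x, h⟩ => ⟨fun i l e => x (i, l, e), h⟩⟩

theorem sys_li {σ : Type} {a b : ℕ}
    {v : (K : Type) → [Field K] → [Algebra k K] → (σ → K) → Fin a → Fin b → K}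
    (hv : ∀ i j, SysFn (k := k) (fun K _ _ z => v K z i j)) :
    SysP (k := k) (fun K _ _ z => LinearIndependent K (v K z)) := by
  have h : SysP (k := k) (fun K _ _ (z : σ → K) => ∃ x : Fin a × Fin b → K, ∀ i j : Fin a,
      ∑ l, x (i, l) * v K z j l = if i = j then 1 else 0) := by
    refine SysP.ex (P := fun K _ _ z x => ∀ i j : Fin a,
      ∑ l, x (i, l) * v K z j l = if i = j then 1 else 0) ?_
    refine SysP.forall fun i => SysP.forall fun j => SysP.eqFn
      (SysFn.sum _ fun l => (SysFn.var _).mul ((hv j l).comp Sum.inl)) ?_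
    by_cases h : i = j
    · simp only [if_pos h]
      exact SysFn.one
    · simp only [if_neg h]
      exact SysFn.zero
  refine h.congr fun K _ _ z => ?_
  rw [sys_li_iff]
  exact ⟨fun ⟨B, h⟩ => ⟨fun u => B u.1 u.2, h⟩, fun ⟨x, h⟩ => ⟨fun i l => x (i, l), h⟩⟩

theorem sys_mark {σ : Type} (cl : k)
    {R G : (K : Type) → [Field K] → [Algebra k K] → (σ → K) → Fin (N + 1) → K[X]}
    (hR : ∀ i, SysPx (k := k) (fun K _ _ z => R K z i))
    (hG : ∀ i, SysPx (k := k) (fun K _ _ z => G K z i)) :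
    SysP (k := k) (fun K _ _ z => ∃ a : K, ∀ i, (G K z i).eval (algebraMap k K cl) =
      a * (R K z i).eval (algebraMap k K cl)) := by
  refine SysP.ex1 (P := fun K _ _ z a => ∀ i, (G K z i).eval (algebraMap k K cl) =
      a * (R K z i).eval (algebraMap k K cl)) ?_
  exact SysP.forall fun i => SysP.eqFn (((hG i).comp Sum.inl).eval cl)
    ((SysFn.var _).mul (((hR i).comp Sum.inl).eval cl))

theorem sys_end {σ : Type} (d : ℕ)
    {R : (K : Type) → [Field K] → [Algebra k K] → (σ → K) → Fin (N + 1) → K[X]}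
    {Z : (K : Type) → [Field K] → [Algebra k K] → (σ → K) → Fin (N + 1) → K}
    (hR : ∀ i, SysPx (k := k) (fun K _ _ z => R K z i))
    (hZ : ∀ i, SysFn (k := k) (fun K _ _ z => Z K z i)) :
    SysP (k := k) (fun K _ _ z => ∃ u : K, u ≠ 0 ∧ ∀ i, (R K z i).coeff d = u * Z K z i) := by
  refine SysP.ex1 (P := fun K _ _ z u => u ≠ 0 ∧ ∀ i, (R K z i).coeff d = u * Z K z i) ?_
  exact (SysP.ne0 (SysFn.var _)).and (SysP.forall fun i =>
    SysP.eqFn (((hR i).comp Sum.inl).coeff d) ((SysFn.var _).mul ((hZ i).comp Sum.inl)))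

theorem sys_prop {σ : Type} (cl : k) (v : Fin (N + 1) → k)
    {R : (K : Type) → [Field K] → [Algebra k K] → (σ → K) → Fin (N + 1) → K[X]}
    (hR : ∀ i, SysPx (k := k) (fun K _ _ z => R K z i)) :
    SysP (k := k) (fun K _ _ z => Prop' v (fun i => (R K z i).eval (algebraMap k K cl))) := by
  unfold Prop'
  exact SysP.forall fun i => SysP.forall fun j => SysP.eqFn
    (((hR i).eval cl).mul (SysFn.const _)) (((hR j).eval cl).mul (SysFn.const _))

/-- the part of `Sol` with the sections -/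
theorem sys_sec {σ : Type} (D : VData k N n c) (e : ℕ) {w : ℕ} (cm : Fin w → k)
    {R : (K : Type) → [Field K] → [Algebra k K] → (σ → K) → Fin (N + 1) → K[X]}
    (hR : ∀ i, SysPx (k := k) (fun K _ _ z => R K z i)) :
    SysP (k := k) (fun K _ _ z => OnV D.V (R K z) ∧
      ∃ g : Fin n → Fin (N + 1) → K[X], Sec D (e + 1) (R K z) cm g) := by
  have h : SysP (k := k) (fun K _ _ (z : σ → K) => ∃ G : Fin n × Fin (N + 1) → K[X],
      (∀ u, (G u).natDegree ≤ e) ∧ ((∀ j : Fin n, OnV D.V (R K z) ∧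
        Tang D.V (R K z) (fun i => G (j, i))) ∧
      (∀ (j : Fin n) (l : Fin w), ∃ a : K, ∀ i, (G (j, i)).eval (algebraMap k K (cm l)) =
        a * (R K z i).eval (algebraMap k K (cm l))) ∧
      LinearIndependent K (Fin.cons (fun i => (R K z i).coeff (e + 1))
        (fun j i => (G (j, i)).coeff e) : Fin (n + 1) → Fin (N + 1) → K))) := by
    refine SysP.exTup (ι := Fin n × Fin (N + 1)) e (P := fun K _ _ z G =>
      ((∀ j : Fin n, OnV D.V (R K z) ∧ Tang D.V (R K z) (fun i => G (j, i))) ∧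
      (∀ (j : Fin n) (l : Fin w), ∃ a : K, ∀ i, (G (j, i)).eval (algebraMap k K (cm l)) =
        a * (R K z i).eval (algebraMap k K (cm l))) ∧
      LinearIndependent K (Fin.cons (fun i => (R K z i).coeff (e + 1))
        (fun j i => (G (j, i)).coeff e) : Fin (n + 1) → Fin (N + 1) → K))) ?_
    refine (SysP.forall fun j => sys_tang D.V ?_ ?_).and
      ((SysP.forall fun j => SysP.forall fun l => sys_mark (cm l) ?_ ?_).and (sys_li ?_))
    · exact fun i => (hR i).comp Sum.inl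
    · exact fun i => SysPx.tup Sum.inr _
    · exact fun i => (hR i).comp Sum.inl
    · exact fun i => SysPx.tup Sum.inr _
    · intro i j
      refine Fin.cases ?_ (fun i => ?_) i
      · simp only [Fin.cons_zero]
        exact ((hR j).comp Sum.inl).coeff _
      · simp only [Fin.cons_succ]
        exact (SysPx.tup Sum.inr _).coeff _
  refine h.congr fun K _ _ z => ?_
  constructor
  · rintro ⟨hon, g, hg⟩
    exact ⟨fun u => g u.1 u.2, fun u => Nat.lt_succ_iff.mp (hg.deg u.1 u.2),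
      fun j => ⟨hon, hg.tan j⟩, hg.mark, hg.ind⟩
  · rintro ⟨G, h1, h2, h3, h4⟩
    have hn := D.hn
    exact ⟨(h2 ⟨0, hn⟩).1, fun j i => G (j, i), ⟨fun j i => Nat.lt_succ_of_le (h1 (j, i)),
      fun j => (h2 j).2, h3, h4⟩⟩

/-- [F-SYS] the system of equations for `Sol` -/
theorem exists_sys (D : VData k N n c) (d : ℕ) {w : ℕ} (cm : Fin w → k)
    (vs : Fin w → Fin (N + 1) → k) (y : Fin (N + 1) → k) (M : ℕ) :
    ∃ (r : ℕ) (Sys : Finset (MvPolynomial (Fin (N + 1) ⊕ Fin r) k)),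
      ∀ (K : Type) [Field K] [Algebra k K] (z : Fin (N + 1) → K),
        Sol D d cm vs y M K z ↔
          ∃ x : Fin r → K, ∀ f ∈ Sys, MvPolynomial.aeval (Sum.elim z x) f = 0 := by
  have key : SysP (k := k) (fun K _ _ (z : Fin (N + 1) → K) => Sol D d cm vs y M K z) := by
    rcases d with _ | e
    · refine SysP.false.congr fun K _ _ z => ⟨?_, False.elim⟩
      rintro ⟨R, -, -, -, -, -, -, g, hg⟩
      exact absurd (hg.deg ⟨0, D.hn⟩ 0) (Nat.not_lt_zero _)
    · have h : SysP (k := k) (fun K _ _ (z : Fin (N + 1) → K) => ∃ R : Fin (N + 1) → K[X],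
          (∀ i, (R i).natDegree ≤ e + 1) ∧ (Cert D (e + 1) R (1 : K) M ∧
          (∀ i, (R i).coeff 0 = algebraMap k K (y i)) ∧
          (∃ u : K, u ≠ 0 ∧ ∀ i, (R i).coeff (e + 1) = u * z i) ∧
          (∀ l, Prop' (vs l) (fun i => (R i).eval (algebraMap k K (cm l)))) ∧
          (OnV D.V R ∧ ∃ g : Fin n → Fin (N + 1) → K[X], Sec D (e + 1) R cm g))) := by
        refine SysP.exTup (ι := Fin (N + 1)) (e + 1) (P := fun K _ _ z R =>
          (Cert D (e + 1) R (1 : K) M ∧
          (∀ i, (R i).coeff 0 = algebraMap k K (y i)) ∧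
          (∃ u : K, u ≠ 0 ∧ ∀ i, (R i).coeff (e + 1) = u * z i) ∧
          (∀ l, Prop' (vs l) (fun i => (R i).eval (algebraMap k K (cm l)))) ∧
          (OnV D.V R ∧ ∃ g : Fin n → Fin (N + 1) → K[X], Sec D (e + 1) R cm g))) ?_
        have hR : ∀ i, SysPx (k := k) (fun K _ _
            (z : Fin (N + 1) ⊕ Fin (N + 1) × Fin (e + 1 + 1) → K) =>
            sysTup (e + 1) (fun u => z (Sum.inr u)) i) := fun i => SysPx.tup Sum.inr i
        exact (sys_cert D _ _ hR).and
          ((SysP.forall fun i => SysP.eqFn ((hR i).coeff 0) (SysFn.const _)).and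
          ((sys_end _ hR fun i => SysFn.var _).and
          ((SysP.forall fun l => sys_prop (cm l) (vs l) hR).and (sys_sec D e cm hR))))
      refine h.congr fun K _ _ z => ?_
      constructor
      · rintro ⟨R, h1, h2, h3, h4, h5, h6, h7⟩
        exact ⟨R, h1, h3, h4, h5, h6, h2, h7⟩
      · rintro ⟨R, h1, h3, h4, h5, h6, h2, h7⟩
        exact ⟨R, h1, h2, h3, h4, h5, h6, h7⟩
  exact key

end Pool.Agent.VFF
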