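import Pool.Agent.Lib_MP_1858fb_f.ExRA
import Pool.Agent.Lib_MP_1858fb_f.Sel
import Pool.Agent.Lib_MP_1858fb_f.Sys
import Pool.Agent.Lib_MP_1858fb_f.Gen

/-!
# MP_1858fb_ag, line F: the curve over `k⟦τ⟧` from `y` to an arc at `v` (F-EXR)
-/

set_option autoImplicit false

namespace Pool.Agent.VFF

open Pool.Agent.VF Polynomial

variable {k : Type} [Field k] {N n c : ℕ}

theorem exr_tower (k : Type) [Field k] :
    @IsScalarTower k (PowerSeries k) (LaurentSeries k) Algebra.toSMul Algebra.toSMul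
      Algebra.toSMul := by
  refine IsScalarTower.of_algebraMap_eq fun a => ?_
  rfl

/-- [F-EXR] the curve over `k((τ))` from `y` to an arc at `v`, with cleared denominators -/
theorem exists_arc_curve [IsAlgClosed k] (D : VData k N n c) {d w : ℕ} {R : Fin (N + 1) → k[X]}
    (hR : Curve D d R) (cm : Fin w → k) (hcm : Function.Injective cm) (hcm0 : ∀ l, cm l ≠ 0)
    (vs : Fin w → Fin (N + 1) → k) (hvs : ∀ l, vs l ∈ D.V)
    (hRm : ∀ l, Prop' (vs l) (fun i => (R i).eval (cm l)))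
    {g : Fin n → Fin (N + 1) → k[X]} (hg : Sec D d R cm g) {v : Fin (N + 1) → k} (hv : v ∈ D.V)
    (fv : FrameAt D v) :
    ∃ (α : Fin (N + 1) → PowerSeries k) (R' : Fin (N + 1) → (PowerSeries k)[X])
      (ρ0 ρ1 : PowerSeries k) (g' : Fin n → Fin (N + 1) → (PowerSeries k)[X]),
      OnV D.V α ∧ (∀ i, PowerSeries.constantCoeff (α i) = v i) ∧ lin (fv.l 0) α = 1 ∧
      Curve D d R' ∧ Sec D d R' cm g' ∧ ρ0 ≠ 0 ∧ ρ1 ≠ 0 ∧
      (∀ i, (R' i).coeff 0 = ρ0 * algebraMap k _ ((R i).coeff 0)) ∧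
      (∀ i, (R' i).coeff d = ρ1 * α i) ∧
      ∀ l, Prop' (vs l) (fun i => (R' i).eval (algebraMap k _ (cm l))) := by
  have htow := exr_tower k
  have hl0 : lin (fv.l 0) v = 1 := by
    rw [fv.hl 0, if_pos rfl]
  obtain ⟨M, hM⟩ := exists_gen D hR cm hcm hcm0 vs hvs hRm hg
  obtain ⟨r, Sys, hSys⟩ := exists_sys D d cm vs (fun i => (R i).coeff 0) M
  obtain ⟨z, x, hz1, hz2, hz3, hx⟩ := curve_sel D hv (fv.l 0) hl0 Sys (by
    intro b e hb hbV
    obtain ⟨K, iK, iA, z, h1, h2, h3, h4⟩ :=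
      hM (fv.l 0) ⟨v, hv, by rw [hl0]; exact one_ne_zero⟩ b e hb hbV
    obtain ⟨x, hx⟩ := (hSys K z).1 h4
    exact ⟨K, iK, iA, z, x, h1, h2, h3, hx⟩)
  have hS : Sol D d cm vs (fun i => (R i).coeff 0) M (LaurentSeries k)
      (fun i => algebraMap (PowerSeries k) (LaurentSeries k) (z i)) :=
    (hSys (LaurentSeries k) _).2 ⟨x, hx⟩
  obtain ⟨R', ρ0, ρ1, g', h1, h2, h3, h4, h5, h6, h7⟩ := exr_clear D cm vs _ M z (fv.l 0) hz2 hS
  exact ⟨z, R', ρ0, ρ1, g', hz1, hz3, hz2, h1, h2, h3, h4, h5, h6, h7⟩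

end Pool.Agent.VFF
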