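import Pool.Agent.Lib_MP_1858fb_f.GDefs

/-!
# MP_1858fb_ag, line F: clearing denominators of a solution (F-EXR, part A)

`exr_clear`: a solution of the system `Sol` over the fraction field `K` of the domain `O`, at a
point with coordinates in `O`, gives a curve with sections over `O`.
-/

set_option autoImplicit false

namespace Pool.Agent.VFF

open Pool.Agent.VF Polynomial

section Scale

variable {k : Type} [Field k] {N : ℕ}

theorem exr_aeval_smul {ι S : Type} [CommRing S] [Algebra k S] {E : MvPolynomial ι k} {e : ℕ}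
    (hE : E.IsHomogeneous e) (s : S) (x : ι → S) :
    MvPolynomial.aeval (fun i => s * x i) E = s ^ e * MvPolynomial.aeval x E := by
  rw [MvPolynomial.aeval_def, MvPolynomial.aeval_def, MvPolynomial.eval₂_eq,
    MvPolynomial.eval₂_eq, Finset.mul_sum]
  refine Finset.sum_congr rfl fun m hm => ?_
  have h1 : ∑ i ∈ m.support, m i = e := by
    have := hE (MvPolynomial.mem_support_iff.1 hm)
    rw [Finsupp.weight_apply] at this
    simpa [Finsupp.sum] using this
  have h2 : ∏ i ∈ m.support, (s * x i) ^ m i = s ^ e * ∏ i ∈ m.support, x i ^ m i := by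
    simp only [mul_pow]
    rw [Finset.prod_mul_distrib, Finset.prod_pow_eq_pow_sum, h1]
  rw [h2]
  ring

theorem exr_onV_smul {V : Set (Fin (N + 1) → k)}
    (hom : ∀ E ∈ van V, ∀ e, MvPolynomial.homogeneousComponent e E ∈ van V)
    {S : Type} [CommRing S] [Algebra k S] {x : Fin (N + 1) → S} (hx : OnV V x) (s : S) :
    OnV V (fun i => s * x i) := by
  intro E hE
  rw [← MvPolynomial.sum_homogeneousComponent E, map_sum]
  refine Finset.sum_eq_zero fun e _ => ?_
  rw [exr_aeval_smul (MvPolynomial.homogeneousComponent_isHomogeneous e E), hx _ (hom E hE e),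
    mul_zero]

theorem exr_dif_sum {S J : Type} [CommRing S] [Algebra k S] (s : Finset J)
    (E : J → MvPolynomial (Fin (N + 1)) k) (x w : Fin (N + 1) → S) :
    dif (∑ e ∈ s, E e) x w = ∑ e ∈ s, dif (E e) x w := by
  unfold dif
  rw [Finset.sum_comm]
  refine Finset.sum_congr rfl fun i _ => ?_
  rw [map_sum, map_sum, Finset.sum_mul]

theorem exr_tang_smul {V : Set (Fin (N + 1) → k)}
    (hom : ∀ E ∈ van V, ∀ e, MvPolynomial.homogeneousComponent e E ∈ van V)
    {S : Type} [CommRing S] [Algebra k S] {x w : Fin (N + 1) → S} (hx : Tang V x w) (s t : S) :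
    Tang V (fun i => s * x i) (fun i => t * w i) := by
  intro E hE
  rw [← MvPolynomial.sum_homogeneousComponent E, exr_dif_sum]
  refine Finset.sum_eq_zero fun e _ => ?_
  have h1 : dif (MvPolynomial.homogeneousComponent e E) (fun i => s * x i) (fun i => t * w i) =
      s ^ (e - 1) * t * dif (MvPolynomial.homogeneousComponent e E) x w := by
    unfold dif
    rw [Finset.mul_sum]
    refine Finset.sum_congr rfl fun i _ => ?_
    rw [exr_aeval_smul (MvPolynomial.homogeneousComponent_isHomogeneous e E).pderiv]
    ring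
  rw [h1, hx _ (hom E hE e), mul_zero]

end Scale

section Clear

variable {k : Type} [Field k] {N n c : ℕ}
variable {O K : Type} [CommRing O] [IsDomain O] [Algebra k O] [Field K] [Algebra k K]
  [Algebra O K] [IsScalarTower k O K] [IsFractionRing O K]

omit [Algebra k O] [Algebra k K] [IsScalarTower k O K] in
theorem exr_clear_poly {J : Type} [Finite J] (f : J → K[X]) :
    ∃ s : O, s ≠ 0 ∧ ∃ f' : J → O[X], ∀ j, (f' j).map (algebraMap O K) =
      C (algebraMap O K s) * f j := by
  classical
  have := Fintype.ofFinite J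
  have h1 : ∀ j, ∃ b : O, b ≠ 0 ∧ ∃ g : O[X], g.map (algebraMap O K) =
      C (algebraMap O K b) * f j := by
    intro j
    obtain ⟨b, hbM, hb⟩ := IsLocalization.integerNormalization_spec (nonZeroDivisors O) (f j)
    refine ⟨b, nonZeroDivisors.ne_zero hbM,
      IsLocalization.integerNormalization (nonZeroDivisors O) (f j), ?_⟩
    rw [hb, Algebra.smul_def, Polynomial.algebraMap_apply]
  choose b hb g hg using h1
  refine ⟨∏ j, b j, Finset.prod_ne_zero_iff.2 fun j _ => hb j,
    fun j => C (∏ i ∈ Finset.univ.erase j, b i) * g j, fun j => ?_⟩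
  rw [Polynomial.map_mul, Polynomial.map_C, hg, ← mul_assoc, ← C_mul, ← map_mul,
    Finset.prod_erase_mul _ _ (Finset.mem_univ j)]

omit [IsDomain O] [IsFractionRing O K] in
theorem exr_map_aeval {ι : Type} (x : ι → O[X]) (E : MvPolynomial ι k) :
    (MvPolynomial.aeval x E).map (algebraMap O K) =
      MvPolynomial.aeval (fun i => (x i).map (algebraMap O K)) E := by
  have h1 : ∀ q : O[X], q.map (algebraMap O K) =
      Polynomial.mapAlgHom (IsScalarTower.toAlgHom k O K) q := fun _ => rfl
  rw [h1, MvPolynomial.comp_aeval_apply]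
  rfl

omit [IsDomain O] [IsFractionRing O K] in
theorem exr_map_dif (x w : Fin (N + 1) → O[X]) (E : MvPolynomial (Fin (N + 1)) k) :
    (dif E x w).map (algebraMap O K) =
      dif E (fun i => (x i).map (algebraMap O K)) (fun i => (w i).map (algebraMap O K)) := by
  unfold dif
  rw [Polynomial.map_sum]
  refine Finset.sum_congr rfl fun i _ => ?_
  rw [Polynomial.map_mul, exr_map_aeval]

/-- clearing the denominators of a solution -/
theorem exr_clear (D : VData k N n c) {d w : ℕ} (cm : Fin w → k) (vs : Fin w → Fin (N + 1) → k)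
    (y : Fin (N + 1) → k) (M : ℕ) (α : Fin (N + 1) → O) (l0 : Fin (N + 1) → k)
    (hα : lin l0 α = 1) (hS : Sol D d cm vs y M K (fun i => algebraMap O K (α i))) :
    ∃ (R' : Fin (N + 1) → O[X]) (ρ0 ρ1 : O) (g' : Fin n → Fin (N + 1) → O[X]),
      Curve D d R' ∧ Sec D d R' cm g' ∧ ρ0 ≠ 0 ∧ ρ1 ≠ 0 ∧
      (∀ i, (R' i).coeff 0 = ρ0 * algebraMap k _ (y i)) ∧
      (∀ i, (R' i).coeff d = ρ1 * α i) ∧
      ∀ l, Prop' (vs l) (fun i => (R' i).eval (algebraMap k _ (cm l))) := by
  classical
  obtain ⟨R1, hdeg, hon, hcert, h0, ⟨u, hu, hd⟩, hmk, g1, hg1⟩ := hS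
  have hinj : Function.Injective (algebraMap O K) := IsFractionRing.injective O K
  have hinjP : Function.Injective (Polynomial.map (algebraMap O K)) :=
    Polynomial.map_injective _ hinj
  have htow : ∀ a : k, algebraMap O K (algebraMap k O a) = algebraMap k K a := fun a =>
    (IsScalarTower.algebraMap_apply k O K a).symm
  -- clear the denominators of `R1`
  obtain ⟨s, hs, R', hR'⟩ := exr_clear_poly (O := O) R1
  have hsK : algebraMap O K s ≠ 0 := fun h => hs (hinj (by rw [h, map_zero]))
  -- the factors at the marks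
  choose a1 ha1 using hg1.mark
  -- clear the denominators of `g1` and `a1`
  obtain ⟨t, ht, G', hG'⟩ := exr_clear_poly (O := O)
    (J := (Fin n × Fin (N + 1)) ⊕ (Fin n × Fin w))
    (Sum.elim (fun p => g1 p.1 p.2) (fun p => C (a1 p.1 p.2)))
  have htK : algebraMap O K t ≠ 0 := fun h => ht (hinj (by rw [h, map_zero]))
  let g' : Fin n → Fin (N + 1) → O[X] := fun j i => C s * G' (Sum.inl (j, i))
  have hg' : ∀ j i, (g' j i).map (algebraMap O K) = C (algebraMap O K (s * t)) * g1 j i := by
    intro j i
    change (C s * G' (Sum.inl (j, i))).map (algebraMap O K) = _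
    rw [Polynomial.map_mul, Polynomial.map_C, hG', Sum.elim_inl, ← mul_assoc, ← C_mul,
      ← map_mul]
  have ha' : ∀ j l, ∃ a : O, algebraMap O K a = algebraMap O K t * a1 j l := by
    intro j l
    refine ⟨(G' (Sum.inr (j, l))).coeff 0, ?_⟩
    rw [← Polynomial.coeff_map, hG', Sum.elim_inr, ← C_mul, coeff_C_zero]
  -- coefficients and values
  have hco : ∀ i m, algebraMap O K ((R' i).coeff m) = algebraMap O K s * (R1 i).coeff m := by
    intro i m
    rw [← Polynomial.coeff_map, hR', coeff_C_mul]
  have hcog : ∀ j i m, algebraMap O K ((g' j i).coeff m) =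
      algebraMap O K (s * t) * (g1 j i).coeff m := by
    intro j i m
    rw [← Polynomial.coeff_map, hg', coeff_C_mul]
  have hev : ∀ (p : O[X]) (a : k), algebraMap O K (p.eval (algebraMap k O a)) =
      (p.map (algebraMap O K)).eval (algebraMap k K a) := by
    intro p a
    rw [← htow a, eval_map_apply]
  have hevR : ∀ i a, algebraMap O K ((R' i).eval (algebraMap k O a)) =
      algebraMap O K s * (R1 i).eval (algebraMap k K a) := by
    intro i a
    rw [hev, hR', eval_mul, eval_C]
  have hevg : ∀ j i a, algebraMap O K ((g' j i).eval (algebraMap k O a)) =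
      algebraMap O K (s * t) * (g1 j i).eval (algebraMap k K a) := by
    intro j i a
    rw [hev, hg', eval_mul, eval_C]
  have hmapR : (fun i => (R' i).map (algebraMap O K)) = fun i => C (algebraMap O K s) * R1 i :=
    funext hR'
  have hon' : OnV D.V R' := by
    intro E hE
    apply hinjP
    rw [exr_map_aeval, Polynomial.map_zero, hmapR]
    exact exr_onV_smul D.hom hon _ E hE
  have hdeg' : ∀ i, (R' i).natDegree ≤ d := by
    intro i
    rw [← Polynomial.natDegree_map_eq_of_injective hinj, hR']
    exact (natDegree_C_mul_le _ _).trans (hdeg i)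
  have hρ : ∀ i, (R' i).coeff d = lin l0 (fun i => (R' i).coeff d) * α i := by
    intro i
    apply hinj
    have h1 : algebraMap O K (lin l0 (fun i => (R' i).coeff d)) = algebraMap O K s * u := by
      have h2 : algebraMap O K (lin l0 α) = 1 := by rw [hα, map_one]
      unfold lin at h2 ⊢
      rw [map_sum] at h2 ⊢
      calc ∑ i, algebraMap O K (algebraMap k O (l0 i) * (R' i).coeff d)
          = ∑ i, algebraMap O K s * u * algebraMap O K (algebraMap k O (l0 i) * α i) := by
            refine Finset.sum_congr rfl fun i _ => ?_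
            rw [map_mul, map_mul, hco, hd]
            ring
        _ = algebraMap O K s * u * 1 := by rw [← Finset.mul_sum, h2]
        _ = _ := mul_one _
    rw [map_mul, h1, hco, hd]
    ring
  have hρK : algebraMap O K (lin l0 (fun i => (R' i).coeff d)) = algebraMap O K s * u := by
    have h2 : algebraMap O K (lin l0 α) = 1 := by rw [hα, map_one]
    unfold lin at h2 ⊢
    rw [map_sum] at h2 ⊢
    calc ∑ i, algebraMap O K (algebraMap k O (l0 i) * (R' i).coeff d)
        = ∑ i, algebraMap O K s * u * algebraMap O K (algebraMap k O (l0 i) * α i) := by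
          refine Finset.sum_congr rfl fun i _ => ?_
          rw [map_mul, map_mul, hco, hd]
          ring
      _ = algebraMap O K s * u * 1 := by rw [← Finset.mul_sum, h2]
      _ = _ := mul_one _
  refine ⟨R', s, lin l0 (fun i => (R' i).coeff d), g', ⟨hdeg', hon', ?_⟩, ⟨?_, ?_, ?_, ?_⟩,
    hs, ?_, ?_, hρ, ?_⟩
  · -- the certificate
    choose! A hA1 hA2 using hcert
    obtain ⟨μ, hμ, B, hB⟩ := exr_clear_poly (O := O) (J := Fin (M + 1) × Fin D.t)
      (fun p => C ((algebraMap O K s ^ D.h p.2)⁻¹) * A p.1 p.2)
    refine ⟨μ, hμ, M, fun i hi => ?_⟩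
    let p : Fin (M + 1) := ⟨i, Nat.lt_succ_of_le hi⟩
    refine ⟨fun l => B (p, l), fun l hl => ?_, ?_⟩
    · have h1 : (B (p, l)).natDegree = (A i l).natDegree := by
        rw [← Polynomial.natDegree_map_eq_of_injective hinj, hB, ← mul_assoc, ← C_mul]
        refine natDegree_C_mul ?_
        exact mul_ne_zero (fun h => hμ (hinj (by rw [h, map_zero])))
          (inv_ne_zero (pow_ne_zero _ hsK))
      have h2 : A i l ≠ 0 := by
        intro h
        apply hl
        apply hinjP
        rw [hB, Polynomial.map_zero]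
        change C (algebraMap O K μ) * (C ((algebraMap O K s ^ D.h l)⁻¹) * A i l) = 0
        rw [h, mul_zero, mul_zero]
      rw [h1]
      exact hA1 i hi l h2
    · apply hinjP
      rw [Polynomial.map_sum, Polynomial.map_mul, Polynomial.map_C, Polynomial.map_pow,
        Polynomial.map_X]
      have h3 := hA2 i hi
      rw [C_1, one_mul] at h3
      rw [← h3, Finset.mul_sum]
      refine Finset.sum_congr rfl fun l _ => ?_
      rw [Polynomial.map_mul, exr_map_aeval, hmapR, exr_aeval_smul (D.homH l), hB]
      have h4 : (C ((algebraMap O K s ^ D.h l)⁻¹) : K[X]) * C (algebraMap O K s) ^ D.h l = 1 := by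
        rw [← C_pow, ← C_mul, inv_mul_cancel₀ (pow_ne_zero _ hsK), C_1]
      calc C (algebraMap O K μ) * (C ((algebraMap O K s ^ D.h l)⁻¹) * A i l) *
            (C (algebraMap O K s) ^ D.h l * MvPolynomial.aeval R1 (D.H l))
          = C (algebraMap O K μ) * (C ((algebraMap O K s ^ D.h l)⁻¹) *
              C (algebraMap O K s) ^ D.h l) * (A i l * MvPolynomial.aeval R1 (D.H l)) := by ring
        _ = _ := by rw [h4, mul_one]
  · -- degrees of the sections
    intro j i
    rw [← Polynomial.natDegree_map_eq_of_injective hinj, hg']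
    exact (natDegree_C_mul_le _ _).trans_lt (hg1.deg j i)
  · -- tangency
    intro j E hE
    apply hinjP
    have h1 : (fun i => (g' j i).map (algebraMap O K)) =
        fun i => C (algebraMap O K (s * t)) * g1 j i := funext (hg' j)
    rw [exr_map_dif, Polynomial.map_zero, hmapR, h1]
    exact exr_tang_smul D.hom (hg1.tan j) _ _ E hE
  · -- values at the marks
    intro j l
    obtain ⟨a, ha⟩ := ha' j l
    refine ⟨a, fun i => hinj ?_⟩
    rw [map_mul, hevg, hevR, ha, ha1, map_mul]
    ring
  · -- independence
    rw [Fintype.linearIndependent_iff]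
    intro x hx
    have h1 := Fintype.linearIndependent_iff.1 hg1.ind
      (Fin.cons (algebraMap O K (x 0) * algebraMap O K s)
        (fun j => algebraMap O K (x j.succ) * algebraMap O K (s * t)) : Fin (n + 1) → K) (by
        rw [Fin.sum_univ_succ] at hx ⊢
        funext i
        have h2 := congrArg (algebraMap O K) (congrFun hx i)
        simp only [Fin.cons_zero, Fin.cons_succ, Pi.add_apply, Pi.smul_apply, smul_eq_mul,
          Finset.sum_apply, Pi.zero_apply, map_add, map_mul, map_sum, map_zero] at h2 ⊢
        simp only [hco, hcog, map_mul] at h2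
        rw [← h2]
        congr 1
        · ring
        · exact Finset.sum_congr rfl fun j _ => by ring)
    intro j
    refine Fin.cases ?_ (fun j => ?_) j
    · have h2 := h1 0
      rw [Fin.cons_zero] at h2
      exact hinj (by rw [map_zero]; exact (mul_eq_zero.1 h2).resolve_right hsK)
    · have h2 := h1 j.succ
      rw [Fin.cons_succ] at h2
      refine hinj ?_
      rw [map_zero]
      refine (mul_eq_zero.1 h2).resolve_right ?_
      rw [map_mul]
      exact mul_ne_zero hsK htK
  · intro h
    apply mul_ne_zero hsK hu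
    rw [← hρK, h, map_zero]
  · intro i
    apply hinj
    rw [hco, h0, map_mul, htow]
  · intro l i j
    apply hinj
    rw [map_mul, map_mul, hevR, hevR, htow, htow]
    have h1 := hmk l i j
    change (R1 i).eval _ * _ = (R1 j).eval _ * _ at h1
    rw [mul_assoc, h1, mul_assoc]

end Clear

end Pool.Agent.VFF
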