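import Pool.Agent.Lib_MP_1858fb_f.FDEq

/-! # MP_1858fb_ag, line F, piece F-FD: base change to a field -/

namespace Pool.Agent.VFF

open Pool.Agent.VF Polynomial

section base

variable {k : Type} [Field k] {N n c : ℕ}

theorem fdMap_dif {A B : Type} [CommRing A] [Algebra k A] [CommRing B] [Algebra k B]
    (φ : A →+* B) (hφ : ∀ c : k, φ (algebraMap k A c) = algebraMap k B c)
    (E : MvPolynomial (Fin (N + 1)) k) (x v : Fin (N + 1) → A) :
    φ (dif E x v) = dif E (fun i => φ (x i)) (fun i => φ (v i)) := by
  simp only [dif, map_sum, map_mul]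
  refine Finset.sum_congr rfl fun j _ => ?_
  congr 1
  rw [MvPolynomial.aeval_def, MvPolynomial.aeval_def, MvPolynomial.hom_eval₂]
  congr 1
  ext c : 1
  exact hφ c

theorem fdMap_aeval' {A B : Type} [CommRing A] [Algebra k A] [CommRing B] [Algebra k B]
    (φ : A →+* B) (hφ : ∀ c : k, φ (algebraMap k A c) = algebraMap k B c)
    (E : MvPolynomial (Fin (N + 1)) k) (x : Fin (N + 1) → A) :
    φ (MvPolynomial.aeval x E) = MvPolynomial.aeval (fun i => φ (x i)) E := by
  rw [MvPolynomial.aeval_def, MvPolynomial.aeval_def, MvPolynomial.hom_eval₂]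
  congr 1
  ext c : 1
  exact hφ c

theorem fd_mapRingHom_algebraMap {A B : Type} [CommRing A] [Algebra k A] [CommRing B]
    [Algebra k B] (φ : A →+* B) (hφ : ∀ c : k, φ (algebraMap k A c) = algebraMap k B c) (c : k) :
    mapRingHom φ (algebraMap k A[X] c) = algebraMap k B[X] c := by
  rw [Polynomial.algebraMap_apply, Polynomial.algebraMap_apply, coe_mapRingHom, map_C, hφ]

variable (D : VData k N n c) {O K : Type} [CommRing O] [Algebra k O] [Field K] [Algebra k K]
  (φ : O →+* K) (hφ : ∀ c : k, φ (algebraMap k O c) = algebraMap k K c)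
  (hinj : Function.Injective φ)

include hφ in
theorem fdOnV_map {x : Fin (N + 1) → O[X]} (h : OnV D.V x) :
    OnV D.V (fun i => (x i).map φ) := by
  intro E hE
  rw [← fdMap_aeval φ hφ, h E hE, Polynomial.map_zero]

include hφ hinj in
theorem fdCurve_map {d : ℕ} {R : Fin (N + 1) → O[X]} (hR : Curve D d R) :
    Curve D d (fun i => (R i).map φ) := by
  obtain ⟨μ, hμ, M, hM⟩ := hR.cert
  refine ⟨fun i => natDegree_map_le.trans (hR.deg i), fdOnV_map D φ hφ hR.onV, φ μ,
    fun h => hμ (hinj (h.trans (map_zero φ).symm)), M, fun i hi => ?_⟩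
  obtain ⟨A, hA1, hA2⟩ := hM i hi
  refine ⟨fun l => (A l).map φ, fun l hl => ?_, ?_⟩
  · have h1 : A l ≠ 0 := fun h => hl (by simp [h])
    have h2 := hA1 l h1
    have h3 : ((A l).map φ).natDegree ≤ (A l).natDegree := natDegree_map_le
    exact (Nat.add_le_add_right h3 _).trans h2
  · have h1 := congrArg (Polynomial.map φ) hA2
    rw [Polynomial.map_sum, Polynomial.map_mul, map_C, Polynomial.map_pow, map_X] at h1
    rw [← h1]
    refine Finset.sum_congr rfl fun l _ => ?_
    rw [Polynomial.map_mul, fdMap_aeval φ hφ]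

/-- a curve over a field has no common zero -/
theorem fd_eval_ne_zero {d : ℕ} {R : Fin (N + 1) → K[X]} (hR : Curve D d R) (t : K) :
    ∃ i, (R i).eval t ≠ 0 := by
  obtain ⟨μ, hμ, M, hM⟩ := hR.cert
  obtain ⟨A, hA1, hA2⟩ := hM 0 (Nat.zero_le _)
  by_contra hcon
  push Not at hcon
  have h1 := congrArg (Polynomial.eval t) hA2
  rw [eval_finsetSum, pow_zero, mul_one, eval_C] at h1
  refine hμ ?_
  rw [← h1]
  refine Finset.sum_eq_zero fun l _ => ?_
  have h2 : (MvPolynomial.aeval R (D.H l)).eval t =
      MvPolynomial.aeval (fun i => (R i).eval t) (D.H l) := by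
    exact fdMap_aeval' (k := k) (evalRingHom t)
      (fun c => by rw [Polynomial.algebraMap_apply]; simp) (D.H l) R
  have h3 : MvPolynomial.aeval (fun i => (R i).eval t) (D.H l) = 0 := by
    have h4 : (fun i => (R i).eval t) = (0 : Fin (N + 1) → K) := by
      funext i; exact hcon i
    rw [h4]
    rw [MvPolynomial.aeval_zero, MvPolynomial.constantCoeff_eq]
    have h6 : MvPolynomial.coeff 0 (D.H l) = 0 := by
      by_contra h7
      have h8 := D.homH l h7
      have h9 := D.hpos l
      simp at h8
      omega
    rw [h6, map_zero]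
  rw [eval_mul, h2, h3, mul_zero]

theorem fd_vs_ne {v : Fin (N + 1) → k} (hv : v ∈ D.V) : ∃ i, v i ≠ 0 := by
  obtain ⟨-, l, hl⟩ := (D.mem_iff v).1 hv
  by_contra hcon
  push Not at hcon
  apply hl
  have h4 : v = (0 : Fin (N + 1) → k) := by
    funext i; exact hcon i
  rw [h4, MvPolynomial.aeval_zero, MvPolynomial.constantCoeff_eq]
  have h6 : MvPolynomial.coeff 0 (D.H l) = 0 := by
    by_contra h7
    have h8 := D.homH l h7
    have h9 := D.hpos l
    simp at h8
    omega
  rw [h6, map_zero]

include hφ in
theorem fdFrame_map {V : Set (Fin (N + 1) → k)} {l : Fin (n + 1) → Fin (N + 1) → k}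
    {E : Fin c → MvPolynomial (Fin (N + 1)) k} {x : Fin (N + 1) → O} {μ : O}
    (h : Frame V l E x μ) : Frame V l E (fun i => φ (x i)) (φ μ) := by
  obtain ⟨h1, B, hB⟩ := h
  refine ⟨h1, fun i a => φ (B i a), fun i j => ?_⟩
  have h2 := congrArg φ (hB i j)
  rw [map_sum] at h2
  have h3 : φ (if i = j then μ else 0) = if i = j then φ μ else 0 := by
    split_ifs <;> simp
  rw [h3] at h2
  rw [← h2]
  refine Finset.sum_congr rfl fun a _ => ?_
  rw [map_mul]
  congr 1
  rcases a with a | b
  · exact (hφ _).symm
  · simp only [row, Sum.elim_inr]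
    exact (fdMap_aeval' φ hφ _ _).symm

end base

section lin

/-- linear independence over a domain and over the algebraic closure of its fraction field -/
theorem fd_linInd {O : Type} [CommRing O] [IsDomain O] {ι : Type} [Fintype ι] {N : ℕ}
    {v : ι → Fin (N + 1) → O} (hv : LinearIndependent O v) :
    LinearIndependent (AlgebraicClosure (FractionRing O))
      (fun j i => algebraMap O (AlgebraicClosure (FractionRing O)) (v j i)) := by
  classical
  rw [Fintype.linearIndependent_iff]
  intro g hg j0
  by_contra hne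
  have h1 := (Module.forall_dual_apply_eq_zero_iff (FractionRing O) (g j0)).not.2 hne
  push Not at h1
  obtain ⟨f, hf⟩ := h1
  have h2 : ∀ i, ∑ j, f (g j) * algebraMap O (FractionRing O) (v j i) = 0 := by
    intro i
    have h3 := congrFun hg i
    rw [Finset.sum_apply] at h3
    simp only [Pi.smul_apply, smul_eq_mul, Pi.zero_apply] at h3
    have h4 := congrArg f h3
    rw [map_sum, map_zero] at h4
    rw [← h4]
    refine Finset.sum_congr rfl fun j _ => ?_
    have h5 : g j * algebraMap O (AlgebraicClosure (FractionRing O)) (v j i) =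
        algebraMap O (FractionRing O) (v j i) • g j := by
      rw [Algebra.smul_def, ← IsScalarTower.algebraMap_apply, mul_comm]
    rw [h5, map_smul, smul_eq_mul, mul_comm]
  obtain ⟨b, hb⟩ := IsLocalization.exist_integer_multiples (nonZeroDivisors O) Finset.univ
    (fun j => f (g j))
  have h6 : ∀ j, ∃ a : O, algebraMap O (FractionRing O) a =
      algebraMap O (FractionRing O) b * f (g j) := by
    intro j
    obtain ⟨a, ha⟩ := hb j (Finset.mem_univ _)
    exact ⟨a, by rw [ha, Algebra.smul_def]⟩
  choose a ha using h6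
  have hinj := IsFractionRing.injective O (FractionRing O)
  have h7 : ∑ j, a j • v j = 0 := by
    funext i
    rw [Finset.sum_apply]
    simp only [Pi.smul_apply, smul_eq_mul, Pi.zero_apply]
    apply hinj
    rw [map_sum, map_zero]
    simp only [map_mul, ha]
    have : ∑ j, algebraMap O (FractionRing O) b * f (g j) * algebraMap O (FractionRing O) (v j i) =
        algebraMap O (FractionRing O) b *
          ∑ j, f (g j) * algebraMap O (FractionRing O) (v j i) := by
      rw [Finset.mul_sum]
      exact Finset.sum_congr rfl fun j _ => by ring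
    rw [this, h2, mul_zero]
  have h8 := Fintype.linearIndependent_iff.1 hv a h7 j0
  have h9 := ha j0
  rw [h8, map_zero] at h9
  rcases mul_eq_zero.1 h9.symm with h10 | h10
  · have h11 : (b : O) = 0 := hinj (h10.trans (map_zero _).symm)
    exact nonZeroDivisors.ne_zero b.2 h11
  · exact hf h10

theorem fdSec_map {k : Type} [Field k] {N n c : ℕ} (D : VData k N n c) {O : Type} [CommRing O]
    [IsDomain O] [Algebra k O] {d w : ℕ} {R : Fin (N + 1) → O[X]} {cm : Fin w → k}
    {g : Fin n → Fin (N + 1) → O[X]} (hg : Sec D d R cm g) :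
    Sec D d (fun i => (R i).map (algebraMap O (AlgebraicClosure (FractionRing O)))) cm
      (fun j i => (g j i).map (algebraMap O (AlgebraicClosure (FractionRing O)))) := by
  have hφ : ∀ c : k, algebraMap O (AlgebraicClosure (FractionRing O)) (algebraMap k O c) =
      algebraMap k (AlgebraicClosure (FractionRing O)) c := fun c =>
    (IsScalarTower.algebraMap_apply _ _ _ _).symm
  refine ⟨fun j i => lt_of_le_of_lt natDegree_map_le (hg.deg j i), fun j => ?_, fun j l => ?_, ?_⟩
  · intro E hE
    have h1 := fdMap_dif (mapRingHom (algebraMap O (AlgebraicClosure (FractionRing O))))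
      (fd_mapRingHom_algebraMap (k := k) _ hφ) E R (g j)
    rw [hg.tan j E hE, map_zero] at h1
    exact h1.symm
  · obtain ⟨a, ha⟩ := hg.mark j l
    refine ⟨algebraMap O _ a, fun i => ?_⟩
    have h1 : ∀ q : O[X], (q.map (algebraMap O (AlgebraicClosure (FractionRing O)))).eval
        (algebraMap k (AlgebraicClosure (FractionRing O)) (cm l)) =
        algebraMap O (AlgebraicClosure (FractionRing O)) (q.eval (algebraMap k O (cm l))) := by
      intro q
      rw [eval_map, ← hφ, ← eval₂_hom]
    rw [h1, h1, ha i, map_mul]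
  · have h1 := fd_linInd hg.ind
    have h2 : (Fin.cons (fun i => ((R i).map
        (algebraMap O (AlgebraicClosure (FractionRing O)))).coeff d)
        (fun j i => ((g j i).map
          (algebraMap O (AlgebraicClosure (FractionRing O)))).coeff (d - 1)) :
          Fin (n + 1) → Fin (N + 1) → AlgebraicClosure (FractionRing O)) =
        fun j i => algebraMap O (AlgebraicClosure (FractionRing O))
          ((Fin.cons (fun i => (R i).coeff d) (fun j i => (g j i).coeff (d - 1)) :
            Fin (n + 1) → Fin (N + 1) → O) j i) := by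
      funext j
      refine Fin.cases ?_ (fun j => ?_) j
      · funext i
        simp
      · funext i
        simp
    rw [h2]
    exact h1

end lin

end Pool.Agent.VFF
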