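import Pool.Agent.Lib_MP_1858fb_f.FDefs
import Pool.Agent.Lib_MP_1858fb_w.ObsM

/-!
# Smoothness of `V` at the points with coordinates in an extension field, Euler's formula
-/

set_option linter.unusedSectionVars false

namespace Pool.Agent.VFF

open Pool.Agent.VF

section

variable {k : Type} [Field k] {N n c : ℕ}

/-- A matrix with independent rows has a right inverse. -/
lemma exists_right_inv {K : Type} [Field K] {r M : ℕ} (A : Fin r → Fin M → K)
    (h : LinearIndependent K A) :
    ∃ B : Fin M → Fin r → K, ∀ j j', ∑ i, A j i * B i j' = if j = j' then 1 else 0 := by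
  classical
  obtain ⟨g, hg⟩ := LinearMap.exists_leftInverse_of_injective
    (Fintype.linearCombination K A) (LinearMap.ker_eq_bot.mpr h.fintypeLinearCombination_injective)
  refine ⟨fun i j => g (Pi.single i 1) j, fun j j' => ?_⟩
  have h1 := congrArg (fun f : Fin r → K => f j') (LinearMap.congr_fun hg (Pi.single j 1))
  simp only [LinearMap.comp_apply, LinearMap.id_apply, Fintype.linearCombination_apply] at h1
  have h2 : (∑ x, (Pi.single j (1 : K) : Fin r → K) x • A x) =
      ∑ i, A j i • (Pi.single i (1 : K) : Fin M → K) := by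
    ext l
    rw [Finset.sum_apply, Finset.sum_apply]
    simp [Pi.single_apply]
  rw [h2, map_sum] at h1
  simp only [map_smul, Finset.sum_apply, Pi.smul_apply, smul_eq_mul, Pi.single_apply] at h1
  rw [h1]
  simp only [eq_comm]

/-- A matrix whose product with some matrix has nonzero determinant has independent rows. -/
lemma indep_of_det {K : Type} [Field K] {r M : ℕ} (A : Fin r → Fin M → K)
    (B : Fin M → Fin r → K)
    (h : (Matrix.of fun j j' => ∑ i, A j i * B i j').det ≠ 0) : LinearIndependent K A := by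
  classical
  rw [Fintype.linearIndependent_iff]
  intro g hg
  have h1 : Matrix.vecMul g (Matrix.of fun j j' => ∑ i, A j i * B i j') = 0 := by
    ext j'
    rw [Matrix.vecMul, dotProduct, Pi.zero_apply]
    simp only [Matrix.of_apply, Finset.mul_sum]
    rw [Finset.sum_comm]
    refine Finset.sum_eq_zero fun i _ => ?_
    have h2 := congrFun hg i
    rw [Finset.sum_apply, Pi.zero_apply] at h2
    simp only [Pi.smul_apply, smul_eq_mul] at h2
    calc ∑ j, g j * (A j i * B i j') = (∑ j, g j * A j i) * B i j' := by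
          rw [Finset.sum_mul]
          exact Finset.sum_congr rfl fun j _ => by ring
      _ = 0 := by rw [h2, zero_mul]
  have h3 := Matrix.eq_zero_of_vecMul_eq_zero h h1
  exact fun i => congrFun h3 i

/-- `V` is smooth at every point with coordinates in an extension field. -/
theorem smooth_ext [IsAlgClosed k] (D : VData k N n c) {K : Type} [Field K] [Algebra k K]
    (x : Fin (N + 1) → K) (hx : OnV D.V x) (hH : ∃ l, MvPolynomial.aeval x (D.H l) ≠ 0) :
    ∃ (E : Fin c → MvPolynomial (Fin (N + 1)) k) (G : MvPolynomial (Fin (N + 1)) k),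
      (∀ j, E j ∈ van D.V) ∧
      LinearIndependent K (fun j i => MvPolynomial.aeval x (MvPolynomial.pderiv i (E j))) ∧
      MvPolynomial.aeval x G ≠ 0 ∧ ∀ P ∈ van D.V, G * P ∈ Ideal.span (Set.range E) := by
  classical
  have h1 : ∀ v : D.V, ∃ (E : Fin c → MvPolynomial (Fin (N + 1)) k)
      (H : MvPolynomial (Fin (N + 1)) k) (B : Fin (N + 1) → Fin c → k),
      (∀ j, E j ∈ van D.V) ∧ MvPolynomial.aeval (v : Fin (N + 1) → k) H ≠ 0 ∧
      (∀ P ∈ van D.V, H * P ∈ Ideal.span (Set.range E)) ∧
      MvPolynomial.aeval (v : Fin (N + 1) → k) (Matrix.of fun j j' =>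
        ∑ i, MvPolynomial.pderiv i (E j) * MvPolynomial.C (B i j')).det ≠ 0 := by
    rintro ⟨v, hv⟩
    obtain ⟨E, H, hE, hli, hHv, hgen⟩ := D.smooth v hv
    obtain ⟨B, hB⟩ := exists_right_inv _ hli
    refine ⟨E, H, B, hE, hHv, hgen, ?_⟩
    have h2 : (MvPolynomial.aeval v) (Matrix.of fun j j' =>
        ∑ i, MvPolynomial.pderiv i (E j) * MvPolynomial.C (B i j')).det = 1 := by
      rw [AlgHom.map_det]
      have h3 : (MvPolynomial.aeval v : _ →ₐ[k] k).mapMatrix (Matrix.of fun j j' =>
          ∑ i, MvPolynomial.pderiv i (E j) * MvPolynomial.C (B i j')) = 1 := by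
        ext j j'
        rw [AlgHom.mapMatrix_apply, Matrix.map_apply, Matrix.of_apply, map_sum, Matrix.one_apply]
        rw [← hB j j']
        exact Finset.sum_congr rfl fun i _ => by
          rw [map_mul, MvPolynomial.aeval_C, Algebra.algebraMap_self, RingHom.id_apply]
      rw [h3, Matrix.det_one]
    rw [h2]
    exact one_ne_zero
  choose E H B hE hHv hgen hdet using h1
  set M : D.V → MvPolynomial (Fin (N + 1)) k := fun v => (Matrix.of fun j j' =>
        ∑ i, MvPolynomial.pderiv i (E v j) * MvPolynomial.C (B v i j')).det with hM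
  set J : Ideal (MvPolynomial (Fin (N + 1)) k) :=
    van D.V ⊔ Ideal.span (Set.range fun v : D.V => H v * M v) with hJ
  obtain ⟨l, hl⟩ := hH
  have hrad : D.H l ∈ J.radical := by
    rw [← MvPolynomial.vanishingIdeal_zeroLocus_eq_radical (K := k),
      MvPolynomial.mem_vanishingIdeal_iff]
    intro y hy
    rw [MvPolynomial.mem_zeroLocus_iff] at hy
    by_contra hne
    have hyV : y ∈ D.V := (D.mem_iff y).mpr
      ⟨fun P hP => hy P (Ideal.mem_sup_left hP), l, hne⟩
    have h2 := hy (H ⟨y, hyV⟩ * M ⟨y, hyV⟩)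
      (Ideal.mem_sup_right (Ideal.subset_span ⟨⟨y, hyV⟩, rfl⟩))
    rw [map_mul] at h2
    exact (mul_ne_zero (hHv ⟨y, hyV⟩) (hdet ⟨y, hyV⟩)) h2
  obtain ⟨m, hm⟩ := hrad
  have h3 : ∃ v : D.V, MvPolynomial.aeval x (H v * M v) ≠ 0 := by
    by_contra hcon
    push Not at hcon
    have h4 : J ≤ RingHom.ker (MvPolynomial.aeval x : MvPolynomial (Fin (N + 1)) k →ₐ[k] K) := by
      rw [hJ]
      refine sup_le (fun P hP => hx P hP) (Ideal.span_le.mpr ?_)
      rintro _ ⟨v, rfl⟩
      exact hcon v
    have h5 := h4 hm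
    rw [RingHom.mem_ker, map_pow] at h5
    exact pow_ne_zero m hl h5
  obtain ⟨v, hv⟩ := h3
  rw [map_mul] at hv
  refine ⟨E v, H v, hE v, ?_, left_ne_zero_of_mul hv, hgen v⟩
  apply indep_of_det _ (fun i j => algebraMap k K (B v i j))
  have h6 := right_ne_zero_of_mul hv
  rw [hM] at h6
  simp only at h6
  rw [AlgHom.map_det] at h6
  convert h6 using 2
  ext j j'
  rw [AlgHom.mapMatrix_apply, Matrix.map_apply, Matrix.of_apply, Matrix.of_apply, map_sum]
  exact Finset.sum_congr rfl fun i _ => by rw [map_mul, MvPolynomial.aeval_C]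

/-- Euler's formula: the point itself is a tangent vector. -/
theorem tang_self' (D : VData k N n c) {A : Type} [CommRing A] [Algebra k A]
    {x : Fin (N + 1) → A} (hx : OnV D.V x) : Tang D.V x x := by
  intro E hE
  have hadd : ∀ s : Finset ℕ, dif (∑ e ∈ s, MvPolynomial.homogeneousComponent e E) x x =
      ∑ e ∈ s, dif (MvPolynomial.homogeneousComponent e E) x x := by
    intro s
    simp only [dif, map_sum, Finset.sum_mul]
    rw [Finset.sum_comm]
  rw [← MvPolynomial.sum_homogeneousComponent E, hadd]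
  refine Finset.sum_eq_zero fun e _ => ?_
  have h1 := (MvPolynomial.homogeneousComponent_isHomogeneous e E).sum_X_mul_pderiv
  have h2 := congrArg (MvPolynomial.aeval x) h1
  rw [map_sum, map_nsmul, hx _ (D.hom E hE e), smul_zero] at h2
  rw [dif, ← h2]
  exact Finset.sum_congr rfl fun i _ => by rw [map_mul, MvPolynomial.aeval_X, mul_comm]

end

end Pool.Agent.VFF
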