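import Pool.Agent.Lib_MP_1858fb_f.GG
import Pool.Agent.Lib_MP_1858fb_f.FSmooth
import Pool.Agent.Lib_MP_1858fb_w.ChartC
import Pool.Agent.Lib_MP_1858fb_w.FamFormal

/-!
# MP_1858fb_ag, line F: sections with prescribed ends (`fd_corr`)

`K` is an algebraically closed extension field of `k`, `R` a curve of degree `≤ d` on `V` over
`K`, with the value `y` at `X = 0` and `α` at infinity. There is a section of degree `≤ d` along
`R`, in the line of `R` at the marks, with prescribed frame coordinates at `X = 0` and prescribed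
frame coordinates modulo `α` at infinity.
-/

set_option autoImplicit false

namespace Pool.Agent.VFF

open Pool.Agent.VF Polynomial

section

variable {k : Type} [Field k] {N n c : ℕ}

/-- It is enough to test tangency on forms. -/
lemma fdc_tang_of_forms (D : VData k N n c) {A : Type} [CommRing A] [Algebra k A]
    {x w : Fin (N + 1) → A}
    (h : ∀ E ∈ van D.V, ∀ e, E.IsHomogeneous e → dif E x w = 0) : Tang D.V x w := by
  intro E hE
  have h1 : dif E x w = ∑ e ∈ Finset.range (E.totalDegree + 1),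
      dif (MvPolynomial.homogeneousComponent e E) x w := by
    conv_lhs => rw [← MvPolynomial.sum_homogeneousComponent E]
    simp only [dif, map_sum, Finset.sum_mul]
    rw [Finset.sum_comm]
  rw [h1]
  exact Finset.sum_eq_zero fun e _ => h _ (D.hom E hE e) e
    (MvPolynomial.homogeneousComponent_isHomogeneous e E)

/-- Tangency at `ρ x` is tangency at `x`. -/
lemma fdc_tang_scale (D : VData k N n c) {K : Type} [Field K] [Algebra k K] {ρ : K} (hρ : ρ ≠ 0)
    {x w : Fin (N + 1) → K} (h : Tang D.V (fun i => ρ * x i) w) : Tang D.V x w := by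
  refine fdc_tang_of_forms D fun E hE e he => ?_
  have h1 := h E hE
  have h2 : dif E (fun i => ρ * x i) w = ρ ^ (e - 1) * dif E x w := by
    rw [dif, dif, Finset.mul_sum]
    exact Finset.sum_congr rfl fun j _ => by rw [aeval_mul_hom he.pderiv, mul_assoc]
  rw [h2] at h1
  exact (mul_eq_zero.mp h1).resolve_left (pow_ne_zero _ hρ)

/-- the value at `X = 0` of a polynomial along a curve -/
lemma fdc_aeval_coeff_zero {A : Type} [CommRing A] [Algebra k A] (R : Fin (N + 1) → A[X])
    (P : MvPolynomial (Fin (N + 1)) k) :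
    (MvPolynomial.aeval R P).coeff 0 = MvPolynomial.aeval (fun i => (R i).coeff 0) P := by
  have h := MvPolynomial.comp_aeval_apply (f := R)
    ((Polynomial.aeval (R := A) (0 : A)).restrictScalars k) P
  simp only [AlgHom.coe_restrictScalars', ← Polynomial.coeff_zero_eq_aeval_zero] at h
  exact h

/-- Tangency at `X = 0` -/
lemma fdc_tang_zero {A : Type} [CommRing A] [Algebra k A] (V : Set (Fin (N + 1) → k))
    {R σ : Fin (N + 1) → A[X]} (h : Tang V R σ) :
    Tang V (fun i => (R i).coeff 0) (fun i => (σ i).coeff 0) := by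
  intro E hE
  have h1 := congrArg (fun f : A[X] => f.coeff 0) (h E hE)
  simp only [dif, Polynomial.finsetSum_coeff, Polynomial.mul_coeff_zero,
    Polynomial.coeff_zero] at h1
  rw [dif, ← h1]
  exact Finset.sum_congr rfl fun j _ => by rw [fdc_aeval_coeff_zero]

/-- Tangency at infinity -/
lemma fdc_tang_inf (D : VData k N n c) {A : Type} [CommRing A] [Algebra k A] {d m : ℕ}
    {R σ : Fin (N + 1) → A[X]} (hR : ∀ i, (R i).natDegree ≤ d) (hσ : ∀ i, (σ i).natDegree ≤ m)
    (h : Tang D.V R σ) :
    Tang D.V (fun i => (R i).coeff d) (fun i => (σ i).coeff m) := by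
  refine fdc_tang_of_forms D fun E hE e he => ?_
  have h1 := congrArg (fun f : A[X] => f.coeff ((e - 1) * d + m)) (h E hE)
  simp only [dif, Polynomial.finsetSum_coeff, Polynomial.coeff_zero] at h1
  rw [dif, ← h1]
  refine Finset.sum_congr rfl fun j _ => ?_
  have h2 := deg_aeval_homogeneous R hR (he.pderiv (i := j))
  rw [Polynomial.coeff_mul_add_eq_of_natDegree_le h2.1 (hσ j), h2.2]

/-- A tangent vector whose frame coordinates vanish is zero. -/
lemma fdc_frame_inj {K : Type} [Field K] [Algebra k K] {V : Set (Fin (N + 1) → k)}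
    {l : Fin (n + 1) → Fin (N + 1) → k} {E : Fin c → MvPolynomial (Fin (N + 1)) k}
    {x : Fin (N + 1) → K} {μ : K} (hμ : μ ≠ 0) (hf : Frame V l E x μ) {w : Fin (N + 1) → K}
    (hw : Tang V x w) (hl : ∀ a, lin (l a) w = 0) : w = 0 := by
  obtain ⟨hE, B, hB⟩ := hf
  have hrow : ∀ a, ∑ j, row l E x a j * w j = 0 := by
    intro a
    rcases a with a | b
    · simpa [row, lin] using hl a
    · simpa [row, dif] using hw (E b) (hE b)
  funext i
  have h1 : ∑ j, (∑ a, B i a * row l E x a j) * w j = μ * w i := by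
    rw [Finset.sum_eq_single i]
    · rw [hB, if_pos rfl]
    · intro j _ hj
      rw [hB, if_neg (Ne.symm hj), zero_mul]
    · intro h
      exact absurd (Finset.mem_univ _) h
  have h2 : ∑ j, (∑ a, B i a * row l E x a j) * w j = 0 := by
    simp only [Finset.sum_mul]
    rw [Finset.sum_comm]
    refine Finset.sum_eq_zero fun a _ => ?_
    calc ∑ j, B i a * row l E x a j * w j = B i a * ∑ j, row l E x a j * w j := by
          rw [Finset.mul_sum]
          exact Finset.sum_congr rfl fun j _ => by ring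
      _ = 0 := by rw [hrow, mul_zero]
  rw [h2] at h1
  exact (mul_eq_zero.mp h1.symm).resolve_left hμ

/-- base change of a frame -/
lemma fdc_frame_map {K : Type} [Field K] [Algebra k K] {V : Set (Fin (N + 1) → k)}
    {l : Fin (n + 1) → Fin (N + 1) → k} {E : Fin c → MvPolynomial (Fin (N + 1)) k}
    {x : Fin (N + 1) → k} {μ : k} (hf : Frame V l E x μ) :
    Frame V l E (fun i => algebraMap k K (x i)) (algebraMap k K μ) := by
  obtain ⟨hE, B, hB⟩ := hf
  refine ⟨hE, fun i a => algebraMap k K (B i a), fun i j => ?_⟩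
  have h1 := congrArg (algebraMap k K) (hB i j)
  rw [map_sum] at h1
  have h2 : algebraMap k K (if i = j then μ else 0) = if i = j then algebraMap k K μ else 0 := by
    split_ifs <;> simp
  rw [h2] at h1
  rw [← h1]
  refine Finset.sum_congr rfl fun a _ => ?_
  rw [map_mul]
  congr 1
  rcases a with a | b
  · simp [row]
  · simp only [row, Sum.elim_inr]
    exact MvPolynomial.aeval_algebraMap_apply K x (MvPolynomial.pderiv j (E b))

lemma fdc_lin_sum {A : Type} [CommRing A] [Algebra k A] (l : Fin (N + 1) → k) {ι : Type}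
    (s : Finset ι) (a : ι → A) (x : ι → Fin (N + 1) → A) :
    lin l (fun i => ∑ b ∈ s, a b * x b i) = ∑ b ∈ s, a b * lin l (x b) := by
  simp only [lin, Finset.mul_sum]
  rw [Finset.sum_comm]
  exact Finset.sum_congr rfl fun b _ => Finset.sum_congr rfl fun i _ => by ring

lemma fdc_lin_add {A : Type} [CommRing A] [Algebra k A] (l : Fin (N + 1) → k)
    (x x' : Fin (N + 1) → A) : lin l (fun i => x i + x' i) = lin l x + lin l x' := by
  simp only [lin, mul_add, Finset.sum_add_distrib]

lemma fdc_lin_smul {A : Type} [CommRing A] [Algebra k A] (l : Fin (N + 1) → k) (a : A)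
    (x : Fin (N + 1) → A) : lin l (fun i => a * x i) = a * lin l x := by
  simp only [lin, Finset.mul_sum]
  exact Finset.sum_congr rfl fun i _ => by ring

lemma fdc_lin_sub {A : Type} [CommRing A] [Algebra k A] (l : Fin (N + 1) → k)
    (x x' : Fin (N + 1) → A) : lin l (fun i => x i - x' i) = lin l x - lin l x' := by
  simp only [lin, mul_sub, Finset.sum_sub_distrib]

lemma fdc_tang_sum {A : Type} [CommRing A] [Algebra k A] {V : Set (Fin (N + 1) → k)}
    {x : Fin (N + 1) → A} {ι : Type} (s : Finset ι) (a : ι → A) (w : ι → Fin (N + 1) → A)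
    (h : ∀ b ∈ s, Tang V x (w b)) : Tang V x (fun i => ∑ b ∈ s, a b * w b i) := by
  intro E hE
  have h1 : dif E x (fun i => ∑ b ∈ s, a b * w b i) = ∑ b ∈ s, a b * dif E x (w b) := by
    simp only [dif, Finset.mul_sum]
    rw [Finset.sum_comm]
    exact Finset.sum_congr rfl fun b _ => Finset.sum_congr rfl fun i _ => by ring
  rw [h1]
  exact Finset.sum_eq_zero fun b hb => by rw [h b hb E hE, mul_zero]

lemma fdc_tang_add {A : Type} [CommRing A] [Algebra k A] {V : Set (Fin (N + 1) → k)}
    {x w w' : Fin (N + 1) → A} (h : Tang V x w) (h' : Tang V x w') :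
    Tang V x (fun i => w i + w' i) := by
  intro E hE
  have h1 : dif E x (fun i => w i + w' i) = dif E x w + dif E x w' := by
    simp only [dif, mul_add, Finset.sum_add_distrib]
  rw [h1, h E hE, h' E hE, add_zero]

/-- an injective linear system with as many equations as unknowns has a solution -/
lemma fdc_exists_sol {K : Type} [Field K] {r : ℕ} (M : Fin r → Fin r → K)
    (h : ∀ c : Fin r → K, (∀ a, ∑ b, c b * M b a = 0) → c = 0) (t : Fin r → K) :
    ∃ c : Fin r → K, ∀ a, ∑ b, c b * M b a = t a := by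
  let f : (Fin r → K) →ₗ[K] (Fin r → K) :=
    { toFun := fun c a => ∑ b, c b * M b a
      map_add' := by
        intro x y
        funext a
        simp [add_mul, Finset.sum_add_distrib]
      map_smul' := by
        intro m x
        funext a
        simp [Finset.mul_sum, mul_assoc] }
  have hinj : Function.Injective f := by
    rw [← LinearMap.ker_eq_bot, LinearMap.ker_eq_bot']
    intro c hc
    exact h c fun a => congrFun hc a
  obtain ⟨c, hc⟩ := (LinearMap.injective_iff_surjective.mp hinj) t
  exact ⟨c, fun a => congrFun hc a⟩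

lemma fdc_tang_smul {A : Type} [CommRing A] [Algebra k A] {V : Set (Fin (N + 1) → k)}
    {x w : Fin (N + 1) → A} (a : A) (h : Tang V x w) : Tang V x (fun i => a * w i) := by
  intro E hE
  have h1 : dif E x (fun i => a * w i) = a * dif E x w := by
    simp only [dif, Finset.mul_sum]
    exact Finset.sum_congr rfl fun i _ => by ring
  rw [h1, h E hE, mul_zero]

/-- **Sections with prescribed ends.** -/
theorem fd_corr [IsAlgClosed k] (D : VData k N n c) {K : Type} [Field K] [IsAlgClosed K]
    [Algebra k K] {d w : ℕ} {R : Fin (N + 1) → K[X]} (hR : Curve D d R) (cm : Fin w → k)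
    (hcm : Function.Injective cm) (hcm0 : ∀ l, cm l ≠ 0)
    {g : Fin n → Fin (N + 1) → K[X]} (hg : Sec D d R cm g)
    {y : Fin (N + 1) → k} (_hy : y ∈ D.V) (fy : FrameAt D y) (ρ0 : K) (hρ0 : ρ0 ≠ 0)
    (hR0 : ∀ i, (R i).coeff 0 = ρ0 * algebraMap k K (y i))
    (α : Fin (N + 1) → K) (ρ1 : K) (hρ1 : ρ1 ≠ 0) (hR1 : ∀ i, (R i).coeff d = ρ1 * α i)
    (l : Fin (n + 1) → Fin (N + 1) → k) (E : Fin c → MvPolynomial (Fin (N + 1)) k)
    (hα0 : lin (l 0) α = 1) (μ : K) (hμ : μ ≠ 0) (hfr : Frame D.V l E α μ)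
    (r : Fin (n + 1) → K) (s : Fin n → K) :
    ∃ σ : Fin (N + 1) → K[X], (∀ i, (σ i).natDegree ≤ d) ∧ Tang D.V R σ ∧
      (∀ l', ∃ a : K, ∀ i, (σ i).eval (algebraMap k K (cm l')) =
        a * (R i).eval (algebraMap k K (cm l'))) ∧
      (∀ a, lin (fy.l a) (fun i => (σ i).coeff 0) = r a) ∧
      ∀ i : Fin n, lin (l i.succ) (fun i' => (σ i').coeff d) -
        lin (l i.succ) α * lin (l 0) (fun i' => (σ i').coeff d) = s i := by
  classical
  have hRt : Tang D.V R R := tang_self' D hR.onV
  -- the sections at `X = 0`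
  obtain ⟨S, hSd, hSt, hSm, hSi⟩ : ∃ S : Fin (n + 1) → Fin (N + 1) → K[X],
      (∀ b i, (S b i).natDegree ≤ d) ∧ (∀ b, Tang D.V R (S b)) ∧
      (∀ b l', ∃ a : K, ∀ i, (S b i).eval (algebraMap k K (cm l')) =
        a * (R i).eval (algebraMap k K (cm l'))) ∧
      LinearIndependent K (fun b i => (S b i).coeff 0) := by
    obtain ⟨g', hg'd, hg't, hg'm, hg'i⟩ := gg D hR cm hcm hcm0 hg
    refine ⟨Fin.cons R g', fun b => ?_, fun b => ?_, fun b => ?_, ?_⟩
    · refine Fin.cases ?_ (fun j => ?_) b
      · exact hR.deg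
      · exact fun i => (hg'd j i).le
    · refine Fin.cases ?_ (fun j => ?_) b
      · exact hRt
      · exact hg't j
    · refine Fin.cases ?_ (fun j => ?_) b
      · exact fun l' => ⟨1, fun i => by rw [one_mul]; rfl⟩
      · exact hg'm j
    · convert hg'i using 1
      funext b i
      refine Fin.cases ?_ (fun j => ?_) b
      · exact Polynomial.coeff_zero_eq_eval_zero _
      · exact Polynomial.coeff_zero_eq_eval_zero _
  have hfy : Frame D.V fy.l fy.E (fun i => algebraMap k K (y i)) (1 : K) := by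
    have h1 := fdc_frame_map (K := K) fy.hfr
    rwa [map_one] at h1
  have hS0 : ∀ b, Tang D.V (fun i => algebraMap k K (y i)) (fun i => (S b i).coeff 0) := by
    intro b
    have h1 := fdc_tang_zero D.V (hSt b)
    have h2 : (fun i => (R i).coeff 0) = fun i => ρ0 * algebraMap k K (y i) := funext hR0
    rw [h2] at h1
    exact fdc_tang_scale D hρ0 h1
  obtain ⟨cc, hcc⟩ : ∃ cc : Fin (n + 1) → K, ∀ a,
      ∑ b, cc b * lin (fy.l a) (fun i => (S b i).coeff 0) = r a := by
    refine fdc_exists_sol (fun b a => lin (fy.l a) (fun i => (S b i).coeff 0)) (fun cc hcc => ?_) r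
    have hw : (fun i => ∑ b, cc b * (S b i).coeff 0) = 0 :=
      fdc_frame_inj one_ne_zero hfy (fdc_tang_sum _ _ _ fun b _ => hS0 b) (fun a => by
        rw [fdc_lin_sum]
        exact hcc a)
    refine funext (Fintype.linearIndependent_iff.mp hSi cc ?_)
    funext i
    have h1 := congrFun hw i
    rw [Finset.sum_apply]
    exact h1
  -- the sections at infinity
  have hd : 0 < d := lt_of_le_of_lt (Nat.zero_le _) (hg.deg ⟨0, D.hn⟩ 0)
  obtain ⟨d', rfl⟩ : ∃ d', d = d' + 1 := ⟨d - 1, by omega⟩
  have hTd : ∀ j i, (X * g j i).natDegree ≤ d' + 1 := by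
    intro j i
    refine natDegree_mul_le.trans ?_
    have h1 := hg.deg j i
    have h2 : (X : K[X]).natDegree ≤ 1 := natDegree_X_le
    omega
  have hTt : ∀ j, Tang D.V R (fun i => X * g j i) := fun j => fdc_tang_smul X (hg.tan j)
  have hTc : ∀ j i, (X * g j i).coeff (d' + 1) = (g j i).coeff (d' + 1 - 1) := by
    intro j i
    rw [coeff_X_mul, Nat.add_sub_cancel]
  have hR1' : (fun i => (R i).coeff (d' + 1)) = fun i => ρ1 * α i := funext hR1
  have hRα : Tang D.V α (fun i => (R i).coeff (d' + 1)) := by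
    have h1 := fdc_tang_inf D hR.deg hR.deg hRt
    have h2 : Tang D.V (fun i => ρ1 * α i) (fun i => (R i).coeff (d' + 1)) := by
      rw [← hR1']
      exact h1
    exact fdc_tang_scale D hρ1 h2
  have hTα : ∀ j, Tang D.V α (fun i => (X * g j i).coeff (d' + 1)) := by
    intro j
    have h1 := fdc_tang_inf D hR.deg (hTd j) (hTt j)
    rw [hR1'] at h1
    exact fdc_tang_scale D hρ1 h1
  have hlR : ∀ a, lin (l a) (fun i => (R i).coeff (d' + 1)) = ρ1 * lin (l a) α := by
    intro a
    rw [hR1', fdc_lin_smul]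
  obtain ⟨T, hT⟩ : ∃ T : Fin n → Fin (N + 1) → K, ∀ j i, T j i = (X * g j i).coeff (d' + 1) :=
    ⟨_, fun _ _ => rfl⟩
  obtain ⟨Λ, hΛ⟩ : ∃ Λ : Fin n → (Fin (N + 1) → K) → K,
      ∀ i x, Λ i x = lin (l i.succ) x - lin (l i.succ) α * lin (l 0) x := ⟨_, fun _ _ => rfl⟩
  have hTα' : ∀ j, Tang D.V α (T j) := by
    intro j
    have h1 : T j = fun i => (X * g j i).coeff (d' + 1) := funext (hT j)
    rw [h1]
    exact hTα j
  have hinj : ∀ c' : Fin n → K, (∀ i, ∑ j, c' j * Λ i (T j) = 0) → c' = 0 := by
    intro c' hc'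
    obtain ⟨W, hW⟩ : ∃ W : Fin (N + 1) → K, W = fun i => ∑ j, c' j * T j i := ⟨_, rfl⟩
    have hWl : ∀ i : Fin n, lin (l i.succ) W = lin (l i.succ) α * lin (l 0) W := by
      intro i
      have h1 := hc' i
      rw [hW, fdc_lin_sum, fdc_lin_sum, Finset.mul_sum, ← sub_eq_zero, ← Finset.sum_sub_distrib, ← h1]
      exact Finset.sum_congr rfl fun j _ => by rw [hΛ]; ring
    have hWt : Tang D.V α W := by
      rw [hW]
      exact fdc_tang_sum _ _ _ fun j _ => hTα' j
    have hz : (fun i => W i + (-(lin (l 0) W / ρ1)) * (R i).coeff (d' + 1)) = 0 := by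
      refine fdc_frame_inj hμ hfr (fdc_tang_add hWt (fdc_tang_smul _ hRα)) ?_
      intro a
      have h3 : -(lin (l 0) W / ρ1) * (ρ1 * lin (l a) α) = -(lin (l a) α * lin (l 0) W) := by
        field_simp
      rw [fdc_lin_add, fdc_lin_smul, hlR, h3]
      refine Fin.cases ?_ (fun i => ?_) a
      · rw [hα0, one_mul, add_neg_cancel]
      · rw [hWl i, add_neg_cancel]
    have h4 := Fintype.linearIndependent_iff.mp hg.ind
      (Fin.cons (-(lin (l 0) W / ρ1)) c') (by
        rw [Fin.sum_univ_succ]
        funext i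
        have h5 := congrFun hz i
        simp only [Fin.cons_zero, Fin.cons_succ, Pi.add_apply, Pi.smul_apply, Finset.sum_apply,
          smul_eq_mul, Pi.zero_apply] at h5 ⊢
        rw [← h5, hW, add_comm]
        simp only [hT, hTc])
    funext j
    have h6 := h4 j.succ
    rwa [Fin.cons_succ] at h6
  obtain ⟨c', hc'⟩ := fdc_exists_sol (fun j i => Λ i (T j)) hinj
    (fun i => s i - Λ i (fun i' => ∑ b, cc b * (S b i').coeff (d' + 1)))
  refine ⟨fun i => ∑ b, C (cc b) * S b i + ∑ j, C (c' j) * (X * g j i), fun i => ?_,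
    fdc_tang_add (fdc_tang_sum _ _ _ fun b _ => hSt b) (fdc_tang_sum _ _ _ fun j _ => hTt j),
    fun l' => ?_, fun a => ?_, fun i => ?_⟩
  · refine (natDegree_add_le _ _).trans (max_le ?_ ?_)
    · exact natDegree_sum_le_of_forall_le _ _ fun b _ =>
        (natDegree_C_mul_le _ _).trans (hSd b i)
    · exact natDegree_sum_le_of_forall_le _ _ fun j _ =>
        (natDegree_C_mul_le _ _).trans (hTd j i)
  · choose aS haS using hSm
    choose aT haT using hg.mark
    refine ⟨∑ b, cc b * aS b l' + ∑ j, c' j * (algebraMap k K (cm l') * aT j l'), fun i => ?_⟩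
    rw [eval_add, eval_finsetSum, eval_finsetSum, add_mul, Finset.sum_mul, Finset.sum_mul]
    congr 1
    · refine Finset.sum_congr rfl fun b _ => ?_
      rw [eval_mul, eval_C, haS b l' i]
      ring
    · refine Finset.sum_congr rfl fun j _ => ?_
      rw [eval_mul, eval_C, eval_mul, eval_X, haT j l' i]
      ring
  · rw [← hcc a, ← fdc_lin_sum]
    congr 1
    funext i
    rw [coeff_add, finsetSum_coeff, finsetSum_coeff]
    simp [mul_coeff_zero]
  · have h1 : (fun i' => (∑ b, C (cc b) * S b i' + ∑ j, C (c' j) * (X * g j i')).coeff (d' + 1)) =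
        fun i' => (∑ b, cc b * (S b i').coeff (d' + 1)) + ∑ j, c' j * T j i' := by
      funext i'
      rw [coeff_add, finsetSum_coeff, finsetSum_coeff]
      simp only [coeff_C_mul, hT]
    rw [h1, fdc_lin_add, fdc_lin_add]
    have h2 := hc' i
    simp only [hΛ] at h2
    have h3 : ∑ j, c' j * (lin (l i.succ) (T j) - lin (l i.succ) α * lin (l 0) (T j)) =
        lin (l i.succ) (fun i' => ∑ j, c' j * T j i') -
        lin (l i.succ) α * lin (l 0) (fun i' => ∑ j, c' j * T j i') := by
      rw [fdc_lin_sum, fdc_lin_sum, Finset.mul_sum, ← Finset.sum_sub_distrib]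
      exact Finset.sum_congr rfl fun j _ => by ring
    rw [h3] at h2
    linear_combination h2

end

end Pool.Agent.VFF
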