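import Pool.Agent.Lib_MP_1858fb_f.FDefs

/-! # MP_1858fb_ag, line F, piece F-FD: the polynomial system -/

namespace Pool.Agent.VFF

open Pool.Agent.VF Polynomial

section tup

variable {k : Type} [Field k] {N d : ℕ}

/-- the tuple of polynomials with the coefficients `x` -/
noncomputable def fdTup (N d : ℕ) {A : Type} [CommRing A] (x : Fin ((N + 1) * (d + 1)) → A) :
    Fin (N + 1) → A[X] :=
  fun i => ∑ m : Fin (d + 1), C (x (finProdFinEquiv (i, m))) * X ^ (m : ℕ)

theorem fdTup_natDegree {A : Type} [CommRing A] (x : Fin ((N + 1) * (d + 1)) → A)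
    (i : Fin (N + 1)) : (fdTup N d x i).natDegree ≤ d := by
  refine natDegree_sum_le_of_forall_le _ _ fun m _ => ?_
  exact (natDegree_C_mul_X_pow_le _ _).trans (Nat.lt_succ_iff.1 m.2)

theorem fdTup_coeff {A : Type} [CommRing A] (x : Fin ((N + 1) * (d + 1)) → A)
    (i : Fin (N + 1)) (m : Fin (d + 1)) :
    (fdTup N d x i).coeff m = x (finProdFinEquiv (i, m)) := by
  rw [fdTup, finsetSum_coeff, Finset.sum_eq_single m]
  · simp
  · intro b _ hb
    rw [coeff_C_mul, coeff_X_pow, if_neg, mul_zero]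
    intro h
    exact hb (Fin.ext h.symm)
  · intro h
    exact absurd (Finset.mem_univ _) h

theorem fdTup_coeff' {A : Type} [CommRing A] (x : Fin ((N + 1) * (d + 1)) → A)
    (i : Fin (N + 1)) (m : ℕ) (hm : m ≤ d) :
    (fdTup N d x i).coeff m = x (finProdFinEquiv (i, ⟨m, Nat.lt_succ_iff.2 hm⟩)) :=
  fdTup_coeff x i ⟨m, Nat.lt_succ_iff.2 hm⟩

theorem fdTup_coeff_gt {A : Type} [CommRing A] (x : Fin ((N + 1) * (d + 1)) → A)
    (i : Fin (N + 1)) (m : ℕ) (hm : d < m) : (fdTup N d x i).coeff m = 0 :=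
  coeff_eq_zero_of_natDegree_lt (lt_of_le_of_lt (fdTup_natDegree x i) hm)

theorem fdTup_map {A B : Type} [CommRing A] [CommRing B] (φ : A →+* B)
    (x : Fin ((N + 1) * (d + 1)) → A) (i : Fin (N + 1)) :
    (fdTup N d x i).map φ = fdTup N d (fun a => φ (x a)) i := by
  simp only [fdTup, Polynomial.map_sum, Polynomial.map_mul, map_C, Polynomial.map_pow, map_X]

/-- the coefficients of a tuple of polynomials -/
noncomputable def fdCo (N d : ℕ) {A : Type} [CommRing A] (R : Fin (N + 1) → A[X]) :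
    Fin ((N + 1) * (d + 1)) → A :=
  fun a => (R (finProdFinEquiv.symm a).1).coeff ((finProdFinEquiv.symm a).2 : ℕ)

theorem fdCo_apply {A : Type} [CommRing A] (R : Fin (N + 1) → A[X]) (i : Fin (N + 1))
    (m : Fin (d + 1)) : fdCo N d R (finProdFinEquiv (i, m)) = (R i).coeff m := by
  rw [fdCo, Equiv.symm_apply_apply]

theorem fdTup_fdCo {A : Type} [CommRing A] {R : Fin (N + 1) → A[X]}
    (hR : ∀ i, (R i).natDegree ≤ d) : fdTup N d (fdCo N d R) = R := by
  funext i
  ext m
  by_cases h : m ≤ d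
  · rw [fdTup_coeff' _ i m h, fdCo_apply]
  · rw [fdTup_coeff_gt _ i m (by omega),
      coeff_eq_zero_of_natDegree_lt (lt_of_le_of_lt (hR i) (by omega))]

theorem fdMap_aeval {A B : Type} [CommRing A] [Algebra k A] [CommRing B] [Algebra k B]
    (φ : A →+* B) (hφ : ∀ c : k, φ (algebraMap k A c) = algebraMap k B c)
    (G : Fin (N + 1) → A[X]) (E : MvPolynomial (Fin (N + 1)) k) :
    (MvPolynomial.aeval G E).map φ = MvPolynomial.aeval (fun i => (G i).map φ) E := by
  rw [MvPolynomial.aeval_def, MvPolynomial.aeval_def, ← coe_mapRingHom, MvPolynomial.hom_eval₂]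
  congr 1
  ext c : 1
  simp only [RingHom.comp_apply, Polynomial.algebraMap_apply, coe_mapRingHom, map_C, hφ]

theorem fdMap_lin {A B : Type} [CommRing A] [Algebra k A] [CommRing B] [Algebra k B]
    (φ : A →+* B) (hφ : ∀ c : k, φ (algebraMap k A c) = algebraMap k B c)
    (l : Fin (N + 1) → k) (x : Fin (N + 1) → A) : φ (lin l x) = lin l (fun i => φ (x i)) := by
  simp only [lin, map_sum, map_mul, hφ]

theorem fd_lin_smul {A : Type} [CommRing A] [Algebra k A]
    (l : Fin (N + 1) → k) (t : A) (x : Fin (N + 1) → A) :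
    lin l (fun i => t * x i) = t * lin l x := by
  simp only [lin, Finset.mul_sum]
  exact Finset.sum_congr rfl fun i _ => by ring

theorem fd_lin_algebraMap {A : Type} [CommRing A] [Algebra k A]
    (l y : Fin (N + 1) → k) :
    lin l (fun i => algebraMap k A (y i)) = algebraMap k A (lin l y) := by
  simp only [lin, map_sum, map_mul, Algebra.algebraMap_self_apply]

end tup

section sys

variable {k : Type} [Field k] {N d n w p : ℕ}

/-- the index set of the equations -/
abbrev fdS (T : Finset (MvPolynomial (Fin (N + 1)) k)) (b : MvPolynomial (Fin (N + 1)) k → ℕ)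
    (n w : ℕ) : Type :=
  (Σ E : T, Fin (b E + 1)) ⊕ ((Fin w × Fin (N + 1) × Fin (N + 1)) ⊕ (Fin (n + 1) ⊕ Fin n))

/-- the equations -/
noncomputable def fdEq (d : ℕ) (T : Finset (MvPolynomial (Fin (N + 1)) k))
    (b : MvPolynomial (Fin (N + 1)) k → ℕ) (cm : Fin w → k) (vs : Fin w → Fin (N + 1) → k)
    (l0 l1 : Fin (n + 1) → Fin (N + 1) → k) (a0 a1 : Fin n → Fin p → k)
    {A : Type} [CommRing A] [Algebra k A] (ρ : A) (la : Fin n → A)
    (x : Fin ((N + 1) * (d + 1)) → A) (ξ : Fin p → A) : fdS T b n w → A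
  | .inl ⟨E, m⟩ => (MvPolynomial.aeval (fdTup N d x) (E : MvPolynomial (Fin (N + 1)) k)).coeff m
  | .inr (.inl (l', i, i')) =>
      (fdTup N d x i).eval (algebraMap k A (cm l')) * algebraMap k A (vs l' i') -
        (fdTup N d x i').eval (algebraMap k A (cm l')) * algebraMap k A (vs l' i)
  | .inr (.inr (.inl a)) =>
      lin (l0 a) (fun i => (fdTup N d x i).coeff 0) -
        (Fin.cons ρ (fun j => ρ * ∑ q, algebraMap k A (a0 j q) * ξ q) : Fin (n + 1) → A) a
  | .inr (.inr (.inr j)) =>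
      lin (l1 j.succ) (fun i => (fdTup N d x i).coeff d) -
        (la j + ∑ q, algebraMap k A (a1 j q) * ξ q) *
          lin (l1 0) (fun i => (fdTup N d x i).coeff d)

theorem fdEq_map (T : Finset (MvPolynomial (Fin (N + 1)) k))
    (b : MvPolynomial (Fin (N + 1)) k → ℕ) (cm : Fin w → k) (vs : Fin w → Fin (N + 1) → k)
    (l0 l1 : Fin (n + 1) → Fin (N + 1) → k) (a0 a1 : Fin n → Fin p → k)
    {A B : Type} [CommRing A] [Algebra k A] [CommRing B] [Algebra k B] (φ : A →+* B)
    (hφ : ∀ c : k, φ (algebraMap k A c) = algebraMap k B c) (ρ : A) (la : Fin n → A)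
    (x : Fin ((N + 1) * (d + 1)) → A) (ξ : Fin p → A) (s : fdS T b n w) :
    φ (fdEq d T b cm vs l0 l1 a0 a1 ρ la x ξ s) =
      fdEq d T b cm vs l0 l1 a0 a1 (φ ρ) (fun j => φ (la j)) (fun a => φ (x a))
        (fun q => φ (ξ q)) s := by
  have hc : ∀ i (m : ℕ), φ ((fdTup N d x i).coeff m) =
      (fdTup N d (fun a => φ (x a)) i).coeff m := by
    intro i m
    rw [← fdTup_map φ x i, coeff_map]
  rcases s with ⟨E, m⟩ | (⟨l', i, i'⟩ | (a | j))
  · simp only [fdEq]
    rw [← coeff_map, fdMap_aeval φ hφ]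
    simp only [fdTup_map]
  · simp only [fdEq]
    have he : ∀ i, φ ((fdTup N d x i).eval (algebraMap k A (cm l'))) =
        (fdTup N d (fun a => φ (x a)) i).eval (algebraMap k B (cm l')) := by
      intro i
      rw [← fdTup_map φ x i, eval_map, ← hφ, ← eval₂_hom]
    rw [map_sub, map_mul, map_mul, he, he, hφ, hφ]
  · simp only [fdEq]
    rw [map_sub, fdMap_lin φ hφ]
    simp only [hc]
    congr 1
    refine Fin.cases ?_ (fun j => ?_) a
    · simp
    · simp only [Fin.cons_succ, map_mul, map_sum, hφ]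
  · simp only [fdEq]
    rw [map_sub, map_mul, map_add, map_sum, fdMap_lin φ hφ, fdMap_lin φ hφ]
    simp only [hc, map_mul, hφ]

/-- the equations as polynomials in the unknowns and the parameters -/
noncomputable def fdPhi (d : ℕ) (T : Finset (MvPolynomial (Fin (N + 1)) k))
    (b : MvPolynomial (Fin (N + 1)) k → ℕ) (cm : Fin w → k) (vs : Fin w → Fin (N + 1) → k)
    (l0 l1 : Fin (n + 1) → Fin (N + 1) → k) (a0 a1 : Fin n → Fin p → k)
    {O : Type} [CommRing O] [Algebra k O] (ρ : O) (la : Fin n → O) (s : fdS T b n w) :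
    MvPolynomial (Fin ((N + 1) * (d + 1)) ⊕ Fin p) O :=
  fdEq d T b cm vs l0 l1 a0 a1 (MvPolynomial.C ρ) (fun j => MvPolynomial.C (la j))
    (fun a => MvPolynomial.X (Sum.inl a)) (fun q => MvPolynomial.X (Sum.inr q)) s

theorem aeval_fdPhi (T : Finset (MvPolynomial (Fin (N + 1)) k))
    (b : MvPolynomial (Fin (N + 1)) k → ℕ) (cm : Fin w → k) (vs : Fin w → Fin (N + 1) → k)
    (l0 l1 : Fin (n + 1) → Fin (N + 1) → k) (a0 a1 : Fin n → Fin p → k)
    {O : Type} [CommRing O] [Algebra k O] (ρ : O) (la : Fin n → O)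
    {A : Type} [CommRing A] [Algebra k A] [Algebra O A]
    (hA : ∀ c : k, algebraMap O A (algebraMap k O c) = algebraMap k A c)
    (x : Fin ((N + 1) * (d + 1)) → A) (ξ : Fin p → A) (s : fdS T b n w) :
    MvPolynomial.aeval (Sum.elim x ξ) (fdPhi d T b cm vs l0 l1 a0 a1 ρ la s) =
      fdEq d T b cm vs l0 l1 a0 a1 (algebraMap O A ρ) (fun j => algebraMap O A (la j)) x ξ s := by
  have h := fdEq_map (d := d) T b cm vs l0 l1 a0 a1
    ((MvPolynomial.aeval (Sum.elim x ξ) : MvPolynomial _ O →ₐ[O] A) : _ →+* A)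
    (fun c => by
      rw [MvPolynomial.algebraMap_apply]
      simp [hA])
    (MvPolynomial.C ρ) (fun j => MvPolynomial.C (la j))
    (fun a => MvPolynomial.X (Sum.inl a)) (fun q => MvPolynomial.X (Sum.inr q)) s
  refine h.trans ?_
  simp

end sys

section ideal

variable {k : Type} [Field k] {N : ℕ}

/-- finitely many generators are enough -/
theorem fd_ideal {J : Ideal (MvPolynomial (Fin (N + 1)) k)}
    {T : Finset (MvPolynomial (Fin (N + 1)) k)} (hT : Ideal.span (T : Set _) = J)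
    {B : Type} [CommRing B] [Algebra k B] (F : Fin (N + 1) → B) (𝔞 : Ideal B)
    (h : ∀ E ∈ T, MvPolynomial.aeval F E ∈ 𝔞) : ∀ E ∈ J, MvPolynomial.aeval F E ∈ 𝔞 := by
  have h1 : J ≤ Ideal.comap (MvPolynomial.aeval F : MvPolynomial _ k →ₐ[k] B) 𝔞 := by
    rw [← hT, Ideal.span_le]
    intro E hE
    exact h E hE
  intro E hE
  exact h1 hE

end ideal

end Pool.Agent.VFF
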