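import Pool.Agent.Lib_MP_1858fb_f.FDEq

/-! # MP_1858fb_ag, line F, piece F-FD: the equations at the start and the output -/

namespace Pool.Agent.VFF

open Pool.Agent.VF Polynomial

variable {k : Type} [Field k] {N n c : ℕ}

/-- the degree of the value of a polynomial in `N + 1` variables at a tuple of polynomials -/
theorem fd_natDegree_aeval {A : Type} [CommRing A] [Algebra k A] {d : ℕ}
    {F : Fin (N + 1) → A[X]} (hF : ∀ i, (F i).natDegree ≤ d) (E : MvPolynomial (Fin (N + 1)) k) :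
    (MvPolynomial.aeval F E).natDegree ≤ d * E.totalDegree := by
  rw [MvPolynomial.aeval_def, MvPolynomial.eval₂_eq]
  refine natDegree_sum_le_of_forall_le _ _ fun s hs => ?_
  have h1 : (algebraMap k A[X] (E.coeff s) * ∏ i ∈ s.support, F i ^ s i).natDegree ≤
      (∏ i ∈ s.support, F i ^ s i).natDegree := by
    rw [Polynomial.algebraMap_apply]
    exact natDegree_C_mul_le _ _
  refine h1.trans ((natDegree_prod_le _ _).trans ?_)
  have h2 : ∑ i ∈ s.support, (F i ^ s i).natDegree ≤ ∑ i ∈ s.support, d * s i := by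
    refine Finset.sum_le_sum fun i _ => natDegree_pow_le.trans ?_
    rw [mul_comm d]
    exact Nat.mul_le_mul_left _ (hF i)
  refine h2.trans ?_
  rw [← Finset.mul_sum]
  exact Nat.mul_le_mul_left _ (MvPolynomial.le_totalDegree hs)

/-- the equations hold for `R` at `ξ = 0` -/
theorem fd_h0 (D : VData k N n c) {O : Type} [CommRing O]
    [Algebra k O] {d w : ℕ} {R : Fin (N + 1) → O[X]} (hR : Curve D d R) (cm : Fin w → k)
    (vs : Fin w → Fin (N + 1) → k)
    (hRm : ∀ l, Prop' (vs l) (fun i => (R i).eval (algebraMap k O (cm l))))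
    {y : Fin (N + 1) → k} (fy : FrameAt D y) (ρ0 : O)
    (hR0 : ∀ i, (R i).coeff 0 = ρ0 * algebraMap k O (y i))
    (α : Fin (N + 1) → O) (ρ1 : O) (hR1 : ∀ i, (R i).coeff d = ρ1 * α i)
    (l : Fin (n + 1) → Fin (N + 1) → k) (hα0 : lin (l 0) α = 1)
    {p : ℕ} (a b : Fin n → Fin p → k)
    (T : Finset (MvPolynomial (Fin (N + 1)) k)) (hT : Ideal.span (T : Set _) = van D.V)
    (bd : MvPolynomial (Fin (N + 1)) k → ℕ) (s : fdS T bd n w) :
    fdEq d T bd cm vs fy.l l a b ρ0 (fun j => lin (l j.succ) α) (fdCo N d R) 0 s = 0 := by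
  rcases s with ⟨E, m⟩ | (⟨l', i, i'⟩ | (a' | j))
  · simp only [fdEq]
    rw [fdTup_fdCo hR.deg, hR.onV E (by rw [← hT]; exact Ideal.subset_span E.2), coeff_zero]
  · simp only [fdEq]
    rw [fdTup_fdCo hR.deg, hRm l' i i', sub_self]
  · simp only [fdEq]
    rw [fdTup_fdCo hR.deg]
    simp only [hR0]
    rw [fd_lin_smul, fd_lin_algebraMap, fy.hl]
    refine Fin.cases ?_ (fun j => ?_) a'
    · simp
    · simp [Fin.succ_ne_zero]
  · simp only [fdEq]
    rw [fdTup_fdCo hR.deg]
    simp only [hR1]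
    rw [fd_lin_smul, fd_lin_smul, hα0]
    simp only [Pi.zero_apply, mul_zero, Finset.sum_const_zero, add_zero, mul_one]
    ring

/-- the output: the tuple of polynomials over the power series -/
theorem fd_out (D : VData k N n c) {O : Type} [CommRing O]
    [Algebra k O] {d w : ℕ} {R : Fin (N + 1) → O[X]} (hR : Curve D d R) (cm : Fin w → k)
    (vs : Fin w → Fin (N + 1) → k) {y : Fin (N + 1) → k} (fy : FrameAt D y) (ρ0 : O)
    (α : Fin (N + 1) → O) (l : Fin (n + 1) → Fin (N + 1) → k)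
    {p : ℕ} (a b : Fin n → Fin p → k)
    (T : Finset (MvPolynomial (Fin (N + 1)) k)) (hT : Ideal.span (T : Set _) = van D.V)
    (bd : MvPolynomial (Fin (N + 1)) k → ℕ) (hbd : ∀ E ∈ T, d * E.totalDegree ≤ bd E)
    (t : O) (Δ : Fin ((N + 1) * (d + 1)) → MvPowerSeries (Fin p) O)
    (hΔ : ∀ i, MvPowerSeries.constantCoeff (Δ i) = 0)
    (h : ∀ s : fdS T bd n w, fdEq d T bd cm vs fy.l l a b (MvPowerSeries.C ρ0)
      (fun j => MvPowerSeries.C (lin (l j.succ) α))
      (fun i => MvPowerSeries.C (fdCo N d R i) + MvPowerSeries.C t * Δ i)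
      (fun q => MvPowerSeries.C (t ^ 2) * MvPowerSeries.X q) s = 0) :
    ∃ F : Fin (N + 1) → (MvPowerSeries (Fin p) O)[X],
      (∀ i, (F i).natDegree ≤ d) ∧ OnV D.V F ∧
      (∀ i m, ∃ Δ : MvPowerSeries (Fin p) O, MvPowerSeries.constantCoeff Δ = 0 ∧
        (F i).coeff m = MvPowerSeries.C ((R i).coeff m) + MvPowerSeries.C t * Δ) ∧
      (∀ l', Prop' (vs l') (fun i => (F i).eval (algebraMap k _ (cm l')))) ∧
      (lin (fy.l 0) (fun i => (F i).coeff 0) = MvPowerSeries.C ρ0) ∧
      (∀ j : Fin n, lin (fy.l j.succ) (fun i => (F i).coeff 0) =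
        MvPowerSeries.C (ρ0 * t ^ 2) *
          ∑ q, MvPowerSeries.C (algebraMap k O (a j q)) * MvPowerSeries.X q) ∧
      (∀ j : Fin n, lin (l j.succ) (fun i => (F i).coeff d) =
        (MvPowerSeries.C (lin (l j.succ) α) + MvPowerSeries.C (t ^ 2) *
          ∑ q, MvPowerSeries.C (algebraMap k O (b j q)) * MvPowerSeries.X q) *
        lin (l 0) (fun i => (F i).coeff d)) := by
  have hal : ∀ x : k, algebraMap k (MvPowerSeries (Fin p) O) x =
      MvPowerSeries.C (algebraMap k O x) := fun x => MvPowerSeries.algebraMap_apply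
  refine ⟨fdTup N d (fun i => MvPowerSeries.C (fdCo N d R i) + MvPowerSeries.C t * Δ i),
    fdTup_natDegree _, ?_, ?_, ?_, ?_, ?_, ?_⟩
  · have h1 := fd_ideal hT
      (fdTup N d (fun i => MvPowerSeries.C (fdCo N d R i) + MvPowerSeries.C t * Δ i)) ⊥
      (fun E hE => ?_)
    · exact fun E hE => h1 E hE
    · rw [Ideal.mem_bot]
      ext1 m
      rw [coeff_zero]
      by_cases hm : m ≤ bd E
      · exact h (.inl ⟨⟨E, hE⟩, ⟨m, Nat.lt_succ_iff.2 hm⟩⟩)
      · refine coeff_eq_zero_of_natDegree_lt ?_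
        have h2 := fd_natDegree_aeval (k := k) (fdTup_natDegree (N := N) (d := d)
          (fun i => MvPowerSeries.C (fdCo N d R i) + MvPowerSeries.C t * Δ i)) E
        have h3 := hbd E hE
        omega
  · intro i m
    by_cases hm : m ≤ d
    · refine ⟨Δ (finProdFinEquiv (i, ⟨m, Nat.lt_succ_iff.2 hm⟩)), hΔ _, ?_⟩
      rw [fdTup_coeff' _ i m hm, fdCo_apply]
    · refine ⟨0, map_zero _, ?_⟩
      rw [fdTup_coeff_gt _ i m (by omega), mul_zero, add_zero,
        coeff_eq_zero_of_natDegree_lt (lt_of_le_of_lt (hR.deg i) (by omega)), map_zero]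
  · intro l' i i'
    have h1 := h (.inr (.inl (l', i, i')))
    simp only [fdEq] at h1
    exact sub_eq_zero.1 h1
  · have h1 := h (.inr (.inr (.inl 0)))
    simp only [fdEq, Fin.cons_zero] at h1
    exact sub_eq_zero.1 h1
  · intro j
    have h1 := h (.inr (.inr (.inl j.succ)))
    simp only [fdEq, Fin.cons_succ] at h1
    rw [sub_eq_zero.1 h1, map_mul, mul_assoc, Finset.mul_sum (a := MvPowerSeries.C (t ^ 2))]
    congr 1
    refine Finset.sum_congr rfl fun q _ => ?_
    rw [hal]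
    ring
  · intro j
    have h1 := h (.inr (.inr (.inr j)))
    simp only [fdEq] at h1
    rw [sub_eq_zero.1 h1, Finset.mul_sum (a := MvPowerSeries.C (t ^ 2))]
    congr 2
    refine Finset.sum_congr rfl fun q _ => ?_
    rw [hal]
    ring

end Pool.Agent.VFF
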