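import Pool.Agent.Lib_MP_1858fb_f.FDefs
import Pool.Agent.Lib_MP_1858fb_w.ObsM

/-! # MP_1858fb_ag, line F: the obstruction lemma with marks

Smoothness at the points of `V` with values in an extension field `K` comes from the
Nullstellensatz; the obstruction lemma then follows from `ObsR.obs_marks`. -/

namespace Pool.Agent.VFF

open Pool.Agent.VF Polynomial

/-- a right inverse of a matrix with independent rows -/
theorem Obs_rinv {κ F : Type*} [Fintype κ] [Field F] {c : ℕ} (A : Fin c → κ → F)
    (h : LinearIndependent F A) :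
    ∃ B : Matrix κ (Fin c) F, Matrix.of A * B = 1 := by
  classical
  obtain ⟨g, hg⟩ := LinearMap.exists_leftInverse_of_injective
    (Fintype.linearCombination F A)
    (LinearMap.ker_eq_bot.mpr h.fintypeLinearCombination_injective)
  refine ⟨Matrix.of fun i j => g (Pi.single i 1) j, ?_⟩
  ext j j'
  have h1 := congrArg (fun f : Fin c → F => f j') (LinearMap.congr_fun hg (Pi.single j 1))
  simp only [LinearMap.comp_apply, LinearMap.id_apply, Fintype.linearCombination_apply] at h1
  have h2 : (∑ x, (Pi.single j (1 : F) : Fin c → F) x • A x) =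
      ∑ i, A j i • (Pi.single i (1 : F) : κ → F) := by
    ext l
    rw [Finset.sum_apply, Finset.sum_apply]
    simp [Pi.single_apply]
  rw [h2, map_sum] at h1
  simp only [map_smul, Finset.sum_apply, Pi.smul_apply, smul_eq_mul, Pi.single_apply] at h1
  rw [Matrix.mul_apply, Matrix.one_apply]
  simp only [Matrix.of_apply]
  rw [h1]
  simp only [eq_comm]

/-- rows are independent if the product with a matrix has a nonzero determinant -/
theorem Obs_indep {κ F : Type*} [Fintype κ] [Field F] {c : ℕ} (A : Fin c → κ → F)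
    (B : Matrix κ (Fin c) F) (h : (Matrix.of A * B).det ≠ 0) : LinearIndependent F A := by
  rw [Fintype.linearIndependent_iff]
  intro a ha
  have h1 : Matrix.vecMul a (Matrix.of A) = 0 := by
    rw [← ha]
    ext i
    simp [Matrix.vecMul, dotProduct]
  have h2 : Matrix.vecMul a (Matrix.of A * B) = 0 := by
    rw [← Matrix.vecMul_vecMul, h1, Matrix.zero_vecMul]
  exact congrFun (Matrix.eq_zero_of_vecMul_eq_zero h h2)

section Nst

variable {k : Type} [Field k] {N n c : ℕ}

/-- `V` is smooth at its points with values in an extension field. -/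
theorem Obs_smoothK [IsAlgClosed k] (D : VData k N n c) {K : Type} [Field K] [Algebra k K]
    {x : Fin (N + 1) → K} (hx : OnV D.V x) {l : Fin D.t}
    (hl : MvPolynomial.aeval x (D.H l) ≠ 0) :
    ∃ (E : Fin c → MvPolynomial (Fin (N + 1)) k) (G : MvPolynomial (Fin (N + 1)) k),
      (∀ b, E b ∈ van D.V) ∧
      LinearIndependent K (fun (b : Fin c) (i : Fin (N + 1)) =>
        MvPolynomial.aeval x (MvPolynomial.pderiv i (E b))) ∧
      MvPolynomial.aeval x G ≠ 0 ∧ ∀ P ∈ van D.V, G * P ∈ Ideal.span (Set.range E) := by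
  classical
  -- the generalised minors
  let mn : (Fin c → MvPolynomial (Fin (N + 1)) k) → Matrix (Fin (N + 1)) (Fin c) k →
      MvPolynomial (Fin (N + 1)) k := fun E B =>
    (Matrix.of (fun b i => MvPolynomial.pderiv i (E b)) *
      B.map (MvPolynomial.C : k → MvPolynomial (Fin (N + 1)) k)).det
  let S : Set (MvPolynomial (Fin (N + 1)) k) :=
    {P | ∃ (E : Fin c → MvPolynomial (Fin (N + 1)) k) (G : MvPolynomial (Fin (N + 1)) k)
      (B : Matrix (Fin (N + 1)) (Fin c) k), (∀ b, E b ∈ van D.V) ∧
      (∀ P ∈ van D.V, G * P ∈ Ideal.span (Set.range E)) ∧ P = G * mn E B}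
  have hmn : ∀ {F : Type} [Field F] [Algebra k F] (y : Fin (N + 1) → F)
      (E : Fin c → MvPolynomial (Fin (N + 1)) k) (B : Matrix (Fin (N + 1)) (Fin c) k),
      MvPolynomial.aeval y (mn E B) =
        (Matrix.of (fun b i => MvPolynomial.aeval y (MvPolynomial.pderiv i (E b))) *
          B.map (algebraMap k F)).det := by
    intro F _ _ y E B
    rw [AlgHom.map_det]
    congr 1
    ext b b'
    rw [AlgHom.mapMatrix_apply, Matrix.map_apply, Matrix.mul_apply, Matrix.mul_apply, map_sum]
    refine Finset.sum_congr rfl fun i _ => ?_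
    rw [map_mul, Matrix.map_apply, Matrix.map_apply, Matrix.of_apply, Matrix.of_apply]
    congr 1
    exact MvPolynomial.aeval_C _ _
  by_contra hcon
  -- every element of `S` vanishes at `x`
  have hS : ∀ P ∈ S, MvPolynomial.aeval x P = 0 := by
    rintro P ⟨E, G, B, hE, hG, rfl⟩
    by_contra h
    rw [map_mul] at h
    have h1 : MvPolynomial.aeval x G ≠ 0 := left_ne_zero_of_mul h
    have h2 : MvPolynomial.aeval x (mn E B) ≠ 0 := right_ne_zero_of_mul h
    rw [hmn] at h2
    exact hcon ⟨E, G, hE, Obs_indep _ _ h2, h1, hG⟩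
  set J : Ideal (MvPolynomial (Fin (N + 1)) k) := van D.V ⊔ Ideal.span S with hJ
  have hJx : ∀ P ∈ J, MvPolynomial.aeval x P = 0 := by
    have h1 : J ≤ RingHom.ker (MvPolynomial.aeval x : MvPolynomial (Fin (N + 1)) k →ₐ[k] K) := by
      rw [hJ]
      refine sup_le (fun P hP => ?_) (Ideal.span_le.mpr fun P hP => ?_)
      · exact hx P hP
      · exact hS P hP
    intro P hP
    exact h1 hP
  have hrad : D.H l ∈ J.radical := by
    rw [← MvPolynomial.vanishingIdeal_zeroLocus_eq_radical (K := k)]
    intro y hy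
    by_contra hne
    have hyV : y ∈ D.V := by
      rw [D.mem_iff]
      exact ⟨fun E hE => hy E (Ideal.mem_sup_left hE), l, hne⟩
    obtain ⟨E, H, hE, hli, hH, hgen⟩ := D.smooth y hyV
    obtain ⟨B, hB⟩ := Obs_rinv _ hli
    have h1 : H * mn E B ∈ J :=
      Ideal.mem_sup_right (Ideal.subset_span ⟨E, H, B, hE, hgen, rfl⟩)
    have h2 := hy _ h1
    rw [map_mul, hmn] at h2
    have h3 : B.map (algebraMap k k) = B := by
      ext i j
      rfl
    rw [h3, hB, Matrix.det_one, mul_one] at h2
    exact hH h2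
  obtain ⟨m, hm⟩ := hrad
  have h1 := hJx _ hm
  rw [map_pow] at h1
  exact pow_ne_zero m hl h1

end Nst

section Deg

variable {k : Type} [Field k] {A : Type} [CommRing A] [Algebra k A] {κ : Type} {d : ℕ}

/-- the coefficient of degree `d * e` of a form of degree `e` -/
theorem Obs_coeff {u : κ → A[X]} (hu : ∀ i, (u i).natDegree ≤ d)
    {E : MvPolynomial κ k} {e : ℕ} (hE : E.IsHomogeneous e) :
    (MvPolynomial.aeval u E).coeff (d * e) =
      MvPolynomial.aeval (fun i => (u i).coeff d) E := by
  classical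
  have hpow : ∀ (i : κ) (m : ℕ), (u i ^ m).coeff (m * d) = ((u i).coeff d) ^ m := by
    intro i m
    exact coeff_pow_of_natDegree_le (hu i)
  rw [MvPolynomial.aeval_def, MvPolynomial.aeval_def, MvPolynomial.eval₂_eq,
    MvPolynomial.eval₂_eq, finsetSum_coeff]
  refine Finset.sum_congr rfl fun s hs => ?_
  have hse : s.degree = e := by
    have := hE (MvPolynomial.mem_support_iff.mp hs)
    rw [Finsupp.degree_eq_weight_one]
    exact this
  have hde : d * e = ∑ i ∈ s.support, s i * d := by
    rw [← Finset.sum_mul, ← hse, Finsupp.degree_apply, mul_comm]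
  rw [Polynomial.algebraMap_apply, coeff_C_mul, hde]
  congr 1
  have key : ∀ T : Finset κ, (∏ i ∈ T, u i ^ s i).coeff (∑ i ∈ T, s i * d) =
      ∏ i ∈ T, (u i).coeff d ^ s i := by
    intro T
    induction T using Finset.induction_on with
    | empty => simp
    | insert i T hi ih =>
      rw [Finset.prod_insert hi, Finset.sum_insert hi, Finset.prod_insert hi,
        coeff_mul_add_eq_of_natDegree_le, hpow, ih]
      · exact natDegree_pow_le.trans (Nat.mul_le_mul_left _ (hu i))
      · refine (natDegree_prod_le _ _).trans (Finset.sum_le_sum fun j _ => ?_)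
        exact natDegree_pow_le.trans (Nat.mul_le_mul_left _ (hu j))
  exact key _

theorem Obs_eval (u : κ → A[X]) (E : MvPolynomial κ k) (a : A) :
    (MvPolynomial.aeval u E).eval a = MvPolynomial.aeval (fun i => (u i).eval a) E := by
  rw [MvPolynomial.aeval_def, MvPolynomial.aeval_def, MvPolynomial.eval₂_eq,
    MvPolynomial.eval₂_eq, eval_finsetSum]
  refine Finset.sum_congr rfl fun s _ => ?_
  rw [eval_mul, Polynomial.algebraMap_apply, eval_C, eval_prod]
  congr 1
  exact Finset.prod_congr rfl fun i _ => by rw [eval_pow]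

end Deg

section Main

variable {k : Type} [Field k] {N n c : ℕ}

/-- the obstruction lemma with marks, if `van D.V` is homogeneous -/
theorem Obs_main [IsAlgClosed k] (D : VData k N n c)
    (hhom : ∀ E ∈ van D.V, ∀ e, MvPolynomial.homogeneousComponent e E ∈ van D.V)
    {K : Type} [Field K] [IsAlgClosed K]
    [Algebra k K] {d w : ℕ} {R : Fin (N + 1) → K[X]} (hR : Curve D d R) (cm : Fin w → k)
    {g : Fin n → Fin (N + 1) → K[X]} (hg : Sec D d R cm g)
    (o : MvPolynomial (Fin (N + 1)) k → K[X])
    (ho_add : ∀ E ∈ van D.V, ∀ E' ∈ van D.V, o (E + E') = o E + o E')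
    (ho_mul : ∀ G, ∀ E ∈ van D.V, o (G * E) = MvPolynomial.aeval R G * o E)
    (ho_deg : ∀ E ∈ van D.V, ∀ e, E.IsHomogeneous e → (o E).natDegree ≤ d * e)
    (ho_cm : ∀ E ∈ van D.V, ∀ l, (o E).eval (algebraMap k K (cm l)) = 0) :
    ∃ δ : Fin (N + 1) → K[X], (∀ i, (δ i).natDegree ≤ d) ∧ (∀ E ∈ van D.V, dif E R δ = o E) ∧
      ∀ l, ∃ a : K, ∀ i, (δ i).eval (algebraMap k K (cm l)) =
        a * (R i).eval (algebraMap k K (cm l)) := by
  classical
  obtain ⟨hRd, hRV, μ, hμ, M, hcert⟩ := hR
  -- the value at infinity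
  set xi : Fin (N + 1) → K := fun i => (R i).coeff d with hxi
  have hdifinf : ∀ (E : MvPolynomial (Fin (N + 1)) k) (e : ℕ), E.IsHomogeneous e →
      ∀ y : Fin (N + 1) → K, ∑ i, (ObsR.dif R E i).coeff (d * (e - 1)) * y i = dif E xi y := by
    intro E e hE y
    rw [dif]
    refine Finset.sum_congr rfl fun i _ => ?_
    rw [ObsR.dif, Obs_coeff hRd hE.pderiv]
  have hdec : ∀ (E : MvPolynomial (Fin (N + 1)) k) (x y : Fin (N + 1) → K),
      dif E x y = ∑ e ∈ Finset.range (E.totalDegree + 1),
        dif (MvPolynomial.homogeneousComponent e E) x y := by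
    intro E x y
    conv_lhs => rw [← MvPolynomial.sum_homogeneousComponent E]
    simp only [dif, map_sum, Finset.sum_mul]
    rw [Finset.sum_comm]
  -- points of the open part
  have hopen : ∀ a : K, ∃ l, MvPolynomial.aeval (fun i => (R i).eval a) (D.H l) ≠ 0 := by
    intro a
    by_contra hcon
    push Not at hcon
    obtain ⟨A, _, hA⟩ := hcert 0 (Nat.zero_le _)
    have h1 := congrArg (eval a) hA
    rw [eval_finsetSum, pow_zero, mul_one, eval_C] at h1
    apply hμ
    rw [← h1]
    refine Finset.sum_eq_zero fun l _ => ?_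
    rw [eval_mul, Obs_eval, hcon, mul_zero]
  have hopeni : ∃ l, MvPolynomial.aeval xi (D.H l) ≠ 0 := by
    by_contra hcon
    push Not at hcon
    obtain ⟨A, hAd, hA⟩ := hcert M le_rfl
    have h1 := congrArg (fun p : K[X] => p.coeff M) hA
    simp only [finsetSum_coeff, coeff_C_mul, coeff_X_pow, if_true, mul_one] at h1
    apply hμ
    rw [← h1]
    refine Finset.sum_eq_zero fun l _ => ?_
    by_cases hAl : A l = 0
    · rw [hAl, zero_mul, coeff_zero]
    · have h2 := hAd l hAl
      have h3 : M = (M - d * D.h l) + d * D.h l := by omega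
      rw [h3, coeff_mul_add_eq_of_natDegree_le (by omega)
        (ObsR.natDegree_aeval_le hRd (D.homH l)), Obs_coeff hRd (D.homH l)]
      rw [hcon, mul_zero]
  have hVa : ∀ a : K, OnV D.V (fun i => (R i).eval a) := by
    intro a E hE
    rw [← Obs_eval, hRV E hE, eval_zero]
  have hVi : OnV D.V xi := by
    intro E hE
    rw [← MvPolynomial.sum_homogeneousComponent E, map_sum]
    refine Finset.sum_eq_zero fun e _ => ?_
    rw [hxi, ← Obs_coeff hRd (MvPolynomial.homogeneousComponent_isHomogeneous e E),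
      hRV _ (hhom E hE e), coeff_zero]
  -- Euler
  have heul : ∀ E ∈ van D.V, dif E R R = 0 := by
    intro E hE
    have h0 : dif E R R = ∑ e ∈ Finset.range (E.totalDegree + 1),
        dif (MvPolynomial.homogeneousComponent e E) R R := by
      conv_lhs => rw [← MvPolynomial.sum_homogeneousComponent E]
      simp only [dif, map_sum, Finset.sum_mul]
      rw [Finset.sum_comm]
    rw [h0]
    refine Finset.sum_eq_zero fun e _ => ?_
    have hEh := MvPolynomial.homogeneousComponent_isHomogeneous e E
    have h1 := congrArg (MvPolynomial.aeval R) hEh.sum_X_mul_pderiv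
    rw [map_nsmul, hRV _ (hhom E hE e), smul_zero, map_sum] at h1
    rw [← h1, dif]
    refine Finset.sum_congr rfl fun i _ => ?_
    rw [map_mul, MvPolynomial.aeval_X, mul_comm]
  -- tangent vectors at infinity
  have htinf : ∀ s : Fin (N + 1) → K[X], (∀ i, (s i).natDegree ≤ d) →
      (∀ E ∈ van D.V, dif E R s = 0) → ∀ E ∈ van D.V, dif E xi (fun i => (s i).coeff d) = 0 := by
    intro s hsd hs E hE
    rw [hdec]
    refine Finset.sum_eq_zero fun e _ => ?_
    have hE' := hhom E hE e
    have hEh := MvPolynomial.homogeneousComponent_isHomogeneous e E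
    rw [← hdifinf _ e hEh]
    have h1 : ∑ i, (ObsR.dif R (MvPolynomial.homogeneousComponent e E) i).coeff (d * (e - 1)) *
        (s i).coeff d = (dif (MvPolynomial.homogeneousComponent e E) R s).coeff
          (d * (e - 1) + d) := by
      rw [dif, finsetSum_coeff]
      refine Finset.sum_congr rfl fun i _ => ?_
      exact (coeff_mul_add_eq_of_natDegree_le (ObsR.natDegree_dif_le hRd hEh i) (hsd i)).symm
    rw [h1, hs _ hE', coeff_zero]
  obtain ⟨l, hl⟩ := hopeni
  obtain ⟨Ei, Gi, hEi, hli, -, -⟩ := Obs_smoothK D hVi hl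
  have hgd : ∀ j i, (X * g j i).natDegree ≤ d := by
    intro j i
    refine natDegree_mul_le.trans ?_
    have h1 := hg.deg j i
    have h2 : (X : K[X]).natDegree ≤ 1 := natDegree_X_le
    omega
  set s : Fin (n + 1) → Fin (N + 1) → K[X] := Fin.cons R (fun j i => X * g j i) with hs
  have hsd : ∀ b i, (s b i).natDegree ≤ d := by
    intro b
    refine Fin.cases ?_ (fun j => ?_) b
    · exact hRd
    · intro i
      exact hgd j i
  have hst : ∀ b, ∀ E ∈ van D.V, dif E R (s b) = 0 := by
    intro b E hE
    refine Fin.cases ?_ (fun j => ?_) b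
    · exact heul E hE
    · have h1 : dif E R (s j.succ) = X * dif E R (g j) := by
        rw [dif, dif, Finset.mul_sum]
        refine Finset.sum_congr rfl fun i _ => ?_
        rw [hs, Fin.cons_succ]
        ring
      rw [h1, hg.tan j E hE, mul_zero]
  have hfe : (fun b i => (s b i).coeff d) =
      (Fin.cons (fun i => (R i).coeff d) (fun j i => (g j i).coeff (d - 1)) :
        Fin (n + 1) → Fin (N + 1) → K) := by
    funext b
    refine Fin.cases ?_ (fun j => ?_) b
    · rfl
    · rw [Fin.cons_succ, hs]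
      funext i
      rw [Fin.cons_succ]
      have h1 := hg.deg j i
      obtain ⟨d', rfl⟩ : ∃ d', d = d' + 1 := ⟨d - 1, by omega⟩
      rw [coeff_X_mul, Nat.add_sub_cancel]
  obtain ⟨δ, hδW, hδd, hδ⟩ := ObsR.obs_marks (I := van D.V) (d := d) (fun l => algebraMap k K (cm l)) hRd
    hRV (r := c) (fun a => by
      obtain ⟨l, hl⟩ := hopen a
      obtain ⟨E, G, hE, hli, hG, hgen⟩ := Obs_smoothK D (hVa a) hl
      refine ⟨E, hE, ?_, fun P hP => ⟨G, ?_, hgen P hP⟩⟩
      · convert hli using 3
        rw [ObsR.dif, Obs_eval]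
      · intro h0
        apply hG
        rw [← Obs_eval, h0, eval_zero])
    (fun x hx => ObsR.inf_of_indep (ObsR.markW R (fun l => algebraMap k K (cm l))) _ hli
      (fun x hx j => by
        have h1 : dif (Ei j) xi x = 0 := by
          rw [hdec]
          refine Finset.sum_eq_zero fun e _ => ?_
          have hEh := MvPolynomial.homogeneousComponent_isHomogeneous e (Ei j)
          rw [← hdifinf _ e hEh]
          exact hx _ (hhom _ (hEi j) e) e hEh
        exact h1)
      s (fun b => by
        refine Fin.cases ?_ (fun j => ?_) b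
        · exact fun m => ⟨1, fun i => by rw [one_mul]; rfl⟩
        · intro m
          obtain ⟨a, ha⟩ := hg.mark j m
          refine ⟨algebraMap k K (cm m) * a, fun i => ?_⟩
          rw [hs, Fin.cons_succ, eval_mul, eval_X, ha, mul_assoc])
      (fun b => ⟨hsd b, fun E hE => hst b E hE⟩)
      (fun b j => htinf (s b) (hsd b) (hst b) (Ei j) (hEi j))
      (by
        rw [hfe]
        exact hg.ind)
      (by
        rw [Fintype.card_fin, Fintype.card_fin]
        have := D.hc
        omega) x hx)
    (o := o) ⟨ho_add, ho_mul⟩ ho_cm ho_deg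
  exact ⟨δ, hδd, fun E hE => hδ E hE, fun l => hδW l⟩

/-- [F-OBS] obstruction lemma with marks, over an algebraically closed field `K`. -/
theorem obs [IsAlgClosed k] (D : VData k N n c) {K : Type} [Field K] [IsAlgClosed K]
    [Algebra k K] {d w : ℕ} {R : Fin (N + 1) → K[X]} (hR : Curve D d R) (cm : Fin w → k)
    (hcm : Function.Injective cm) {g : Fin n → Fin (N + 1) → K[X]} (hg : Sec D d R cm g)
    (o : MvPolynomial (Fin (N + 1)) k → K[X])
    (ho_add : ∀ E ∈ van D.V, ∀ E' ∈ van D.V, o (E + E') = o E + o E')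
    (ho_mul : ∀ G, ∀ E ∈ van D.V, o (G * E) = MvPolynomial.aeval R G * o E)
    (ho_deg : ∀ E ∈ van D.V, ∀ e, E.IsHomogeneous e → (o E).natDegree ≤ d * e)
    (ho_cm : ∀ E ∈ van D.V, ∀ l, (o E).eval (algebraMap k K (cm l)) = 0) :
    ∃ δ : Fin (N + 1) → K[X], (∀ i, (δ i).natDegree ≤ d) ∧ (∀ E ∈ van D.V, dif E R δ = o E) ∧
      ∀ l, ∃ a : K, ∀ i, (δ i).eval (algebraMap k K (cm l)) =
        a * (R i).eval (algebraMap k K (cm l)) := by
  have _ := hcm
  exact Obs_main D D.hom hR cm hg o ho_add ho_mul ho_deg ho_cm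

end Main

end Pool.Agent.VFF
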