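import Pool.Agent.Lib_MP_1858fb_f.FDefs
import Pool.Agent.Lib_MP_1858fb_w.FormalInt

/-!
# MP_1858fb_ag, line F: the step of order `j` in the formal deformation with moving ends and marks
(core, with the obstruction lemma and the correction by sections as hypotheses)
-/

namespace Pool.Agent.VFF

open Pool.Agent.VF Polynomial

namespace FDStep

variable {k : Type} [Field k] {N n c : ℕ}

theorem map_aeval_ring {A B : Type} [CommRing A] [Algebra k A] [CommRing B] [Algebra k B]
    (φ : A →+* B) (hφ : ∀ a : k, φ (algebraMap k A a) = algebraMap k B a) {M : Type}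
    (F : M → A) (E : MvPolynomial M k) :
    φ (MvPolynomial.aeval F E) = MvPolynomial.aeval (fun i => φ (F i)) E := by
  induction E using MvPolynomial.induction_on with
  | C a => rw [MvPolynomial.aeval_C, MvPolynomial.aeval_C, hφ]
  | add p q hp hq => rw [map_add, map_add, map_add, hp, hq]
  | mul_X p i hp =>
    rw [map_mul, map_mul, map_mul, hp, MvPolynomial.aeval_X, MvPolynomial.aeval_X]

theorem aeval_scale {A : Type} [CommRing A] [Algebra k A] (s : A) (x : Fin (N + 1) → A)
    {E : MvPolynomial (Fin (N + 1)) k} {e : ℕ} (hE : E.IsHomogeneous e) :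
    MvPolynomial.aeval (fun i => s * x i) E = s ^ e * MvPolynomial.aeval x E := by
  rw [MvPolynomial.aeval_def, MvPolynomial.aeval_def, MvPolynomial.eval₂_eq',
    MvPolynomial.eval₂_eq', Finset.mul_sum]
  refine Finset.sum_congr rfl fun t ht => ?_
  have h1 : ∑ i, t i = e := by
    have := hE (MvPolynomial.mem_support_iff.1 ht)
    rw [Finsupp.weight_apply, Finsupp.sum_fintype] at this
    · simpa using this
    · simp
  simp only [mul_pow]
  rw [Finset.prod_mul_distrib, Finset.prod_pow_eq_pow_sum, h1]
  ring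

/-- `E` vanishes at the multiples of a point where `van V` vanishes -/
theorem aeval_scale_zero (D : VData k N n c) {A : Type} [CommRing A] [Algebra k A] (s : A)
    (x : Fin (N + 1) → A) (hx : OnV D.V x) {E : MvPolynomial (Fin (N + 1)) k} (hE : E ∈ van D.V) :
    MvPolynomial.aeval (fun i => s * x i) E = 0 := by
  rw [← MvPolynomial.sum_homogeneousComponent E, map_sum]
  refine Finset.sum_eq_zero fun e _ => ?_
  rw [aeval_scale s x (MvPolynomial.homogeneousComponent_isHomogeneous e E), hx _ (D.hom E hE e),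
    mul_zero]

theorem coeff_lin_poly {K : Type} [Field K] [Algebra k K] (l : Fin (N + 1) → k) (r : ℕ)
    (x y : Fin (N + 1) → K[X]) :
    lin l (fun i => (x i + y i).coeff r) = lin l (fun i => (x i).coeff r) +
      lin l (fun i => (y i).coeff r) := by
  simp only [lin, coeff_add, mul_add, Finset.sum_add_distrib]

/-- the step of order `j`, core -/
theorem core (D : VData k N n c) {K : Type} [Field K]
    [Algebra k K] {d w : ℕ} {R : Fin (N + 1) → K[X]} (hR : OnV D.V R) (cm : Fin w → k)
    (hobs : ∀ o : MvPolynomial (Fin (N + 1)) k → K[X],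
      (∀ E ∈ van D.V, ∀ E' ∈ van D.V, o (E + E') = o E + o E') →
      (∀ G, ∀ E ∈ van D.V, o (G * E) = MvPolynomial.aeval R G * o E) →
      (∀ E ∈ van D.V, ∀ e, E.IsHomogeneous e → (o E).natDegree ≤ d * e) →
      (∀ E ∈ van D.V, ∀ l, (o E).eval (algebraMap k K (cm l)) = 0) →
      ∃ δ : Fin (N + 1) → K[X], (∀ i, (δ i).natDegree ≤ d) ∧ (∀ E ∈ van D.V, dif E R δ = o E) ∧
        ∀ l, ∃ a : K, ∀ i, (δ i).eval (algebraMap k K (cm l)) =
          a * (R i).eval (algebraMap k K (cm l)))
    {y : Fin (N + 1) → k} (fy : FrameAt D y)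
    (α : Fin (N + 1) → K) 
    (l : Fin (n + 1) → Fin (N + 1) → k)
    (hcorr : ∀ (r : Fin (n + 1) → K) (s : Fin n → K),
      ∃ σ : Fin (N + 1) → K[X], (∀ i, (σ i).natDegree ≤ d) ∧ Tang D.V R σ ∧
      (∀ l', ∃ a : K, ∀ i, (σ i).eval (algebraMap k K (cm l')) =
        a * (R i).eval (algebraMap k K (cm l'))) ∧
      (∀ a, lin (fy.l a) (fun i => (σ i).coeff 0) = r a) ∧
      ∀ i : Fin n, lin (l i.succ) (fun i' => (σ i').coeff d) -
        lin (l i.succ) α * lin (l 0) (fun i' => (σ i').coeff d) = s i)
    {p : ℕ} (r : Fin (n + 1) → MvPowerSeries (Fin p) K) (s : Fin n → MvPowerSeries (Fin p) K)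
    (hs : ∀ i, MvPowerSeries.constantCoeff (s i) = lin (l i.succ) α)
    {j : ℕ} (hj : 0 < j) (F : Fin (N + 1) → MvPowerSeries (Fin p) K[X])
    (hFd : ∀ i m, (MvPowerSeries.coeff m (F i)).natDegree ≤ d)
    (hF0 : ∀ i, MvPowerSeries.constantCoeff (F i) = R i)
    (hFj : ∀ i m, j ≤ m.degree → MvPowerSeries.coeff m (F i) = 0)
    (hFm : ∀ m l', ∃ a : K, ∀ i, (MvPowerSeries.coeff m (F i)).eval (algebraMap k K (cm l')) =
      a * (R i).eval (algebraMap k K (cm l')))
    (hFE : ∀ E' ∈ van D.V, ∀ m, m.degree < j →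
      MvPowerSeries.coeff m (MvPolynomial.aeval F E') = 0) :
    ∃ δ : Fin (N + 1) → MvPowerSeries (Fin p) K[X],
      (∀ i m, m.degree ≠ j → MvPowerSeries.coeff m (δ i) = 0) ∧
      (∀ i m, (MvPowerSeries.coeff m (δ i)).natDegree ≤ d) ∧
      (∀ m l', ∃ a : K, ∀ i, (MvPowerSeries.coeff m (δ i)).eval (algebraMap k K (cm l')) =
        a * (R i).eval (algebraMap k K (cm l'))) ∧
      (∀ E' ∈ van D.V, ∀ m, m.degree ≤ j →
        MvPowerSeries.coeff m (MvPolynomial.aeval (fun i => F i + δ i) E') = 0) ∧
      (∀ a m, m.degree = j →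
        lin (fy.l a) (fun i => (MvPowerSeries.coeff m (F i + δ i)).coeff 0) =
          MvPowerSeries.coeff m (r a)) ∧
      ∀ (i : Fin n) m, m.degree = j →
        lin (l i.succ) (fun i' => (MvPowerSeries.coeff m (F i' + δ i')).coeff d) =
          ∑ q ∈ Finset.HasAntidiagonal.antidiagonal m, MvPowerSeries.coeff q.1 (s i) *
            lin (l 0) (fun i' => (MvPowerSeries.coeff q.2 (F i' + δ i')).coeff d) := by
  classical
  -- the marks
  have hmark : ∀ E ∈ van D.V, ∀ (m : Fin p →₀ ℕ) (l' : Fin w),
      (MvPowerSeries.coeff m (MvPolynomial.aeval F E)).eval (algebraMap k K (cm l')) = 0 := by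
    intro E hE m l'
    set x : K := algebraMap k K (cm l') with hx
    let φ : MvPowerSeries (Fin p) K[X] →+* MvPowerSeries (Fin p) K :=
      MvPowerSeries.map (Polynomial.evalRingHom x)
    have hφ : ∀ a : k, φ (algebraMap k (MvPowerSeries (Fin p) K[X]) a) =
        algebraMap k (MvPowerSeries (Fin p) K) a := by
      intro a
      simp only [φ]
      rw [MvPowerSeries.algebraMap_apply, MvPowerSeries.algebraMap_apply, MvPowerSeries.map_C,
        Polynomial.algebraMap_apply]
      simp
    choose am ham using fun m => hFm m l'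
    let S : MvPowerSeries (Fin p) K := fun m => am m
    have hS : ∀ m, MvPowerSeries.coeff m S = am m := fun m => rfl
    have hFS : (fun i => φ (F i)) = fun i => S * MvPowerSeries.C ((R i).eval x) := by
      funext i
      ext m
      rw [MvPowerSeries.coeff_mul_C, hS, ← ham m i]
      simp only [φ]
      rw [MvPowerSeries.coeff_map]
      rfl
    have h1 : MvPowerSeries.coeff m (φ (MvPolynomial.aeval F E)) =
        (MvPowerSeries.coeff m (MvPolynomial.aeval F E)).eval x := by
      simp only [φ]
      rw [MvPowerSeries.coeff_map]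
      rfl
    rw [← h1, map_aeval_ring φ hφ, hFS, aeval_scale_zero D S _ _ hE, map_zero]
    intro E' hE'
    have h2 := hR E' hE'
    let ψ : K[X] →+* MvPowerSeries (Fin p) K :=
      (MvPowerSeries.C (σ := Fin p) (R := K)).comp (Polynomial.evalRingHom x)
    have hψ : ∀ a : k, ψ (algebraMap k K[X] a) = algebraMap k (MvPowerSeries (Fin p) K) a := by
      intro a
      simp only [ψ, RingHom.comp_apply]
      rw [MvPowerSeries.algebraMap_apply, Polynomial.algebraMap_apply]
      simp
    have h3 := map_aeval_ring ψ hψ R E'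
    rw [h2, map_zero] at h3
    exact h3.symm
  -- the corrections at every exponent of degree j
  have hsol : ∀ m : Fin p →₀ ℕ, m.degree = j → ∃ δ : Fin (N + 1) → K[X],
      (∀ i, (δ i).natDegree ≤ d) ∧
      (∀ E ∈ van D.V, dif E R δ = - MvPowerSeries.coeff m (MvPolynomial.aeval F E)) ∧
      (∀ l', ∃ a : K, ∀ i, (δ i).eval (algebraMap k K (cm l')) =
        a * (R i).eval (algebraMap k K (cm l'))) ∧
      (∀ a, lin (fy.l a) (fun i => (δ i).coeff 0) = MvPowerSeries.coeff m (r a)) ∧
      ∀ i : Fin n, lin (l i.succ) (fun i' => (δ i').coeff d) -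
        lin (l i.succ) α * lin (l 0) (fun i' => (δ i').coeff d) =
        ∑ q ∈ Finset.HasAntidiagonal.antidiagonal m, MvPowerSeries.coeff q.1 (s i) *
            lin (l 0) (fun i' => (MvPowerSeries.coeff q.2 (F i')).coeff d) := by
    intro m hm
    obtain ⟨δ1, hδd, hδE, hδm⟩ := hobs (fun E => - MvPowerSeries.coeff m (MvPolynomial.aeval F E))
      (by
        intro E _ E' _
        show - MvPowerSeries.coeff m (MvPolynomial.aeval F (E + E')) = _
        rw [map_add, map_add]
        ring)
      (by
        intro G E hE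
        show - MvPowerSeries.coeff m (MvPolynomial.aeval F (G * E)) =
          MvPolynomial.aeval R G * - MvPowerSeries.coeff m (MvPolynomial.aeval F E)
        rw [map_mul, Pool.Agent.VF.Fm.coeff_mul_of_mem_J _ (k := j)
          (fun μ hμ => hFE E hE μ hμ) hm, Pool.Agent.VF.FmInt.constantCoeff_aeval]
        simp only [hF0]
        ring)
      (by
        intro E _ e he
        show (- MvPowerSeries.coeff m (MvPolynomial.aeval F E)).natDegree ≤ d * e
        rw [natDegree_neg]
        exact Pool.Agent.VF.FmInt.degLE_aeval (fun i μ => hFd i μ) he m)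
      (by
        intro E hE l'
        show (- MvPowerSeries.coeff m (MvPolynomial.aeval F E)).eval _ = 0
        rw [eval_neg, hmark E hE m l', neg_zero])
    obtain ⟨σ1, hσd, hσT, hσm, hσ0, hσ1⟩ := hcorr
      (fun a => MvPowerSeries.coeff m (r a) - lin (fy.l a) (fun i => (δ1 i).coeff 0))
      (fun i => (∑ q ∈ Finset.HasAntidiagonal.antidiagonal m, MvPowerSeries.coeff q.1 (s i) *
            lin (l 0) (fun i' => (MvPowerSeries.coeff q.2 (F i')).coeff d)) -
        (lin (l i.succ) (fun i' => (δ1 i').coeff d) -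
        lin (l i.succ) α * lin (l 0) (fun i' => (δ1 i').coeff d)))
    refine ⟨fun i => δ1 i + σ1 i, fun i => ?_, fun E hE => ?_, fun l' => ?_, fun a => ?_,
      fun i => ?_⟩
    · exact (natDegree_add_le _ _).trans (max_le (hδd i) (hσd i))
    · have h1 := hδE E hE
      have h2 := hσT E hE
      simp only [dif] at h1 h2 ⊢
      simp only [mul_add, Finset.sum_add_distrib]
      rw [h1, h2, add_zero]
    · obtain ⟨a1, ha1⟩ := hδm l'
      obtain ⟨a2, ha2⟩ := hσm l'
      refine ⟨a1 + a2, fun i => ?_⟩
      rw [eval_add, ha1 i, ha2 i]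
      ring
    · rw [coeff_lin_poly, hσ0 a]
      ring
    · rw [coeff_lin_poly, coeff_lin_poly]
      have := hσ1 i
      linear_combination this
  choose! δ hδd hδE hδm hδ0 hδ1 using hsol
  set Δ : Fin (N + 1) → MvPowerSeries (Fin p) K[X] :=
    fun i m => if m.degree = j then δ m i else 0 with hΔdef
  have hcΔ : ∀ i m, MvPowerSeries.coeff m (Δ i) = if m.degree = j then δ m i else 0 :=
    fun i m => rfl
  have hΔJ : ∀ i, Δ i ∈ Pool.Agent.VF.Fm.J (Fin p) K[X] j := by
    intro i m hm
    rw [hcΔ, if_neg (by omega)]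
  refine ⟨Δ, fun i m hm => ?_, fun i m => ?_, fun m l' => ?_, fun E hE m hm => ?_,
    fun a m hm => ?_, fun i m hm => ?_⟩
  · rw [hcΔ, if_neg hm]
  · rw [hcΔ]
    split_ifs with h
    · exact hδd m h i
    · simp
  · by_cases h : m.degree = j
    · obtain ⟨a, ha⟩ := hδm m h l'
      refine ⟨a, fun i => ?_⟩
      rw [hcΔ, if_pos h]
      exact ha i
    · refine ⟨0, fun i => ?_⟩
      rw [hcΔ, if_neg h]
      simp
  · have h1 := Pool.Agent.VF.Fm.taylor_mem (Pool.Agent.VF.Fm.J (Fin p) K[X] j)
      (Pool.Agent.VF.Fm.J (Fin p) K[X] (j + j))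
      (fun x hx y hy => Pool.Agent.VF.Fm.mul_mem_J hx hy) F Δ hΔJ E m (by omega)
    rw [map_sub, map_sub, sub_sub, sub_eq_zero] at h1
    rw [h1]
    rcases Nat.lt_or_ge m.degree j with h2 | h2
    · rw [hFE E hE m h2, zero_add]
      exact (Pool.Agent.VF.Fm.J (Fin p) K[X] j).sum_mem
        (fun i _ => (Pool.Agent.VF.Fm.J (Fin p) K[X] j).mul_mem_left _ (hΔJ i)) m h2
    · have h3 : m.degree = j := by omega
      rw [map_sum]
      have h4 : ∀ i, MvPowerSeries.coeff m
          (MvPolynomial.aeval F (MvPolynomial.pderiv i E) * Δ i) =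
          MvPolynomial.aeval R (MvPolynomial.pderiv i E) * δ m i := by
        intro i
        rw [Pool.Agent.VF.Fm.coeff_mul_of_mem_J _ (hΔJ i) h3,
          Pool.Agent.VF.FmInt.constantCoeff_aeval, hcΔ, if_pos h3]
        simp only [hF0]
      simp only [h4]
      have h5 := hδE m h3 E hE
      rw [dif] at h5
      rw [h5]
      ring
  · have h1 : (fun i => (MvPowerSeries.coeff m (F i + Δ i)).coeff 0) =
        fun i => (δ m i).coeff 0 := by
      funext i
      rw [map_add, hFj i m (by omega), zero_add, hcΔ, if_pos hm]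
    rw [h1, hδ0 m hm a]
  · have h1 : (fun i' => (MvPowerSeries.coeff m (F i' + Δ i')).coeff d) =
        fun i' => (δ m i').coeff d := by
      funext i'
      rw [map_add, hFj i' m (by omega), zero_add, hcΔ, if_pos hm]
    rw [h1]
    have h2 := hδ1 m hm i
    have h3 : (∑ q ∈ Finset.HasAntidiagonal.antidiagonal m, MvPowerSeries.coeff q.1 (s i) *
            lin (l 0) (fun i' => (MvPowerSeries.coeff q.2 (F i' + Δ i')).coeff d)) =
        (∑ q ∈ Finset.HasAntidiagonal.antidiagonal m, MvPowerSeries.coeff q.1 (s i) *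
            lin (l 0) (fun i' => (MvPowerSeries.coeff q.2 (F i')).coeff d)) +
        ∑ q ∈ Finset.HasAntidiagonal.antidiagonal m, MvPowerSeries.coeff q.1 (s i) *
            lin (l 0) (fun i' => (MvPowerSeries.coeff q.2 (Δ i')).coeff d) := by
      rw [← Finset.sum_add_distrib]
      refine Finset.sum_congr rfl fun q _ => ?_
      simp only [map_add]
      rw [coeff_lin_poly]
      ring
    have h4 : (∑ q ∈ Finset.HasAntidiagonal.antidiagonal m, MvPowerSeries.coeff q.1 (s i) *
            lin (l 0) (fun i' => (MvPowerSeries.coeff q.2 (Δ i')).coeff d)) =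
        lin (l i.succ) α * lin (l 0) (fun i' => (δ m i').coeff d) := by
      rw [Finset.sum_eq_single (0, m)]
      · have e1 : (fun i' => (MvPowerSeries.coeff m (Δ i')).coeff d) =
            fun i' => (δ m i').coeff d := by
          funext i'
          rw [hcΔ, if_pos hm]
        simp only [e1]
        rw [MvPowerSeries.coeff_zero_eq_constantCoeff_apply, hs i]
      · intro q hq hne
        rw [Finset.HasAntidiagonal.mem_antidiagonal] at hq
        have h5 : q.1.degree + q.2.degree = m.degree := by rw [← hq, map_add]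
        have h6 : q.2.degree ≠ j := by
          intro h6
          apply hne
          have h7 : q.1 = 0 := (Finsupp.degree_eq_zero_iff q.1).1 (by omega)
          rw [h7, zero_add] at hq
          exact Prod.ext h7 hq
        have e1 : (fun i' => (MvPowerSeries.coeff q.2 (Δ i')).coeff d) = fun _ => (0 : K) := by
          funext i'
          rw [hcΔ, if_neg h6, coeff_zero]
        rw [e1]
        simp [lin]
      · intro h
        exact absurd (Finset.HasAntidiagonal.mem_antidiagonal.2 (zero_add m)) h
    rw [h3, h4]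
    linear_combination h2

end FDStep

end Pool.Agent.VFF
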