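import Pool.Agent.Lib_MP_1858fb_f.FDefs

/-! # MP_1858fb_ag, line F: STUBS of the parts of F-FD (helper81, helper2, helper42) -/

namespace Pool.Agent.VFF

open Pool.Agent.VF Polynomial

variable {k : Type} [Field k] {N n c : ℕ}

/-- (B) [FDCorr.lean, helper2] sections with prescribed ends -/
theorem fd_corr [IsAlgClosed k] (D : VData k N n c) {K : Type} [Field K] [IsAlgClosed K]
    [Algebra k K] {d w : ℕ} {R : Fin (N + 1) → K[X]} (hR : Curve D d R) (cm : Fin w → k)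
    (hcm : Function.Injective cm) (hcm0 : ∀ l, cm l ≠ 0)
    {g : Fin n → Fin (N + 1) → K[X]} (hg : Sec D d R cm g)
    {y : Fin (N + 1) → k} (hy : y ∈ D.V) (fy : FrameAt D y) (ρ0 : K) (hρ0 : ρ0 ≠ 0)
    (hR0 : ∀ i, (R i).coeff 0 = ρ0 * algebraMap k K (y i))
    (α : Fin (N + 1) → K) (ρ1 : K) (hρ1 : ρ1 ≠ 0) (hR1 : ∀ i, (R i).coeff d = ρ1 * α i)
    (l : Fin (n + 1) → Fin (N + 1) → k) (E : Fin c → MvPolynomial (Fin (N + 1)) k)
    (hα0 : lin (l 0) α = 1) (μ : K) (hμ : μ ≠ 0) (hfr : Frame D.V l E α μ)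
    (r : Fin (n + 1) → K) (s : Fin n → K) :
    ∃ σ : Fin (N + 1) → K[X], (∀ i, (σ i).natDegree ≤ d) ∧ Tang D.V R σ ∧
      (∀ l', ∃ a : K, ∀ i, (σ i).eval (algebraMap k K (cm l')) =
        a * (R i).eval (algebraMap k K (cm l'))) ∧
      (∀ a, lin (fy.l a) (fun i => (σ i).coeff 0) = r a) ∧
      ∀ i : Fin n, lin (l i.succ) (fun i' => (σ i').coeff d) -
        lin (l i.succ) α * lin (l 0) (fun i' => (σ i').coeff d) = s i := by
  sorry

/-- (C) [FDStep.lean, helper42] the step of order `j`: `F` has only terms of order `< j`. -/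
theorem fd_step [IsAlgClosed k] (D : VData k N n c) {K : Type} [Field K] [IsAlgClosed K]
    [Algebra k K] {d w : ℕ} {R : Fin (N + 1) → K[X]} (hR : Curve D d R) (cm : Fin w → k)
    (hcm : Function.Injective cm) (hcm0 : ∀ l, cm l ≠ 0)
    {g : Fin n → Fin (N + 1) → K[X]} (hg : Sec D d R cm g)
    {y : Fin (N + 1) → k} (hy : y ∈ D.V) (fy : FrameAt D y) (ρ0 : K) (hρ0 : ρ0 ≠ 0)
    (hR0 : ∀ i, (R i).coeff 0 = ρ0 * algebraMap k K (y i))
    (α : Fin (N + 1) → K) (ρ1 : K) (hρ1 : ρ1 ≠ 0) (hR1 : ∀ i, (R i).coeff d = ρ1 * α i)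
    (l : Fin (n + 1) → Fin (N + 1) → k) (E : Fin c → MvPolynomial (Fin (N + 1)) k)
    (hα0 : lin (l 0) α = 1) (μ : K) (hμ : μ ≠ 0) (hfr : Frame D.V l E α μ)
    {p : ℕ} (r : Fin (n + 1) → MvPowerSeries (Fin p) K) (s : Fin n → MvPowerSeries (Fin p) K)
    (hs : ∀ i, MvPowerSeries.constantCoeff (s i) = lin (l i.succ) α)
    {j : ℕ} (hj : 0 < j) (F : Fin (N + 1) → MvPowerSeries (Fin p) K[X])
    (hFd : ∀ i m, (MvPowerSeries.coeff m (F i)).natDegree ≤ d)
    (hF0 : ∀ i, MvPowerSeries.constantCoeff (F i) = R i)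
    (hFj : ∀ i m, j ≤ m.degree → MvPowerSeries.coeff m (F i) = 0)
    (hFm : ∀ m l', ∃ a : K, ∀ i, (MvPowerSeries.coeff m (F i)).eval (algebraMap k K (cm l')) =
      a * (R i).eval (algebraMap k K (cm l')))
    (hFE : ∀ E' ∈ van D.V, ∀ m, m.degree < j →
      MvPowerSeries.coeff m (MvPolynomial.aeval F E') = 0) :
    ∃ δ : Fin (N + 1) → MvPowerSeries (Fin p) K[X],
      (∀ i m, m.degree ≠ j → MvPowerSeries.coeff m (δ i) = 0) ∧
      (∀ i m, (MvPowerSeries.coeff m (δ i)).natDegree ≤ d) ∧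
      (∀ m l', ∃ a : K, ∀ i, (MvPowerSeries.coeff m (δ i)).eval (algebraMap k K (cm l')) =
        a * (R i).eval (algebraMap k K (cm l'))) ∧
      (∀ E' ∈ van D.V, ∀ m, m.degree ≤ j →
        MvPowerSeries.coeff m (MvPolynomial.aeval (fun i => F i + δ i) E') = 0) ∧
      (∀ a m, m.degree = j →
        lin (fy.l a) (fun i => (MvPowerSeries.coeff m (F i + δ i)).coeff 0) =
          MvPowerSeries.coeff m (r a)) ∧
      ∀ (i : Fin n) m, m.degree = j →
        lin (l i.succ) (fun i' => (MvPowerSeries.coeff m (F i' + δ i')).coeff d) =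
          ∑ q ∈ Finset.HasAntidiagonal.antidiagonal m, MvPowerSeries.coeff q.1 (s i) *
            lin (l 0) (fun i' => (MvPowerSeries.coeff q.2 (F i' + δ i')).coeff d) := by
  sorry

end Pool.Agent.VFF
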