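import Pool.Agent.Lib_MP_1858fb_f.FDBase
import Pool.Agent.Lib_MP_1858fb_f.FDStep
import Pool.Agent.Lib_MP_1858fb_w.Formal
import Pool.Agent.Lib_MP_1858fb_w.Bridge

/-! # MP_1858fb_ag, line F, piece F-FD: the correction of order `j` for the polynomial system -/

namespace Pool.Agent.VFF

open Pool.Agent.VF Pool.Agent.VF.Fm Pool.Agent.VF.Br Polynomial

section small

variable {k : Type} [Field k] {N n c d w p : ℕ}

theorem fdEq_congr (T : Finset (MvPolynomial (Fin (N + 1)) k))
    (b : MvPolynomial (Fin (N + 1)) k → ℕ) (cm : Fin w → k) (vs : Fin w → Fin (N + 1) → k)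
    (l0 l1 : Fin (n + 1) → Fin (N + 1) → k) (a0 a1 : Fin n → Fin p → k)
    {A : Type} [CommRing A] [Algebra k A] (𝔞 : Ideal A) (ρ : A) (la : Fin n → A)
    (x x' : Fin ((N + 1) * (d + 1)) → A) (hx : ∀ a, x a - x' a ∈ 𝔞) (ξ : Fin p → A)
    (s : fdS T b n w) :
    fdEq d T b cm vs l0 l1 a0 a1 ρ la x ξ s - fdEq d T b cm vs l0 l1 a0 a1 ρ la x' ξ s ∈ 𝔞 := by
  rw [← Ideal.Quotient.eq]
  have hφ : ∀ c : k, Ideal.Quotient.mk 𝔞 (algebraMap k A c) = algebraMap k (A ⧸ 𝔞) c :=
    fun c => rfl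
  rw [fdEq_map T b cm vs l0 l1 a0 a1 (Ideal.Quotient.mk 𝔞) hφ,
    fdEq_map T b cm vs l0 l1 a0 a1 (Ideal.Quotient.mk 𝔞) hφ]
  have h : (fun a => Ideal.Quotient.mk 𝔞 (x a)) = fun a => Ideal.Quotient.mk 𝔞 (x' a) := by
    funext a
    exact Ideal.Quotient.eq.2 (hx a)
  rw [h]

theorem fd_natDegree_aeval {A : Type} [CommRing A] [Algebra k A] {F : Fin (N + 1) → A[X]}
    (hF : ∀ i, (F i).natDegree ≤ d) (E : MvPolynomial (Fin (N + 1)) k) :
    (MvPolynomial.aeval F E).natDegree ≤ d * E.totalDegree := by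
  rw [MvPolynomial.aeval_def, MvPolynomial.eval₂_eq']
  refine natDegree_sum_le_of_forall_le _ _ fun s hs => ?_
  refine natDegree_mul_le.trans ?_
  rw [Polynomial.algebraMap_apply, natDegree_C, zero_add]
  refine (natDegree_prod_le _ _).trans ?_
  have h1 : ∑ i, ((F i) ^ (s i)).natDegree ≤ ∑ i, s i * d :=
    Finset.sum_le_sum fun i _ => natDegree_pow_le.trans (Nat.mul_le_mul_left _ (hF i))
  refine h1.trans ?_
  rw [← Finset.sum_mul, mul_comm]
  refine Nat.mul_le_mul_left _ ?_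
  have h2 := MvPolynomial.le_totalDegree hs
  rwa [Finsupp.sum_fintype _ _ (fun _ => rfl)] at h2

variable {K : Type} [Field K] [Algebra k K] {σ : Type}

theorem fd_sw_algebraMap (a : k) :
    (sw : (MvPowerSeries σ K)[X] →+* MvPowerSeries σ K[X])
      (algebraMap k (MvPowerSeries σ K)[X] a) = algebraMap k (MvPowerSeries σ K[X]) a := by
  rw [Polynomial.algebraMap_apply, sw, Polynomial.coe_eval₂RingHom, Polynomial.eval₂_C,
    MvPowerSeries.algebraMap_apply, MvPowerSeries.algebraMap_apply, MvPowerSeries.map_C]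
  rfl

theorem fd_sw_aeval (u : Fin (N + 1) → (MvPowerSeries σ K)[X])
    (E : MvPolynomial (Fin (N + 1)) k) :
    sw (MvPolynomial.aeval u E) = MvPolynomial.aeval (fun i => sw (u i)) E :=
  fdMap_aeval' (k := k) (sw : (MvPowerSeries σ K)[X] →+* MvPowerSeries σ K[X])
    fd_sw_algebraMap E u

theorem fd_eval_sw (u : (MvPowerSeries σ K)[X]) (t : K) (m : σ →₀ ℕ) :
    MvPowerSeries.coeff m (u.eval (MvPowerSeries.C t)) = (MvPowerSeries.coeff m (sw u)).eval t := by
  induction u using Polynomial.induction_on' with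
  | add u v hu hv => rw [eval_add, map_add, hu, hv, map_add, map_add, eval_add]
  | monomial a f =>
    have h1 : MvPowerSeries.coeff m (sw (monomial a f)) = C (MvPowerSeries.coeff m f) * X ^ a := by
      ext n
      rw [sw_coeff, coeff_monomial, coeff_C_mul_X_pow]
      by_cases h : a = n
      · rw [if_pos h, if_pos h.symm]
      · rw [if_neg h, if_neg (fun h' => h h'.symm), map_zero]
    rw [h1, eval_monomial, ← map_pow, MvPowerSeries.coeff_mul_C, eval_mul, eval_C, eval_pow,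
      eval_X]

theorem fd_coeff_lin (l : Fin (N + 1) → k) (u : Fin (N + 1) → MvPowerSeries σ K) (m : σ →₀ ℕ) :
    MvPowerSeries.coeff m (lin l u) = lin l (fun i => MvPowerSeries.coeff m (u i)) := by
  simp only [lin, map_sum]
  refine Finset.sum_congr rfl fun i _ => ?_
  rw [MvPowerSeries.algebraMap_apply, MvPowerSeries.coeff_C_mul]

/-- two vectors in the line of `v` -/
theorem fd_prop {v : Fin (N + 1) → k} (hv : ∃ i, v i ≠ 0) {x y : Fin (N + 1) → K}
    (hx : Prop' v x) (hy : Prop' v y) (hy0 : ∃ i, y i ≠ 0) : ∃ a : K, ∀ i, x i = a * y i := by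
  obtain ⟨i0, hi0⟩ := hv
  have hv0 : algebraMap k K (v i0) ≠ 0 := by
    rw [Ne, map_eq_zero]; exact hi0
  have hyi : y i0 ≠ 0 := by
    intro h
    obtain ⟨i1, hi1⟩ := hy0
    have h1 := hy i1 i0
    rw [h, zero_mul] at h1
    rcases mul_eq_zero.1 h1 with h2 | h2
    · exact hi1 h2
    · exact hv0 h2
  refine ⟨x i0 / y i0, fun i => ?_⟩
  have h1 := hx i i0
  have h2 := hy i i0
  have h3 : x i = x i0 * algebraMap k K (v i) / algebraMap k K (v i0) := by
    rw [eq_div_iff hv0]; exact h1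
  have h4 : y i = y i0 * algebraMap k K (v i) / algebraMap k K (v i0) := by
    rw [eq_div_iff hv0]; exact h2
  rw [h3, h4]
  field_simp

end small

section hU

variable {k : Type} [Field k] {N n c : ℕ}

theorem fd_hU [IsAlgClosed k] (D : VData k N n c) {K : Type} [Field K] [IsAlgClosed K]
    [Algebra k K] {d w : ℕ} {R : Fin (N + 1) → K[X]} (hR : Curve D d R) (cm : Fin w → k)
    (hcm : Function.Injective cm) (hcm0 : ∀ l, cm l ≠ 0) (vs : Fin w → Fin (N + 1) → k)
    (hvs : ∀ l, vs l ∈ D.V)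
    (hRm : ∀ l, Prop' (vs l) (fun i => (R i).eval (algebraMap k K (cm l))))
    {g : Fin n → Fin (N + 1) → K[X]} (hg : Sec D d R cm g)
    {y : Fin (N + 1) → k} (hy : y ∈ D.V) (fy : FrameAt D y) (ρ0 : K) (hρ0 : ρ0 ≠ 0)
    (hR0 : ∀ i, (R i).coeff 0 = ρ0 * algebraMap k K (y i))
    (α : Fin (N + 1) → K) (ρ1 : K) (hρ1 : ρ1 ≠ 0) (hR1 : ∀ i, (R i).coeff d = ρ1 * α i)
    (l : Fin (n + 1) → Fin (N + 1) → k) (E : Fin c → MvPolynomial (Fin (N + 1)) k)
    (hα0 : lin (l 0) α = 1) (μ : K) (hμ : μ ≠ 0) (hfr : Frame D.V l E α μ)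
    {p : ℕ} (a b : Fin n → Fin p → k)
    (T : Finset (MvPolynomial (Fin (N + 1)) k)) (hT : Ideal.span (T : Set _) = van D.V)
    {j : ℕ} (hj : 0 < j) (x : Fin ((N + 1) * (d + 1)) → MvPowerSeries (Fin p) K)
    (hx0 : ∀ i, MvPowerSeries.constantCoeff (x i) = fdCo N d R i)
    (hx : ∀ s, ∀ m : Fin p →₀ ℕ, m.degree < j → MvPowerSeries.coeff m
      (fdEq d T (fun E => d * E.totalDegree) cm vs fy.l l a b (MvPowerSeries.C ρ0)
        (fun j => MvPowerSeries.C (lin (l j.succ) α)) x (fun q => MvPowerSeries.X q) s) = 0) :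
    ∃ δ : Fin ((N + 1) * (d + 1)) → MvPowerSeries (Fin p) K,
      (∀ i, ∀ m : Fin p →₀ ℕ, m.degree ≠ j → MvPowerSeries.coeff m (δ i) = 0) ∧
      ∀ s, ∀ m : Fin p →₀ ℕ, m.degree ≤ j → MvPowerSeries.coeff m
        (fdEq d T (fun E => d * E.totalDegree) cm vs fy.l l a b (MvPowerSeries.C ρ0)
          (fun j => MvPowerSeries.C (lin (l j.succ) α)) (x + δ)
          (fun q => MvPowerSeries.X q) s) = 0 := by
  classical
  -- the system
  set Sy : (Fin ((N + 1) * (d + 1)) → MvPowerSeries (Fin p) K) →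
      fdS T (fun E => d * E.totalDegree) n w → MvPowerSeries (Fin p) K := fun x s =>
    fdEq d T (fun E => d * E.totalDegree) cm vs fy.l l a b (MvPowerSeries.C ρ0)
      (fun j => MvPowerSeries.C (lin (l j.succ) α)) x (fun q => MvPowerSeries.X q) s with hSy
  have hcong : ∀ (m : ℕ) (x x' : Fin ((N + 1) * (d + 1)) → MvPowerSeries (Fin p) K),
      (∀ a, x a - x' a ∈ J (Fin p) K m) → ∀ s, Sy x s - Sy x' s ∈ J (Fin p) K m :=
    fun m x x' h s => fdEq_congr T _ cm vs fy.l l a b (J (Fin p) K m) _ _ x x' h _ s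
  -- truncation
  let x' : Fin ((N + 1) * (d + 1)) → MvPowerSeries (Fin p) K :=
    fun i m => if m.degree < j then MvPowerSeries.coeff m (x i) else 0
  have hx'c : ∀ i m, MvPowerSeries.coeff m (x' i) =
      if m.degree < j then MvPowerSeries.coeff m (x i) else 0 := fun i m => rfl
  have hxx' : ∀ i, x i - x' i ∈ J (Fin p) K j := by
    intro i m hm
    rw [map_sub, hx'c, if_pos hm, sub_self]
  have hx' : ∀ s, ∀ m : Fin p →₀ ℕ, m.degree < j → MvPowerSeries.coeff m (Sy x' s) = 0 := by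
    intro s m hm
    have h1 := hcong j x x' hxx' s m hm
    rw [map_sub, hx s m hm, zero_sub, neg_eq_zero] at h1
    exact h1
  let F : Fin (N + 1) → MvPowerSeries (Fin p) K[X] := fun i => sw (fdTup N d x' i)
  have hFc : ∀ i m (a : ℕ), (MvPowerSeries.coeff m (F i)).coeff a =
      MvPowerSeries.coeff m ((fdTup N d x' i).coeff a) := fun i m a => sw_coeff _ _ _
  have hFd : ∀ i m, (MvPowerSeries.coeff m (F i)).natDegree ≤ d := by
    intro i m
    rw [natDegree_le_iff_coeff_eq_zero]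
    intro a ha
    rw [hFc, fdTup_coeff_gt _ _ _ ha, map_zero]
  have hF0 : ∀ i, MvPowerSeries.constantCoeff (F i) = R i := by
    intro i
    ext a
    rw [← MvPowerSeries.coeff_zero_eq_constantCoeff_apply, hFc]
    by_cases ha : a ≤ d
    · rw [fdTup_coeff' _ _ _ ha, hx'c, if_pos (by simpa using hj),
        MvPowerSeries.coeff_zero_eq_constantCoeff_apply, hx0, fdCo_apply]
    · rw [fdTup_coeff_gt _ _ _ (by omega), map_zero,
        coeff_eq_zero_of_natDegree_lt (lt_of_le_of_lt (hR.deg i) (by omega))]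
  have hFj : ∀ i m, j ≤ m.degree → MvPowerSeries.coeff m (F i) = 0 := by
    intro i m hm
    ext a
    rw [hFc, coeff_zero]
    by_cases ha : a ≤ d
    · rw [fdTup_coeff' _ _ _ ha, hx'c, if_neg (by omega)]
    · rw [fdTup_coeff_gt _ _ _ (by omega), map_zero]
  have hev : ∀ (z : Fin ((N + 1) * (d + 1)) → MvPowerSeries (Fin p) K) i l' m,
      MvPowerSeries.coeff m ((fdTup N d z i).eval
        (algebraMap k (MvPowerSeries (Fin p) K) (cm l'))) =
      (MvPowerSeries.coeff m (sw (fdTup N d z i))).eval (algebraMap k K (cm l')) := by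
    intro z i l' m
    rw [MvPowerSeries.algebraMap_apply, fd_eval_sw]
  have hmk : ∀ (z : Fin ((N + 1) * (d + 1)) → MvPowerSeries (Fin p) K) (m : Fin p →₀ ℕ)
      (l' : Fin w) (i i' : Fin (N + 1)),
      MvPowerSeries.coeff m (Sy z (Sum.inr (Sum.inl (l', i, i')))) =
      (MvPowerSeries.coeff m (sw (fdTup N d z i))).eval (algebraMap k K (cm l')) *
        algebraMap k K (vs l' i') -
      (MvPowerSeries.coeff m (sw (fdTup N d z i'))).eval (algebraMap k K (cm l')) *
        algebraMap k K (vs l' i) := by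
    intro z m l' i i'
    simp only [hSy, fdEq]
    rw [map_sub, MvPowerSeries.algebraMap_apply (r := vs l' i'),
      MvPowerSeries.algebraMap_apply (r := vs l' i),
      MvPowerSeries.coeff_mul_C, MvPowerSeries.coeff_mul_C, hev, hev]
  have hFm : ∀ m l', ∃ a : K, ∀ i, (MvPowerSeries.coeff m (F i)).eval (algebraMap k K (cm l')) =
      a * (R i).eval (algebraMap k K (cm l')) := by
    intro m l'
    by_cases hm : m.degree < j
    · refine fd_prop (fd_vs_ne D (hvs l')) (fun i i' => ?_) (hRm l')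
        (fd_eval_ne_zero D hR (algebraMap k K (cm l')))
      have h1 := hx' (Sum.inr (Sum.inl (l', i, i'))) m hm
      rw [hmk, sub_eq_zero] at h1
      exact h1
    · refine ⟨0, fun i => ?_⟩
      rw [hFj i m (by omega), eval_zero, zero_mul]
  have hEc : ∀ (z : Fin ((N + 1) * (d + 1)) → MvPowerSeries (Fin p) K)
      (E' : MvPolynomial (Fin (N + 1)) k) (m : Fin p →₀ ℕ) (a : ℕ),
      (MvPowerSeries.coeff m (MvPolynomial.aeval (fun i => sw (fdTup N d z i)) E')).coeff a =
        MvPowerSeries.coeff m ((MvPolynomial.aeval (fdTup N d z) E').coeff a) := by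
    intro z E' m a
    rw [← fd_sw_aeval, sw_coeff]
  have hFE : ∀ E' ∈ van D.V, ∀ m, m.degree < j →
      MvPowerSeries.coeff m (MvPolynomial.aeval F E') = 0 := by
    refine fd_ideal hT F (J (Fin p) K[X] j) (fun E' hE' m hm => ?_)
    ext a
    rw [hEc, coeff_zero]
    by_cases ha : a ≤ d * E'.totalDegree
    · exact hx' (Sum.inl ⟨⟨E', hE'⟩, ⟨a, Nat.lt_succ_iff.2 ha⟩⟩) m hm
    · rw [coeff_eq_zero_of_natDegree_lt
        (lt_of_le_of_lt (fd_natDegree_aeval (fdTup_natDegree x') E') (by omega)), map_zero]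
  -- the step
  obtain ⟨δ, hδ1, hδ2, hδ3, hδ4, hδ5, hδ6⟩ := fd_step D hR cm hcm hcm0 hg hy fy ρ0 hρ0 hR0 α ρ1
    hρ1 hR1 l E hα0 μ hμ hfr
    (Fin.cons (MvPowerSeries.C ρ0) (fun j => MvPowerSeries.C ρ0 *
      ∑ q, algebraMap k (MvPowerSeries (Fin p) K) (a j q) * MvPowerSeries.X q) :
        Fin (n + 1) → MvPowerSeries (Fin p) K)
    (fun i => MvPowerSeries.C (lin (l i.succ) α) +
      ∑ q, algebraMap k (MvPowerSeries (Fin p) K) (b i q) * MvPowerSeries.X q)
    (fun i => by
      rw [map_add, MvPowerSeries.constantCoeff_C, map_sum, Finset.sum_eq_zero, add_zero]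
      intro q _
      rw [map_mul, MvPowerSeries.constantCoeff_X, mul_zero])
    hj F hFd hF0 hFj hFm hFE
  let x2 : Fin ((N + 1) * (d + 1)) → MvPowerSeries (Fin p) K := fun i m =>
    MvPowerSeries.coeff m (x' i) + (MvPowerSeries.coeff m (δ (finProdFinEquiv.symm i).1)).coeff
      ((finProdFinEquiv.symm i).2 : ℕ)
  have hx2c : ∀ i m, MvPowerSeries.coeff m (x2 i) = MvPowerSeries.coeff m (x' i) +
      (MvPowerSeries.coeff m (δ (finProdFinEquiv.symm i).1)).coeff
        ((finProdFinEquiv.symm i).2 : ℕ) := fun i m => rfl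
  have hx2F : ∀ i, sw (fdTup N d x2 i) = F i + δ i := by
    intro i
    ext m a
    rw [sw_coeff, map_add, coeff_add, hFc]
    by_cases ha : a ≤ d
    · rw [fdTup_coeff' _ _ _ ha, fdTup_coeff' _ _ _ ha, hx2c, Equiv.symm_apply_apply]
    · rw [fdTup_coeff_gt _ _ _ (by omega), fdTup_coeff_gt _ _ _ (by omega), map_zero, zero_add,
        coeff_eq_zero_of_natDegree_lt (lt_of_le_of_lt (hδ2 i m) (by omega))]
  let dx : Fin ((N + 1) * (d + 1)) → MvPowerSeries (Fin p) K := fun i m =>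
    if m.degree = j then MvPowerSeries.coeff m (x2 i) - MvPowerSeries.coeff m (x i) else 0
  have hdxc : ∀ i m, MvPowerSeries.coeff m (dx i) =
      if m.degree = j then MvPowerSeries.coeff m (x2 i) - MvPowerSeries.coeff m (x i) else 0 :=
    fun i m => rfl
  have hx2x : ∀ i, x2 i - x i ∈ J (Fin p) K j := by
    intro i m hm
    rw [map_sub, hx2c, hx'c, if_pos hm, hδ1 _ m (by omega), coeff_zero, add_zero, sub_self]
  have hxdx : ∀ i, (x + dx) i - x2 i ∈ J (Fin p) K (j + 1) := by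
    intro i m hm
    rw [map_sub, Pi.add_apply, map_add, hdxc]
    rcases Nat.lt_or_ge m.degree j with h | h
    · rw [if_neg (by omega), add_zero]
      have h1 := hx2x i m h
      rw [map_sub, sub_eq_zero] at h1
      rw [h1, sub_self]
    · rw [if_pos (by omega)]
      ring
  refine ⟨dx, fun i m hm => by rw [hdxc, if_neg hm], fun s m hm => ?_⟩
  have h1 := hcong (j + 1) (x + dx) x2 hxdx s m (by omega)
  rw [map_sub, sub_eq_zero] at h1
  show MvPowerSeries.coeff m (Sy (x + dx) s) = 0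
  rw [h1]
  rcases Nat.lt_or_ge m.degree j with hlt | hge
  · have h2 := hcong j x2 x hx2x s m hlt
    rw [map_sub, sub_eq_zero] at h2
    rw [h2]
    exact hx s m hlt
  have hmj : m.degree = j := le_antisymm hm hge
  rcases s with ⟨E', a'⟩ | (⟨l', i, i'⟩ | (a' | j'))
  · show MvPowerSeries.coeff m ((MvPolynomial.aeval (fdTup N d x2)
      (E' : MvPolynomial (Fin (N + 1)) k)).coeff a') = 0
    rw [← hEc]
    simp only [hx2F]
    rw [hδ4 E' (by rw [← hT]; exact Ideal.subset_span E'.2) m hm, coeff_zero]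
  · rw [hmk, hx2F, hx2F, map_add, map_add, eval_add, eval_add]
    obtain ⟨a1, ha1⟩ := hFm m l'
    obtain ⟨a2, ha2⟩ := hδ3 m l'
    have h3 := hRm l' i i'
    simp only at h3
    rw [ha1, ha1, ha2, ha2]
    linear_combination (a1 + a2) * h3
  · show MvPowerSeries.coeff m (lin (fy.l a') (fun i => (fdTup N d x2 i).coeff 0) -
      (Fin.cons (MvPowerSeries.C ρ0) (fun j => MvPowerSeries.C ρ0 *
        ∑ q, algebraMap k (MvPowerSeries (Fin p) K) (a j q) * MvPowerSeries.X q) :
          Fin (n + 1) → MvPowerSeries (Fin p) K) a') = 0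
    rw [map_sub, fd_coeff_lin, ← hδ5 a' m hmj]
    simp only [← hx2F, sw_coeff]
    exact sub_self _
  · show MvPowerSeries.coeff m (lin (l j'.succ) (fun i => (fdTup N d x2 i).coeff d) -
      (MvPowerSeries.C (lin (l j'.succ) α) +
        ∑ q, algebraMap k (MvPowerSeries (Fin p) K) (b j' q) * MvPowerSeries.X q) *
          lin (l 0) (fun i => (fdTup N d x2 i).coeff d)) = 0
    have h4 := hδ6 j' m hmj
    simp only [← hx2F, sw_coeff] at h4
    rw [map_sub, fd_coeff_lin, h4, MvPowerSeries.coeff_mul, sub_eq_zero]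
    refine Finset.sum_congr rfl fun q _ => ?_
    rw [fd_coeff_lin]

end hU

end Pool.Agent.VFF
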