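import Pool.Agent.Lib_MP_1858fb_w.Defs

/-!
# MP_1858fb_ag, line F (formal gluing, every characteristic): internal definitions

`k` is the base field, `ι = Fin (N + 1)`. A curve over a `k`-algebra `A` is a tuple
`R : ι → A[X]` of polynomials of degree `≤ d`; its value at infinity is `coeff d`.
-/

namespace Pool.Agent.VFF

open Pool.Agent.VF Polynomial

section Basic

variable {k : Type} [Field k] {N : ℕ}

/-- The polynomials that vanish on `V` vanish at `x`. -/
def OnV {A : Type} [CommRing A] [Algebra k A] (V : Set (Fin (N + 1) → k)) (x : Fin (N + 1) → A) :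
    Prop :=
  ∀ E ∈ van V, MvPolynomial.aeval x E = 0

/-- `w` is tangent to (the cone over) `V` at `x`. -/
def Tang {A : Type} [CommRing A] [Algebra k A] (V : Set (Fin (N + 1) → k))
    (x w : Fin (N + 1) → A) : Prop :=
  ∀ E ∈ van V, dif E x w = 0

/-- The linear form with the coefficients `l`, at the vector `x`. -/
noncomputable def lin {A : Type} [CommRing A] [Algebra k A] (l : Fin (N + 1) → k)
    (x : Fin (N + 1) → A) : A :=
  ∑ i, algebraMap k A (l i) * x i

/-- `x` is proportional to the nonzero vector `v`. -/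
def Prop' {A : Type} [CommRing A] [Algebra k A] (v : Fin (N + 1) → k) (x : Fin (N + 1) → A) :
    Prop :=
  ∀ i j, x i * algebraMap k A (v j) = x j * algebraMap k A (v i)

/-- The data of a smooth, irreducible, locally closed `V` of dimension `n` in projective
`N`-space. -/
structure VData (k : Type) [Field k] (N n c : ℕ) where
  V : Set (Fin (N + 1) → k)
  t : ℕ
  H : Fin t → MvPolynomial (Fin (N + 1)) k
  h : Fin t → ℕ
  hpos : ∀ l, 0 < h l
  homH : ∀ l, (H l).IsHomogeneous (h l)
  mem_iff : ∀ x : Fin (N + 1) → k, x ∈ V ↔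
    (∀ E ∈ van V, MvPolynomial.aeval x E = 0) ∧ ∃ l, MvPolynomial.aeval x (H l) ≠ 0
  hom : ∀ E ∈ van V, ∀ e, MvPolynomial.homogeneousComponent e E ∈ van V
  irr : Irred V
  hn : 0 < n
  hc : n + c = N
  smooth : ∀ x ∈ V, SmoothAt c V x

/-- The curve `R` of degree `≤ d` over the domain `O` is in the open part, also at infinity,
over the fraction field of `O`: some nonzero multiple of every monomial of degree `≤ M` is a
combination of the `H l (R)` with coefficients of the right degrees. -/
def Cert {n c : ℕ} (D : VData k N n c) {O : Type} [CommRing O] [Algebra k O] (d : ℕ)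
    (R : Fin (N + 1) → O[X]) (μ : O) (M : ℕ) : Prop :=
  ∀ i ≤ M, ∃ A : Fin D.t → O[X], (∀ l, A l ≠ 0 → (A l).natDegree + d * D.h l ≤ M) ∧
    ∑ l, A l * MvPolynomial.aeval R (D.H l) = C μ * X ^ i

/-- A curve of degree `≤ d` on `V` over the `k`-algebra `A` -/
structure Curve {n c : ℕ} (D : VData k N n c) {A : Type} [CommRing A] [Algebra k A] (d : ℕ)
    (R : Fin (N + 1) → A[X]) : Prop where
  deg : ∀ i, (R i).natDegree ≤ d
  onV : OnV D.V R
  cert : ∃ μ : A, μ ≠ 0 ∧ ∃ M, Cert D d R μ M

/-- `n` sections of degree `≤ d - 1` along `R`, in the line of `R` at the marks, independent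
together with `R` at infinity. -/
structure Sec {n c : ℕ} (D : VData k N n c) {A : Type} [CommRing A] [Algebra k A] (d : ℕ)
    (R : Fin (N + 1) → A[X]) {w : ℕ} (cm : Fin w → k) (g : Fin n → Fin (N + 1) → A[X]) : Prop where
  deg : ∀ j i, (g j i).natDegree < d
  tan : ∀ j, Tang D.V R (g j)
  mark : ∀ j l, ∃ a : A, ∀ i,
    (g j i).eval (algebraMap k A (cm l)) = a * (R i).eval (algebraMap k A (cm l))
  ind : LinearIndependent A
    (Fin.cons (fun i => (R i).coeff d) (fun j i => (g j i).coeff (d - 1)) :
      Fin (n + 1) → Fin (N + 1) → A)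

/-- The rows: the linear forms `l a`, `a < n + 1`, and the differentials of `E b`, `b < c`. -/
noncomputable def row {A : Type} [CommRing A] [Algebra k A] {n c : ℕ}
    (l : Fin (n + 1) → Fin (N + 1) → k) (E : Fin c → MvPolynomial (Fin (N + 1)) k)
    (x : Fin (N + 1) → A) : Fin (n + 1) ⊕ Fin c → Fin (N + 1) → A :=
  Sum.elim (fun a i => algebraMap k A (l a i))
    (fun b i => MvPolynomial.aeval x (MvPolynomial.pderiv i (E b)))

/-- `E` are `c` polynomials vanishing on `V` and the square matrix of the rows at `x` has an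
inverse up to the factor `μ`. -/
def Frame {A : Type} [CommRing A] [Algebra k A] {n c : ℕ} (V : Set (Fin (N + 1) → k))
    (l : Fin (n + 1) → Fin (N + 1) → k) (E : Fin c → MvPolynomial (Fin (N + 1)) k)
    (x : Fin (N + 1) → A) (μ : A) : Prop :=
  (∀ b, E b ∈ van V) ∧
  ∃ B : Fin (N + 1) → (Fin (n + 1) ⊕ Fin c) → A,
    ∀ i j, ∑ a, B i a * row l E x a j = if i = j then μ else 0

/-- a frame at the point `y` of `V`: moreover `l 0 (y) = 1`, `l (a + 1) (y) = 0`, and near `y`
the `E b` generate the ideal of `V` -/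
structure FrameAt {n c : ℕ} (D : VData k N n c) (y : Fin (N + 1) → k) where
  l : Fin (n + 1) → Fin (N + 1) → k
  E : Fin c → MvPolynomial (Fin (N + 1)) k
  G : MvPolynomial (Fin (N + 1)) k
  hl : ∀ a, lin (l a) y = if a = 0 then 1 else 0
  hfr : Frame D.V l E y (1 : k)
  hG : MvPolynomial.aeval y G ≠ 0
  gen : ∀ E' ∈ van D.V, G * E' ∈ Ideal.span (Set.range E)

end Basic

end Pool.Agent.VFF
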