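import Pool.Agent.Lib_MP_1858fb_f.FObs
import Mathlib.LinearAlgebra.Dimension.Localization

/-!
# [F-GG] Sections of degree `≤ d - 1` that span, together with `R`, the tangent space at `X = 0`
-/

set_option linter.unusedSectionVars false
set_option linter.unusedVariables false
set_option maxHeartbeats 4000000

namespace Pool.Agent.VFF

open Pool.Agent.VF Polynomial

section

variable {K : Type} [Field K] {ι κ : Type} [Fintype ι] [Fintype κ]

/-- independent leading coefficients -/
lemma indep_of_top {d : ℕ} (s : κ → ι → K[X]) (hs : ∀ c i, (s c i).natDegree ≤ d)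
    (hli : LinearIndependent K (fun c i => (s c i).coeff d)) : LinearIndependent K[X] s := by
  classical
  rw [Fintype.linearIndependent_iff]
  intro f hf
  by_contra hcon
  push Not at hcon
  obtain ⟨c0, hc0⟩ := hcon
  obtain ⟨c, hcm, hc⟩ := Finset.exists_max_image (Finset.univ.filter fun c => f c ≠ 0)
    (fun c => (f c).natDegree) ⟨c0, Finset.mem_filter.mpr ⟨Finset.mem_univ _, hc0⟩⟩
  set m := (f c).natDegree with hm
  have hdeg : ∀ c', (f c').natDegree ≤ m := by
    intro c'
    by_cases h : f c' = 0
    · rw [h, natDegree_zero]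
      exact Nat.zero_le _
    · exact hc c' (Finset.mem_filter.mpr ⟨Finset.mem_univ _, h⟩)
  have h1 := Fintype.linearIndependent_iff.mp hli (fun c' => (f c').coeff m) (by
    ext i
    have h2 := congrArg (fun p => coeff p (m + d)) (congrFun hf i)
    rw [Finset.sum_apply, Pi.zero_apply, coeff_zero, finsetSum_coeff] at h2
    rw [Finset.sum_apply, Pi.zero_apply, ← h2]
    refine Finset.sum_congr rfl fun c' _ => ?_
    rw [Pi.smul_apply, Pi.smul_apply, smul_eq_mul, smul_eq_mul,
      coeff_mul_add_eq_of_natDegree_le (hdeg c') (hs c' i)]) c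
  exact (Finset.mem_filter.mp hcm).2 (leadingCoeff_eq_zero.mp h1)

/-- the rank of the solutions of a system of linear equations that is independent at a point -/
lemma rank_sol {r : ℕ} (A : Fin r → ι → K[X]) (a : K)
    (hA : LinearIndependent K (fun j i => (A j i).eval a)) (s : κ → ι → K[X])
    (hs : ∀ c j, ∑ i, A j i * s c i = 0) (hli : LinearIndependent K[X] s)
    (hcard : Fintype.card κ + r = Fintype.card ι) (x : ι → K[X])
    (hx : ∀ j, ∑ i, A j i * x i = 0) :
    ∃ h : K[X], h ≠ 0 ∧ ∃ f : κ → K[X], ∀ i, h * x i = ∑ c, f c * s c i := by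
  classical
  set M : Matrix (Fin r) ι K[X] := Matrix.of A with hM
  have hker : ∀ y : ι → K[X], y ∈ LinearMap.ker M.mulVecLin ↔ ∀ j, ∑ i, A j i * y i = 0 := by
    intro y
    rw [LinearMap.mem_ker, Matrix.mulVecLin_apply]
    constructor
    · intro h j
      exact congrFun h j
    · intro h
      funext j
      exact h j
  -- the rank of the range
  have h1 : ∀ l : Fin r, ∃ u : K[X], u.eval a ≠ 0 ∧ ∃ δ : ι → K[X], ∀ j,
      ∑ i, A j i * δ i = u * (if j = l then 1 else 0) := fun l => ObsR.loc_sol A _ a hA
  choose u hu δ hδ using h1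
  have hrange : r ≤ Module.finrank K[X] (LinearMap.range M.mulVecLin) := by
    set b : Fin r → LinearMap.range M.mulVecLin := fun l => ⟨M.mulVecLin (δ l), ⟨δ l, rfl⟩⟩ with hb
    have hbli : LinearIndependent K[X] b := by
      rw [Fintype.linearIndependent_iff]
      intro f hf l
      have h2 := congrFun (congrArg Subtype.val hf) l
      have h3 : (∑ x, f x • b x : LinearMap.range M.mulVecLin).1 l = f l * u l := by
        rw [AddSubmonoidClass.coe_finsetSum, Finset.sum_apply, Finset.sum_eq_single l]
        · have h4 : (b l : Fin r → K[X]) l = u l * (if l = l then 1 else 0) := hδ l l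
          rw [Submodule.coe_smul, Pi.smul_apply, smul_eq_mul, h4, if_pos rfl, mul_one]
        · intro l' _ hl'
          have h4 : (b l' : Fin r → K[X]) l = u l' * (if l = l' then 1 else 0) := hδ l' l
          rw [Submodule.coe_smul, Pi.smul_apply, smul_eq_mul, h4, if_neg (Ne.symm hl'), mul_zero,
            mul_zero]
        · intro h
          exact absurd (Finset.mem_univ _) h
      rw [h3] at h2
      have h5 : u l ≠ 0 := fun h => hu l (by rw [h, eval_zero])
      exact (mul_eq_zero.mp h2).resolve_right h5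
    have := hbli.fintype_card_le_finrank
    rwa [Fintype.card_fin] at this
  have hfin : Module.finrank K[X] (LinearMap.ker M.mulVecLin) ≤ Fintype.card κ := by
    have h2 := (LinearMap.ker M.mulVecLin).finrank_quotient_add_finrank
    rw [M.mulVecLin.quotKerEquivRange.finrank_eq, Module.finrank_fintype_fun_eq_card] at h2
    omega
  -- a relation
  by_contra hcon
  push Not at hcon
  have hli' : LinearIndependent K[X] (fun o : Option κ => (match o with
      | none => ⟨x, (hker x).mpr hx⟩
      | some c => ⟨s c, (hker _).mpr fun j => hs c j⟩ : LinearMap.ker M.mulVecLin)) := by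
    rw [Fintype.linearIndependent_iff]
    intro f hf
    rw [Fintype.sum_option] at hf
    have h2 : ∀ i, f none * x i + ∑ c, f (some c) * s c i = 0 := by
      intro i
      have h3 := congrFun (congrArg Subtype.val hf) i
      simpa [AddSubmonoidClass.coe_finsetSum, Finset.sum_apply] using h3
    have h0 : f none = 0 := by
      by_contra hne
      obtain ⟨i, hi⟩ := hcon (f none) hne (fun c => - f (some c))
      apply hi
      rw [← sub_eq_zero]
      rw [← h2 i]
      simp [Finset.sum_neg_distrib]
    intro o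
    match o with
    | none => exact h0
    | some c =>
      have h4 := Fintype.linearIndependent_iff.mp hli (fun c => f (some c)) (by
        ext i : 1
        rw [Finset.sum_apply, Pi.zero_apply, ← h2 i, h0, zero_mul, zero_add]
        exact Finset.sum_congr rfl fun c _ => rfl) c
      exact h4
  have h5 := hli'.fintype_card_le_finrank
  rw [Fintype.card_option] at h5
  omega

/-- a section of the solutions through a given vector -/
lemma loc_section {r : ℕ} (A : Fin r → ι → K[X])
    (hA : LinearIndependent K (fun j i => (A j i).eval 0)) (t : ι → K)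
    (ht : ∀ j, ∑ i, (A j i).eval 0 * t i = 0) :
    ∃ u : ι → K[X], (∀ j, ∑ i, A j i * u i = 0) ∧ ∃ ρ : K, ρ ≠ 0 ∧ ∀ i, (u i).eval 0 = ρ * t i := by
  obtain ⟨v, hv, δ, hdvd, hδ⟩ := ObsR.loc_sol' A (fun j => - ∑ i, A j i * C (t i)) 0 hA
  refine ⟨fun i => v * C (t i) + δ i, fun j => ?_, v.eval 0, hv, fun i => ?_⟩
  · have h1 : ∑ i, A j i * (v * C (t i) + δ i) = v * ∑ i, A j i * C (t i) + ∑ i, A j i * δ i := by
      rw [Finset.mul_sum, ← Finset.sum_add_distrib]
      exact Finset.sum_congr rfl fun i _ => by ring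
    rw [h1, hδ j]
    ring
  · have h1 : (X - C (0 : K)) ∣ δ i := hdvd _ (fun j => by
      rw [dvd_iff_isRoot, IsRoot.def, eval_neg, eval_finsetSum, neg_eq_zero]
      have h2 := ht j
      simpa only [eval_mul, eval_C] using h2) i
    rw [dvd_iff_isRoot] at h1
    rw [eval_add, eval_mul, eval_C, IsRoot.def.mp h1, add_zero]

/-- A nonzero vector is the first vector of a basis. -/
lemma exists_cons {V : Type} [AddCommGroup V] [Module K V] [FiniteDimensional K V] {n : ℕ}
    (h : Module.finrank K V = n + 1) {x : V} (hx : x ≠ 0) :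
    ∃ t : Fin n → V, LinearIndependent K (Fin.cons x t : Fin (n + 1) → V) := by
  obtain ⟨C', hC'⟩ := (Submodule.span K {x}).exists_isCompl
  have hfC : Module.finrank K C' = n := by
    have h1 := Submodule.finrank_add_eq_of_isCompl hC'
    rw [finrank_span_singleton hx, h] at h1
    omega
  set b := Module.finBasisOfFinrankEq K C' hfC with hb
  refine ⟨fun j => (b j : V), ?_⟩
  rw [linearIndependent_finCons]
  refine ⟨b.linearIndependent.map' C'.subtype (Submodule.ker_subtype _), fun hmem => ?_⟩
  have h1 : x ∈ C' := by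
    refine (Submodule.span_le.mpr ?_) hmem
    rintro _ ⟨j, rfl⟩
    exact (b j).2
  exact hx ((Submodule.disjoint_def.mp hC'.disjoint) x (Submodule.mem_span_singleton_self x) h1)

/-- Division modulo a power of `X` by a polynomial that does not vanish at `0`. -/
lemma exists_modX (m : ℕ) {q : K[X]} (hq : ¬ (X - C (0 : K)) ∣ q) (a : K[X]) :
    ∃ b : K[X], b.natDegree ≤ m ∧ X ^ (m + 1) ∣ q * b - a := by
  have hX : (X - C (0 : K)) = X := by rw [map_zero, sub_zero]
  rw [hX] at hq
  have hco : IsCoprime q (X ^ (m + 1)) :=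
    ((Polynomial.prime_X (R := K)).coprime_iff_not_dvd.mpr hq).symm.pow_right
  obtain ⟨p, r, hpr⟩ := hco
  refine ⟨(p * a) %ₘ X ^ (m + 1), ?_, ?_⟩
  · have h1 := natDegree_modByMonic_lt (p * a) (monic_X_pow (R := K) (m + 1)) (by
      intro h
      have h2 := congrArg natDegree h
      rw [natDegree_X_pow, natDegree_one] at h2
      omega)
    rw [natDegree_X_pow] at h1
    omega
  · have h1 := modByMonic_add_div (p * a) (X ^ (m + 1) : K[X])
    refine ⟨- q * ((p * a) /ₘ X ^ (m + 1)) - r * a, ?_⟩
    linear_combination q * h1 + a * hpr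

end

section

variable {k : Type} [Field k] {N n c : ℕ} {D : VData k N n c} {K : Type} [Field K] [Algebra k K]
  {d : ℕ} {R : Fin (N + 1) → K[X]}

/-- A section of degree `≤ d - 1` with a given value at `0`, up to the line of `R`. -/
theorem section_through [IsAlgClosed k] (hR : Curve D d R) {w : ℕ} {cm : Fin w → k}
    (hcm0 : ∀ l, cm l ≠ 0) {g : Fin n → Fin (N + 1) → K[X]} (hg : Sec D d R cm g)
    {E : Fin c → MvPolynomial (Fin (N + 1)) k} {G : MvPolynomial (Fin (N + 1)) k}
    (hE : ∀ j, E j ∈ van D.V)
    (hli : LinearIndependent K (fun j i =>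
      MvPolynomial.aeval (fun i => (R i).eval 0) (MvPolynomial.pderiv i (E j))))
    (hG : MvPolynomial.aeval (fun i => (R i).eval 0) G ≠ 0)
    (hgen : ∀ P ∈ van D.V, G * P ∈ Ideal.span (Set.range E)) (t : Fin (N + 1) → K)
    (ht : ∀ j, ∑ i, MvPolynomial.aeval (fun i => (R i).eval 0)
      (MvPolynomial.pderiv i (E j)) * t i = 0) :
    ∃ v : Fin (N + 1) → K[X], (∀ i, (v i).natDegree < d) ∧ Tang D.V R v ∧
      (∀ l, ∃ a : K, ∀ i, (v i).eval (algebraMap k K (cm l)) =
        a * (R i).eval (algebraMap k K (cm l))) ∧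
      ∃ ρ β : K, ρ ≠ 0 ∧ ∀ i, (v i).eval 0 = ρ * t i + β * (R i).eval 0 := by
  classical
  have hd : 0 < d := by
    have := hg.deg ⟨0, D.hn⟩ 0
    omega
  have hA : (fun (j : Fin c) (i : Fin (N + 1)) => (ObsR.dif R (E j) i).eval 0) =
      fun j i => MvPolynomial.aeval (fun i => (R i).eval 0) (MvPolynomial.pderiv i (E j)) := by
    funext j i
    rw [ObsR.dif, eval_aeval]
  have hli' : LinearIndependent K
      (fun (j : Fin c) (i : Fin (N + 1)) => (ObsR.dif R (E j) i).eval 0) := by
    rw [hA]
    exact hli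
  obtain ⟨u, hu, ρ, hρ, hut⟩ := loc_section (fun j => ObsR.dif R (E j)) hli' t (fun j => by
    have h1 := ht j
    simpa only [ObsR.dif, eval_aeval] using h1)
  -- the sections
  set s : Fin (n + 1) → Fin (N + 1) → K[X] := Fin.cons R (fun j i => X * g j i) with hs
  have hsd : ∀ c i, (s c i).natDegree ≤ d := by
    intro c i
    refine Fin.cases ?_ (fun j => ?_) c
    · exact hR.deg i
    · rw [hs, Fin.cons_succ]
      refine natDegree_mul_le.trans ?_
      rw [natDegree_X]
      have := hg.deg j i
      omega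
  have hRt : ∀ P ∈ van D.V, ∑ i, ObsR.dif R P i * R i = 0 :=
    fun P hP => tang_self' D hR.onV P hP
  have hgt : ∀ j, ∀ P ∈ van D.V, ∑ i, ObsR.dif R P i * g j i = 0 := fun j P hP => hg.tan j P hP
  have hst : ∀ c j, ∑ i, ObsR.dif R (E j) i * s c i = 0 := by
    intro c j
    refine Fin.cases ?_ (fun j' => ?_) c
    · exact hRt _ (hE j)
    · rw [hs, Fin.cons_succ]
      have h2 : ∑ i, ObsR.dif R (E j) i * (X * g j' i) =
          X * ∑ i, ObsR.dif R (E j) i * g j' i := by
        rw [Finset.mul_sum]
        exact Finset.sum_congr rfl fun i _ => by ring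
      rw [h2, hgt j' _ (hE j), mul_zero]
  have hsli : LinearIndependent K[X] s := by
    refine indep_of_top s hsd ?_
    have h1 : (fun (c : Fin (n + 1)) (i : Fin (N + 1)) => (s c i).coeff d) =
        (Fin.cons (fun i => (R i).coeff d) (fun j i => (g j i).coeff (d - 1)) :
          Fin (n + 1) → Fin (N + 1) → K) := by
      obtain ⟨d', rfl⟩ := Nat.exists_eq_succ_of_ne_zero hd.ne'
      funext c
      refine Fin.cases ?_ (fun j => ?_) c
      · rw [hs, Fin.cons_zero, Fin.cons_zero]
      · rw [hs, Fin.cons_succ, Fin.cons_succ]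
        funext i
        rw [Nat.succ_eq_add_one, coeff_X_mul, Nat.add_sub_cancel]
    rw [h1]
    exact hg.ind
  obtain ⟨h, hh, f, hf⟩ := rank_sol (fun j => ObsR.dif R (E j)) 0 hli' s hst hsli (by
    rw [Fintype.card_fin, Fintype.card_fin]
    have := D.hc
    omega) u hu
  obtain ⟨q, hq, hqX⟩ := exists_eq_pow_rootMultiplicity_mul_and_not_dvd h hh 0
  set m := rootMultiplicity 0 h with hm
  have hX : (X - C (0 : K)) = X := by rw [map_zero, sub_zero]
  have hqm : h = X ^ m * q := by rw [← hX]; exact hq
  -- principal parts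
  obtain ⟨b0, hb0d, hb0⟩ := exists_modX m hqX (f 0)
  have hb := fun j : Fin n => exists_modX m hqX (f j.succ * X)
  choose b hbd hb using hb
  set β := b0.coeff m with hβ
  -- the combination
  have hz : ∀ i, ∃ r, b0 * R i + ∑ j, b j * g j i = X ^ m * u i + X ^ (m + 1) * r := by
    intro i
    have h1 : X ^ (m + 1) ∣ q * ((b0 * R i + ∑ j, b j * g j i) - X ^ m * u i) := by
      have h2 : q * ((b0 * R i + ∑ j, b j * g j i) - X ^ m * u i) =
          (q * b0 - f 0) * R i + ∑ j, (q * b j - f j.succ * X) * g j i := by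
        have h3 := hf i
        rw [Fin.sum_univ_succ, hqm] at h3
        simp only [hs, Fin.cons_zero, Fin.cons_succ] at h3
        have h4 : ∑ j, (q * b j - f j.succ * X) * g j i =
            q * ∑ j, b j * g j i - ∑ j, f j.succ * (X * g j i) := by
          rw [Finset.mul_sum, ← Finset.sum_sub_distrib]
          exact Finset.sum_congr rfl fun j _ => by ring
        rw [h4]
        linear_combination -h3
      rw [h2]
      exact dvd_add (hb0.mul_right _) (Finset.dvd_sum fun j _ => (hb j).mul_right _)
    have hco : IsCoprime (X ^ (m + 1)) q := by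
      rw [hX] at hqX
      exact ((Polynomial.prime_X (R := K)).coprime_iff_not_dvd.mpr hqX).pow_left
    obtain ⟨r, hr⟩ := hco.dvd_of_dvd_mul_left h1
    exact ⟨r, by linear_combination hr⟩
  choose r hr using hz
  have hv : ∀ i, X ^ m * (u i + X * r i - C β * R i) =
      (b0 - C β * X ^ m) * R i + ∑ j, b j * g j i := by
    intro i
    linear_combination -hr i
  have hXm : (X ^ m : K[X]) ≠ 0 := pow_ne_zero m X_ne_zero
  refine ⟨fun i => u i + X * r i - C β * R i, fun i => ?_, fun P hP => ?_, fun l => ?_, ρ, -β, hρ,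
    fun i => ?_⟩
  · -- the degree
    have h1 : ∀ a, d ≤ a → (u i + X * r i - C β * R i).coeff a = 0 := by
      intro a ha
      have h2 : coeff (X ^ m * (u i + X * r i - C β * R i)) (a + m) =
          coeff ((b0 - C β * X ^ m) * R i + ∑ j, b j * g j i) (a + m) := by rw [hv i]
      rw [coeff_X_pow_mul, coeff_add, finsetSum_coeff] at h2
      rw [h2, Finset.sum_eq_zero (fun j _ => ?_), add_zero]
      · rcases Nat.lt_or_ge d a with h3 | h3
        · refine coeff_eq_zero_of_natDegree_lt (lt_of_le_of_lt natDegree_mul_le ?_)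
          have h4 : (b0 - C β * X ^ m).natDegree ≤ m :=
            (natDegree_sub_le _ _).trans (max_le hb0d (natDegree_C_mul_X_pow_le _ _))
          have := hR.deg i
          omega
        · have h4 : a = d := le_antisymm h3 ha
          rw [h4, add_comm d m, coeff_mul_add_eq_of_natDegree_le
            ((natDegree_sub_le _ _).trans (max_le hb0d (natDegree_C_mul_X_pow_le _ _)))
            (hR.deg i), coeff_sub, coeff_C_mul, coeff_X_pow, if_pos rfl, mul_one, ← hβ, sub_self,
            zero_mul]
      · refine coeff_eq_zero_of_natDegree_lt (lt_of_le_of_lt natDegree_mul_le ?_)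
        have := hbd j
        have := hg.deg j i
        omega
    by_cases hz : u i + X * r i - C β * R i = 0
    · show (u i + X * r i - C β * R i).natDegree < d
      rw [hz, natDegree_zero]
      exact hd
    · by_contra hcon
      push Not at hcon
      exact hz (leadingCoeff_eq_zero.mp (h1 _ hcon))
  · -- tangent
    apply mul_left_cancel₀ hXm
    have h1 : ∑ i, ObsR.dif R P i * ((b0 - C β * X ^ m) * R i + ∑ j, b j * g j i) =
        (b0 - C β * X ^ m) * ∑ i, ObsR.dif R P i * R i +
          ∑ j, b j * ∑ i, ObsR.dif R P i * g j i := by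
      simp only [mul_add, Finset.sum_add_distrib, Finset.mul_sum]
      congr 1
      · exact Finset.sum_congr rfl fun i _ => by ring
      · rw [Finset.sum_comm]
        exact Finset.sum_congr rfl fun j _ => Finset.sum_congr rfl fun i _ => by ring
    rw [mul_zero, dif, Finset.mul_sum]
    have h2 : ∑ i, X ^ m * (MvPolynomial.aeval R (MvPolynomial.pderiv i P) *
        (u i + X * r i - C β * R i)) =
        ∑ i, ObsR.dif R P i * ((b0 - C β * X ^ m) * R i + ∑ j, b j * g j i) := by
      refine Finset.sum_congr rfl fun i _ => ?_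
      rw [← hv i, ObsR.dif]
      ring
    rw [h2, h1, hRt P hP, mul_zero, zero_add]
    exact Finset.sum_eq_zero fun j _ => by rw [hgt j P hP, mul_zero]
  · -- marks
    have hc0 : algebraMap k K (cm l) ≠ 0 := by
      rw [Ne, map_eq_zero_iff _ (algebraMap k K).injective]
      exact hcm0 l
    choose a ha using fun j => hg.mark j l
    refine ⟨(algebraMap k K (cm l) ^ m)⁻¹ * ((b0 - C β * X ^ m).eval (algebraMap k K (cm l)) +
      ∑ j, (b j).eval (algebraMap k K (cm l)) * a j), fun i => ?_⟩
    have h1 := congrArg (eval (algebraMap k K (cm l))) (hv i)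
    rw [eval_mul, eval_pow, eval_X, eval_add, eval_mul, eval_finsetSum] at h1
    have h2 : ∑ j, eval (algebraMap k K (cm l)) (b j * g j i) =
        (∑ j, (b j).eval (algebraMap k K (cm l)) * a j) * (R i).eval (algebraMap k K (cm l)) := by
      rw [Finset.sum_mul]
      exact Finset.sum_congr rfl fun j _ => by rw [eval_mul, ha j i, mul_assoc]
    rw [h2] at h1
    have h3 : algebraMap k K (cm l) ^ m ≠ 0 := pow_ne_zero m hc0
    apply mul_left_cancel₀ h3
    rw [h1, ← mul_assoc, ← mul_assoc, mul_inv_cancel₀ h3, one_mul, add_mul]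
  · rw [eval_sub, eval_add, eval_mul, eval_X, zero_mul, add_zero, eval_mul, eval_C, hut i]
    ring

/-- **[F-GG]** -/
theorem gg [IsAlgClosed k] (D : VData k N n c) {K : Type} [Field K] [IsAlgClosed K]
    [Algebra k K] {d w : ℕ} {R : Fin (N + 1) → K[X]} (hR : Curve D d R) (cm : Fin w → k)
    (hcm : Function.Injective cm) (hcm0 : ∀ l, cm l ≠ 0) {g : Fin n → Fin (N + 1) → K[X]}
    (hg : Sec D d R cm g) :
    ∃ g' : Fin n → Fin (N + 1) → K[X], (∀ j i, (g' j i).natDegree < d) ∧
      (∀ j, Tang D.V R (g' j)) ∧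
      (∀ j l, ∃ a : K, ∀ i, (g' j i).eval (algebraMap k K (cm l)) =
        a * (R i).eval (algebraMap k K (cm l))) ∧
      LinearIndependent K (Fin.cons (fun i => (R i).eval 0) (fun j i => (g' j i).eval 0) :
        Fin (n + 1) → Fin (N + 1) → K) := by
  classical
  obtain ⟨E, G, hE, hli, hG, hgen⟩ := smooth_ext D _ (hR.onV_eval 0) (hR.open_eval 0)
  set A : Fin c → Fin (N + 1) → K := fun j i =>
    MvPolynomial.aeval (fun i => (R i).eval 0) (MvPolynomial.pderiv i (E j)) with hAdef
  set M : Matrix (Fin c) (Fin (N + 1)) K := Matrix.of A with hM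
  have hker : ∀ y : Fin (N + 1) → K, y ∈ LinearMap.ker M.mulVecLin ↔ ∀ j, ∑ i, A j i * y i = 0 := by
    intro y
    rw [LinearMap.mem_ker, Matrix.mulVecLin_apply]
    constructor
    · intro h j
      exact congrFun h j
    · intro h
      funext j
      exact h j
  have hfin : Module.finrank K (LinearMap.ker M.mulVecLin) = n + 1 := by
    have h1 : LinearIndependent K M.row := hli
    have h2 : M.rank = c := by rw [h1.rank_matrix, Fintype.card_fin]
    have h3 := M.mulVecLin.finrank_range_add_finrank_ker
    rw [Module.finrank_fintype_fun_eq_card, Fintype.card_fin] at h3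
    have h4 : Module.finrank K (LinearMap.range M.mulVecLin) = c := h2
    have := D.hc
    omega
  -- the point
  have hx0 : (fun i => (R i).eval 0) ∈ LinearMap.ker M.mulVecLin :=
    (hker _).mpr fun j => tang_self' D (hR.onV_eval 0) (E j) (hE j)
  have hne : (fun i => (R i).eval (0 : K)) ≠ 0 := by
    intro h0
    obtain ⟨l, hl⟩ := hR.open_eval 0
    apply hl
    rw [h0]
    have h1 := D.homH l
    have h2 : MvPolynomial.aeval (0 : Fin (N + 1) → K) (D.H l) =
        algebraMap k K (MvPolynomial.constantCoeff (D.H l)) := by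
      rw [← MvPolynomial.eval₂Hom_zero_apply]
      rfl
    rw [h2, MvPolynomial.constantCoeff_eq, h1.coeff_eq_zero (d := 0) (by
      rw [map_zero]
      exact (D.hpos l).ne), map_zero]
  set x0 : LinearMap.ker M.mulVecLin := ⟨fun i => (R i).eval 0, hx0⟩ with hx0def
  have hx0ne : x0 ≠ 0 := fun h => hne (congrArg Subtype.val h)
  obtain ⟨b, hind⟩ := exists_cons hfin hx0ne
  have hstep : ∀ j : Fin n, ∃ v : Fin (N + 1) → K[X], (∀ i, (v i).natDegree < d) ∧
      Tang D.V R v ∧ (∀ l, ∃ a : K, ∀ i, (v i).eval (algebraMap k K (cm l)) =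
        a * (R i).eval (algebraMap k K (cm l))) ∧
      ∃ ρ β : K, ρ ≠ 0 ∧ ∀ i, (v i).eval 0 =
        ρ * (b j).1 i + β * (R i).eval 0 := fun j =>
    section_through hR hcm0 hg hE hli hG hgen _ ((hker _).mp (b j).2)
  choose g' hg'd hg't hg'm ρ β hρ hval using hstep
  refine ⟨g', hg'd, hg't, hg'm, ?_⟩
  rw [Fintype.linearIndependent_iff]
  intro f hf
  rw [Fin.sum_univ_succ] at hf
  simp only [Fin.cons_zero, Fin.cons_succ] at hf
  have h1 := Fintype.linearIndependent_iff.mp hind
    (Fin.cons (f 0 + ∑ j : Fin n, f j.succ * β j) (fun j => f j.succ * ρ j)) (by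
      rw [Fin.sum_univ_succ]
      simp only [Fin.cons_zero, Fin.cons_succ]
      apply Subtype.ext
      rw [Submodule.coe_add, Submodule.coe_smul, AddSubmonoidClass.coe_finsetSum,
        ZeroMemClass.coe_zero, ← hf]
      ext i
      rw [Pi.add_apply, Pi.add_apply, Finset.sum_apply, Finset.sum_apply, Pi.smul_apply,
        Pi.smul_apply, smul_eq_mul, smul_eq_mul, add_mul, Finset.sum_mul, add_assoc,
        ← Finset.sum_add_distrib]
      congr 1
      refine Finset.sum_congr rfl fun j _ => ?_
      rw [Submodule.coe_smul, Pi.smul_apply, Pi.smul_apply, smul_eq_mul, smul_eq_mul, hval j i]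
      ring)
  have h2 : ∀ j : Fin n, f j.succ = 0 := by
    intro j
    have h3 := h1 j.succ
    rw [Fin.cons_succ] at h3
    exact (mul_eq_zero.mp h3).resolve_right (hρ j)
  intro c
  refine Fin.cases ?_ (fun j => h2 j) c
  have h3 := h1 0
  rw [Fin.cons_zero, Finset.sum_eq_zero (fun j _ => by rw [h2 j, zero_mul]), add_zero] at h3
  exact h3

end

end Pool.Agent.VFF
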