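import Pool.Agent.Lib_MP_1858fb_f.FSmooth

/-!
# [F-OBS] The obstruction lemma with marks for a curve in `V` over an algebraically closed field
-/

set_option linter.unusedSectionVars false
set_option linter.unusedVariables false

namespace Pool.Agent.VFF

open Pool.Agent.VF Polynomial

section

variable {k : Type} [Field k] {N n c : ℕ}

/-- the leading coefficient of a form along a curve -/
lemma coeff_aeval {K : Type} [CommRing K] [Algebra k K] {d : ℕ} {R : Fin (N + 1) → K[X]}
    (hR : ∀ i, (R i).natDegree ≤ d) {E : MvPolynomial (Fin (N + 1)) k} {e : ℕ}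
    (hE : E.IsHomogeneous e) : (MvPolynomial.aeval R E).coeff (d * e) =
      MvPolynomial.aeval (fun i => (R i).coeff d) E := by
  classical
  rw [MvPolynomial.aeval_def, MvPolynomial.eval₂_eq', MvPolynomial.aeval_def,
    MvPolynomial.eval₂_eq', finsetSum_coeff]
  refine Finset.sum_congr rfl fun s hs => ?_
  have hse : ∑ i, s i = e := by
    have := hE (MvPolynomial.mem_support_iff.mp hs)
    rw [Finsupp.weight_apply, Finsupp.sum_fintype] at this
    · simpa using this
    · simp
  have hpow : ∀ (i : Fin (N + 1)) (m : ℕ), ((R i) ^ m).natDegree ≤ m * d ∧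
      ((R i) ^ m).coeff (m * d) = ((R i).coeff d) ^ m := by
    intro i m
    refine ⟨natDegree_pow_le.trans (Nat.mul_le_mul_left _ (hR i)), ?_⟩
    rw [coeff_pow_of_natDegree_le (hR i)]
  have hprod : ∀ t : Finset (Fin (N + 1)), (∏ i ∈ t, R i ^ s i).natDegree ≤ ∑ i ∈ t, s i * d ∧
      (∏ i ∈ t, R i ^ s i).coeff (∑ i ∈ t, s i * d) = ∏ i ∈ t, (R i).coeff d ^ s i := by
    intro t
    induction t using Finset.induction_on with
    | empty => simp
    | insert i t hi ih =>
      rw [Finset.prod_insert hi, Finset.sum_insert hi, Finset.prod_insert hi]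
      refine ⟨natDegree_mul_le.trans (add_le_add (hpow i _).1 ih.1), ?_⟩
      rw [coeff_mul_add_eq_of_natDegree_le (hpow i _).1 ih.1, (hpow i _).2, ih.2]
  rw [Polynomial.algebraMap_apply, coeff_C_mul]
  have h2 : d * e = ∑ i, s i * d := by rw [← Finset.sum_mul, hse, mul_comm]
  rw [h2, (hprod Finset.univ).2]

variable {D : VData k N n c} {K : Type} [Field K] [Algebra k K] {d : ℕ} {R : Fin (N + 1) → K[X]}

lemma eval_aeval (R : Fin (N + 1) → K[X]) (a : K) (E : MvPolynomial (Fin (N + 1)) k) :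
    (MvPolynomial.aeval R E).eval a = MvPolynomial.aeval (fun i => (R i).eval a) E := by
  induction E using MvPolynomial.induction_on with
  | C b =>
    rw [MvPolynomial.aeval_C, MvPolynomial.aeval_C, Polynomial.algebraMap_apply, eval_C]
  | add p q hp hq => rw [map_add, map_add, eval_add, hp, hq]
  | mul_X p i hp =>
    rw [map_mul, map_mul, eval_mul, hp, MvPolynomial.aeval_X, MvPolynomial.aeval_X]

/-- The points of a curve are on `V`. -/
lemma Curve.onV_eval (hR : Curve D d R) (a : K) : OnV D.V (fun i => (R i).eval a) := by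
  intro E hE
  rw [← eval_aeval, hR.onV E hE, eval_zero]

lemma Curve.open_eval (hR : Curve D d R) (a : K) :
    ∃ l, MvPolynomial.aeval (fun i => (R i).eval a) (D.H l) ≠ 0 := by
  obtain ⟨μ, hμ, M, hM⟩ := hR.cert
  obtain ⟨A, -, hA⟩ := hM 0 (Nat.zero_le _)
  by_contra hcon
  push Not at hcon
  have h1 := congrArg (eval a) hA
  rw [eval_finsetSum, eval_mul, eval_C, pow_zero, eval_one, mul_one] at h1
  apply hμ
  rw [← h1]
  refine Finset.sum_eq_zero fun l _ => ?_
  rw [eval_mul, eval_aeval, hcon l, mul_zero]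

/-- The point at infinity of a curve is on `V`. -/
lemma Curve.onV_inf (hR : Curve D d R) : OnV D.V (fun i => (R i).coeff d) := by
  intro E hE
  rw [← MvPolynomial.sum_homogeneousComponent E, map_sum]
  refine Finset.sum_eq_zero fun e _ => ?_
  rw [← coeff_aeval hR.deg (MvPolynomial.homogeneousComponent_isHomogeneous e E),
    hR.onV _ (D.hom E hE e), coeff_zero]

lemma Curve.open_inf (hR : Curve D d R) :
    ∃ l, MvPolynomial.aeval (fun i => (R i).coeff d) (D.H l) ≠ 0 := by
  obtain ⟨μ, hμ, M, hM⟩ := hR.cert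
  obtain ⟨A, hAd, hA⟩ := hM M le_rfl
  by_contra hcon
  push Not at hcon
  have h1 := congrArg (fun p => coeff p M) hA
  simp only [coeff_C_mul, coeff_X_pow, if_true, mul_one] at h1
  apply hμ
  rw [← h1, finsetSum_coeff]
  refine Finset.sum_eq_zero fun l _ => ?_
  by_cases hl : A l = 0
  · rw [hl, zero_mul, coeff_zero]
  · have h2 := hAd l hl
    obtain ⟨b, hb⟩ := Nat.exists_eq_add_of_le h2
    have h3 : M = ((A l).natDegree + b) + d * D.h l := by omega
    conv_lhs => rw [h3]
    rw [coeff_mul_add_eq_of_natDegree_le (Nat.le_add_right _ _)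
      (ObsR.natDegree_aeval_le hR.deg (D.homH l)), coeff_aeval hR.deg (D.homH l), hcon l, mul_zero]

/-- local generators at every point of a curve -/
lemma Curve.locGen [IsAlgClosed k] (hR : Curve D d R) (a : K) :
    ObsR.LocGen R (van D.V) c a := by
  obtain ⟨E, G, hE, hli, hG, hgen⟩ := smooth_ext D _ (hR.onV_eval a) (hR.open_eval a)
  refine ⟨E, hE, ?_, fun P hP => ⟨G, fun h => hG ?_, hgen P hP⟩⟩
  · have h1 : (fun (j : Fin c) (i : Fin (N + 1)) => (ObsR.dif R (E j) i).eval a) =
        fun j i => MvPolynomial.aeval (fun i => (R i).eval a) (MvPolynomial.pderiv i (E j)) := by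
      funext j i
      rw [ObsR.dif, eval_aeval]
    rw [h1]
    exact hli
  · rw [← eval_aeval, h, eval_zero]

/-- the tangent space at infinity -/
lemma tang_inf_iff (hd : ∀ i, (R i).natDegree ≤ d) (x : Fin (N + 1) → K)
    (hx : ∀ E ∈ van D.V, ∀ e, E.IsHomogeneous e →
      ∑ i, (ObsR.dif R E i).coeff (d * (e - 1)) * x i = 0) :
    Tang D.V (fun i => (R i).coeff d) x := by
  intro E hE
  have hadd : ∀ s : Finset ℕ, dif (∑ e ∈ s, MvPolynomial.homogeneousComponent e E)
      (fun i => (R i).coeff d) x =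
      ∑ e ∈ s, dif (MvPolynomial.homogeneousComponent e E) (fun i => (R i).coeff d) x := by
    intro s
    simp only [dif, map_sum, Finset.sum_mul]
    rw [Finset.sum_comm]
  rw [← MvPolynomial.sum_homogeneousComponent E, hadd]
  refine Finset.sum_eq_zero fun e _ => ?_
  have h1 := MvPolynomial.homogeneousComponent_isHomogeneous e E
  rw [← hx _ (D.hom E hE e) e h1, dif]
  refine Finset.sum_congr rfl fun i _ => ?_
  rw [ObsR.dif, coeff_aeval hd h1.pderiv]

/-- sections are tangent at infinity -/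
lemma isSec_inf {s : Fin (N + 1) → K[X]} (hd : ∀ i, (R i).natDegree ≤ d)
    (hs : ObsR.IsSec R (van D.V) d s) : ∀ E ∈ van D.V, ∀ e, E.IsHomogeneous e →
      ∑ i, (ObsR.dif R E i).coeff (d * (e - 1)) * (s i).coeff d = 0 := by
  intro E hE e he
  have h1 := congrArg (fun p => coeff p (d * (e - 1) + d)) (hs.2 E hE)
  simp only [finsetSum_coeff, coeff_zero] at h1
  rw [← h1]
  refine Finset.sum_congr rfl fun i _ => ?_
  rw [coeff_mul_add_eq_of_natDegree_le (ObsR.natDegree_dif_le hd he i) (hs.1 i)]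

/-- The sections `R` and `X g_j` span the tangent space at infinity. -/
lemma Sec.inf [IsAlgClosed k] (hR : Curve D d R) {w : ℕ} {cm : Fin w → k}
    {g : Fin n → Fin (N + 1) → K[X]} (hg : Sec D d R cm g) (x : Fin (N + 1) → K)
    (hx : ∀ E ∈ van D.V, ∀ e, E.IsHomogeneous e →
      ∑ i, (ObsR.dif R E i).coeff (d * (e - 1)) * x i = 0) :
    ∃ g' ∈ ObsR.markW R (fun l => algebraMap k K (cm l)), ObsR.IsSec R (van D.V) d g' ∧
      ∀ i, (g' i).coeff d = x i := by
  obtain ⟨E, G, hE, hli, hG, hgen⟩ := smooth_ext D _ hR.onV_inf hR.open_inf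
  have hd : 0 < d := by
    have := hg.deg ⟨0, D.hn⟩ 0
    omega
  obtain ⟨d', rfl⟩ := Nat.exists_eq_succ_of_ne_zero hd.ne'
  set s : Fin (n + 1) → Fin (N + 1) → K[X] := Fin.cons R (fun j i => X * g j i) with hs
  have hsW : ∀ c, s c ∈ ObsR.markW R (fun l => algebraMap k K (cm l)) := by
    intro c
    refine Fin.cases ?_ (fun j => ?_) c
    · intro l
      exact ⟨1, fun i => by rw [hs, Fin.cons_zero, one_mul]⟩
    · intro l
      obtain ⟨a, ha⟩ := hg.mark j l
      refine ⟨algebraMap k K (cm l) * a, fun i => ?_⟩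
      rw [hs, Fin.cons_succ, eval_mul, eval_X, ha i, mul_assoc]
  have hsS : ∀ c, ObsR.IsSec R (van D.V) (d' + 1) (s c) := by
    intro c
    refine Fin.cases ?_ (fun j => ?_) c
    · rw [hs, Fin.cons_zero]
      exact ⟨hR.deg, fun E hE => tang_self' D hR.onV E hE⟩
    · rw [hs, Fin.cons_succ]
      refine ⟨fun i => natDegree_mul_le.trans ?_, fun E hE => ?_⟩
      · rw [natDegree_X]
        have := hg.deg j i
        omega
      · have h1 := hg.tan j E hE
        rw [dif] at h1
        have h2 : ∑ i, ObsR.dif R E i * (X * g j i) =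
            X * ∑ i, MvPolynomial.aeval R (MvPolynomial.pderiv i E) * g j i := by
          rw [Finset.mul_sum]
          exact Finset.sum_congr rfl fun i _ => by
            rw [ObsR.dif]
            ring
        rw [h2, h1, mul_zero]
  have hAT : ∀ x : Fin (N + 1) → K, (∀ E ∈ van D.V, ∀ e, E.IsHomogeneous e →
      ∑ i, (ObsR.dif R E i).coeff ((d' + 1) * (e - 1)) * x i = 0) → ∀ j, ∑ i,
      MvPolynomial.aeval (fun i => (R i).coeff (d' + 1)) (MvPolynomial.pderiv i (E j)) * x i = 0 :=
    fun x hx j => tang_inf_iff hR.deg x hx (E j) (hE j)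
  refine ObsR.inf_of_indep (ObsR.markW R (fun l => algebraMap k K (cm l)))
    (fun j i => MvPolynomial.aeval (fun i => (R i).coeff (d' + 1)) (MvPolynomial.pderiv i (E j)))
    hli hAT s hsW hsS (fun c j => hAT _ (isSec_inf hR.deg (hsS c)) j) ?_ ?_ x hx
  · have h1 : (fun (c : Fin (n + 1)) (i : Fin (N + 1)) => (s c i).coeff (d' + 1)) =
        (Fin.cons (fun i => (R i).coeff (d' + 1)) (fun j i => (g j i).coeff (d' + 1 - 1)) :
          Fin (n + 1) → Fin (N + 1) → K) := by
      funext c
      refine Fin.cases ?_ (fun j => ?_) c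
      · rw [hs, Fin.cons_zero, Fin.cons_zero]
      · rw [hs, Fin.cons_succ, Fin.cons_succ]
        funext i
        rw [coeff_X_mul, Nat.add_sub_cancel]
    rw [h1]
    exact hg.ind
  · rw [Fintype.card_fin, Fintype.card_fin]
    have := D.hc
    omega

/-- **[F-OBS]** obstruction lemma with marks, over an algebraically closed field `K`. -/
theorem obs_82 [IsAlgClosed k] (D : VData k N n c) {K : Type} [Field K] [IsAlgClosed K]
    [Algebra k K] {d w : ℕ} {R : Fin (N + 1) → K[X]} (hR : Curve D d R) (cm : Fin w → k)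
    (hcm : Function.Injective cm) {g : Fin n → Fin (N + 1) → K[X]} (hg : Sec D d R cm g)
    (o : MvPolynomial (Fin (N + 1)) k → K[X])
    (ho_add : ∀ E ∈ van D.V, ∀ E' ∈ van D.V, o (E + E') = o E + o E')
    (ho_mul : ∀ G, ∀ E ∈ van D.V, o (G * E) = MvPolynomial.aeval R G * o E)
    (ho_deg : ∀ E ∈ van D.V, ∀ e, E.IsHomogeneous e → (o E).natDegree ≤ d * e)
    (ho_cm : ∀ E ∈ van D.V, ∀ l, (o E).eval (algebraMap k K (cm l)) = 0) :
    ∃ δ : Fin (N + 1) → K[X], (∀ i, (δ i).natDegree ≤ d) ∧ (∀ E ∈ van D.V, dif E R δ = o E) ∧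
      ∀ l, ∃ a : K, ∀ i, (δ i).eval (algebraMap k K (cm l)) =
        a * (R i).eval (algebraMap k K (cm l)) := by
  obtain ⟨δ, hδm, hδd, hδ⟩ := ObsR.obs_marks (fun l => algebraMap k K (cm l)) hR.deg hR.onV
    (fun a => hR.locGen a) (fun x hx => hg.inf hR x hx) ⟨ho_add, ho_mul⟩ ho_cm ho_deg
  exact ⟨δ, hδd, fun E hE => hδ E hE, fun l => hδm l⟩

end

end Pool.Agent.VFF
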