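import Pool.Agent.Lib_MP_1858fb_f.Contract9

/-!
# Factorisation of `1 + ε` in `R[[q]]` along a splitting of `R`
-/

namespace Pool.Agent.Lib_MP_1858fb_f

open PowerSeries Finset

/-- `R = range π ⊕ ker π` additively, `f ∈ 1 + q R[[q]]`. Then `f = (1 + p)(1 + m)` with `p`, `m`
divisible by `q`, the coefficients of `p` fixed by `π`, the coefficients of `m` killed by `π`. -/
theorem exists_factor {R : Type*} [CommRing R] (π : R →+ R) (hπ : ∀ r, π (π r) = π r)
    (f : R⟦X⟧) (hf : constantCoeff f = 1) :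
    ∃ p m : R⟦X⟧, constantCoeff p = 0 ∧ constantCoeff m = 0 ∧
      (∀ j, π (coeff j p) = coeff j p) ∧ (∀ j, π (coeff j m) = 0) ∧ f = (1 + p) * (1 + m) := by
  classical
  set c : (ℕ → R × R) → ℕ → R := fun x j =>
    coeff j f - ∑ a ∈ antidiagonal j with a.1 ≠ 0 ∧ a.2 ≠ 0, (x a.1).1 * (x a.2).2 with hc
  set Ψ : (ℕ → R × R) → ℕ → R × R := fun x j =>
    if j = 0 then 0 else (π (c x j), c x j - π (c x j)) with hΨ
  obtain ⟨x, -, hx, -⟩ := exists_fixed (Set.univ) (fun _ _ => Set.mem_univ _) Ψ
    (fun _ _ => Set.mem_univ _) (by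
      intro x _ y _ j hxy i hi
      rw [hΨ]
      simp only
      split_ifs with h0
      · rfl
      · have : c x i = c y i := by
          rw [hc]
          simp only
          congr 1
          refine sum_congr rfl fun a ha => ?_
          rw [mem_filter, HasAntidiagonal.mem_antidiagonal] at ha
          rw [hxy a.1 (by omega), hxy a.2 (by omega)]
        rw [this]) 0 (Set.mem_univ _)
  have hx0 : x 0 = 0 := by rw [← hx, hΨ]; simp
  have hx1 : ∀ j, j ≠ 0 → (x j).1 = π (c x j) := by
    intro j hj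
    conv_lhs => rw [← hx, hΨ]
    simp [hj]
  have hx2 : ∀ j, j ≠ 0 → (x j).2 = c x j - π (c x j) := by
    intro j hj
    conv_lhs => rw [← hx, hΨ]
    simp [hj]
  refine ⟨PowerSeries.mk fun j => (x j).1, PowerSeries.mk fun j => (x j).2, ?_, ?_, ?_, ?_, ?_⟩
  · rw [← coeff_zero_eq_constantCoeff_apply, coeff_mk, hx0]; rfl
  · rw [← coeff_zero_eq_constantCoeff_apply, coeff_mk, hx0]; rfl
  · intro j
    rw [coeff_mk]
    rcases eq_or_ne j 0 with rfl | hj
    · rw [hx0]; simp
    · rw [hx1 j hj, hπ]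
  · intro j
    rw [coeff_mk]
    rcases eq_or_ne j 0 with rfl | hj
    · rw [hx0]; simp
    · rw [hx2 j hj, map_sub, hπ, sub_self]
  · ext j
    rcases eq_or_ne j 0 with rfl | hj
    · rw [coeff_zero_eq_constantCoeff_apply, coeff_zero_eq_constantCoeff_apply, map_mul, map_add,
        map_add, map_one, hf, ← coeff_zero_eq_constantCoeff_apply,
        ← coeff_zero_eq_constantCoeff_apply, coeff_mk, coeff_mk, hx0]
      simp
    · have e1 : coeff j ((PowerSeries.mk fun j => (x j).1) * (PowerSeries.mk fun j => (x j).2)) =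
          ∑ a ∈ antidiagonal j with a.1 ≠ 0 ∧ a.2 ≠ 0, (x a.1).1 * (x a.2).2 := by
        rw [coeff_mul, sum_filter]
        refine sum_congr rfl fun a _ => ?_
        rw [coeff_mk, coeff_mk]
        split_ifs with h
        · rfl
        · rw [not_and_or, not_not, not_not] at h
          rcases h with h | h <;> rw [h, hx0] <;> simp
      have e2 : (1 + PowerSeries.mk fun j => (x j).1) * (1 + PowerSeries.mk fun j => (x j).2) =
          1 + (PowerSeries.mk fun j => (x j).1) + (PowerSeries.mk fun j => (x j).2) +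
            (PowerSeries.mk fun j => (x j).1) * (PowerSeries.mk fun j => (x j).2) := by ring
      rw [e2, map_add, map_add, map_add, coeff_one, if_neg hj, e1, coeff_mk, coeff_mk, hx1 j hj,
        hx2 j hj]
      have e3 : coeff j f = c x j +
          ∑ a ∈ antidiagonal j with a.1 ≠ 0 ∧ a.2 ≠ 0, (x a.1).1 * (x a.2).2 := by
        rw [hc]; ring
      rw [e3]
      ring

end Pool.Agent.Lib_MP_1858fb_f
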