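import Pool.Agent.Lib_MP_1858fb_f.GDefs
import Pool.Agent.Lib_MP_1858fb_f.Data
import Pool.Agent.Lib_MP_1858fb_w.Van2
import Pool.Agent.Lib_MP_1858fb_w.Van4
import Pool.Agent.Lib_MP_1858fb_w.Van6
import Pool.Agent.Lib_MP_1858fb_d.DeformA
import Pool.Agent.Lib_MP_1858fb_w.Obs

/-! MP_1858fb_ag, line F: a curve with sections is a very free curve. -/

namespace Pool.Agent.VFF

open Pool.Agent.VF Polynomial

namespace Fin61

variable {k : Type} [Field k] {N n c : ℕ}

/-- The forms of degree `e` with the coefficients of the polynomials `g`. -/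
noncomputable def forms (e : ℕ) (g : Fin (N + 1) → k[X]) : Fin (e + 1) → Fin (N + 1) → k :=
  fun j i => (g i).coeff (j : ℕ)

theorem toPoly_forms {e : ℕ} {g : Fin (N + 1) → k[X]} (hg : ∀ i, (g i).natDegree ≤ e)
    (i : Fin (N + 1)) : D61.toPoly (forms e g) i = g i := by
  ext m
  rw [D61.coeff_toPoly]
  by_cases h : m < e + 1
  · rw [dif_pos h]; rfl
  · rw [dif_neg h]
    exact (coeff_eq_zero_of_natDegree_lt (lt_of_le_of_lt (hg i) (by omega))).symm

theorem val_forms_one {e : ℕ} {g : Fin (N + 1) → k[X]} (hg : ∀ i, (g i).natDegree ≤ e) (x : k) :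
    val (forms e g) 1 x = fun i => (g i).eval x := by
  funext i
  rw [← D61.eval_toPoly, toPoly_forms hg]

theorem val_forms {e : ℕ} {g : Fin (N + 1) → k[X]} (hg : ∀ i, (g i).natDegree ≤ e) {p : k}
    (hp : p ≠ 0) (q : k) :
    val (forms e g) p q = p ^ e • fun i => (g i).eval (q / p) := by
  rw [← val_forms_one hg]
  funext i
  have h1 := V6.val_smul_smul (forms e g) p 1 (q / p) i
  rw [mul_one, mul_div_cancel₀ q hp] at h1
  rw [h1, Pi.smul_apply, smul_eq_mul]

theorem val_forms_zero {e : ℕ} (g : Fin (N + 1) → k[X]) (q : k) :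
    val (forms e g) 0 q = q ^ e • fun i => (g i).coeff e := by
  funext i
  have h1 := V6.val_smul_smul (forms e g) q 0 1 i
  rw [mul_zero, mul_one] at h1
  rw [h1, V6.val_zero_one, Pi.smul_apply, smul_eq_mul]
  rfl

/-- some form is not zero at the finite points -/
theorem cert_eval (D : VData k N n c) {d : ℕ} {R : Fin (N + 1) → k[X]} (hR : Curve D d R) (x : k) :
    ∃ l, MvPolynomial.aeval (fun i => (R i).eval x) (D.H l) ≠ 0 := by
  obtain ⟨μ, hμ, M, hc⟩ := hR.cert
  obtain ⟨A, -, hA⟩ := hc 0 (Nat.zero_le _)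
  by_contra hcon
  push Not at hcon
  have h1 := congrArg (Polynomial.eval x) hA
  rw [eval_finsetSum, pow_zero, mul_one, eval_C] at h1
  apply hμ
  rw [← h1]
  refine Finset.sum_eq_zero fun l _ => ?_
  rw [eval_mul, D61.eval_aeval, hcon l, mul_zero]

/-- some form is not zero at infinity -/
theorem cert_inf (D : VData k N n c) {d : ℕ} {R : Fin (N + 1) → k[X]} (hR : Curve D d R) :
    ∃ l, MvPolynomial.aeval (fun i => (R i).coeff d) (D.H l) ≠ 0 := by
  obtain ⟨μ, hμ, M, hc⟩ := hR.cert
  obtain ⟨A, hAd, hA⟩ := hc M le_rfl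
  by_contra hcon
  push Not at hcon
  have h1 := congrArg (fun f : k[X] => f.coeff M) hA
  simp only [finsetSum_coeff, coeff_C_mul, coeff_X_pow, if_true, mul_one] at h1
  apply hμ
  rw [← h1]
  refine Finset.sum_eq_zero fun l _ => ?_
  by_cases h0 : A l = 0
  · rw [h0, zero_mul, coeff_zero]
  · have h2 := hAd l h0
    have h3 : M = (M - d * D.h l) + d * D.h l := by omega
    have h4 : (MvPolynomial.aeval R (D.H l)).natDegree ≤ d * D.h l :=
      VF.Obs.natDegree_aeval_le hR.deg (D.homH l)
    conv_lhs => rw [h3]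
    rw [coeff_mul_add_eq_of_natDegree_le (by omega) h4, D61.coeff_aeval_top hR.deg (D.homH l),
      hcon l, mul_zero]

theorem eval_mem (D : VData k N n c) {d : ℕ} {R : Fin (N + 1) → k[X]} (hR : Curve D d R) (x : k) :
    (fun i => (R i).eval x) ∈ D.V := by
  rw [D.mem_iff]
  refine ⟨fun E hE => ?_, cert_eval D hR x⟩
  rw [← D61.eval_aeval, hR.onV E hE, eval_zero]

theorem coeff_mem (D : VData k N n c) {d : ℕ} {R : Fin (N + 1) → k[X]} (hR : Curve D d R) :
    (fun i => (R i).coeff d) ∈ D.V := by
  rw [D.mem_iff]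
  refine ⟨fun E hE => ?_, cert_inf D hR⟩
  have h2 := congrArg (MvPolynomial.aeval (fun i => (R i).coeff d))
    (MvPolynomial.sum_homogeneousComponent (φ := E))
  rw [map_sum] at h2
  rw [← h2]
  refine Finset.sum_eq_zero fun m _ => ?_
  rw [← D61.coeff_aeval_top hR.deg (MvPolynomial.homogeneousComponent_isHomogeneous m E),
    hR.onV _ (D.hom E hE m), coeff_zero]

theorem smul_mem (D : VData k N n c) {x : Fin (N + 1) → k} (hx : x ∈ D.V) {a : k} (ha : a ≠ 0) :
    a • x ∈ D.V := by
  rw [D.mem_iff] at hx ⊢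
  obtain ⟨h1, l, hl⟩ := hx
  have hs : (a • x : Fin (N + 1) → k) = fun i => a * x i := rfl
  refine ⟨fun E hE => ?_, l, ?_⟩
  · have h2 := congrArg (MvPolynomial.aeval (a • x)) (MvPolynomial.sum_homogeneousComponent (φ := E))
    rw [map_sum] at h2
    rw [← h2]
    refine Finset.sum_eq_zero fun m _ => ?_
    rw [hs, D61.aeval_scale (MvPolynomial.homogeneousComponent_isHomogeneous m E),
      h1 _ (D.hom E hE m), mul_zero]
  · rw [hs, D61.aeval_scale (D.homH l)]
    exact mul_ne_zero (pow_ne_zero _ ha) hl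

/-- [F-END, first part] the forms define a curve -/
theorem isCurve_forms (D : VData k N n c) {d : ℕ} {R : Fin (N + 1) → k[X]} (hR : Curve D d R) :
    IsCurve D.V (forms d R) := by
  intro p q hpq
  by_cases hp : p = 0
  · subst hp
    have hq : q ≠ 0 := hpq.resolve_left (fun h => h rfl)
    rw [val_forms_zero]
    exact smul_mem D (coeff_mem D hR) (pow_ne_zero _ hq)
  · rw [val_forms hR.deg hp]
    exact smul_mem D (eval_mem D hR _) (pow_ne_zero _ hp)

/-- the tangent space does not change under scaling -/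
theorem tan_scale (D : VData k N n c) {x w : Fin (N + 1) → k} (hw : w ∈ Tan D.V x) (a : k) :
    w ∈ Tan D.V (a • x) := by
  intro E hE
  have hs : (a • x : Fin (N + 1) → k) = fun i => a * x i := rfl
  have h3 : dif E (a • x) w =
      ∑ m ∈ Finset.range (E.totalDegree + 1),
        dif (MvPolynomial.homogeneousComponent m E) (a • x) w := by
    simp only [dif]
    rw [Finset.sum_comm]
    refine Finset.sum_congr rfl fun i _ => ?_
    rw [← Finset.sum_mul, ← map_sum, ← map_sum, MvPolynomial.sum_homogeneousComponent]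
  rw [h3]
  refine Finset.sum_eq_zero fun m _ => ?_
  have h4 : dif (MvPolynomial.homogeneousComponent m E) (a • x) w =
      a ^ (m - 1) * dif (MvPolynomial.homogeneousComponent m E) x w := by
    rw [dif, dif, Finset.mul_sum]
    refine Finset.sum_congr rfl fun i _ => ?_
    rw [hs, D61.aeval_scale (MvPolynomial.homogeneousComponent_isHomogeneous m E).pderiv]
    ring
  rw [h4, hw _ (D.hom E hE m), mul_zero]

/-- tangent polynomials give tangent forms -/
theorem isTangent_forms [Infinite k] (D : VData k N n c) {d e : ℕ} {R g : Fin (N + 1) → k[X]}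
    (hRd : ∀ i, (R i).natDegree ≤ d) (hge : ∀ i, (g i).natDegree ≤ e) (hg : Tang D.V R g) :
    IsTangent D.V (forms d R) (forms e g) := by
  have hev : ∀ x : k, (fun i => (g i).eval x) ∈ Tan D.V (fun i => (R i).eval x) := by
    intro x E hE
    have h1 := congrArg (Polynomial.eval x) (hg E hE)
    rw [dif, eval_finsetSum, eval_zero] at h1
    rw [dif, ← h1]
    refine Finset.sum_congr rfl fun i _ => ?_
    rw [eval_mul, D61.eval_aeval]
  have hne : ∀ p q : k, p ≠ 0 → val (forms e g) p q ∈ Tan D.V (val (forms d R) p q) := by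
    intro p q hp
    rw [val_forms hge hp, val_forms hRd hp]
    exact Submodule.smul_mem _ _ (tan_scale D (hev _) _)
  intro p q
  by_cases hp : p = 0
  · refine V6.tan_of_cofinite D.V (forms d R) (forms e g) p q 1 0 {0} fun s hs => ?_
    rw [hp, zero_add, one_mul, zero_mul, add_zero]
    exact hne s q (by simpa using hs)
  · exact hne p q hp

/-- translation of the parameter -/
theorem natDegree_shift (f : k[X]) (x : k) : (f.comp (X + C x)).natDegree = f.natDegree := by
  rw [natDegree_comp, natDegree_X_add_C, mul_one]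

theorem coeff_shift {f : k[X]} {e : ℕ} (hf : f.natDegree ≤ e) (x : k) :
    (f.comp (X + C x)).coeff e = f.coeff e := by
  rcases lt_or_eq_of_le hf with h | h
  · rw [coeff_eq_zero_of_natDegree_lt h,
      coeff_eq_zero_of_natDegree_lt (by rw [natDegree_shift]; exact h)]
  · have h1 : (f.comp (X + C x)).leadingCoeff = f.leadingCoeff := by
      rw [leadingCoeff_comp (by rw [natDegree_X_add_C]; exact one_ne_zero), leadingCoeff_X_add_C,
        one_pow, mul_one]
    rw [leadingCoeff, leadingCoeff, natDegree_shift] at h1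
    rw [← h]
    exact h1

theorem aeval_shift (R : Fin (N + 1) → k[X]) (x : k) (E : MvPolynomial (Fin (N + 1)) k) :
    MvPolynomial.aeval (fun i => (R i).comp (X + C x)) E =
      (MvPolynomial.aeval R E).comp (X + C x) := by
  have h := MvPolynomial.comp_aeval_apply (R := k) (f := R)
    (Polynomial.aeval (X + C x : k[X]) : k[X] →ₐ[k] k[X]) E
  simp only [← Polynomial.comp_eq_aeval] at h
  exact h.symm

theorem tang_shift {V : Set (Fin (N + 1) → k)} {R g : Fin (N + 1) → k[X]} (h : Tang V R g)
    (x : k) : Tang V (fun i => (R i).comp (X + C x)) (fun i => (g i).comp (X + C x)) := by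
  intro E hE
  have h1 := congrArg (fun f : k[X] => f.comp (X + C x)) (h E hE)
  simp only [zero_comp] at h1
  rw [← h1, dif, dif]
  have h2 : ∀ i, MvPolynomial.aeval (fun i => (R i).comp (X + C x)) (MvPolynomial.pderiv i E) *
      (g i).comp (X + C x) =
      (MvPolynomial.aeval R (MvPolynomial.pderiv i E) * g i).comp (X + C x) := by
    intro i
    rw [aeval_shift, mul_comp]
  rw [Finset.sum_congr rfl fun i _ => h2 i]
  exact (map_sum (Polynomial.compRingHom (X + C x : k[X])) _ _).symm

theorem sec_shift (D : VData k N n c) {d : ℕ} {R : Fin (N + 1) → k[X]}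
    (hR : Curve D d R) {g : Fin n → Fin (N + 1) → k[X]}
    (hg : Sec D d R (Fin.elim0 : Fin 0 → k) g) (x : k) :
    Sec D d (fun i => (R i).comp (X + C x)) (Fin.elim0 : Fin 0 → k)
      (fun j i => (g j i).comp (X + C x)) := by
  refine ⟨fun j i => ?_, fun j => tang_shift (hg.tan j) x, fun j l => l.elim0, ?_⟩
  · rw [natDegree_shift]; exact hg.deg j i
  · have h1 : (Fin.cons (fun i => ((R i).comp (X + C x)).coeff d)
        (fun j i => ((g j i).comp (X + C x)).coeff (d - 1)) : Fin (n + 1) → Fin (N + 1) → k) =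
        Fin.cons (fun i => (R i).coeff d) (fun j i => (g j i).coeff (d - 1)) := by
      congr 1
      · funext i; exact coeff_shift (hR.deg i) x
      · funext j i
        exact coeff_shift (by have := hg.deg j i; omega) x
    rw [h1]
    exact hg.ind

end Fin61

end Pool.Agent.VFF
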