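import Pool.Agent.Lib_MP_1858fb_f.Fin61A
import Pool.Agent.Lib_MP_1858fb_f.FGG
import Pool.Agent.Lib_MP_1858fb_f.CertEx

/-! MP_1858fb_ag, line F: a curve with sections is a very free curve. -/

namespace Pool.Agent.VFF

open Pool.Agent.VF Polynomial

namespace Fin61

variable {k : Type} [Field k] {N n c : ℕ}

theorem curve_shift [IsAlgClosed k] (D : VData k N n c) {d : ℕ} {R : Fin (N + 1) → k[X]}
    (hR : Curve D d R) (x : k) : Curve D d (fun i => (R i).comp (X + C x)) := by
  have hdeg : ∀ i, ((R i).comp (X + C x)).natDegree ≤ d := fun i => by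
    rw [natDegree_shift]; exact hR.deg i
  obtain ⟨M, hM⟩ := cert_of_points D hdeg (fun y => by
    obtain ⟨l, hl⟩ := cert_eval D hR (y + x)
    refine ⟨l, ?_⟩
    have h1 : (fun i => ((R i).comp (X + C x)).eval y) = fun i => (R i).eval (y + x) := by
      funext i; simp
    rw [h1]
    exact hl) (by
    obtain ⟨l, hl⟩ := cert_inf D hR
    refine ⟨l, ?_⟩
    have h1 : (fun i => ((R i).comp (X + C x)).coeff d) = fun i => (R i).coeff d := by
      funext i; exact coeff_shift (hR.deg i) x
    rw [h1]
    exact hl)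
  refine ⟨hdeg, fun E hE => ?_, ⟨1, one_ne_zero, M, hM⟩⟩
  rw [aeval_shift, hR.onV E hE, zero_comp]

/-- sections of degree `d - 1` that are independent modulo the curve at a given point -/
theorem exists_sections [IsAlgClosed k] (D : VData k N n c) {d : ℕ} {R : Fin (N + 1) → k[X]}
    (hR : Curve D d R) {g : Fin n → Fin (N + 1) → k[X]}
    (hg : Sec D d R (Fin.elim0 : Fin 0 → k) g) (p q : k) (hpq : p ≠ 0 ∨ q ≠ 0) :
    ∃ σ : Fin n → Fin (d - 1 + 1) → Fin (N + 1) → k, (∀ j, IsTangent D.V (forms d R) (σ j)) ∧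
      LinearIndependent k (Fin.cons (val (forms d R) p q) (fun j => val (σ j) p q) :
        Fin (n + 1) → Fin (N + 1) → k) := by
  haveI : Infinite k := IsAlgClosed.instInfinite
  by_cases hp : p = 0
  · subst hp
    have hq : q ≠ 0 := hpq.resolve_left (fun h => h rfl)
    have hgd : ∀ j i, (g j i).natDegree ≤ d - 1 := fun j i => by have := hg.deg j i; omega
    refine ⟨fun j => forms (d - 1) (g j), fun j => isTangent_forms D hR.deg (hgd j) (hg.tan j),
      ?_⟩
    have h1 := hg.ind.units_smul (Fin.cons (Units.mk0 q hq ^ d) fun _ => Units.mk0 q hq ^ (d - 1))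
    convert! h1 using 1
    funext a
    refine Fin.cases ?_ (fun j => ?_) a
    · rw [Pi.smul_apply', Fin.cons_zero, Fin.cons_zero, Fin.cons_zero, val_forms_zero]
      rfl
    · rw [Pi.smul_apply', Fin.cons_succ, Fin.cons_succ, Fin.cons_succ, val_forms_zero]
      rfl
  · obtain ⟨g', hg'd, hg'T, -, hg'i⟩ := gg D (curve_shift D hR (q / p)) (Fin.elim0 : Fin 0 → k)
      (fun a => a.elim0) (fun a => a.elim0) (sec_shift D hR hg (q / p))
    set g2 : Fin n → Fin (N + 1) → k[X] := fun j i => (g' j i).comp (X + C (-(q / p))) with hg2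
    have hg2d : ∀ j i, (g2 j i).natDegree ≤ d - 1 := fun j i => by
      have h1 := hg'd j i
      simp only [hg2]
      rw [natDegree_shift]
      omega
    have hback : ∀ f : k[X], (f.comp (X + C (q / p))).comp (X + C (-(q / p))) = f := by
      intro f
      rw [comp_assoc]
      simp
    have hg2T : ∀ j, Tang D.V R (g2 j) := by
      intro j
      have h1 := tang_shift (hg'T j) (-(q / p))
      simp only [hback] at h1
      exact h1
    refine ⟨fun j => forms (d - 1) (g2 j), fun j => isTangent_forms D hR.deg (hg2d j) (hg2T j),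
      ?_⟩
    have h1 := hg'i.units_smul (Fin.cons (Units.mk0 p hp ^ d) fun _ => Units.mk0 p hp ^ (d - 1))
    convert! h1 using 1
    funext a
    refine Fin.cases ?_ (fun j => ?_) a
    · rw [Pi.smul_apply', Fin.cons_zero, Fin.cons_zero, Fin.cons_zero, val_forms hR.deg hp]
      have h2 : (fun i => ((R i).comp (X + C (q / p))).eval 0) = fun i => (R i).eval (q / p) := by
        funext i; simp
      rw [h2]
      rfl
    · rw [Pi.smul_apply', Fin.cons_succ, Fin.cons_succ, Fin.cons_succ, val_forms (hg2d j) hp]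
      have h2 : (fun i => (g2 j i).eval (q / p)) = fun i => (g' j i).eval 0 := by
        funext i; simp [hg2]
      rw [h2]
      rfl

/-- every tangent vector is the value of a tangent tuple of degree `d - 1`, modulo the curve -/
theorem exists_value [IsAlgClosed k] (D : VData k N n c) {d : ℕ} {R : Fin (N + 1) → k[X]}
    (hR : Curve D d R) {g : Fin n → Fin (N + 1) → k[X]}
    (hg : Sec D d R (Fin.elim0 : Fin 0 → k) g) (p q : k) (hpq : p ≠ 0 ∨ q ≠ 0)
    {w : Fin (N + 1) → k} (hw : w ∈ Tan D.V (val (forms d R) p q)) :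
    ∃ G : Fin (d - 1 + 1) → Fin (N + 1) → k, IsTangent D.V (forms d R) G ∧
      ∃ a : k, val G p q = w + a • val (forms d R) p q := by
  haveI : Infinite k := IsAlgClosed.instInfinite
  obtain ⟨σ, hσ, hind⟩ := exists_sections D hR hg p q hpq
  have hmem := isCurve_forms D hR p q hpq
  have hself : val (forms d R) p q ∈ Tan D.V (val (forms d R) p q) := by
    have h1 : IsTangent D.V (forms d R) (forms d R) :=
      isTangent_forms D hR.deg hR.deg (fun E hE => tang_self D hR.onV E hE)
    exact h1 p q
  have hall : ∀ a, (Fin.cons (val (forms d R) p q) (fun j => val (σ j) p q) :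
      Fin (n + 1) → Fin (N + 1) → k) a ∈ Tan D.V (val (forms d R) p q) := by
    intro a
    refine Fin.cases ?_ (fun j => ?_) a
    · rw [Fin.cons_zero]; exact hself
    · rw [Fin.cons_succ]; exact hσ j p q
  have hfr : Module.finrank k (Tan D.V (val (forms d R) p q)) = n + 1 := by
    have h1 := finrank_tan hmem (D.smooth _ hmem)
    have h2 := D.hc
    rw [Fintype.card_fin] at h1
    omega
  have hind' : LinearIndependent k (fun a => (⟨_, hall a⟩ : Tan D.V (val (forms d R) p q))) := by
    apply LinearIndependent.of_comp (Tan D.V (val (forms d R) p q)).subtype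
    exact hind
  have hspan := hind'.span_eq_top_of_card_eq_finrank' (by rw [Fintype.card_fin, hfr])
  have hw' : (⟨w, hw⟩ : Tan D.V (val (forms d R) p q)) ∈ Submodule.span k
      (Set.range (fun a => (⟨_, hall a⟩ : Tan D.V (val (forms d R) p q)))) := by
    rw [hspan]; trivial
  obtain ⟨b, hb⟩ := (Submodule.mem_span_range_iff_exists_fun k).mp hw'
  have hb2 := congrArg Subtype.val hb
  rw [AddSubmonoidClass.coe_finset_sum, Fin.sum_univ_succ] at hb2
  simp only [Submodule.coe_smul, Fin.cons_zero, Fin.cons_succ] at hb2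
  refine ⟨∑ j, b j.succ • σ j, ?_, -b 0, ?_⟩
  · intro p' q'
    have h1 : val (∑ j, b j.succ • σ j) p' q' = ∑ j, b j.succ • val (σ j) p' q' := by
      funext i
      simp only [val, Finset.sum_apply, Pi.smul_apply, smul_eq_mul, Finset.sum_mul,
        Finset.mul_sum]
      rw [Finset.sum_comm]
      exact Finset.sum_congr rfl fun j _ => Finset.sum_congr rfl fun m _ => by ring
    rw [h1]
    exact Submodule.sum_mem _ fun j _ => Submodule.smul_mem _ _ (hσ j p' q')
  · have h1 : val (∑ j, b j.succ • σ j) p q = ∑ j, b j.succ • val (σ j) p q := by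
      funext i
      simp only [val, Finset.sum_apply, Pi.smul_apply, smul_eq_mul, Finset.sum_mul,
        Finset.mul_sum]
      rw [Finset.sum_comm]
      exact Finset.sum_congr rfl fun j _ => Finset.sum_congr rfl fun m _ => by ring
    rw [h1, ← hb2, neg_smul]
    abel

end Fin61

/-- a curve with sections is very free -/
theorem veryFree_of_sec {k : Type} [Field k] [IsAlgClosed k] {N n c : ℕ}
    (D : VData k N n c) {d : ℕ} (hd : 0 < d) {R : Fin (N + 1) → k[X]} (hR : Curve D d R)
    {g : Fin n → Fin (N + 1) → k[X]} (hg : Sec D d R (Fin.elim0 : Fin 0 → k) g) :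
    VeryFree D.V (Fin61.forms d R) := by
  obtain ⟨e, rfl⟩ : ∃ e, d = e + 1 := ⟨d - 1, by omega⟩
  intro p q p' q' hdet w hw w' hw'
  have hpq : p ≠ 0 ∨ q ≠ 0 := by
    by_contra hcon
    push Not at hcon
    exact hdet (by rw [hcon.1, hcon.2]; ring)
  have hpq' : p' ≠ 0 ∨ q' ≠ 0 := by
    by_contra hcon
    push Not at hcon
    exact hdet (by rw [hcon.1, hcon.2]; ring)
  obtain ⟨G, hG, a, h1⟩ := Fin61.exists_value D hR hg p q hpq hw
  obtain ⟨G', hG', a', h1'⟩ := Fin61.exists_value D hR hg p' q' hpq' hw'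
  change Fin (e + 1) → Fin (N + 1) → k at G G'
  have hG1 : IsTangent D.V (Fin61.forms (e + 1) R) G := hG
  have hG1' : IsTangent D.V (Fin61.forms (e + 1) R) G' := hG'
  have h2 : val G p q = w + a • val (Fin61.forms (e + 1) R) p q := h1
  have h2' : val G' p' q' = w' + a' • val (Fin61.forms (e + 1) R) p' q' := h1'
  refine ⟨(p * q' - p' * q)⁻¹ • V4.linMul q' (-p') G +
    (-(p * q' - p' * q)⁻¹) • V4.linMul q (-p) G', ?_, ⟨a, ?_⟩, ⟨a', ?_⟩⟩
  · exact V4.isTangent_add (V4.isTangent_smul _ (V4.isTangent_linMul hG1 _ _))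
      (V4.isTangent_smul _ (V4.isTangent_linMul hG1' _ _))
  · rw [V4.val_add, V4.val_smul, V4.val_smul, V4.val_linMul, V4.val_linMul, h2]
    have h3 : q * p + -p * q = 0 := by ring
    have h4 : q' * p + -p' * q = p * q' - p' * q := by ring
    rw [h3, h4, zero_smul, smul_zero, add_zero, smul_smul, inv_mul_cancel₀ hdet, one_smul]
  · rw [V4.val_add, V4.val_smul, V4.val_smul, V4.val_linMul, V4.val_linMul, h2']
    have h3 : q' * p' + -p' * q' = 0 := by ring
    have h4 : q * p' + -p * q' = -(p * q' - p' * q) := by ring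
    rw [h3, h4, zero_smul, smul_zero, zero_add, smul_smul, neg_mul_neg, inv_mul_cancel₀ hdet,
      one_smul]

end Pool.Agent.VFF
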