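import Pool.Agent.Lib_MP_1858fb_f.FinishB
import Pool.Agent.Lib_MP_1858fb_f.Finish61

set_option autoImplicit false

/-!
# MP_1858fb_ag, line F, F-END (helper6, helper61): back to the definitions of `Defs.lean`
-/

namespace Pool.Agent.VFF

open Pool.Agent.VF Polynomial

variable {k : Type} [Field k] {N n c : ℕ}

/-- [F-END] back to the definitions of `Defs.lean` -/
theorem finish [IsAlgClosed k] (D : VData k N n c) {m : ℕ} (vs : Fin m → Fin (N + 1) → k)
    (hvs : ∀ l, vs l ∈ D.V) (h : HasCurve D vs) :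
    ∃ (d : ℕ) (F : Fin (d + 1) → Fin (N + 1) → k) (cm : Fin m → k), Function.Injective cm ∧
      IsCurve D.V F ∧ VeryFree D.V F ∧ ∀ l, ∃ a : k, a ≠ 0 ∧ val F 1 (cm l) = a • vs l :=
  finish_of_veryFree D vs hvs h fun _ hd _ hR _ hg => veryFree_of_sec D hd hR hg

end Pool.Agent.VFF
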