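import Pool.Agent.Lib_MP_1858fb_f.GDefs
import Pool.Agent.Lib_MP_1858fb_d.DeformA

set_option autoImplicit false

/-!
# MP_1858fb_ag, line F, F-END part A (helper6): from `Curve` to `IsCurve`
-/

namespace Pool.Agent.VFF

open Pool.Agent.VF Polynomial

variable {k : Type} [Field k] {N n c : ℕ}

namespace FinishA

theorem onV_of_hom (D : VData k N n c) {A : Type} [CommRing A] [Algebra k A]
    {x : Fin (N + 1) → A}
    (h : ∀ E ∈ van D.V, ∀ e, E.IsHomogeneous e → MvPolynomial.aeval x E = 0) : OnV D.V x := by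
  intro E hE
  rw [← MvPolynomial.sum_homogeneousComponent E, map_sum]
  exact Finset.sum_eq_zero fun e _ =>
    h _ (D.hom E hE e) e (MvPolynomial.homogeneousComponent_isHomogeneous e E)

theorem smul_mem (D : VData k N n c) {x : Fin (N + 1) → k} (hx : x ∈ D.V) {a : k} (ha : a ≠ 0) :
    (fun i => a * x i) ∈ D.V := by
  rw [D.mem_iff] at hx ⊢
  obtain ⟨h1, l, hl⟩ := hx
  refine ⟨fun E hE => onV_of_hom D (fun E hE e he => ?_) E hE, l, ?_⟩
  · rw [D61.aeval_scale he, h1 E hE, mul_zero]
  · rw [D61.aeval_scale (D.homH l)]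
    exact mul_ne_zero (pow_ne_zero _ ha) hl

theorem natDegree_aeval_le {A : Type} [CommRing A] [Algebra k A] {σ : Type} {d e : ℕ}
    {R : σ → A[X]} (hR : ∀ i, (R i).natDegree ≤ d) {E : MvPolynomial σ k}
    (hE : E.IsHomogeneous e) : (MvPolynomial.aeval R E).natDegree ≤ d * e := by
  rw [MvPolynomial.aeval_def, MvPolynomial.eval₂_eq]
  refine Polynomial.natDegree_sum_le_of_forall_le _ _ fun s hs => ?_
  have hse : ∑ i ∈ s.support, s i = e := by
    have h4 := hE (MvPolynomial.mem_support_iff.1 hs)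
    rw [← h4, Finsupp.weight_apply]
    exact (Finset.sum_congr rfl fun i _ => by simp).symm
  have h1 : ((algebraMap k A[X]) (MvPolynomial.coeff s E)).natDegree ≤ 0 := by
    rw [Polynomial.algebraMap_apply, Polynomial.natDegree_C]
  have h2 : (∏ i ∈ s.support, R i ^ s i).natDegree ≤ ∑ i ∈ s.support, d * s i := by
    refine (Polynomial.natDegree_prod_le _ _).trans (Finset.sum_le_sum fun i _ => ?_)
    refine Polynomial.natDegree_pow_le.trans ?_
    rw [mul_comm]
    exact Nat.mul_le_mul_right _ (hR i)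
  refine Polynomial.natDegree_mul_le.trans ?_
  rw [← Finset.mul_sum, hse] at h2
  omega

theorem onV_eval {A : Type} [CommRing A] [Algebra k A] {V : Set (Fin (N + 1) → k)}
    {R : Fin (N + 1) → A[X]} (h : OnV V R) (x : A) : OnV V (fun i => (R i).eval x) := by
  intro E hE
  rw [← D61.eval_aeval, h E hE, Polynomial.eval_zero]

theorem coeff_aeval_top {A : Type} [CommRing A] [Algebra k A] {σ : Type} {d e : ℕ}
    {R : σ → A[X]} (hR : ∀ i, (R i).natDegree ≤ d) {E : MvPolynomial σ k}
    (hE : E.IsHomogeneous e) :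
    (MvPolynomial.aeval R E).coeff (d * e) =
      MvPolynomial.aeval (fun i => (R i).coeff d) E := by
  rw [MvPolynomial.aeval_def, MvPolynomial.aeval_def, MvPolynomial.eval₂_eq,
    MvPolynomial.eval₂_eq, Polynomial.finsetSum_coeff]
  refine Finset.sum_congr rfl fun s hs => ?_
  have hse : ∑ i ∈ s.support, s i = e := by
    have h4 := hE (MvPolynomial.mem_support_iff.1 hs)
    rw [← h4, Finsupp.weight_apply]
    exact (Finset.sum_congr rfl fun i _ => by simp).symm
  rw [Polynomial.algebraMap_apply, Polynomial.coeff_C_mul]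
  congr 1
  have h3 : d * e = ∑ i ∈ s.support, d * s i := by rw [← Finset.mul_sum, hse]
  rw [h3, D61.coeff_prod_sum]
  · refine Finset.prod_congr rfl fun i _ => ?_
    rw [mul_comm d]
    exact Polynomial.coeff_pow_of_natDegree_le (hR i)
  · intro i _
    refine Polynomial.natDegree_pow_le.trans ?_
    rw [mul_comm]
    exact Nat.mul_le_mul_right _ (hR i)

theorem onV_coeff (D : VData k N n c) {A : Type} [CommRing A] [Algebra k A] {d : ℕ}
    {R : Fin (N + 1) → A[X]} (hd : ∀ i, (R i).natDegree ≤ d) (h : OnV D.V R) :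
    OnV D.V (fun i => (R i).coeff d) := by
  refine onV_of_hom D fun E hE e he => ?_
  rw [← coeff_aeval_top hd he, h E hE, Polynomial.coeff_zero]

theorem cert_eval {D : VData k N n c} {A : Type} [CommRing A] [Algebra k A] {d : ℕ}
    {R : Fin (N + 1) → A[X]} {μ : A} (hμ : μ ≠ 0) {M : ℕ} (h : Cert D d R μ M) (x : A) :
    ∃ l, MvPolynomial.aeval (fun i => (R i).eval x) (D.H l) ≠ 0 := by
  by_contra hcon
  push Not at hcon
  obtain ⟨a, -, ha⟩ := h 0 (Nat.zero_le _)
  have h1 := congrArg (Polynomial.eval x) ha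
  rw [Polynomial.eval_finsetSum] at h1
  simp only [Polynomial.eval_mul, D61.eval_aeval, hcon, mul_zero, Finset.sum_const_zero,
    Polynomial.eval_C, pow_zero, mul_one] at h1
  exact hμ h1.symm

theorem cert_coeff {D : VData k N n c} {A : Type} [CommRing A] [Algebra k A] {d : ℕ}
    {R : Fin (N + 1) → A[X]} (hd : ∀ i, (R i).natDegree ≤ d) {μ : A} (hμ : μ ≠ 0) {M : ℕ}
    (h : Cert D d R μ M) :
    ∃ l, MvPolynomial.aeval (fun i => (R i).coeff d) (D.H l) ≠ 0 := by
  by_contra hcon
  push Not at hcon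
  obtain ⟨a, ha1, ha⟩ := h M le_rfl
  have h1 := congrArg (fun p => Polynomial.coeff p M) ha
  simp only [Polynomial.finsetSum_coeff, Polynomial.coeff_C_mul, Polynomial.coeff_X_pow_self,
    mul_one] at h1
  apply hμ
  rw [← h1]
  refine Finset.sum_eq_zero fun l _ => ?_
  by_cases hl : a l = 0
  · rw [hl, zero_mul, Polynomial.coeff_zero]
  · have h2 := ha1 l hl
    have h3 : (MvPolynomial.aeval R (D.H l)).natDegree ≤ d * D.h l :=
      natDegree_aeval_le hd (D.homH l)
    have h4 : (a l).natDegree ≤ M - d * D.h l := by omega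
    have h5 : M = (M - d * D.h l) + d * D.h l := by omega
    rw [h5, Polynomial.coeff_mul_add_eq_of_natDegree_le h4 h3, coeff_aeval_top hd (D.homH l),
      hcon l, mul_zero]

end FinishA

open FinishA

/-- The points of a curve. -/
theorem curve_points (D : VData k N n c) {d : ℕ} {R : Fin (N + 1) → k[X]} (hR : Curve D d R) :
    (∀ x : k, (fun i => (R i).eval x) ∈ D.V) ∧ (fun i => (R i).coeff d) ∈ D.V := by
  obtain ⟨μ, hμ, M, hM⟩ := hR.cert
  refine ⟨fun x => ?_, ?_⟩
  · rw [D.mem_iff]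
    exact ⟨onV_eval hR.onV x, cert_eval hμ hM x⟩
  · rw [D.mem_iff]
    exact ⟨onV_coeff D hR.deg hR.onV, cert_coeff hR.deg hμ hM⟩

/-- The value of the tuple of forms with the coefficients of `R`, at `(1, x)`. -/
theorem val_coeff_one {d : ℕ} {R : Fin (N + 1) → k[X]} (hd : ∀ i, (R i).natDegree ≤ d) (x : k) :
    val (fun (j : Fin (d + 1)) i => (R i).coeff (j : ℕ)) 1 x = fun i => (R i).eval x := by
  funext i
  unfold val
  rw [Polynomial.eval_eq_sum_range' (Nat.lt_succ_of_le (hd i)), Finset.sum_range]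
  refine Finset.sum_congr rfl fun j _ => ?_
  rw [one_pow, one_mul]

/-- The value at `(p, q)` for `p ≠ 0`. -/
theorem val_coeff_ne {d : ℕ} {R : Fin (N + 1) → k[X]} (hd : ∀ i, (R i).natDegree ≤ d) {p : k}
    (hp : p ≠ 0) (q : k) :
    val (fun (j : Fin (d + 1)) i => (R i).coeff (j : ℕ)) p q =
      fun i => p ^ d * (R i).eval (q / p) := by
  funext i
  have h1 : (R i).eval (q / p) =
      val (fun (j : Fin (d + 1)) i => (R i).coeff (j : ℕ)) 1 (q / p) i :=
    (congrFun (val_coeff_one hd (q / p)) i).symm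
  rw [h1]
  unfold val
  rw [Finset.mul_sum]
  refine Finset.sum_congr rfl fun j _ => ?_
  have hj : (j : ℕ) ≤ d := Nat.lt_succ_iff.1 j.isLt
  have h2 : p ^ d = p ^ (d - (j : ℕ)) * p ^ (j : ℕ) := by rw [← pow_add, Nat.sub_add_cancel hj]
  rw [one_pow, one_mul, h2, div_pow]
  field_simp

/-- The value at `(0, q)`. -/
theorem val_coeff_zero {d : ℕ} (R : Fin (N + 1) → k[X]) (q : k) :
    val (fun (j : Fin (d + 1)) i => (R i).coeff (j : ℕ)) 0 q =
      fun i => q ^ d * (R i).coeff d := by
  funext i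
  unfold val
  rw [Finset.sum_eq_single (Fin.last d)]
  · rw [Fin.val_last, Nat.sub_self, pow_zero, one_mul, mul_comm]
    rfl
  · intro j _ hj
    have h1 : (j : ℕ) < d := by
      have h2 := j.isLt
      have h3 : (j : ℕ) ≠ d := fun h => hj (Fin.ext (by rw [Fin.val_last]; exact h))
      omega
    rw [zero_pow (by omega), zero_mul, mul_zero]
  · intro h
    exact absurd (Finset.mem_univ _) h

/-- From `Curve` to `IsCurve`. -/
theorem isCurve_of_curve (D : VData k N n c) {d : ℕ} {R : Fin (N + 1) → k[X]}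
    (hR : Curve D d R) : IsCurve D.V (fun (j : Fin (d + 1)) i => (R i).coeff (j : ℕ)) := by
  obtain ⟨h1, h2⟩ := curve_points D hR
  intro p q hpq
  by_cases hp : p = 0
  · subst hp
    rw [val_coeff_zero]
    exact smul_mem D h2 (pow_ne_zero _ (hpq.resolve_left (not_not.2 rfl)))
  · rw [val_coeff_ne hR.deg hp]
    exact smul_mem D (h1 (q / p)) (pow_ne_zero _ hp)

end Pool.Agent.VFF
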