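import Pool.Agent.Lib_MP_1858fb_f.FinishA

set_option autoImplicit false

/-!
# MP_1858fb_ag, line F, F-END part B (helper6): marks
-/

namespace Pool.Agent.VFF

open Pool.Agent.VF Polynomial

variable {k : Type} [Field k] {N n c : ℕ}

namespace FinishB

theorem ne_zero_of_mem (D : VData k N n c) {x : Fin (N + 1) → k} (hx : x ∈ D.V) : x ≠ 0 := by
  rintro rfl
  obtain ⟨-, l, hl⟩ := (D.mem_iff _).1 hx
  apply hl
  have h1 := D61.aeval_scale (D.homH l) (0 : k) (0 : Fin (N + 1) → k)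
  have h2 : (fun i => (0 : k) * (0 : Fin (N + 1) → k) i) = 0 := by
    funext i
    simp
  rw [h2, zero_pow (D.hpos l).ne', zero_mul] at h1
  exact h1

theorem exists_scale {v x : Fin (N + 1) → k} (hv : v ≠ 0) (hx : x ≠ 0) (h : Prop' v x) :
    ∃ a : k, a ≠ 0 ∧ x = a • v := by
  obtain ⟨i, hi⟩ := Function.ne_iff.1 hv
  have hi' : v i ≠ 0 := hi
  have h1 : x = (x i / v i) • v := by
    funext j
    have h2 := h j i
    simp only [Algebra.algebraMap_self, RingHom.id_apply] at h2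
    rw [Pi.smul_apply, smul_eq_mul]
    field_simp
    linear_combination h2
  refine ⟨x i / v i, fun h0 => hx ?_, h1⟩
  rw [h1, h0, zero_smul]

end FinishB

open FinishA FinishB

/-- Everything in `finish` except the very free part. -/
theorem finish_of_veryFree (D : VData k N n c) {m : ℕ} (vs : Fin m → Fin (N + 1) → k)
    (hvs : ∀ l, vs l ∈ D.V) (h : HasCurve D vs)
    (hvf : ∀ (d : ℕ), 0 < d → ∀ R : Fin (N + 1) → k[X], Curve D d R →
      ∀ g : Fin n → Fin (N + 1) → k[X], Sec D d R (Fin.elim0 : Fin 0 → k) g →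
        VeryFree D.V (fun (j : Fin (d + 1)) i => (R i).coeff (j : ℕ))) :
    ∃ (d : ℕ) (F : Fin (d + 1) → Fin (N + 1) → k) (cm : Fin m → k), Function.Injective cm ∧
      IsCurve D.V F ∧ VeryFree D.V F ∧ ∀ l, ∃ a : k, a ≠ 0 ∧ val F 1 (cm l) = a • vs l := by
  obtain ⟨d, hd, R, cm, hcm, -, hR, hRm, g, hg⟩ := h
  refine ⟨d, fun j i => (R i).coeff (j : ℕ), cm, hcm, isCurve_of_curve D hR,
    hvf d hd R hR g hg, fun l => ?_⟩
  rw [val_coeff_one hR.deg]
  exact exists_scale (ne_zero_of_mem D (hvs l)) (ne_zero_of_mem D ((curve_points D hR).1 (cm l)))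
    (hRm l)

end Pool.Agent.VFF
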