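import Pool.Agent.Lib_MP_1858fb_f.FDefs

/-! # MP_1858fb_ag, line F: the frame at `v` is a frame at every power series point near `v` -/

namespace Pool.Agent.VFF

open Pool.Agent.VF Polynomial

variable {k : Type} [Field k] {N n c : ℕ}

private theorem frameDef_const_aeval {σ A : Type} [CommRing A] [Algebra k A]
    (α : σ → PowerSeries A) (v : σ → k)
    (hα : ∀ i, PowerSeries.constantCoeff (α i) = algebraMap k A (v i)) (E : MvPolynomial σ k) :
    PowerSeries.constantCoeff (MvPolynomial.aeval α E) =
      algebraMap k A (MvPolynomial.aeval v E) := by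
  induction E using MvPolynomial.induction_on with
  | C a =>
    rw [MvPolynomial.aeval_C, MvPolynomial.aeval_C, Algebra.algebraMap_self, RingHom.id_apply]
    rw [PowerSeries.algebraMap_apply, PowerSeries.constantCoeff_C]
  | add p q hp hq => rw [map_add, map_add, map_add, hp, hq, map_add]
  | mul_X p i hp =>
    rw [map_mul, map_mul, map_mul, hp, MvPolynomial.aeval_X, MvPolynomial.aeval_X, hα, map_mul]

/-- [F-FRAME] the frame at `v` is a frame at every power series point congruent to `v` -/
theorem frame_deform {v : Fin (N + 1) → k} (D : VData k N n c) (fv : FrameAt D v)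
    {A : Type} [CommRing A] [Algebra k A] (α : Fin (N + 1) → PowerSeries A)
    (hα : ∀ i, PowerSeries.constantCoeff (α i) = algebraMap k A (v i)) :
    Frame D.V fv.l fv.E α (1 : PowerSeries A) := by
  classical
  obtain ⟨hE, B, hB⟩ := fv.hfr
  refine ⟨hE, ?_⟩
  have hrow : ∀ a j, PowerSeries.constantCoeff (row fv.l fv.E α a j) =
      algebraMap k A (row fv.l fv.E v a j) := by
    intro a j
    rcases a with a | b
    · show PowerSeries.constantCoeff (algebraMap k (PowerSeries A) (fv.l a j)) =
        algebraMap k A (algebraMap k k (fv.l a j))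
      rw [PowerSeries.algebraMap_apply, PowerSeries.constantCoeff_C, Algebra.algebraMap_self,
        RingHom.id_apply]
    · exact frameDef_const_aeval α v hα _
  let P : Matrix (Fin (N + 1)) (Fin (N + 1)) (PowerSeries A) := fun i j =>
    ∑ a, PowerSeries.C (algebraMap k A (B i a)) * row fv.l fv.E α a j
  have hP1 : (PowerSeries.constantCoeff (R := A)).mapMatrix P = 1 := by
    ext i j
    rw [RingHom.mapMatrix_apply, Matrix.map_apply]
    show PowerSeries.constantCoeff
      (∑ a, PowerSeries.C (algebraMap k A (B i a)) * row fv.l fv.E α a j) = _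
    rw [map_sum]
    simp only [map_mul, hrow, PowerSeries.constantCoeff_C]
    simp only [← map_mul, ← map_sum]
    rw [hB i j, Matrix.one_apply]
    split_ifs <;> simp
  have hdet : IsUnit P.det := by
    rw [PowerSeries.isUnit_iff_constantCoeff]
    have h1 : PowerSeries.constantCoeff P.det = 1 := by
      rw [RingHom.map_det, hP1, Matrix.det_one]
    rw [h1]
    exact isUnit_one
  refine ⟨fun i a => ∑ j, P⁻¹ i j * PowerSeries.C (algebraMap k A (B j a)), fun i j => ?_⟩
  have h2 : (P⁻¹ * P) i j = if i = j then 1 else 0 := by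
    rw [Matrix.nonsing_inv_mul P hdet, Matrix.one_apply]
  rw [← h2, Matrix.mul_apply]
  simp only [Finset.sum_mul]
  rw [Finset.sum_comm]
  refine Finset.sum_congr rfl fun m _ => ?_
  show _ = P⁻¹ i m * ∑ a, PowerSeries.C (algebraMap k A (B m a)) * row fv.l fv.E α a j
  rw [Finset.mul_sum]
  exact Finset.sum_congr rfl fun a _ => by ring

end Pool.Agent.VFF
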