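import Pool.Agent.Lib_MP_1858fb_f.FDefs

/-! # MP_1858fb_ag, line F: definitions for the curve selection and the induction -/

namespace Pool.Agent.VFF

open Pool.Agent.VF Polynomial

variable {k : Type} [Field k] {N n c : ℕ}

/-- Solutions over the field `K` of the system 'curve of degree `≤ d` from `y` to `z` through the
marks, with certificate and sections'. -/
def Sol (D : VData k N n c) (d : ℕ) {w : ℕ} (cm : Fin w → k) (vs : Fin w → Fin (N + 1) → k)
    (y : Fin (N + 1) → k) (M : ℕ) (K : Type) [Field K] [Algebra k K] (z : Fin (N + 1) → K) :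
    Prop :=
  ∃ R : Fin (N + 1) → K[X], (∀ i, (R i).natDegree ≤ d) ∧ OnV D.V R ∧ Cert D d R (1 : K) M ∧
    (∀ i, (R i).coeff 0 = algebraMap k K (y i)) ∧
    (∃ u : K, u ≠ 0 ∧ ∀ i, (R i).coeff d = u * z i) ∧
    (∀ l, Prop' (vs l) (fun i => (R i).eval (algebraMap k K (cm l)))) ∧
    ∃ g : Fin n → Fin (N + 1) → K[X], Sec D d R cm g

/-- There is a curve through the points `v l`, at distinct nonzero parameters, with sections. -/
def HasCurve (D : VData k N n c) {m : ℕ} (v : Fin m → Fin (N + 1) → k) : Prop :=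
  ∃ d : ℕ, 0 < d ∧ ∃ (R : Fin (N + 1) → k[X]) (cm : Fin m → k), Function.Injective cm ∧
    (∀ l, cm l ≠ 0) ∧ Curve D d R ∧ (∀ l, Prop' (v l) (fun i => (R i).eval (cm l))) ∧
    ∃ g : Fin n → Fin (N + 1) → k[X], Sec D d R (Fin.elim0 : Fin 0 → k) g

/-- the exponent of `P ^ i * Q ^ j` -/
noncomputable def ij (i j : ℕ) : Fin 2 →₀ ℕ := Finsupp.single 1 i + Finsupp.single 0 j

/-- the ring of power series in `P`, `Q` (`P` has index `1`, `Q` index `0`, as in Ring.lean) -/
abbrev W (κ : Type) [CommRing κ] : Type := MvPowerSeries (Fin 2) κ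

/-- power series in `q` (the variable `PowerSeries.X`) with coefficients Laurent series in `T` -/
abbrev OL (κ : Type) [CommRing κ] : Type := PowerSeries (LaurentSeries κ)

/-- the power series `P` -/
noncomputable def WP (κ : Type) [CommRing κ] : W κ := MvPowerSeries.X 1

/-- the power series `Q` -/
noncomputable def WQ (κ : Type) [CommRing κ] : W κ := MvPowerSeries.X 0

/-- the power `T ^ a` -/
noncomputable def TT (κ : Type) [CommRing κ] (a : ℤ) : LaurentSeries κ := HahnSeries.single a 1

/-- all Laurent coefficients have only powers `T ^ a` with `a ≤ 0`, finitely many -/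
def NonPos {κ : Type} [CommRing κ] (f : OL κ) : Prop :=
  ∀ b : ℕ, ∀ a : ℤ, 0 < a → (PowerSeries.coeff b f).coeff a = 0

/-- homogeneous evaluation of the polynomial with the coefficients `p 0, .., p d` -/
def hv {A : Type} [CommRing A] (d : ℕ) (p : ℕ → A) (a b : A) : A :=
  ∑ m ∈ Finset.range (d + 1), p m * a ^ (d - m) * b ^ m

end Pool.Agent.VFF
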