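import Pool.Agent.Lib_MP_1858fb_f.GDefs

/-! # MP_1858fb_ag, line F: the input of the gluing -/

namespace Pool.Agent.VFF

open Pool.Agent.VF Polynomial

/-- Input of the gluing: the family `F` over `k⟦τ⟧⟦ξ⟧`, `ξ = (a, b)`. -/
structure GIn {k : Type} [Field k] {N n c : ℕ} (D : VData k N n c) {y v : Fin (N + 1) → k}
    (fy : FrameAt D y) (fv : FrameAt D v) (d : ℕ)
    (F : Fin (N + 1) → (MvPowerSeries (Fin (n + n)) (PowerSeries k))[X])
    (α : Fin (N + 1) → PowerSeries k) (t ρ0 ρ1 : PowerSeries k) : Prop where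
  hd : 0 < d
  ht : t ≠ 0
  hρ0 : ρ0 ≠ 0
  hρ1 : ρ1 ≠ 0
  deg : ∀ i, (F i).natDegree ≤ d
  onV : OnV D.V F
  hα : OnV D.V α
  hα0 : ∀ i, PowerSeries.constantCoeff (α i) = v i
  hα1 : lin (fv.l 0) α = 1
  z0 : lin (fy.l 0) (fun i => (F i).coeff 0) = MvPowerSeries.C ρ0
  z1 : ∀ j : Fin n, lin (fy.l j.succ) (fun i => (F i).coeff 0) =
    MvPowerSeries.C (ρ0 * t ^ 2) * MvPowerSeries.X (Fin.castAdd n j)
  z2 : ∀ i, ∃ Δ : MvPowerSeries (Fin (n + n)) (PowerSeries k),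
    MvPowerSeries.constantCoeff Δ = 0 ∧
    (F i).coeff 0 = MvPowerSeries.C ρ0 * (MvPowerSeries.C (algebraMap k _ (y i)) + Δ)
  i1 : ∀ j : Fin n, lin (fv.l j.succ) (fun i => (F i).coeff d) =
    (MvPowerSeries.C (lin (fv.l j.succ) α) +
      MvPowerSeries.C (t ^ 2) * MvPowerSeries.X (Fin.natAdd n j)) *
      lin (fv.l 0) (fun i => (F i).coeff d)
  i2 : ∀ i, ∃ Δ : MvPowerSeries (Fin (n + n)) (PowerSeries k),
    MvPowerSeries.constantCoeff Δ = 0 ∧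
    (F i).coeff d = MvPowerSeries.C ρ1 * (MvPowerSeries.C (α i) + Δ)

end Pool.Agent.VFF
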