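import Pool.Agent.Lib_MP_1858fb_f.GDefs

/-! # MP_1858fb_ag, line F: strictly negative powers -/

namespace Pool.Agent.VFF

/-- only powers `T ^ a` with `a < 0` -/
def Neg {κ : Type} [CommRing κ] (f : OL κ) : Prop :=
  ∀ b : ℕ, ∀ a : ℤ, 0 ≤ a → (PowerSeries.coeff b f).coeff a = 0

end Pool.Agent.VFF
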