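import Pool.Agent.Lib_MP_1858fb_f.Ev
import Pool.Agent.Lib_MP_1858fb_f.NegDef
import Pool.Agent.Lib_MP_1858fb_f.GInDef

set_option autoImplicit false

/-!
# MP_1858fb_ag, line F, piece F-G1: the contraction
-/

namespace Pool.Agent.VFF

open Pool.Agent.VF Polynomial

section GFixCong

variable {A : Type} [CommRing A]

/-- congruence modulo `X ^ j` -/
def GFix.Eqm (j : ℕ) (f g : PowerSeries A) : Prop := (PowerSeries.X : PowerSeries A) ^ j ∣ f - g

theorem GFix.Eqm.refl (j : ℕ) (f : PowerSeries A) : GFix.Eqm j f f := by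
  show _ ∣ f - f
  rw [sub_self]
  exact dvd_zero _

theorem GFix.Eqm.add {j : ℕ} {f g f' g' : PowerSeries A} (h : GFix.Eqm j f g)
    (h' : GFix.Eqm j f' g') : GFix.Eqm j (f + f') (g + g') := by
  have h1 := dvd_add h h'
  have h2 : f + f' - (g + g') = f - g + (f' - g') := by ring
  show _ ∣ f + f' - (g + g')
  rw [h2]
  exact h1

theorem GFix.Eqm.sub {j : ℕ} {f g f' g' : PowerSeries A} (h : GFix.Eqm j f g)
    (h' : GFix.Eqm j f' g') : GFix.Eqm j (f - f') (g - g') := by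
  have h1 := dvd_sub h h'
  have h2 : f - f' - (g - g') = f - g - (f' - g') := by ring
  show _ ∣ f - f' - (g - g')
  rw [h2]
  exact h1

theorem GFix.Eqm.mul {j : ℕ} {f g f' g' : PowerSeries A} (h : GFix.Eqm j f g)
    (h' : GFix.Eqm j f' g') : GFix.Eqm j (f * f') (g * g') := by
  have h1 := dvd_add (h.mul_right f') (h'.mul_left g)
  have h2 : f * f' - g * g' = (f - g) * f' + g * (f' - g') := by ring
  show _ ∣ f * f' - g * g'
  rw [h2]
  exact h1

theorem GFix.Eqm.sum {j m : ℕ} {f g : ℕ → PowerSeries A}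
    (h : ∀ i ∈ Finset.range m, GFix.Eqm j (f i) (g i)) :
    GFix.Eqm j (∑ i ∈ Finset.range m, f i) (∑ i ∈ Finset.range m, g i) := by
  show _ ∣ _ - _
  rw [← Finset.sum_sub_distrib]
  exact Finset.dvd_sum h

theorem GFix.mul_inv {f : PowerSeries A} (h : PowerSeries.constantCoeff f = 1) :
    f * PowerSeries.invOfUnit f 1 = 1 :=
  PowerSeries.mul_invOfUnit f 1 (by rw [h]; rfl)

theorem GFix.Eqm.inv {j : ℕ} {f g : PowerSeries A} (hf : PowerSeries.constantCoeff f = 1)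
    (hg : PowerSeries.constantCoeff g = 1) (h : GFix.Eqm j f g) :
    GFix.Eqm j (PowerSeries.invOfUnit f 1) (PowerSeries.invOfUnit g 1) := by
  have h1 := GFix.mul_inv hf
  have h2 := GFix.mul_inv hg
  have h3 : PowerSeries.invOfUnit f 1 - PowerSeries.invOfUnit g 1 =
      (f - g) * (-(PowerSeries.invOfUnit f 1 * PowerSeries.invOfUnit g 1)) := by
    linear_combination (PowerSeries.invOfUnit g 1) * h1 - (PowerSeries.invOfUnit f 1) * h2
  show _ ∣ _ - _
  rw [h3]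
  exact Dvd.dvd.mul_right h _

theorem GFix.Eqm.X_pow_mul {j : ℕ} (m : ℕ) {f g : PowerSeries A} (h : GFix.Eqm j f g) :
    GFix.Eqm (j + m) (PowerSeries.X ^ m * f) (PowerSeries.X ^ m * g) := by
  show _ ∣ _ - _
  rw [← mul_sub, add_comm, pow_add]
  exact mul_dvd_mul_left _ h

theorem GFix.Eqm.mono {i j : ℕ} {f g : PowerSeries A} (h : GFix.Eqm j f g) (hij : i ≤ j) :
    GFix.Eqm i f g := (pow_dvd_pow _ hij).trans h

end GFixCong

section GFixRing

variable (κ : Type) [CommRing κ]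

/-- the inclusion of the power series with nonnegative exponents -/
noncomputable def GFix.inc : PowerSeries (PowerSeries κ) →+* OL κ :=
  PowerSeries.map (HahnSeries.ofPowerSeries ℤ κ)

/-- the part with nonnegative exponents -/
noncomputable def GFix.nnp (f : OL κ) : PowerSeries (PowerSeries κ) :=
  PowerSeries.mk fun b => PowerSeries.mk fun a => (PowerSeries.coeff b f).coeff (a : ℤ)

variable {κ}

theorem GFix.coeff_nnp (f : OL κ) (a b : ℕ) :
    PowerSeries.coeff a (PowerSeries.coeff b (GFix.nnp κ f)) =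
      (PowerSeries.coeff b f).coeff (a : ℤ) := by
  rw [GFix.nnp, PowerSeries.coeff_mk, PowerSeries.coeff_mk]

theorem GFix.coeff_inc (g : PowerSeries (PowerSeries κ)) (b : ℕ) (a : ℤ) :
    (PowerSeries.coeff b (GFix.inc κ g)).coeff a =
      if 0 ≤ a then PowerSeries.coeff a.toNat (PowerSeries.coeff b g) else 0 := by
  rw [GFix.inc, PowerSeries.coeff_map]
  rcases lt_or_ge a 0 with ha | ha
  · rw [if_neg (not_le.2 ha), HahnSeries.ofPowerSeries_apply]
    apply HahnSeries.embDomain_of_notMem_range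
    rintro ⟨m, hm⟩
    rw [← hm] at ha
    exact absurd ha (not_lt.2 (Int.natCast_nonneg m))
  · obtain ⟨m, rfl⟩ := Int.eq_ofNat_of_zero_le ha
    rw [if_pos ha, HahnSeries.ofPowerSeries_apply_coeff]
    rfl

theorem GFix.Eqm.nnp {j : ℕ} {f g : OL κ} (h : GFix.Eqm j f g) :
    GFix.Eqm j (GFix.nnp κ f) (GFix.nnp κ g) := by
  have h1 := PowerSeries.X_pow_dvd_iff.1 h
  refine PowerSeries.X_pow_dvd_iff.2 fun b hb => ?_
  ext a
  have h2 := h1 b hb
  rw [map_sub, sub_eq_zero] at h2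
  rw [map_sub, map_sub, GFix.coeff_nnp, GFix.coeff_nnp, h2, sub_self, map_zero]

theorem GFix.neg_sub_inc (f : OL κ) : Neg (f - GFix.inc κ (GFix.nnp κ f)) := by
  intro b a ha
  rw [map_sub, HahnSeries.coeff_sub, GFix.coeff_inc, if_pos ha, GFix.coeff_nnp,
    Int.toNat_of_nonneg ha, sub_self]

theorem GFix.neg_X_pow_mul (s : ℕ) {f : OL κ} (h : Neg f) : Neg (PowerSeries.X ^ s * f) := by
  intro b a ha
  rw [PowerSeries.coeff_X_pow_mul']
  split_ifs with hs
  · exact h _ _ ha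
  · rfl

theorem GFix.inc_C_C (e : κ) : GFix.inc κ (PowerSeries.C (PowerSeries.C e)) =
    algebraMap κ (OL κ) e := by
  rw [PowerSeries.algebraMap_apply, HahnSeries.algebraMap_apply', PowerSeries.algebraMap_apply,
    Algebra.algebraMap_self, RingHom.id_apply, GFix.inc, PowerSeries.map_C]

end GFixRing

section GFixHv

variable (k : Type) [Field k] (κ : Type) [CommRing κ] [Algebra k κ] {N n : ℕ}

theorem GFix.TT_mul (a b : ℤ) : TT κ a * TT κ b = TT κ (a + b) := by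
  rw [TT, TT, TT, HahnSeries.single_mul_single, mul_one]

theorem GFix.TT_zero : TT κ 0 = 1 := rfl

theorem GFix.TT_pow (a : ℤ) (m : ℕ) : TT κ a ^ m = TT κ (a * m) := by
  induction m with
  | zero => rw [pow_zero, Nat.cast_zero, mul_zero, GFix.TT_zero]
  | succ m ih =>
    rw [pow_succ, ih, GFix.TT_mul]
    congr 1
    push_cast
    ring

theorem GFix.out_P_pow (m : ℕ) : toOut k κ (WP κ ^ m) = PowerSeries.C (TT κ m) := by
  rw [map_pow, toOut_P, ← map_pow, GFix.TT_pow, one_mul]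

theorem GFix.out_Q_pow (m : ℕ) :
    toOut k κ (WQ κ ^ m) = PowerSeries.X ^ m * PowerSeries.C (TT κ (-m)) := by
  rw [map_pow, toOut_Q, mul_pow, ← map_pow, GFix.TT_pow, neg_one_mul]

theorem GFix.inn_Q_pow (m : ℕ) : toInn k κ (WQ κ ^ m) = PowerSeries.C (TT κ m) := by
  rw [map_pow, toInn_Q, ← map_pow, GFix.TT_pow, one_mul]

theorem GFix.inn_P_pow (m : ℕ) :
    toInn k κ (WP κ ^ m) = PowerSeries.X ^ m * PowerSeries.C (TT κ (-m)) := by
  rw [map_pow, toInn_P, mul_pow, ← map_pow, GFix.TT_pow, neg_one_mul]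

theorem GFix.out_PQ_pow (m : ℕ) : toOut k κ ((WP κ * WQ κ) ^ m) = PowerSeries.X ^ m := by
  rw [mul_pow, map_mul, GFix.out_P_pow, GFix.out_Q_pow, mul_left_comm, ← map_mul, GFix.TT_mul,
    add_neg_cancel, GFix.TT_zero, map_one, mul_one]

theorem GFix.inn_PQ_pow (m : ℕ) : toInn k κ ((WP κ * WQ κ) ^ m) = PowerSeries.X ^ m := by
  rw [mul_pow, map_mul, GFix.inn_P_pow, GFix.inn_Q_pow, mul_assoc, ← map_mul, GFix.TT_mul,
    neg_add_cancel, GFix.TT_zero, map_one, mul_one]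

/-- the remainder on the outer circle -/
noncomputable def GFix.RO (d M : ℕ) (p : ℕ → W κ) : OL κ :=
  ∑ m ∈ Finset.range d, toOut k κ (p (m + 1)) *
    (PowerSeries.C (TT κ (-(2 * M * (m + 1) : ℕ))) * PowerSeries.X ^ (M * m))

/-- the remainder on the inner circle -/
noncomputable def GFix.RI (d M : ℕ) (p : ℕ → W κ) : OL κ :=
  ∑ m ∈ Finset.range d, toInn k κ (p m) *
    (PowerSeries.C (TT κ (-(2 * M * (d - m) : ℕ))) * PowerSeries.X ^ (M * (d - m - 1)))

theorem GFix.hv_out (d M : ℕ) (p : ℕ → W κ) :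
    toOut k κ (hv d p (WP κ ^ M) (WQ κ ^ M)) = PowerSeries.C (TT κ (M * d)) *
      (toOut k κ (p 0) + PowerSeries.X ^ M * GFix.RO k κ d M p) := by
  rw [hv, Finset.sum_range_succ', map_add, map_sum, mul_add, add_comm, GFix.RO, Finset.mul_sum,
    Finset.mul_sum]
  congr 1
  · rw [pow_zero, mul_one, Nat.sub_zero, map_mul, ← pow_mul, GFix.out_P_pow, mul_comm]
    congr 3
  · refine Finset.sum_congr rfl fun m hm => ?_
    have hm' := Finset.mem_range.1 hm
    obtain ⟨a, rfl⟩ : ∃ a, d = m + 1 + a := ⟨d - (m + 1), by omega⟩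
    rw [map_mul, map_mul, ← pow_mul, ← pow_mul, GFix.out_P_pow, GFix.out_Q_pow,
      Nat.add_sub_cancel_left]
    have h1 : TT κ ((M : ℤ) * ((m + 1 + a : ℕ) : ℤ)) * TT κ (-(2 * M * (m + 1) : ℕ)) =
        TT κ ((M * a : ℕ) : ℤ) * TT κ (-((M * (m + 1) : ℕ) : ℤ)) := by
      rw [GFix.TT_mul, GFix.TT_mul]
      congr 1
      push_cast
      ring
    have h2 := congrArg (PowerSeries.C (R := LaurentSeries κ)) h1
    rw [map_mul, map_mul] at h2
    have h3 : (PowerSeries.X : OL κ) ^ (M * (m + 1)) =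
        PowerSeries.X ^ M * PowerSeries.X ^ (M * m) := by
      rw [← pow_add]
      congr 1
      ring
    rw [h3]
    linear_combination (-(toOut k κ (p (m + 1)) * PowerSeries.X ^ M *
      PowerSeries.X ^ (M * m))) * h2

theorem GFix.hv_inn (d M : ℕ) (p : ℕ → W κ) :
    toInn k κ (hv d p (WP κ ^ M) (WQ κ ^ M)) = PowerSeries.C (TT κ (M * d)) *
      (toInn k κ (p d) + PowerSeries.X ^ M * GFix.RI k κ d M p) := by
  rw [hv, Finset.sum_range_succ, map_add, map_sum, mul_add, add_comm, GFix.RI, Finset.mul_sum,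
    Finset.mul_sum]
  congr 1
  · rw [Nat.sub_self, pow_zero, mul_one, map_mul, ← pow_mul, GFix.inn_Q_pow, mul_comm]
    congr 3
  · refine Finset.sum_congr rfl fun m hm => ?_
    have hm' := Finset.mem_range.1 hm
    obtain ⟨a, rfl⟩ : ∃ a, d = m + (a + 1) := ⟨d - (m + 1), by omega⟩
    rw [map_mul, map_mul, ← pow_mul, ← pow_mul, GFix.inn_P_pow, GFix.inn_Q_pow,
      Nat.add_sub_cancel_left, Nat.add_sub_cancel]
    have h1 : TT κ ((M : ℤ) * ((m + (a + 1) : ℕ) : ℤ)) * TT κ (-(2 * M * (a + 1) : ℕ)) =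
        TT κ (-((M * (a + 1) : ℕ) : ℤ)) * TT κ ((M * m : ℕ) : ℤ) := by
      rw [GFix.TT_mul, GFix.TT_mul]
      congr 1
      push_cast
      ring
    have h2 := congrArg (PowerSeries.C (R := LaurentSeries κ)) h1
    rw [map_mul, map_mul] at h2
    have h3 : (PowerSeries.X : OL κ) ^ (M * (a + 1)) =
        PowerSeries.X ^ M * PowerSeries.X ^ (M * a) := by
      rw [← pow_add]
      congr 1
      ring
    rw [h3]
    linear_combination (-(toInn k κ (p m) * PowerSeries.X ^ M *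
      PowerSeries.X ^ (M * a))) * h2

theorem GFix.RO_eqm (d M j : ℕ) {p p' : ℕ → W κ}
    (h : ∀ m, GFix.Eqm j (toOut k κ (p m)) (toOut k κ (p' m))) :
    GFix.Eqm j (GFix.RO k κ d M p) (GFix.RO k κ d M p') :=
  GFix.Eqm.sum fun m _ => (h (m + 1)).mul (GFix.Eqm.refl _ _)

theorem GFix.RI_eqm (d M j : ℕ) {p p' : ℕ → W κ}
    (h : ∀ m, GFix.Eqm j (toInn k κ (p m)) (toInn k κ (p' m))) :
    GFix.Eqm j (GFix.RI k κ d M p) (GFix.RI k κ d M p') :=
  GFix.Eqm.sum fun m _ => (h m).mul (GFix.Eqm.refl _ _)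

/-- `lin` is linear: the homogeneous evaluations -/
theorem GFix.lin_hv {q : ℕ} (l : Fin (N + 1) → k) (d : ℕ) (x : Fin q → W κ)
    (hx : ∀ j, MvPowerSeries.constantCoeff (x j) = 0)
    (F : Fin (N + 1) → (MvPowerSeries (Fin q) (PowerSeries k))[X]) (a b : W κ) :
    lin l (fun i => hv d (fun m => ev k κ x hx ((F i).coeff m)) a b) =
      hv d (fun m => ev k κ x hx (lin l (fun i => (F i).coeff m))) a b := by
  unfold lin hv
  simp only [Finset.mul_sum, map_sum, map_mul, AlgHom.commutes, Finset.sum_mul]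
  rw [Finset.sum_comm]
  refine Finset.sum_congr rfl fun m _ => Finset.sum_congr rfl fun i _ => ?_
  ring

theorem GFix.ev_lin {q : ℕ} (l : Fin (N + 1) → k) (x : Fin q → W κ)
    (hx : ∀ j, MvPowerSeries.constantCoeff (x j) = 0)
    (F : Fin (N + 1) → MvPowerSeries (Fin q) (PowerSeries k)) :
    ev k κ x hx (lin l F) = lin l (fun i => ev k κ x hx (F i)) := by
  unfold lin
  rw [map_sum]
  exact Finset.sum_congr rfl fun i _ => by rw [map_mul, AlgHom.commutes]

theorem GFix.serP_X : serP k κ PowerSeries.X = WP κ := by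
  apply Ring2.ext_ij
  intro i j
  rw [coeff_serP, WP, MvPowerSeries.coeff_X, PowerSeries.coeff_X]
  have h : ij i j = Finsupp.single 1 1 ↔ i = 1 ∧ j = 0 := by
    constructor
    · intro h
      rw [Ring2.ij_eq_ex] at h
      constructor
      · rw [← ex_one i j, h, Finsupp.single_eq_same]
      · rw [← ex_zero i j, h, Finsupp.single_eq_of_ne (by decide)]
    · rintro ⟨rfl, rfl⟩
      simp [ij]
  by_cases hj : j = 0
  · by_cases hi : i = 1
    · rw [if_pos hj, if_pos hi, if_pos (h.2 ⟨hi, hj⟩), map_one]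
    · rw [if_pos hj, if_neg hi, if_neg (fun h' => hi (h.1 h').1), map_zero]
  · rw [if_neg hj, if_neg (fun h' => hj (h.1 h').2)]

variable {k}

theorem GFix.fac {ρ : PowerSeries k} (h : ρ ≠ 0) :
    ∃ (a : ℕ) (u u' : PowerSeries k), u * u' = 1 ∧ ρ = PowerSeries.X ^ a * u := by
  have h1 : PowerSeries.constantCoeff (PowerSeries.divXPowOrder ρ) ≠ 0 := fun h2 =>
    h (PowerSeries.constantCoeff_divXPowOrder_eq_zero_iff.1 h2)
  obtain ⟨u', hu'⟩ := (PowerSeries.isUnit_iff_constantCoeff.2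
    (isUnit_iff_ne_zero.2 h1)).exists_right_inv
  exact ⟨_, _, u', hu', PowerSeries.X_pow_order_mul_divXPowOrder.symm⟩

end GFixHv

section GFixX

variable (k : Type) [Field k] (κ : Type) [CommRing κ] [Algebra k κ] {N n c : ℕ}

theorem GFix.incP_X : incP k κ PowerSeries.X = WP κ * WQ κ := by
  apply toOut_injective k κ
  have h := GFix.out_PQ_pow k κ 1
  rw [pow_one, pow_one] at h
  rw [h, toOut_incP, PowerSeries.map_X]

theorem GFix.incQ_X : incQ k κ PowerSeries.X = WP κ * WQ κ := by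
  apply toInn_injective k κ
  have h := GFix.inn_PQ_pow k κ 1
  rw [pow_one, pow_one] at h
  rw [h, toInn_incQ, PowerSeries.map_X]

/-- the substituted elements -/
noncomputable def GFix.xx (s : ℕ) (U' : W κ)
    (z : Fin n ⊕ Fin n → PowerSeries (PowerSeries κ)) : Fin (n + n) → W κ :=
  Fin.append (fun j => WP κ * WQ κ ^ s * U' * incP k κ (z (Sum.inl j)))
    (fun j => WP κ * WQ κ ^ s * U' * incQ k κ (z (Sum.inr j)))

theorem GFix.xx_dvd {s : ℕ} (hs : 0 < s) (U' : W κ)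
    (z : Fin n ⊕ Fin n → PowerSeries (PowerSeries κ)) (i : Fin (n + n)) :
    WP κ * WQ κ ∣ GFix.xx k κ s U' z i := by
  obtain ⟨s, rfl⟩ : ∃ s', s = s' + 1 := ⟨s - 1, by omega⟩
  refine Fin.addCases (fun j => ?_) (fun j => ?_) i
  · rw [GFix.xx, Fin.append_left]
    exact ⟨WQ κ ^ s * U' * incP k κ (z (Sum.inl j)), by ring⟩
  · rw [GFix.xx, Fin.append_right]
    exact ⟨WQ κ ^ s * U' * incQ k κ (z (Sum.inr j)), by ring⟩

theorem GFix.xx_const {s : ℕ} (hs : 0 < s) (U' : W κ)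
    (z : Fin n ⊕ Fin n → PowerSeries (PowerSeries κ)) (i : Fin (n + n)) :
    MvPowerSeries.constantCoeff (GFix.xx k κ s U' z i) = 0 := by
  obtain ⟨w, hw⟩ := GFix.xx_dvd k κ hs U' z i
  rw [hw, map_mul, map_mul, WP, MvPowerSeries.constantCoeff_X, zero_mul, zero_mul]

theorem GFix.xx_sub (s : ℕ) (U' : W κ) (z z' : Fin n ⊕ Fin n → PowerSeries (PowerSeries κ))
    {j : ℕ} (h : ∀ i, GFix.Eqm j (z i) (z' i)) (i : Fin (n + n)) :
    (WP κ * WQ κ) ^ j ∣ GFix.xx k κ s U' z i - GFix.xx k κ s U' z' i := by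
  refine Fin.addCases (fun a => ?_) (fun a => ?_) i
  · rw [GFix.xx, GFix.xx, Fin.append_left, Fin.append_left, ← mul_sub, ← map_sub]
    obtain ⟨D, hD⟩ := h (Sum.inl a)
    rw [hD, map_mul, map_pow, GFix.incP_X]
    exact (dvd_mul_right _ _).mul_left _
  · rw [GFix.xx, GFix.xx, Fin.append_right, Fin.append_right, ← mul_sub, ← map_sub]
    obtain ⟨D, hD⟩ := h (Sum.inr a)
    rw [hD, map_mul, map_pow, GFix.incQ_X]
    exact (dvd_mul_right _ _).mul_left _

theorem GFix.ev_dvd {q j : ℕ} (x x' : Fin q → W κ)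
    (hx : ∀ j, MvPowerSeries.constantCoeff (x j) = 0)
    (hx' : ∀ j, MvPowerSeries.constantCoeff (x' j) = 0)
    (h : ∀ i, (WP κ * WQ κ) ^ j ∣ x i - x' i) (G : MvPowerSeries (Fin q) (PowerSeries k)) :
    (WP κ * WQ κ) ^ j ∣ ev k κ x hx G - ev k κ x' hx' G := by
  obtain ⟨g, hg⟩ := ev_sub k κ x hx x' hx' G
  rw [hg]
  exact Finset.dvd_sum fun i _ => (h i).mul_right _

theorem GFix.out_eqm {j : ℕ} {f g : W κ} (h : (WP κ * WQ κ) ^ j ∣ f - g) :
    GFix.Eqm j (toOut k κ f) (toOut k κ g) := by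
  obtain ⟨w, hw⟩ := h
  refine ⟨toOut k κ w, ?_⟩
  rw [← map_sub, hw, map_mul, GFix.out_PQ_pow]

theorem GFix.inn_eqm {j : ℕ} {f g : W κ} (h : (WP κ * WQ κ) ^ j ∣ f - g) :
    GFix.Eqm j (toInn k κ f) (toInn k κ g) := by
  obtain ⟨w, hw⟩ := h
  refine ⟨toInn k κ w, ?_⟩
  rw [← map_sub, hw, map_mul, GFix.inn_PQ_pow]

theorem GFix.ev_small {q : ℕ} (x : Fin q → W κ)
    (hx : ∀ j, MvPowerSeries.constantCoeff (x j) = 0) (h : ∀ i, WP κ * WQ κ ∣ x i)
    (G : MvPowerSeries (Fin q) (PowerSeries k)) (hG : MvPowerSeries.constantCoeff G = 0) :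
    WP κ * WQ κ ∣ ev k κ x hx G := by
  obtain ⟨g, hg⟩ := ev_of_constantCoeff k κ x hx G hG
  rw [hg]
  exact Finset.dvd_sum fun i _ => (h i).mul_right _

theorem GFix.out_dvd {f : W κ} (h : WP κ * WQ κ ∣ f) : PowerSeries.X ∣ toOut k κ f := by
  have h' : (WP κ * WQ κ) ^ 1 ∣ f - 0 := by rwa [pow_one, sub_zero]
  have h1 := GFix.out_eqm k κ h'
  have h2 : (PowerSeries.X : OL κ) ^ 1 ∣ toOut k κ f - toOut k κ 0 := h1
  rwa [map_zero, sub_zero, pow_one] at h2

theorem GFix.inn_dvd {f : W κ} (h : WP κ * WQ κ ∣ f) : PowerSeries.X ∣ toInn k κ f := by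
  have h' : (WP κ * WQ κ) ^ 1 ∣ f - 0 := by rwa [pow_one, sub_zero]
  have h1 := GFix.inn_eqm k κ h'
  have h2 : (PowerSeries.X : OL κ) ^ 1 ∣ toInn k κ f - toInn k κ 0 := h1
  rwa [map_zero, sub_zero, pow_one] at h2

variable {κ}

/-- the fixed point -/
theorem GFix.fixed {a b : ℕ} (ha : 0 < a) (hb : 0 < b) (e : Fin n → κ)
    (Φ2 Φ1 : (Fin n ⊕ Fin n → PowerSeries (PowerSeries κ)) → Fin n → OL κ)
    (h2 : ∀ j z z', (∀ i, GFix.Eqm j (z i) (z' i)) → ∀ i, GFix.Eqm j (Φ2 z i) (Φ2 z' i))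
    (h1 : ∀ j z z', (∀ i, GFix.Eqm j (z i) (z' i)) → ∀ i, GFix.Eqm j (Φ1 z i) (Φ1 z' i)) :
    ∃ z : Fin n ⊕ Fin n → PowerSeries (PowerSeries κ),
      (∀ j, z (Sum.inl j) = PowerSeries.C (PowerSeries.C (e j)) -
        GFix.nnp κ (PowerSeries.X ^ a * Φ2 z j)) ∧
      (∀ j, z (Sum.inr j) = - GFix.nnp κ (PowerSeries.X ^ b * Φ1 z j)) := by
  obtain ⟨z, -, hz, -⟩ := exists_fixed_powerSeries (ι := Fin n ⊕ Fin n)
    (B := fun _ => PowerSeries κ) 0
    (fun z => Sum.elim (fun j => PowerSeries.C (PowerSeries.C (e j)) -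
        GFix.nnp κ (PowerSeries.X ^ a * Φ2 z j))
      (fun j => 0 - GFix.nnp κ (PowerSeries.X ^ b * Φ1 z j)))
    (fun _ _ i => by rw [pow_zero]; exact one_dvd _)
    (fun j z z' _ _ h i => by
      rcases i with i | i
      · exact (GFix.Eqm.refl (j + 1) _).sub
          (((h2 j z z' h i).X_pow_mul a).mono (by omega)).nnp
      · exact (GFix.Eqm.refl (j + 1) _).sub
          (((h1 j z z' h i).X_pow_mul b).mono (by omega)).nnp)
  refine ⟨z, fun j => ?_, fun j => ?_⟩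
  · exact (congrFun hz (Sum.inl j)).symm
  · have h3 := (congrFun hz (Sum.inr j)).symm
    rw [← zero_sub]
    exact h3

end GFixX

section GFixMain

variable (k : Type) [Field k] (κ : Type) [CommRing κ] [Algebra k κ] {N n c : ℕ}

theorem GFix.out_unit {ρ : PowerSeries k} (h : ρ ≠ 0) :
    ∃ i0 : OL κ, toOut k κ (serP k κ ρ) * i0 = 1 := by
  obtain ⟨a, u, u', huu, hu⟩ := GFix.fac h
  refine ⟨PowerSeries.C (TT κ (-a)) * toOut k κ (serP k κ u'), ?_⟩
  have h1 : toOut k κ (serP k κ u) * toOut k κ (serP k κ u') = 1 := by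
    rw [← map_mul, ← map_mul, huu, map_one, map_one]
  have h2 : (PowerSeries.C (TT κ a) : OL κ) * PowerSeries.C (TT κ (-a)) = 1 := by
    rw [← map_mul, GFix.TT_mul, add_neg_cancel, GFix.TT_zero, map_one]
  rw [hu, map_mul, map_mul, map_pow, GFix.serP_X, GFix.out_P_pow]
  linear_combination (PowerSeries.C (TT κ a) * PowerSeries.C (TT κ (-a))) * h1 + h2

theorem GFix.inn_fac {a M : ℕ} {ρ u u' : PowerSeries k} (huu : u * u' = 1)
    (hu : ρ = PowerSeries.X ^ a * u) (hM : a ≤ M) :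
    (PowerSeries.X : OL κ) ^ M = toInn k κ (serP k κ ρ) *
      (PowerSeries.X ^ (M - a) * (PowerSeries.C (TT κ a) * toInn k κ (serP k κ u'))) := by
  have h1 : toInn k κ (serP k κ u) * toInn k κ (serP k κ u') = 1 := by
    rw [← map_mul, ← map_mul, huu, map_one, map_one]
  have h2 : (PowerSeries.C (TT κ a) : OL κ) * PowerSeries.C (TT κ (-a)) = 1 := by
    rw [← map_mul, GFix.TT_mul, add_neg_cancel, GFix.TT_zero, map_one]
  have h3 : (PowerSeries.X : OL κ) ^ M = PowerSeries.X ^ a * PowerSeries.X ^ (M - a) := by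
    rw [← pow_add, Nat.add_sub_cancel' hM]
  rw [hu, map_mul, map_mul, map_pow, GFix.serP_X, GFix.inn_P_pow, h3]
  linear_combination (-(PowerSeries.X ^ a * PowerSeries.X ^ (M - a) *
    (PowerSeries.C (TT κ a) * PowerSeries.C (TT κ (-a))))) * h1 -
    (PowerSeries.X ^ a * PowerSeries.X ^ (M - a)) * h2

theorem GFix.inn_serP (α : PowerSeries k) (v : k) (h : PowerSeries.constantCoeff α = v) :
    ∃ r : OL κ, toInn k κ (serP k κ α) = algebraMap k _ v + PowerSeries.X * r := by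
  have h1 : PowerSeries.X ∣ α - algebraMap k (PowerSeries k) v := by
    rw [PowerSeries.X_dvd_iff, map_sub, h, PowerSeries.algebraMap_apply,
      PowerSeries.constantCoeff_C, Algebra.algebraMap_self, RingHom.id_apply, sub_self]
  obtain ⟨β, hβ⟩ := h1
  have h2 : α = algebraMap k (PowerSeries k) v + PowerSeries.X * β := by
    rw [← hβ]; ring
  refine ⟨PowerSeries.C (TT κ (-1)) * toInn k κ (serP k κ β), ?_⟩
  rw [h2, map_add, map_add, map_mul, map_mul, GFix.serP_X, toInn_P, AlgHom.commutes,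
    AlgHom.commutes]
  ring

theorem GFix.alg_out {B : Type} [CommRing B] {T A i0 R0 Rj I N' e' V Xs Xa XM : B}
    (h0 : XM = Xs * Xa) (h1 : A * i0 = 1) (h2 : (1 + XM * (i0 * R0)) * V = 1)
    (h3 : I = e' - N') :
    T * (A * (Xs * I) + XM * Rj) = T * (A + XM * R0) *
      (Xs * e' + Xs * (Xa * ((i0 * Rj - Xs * I * (i0 * R0)) * V) - N')) := by
  have h4 : e' = I + N' := by rw [h3]; ring
  subst h4 h0
  linear_combination (T * Xs * Xa * (-(Rj - Xs * I * R0) +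
    Xs * Xa * R0 * ((i0 * Rj - Xs * I * (i0 * R0)) * V))) * h1 -
    (T * Xs * Xa * A * (i0 * Rj - Xs * I * (i0 * R0))) * h2

theorem GFix.alg_inn {B : Type} [CommRing B] {T P0 K R0 Rj β I N' D0 V Xs Xb Xk XM : B}
    (h0 : Xk = Xs * Xb) (h1 : XM = P0 * (Xk * K)) (h2 : (1 + D0 + Xk * (K * R0)) * V = 1)
    (h3 : I = -N') :
    T * ((β + Xs * I) * (P0 * (1 + D0)) + XM * Rj) = T * (P0 * (1 + D0) + XM * R0) *
      (β + Xs * (Xb * (K * (Rj - (β + Xs * I) * R0) * V) - N')) := by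
  have h4 : N' = -I := by rw [h3]; ring
  subst h4 h1 h0
  linear_combination (-(T * P0 * Xs * Xb * K * (Rj - (β + Xs * I) * R0))) * h2

/-- [F-G1] the contraction -/
theorem glue_fix [IsAlgClosed k] (D : VData k N n c) {y v : Fin (N + 1) → k} (hy : y ∈ D.V)
    (hv' : v ∈ D.V) (fy : FrameAt D y) (fv : FrameAt D v) {d : ℕ}
    {F : Fin (N + 1) → (MvPowerSeries (Fin (n + n)) (PowerSeries k))[X]}
    {α : Fin (N + 1) → PowerSeries k} {t ρ0 ρ1 : PowerSeries k} (h : GIn D fy fv d F α t ρ0 ρ1)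
    (e : Fin n → κ) (Mmin : ℕ) :
    ∃ (M s : ℕ) (x : Fin (n + n) → W κ) (hx : ∀ j, MvPowerSeries.constantCoeff (x j) = 0)
      (S : Fin (N + 1) → W κ), Mmin ≤ M ∧ 0 < s ∧
      (∀ i, S i = hv d (fun m => ev k κ x hx ((F i).coeff m)) (WP κ ^ M) (WQ κ ^ M)) ∧
      (∀ i, ∃ r : OL κ, toOut k κ (S i) = PowerSeries.C (TT κ (M * d)) *
        toOut k κ (serP k κ ρ0) * (algebraMap k _ (y i) + PowerSeries.X * r)) ∧
      (∀ i, ∃ r : OL κ, toInn k κ (S i) = PowerSeries.C (TT κ (M * d)) *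
        toInn k κ (serP k κ ρ1) * (algebraMap k _ (v i) + PowerSeries.X * r)) ∧
      (∀ j : Fin n, ∃ r : OL κ, Neg r ∧ PowerSeries.X ∣ r ∧
        toOut k κ (lin (fy.l j.succ) S) = toOut k κ (lin (fy.l 0) S) *
          (PowerSeries.X ^ s * algebraMap κ _ (e j) + r)) ∧
      (∀ j : Fin n, ∃ r : OL κ, Neg r ∧ PowerSeries.X ∣ r ∧
        toInn k κ (lin (fv.l j.succ) S) = toInn k κ (lin (fv.l 0) S) *
          (toInn k κ (serP k κ (lin (fv.l j.succ) α)) + r)) := by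
  obtain ⟨c0, u, u', huu, hu⟩ := GFix.fac (pow_ne_zero 2 h.ht)
  obtain ⟨k1, w, w', hww, hw⟩ := GFix.fac h.hρ1
  obtain ⟨i0, hi0⟩ := GFix.out_unit k κ h.hρ0
  let s : ℕ := c0 + 1
  have hs : 0 < s := Nat.succ_pos c0
  let a : ℕ := Mmin + k1 + 1
  let b : ℕ := Mmin + 1
  let M : ℕ := Mmin + k1 + s + 1
  have hMa : M = s + a := by show Mmin + k1 + s + 1 = s + (Mmin + k1 + 1); ring
  have hMb : M - k1 = s + b := by show Mmin + k1 + s + 1 - k1 = s + (Mmin + 1); omega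
  let K : OL κ := PowerSeries.C (TT κ k1) * toInn k κ (serP k κ w')
  have hK : (PowerSeries.X : OL κ) ^ M = toInn k κ (serP k κ ρ1) * (PowerSeries.X ^ (M - k1) * K) :=
    GFix.inn_fac k κ hww hw (by show k1 ≤ Mmin + k1 + s + 1; omega)
  let x : (Fin n ⊕ Fin n → PowerSeries (PowerSeries κ)) → Fin (n + n) → W κ :=
    GFix.xx k κ s (serP k κ u')
  have hx : ∀ z j, MvPowerSeries.constantCoeff (x z j) = 0 := GFix.xx_const k κ hs _
  have hxd : ∀ z j, WP κ * WQ κ ∣ x z j := GFix.xx_dvd k κ hs _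
  let E : (Fin n ⊕ Fin n → PowerSeries (PowerSeries κ)) →
      MvPowerSeries (Fin (n + n)) (PowerSeries k) → W κ := fun z G => ev k κ (x z) (hx z) G
  have hE : ∀ j z z', (∀ i, GFix.Eqm j (z i) (z' i)) → ∀ G, (WP κ * WQ κ) ^ j ∣ E z G - E z' G :=
    fun j z z' hz G => GFix.ev_dvd k κ _ _ _ _ (GFix.xx_sub k κ s _ z z' hz) G
  let p : (Fin (N + 1) → k) → (Fin n ⊕ Fin n → PowerSeries (PowerSeries κ)) → ℕ → W κ :=
    fun l z m => E z (lin l (fun i => (F i).coeff m))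
  have hRO : ∀ l j z z', (∀ i, GFix.Eqm j (z i) (z' i)) →
      GFix.Eqm j (GFix.RO k κ d M (p l z)) (GFix.RO k κ d M (p l z')) :=
    fun l j z z' hz => GFix.RO_eqm k κ d M j fun m => GFix.out_eqm k κ (hE j z z' hz _)
  have hRI : ∀ l j z z', (∀ i, GFix.Eqm j (z i) (z' i)) →
      GFix.Eqm j (GFix.RI k κ d M (p l z)) (GFix.RI k κ d M (p l z')) :=
    fun l j z z' hz => GFix.RI_eqm k κ d M j fun m => GFix.inn_eqm k κ (hE j z z' hz _)
  have hinc : ∀ j (f g : PowerSeries (PowerSeries κ)), GFix.Eqm j f g →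
      GFix.Eqm j (GFix.inc κ f) (GFix.inc κ g) := by
    rintro j f g ⟨D, hD⟩
    refine ⟨GFix.inc κ D, ?_⟩
    rw [← map_sub, hD, map_mul, map_pow]
    congr 2
    exact PowerSeries.map_X _
  choose Δ hΔ0 hΔ using h.i2
  have hser : serP k κ (t ^ 2) = WP κ ^ c0 * serP k κ u := by
    rw [hu, map_mul, map_pow, GFix.serP_X]
  have hsuu : serP k κ u * serP k κ u' = 1 := by rw [← map_mul, huu, map_one]
  have hxl : ∀ z j, serP k κ (t ^ 2) * x z (Fin.castAdd n j) =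
      (WP κ * WQ κ) ^ s * incP k κ (z (Sum.inl j)) := by
    intro z j
    have h1 : x z (Fin.castAdd n j) =
        WP κ * WQ κ ^ s * serP k κ u' * incP k κ (z (Sum.inl j)) := Fin.append_left _ _ j
    have h2 : (WP κ * WQ κ) ^ s = WP κ ^ c0 * WP κ * WQ κ ^ s := by
      rw [mul_pow, ← pow_succ]
    rw [h1, h2, hser]
    linear_combination (WP κ ^ c0 * WP κ * WQ κ ^ s * incP k κ (z (Sum.inl j))) * hsuu
  have hxr : ∀ z j, serP k κ (t ^ 2) * x z (Fin.natAdd n j) =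
      (WP κ * WQ κ) ^ s * incQ k κ (z (Sum.inr j)) := by
    intro z j
    have h1 : x z (Fin.natAdd n j) =
        WP κ * WQ κ ^ s * serP k κ u' * incQ k κ (z (Sum.inr j)) := Fin.append_right _ _ j
    have h2 : (WP κ * WQ κ) ^ s = WP κ ^ c0 * WP κ * WQ κ ^ s := by
      rw [mul_pow, ← pow_succ]
    rw [h1, h2, hser]
    linear_combination (WP κ ^ c0 * WP κ * WQ κ ^ s * incQ k κ (z (Sum.inr j))) * hsuu
  -- the constant terms of the two circles
  have hout0 : ∀ z, toOut k κ (p (fy.l 0) z 0) = toOut k κ (serP k κ ρ0) := by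
    intro z
    show toOut k κ (ev k κ (x z) (hx z) (lin (fy.l 0) fun i => (F i).coeff 0)) = _
    rw [h.z0, ev_C]
  have houtj : ∀ z j, toOut k κ (p (fy.l (Fin.succ j)) z 0) = toOut k κ (serP k κ ρ0) *
      (PowerSeries.X ^ s * GFix.inc κ (z (Sum.inl j))) := by
    intro z j
    show toOut k κ (ev k κ (x z) (hx z) (lin (fy.l j.succ) fun i => (F i).coeff 0)) = _
    rw [h.z1, map_mul, ev_C, ev_X, map_mul (serP k κ), mul_assoc, hxl, map_mul, map_mul,
      GFix.out_PQ_pow, toOut_incP]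
    rfl
  let Δ0 : MvPowerSeries (Fin (n + n)) (PowerSeries k) := lin (fv.l 0) Δ
  have hΔ00 : MvPowerSeries.constantCoeff Δ0 = 0 := by
    show MvPowerSeries.constantCoeff (∑ i, _) = 0
    rw [map_sum]
    exact Finset.sum_eq_zero fun i _ => by rw [map_mul, hΔ0, mul_zero]
  have hinn0 : ∀ z, p (fv.l 0) z d = serP k κ ρ1 * (1 + E z Δ0) := by
    intro z
    have h1 : (lin (fv.l 0) fun i => (F i).coeff d) = MvPowerSeries.C ρ1 * (1 + Δ0) := by
      have h2 : (MvPowerSeries.C (lin (fv.l 0) α) :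
          MvPowerSeries (Fin (n + n)) (PowerSeries k)) = 1 := by rw [h.hα1, map_one]
      rw [← h2]
      show (∑ i, _) = _ * (MvPowerSeries.C (∑ i, _) + ∑ i, _)
      rw [map_sum, ← Finset.sum_add_distrib, Finset.mul_sum]
      refine Finset.sum_congr rfl fun i _ => ?_
      show algebraMap k _ (fv.l 0 i) * (F i).coeff d = _
      rw [hΔ, map_mul, MvPowerSeries.algebraMap_apply]
      ring
    show ev k κ (x z) (hx z) (lin (fv.l 0) fun i => (F i).coeff d) = _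
    rw [h1, map_mul, ev_C, map_add, map_one]
  have hinnj : ∀ z j, p (fv.l (Fin.succ j)) z d = (serP k κ (lin (fv.l j.succ) α) +
      (WP κ * WQ κ) ^ s * incQ k κ (z (Sum.inr j))) * p (fv.l 0) z d := by
    intro z j
    show ev k κ (x z) (hx z) (lin (fv.l j.succ) fun i => (F i).coeff d) = _ *
      ev k κ (x z) (hx z) (lin (fv.l 0) fun i => (F i).coeff d)
    rw [h.i1, map_mul, map_add, map_mul, ev_C, ev_C, ev_X, hxr]
  -- the two functions to be inverted
  let f0 : (Fin n ⊕ Fin n → PowerSeries (PowerSeries κ)) → OL κ :=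
    fun z => 1 + PowerSeries.X ^ M * (i0 * GFix.RO k κ d M (p (fy.l 0) z))
  have hf0 : ∀ z, PowerSeries.constantCoeff (f0 z) = 1 := by
    intro z
    show PowerSeries.constantCoeff (1 + PowerSeries.X ^ M * _) = 1
    rw [map_add, map_mul, map_pow, PowerSeries.constantCoeff_X, zero_pow, zero_mul, map_one,
      add_zero]
    show Mmin + k1 + s + 1 ≠ 0
    omega
  have hf0e : ∀ j z z', (∀ i, GFix.Eqm j (z i) (z' i)) → GFix.Eqm j (f0 z) (f0 z') :=
    fun j z z' hz => (GFix.Eqm.refl _ _).add ((GFix.Eqm.refl _ _).mul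
      ((GFix.Eqm.refl _ _).mul (hRO _ j z z' hz)))
  let E0 : (Fin n ⊕ Fin n → PowerSeries (PowerSeries κ)) → OL κ :=
    fun z => 1 + toInn k κ (E z Δ0) +
      PowerSeries.X ^ (M - k1) * (K * GFix.RI k κ d M (p (fv.l 0) z))
  have hE0 : ∀ z, PowerSeries.constantCoeff (E0 z) = 1 := by
    intro z
    have h1 : PowerSeries.constantCoeff (toInn k κ (E z Δ0)) = 0 :=
      PowerSeries.X_dvd_iff.1 (GFix.inn_dvd k κ (GFix.ev_small k κ _ (hx z) (hxd z) _ hΔ00))
    show PowerSeries.constantCoeff (1 + toInn k κ (E z Δ0) + PowerSeries.X ^ (M - k1) * _) = 1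
    rw [map_add, map_add, h1, map_mul, map_pow, PowerSeries.constantCoeff_X, zero_pow, zero_mul,
      map_one, add_zero, add_zero]
    rw [hMb]
    show s + (Mmin + 1) ≠ 0
    omega
  have hE0e : ∀ j z z', (∀ i, GFix.Eqm j (z i) (z' i)) → GFix.Eqm j (E0 z) (E0 z') :=
    fun j z z' hz => ((GFix.Eqm.refl _ _).add (GFix.inn_eqm k κ (hE j z z' hz _))).add
      ((GFix.Eqm.refl _ _).mul ((GFix.Eqm.refl _ _).mul (hRI _ j z z' hz)))
  let Φ2 : (Fin n ⊕ Fin n → PowerSeries (PowerSeries κ)) → Fin n → OL κ := fun z j =>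
    (i0 * GFix.RO k κ d M (p (fy.l j.succ) z) - PowerSeries.X ^ s * GFix.inc κ (z (Sum.inl j)) *
      (i0 * GFix.RO k κ d M (p (fy.l 0) z))) * PowerSeries.invOfUnit (f0 z) 1
  let Φ1 : (Fin n ⊕ Fin n → PowerSeries (PowerSeries κ)) → Fin n → OL κ := fun z j =>
    (K * (GFix.RI k κ d M (p (fv.l j.succ) z) - (toInn k κ (serP k κ (lin (fv.l j.succ) α)) +
      PowerSeries.X ^ s * GFix.inc κ (z (Sum.inr j))) * GFix.RI k κ d M (p (fv.l 0) z))) *
      PowerSeries.invOfUnit (E0 z) 1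
  obtain ⟨z, hz2, hz1⟩ := GFix.fixed (n := n) (a := a) (b := b) (Nat.succ_pos _) (Nat.succ_pos _)
    e Φ2 Φ1
    (fun j z z' hz i => (((GFix.Eqm.refl _ _).mul (hRO _ j z z' hz)).sub
      (((GFix.Eqm.refl _ _).mul (hinc _ _ _ (hz _))).mul
        ((GFix.Eqm.refl _ _).mul (hRO _ j z z' hz)))).mul
          (GFix.Eqm.inv (hf0 z) (hf0 z') (hf0e j z z' hz)))
    (fun j z z' hz i => ((GFix.Eqm.refl _ _).mul ((hRI _ j z z' hz).sub
      (((GFix.Eqm.refl _ _).add ((GFix.Eqm.refl _ _).mul (hinc _ _ _ (hz _)))).mul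
        (hRI _ j z z' hz)))).mul (GFix.Eqm.inv (hE0 z) (hE0 z') (hE0e j z z' hz)))
  have hlin : ∀ l, lin l (fun i => hv d (fun m => ev k κ (x z) (hx z) ((F i).coeff m))
      (WP κ ^ M) (WQ κ ^ M)) = hv d (p l z) (WP κ ^ M) (WQ κ ^ M) :=
    fun l => GFix.lin_hv k κ l d (x z) (hx z) F _ _
  refine ⟨M, s, x z, hx z, fun i => hv d (fun m => ev k κ (x z) (hx z) ((F i).coeff m))
    (WP κ ^ M) (WQ κ ^ M), by show Mmin ≤ Mmin + k1 + s + 1; omega, hs, fun i => rfl,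
    fun i => ?_, fun i => ?_, fun j => ?_, fun j => ?_⟩
  · obtain ⟨Δ', hΔ'0, hΔ'⟩ := h.z2 i
    obtain ⟨q, hq⟩ := GFix.out_dvd k κ (GFix.ev_small k κ _ (hx z) (hxd z) _ hΔ'0)
    have h1 : toOut k κ (ev k κ (x z) (hx z) ((F i).coeff 0)) = toOut k κ (serP k κ ρ0) *
        (algebraMap k _ (y i) + PowerSeries.X * q) := by
      rw [hΔ', map_mul, ev_C, map_add, ev_C, map_mul, map_add, hq, AlgHom.commutes,
        AlgHom.commutes]
    have h2 := GFix.hv_out k κ d M (fun m => ev k κ (x z) (hx z) ((F i).coeff m))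
    have h3 : (PowerSeries.X : OL κ) ^ M = PowerSeries.X * PowerSeries.X ^ (Mmin + k1 + s) := by
      rw [← pow_succ']
    refine ⟨q + i0 * (PowerSeries.X ^ (Mmin + k1 + s) *
      GFix.RO k κ d M (fun m => ev k κ (x z) (hx z) ((F i).coeff m))), ?_⟩
    rw [h2, h1, h3]
    linear_combination (-(PowerSeries.C (TT κ (M * d)) * (PowerSeries.X *
      PowerSeries.X ^ (Mmin + k1 + s) *
      GFix.RO k κ d M (fun m => ev k κ (x z) (hx z) ((F i).coeff m))))) * hi0
  · obtain ⟨q, hq⟩ := GFix.inn_dvd k κ (GFix.ev_small k κ _ (hx z) (hxd z) _ (hΔ0 i))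
    obtain ⟨q', hq'⟩ := GFix.inn_serP k κ (α i) (v i) (h.hα0 i)
    have h1 : toInn k κ (ev k κ (x z) (hx z) ((F i).coeff d)) = toInn k κ (serP k κ ρ1) *
        (algebraMap k _ (v i) + PowerSeries.X * q' + PowerSeries.X * q) := by
      rw [hΔ, map_mul, ev_C, map_add, ev_C, map_mul, map_add, hq, hq']
    have h2 := GFix.hv_inn k κ d M (fun m => ev k κ (x z) (hx z) ((F i).coeff m))
    have h3 : (PowerSeries.X : OL κ) ^ (M - k1) = PowerSeries.X * PowerSeries.X ^ (s + Mmin) := by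
      rw [← pow_succ', hMb]
      rfl
    refine ⟨q' + q + PowerSeries.X ^ (s + Mmin) * K *
      GFix.RI k κ d M (fun m => ev k κ (x z) (hx z) ((F i).coeff m)), ?_⟩
    rw [h2, h1, hK, h3]
    ring
  · refine ⟨PowerSeries.X ^ s * (PowerSeries.X ^ a * Φ2 z j -
      GFix.inc κ (GFix.nnp κ (PowerSeries.X ^ a * Φ2 z j))),
      GFix.neg_X_pow_mul s (GFix.neg_sub_inc _),
      (dvd_pow_self _ hs.ne').mul_right _, ?_⟩
    have h1 : GFix.inc κ (z (Sum.inl j)) = algebraMap κ (OL κ) (e j) -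
        GFix.inc κ (GFix.nnp κ (PowerSeries.X ^ a * Φ2 z j)) := by
      conv_lhs => rw [hz2 j]
      rw [map_sub, GFix.inc_C_C]
    rw [hlin, hlin, GFix.hv_out, GFix.hv_out, hout0, houtj]
    exact GFix.alg_out (by rw [hMa, pow_add]) hi0 (GFix.mul_inv (hf0 z)) h1
  · refine ⟨PowerSeries.X ^ s * (PowerSeries.X ^ b * Φ1 z j -
      GFix.inc κ (GFix.nnp κ (PowerSeries.X ^ b * Φ1 z j))),
      GFix.neg_X_pow_mul s (GFix.neg_sub_inc _),
      (dvd_pow_self _ hs.ne').mul_right _, ?_⟩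
    have h1 : GFix.inc κ (z (Sum.inr j)) =
        -GFix.inc κ (GFix.nnp κ (PowerSeries.X ^ b * Φ1 z j)) := by
      conv_lhs => rw [hz1 j]
      rw [map_neg]
    have h2 : toInn k κ (incQ k κ (z (Sum.inr j))) = GFix.inc κ (z (Sum.inr j)) :=
      toInn_incQ k κ _
    rw [hlin, hlin, GFix.hv_inn, GFix.hv_inn, hinnj, hinn0, map_mul, map_add, map_mul,
      GFix.inn_PQ_pow, h2, map_mul, map_add, map_one]
    exact GFix.alg_inn (by rw [hMb, pow_add]) hK (GFix.mul_inv (hE0 z)) h1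

end GFixMain

end Pool.Agent.VFF
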