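import Pool.Agent.Lib_MP_1858fb_f.Fix
import Pool.Agent.Lib_MP_1858fb_f.NegDef

/-!
# MP_1858fb_ag, line F: the abstract fixed point of the gluing (piece F-G1)
-/

set_option autoImplicit false

namespace Pool.Agent.VFF.GFx

open PowerSeries

variable {κ : Type} [CommRing κ]

/-- `κ⟦T⟧⟦q⟧ → κ((T))⟦q⟧` -/
noncomputable def emb : PowerSeries (PowerSeries κ) →+* OL κ :=
  PowerSeries.map (HahnSeries.ofPowerSeries ℤ κ)

/-- the part with nonnegative powers of `T` -/
noncomputable def pos (f : OL κ) : PowerSeries (PowerSeries κ) :=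
  PowerSeries.mk fun b => PowerSeries.mk fun a => (PowerSeries.coeff b f).coeff (a : ℤ)

theorem coeff_pos (f : OL κ) (a b : ℕ) :
    PowerSeries.coeff a (PowerSeries.coeff b (pos f)) = (PowerSeries.coeff b f).coeff (a : ℤ) := by
  unfold pos
  rw [coeff_mk, coeff_mk]

theorem coeff_emb_nat (g : PowerSeries (PowerSeries κ)) (a b : ℕ) :
    (PowerSeries.coeff b (emb g)).coeff (a : ℤ) = PowerSeries.coeff a (PowerSeries.coeff b g) := by
  unfold emb
  rw [coeff_map, HahnSeries.ofPowerSeries_apply_coeff]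

theorem pos_sub (f g : OL κ) : pos (f - g) = pos f - pos g := by
  ext b a
  rw [coeff_pos, map_sub, HahnSeries.coeff_sub, map_sub, map_sub, coeff_pos, coeff_pos]

theorem dvd_pos {f : OL κ} {j : ℕ} (h : (X : OL κ) ^ j ∣ f) :
    (X : PowerSeries (PowerSeries κ)) ^ j ∣ pos f := by
  rw [X_pow_dvd_iff] at h ⊢
  intro m hm
  ext a
  rw [coeff_pos, h m hm, HahnSeries.coeff_zero, map_zero]

theorem neg_sub_pos (f : OL κ) : Neg (f - emb (pos f)) := by
  intro b a ha
  obtain ⟨m, rfl⟩ := Int.eq_ofNat_of_zero_le ha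
  rw [map_sub, HahnSeries.coeff_sub, coeff_emb_nat, coeff_pos, sub_self]

theorem emb_X : emb (X : PowerSeries (PowerSeries κ)) = X := by
  unfold emb
  exact PowerSeries.map_X _

theorem dvd_emb {f : PowerSeries (PowerSeries κ)} {j : ℕ}
    (h : (X : PowerSeries (PowerSeries κ)) ^ j ∣ f) : (X : OL κ) ^ j ∣ emb f := by
  have h1 := map_dvd (emb (κ := κ)) h
  rwa [map_pow, emb_X] at h1

theorem neg_X_pow_mul {f : OL κ} (hf : Neg f) (m : ℕ) : Neg (X ^ m * f) := by
  intro b a ha
  rw [PowerSeries.coeff_X_pow_mul']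
  split_ifs with h
  · exact hf _ a ha
  · rfl

/-- an inverse of `1 + X ^ L * g` -/
theorem mul_inv' {L : ℕ} (hL : 0 < L) (g : OL κ) :
    (1 + X ^ L * g) * invOfUnit (1 + X ^ L * g) 1 = 1 := by
  apply mul_invOfUnit
  rw [map_add, map_mul, map_pow, constantCoeff_X, zero_pow (by omega), zero_mul, add_zero,
    map_one]
  rfl

theorem dvd_mul_sub {B : Type*} [CommRing B] {p a a' b b' : B} (h : p ∣ a - a') (h' : p ∣ b - b') :
    p ∣ a * b - a' * b' := by
  have : a * b - a' * b' = (a - a') * b + a' * (b - b') := by ring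
  rw [this]
  exact dvd_add (h.mul_right _) (h'.mul_left _)

/-- **The fixed point.** -/
theorem fix_abs {ι : Type} (K L : ℕ) (hK : 0 < K) (hL : K < L) (β : ι → OL κ)
    (c : ι → PowerSeries (PowerSeries κ)) (G0 G : (ι → PowerSeries (PowerSeries κ)) → ι → OL κ)
    (hG0 : ∀ (j : ℕ) (x x' : ι → PowerSeries (PowerSeries κ)),
      (∀ i, (X : PowerSeries (PowerSeries κ)) ^ j ∣ x i - x' i) →
      ∀ i, (X : OL κ) ^ j ∣ G0 x i - G0 x' i)
    (hG : ∀ (j : ℕ) (x x' : ι → PowerSeries (PowerSeries κ)),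
      (∀ i, (X : PowerSeries (PowerSeries κ)) ^ j ∣ x i - x' i) →
      ∀ i, (X : OL κ) ^ j ∣ G x i - G x' i) :
    ∃ x : ι → PowerSeries (PowerSeries κ), ∀ i, ∃ r : OL κ, Neg r ∧ (X : OL κ) ∣ r ∧
      β i + X ^ K * emb (x i) + X ^ L * G x i =
        (1 + X ^ L * G0 x i) * (β i + X ^ K * emb (c i) + r) := by
  let inv : (ι → PowerSeries (PowerSeries κ)) → ι → OL κ := fun x i =>
    invOfUnit (1 + X ^ L * G0 x i) 1
  have hinv : ∀ x i, (1 + X ^ L * G0 x i) * inv x i = 1 := fun x i => mul_inv' (by omega) _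
  have hinvL : ∀ (j : ℕ) (x x' : ι → PowerSeries (PowerSeries κ)),
      (∀ i, (X : PowerSeries (PowerSeries κ)) ^ j ∣ x i - x' i) →
      ∀ i, (X : OL κ) ^ j ∣ inv x i - inv x' i := by
    intro j x x' h i
    have h1 : inv x i - inv x' i = -(inv x i * inv x' i * (X ^ L * (G0 x i - G0 x' i))) := by
      linear_combination (inv x' i) * (hinv x i) - (inv x i) * (hinv x' i)
    rw [h1]
    exact (((hG0 j x x' h i).mul_left _).mul_left _).neg_right
  let Nm : (ι → PowerSeries (PowerSeries κ)) → ι → OL κ := fun x i =>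
    G x i - G0 x i * (β i + X ^ K * emb (x i))
  have hNm : ∀ (j : ℕ) (x x' : ι → PowerSeries (PowerSeries κ)),
      (∀ i, (X : PowerSeries (PowerSeries κ)) ^ j ∣ x i - x' i) →
      ∀ i, (X : OL κ) ^ j ∣ Nm x i - Nm x' i := by
    intro j x x' h i
    have h1 : Nm x i - Nm x' i = (G x i - G x' i) -
        (G0 x i * (β i + X ^ K * emb (x i)) - G0 x' i * (β i + X ^ K * emb (x' i))) := by
      simp only [Nm]
      ring
    rw [h1]
    refine dvd_sub (hG j x x' h i) (dvd_mul_sub (hG0 j x x' h i) ?_)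
    have h2 : β i + X ^ K * emb (x i) - (β i + X ^ K * emb (x' i)) =
        X ^ K * emb (x i - x' i) := by
      rw [map_sub]
      ring
    rw [h2]
    exact (dvd_emb (h i)).mul_left _
  let Θ : (ι → PowerSeries (PowerSeries κ)) → ι → OL κ := fun x i =>
    X ^ (L - K) * (Nm x i * inv x i)
  let Ψ : (ι → PowerSeries (PowerSeries κ)) → ι → PowerSeries (PowerSeries κ) := fun x i =>
    c i - pos (Θ x i)
  obtain ⟨x, -, hx, -⟩ := exists_fixed_powerSeries (ι := ι) (B := fun _ => PowerSeries κ) 0 Ψ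
    (fun a _ i => by rw [pow_zero]; exact one_dvd _)
    (fun j a b _ _ h i => by
      have h1 : Ψ a i - Ψ b i = pos (Θ b i - Θ a i) := by
        simp only [Ψ]
        rw [pos_sub]
        ring
      rw [h1]
      apply dvd_pos
      have h2 : Θ b i - Θ a i = -(X ^ (L - K) * (Nm a i * inv a i - Nm b i * inv b i)) := by
        simp only [Θ]
        ring
      rw [h2, pow_succ']
      refine (mul_dvd_mul (dvd_pow_self _ (by omega)) ?_).neg_right
      exact dvd_mul_sub (hNm j a b h i) (hinvL j a b h i))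
  refine ⟨x, fun i => ⟨X ^ K * (Θ x i - emb (pos (Θ x i))), neg_X_pow_mul (neg_sub_pos _) _,
    (dvd_pow_self _ (by omega)).mul_right _, ?_⟩⟩
  have h1 : x i = c i - pos (Θ x i) := (congrFun hx i).symm
  have h2 : emb (x i) = emb (c i) - emb (pos (Θ x i)) := by
    conv_lhs => rw [h1]
    rw [map_sub]
  have h3 : (1 + X ^ L * G0 x i) * (X ^ K * Θ x i) =
      X ^ L * (G x i - G0 x i * (β i + X ^ K * emb (x i))) := by
    have h4 : (X : OL κ) ^ L = X ^ K * X ^ (L - K) := by
      rw [← pow_add]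
      congr 1
      omega
    calc (1 + X ^ L * G0 x i) * (X ^ K * Θ x i)
        = (X ^ K * X ^ (L - K)) * Nm x i * ((1 + X ^ L * G0 x i) * inv x i) := by
          simp only [Θ]
          ring
      _ = _ := by rw [hinv, ← h4, mul_one]
  have h5 : β i + X ^ K * emb (c i) + X ^ K * (Θ x i - emb (pos (Θ x i))) =
      β i + X ^ K * emb (x i) + X ^ K * Θ x i := by
    rw [h2]
    ring
  rw [h5]
  linear_combination -h3

end Pool.Agent.VFF.GFx
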