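import Pool.Agent.Lib_MP_1858fb_f.Ev
import Pool.Agent.Lib_MP_1858fb_f.GInDef
import Pool.Agent.Lib_MP_1858fb_f.NegDef
import Pool.Agent.Lib_MP_1858fb_f.Fix

set_option autoImplicit false

/-!
# MP_1858fb_ag, line F, F-G1 (glue_fix): auxiliary lemmas

`GFix.NE`, `GFix.NW`: functions of the unknown which are nonexpansive for the `q`-adic distance,
with values in the ring of a circle, in `κ⟦P, Q⟧`.
-/

namespace Pool.Agent.VFF

open Pool.Agent.VF Polynomial

namespace GFix

/-- the ring of the unknowns -/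
abbrev PP (κ : Type) [CommRing κ] : Type := PowerSeries (PowerSeries κ)

section NE

variable {κ : Type} [CommRing κ] {ι : Type}

/-- nonexpansive functions with values in the ring of a circle -/
def NE (f : (ι → PP κ) → OL κ) : Prop :=
  ∀ (j : ℕ) (R R' : ι → PP κ), (∀ i, (PowerSeries.X : PP κ) ^ j ∣ R i - R' i) →
    (PowerSeries.X : OL κ) ^ j ∣ f R - f R'

theorem NE.const (a : OL κ) : NE (fun _ : ι → PP κ => a) := by
  intro j R R' _
  simp

theorem NE.add {f g : (ι → PP κ) → OL κ} (hf : NE f) (hg : NE g) :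
    NE (fun R => f R + g R) := by
  intro j R R' h
  have := dvd_add (hf j R R' h) (hg j R R' h)
  have e : f R + g R - (f R' + g R') = (f R - f R') + (g R - g R') := by ring
  rw [e]
  exact this

theorem NE.sub {f g : (ι → PP κ) → OL κ} (hf : NE f) (hg : NE g) :
    NE (fun R => f R - g R) := by
  intro j R R' h
  have := dvd_sub (hf j R R' h) (hg j R R' h)
  have e : f R - g R - (f R' - g R') = (f R - f R') - (g R - g R') := by ring
  rw [e]
  exact this

theorem NE.mul {f g : (ι → PP κ) → OL κ} (hf : NE f) (hg : NE g) :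
    NE (fun R => f R * g R) := by
  intro j R R' h
  have e : f R * g R - f R' * g R' = (f R - f R') * g R + f R' * (g R - g R') := by ring
  rw [e]
  exact dvd_add ((hf j R R' h).mul_right _) ((hg j R R' h).mul_left _)

theorem NE.sum {α : Type} (s : Finset α) {f : α → (ι → PP κ) → OL κ} (hf : ∀ a ∈ s, NE (f a)) :
    NE (fun R => ∑ a ∈ s, f a R) := by
  intro j R R' h
  rw [← Finset.sum_sub_distrib]
  exact Finset.dvd_sum fun a ha => hf a ha j R R' h

/-- the inverse of a series with constant coefficient one -/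
noncomputable def inv' (E : OL κ) : OL κ := PowerSeries.invOfUnit E 1

theorem mul_inv' {E : OL κ} (h : PowerSeries.constantCoeff E = 1) : E * inv' E = 1 :=
  PowerSeries.mul_invOfUnit E 1 (by rw [h]; rfl)

theorem NE.inv {f : (ι → PP κ) → OL κ} (hf : NE f)
    (h : ∀ R, PowerSeries.constantCoeff (f R) = 1) : NE (fun R => inv' (f R)) := by
  intro j R R' hR
  have h1 := mul_inv' (h R)
  have h2 := mul_inv' (h R')
  have e : inv' (f R) - inv' (f R') = -(inv' (f R) * inv' (f R') * (f R - f R')) := by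
    linear_combination (inv' (f R')) * h1 - (inv' (f R)) * h2
  rw [e]
  exact ((hf j R R' hR).mul_left _).neg_right

/-- `f R ↦ ι (R i)` -/
theorem NE.coord (i : ι) :
    NE (fun R : ι → PP κ => PowerSeries.map (HahnSeries.ofPowerSeries ℤ κ) (R i)) := by
  intro j R R' h
  rw [← map_sub]
  obtain ⟨c, hc⟩ := h i
  rw [hc, map_mul, map_pow, PowerSeries.map_X]
  exact dvd_mul_right _ _

end NE

section Part

variable {κ : Type} [CommRing κ]

/-- the part with exponents at least `0` -/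
noncomputable def nn (r : OL κ) : PP κ :=
  PowerSeries.mk fun b => PowerSeries.mk fun a => (PowerSeries.coeff b r).coeff (a : ℤ)

theorem coeff_nn (r : OL κ) (a b : ℕ) :
    PowerSeries.coeff a (PowerSeries.coeff b (nn r)) = (PowerSeries.coeff b r).coeff (a : ℤ) := by
  rw [nn, PowerSeries.coeff_mk, PowerSeries.coeff_mk]

theorem nn_sub (r r' : OL κ) : nn (r - r') = nn r - nn r' := by
  ext b a
  rw [map_sub, map_sub, coeff_nn, coeff_nn, coeff_nn, map_sub, HahnSeries.coeff_sub]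

theorem dvd_nn {r : OL κ} {j : ℕ} (h : (PowerSeries.X : OL κ) ^ j ∣ r) :
    (PowerSeries.X : PP κ) ^ j ∣ nn r := by
  rw [PowerSeries.X_pow_dvd_iff] at h ⊢
  intro b hb
  ext a
  rw [coeff_nn, h b hb, HahnSeries.coeff_zero, map_zero]

/-- `r` minus its nonnegative part is negative -/
theorem neg_sub_nn (r : OL κ) :
    Neg (r - PowerSeries.map (HahnSeries.ofPowerSeries ℤ κ) (nn r)) := by
  intro b a ha
  obtain ⟨m, rfl⟩ := Int.eq_ofNat_of_zero_le ha
  rw [map_sub, HahnSeries.coeff_sub, PowerSeries.coeff_map,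
    HahnSeries.ofPowerSeries_apply_coeff, coeff_nn, sub_self]

theorem Neg.X_pow_mul {r : OL κ} (h : Neg r) (s : ℕ) : Neg (PowerSeries.X ^ s * r) := by
  intro b a ha
  rw [PowerSeries.coeff_X_pow_mul']
  split_ifs with hs
  · exact h _ a ha
  · rw [HahnSeries.coeff_zero]

end Part

section Units

variable (k : Type) [Field k] (κ : Type) [CommRing κ] [Algebra k κ]

/-- the element `q = P Q` of `κ⟦P, Q⟧` -/
noncomputable def qW : W κ := WP κ * WQ κ

theorem TT_mul (a b : ℤ) : TT κ a * TT κ b = TT κ (a + b) := by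
  rw [TT, TT, TT, HahnSeries.single_mul_single, one_mul]

theorem TT_zero : TT κ 0 = 1 := rfl

theorem TT_pow (a : ℤ) (m : ℕ) : TT κ a ^ m = TT κ (m * a) := by
  rw [TT, TT, HahnSeries.single_pow, one_pow]
  simp

theorem CTT_mul (a b : ℤ) : (PowerSeries.C (TT κ a) : OL κ) * PowerSeries.C (TT κ b) =
    PowerSeries.C (TT κ (a + b)) := by
  rw [← map_mul, TT_mul]

theorem CTT_neg (a : ℤ) :
    (PowerSeries.C (TT κ a) : OL κ) * PowerSeries.C (TT κ (-a)) = 1 := by
  rw [CTT_mul, add_neg_cancel, TT_zero, map_one]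

theorem toOut_qW : toOut k κ (qW κ) = PowerSeries.X := by
  rw [qW, map_mul, toOut_P, toOut_Q, mul_left_comm, CTT_neg, mul_one]

theorem toInn_qW : toInn k κ (qW κ) = PowerSeries.X := by
  rw [qW, mul_comm, map_mul, toInn_P, toInn_Q, mul_left_comm, CTT_neg, mul_one]

theorem toOut_P_pow (m : ℕ) : toOut k κ (WP κ ^ m) = PowerSeries.C (TT κ m) := by
  rw [map_pow, toOut_P, ← map_pow, TT_pow, mul_one]

theorem toOut_Q_pow (m : ℕ) :
    toOut k κ (WQ κ ^ m) = PowerSeries.X ^ m * PowerSeries.C (TT κ (-m)) := by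
  rw [map_pow, toOut_Q, mul_pow, ← map_pow, TT_pow, mul_neg, mul_one]

theorem toInn_Q_pow (m : ℕ) : toInn k κ (WQ κ ^ m) = PowerSeries.C (TT κ m) := by
  rw [map_pow, toInn_Q, ← map_pow, TT_pow, mul_one]

theorem toInn_P_pow (m : ℕ) :
    toInn k κ (WP κ ^ m) = PowerSeries.X ^ m * PowerSeries.C (TT κ (-m)) := by
  rw [map_pow, toInn_P, mul_pow, ← map_pow, TT_pow, mul_neg, mul_one]

theorem serP_X : serP k κ PowerSeries.X = WP κ := by
  apply Ring2.ext_ij
  intro i j
  rw [coeff_serP, WP, MvPowerSeries.coeff_X, PowerSeries.coeff_X]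
  have : ij i j = Finsupp.single 1 1 ↔ i = 1 ∧ j = 0 := by
    constructor
    · intro h
      rw [Ring2.ij_eq_ex] at h
      constructor
      · rw [← ex_one i j, h]; simp
      · rw [← ex_zero i j, h]; simp
    · rintro ⟨rfl, rfl⟩
      simp [ij]
  by_cases hj : j = 0
  · by_cases hi : i = 1
    · rw [if_pos hj, if_pos hi, map_one, if_pos (this.2 ⟨hi, hj⟩)]
    · rw [if_pos hj, if_neg hi, map_zero, if_neg (fun h => hi (this.1 h).1)]
  · rw [if_neg hj, if_neg (fun h => hj (this.1 h).2)]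

/-- a nonzero power series over a field is a power of the variable times a unit -/
theorem exists_unit {g : PowerSeries k} (hg : g ≠ 0) :
    ∃ (r : ℕ) (u u' : PowerSeries k), g = PowerSeries.X ^ r * u ∧ u * u' = 1 ∧
      g.order = r := by
  obtain ⟨r, hr⟩ : ∃ r : ℕ, g.order = r := by
    rcases h : g.order with _ | r
    · exact absurd (PowerSeries.order_eq_top.1 h) hg
    · exact ⟨r, rfl⟩
  have h1 : (PowerSeries.X : PowerSeries k) ^ r ∣ g := by
    rw [PowerSeries.X_pow_dvd_iff]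
    intro m hm
    apply PowerSeries.coeff_of_lt_order
    rw [hr]
    exact_mod_cast hm
  obtain ⟨u, hu⟩ := h1
  have h2 : PowerSeries.constantCoeff u ≠ 0 := by
    have h3 : PowerSeries.coeff r g ≠ 0 := by
      have := PowerSeries.coeff_order (φ := g) hg
      rwa [hr, ENat.toNat_natCast] at this
    rw [hu] at h3
    have h4 := PowerSeries.coeff_X_pow_mul u r 0
    rw [zero_add] at h4
    rw [h4] at h3
    simpa using h3
  refine ⟨r, u, u⁻¹, hu, PowerSeries.mul_inv_cancel u h2, hr⟩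

/-- (L2) the value on the outer circle is a unit -/
theorem toOut_serP_unit {g : PowerSeries k} (hg : g ≠ 0) :
    ∃ σ : OL κ, toOut k κ (serP k κ g) * σ = 1 := by
  obtain ⟨r, u, u', h1, h2, -⟩ := exists_unit k hg
  refine ⟨PowerSeries.C (TT κ (-r)) * toOut k κ (serP k κ u'), ?_⟩
  have h3 : toOut k κ (serP k κ u) * toOut k κ (serP k κ u') = 1 := by
    rw [← map_mul, ← map_mul, h2, map_one, map_one]
  rw [h1, map_mul, map_mul, map_pow, serP_X, toOut_P_pow]
  have h4 := CTT_neg κ (r : ℤ)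
  linear_combination (toOut k κ (serP k κ u) * toOut k κ (serP k κ u')) * h4 + h3

/-- (L2) the value on the inner circle is a power of `q` times a unit -/
theorem toInn_serP_unit {g : PowerSeries k} (hg : g ≠ 0) :
    ∃ (r : ℕ) (υ υ' : OL κ), toInn k κ (serP k κ g) = PowerSeries.X ^ r * υ ∧ υ * υ' = 1 := by
  obtain ⟨r, u, u', h1, h2, -⟩ := exists_unit k hg
  refine ⟨r, PowerSeries.C (TT κ (-r)) * toInn k κ (serP k κ u),
    PowerSeries.C (TT κ r) * toInn k κ (serP k κ u'), ?_, ?_⟩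
  · rw [h1, map_mul, map_mul, map_pow, serP_X, toInn_P_pow]
    ring
  · have h3 : toInn k κ (serP k κ u) * toInn k κ (serP k κ u') = 1 := by
      rw [← map_mul, ← map_mul, h2, map_one, map_one]
    have h4 := CTT_neg κ (r : ℤ)
    linear_combination (toInn k κ (serP k κ u) * toInn k κ (serP k κ u')) * h4 + h3

/-- (L1) division by `t(P)²` costs a power of `q` -/
theorem exists_div {t : PowerSeries k} (ht : t ≠ 0) :
    ∃ (s : ℕ) (G : W κ), 0 < s ∧ serP k κ (t ^ 2) * G = qW κ ^ s ∧ qW κ ∣ G := by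
  obtain ⟨r, u, u', h1, h2, -⟩ := exists_unit k ht
  refine ⟨2 * r + 1, WQ κ ^ (2 * r) * serP k κ (u' ^ 2) * qW κ, by omega, ?_,
    dvd_mul_left _ _⟩
  have h3 : serP k κ u * serP k κ u' = 1 := by rw [← map_mul, h2, map_one]
  rw [h1, map_pow, map_mul, map_pow, map_pow, serP_X, qW]
  have h4 : (serP k κ u) ^ 2 * (serP k κ u') ^ 2 = 1 := by rw [← mul_pow, h3, one_pow]
  calc (WP κ ^ r * serP k κ u) ^ 2 * (WQ κ ^ (2 * r) * (serP k κ u') ^ 2 * (WP κ * WQ κ))
      = ((serP k κ u) ^ 2 * (serP k κ u') ^ 2) * (WP κ * WQ κ) ^ (2 * r + 1) := by ring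
    _ = (WP κ * WQ κ) ^ (2 * r + 1) := by rw [h4, one_mul]

end Units

section NW

variable {κ : Type} [CommRing κ] {ι : Type}

/-- nonexpansive functions with values in `κ⟦P, Q⟧` -/
def NW (f : (ι → PP κ) → W κ) : Prop :=
  ∀ (j : ℕ) (R R' : ι → PP κ), (∀ i, (PowerSeries.X : PP κ) ^ j ∣ R i - R' i) →
    qW κ ^ j ∣ f R - f R'

variable (k : Type) [Field k] [Algebra k κ]

theorem NW.out {f : (ι → PP κ) → W κ} (hf : NW f) : NE (fun R => toOut k κ (f R)) := by
  intro j R R' h
  rw [← map_sub]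
  obtain ⟨c, hc⟩ := hf j R R' h
  rw [hc, map_mul, map_pow, toOut_qW]
  exact dvd_mul_right _ _

theorem NW.inn {f : (ι → PP κ) → W κ} (hf : NW f) : NE (fun R => toInn k κ (f R)) := by
  intro j R R' h
  rw [← map_sub]
  obtain ⟨c, hc⟩ := hf j R R' h
  rw [hc, map_mul, map_pow, toInn_qW]
  exact dvd_mul_right _ _

theorem incP_X : incP k κ PowerSeries.X = qW κ := by
  apply toOut_injective k κ
  rw [toOut_incP, toOut_qW, PowerSeries.map_X]

theorem incQ_X : incQ k κ PowerSeries.X = qW κ := by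
  apply toInn_injective k κ
  rw [toInn_incQ, toInn_qW, PowerSeries.map_X]

theorem NW.incP_coord (i : ι) (G : W κ) : NW (fun R : ι → PP κ => G * incP k κ (R i)) := by
  intro j R R' h
  rw [← mul_sub, ← map_sub]
  obtain ⟨c, hc⟩ := h i
  rw [hc, map_mul, map_pow, incP_X]
  exact (dvd_mul_right _ _).mul_left _

theorem NW.incQ_coord (i : ι) (G : W κ) : NW (fun R : ι → PP κ => G * incQ k κ (R i)) := by
  intro j R R' h
  rw [← mul_sub, ← map_sub]
  obtain ⟨c, hc⟩ := h i
  rw [hc, map_mul, map_pow, incQ_X]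
  exact (dvd_mul_right _ _).mul_left _

theorem NW.ev {p : ℕ} {x : (ι → PP κ) → Fin p → W κ} (hx : ∀ i, NW (fun R => x R i))
    (h0 : ∀ R j, MvPowerSeries.constantCoeff (x R j) = 0)
    (G : MvPowerSeries (Fin p) (PowerSeries k)) :
    NW (fun R => ev k κ (x R) (h0 R) G) := by
  intro j R R' h
  obtain ⟨c, hc⟩ := ev_sub k κ (x R) (h0 R) (x R') (h0 R') G
  show qW κ ^ j ∣ VFF.ev k κ (x R) (h0 R) G - VFF.ev k κ (x R') (h0 R') G
  rw [hc]
  exact Finset.dvd_sum fun i _ => (hx i j R R' h).mul_right _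

end NW

section HV

variable (k : Type) [Field k] {κ : Type} [CommRing κ] [Algebra k κ]

/-- the rest on the outer circle -/
noncomputable def Uo (M d : ℕ) (c : ℕ → W κ) : OL κ :=
  ∑ m ∈ Finset.range d, toOut k κ (c (m + 1)) *
    (PowerSeries.X ^ (M * m) * PowerSeries.C (TT κ (-(2 * M * (m + 1)))))

/-- the rest on the inner circle -/
noncomputable def Ui (M d : ℕ) (c : ℕ → W κ) : OL κ :=
  ∑ m ∈ Finset.range d, toInn k κ (c (d - (m + 1))) *
    (PowerSeries.X ^ (M * m) * PowerSeries.C (TT κ (-(2 * M * (m + 1)))))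

theorem toOut_hv (M d : ℕ) (c : ℕ → W κ) :
    toOut k κ (hv d c (WP κ ^ M) (WQ κ ^ M)) =
      PowerSeries.C (TT κ (M * d)) * (toOut k κ (c 0) + PowerSeries.X ^ M * Uo k M d c) := by
  rw [hv, map_sum, Finset.sum_range_succ', add_comm, mul_add]
  congr 1
  · rw [map_mul, map_mul, ← pow_mul, ← pow_mul, toOut_P_pow, toOut_Q_pow]
    simp only [Nat.sub_zero, mul_zero, pow_zero, Nat.cast_zero, neg_zero, TT_zero,
      map_one, mul_one, Nat.cast_mul]
    ring
  · rw [Uo, Finset.mul_sum, Finset.mul_sum]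
    refine Finset.sum_congr rfl fun m hm => ?_
    rw [Finset.mem_range] at hm
    rw [map_mul, map_mul, ← pow_mul, ← pow_mul, toOut_P_pow, toOut_Q_pow]
    have h1 : (PowerSeries.C (TT κ ((M * (d - (m + 1)) : ℕ) : ℤ)) : OL κ) *
        PowerSeries.C (TT κ (-((M * (m + 1) : ℕ) : ℤ))) =
        PowerSeries.C (TT κ (M * d)) * PowerSeries.C (TT κ (-(2 * M * (m + 1)))) := by
      rw [CTT_mul, CTT_mul]
      congr 2
      push_cast [Nat.cast_sub (by omega : m + 1 ≤ d)]
      ring
    calc toOut k κ (c (m + 1)) * PowerSeries.C (TT κ ((M * (d - (m + 1)) : ℕ) : ℤ)) *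
          (PowerSeries.X ^ (M * (m + 1)) * PowerSeries.C (TT κ (-((M * (m + 1) : ℕ) : ℤ))))
        = toOut k κ (c (m + 1)) * PowerSeries.X ^ (M * (m + 1)) *
          (PowerSeries.C (TT κ ((M * (d - (m + 1)) : ℕ) : ℤ)) *
            PowerSeries.C (TT κ (-((M * (m + 1) : ℕ) : ℤ)))) := by ring
      _ = _ := by
          rw [h1, show M * (m + 1) = M + M * m by ring, pow_add]
          ring

theorem toInn_hv (M d : ℕ) (c : ℕ → W κ) :
    toInn k κ (hv d c (WP κ ^ M) (WQ κ ^ M)) =
      PowerSeries.C (TT κ (M * d)) * (toInn k κ (c d) + PowerSeries.X ^ M * Ui k M d c) := by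
  rw [hv, map_sum, Finset.sum_range_succ, add_comm, mul_add]
  congr 1
  · rw [map_mul, map_mul, ← pow_mul, ← pow_mul, toInn_P_pow, toInn_Q_pow]
    simp only [Nat.sub_self, mul_zero, pow_zero, Nat.cast_zero, neg_zero, TT_zero,
      map_one, mul_one, Nat.cast_mul]
    ring
  · rw [Ui, Finset.mul_sum, Finset.mul_sum, ← Finset.sum_range_reflect]
    refine Finset.sum_congr rfl fun m hm => ?_
    rw [Finset.mem_range] at hm
    have e1 : d - 1 - m = d - (m + 1) := by omega
    have e2 : d - (d - (m + 1)) = m + 1 := by omega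
    rw [e1, map_mul, map_mul, ← pow_mul, ← pow_mul, toInn_P_pow, toInn_Q_pow, e2]
    have h1 : (PowerSeries.C (TT κ ((M * (d - (m + 1)) : ℕ) : ℤ)) : OL κ) *
        PowerSeries.C (TT κ (-((M * (m + 1) : ℕ) : ℤ))) =
        PowerSeries.C (TT κ (M * d)) * PowerSeries.C (TT κ (-(2 * M * (m + 1)))) := by
      rw [CTT_mul, CTT_mul]
      congr 2
      push_cast [Nat.cast_sub (by omega : m + 1 ≤ d)]
      ring
    calc toInn k κ (c (d - (m + 1))) *
          (PowerSeries.X ^ (M * (m + 1)) * PowerSeries.C (TT κ (-((M * (m + 1) : ℕ) : ℤ)))) *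
          PowerSeries.C (TT κ ((M * (d - (m + 1)) : ℕ) : ℤ))
        = toInn k κ (c (d - (m + 1))) * PowerSeries.X ^ (M * (m + 1)) *
          (PowerSeries.C (TT κ ((M * (d - (m + 1)) : ℕ) : ℤ)) *
            PowerSeries.C (TT κ (-((M * (m + 1) : ℕ) : ℤ)))) := by ring
      _ = _ := by
          rw [h1, show M * (m + 1) = M + M * m by ring, pow_add]
          ring

theorem NE.Uo {ι : Type} (M d : ℕ) {c : (ι → PP κ) → ℕ → W κ} (hc : ∀ m, NW (fun R => c R m)) :
    NE (fun R => GFix.Uo k M d (c R)) :=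
  NE.sum _ fun m _ => NE.mul (NW.out k (hc (m + 1))) (NE.const _)

theorem NE.Ui {ι : Type} (M d : ℕ) {c : (ι → PP κ) → ℕ → W κ} (hc : ∀ m, NW (fun R => c R m)) :
    NE (fun R => GFix.Ui k M d (c R)) :=
  NE.sum _ fun m _ => NE.mul (NW.inn k (hc (d - (m + 1)))) (NE.const _)

end HV

end GFix

end Pool.Agent.VFF
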