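import Pool.Agent.Lib_MP_1858fb_f.CertEx
import Pool.Agent.Lib_MP_1858fb_f.FGG
import Pool.Agent.Lib_MP_1858fb_f.Fin61A

/-!
# MP_1858fb_ag, line F: `gg` at an arbitrary finite point and at infinity (helper96)
-/

namespace Pool.Agent.VFF

open Pool.Agent.VF Polynomial

variable {k : Type} [Field k] {N n c : ℕ}

namespace GGx

open Fin61

theorem eval_shift (f : k[X]) (x y : k) : (f.comp (X + C x)).eval y = f.eval (y + x) := by
  rw [eval_comp, eval_add, eval_X, eval_C]

theorem shift_shift (f : k[X]) (x : k) : (f.comp (X + C x)).comp (X + C (-x)) = f := by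
  rw [comp_assoc, add_comp, X_comp, C_comp, add_assoc, ← C_add, neg_add_cancel, C_0, add_zero,
    comp_X]

/-- translation of a curve -/
theorem curve_shift [IsAlgClosed k] (D : VData k N n c) {d : ℕ} {R : Fin (N + 1) → k[X]}
    (hR : Curve D d R) (x : k) : Curve D d (fun i => (R i).comp (X + C x)) := by
  refine ⟨fun i => ?_, fun E hE => ?_, 1, one_ne_zero, ?_⟩
  · show ((R i).comp (X + C x)).natDegree ≤ d
    rw [natDegree_shift]
    exact hR.deg i
  · rw [aeval_shift, hR.onV E hE, zero_comp]
  · refine cert_of_points D (fun i => ?_) (fun y => ?_) ?_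
    · show ((R i).comp (X + C x)).natDegree ≤ d
      rw [natDegree_shift]
      exact hR.deg i
    · obtain ⟨l, hl⟩ := cert_eval D hR (y + x)
      refine ⟨l, ?_⟩
      have h1 : (fun i => ((R i).comp (X + C x)).eval y) = fun i => (R i).eval (y + x) :=
        funext fun i => eval_shift _ _ _
      rw [h1]
      exact hl
    · obtain ⟨l, hl⟩ := cert_inf D hR
      refine ⟨l, ?_⟩
      have h1 : (fun i => ((R i).comp (X + C x)).coeff d) = fun i => (R i).coeff d :=
        funext fun i => coeff_shift (hR.deg i) x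
      rw [h1]
      exact hl

end GGx

open Fin61 GGx

/-- [F-GG] at an arbitrary finite point -/
theorem gg_at [IsAlgClosed k] (D : VData k N n c) {d : ℕ} {R : Fin (N + 1) → k[X]}
    (hR : Curve D d R) {g : Fin n → Fin (N + 1) → k[X]}
    (hg : Sec D d R (Fin.elim0 : Fin 0 → k) g) (x : k) :
    ∃ g' : Fin n → Fin (N + 1) → k[X], (∀ j i, (g' j i).natDegree < d) ∧
      (∀ j, Tang D.V R (g' j)) ∧
      LinearIndependent k (Fin.cons (fun i => (R i).eval x) (fun j i => (g' j i).eval x) :
        Fin (n + 1) → Fin (N + 1) → k) := by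
  obtain ⟨h, hd, ht, -, hli⟩ := gg D (curve_shift D hR x) (Fin.elim0 : Fin 0 → k)
    (fun a => a.elim0) (fun a => a.elim0) (sec_shift D hR hg x)
  refine ⟨fun j i => (h j i).comp (X + C (-x)), fun j i => ?_, fun j => ?_, ?_⟩
  · show ((h j i).comp (X + C (-x))).natDegree < d
    rw [natDegree_shift]
    exact hd j i
  · have h1 := tang_shift (ht j) (-x)
    have h2 : (fun i => ((R i).comp (X + C x)).comp (X + C (-x))) = R :=
      funext fun i => shift_shift _ _
    rw [h2] at h1
    exact h1
  · have h1 : (Fin.cons (fun i => (R i).eval x)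
        (fun j i => ((h j i).comp (X + C (-x))).eval x) : Fin (n + 1) → Fin (N + 1) → k) =
        Fin.cons (fun i => ((R i).comp (X + C x)).eval 0) (fun j i => (h j i).eval 0) := by
      congr 1
      · funext i
        rw [eval_shift, zero_add]
      · funext j i
        rw [eval_shift, add_neg_cancel]
    rw [h1]
    exact hli

/-- [F-GG] at infinity: this is `Sec.ind` -/
theorem gg_inf (D : VData k N n c) {d : ℕ} {R : Fin (N + 1) → k[X]}
    {g : Fin n → Fin (N + 1) → k[X]} (hg : Sec D d R (Fin.elim0 : Fin 0 → k) g) :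
    LinearIndependent k (Fin.cons (fun i => (R i).coeff d) (fun j i => (g j i).coeff (d - 1)) :
      Fin (n + 1) → Fin (N + 1) → k) :=
  hg.ind

end Pool.Agent.VFF
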