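import Pool.Agent.Lib_MP_1858fb_f.GPolyC9

/-!
# MP_1858fb_ag, line F, F-G2: charts on the two circles, factorisation, polynomials
-/

set_option autoImplicit false

namespace Pool.Agent.VFF

open Pool.Agent.VF Polynomial

variable (k : Type) [Field k] (κ : Type) [CommRing κ] [Algebra k κ] {N n c : ℕ}

lemma gp_T_one : gpT (1 : OL κ) = 1 := by
  ext b
  rw [gp_coeff_T, PowerSeries.coeff_one, PowerSeries.coeff_one]
  split_ifs
  · simp
  · simp

lemma gp_coeff_algebraMap_self (x : κ) (b : ℕ) (a : ℤ) :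
    (PowerSeries.coeff b (algebraMap κ (OL κ) x)).coeff a = if b = 0 ∧ a = 0 then x else 0 := by
  rw [PowerSeries.algebraMap_apply, PowerSeries.coeff_C]
  by_cases hb : b = 0
  · rw [if_pos hb, coeff_algebraMap]
    by_cases ha : a = 0
    · rw [if_pos ha, if_pos ⟨hb, ha⟩]
      rfl
    · rw [if_neg ha, if_neg fun h => ha h.2]
  · rw [if_neg hb, if_neg fun h => hb h.1]
    simp

lemma gp_coeff_zero_theta (S : (PowerSeries κ)[X]) :
    S.coeff 0 = gpT (toInn k κ (theta k κ S)) := by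
  ext b
  rw [gp_coeff_T, coeff_toInn, if_pos (by omega), Theta2.coeff_theta]
  have h : ((0 : ℤ) + (b : ℤ)).toNat = b := by omega
  rw [h, if_pos le_rfl, Nat.sub_self]

lemma gp_coeff_top_theta (S : (PowerSeries κ)[X]) (d : ℕ) (Y : OL κ)
    (h : toOut k κ (theta k κ S) = PowerSeries.C (TT κ d) * Y) :
    S.coeff d = gpT Y := by
  ext b
  have h1 := gp_coeff_TT_mul (κ := κ) d d Y b
  rw [← h, coeff_toOut, if_pos (by omega), Theta2.coeff_theta] at h1
  have h2 : ((d : ℤ) + (b : ℤ)).toNat = d + b := by omega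
  rw [h2, if_pos (by omega), Nat.add_sub_cancel, sub_self] at h1
  rw [gp_coeff_T, h1]

/-- [F-G2] charts on the two circles, factorisation of the two units, the polynomials -/
theorem glue_poly [IsAlgClosed k] (D : VData k N n c) {y v : Fin (N + 1) → k} (hy : y ∈ D.V)
    (hv' : v ∈ D.V) (fy : FrameAt D y) (fv : FrameAt D v)
    {α : Fin (N + 1) → PowerSeries k} (hα : OnV D.V α)
    (hα0 : ∀ i, PowerSeries.constantCoeff (α i) = v i) (hα1 : lin (fv.l 0) α = 1)
    {ρ0 ρ1 : PowerSeries k} (hρ0 : ρ0 ≠ 0) (hρ1 : ρ1 ≠ 0) (e : Fin n → κ) (m0 s : ℕ)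
    (hm0 : ρ1.order < m0) (hs : 0 < s) (S : Fin (N + 1) → W κ) (hS : OnV D.V S)
    (h1 : ∀ i, ∃ r : OL κ, toOut k κ (S i) = PowerSeries.C (TT κ m0) *
      toOut k κ (serP k κ ρ0) * (algebraMap k _ (y i) + PowerSeries.X * r))
    (h2 : ∀ i, ∃ r : OL κ, toInn k κ (S i) = PowerSeries.C (TT κ m0) *
      toInn k κ (serP k κ ρ1) * (algebraMap k _ (v i) + PowerSeries.X * r))
    (h3 : ∀ j : Fin n, ∃ r : OL κ, Neg r ∧ PowerSeries.X ∣ r ∧
      toOut k κ (lin (fy.l j.succ) S) = toOut k κ (lin (fy.l 0) S) *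
        (PowerSeries.X ^ s * algebraMap κ _ (e j) + r))
    (h4 : ∀ j : Fin n, ∃ r : OL κ, Neg r ∧ PowerSeries.X ∣ r ∧
      toInn k κ (lin (fv.l j.succ) S) = toInn k κ (lin (fv.l 0) S) *
        (toInn k κ (serP k κ (lin (fv.l j.succ) α)) + r)) :
    ∃ (b0 b1 D' : ℕ) (u : W κ) (ε : k) (S' : Fin (N + 1) → (PowerSeries κ)[X])
      (Y Z : Fin (N + 1) → OL κ) (ν ω : PowerSeries κ),
      IsUnit u ∧ ε ≠ 0 ∧ (∀ i, (S' i).natDegree ≤ D') ∧ 0 < D' ∧
      (∀ i, theta k κ (S' i) * u = WP κ ^ b0 * S i) ∧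
      (∀ i, NonPos (Y i) ∧ PowerSeries.constantCoeff (Y i) = algebraMap k _ (y i) ∧
        toOut k κ (theta k κ (S' i)) = PowerSeries.C (TT κ D') * Y i) ∧
      (∀ i, NonPos (Z i) ∧ PowerSeries.constantCoeff (Z i) = algebraMap k _ (ε * v i) ∧
        toInn k κ (theta k κ (S' i)) = PowerSeries.X ^ b1 * Z i) ∧
      IsUnit ν ∧ (∀ i, (S' i).coeff 0 = PowerSeries.X ^ b1 * ν * algebraMap k _ (v i)) ∧
      IsUnit ω ∧ lin (fy.l 0) (fun i => (S' i).coeff D') = ω ∧
      (∀ j : Fin n, lin (fy.l j.succ) (fun i => (S' i).coeff D') =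
        PowerSeries.X ^ s * PowerSeries.C (e j) * ω) := by
  classical
  obtain ⟨k0, η0, hη0, hρ0', -⟩ := gp_ord hρ0
  obtain ⟨k1, η1, hη1, hρ1', hk1⟩ := gp_ord hρ1
  have hk1' : k1 < m0 := by
    rw [hk1] at hm0
    exact_mod_cast hm0
  have hη0u : IsUnit η0 := by
    rw [PowerSeries.isUnit_iff_constantCoeff]
    exact IsUnit.mk0 _ hη0
  have hη1u : IsUnit η1 := by
    rw [PowerSeries.isUnit_iff_constantCoeff]
    exact IsUnit.mk0 _ hη1
  obtain ⟨η0i, hη0i⟩ := hη0u.exists_right_inv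
  have hη0i0 : PowerSeries.constantCoeff η0i = (PowerSeries.constantCoeff η0)⁻¹ := by
    have := congrArg PowerSeries.constantCoeff hη0i
    rw [map_mul, map_one] at this
    exact eq_inv_of_mul_eq_one_right this
  have hTu : ∀ a : ℤ, IsUnit (PowerSeries.C (TT κ a) : OL κ) := by
    intro a
    refine IsUnit.of_mul_eq_one (PowerSeries.C (TT κ (-a))) ?_
    rw [gp_TT_mul, add_neg_cancel, gp_TT_zero]
  choose r3 hr3N hr3X hr3 using h3
  choose r4 hr4N hr4X hr4 using h4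
  -- the outer circle
  have haO : PowerSeries.C (TT κ m0) * toOut k κ (serP k κ ρ0) =
      PowerSeries.C (TT κ (m0 + k0)) * toOut k κ (serP k κ η0) := by
    rw [hρ0', gp_out_serP, ← mul_assoc, gp_TT_mul]
  have hgO : ∀ z, PowerSeries.C (TT κ m0) * toOut k κ (serP k κ ρ0) * z = 0 → z = 0 := by
    intro z hz
    refine gp_regular 0 (PowerSeries.C (TT κ (m0 + k0)) * toOut k κ (serP k κ η0))
      ((hTu _).mul ((hη0u.map (serP k κ)).map (toOut k κ))) z ?_
    rw [pow_zero, one_mul, ← haO]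
    exact hz
  obtain ⟨Λ, Yo, hΛ, hYo, hYoV, hYoN, hYoc, hYo0, hYoj⟩ := gp_circle D fy
    (fun i => toOut k κ (S i)) (gp_onV_map (toOut k κ) hS) _ hgO h1
    (fun j => PowerSeries.X ^ s * algebraMap κ _ (e j) + r3 j)
    (fun j => gp_nonPos_add (gp_nonPos_X_pow_mul (fun b a ha => by
      rw [gp_coeff_algebraMap_self, if_neg fun h => ha.ne' h.2]) s)
      (gp_nonPos_of_neg (hr3N j)))
    (fun j => by rw [gp_lin_map, gp_lin_map]; exact hr3 j)
  -- the inner circle
  have haI : PowerSeries.C (TT κ m0) * toInn k κ (serP k κ ρ1) =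
      PowerSeries.X ^ k1 * (PowerSeries.C (TT κ (m0 - k1)) * toInn k κ (serP k κ η1)) := by
    rw [hρ1', gp_inn_serP]
    have h5 : (PowerSeries.C (TT κ m0) : OL κ) * PowerSeries.C (TT κ (-k1)) =
        PowerSeries.C (TT κ (m0 - k1)) := by
      rw [gp_TT_mul, sub_eq_add_neg]
    rw [← h5]
    ring
  have hgI : ∀ z, PowerSeries.C (TT κ m0) * toInn k κ (serP k κ ρ1) * z = 0 → z = 0 := by
    intro z hz
    refine gp_regular k1 (PowerSeries.C (TT κ (m0 - k1)) * toInn k κ (serP k κ η1))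
      ((hTu _).mul ((hη1u.map (serP k κ)).map (toInn k κ))) z ?_
    rw [← haI]
    exact hz
  obtain ⟨Λ', Zo, hΛ', hZo, hZoV, hZoN, hZoc, hZo0, hZoj⟩ := gp_circle D fv
    (fun i => toInn k κ (S i)) (gp_onV_map (toInn k κ) hS) _ hgI h2
    (fun j => toInn k κ (serP k κ (lin (fv.l j.succ) α)) + r4 j)
    (fun j => gp_nonPos_add (gp_nonPos_inn_serP k κ _) (gp_nonPos_of_neg (hr4N j)))
    (fun j => by rw [gp_lin_map, gp_lin_map]; exact hr4 j)
  have hZT := gp_center D fv hv' Zo hZoV hZoN hZoc (by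
    refine Fin.cases ?_ fun j => ?_
    · rw [hZo0, gp_T_one, if_pos rfl]
    · rw [hZoj, gp_T_add, gp_T_neg (hr4N j), add_zero, gp_T_inn_serP, if_neg (Fin.succ_ne_zero j)]
      have h5 : PowerSeries.constantCoeff (lin (fv.l j.succ) α) = 0 := by
        have h6 := fv.hl j.succ
        rw [if_neg (Fin.succ_ne_zero j)] at h6
        rw [← h6, lin, lin, map_sum]
        refine Finset.sum_congr rfl fun i _ => ?_
        rw [map_mul, hα0, PowerSeries.algebraMap_apply, PowerSeries.constantCoeff_C]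
      rw [h5, map_zero])
  -- the factors
  obtain ⟨g2, r2, hg2, hr2X, hr2N, hΛf⟩ := gp_factor k Λ hΛ
  obtain ⟨g1, r1, hg1, hr1X, hr1N, hΛf'⟩ := gp_factor k Λ' hΛ'
  rw [← toOut_incP k] at hΛf
  rw [← toInn_incQ k] at hΛf'
  have hu : IsUnit (serP k κ η0 * incP k κ (1 + g2) * incQ k κ (1 + g1)) :=
    ((hη0u.map (serP k κ)).mul ((gp_isUnit_one_add hg2).map (incP k κ))).mul
      ((gp_isUnit_one_add hg1).map (incQ k κ))
  obtain ⟨ui, hui⟩ := hu.exists_right_inv
  obtain ⟨w1, hw1N, hw1, hw1X⟩ := exists_inv (Lle κ k) (toOut k κ (incQ k κ g1))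
    (gp_dvd_out_incQ k κ hg1) ((gp_nonPos_iff k).1 (gp_nonPos_out_incQ k κ g1))
  obtain ⟨w2, hw2N, hw2, hw2X⟩ := exists_inv (Lle κ k) (toInn k κ (incP k κ g2))
    (gp_dvd_inn_incP k κ hg2) ((gp_nonPos_iff k).1 (gp_nonPos_inn_incP k κ g2))
  rw [← gp_nonPos_iff k] at hw1N hw2N
  have hU1 : 1 + toOut k κ (incQ k κ g1) = toOut k κ (incQ k κ (1 + g1)) := by
    rw [map_add, map_add, map_one, map_one]
  have hU2 : 1 + toInn k κ (incP k κ g2) = toInn k κ (incP k κ (1 + g2)) := by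
    rw [map_add, map_add, map_one, map_one]
  rw [hU1] at hw1
  rw [hU2] at hw2
  have hw3 : toInn k κ (serP k κ η0) * toInn k κ (serP k κ η0i) = 1 := by
    rw [← map_mul, ← map_mul, hη0i, map_one, map_one]
  have huO : toOut k κ (serP k κ η0) * toOut k κ (incP k κ (1 + g2)) *
      toOut k κ (incQ k κ (1 + g1)) * toOut k κ ui = 1 := by
    rw [← map_mul, ← map_mul, ← map_mul, hui, map_one]
  have huI : toInn k κ (serP k κ η0) * toInn k κ (incP k κ (1 + g2)) *
      toInn k κ (incQ k κ (1 + g1)) * toInn k κ ui = 1 := by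
    rw [← map_mul, ← map_mul, ← map_mul, hui, map_one]
  -- the quotients
  have hfO : ∀ i, toOut k κ (ui * S i) = PowerSeries.C (TT κ (m0 + k0)) *
      ((1 + r2) * w1 * Yo i) := by
    intro i
    have h5 := hYo i
    rw [map_mul, h5, haO, hΛf]
    linear_combination (-(PowerSeries.C (TT κ (m0 + k0)) * (1 + r2) * Yo i * toOut k κ ui *
      toOut k κ (serP k κ η0) * toOut k κ (incP k κ (1 + g2)))) * hw1 +
      (PowerSeries.C (TT κ (m0 + k0)) * (1 + r2) * Yo i * w1) * huO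
  have hfI : ∀ i, toInn k κ (ui * S i) = PowerSeries.C (TT κ (m0 - k1)) * (PowerSeries.X ^ k1 *
      (toInn k κ (serP k κ η1) * (1 + r1) * w2 * toInn k κ (serP k κ η0i) * Zo i)) := by
    intro i
    have h5 := hZo i
    rw [map_mul, h5, haI, hΛf']
    linear_combination (PowerSeries.X ^ k1 * PowerSeries.C (TT κ (m0 - k1)) *
      toInn k κ (serP k κ η1) * (1 + r1) * Zo i) * ((w2 * toInn k κ (serP k κ η0i)) * huI -
      toInn k κ (incQ k κ (1 + g1)) * toInn k κ ui * (toInn k κ (serP k κ η0) *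
        toInn k κ (serP k κ η0i) * hw2 + hw3))
  have hYN : ∀ i, NonPos ((1 + r2) * w1 * Yo i) := fun i =>
    gp_nonPos_mul (k := k) (gp_nonPos_mul (k := k) (gp_nonPos_add (gp_nonPos_one (k := k))
      (gp_nonPos_of_neg hr2N)) hw1N) (hYoN i)
  have hNN : NonPos (toInn k κ (serP k κ η1) * (1 + r1) * w2 * toInn k κ (serP k κ η0i)) :=
    gp_nonPos_mul (k := k) (gp_nonPos_mul (k := k) (gp_nonPos_mul (k := k)
      (gp_nonPos_inn_serP k κ _) (gp_nonPos_add (gp_nonPos_one (k := k))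
      (gp_nonPos_of_neg hr1N))) hw2N) (gp_nonPos_inn_serP k κ _)
  have hZN : ∀ i, NonPos (toInn k κ (serP k κ η1) * (1 + r1) * w2 *
      toInn k κ (serP k κ η0i) * Zo i) := fun i => gp_nonPos_mul (k := k) hNN (hZoN i)
  -- the polynomials
  have hth : ∀ i, ∃ S' : (PowerSeries κ)[X], S'.natDegree ≤ (m0 + k0) + (m0 - k1) ∧
      theta k κ S' = WP κ ^ (m0 - k1) * (ui * S i) := by
    intro i'
    refine exists_theta k κ (ui * S i') (m0 + k0) (m0 - k1) ?_
    rintro i j (hij | hij)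
    · have h5 := congrArg (fun f => (PowerSeries.coeff j f).coeff ((i : ℤ) - j)) (hfO i')
      rw [coeff_toOut, if_pos (by omega), gp_coeff_TT_mul, hYN i' j _ (by omega)] at h5
      have h6 : ((i : ℤ) - j + j).toNat = i := by omega
      rwa [h6] at h5
    · have h5 := congrArg (fun f => (PowerSeries.coeff i f).coeff ((j : ℤ) - i)) (hfI i')
      rw [coeff_toInn, if_pos (by omega), gp_coeff_TT_mul,
        gp_nonPos_X_pow_mul (hZN i') k1 i _ (by omega)] at h5
      have h6 : ((j : ℤ) - i + i).toNat = j := by omega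
      rwa [h6] at h5
  choose S' hS'd hS' using hth
  have hOut : ∀ i, toOut k κ (theta k κ (S' i)) =
      PowerSeries.C (TT κ ((m0 + k0 + (m0 - k1) : ℕ) : ℤ)) * ((1 + r2) * w1 * Yo i) := by
    intro i
    rw [hS' i, map_mul, hfO i, map_pow, toOut_P, gp_TT_pow, ← mul_assoc, gp_TT_mul]
    congr 3
    push_cast
    ring
  have hInn : ∀ i, toInn k κ (theta k κ (S' i)) = PowerSeries.X ^ m0 *
      (toInn k κ (serP k κ η1) * (1 + r1) * w2 * toInn k κ (serP k κ η0i) * Zo i) := by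
    intro i
    rw [hS' i, map_mul, hfI i, map_pow, toInn_P, mul_pow, gp_TT_pow]
    have h5 : (PowerSeries.C (TT κ (((m0 - k1 : ℕ) : ℤ) * -1)) : OL κ) *
        PowerSeries.C (TT κ (m0 - k1)) = 1 := by
      rw [gp_TT_mul, ← gp_TT_zero]
      congr 2
      omega
    have h6 : (PowerSeries.X : OL κ) ^ m0 = PowerSeries.X ^ (m0 - k1) * PowerSeries.X ^ k1 := by
      rw [← pow_add]
      congr 1
      omega
    rw [h6]
    linear_combination (PowerSeries.X ^ (m0 - k1) * PowerSeries.X ^ k1 *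
      (toInn k κ (serP k κ η1) * (1 + r1) * w2 * toInn k κ (serP k κ η0i) * Zo i)) * h5
  have hcc : ∀ x : k, PowerSeries.constantCoeff (algebraMap k (OL κ) x) =
      algebraMap k (LaurentSeries κ) x := by
    intro x
    rw [PowerSeries.algebraMap_apply, PowerSeries.constantCoeff_C]
  have hc1 : PowerSeries.constantCoeff w1 = 1 := by
    rw [PowerSeries.X_dvd_iff, map_sub, map_one, sub_eq_zero] at hw1X
    exact hw1X
  have hc2 : PowerSeries.constantCoeff w2 = 1 := by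
    rw [PowerSeries.X_dvd_iff, map_sub, map_one, sub_eq_zero] at hw2X
    exact hw2X
  have hcr2 : PowerSeries.constantCoeff r2 = 0 := PowerSeries.X_dvd_iff.1 hr2X
  have hcr1 : PowerSeries.constantCoeff r1 = 0 := PowerSeries.X_dvd_iff.1 hr1X
  have hωu : IsUnit (gpT ((1 + r2) * w1)) := by
    rw [gp_T_mul (gp_nonPos_add (gp_nonPos_one (k := k)) (gp_nonPos_of_neg hr2N)) hw1N,
      gp_T_add, gp_T_neg hr2N, add_zero, gp_T_one, one_mul]
    refine IsUnit.of_mul_eq_one (gpT (toOut k κ (incQ k κ (1 + g1)))) ?_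
    rw [mul_comm, ← gp_T_mul (gp_nonPos_out_incQ k κ _) hw1N, hw1, gp_T_one]
  have hνu : IsUnit (gpT (toInn k κ (serP k κ η1) * (1 + r1) * w2 *
      toInn k κ (serP k κ η0i))) := by
    have hN1 : NonPos (1 + r1) := gp_nonPos_add (gp_nonPos_one (k := k)) (gp_nonPos_of_neg hr1N)
    have hN2 : NonPos (toInn k κ (serP k κ η1) * (1 + r1)) :=
      gp_nonPos_mul (k := k) (gp_nonPos_inn_serP k κ _) hN1
    rw [gp_T_mul (gp_nonPos_mul (k := k) hN2 hw2N) (gp_nonPos_inn_serP k κ _),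
      gp_T_mul hN2 hw2N, gp_T_mul (gp_nonPos_inn_serP k κ _) hN1,
      gp_T_add, gp_T_neg hr1N, add_zero, gp_T_one, mul_one, gp_T_inn_serP, gp_T_inn_serP, hη0i0]
    refine (((IsUnit.mk0 _ hη1).map (algebraMap k (PowerSeries κ))).mul ?_).mul
      ((IsUnit.mk0 _ (inv_ne_zero hη0)).map (algebraMap k (PowerSeries κ)))
    refine IsUnit.of_mul_eq_one (gpT (toInn k κ (incP k κ (1 + g2)))) ?_
    rw [mul_comm, ← gp_T_mul (gp_nonPos_inn_incP k κ _) hw2N, hw2, gp_T_one]
  have htop : ∀ i, (S' i).coeff (m0 + k0 + (m0 - k1)) =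
      gpT ((1 + r2) * w1) * gpT (Yo i) := by
    intro i
    rw [gp_coeff_top_theta k κ (S' i) (m0 + k0 + (m0 - k1)) _ (hOut i)]
    exact gp_T_mul (gp_nonPos_mul (k := k) (gp_nonPos_add (gp_nonPos_one (k := k))
      (gp_nonPos_of_neg hr2N)) hw1N) (hYoN i)
  refine ⟨m0 - k1, m0, m0 + k0 + (m0 - k1), serP k κ η0 * incP k κ (1 + g2) * incQ k κ (1 + g1),
    PowerSeries.constantCoeff η1 * (PowerSeries.constantCoeff η0)⁻¹, S',
    fun i => (1 + r2) * w1 * Yo i,
    fun i => toInn k κ (serP k κ η1) * (1 + r1) * w2 * toInn k κ (serP k κ η0i) * Zo i,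
    gpT (toInn k κ (serP k κ η1) * (1 + r1) * w2 * toInn k κ (serP k κ η0i)),
    gpT ((1 + r2) * w1), hu, mul_ne_zero hη1 (inv_ne_zero hη0), hS'd, by omega, ?_, ?_, ?_,
    hνu, ?_, hωu, ?_, ?_⟩
  · intro i
    rw [hS' i]
    linear_combination (WP κ ^ (m0 - k1) * S i) * hui
  · intro i
    refine ⟨hYN i, ?_, hOut i⟩
    rw [map_mul, map_mul, map_add, map_one, hcr2, hc1, hYoc i]
    ring
  · intro i
    refine ⟨hZN i, ?_, hInn i⟩
    rw [map_mul, map_mul, map_mul, map_mul, map_add, map_one, hcr1, hc2, hZoc i,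
      gp_const_inn_serP, gp_const_inn_serP, hη0i0, map_mul, map_mul]
    ring
  · intro i
    rw [gp_coeff_zero_theta k κ (S' i), hInn i, gp_T_X_pow_mul, gp_T_mul hNN (hZoN i), hZT i]
    ring
  · simp only [htop]
    rw [gp_lin_smul, gp_lin_T (fy.l 0) hYoN, hYo0, gp_T_one, mul_one]
  · intro j
    simp only [htop]
    rw [gp_lin_smul, gp_lin_T (fy.l j.succ) hYoN, hYoj, gp_T_add, gp_T_neg (hr3N j), add_zero,
      gp_T_X_pow_mul]
    have h5 : gpT (algebraMap κ (OL κ) (e j)) = PowerSeries.C (e j) := by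
      ext b
      rw [gp_coeff_T, gp_coeff_algebraMap_self, PowerSeries.coeff_C]
      simp
    rw [h5]
    ring

end Pool.Agent.VFF
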