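import Pool.Agent.Lib_MP_1858fb_f.Ring2
import Pool.Agent.Lib_MP_1858fb_f.NegDef
import Pool.Agent.Lib_MP_1858fb_f.Uniq
import Pool.Agent.Lib_MP_1858fb_f.Chart
import Pool.Agent.Lib_MP_1858fb_f.FrameDef

/-!
# MP_1858fb_ag, line F, F-G2: preparations (scaling, parts of series on the circles)
-/

set_option autoImplicit false

namespace Pool.Agent.VFF

open Pool.Agent.VF Polynomial

section General

variable {k : Type} [Field k] {N n c : ℕ}

lemma gp_lin_smul {A : Type} [CommRing A] [Algebra k A] (l : Fin (N + 1) → k) (a : A)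
    (x : Fin (N + 1) → A) : lin l (fun i => a * x i) = a * lin l x := by
  simp only [lin, Finset.mul_sum]
  exact Finset.sum_congr rfl fun i _ => by ring

lemma gp_lin_map {A B : Type} [CommRing A] [Algebra k A] [CommRing B] [Algebra k B]
    (φ : A →ₐ[k] B) (l : Fin (N + 1) → k) (x : Fin (N + 1) → A) :
    lin l (fun i => φ (x i)) = φ (lin l x) := by
  simp only [lin, map_sum, map_mul, AlgHom.commutes]

lemma gp_lin_add {A : Type} [CommRing A] [Algebra k A] (l : Fin (N + 1) → k)
    (x y : Fin (N + 1) → A) : lin l (fun i => x i + y i) = lin l x + lin l y := by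
  simp only [lin, mul_add, Finset.sum_add_distrib]

lemma gp_lin_const {A : Type} [CommRing A] [Algebra k A] (l : Fin (N + 1) → k)
    (y : Fin (N + 1) → k) : lin l (fun i => algebraMap k A (y i)) = algebraMap k A (lin l y) := by
  simp only [lin, map_sum, map_mul, Algebra.algebraMap_self, RingHom.id_apply]

lemma gp_onV_map {A B : Type} [CommRing A] [Algebra k A] [CommRing B] [Algebra k B]
    (φ : A →ₐ[k] B) {V : Set (Fin (N + 1) → k)} {x : Fin (N + 1) → A} (h : OnV V x) :
    OnV V (fun i => φ (x i)) := by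
  intro E hE
  rw [← MvPolynomial.comp_aeval_apply, h E hE, map_zero]

lemma gp_aeval_smul {A : Type} [CommRing A] [Algebra k A]
    {E : MvPolynomial (Fin (N + 1)) k} {e : ℕ} (hE : E.IsHomogeneous e) (a : A)
    (x : Fin (N + 1) → A) :
    MvPolynomial.aeval (fun i => a * x i) E = a ^ e * MvPolynomial.aeval x E := by
  rw [MvPolynomial.aeval_def, MvPolynomial.aeval_def, MvPolynomial.eval₂_eq',
    MvPolynomial.eval₂_eq', Finset.mul_sum]
  refine Finset.sum_congr rfl fun s hs => ?_
  have h1 : ∑ i, s i = e := by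
    have := hE (MvPolynomial.mem_support_iff.1 hs)
    rw [← Finsupp.degree_eq_sum, ← this, Finsupp.degree_eq_weight_one]
    rfl
  simp only [mul_pow]
  rw [Finset.prod_mul_distrib, Finset.prod_pow_eq_pow_sum, h1]
  ring

lemma gp_onV_smul (D : VData k N n c) {A : Type} [CommRing A] [Algebra k A] (a : A)
    {x : Fin (N + 1) → A} (h : OnV D.V x) : OnV D.V (fun i => a * x i) := by
  intro E hE
  rw [← MvPolynomial.sum_homogeneousComponent E, map_sum]
  refine Finset.sum_eq_zero fun e _ => ?_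
  rw [gp_aeval_smul (MvPolynomial.homogeneousComponent_isHomogeneous e E), h _ (D.hom E hE e),
    mul_zero]

lemma gp_onV_cancel (D : VData k N n c) {A : Type} [CommRing A] [Algebra k A] {a : A}
    (ha : ∀ z, a * z = 0 → z = 0) {x : Fin (N + 1) → A} (h : OnV D.V (fun i => a * x i)) :
    OnV D.V x := by
  intro E hE
  rw [← MvPolynomial.sum_homogeneousComponent E, map_sum]
  refine Finset.sum_eq_zero fun e _ => ?_
  have h1 := h _ (D.hom E hE e)
  rw [gp_aeval_smul (MvPolynomial.homogeneousComponent_isHomogeneous e E)] at h1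
  have h2 : ∀ (m : ℕ) (z : A), a ^ m * z = 0 → z = 0 := by
    intro m
    induction m with
    | zero => intro z hz; simpa using hz
    | succ m ih =>
      intro z hz
      rw [pow_succ', mul_assoc] at hz
      exact ih z (ha _ hz)
  exact h2 e _ h1

end General

section Circle

variable {κ : Type} [CommRing κ]

/-- the part `T ^ 0` -/
noncomputable def gpT (f : OL κ) : PowerSeries κ :=
  PowerSeries.mk fun b => (PowerSeries.coeff b f).coeff 0

@[simp] lemma gp_coeff_T (f : OL κ) (b : ℕ) :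
    PowerSeries.coeff b (gpT f) = (PowerSeries.coeff b f).coeff 0 := by
  rw [gpT, PowerSeries.coeff_mk]

lemma gp_T_add (f g : OL κ) : gpT (f + g) = gpT f + gpT g := by
  ext b
  simp

lemma gp_T_zero : gpT (0 : OL κ) = 0 := by
  ext b
  simp

lemma gp_T_neg {f : OL κ} (h : Neg f) : gpT f = 0 := by
  ext b
  simp [h b 0 le_rfl]

lemma gp_coeff_mul_Lle (x y : LaurentSeries κ) (hx : ∀ i, 0 < i → x.coeff i = 0)
    (hy : ∀ i, 0 < i → y.coeff i = 0) : (x * y).coeff 0 = x.coeff 0 * y.coeff 0 := by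
  classical
  rw [HahnSeries.coeff_mul]
  by_cases h : x.coeff 0 = 0 ∨ y.coeff 0 = 0
  · have hz : x.coeff 0 * y.coeff 0 = 0 := by
      rcases h with h | h <;> rw [h] <;> simp
    rw [hz]
    refine Finset.sum_eq_zero fun p hp => ?_
    rw [Finset.mem_antidiagonal] at hp
    obtain ⟨h1, h2, h3⟩ := hp
    rcases lt_trichotomy p.1 0 with h4 | h4 | h4
    · rw [hy p.2 (by omega), mul_zero]
    · have h5 : p.2 = 0 := by omega
      rw [h4, h5, hz]
    · rw [hx p.1 h4, zero_mul]
  · push Not at h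
    rw [Finset.sum_eq_single (0, 0)]
    · intro p hp hp0
      rw [Finset.mem_antidiagonal] at hp
      obtain ⟨h1, h2, h3⟩ := hp
      rcases lt_trichotomy p.1 0 with h4 | h4 | h4
      · rw [hy p.2 (by omega), mul_zero]
      · exact absurd (Prod.ext h4 (by simpa [h4] using h3)) hp0
      · rw [hx p.1 h4, zero_mul]
    · intro h0
      exfalso
      apply h0
      rw [Finset.mem_antidiagonal]
      exact ⟨h.1, h.2, by simp⟩

lemma gp_T_mul {f g : OL κ} (hf : NonPos f) (hg : NonPos g) : gpT (f * g) = gpT f * gpT g := by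
  ext b
  rw [gp_coeff_T, PowerSeries.coeff_mul, PowerSeries.coeff_mul, HahnSeries.coeff_sum]
  refine Finset.sum_congr rfl fun p _ => ?_
  rw [gp_coeff_T, gp_coeff_T]
  exact gp_coeff_mul_Lle _ _ (hf _) (hg _)

variable {k : Type} [Field k] [Algebra k κ]

variable (k) in
lemma gp_nonPos_iff {f : OL κ} : NonPos f ↔ f ∈ PS (Lle κ k) := Iff.rfl

lemma gp_nonPos_add {f g : OL κ} (hf : NonPos f) (hg : NonPos g) : NonPos (f + g) := by
  intro b a ha
  rw [map_add, HahnSeries.coeff_add, hf b a ha, hg b a ha, add_zero]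

include k in
lemma gp_nonPos_mul {f g : OL κ} (hf : NonPos f) (hg : NonPos g) : NonPos (f * g) := by
  rw [gp_nonPos_iff k] at hf hg ⊢
  exact mul_mem hf hg

lemma gp_nonPos_of_neg {f : OL κ} (hf : Neg f) : NonPos f := fun b a ha => hf b a ha.le

include k in
lemma gp_nonPos_one : NonPos (1 : OL κ) := by
  rw [gp_nonPos_iff k]
  exact one_mem _

lemma gp_nonPos_X_pow_mul {f : OL κ} (hf : NonPos f) (m : ℕ) :
    NonPos (PowerSeries.X ^ m * f) := by
  intro b a ha
  rw [PowerSeries.coeff_X_pow_mul']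
  split_ifs
  · exact hf _ a ha
  · simp

lemma gp_T_X_pow_mul (f : OL κ) (m : ℕ) :
    gpT (PowerSeries.X ^ m * f) = PowerSeries.X ^ m * gpT f := by
  ext b
  rw [gp_coeff_T, PowerSeries.coeff_X_pow_mul', PowerSeries.coeff_X_pow_mul']
  split_ifs
  · rw [gp_coeff_T]
  · simp

lemma gp_algebraMap (r : k) : algebraMap k (OL κ) r =
    PowerSeries.C (HahnSeries.C (algebraMap k κ r)) := Ring2.algebraMap_OL k κ r

lemma gp_T_algebraMap (r : k) : gpT (algebraMap k (OL κ) r) = algebraMap k (PowerSeries κ) r := by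
  ext b
  rw [gp_coeff_T, gp_algebraMap, PowerSeries.coeff_C, PowerSeries.algebraMap_apply,
    PowerSeries.coeff_C]
  split_ifs
  · simp
  · simp

lemma gp_nonPos_algebraMap (r : k) : NonPos (algebraMap k (OL κ) r) := by
  intro b a ha
  rw [gp_algebraMap, PowerSeries.coeff_C]
  split_ifs
  · rw [HahnSeries.C_apply, HahnSeries.coeff_single_of_ne ha.ne']
  · simp

/-- the parts `T ^ 0` of a point with coordinates without positive powers -/
lemma gp_T_aeval {σ : Type} {x : σ → OL κ} (hx : ∀ i, NonPos (x i)) (E : MvPolynomial σ k) :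
    NonPos (MvPolynomial.aeval x E) ∧
      gpT (MvPolynomial.aeval x E) = MvPolynomial.aeval (fun i => gpT (x i)) E := by
  induction E using MvPolynomial.induction_on with
  | C a =>
    rw [MvPolynomial.aeval_C, MvPolynomial.aeval_C]
    exact ⟨gp_nonPos_algebraMap a, gp_T_algebraMap a⟩
  | add p q hp hq =>
    rw [map_add, map_add]
    exact ⟨gp_nonPos_add hp.1 hq.1, by rw [gp_T_add, hp.2, hq.2]⟩
  | mul_X p s hp =>
    rw [map_mul, map_mul, MvPolynomial.aeval_X, MvPolynomial.aeval_X]
    exact ⟨gp_nonPos_mul (k := k) hp.1 (hx s), by rw [gp_T_mul hp.1 (hx s), hp.2]⟩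

lemma gp_onV_T {N : ℕ} {V : Set (Fin (N + 1) → k)} {x : Fin (N + 1) → OL κ}
    (hx : ∀ i, NonPos (x i)) (h : OnV V x) : OnV V (fun i => gpT (x i)) := by
  intro E hE
  rw [← (gp_T_aeval hx E).2, h E hE, gp_T_zero]

lemma gp_lin_T {N : ℕ} (l : Fin (N + 1) → k) {x : Fin (N + 1) → OL κ}
    (hx : ∀ i, NonPos (x i)) : lin l (fun i => gpT (x i)) = gpT (lin l x) := by
  have h : ∀ s : Finset (Fin (N + 1)), gpT (∑ i ∈ s, algebraMap k (OL κ) (l i) * x i) =
      ∑ i ∈ s, algebraMap k (PowerSeries κ) (l i) * gpT (x i) := by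
    intro s
    classical
    induction s using Finset.induction_on with
    | empty => simp [gp_T_zero]
    | insert a s ha ih =>
      rw [Finset.sum_insert ha, Finset.sum_insert ha, gp_T_add, ih,
        gp_T_mul (gp_nonPos_algebraMap _) (hx a), gp_T_algebraMap]
  rw [lin, lin, h]

/-- multiplication by `T ^ a` -/
lemma gp_coeff_TT_mul (a m : ℤ) (f : OL κ) (b : ℕ) :
    (PowerSeries.coeff b (PowerSeries.C (TT κ a) * f)).coeff m =
      (PowerSeries.coeff b f).coeff (m - a) := by
  rw [PowerSeries.coeff_C_mul, TT, HahnSeries.coeff_single_mul, one_mul]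

lemma gp_TT_mul (a b : ℤ) : (PowerSeries.C (TT κ a) : OL κ) * PowerSeries.C (TT κ b) =
    PowerSeries.C (TT κ (a + b)) := by
  rw [← map_mul, TT, TT, TT, HahnSeries.single_mul_single, one_mul]

lemma gp_TT_zero : (PowerSeries.C (TT κ 0) : OL κ) = 1 := by
  have : TT κ 0 = 1 := rfl
  rw [this, map_one]

lemma gp_TT_pow (a : ℤ) (m : ℕ) : (PowerSeries.C (TT κ a) : OL κ) ^ m =
    PowerSeries.C (TT κ (m * a)) := by
  induction m with
  | zero => simp [gp_TT_zero]
  | succ m ih =>
    rw [pow_succ, ih, gp_TT_mul]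
    congr 2
    push_cast
    ring

end Circle

end Pool.Agent.VFF
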