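import Pool.Agent.Lib_MP_1858fb_f.Theta2
import Pool.Agent.Lib_MP_1858fb_f.NegDef

set_option autoImplicit false

/-!
# MP_1858fb_ag, line F, part of F-G2: factorisation of the two units, the polynomials
-/

namespace Pool.Agent.VFF

open Pool.Agent.VF Polynomial

section TTs

variable {κ : Type} [CommRing κ]

theorem GPolyB.TT_mul (a b : ℤ) : TT κ a * TT κ b = TT κ (a + b) := by
  unfold TT
  rw [HahnSeries.single_mul_single, one_mul]

theorem GPolyB.TT_zero : TT κ 0 = 1 := rfl

theorem GPolyB.TT_pow (a : ℤ) (n : ℕ) : TT κ a ^ n = TT κ (n * a) := by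
  induction n with
  | zero => rw [pow_zero, Nat.cast_zero, zero_mul, GPolyB.TT_zero]
  | succ n ih => rw [pow_succ, ih, GPolyB.TT_mul]; congr 1; push_cast; ring

theorem GPolyB.coeff_TT_mul (a : ℤ) (f : LaurentSeries κ) (i : ℤ) :
    (TT κ a * f).coeff i = f.coeff (i - a) := by
  unfold TT
  have h : i = (i - a) + a := by ring
  conv_lhs => rw [h, HahnSeries.coeff_single_mul_add, one_mul]

theorem GPolyB.coeff_C_TT_mul (a : ℤ) (f : OL κ) (b : ℕ) (i : ℤ) :
    (PowerSeries.coeff b (PowerSeries.C (TT κ a) * f)).coeff i =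
      (PowerSeries.coeff b f).coeff (i - a) := by
  rw [PowerSeries.coeff_C_mul, GPolyB.coeff_TT_mul]

end TTs

section NP

variable {κ : Type} [CommRing κ]

theorem GPolyB.nonPos_iff {f : OL κ} : NonPos f ↔ f ∈ PS (Lle κ ℤ) := Iff.rfl

theorem GPolyB.nonPos_mul {f g : OL κ} (hf : NonPos f) (hg : NonPos g) : NonPos (f * g) :=
  (PS (Lle κ ℤ)).mul_mem (GPolyB.nonPos_iff.1 hf) (GPolyB.nonPos_iff.1 hg)

theorem GPolyB.nonPos_add {f g : OL κ} (hf : NonPos f) (hg : NonPos g) : NonPos (f + g) :=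
  (PS (Lle κ ℤ)).add_mem (GPolyB.nonPos_iff.1 hf) (GPolyB.nonPos_iff.1 hg)

theorem GPolyB.nonPos_one : NonPos (1 : OL κ) := (PS (Lle κ ℤ)).one_mem

theorem GPolyB.nonPos_of_neg {f : OL κ} (hf : Neg f) : NonPos f := fun b a ha => hf b a ha.le

end NP

variable (k : Type) [Field k] (κ : Type) [CommRing κ] [Algebra k κ]

theorem GPolyB.serP_X : serP k κ PowerSeries.X = WP κ := by
  apply Ring2.ext_ij
  intro i j
  rw [coeff_serP, WP, MvPowerSeries.coeff_X]
  have h : ij i j = Finsupp.single 1 1 ↔ i = 1 ∧ j = 0 := by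
    constructor
    · intro h
      rw [Ring2.ij_eq_ex] at h
      constructor
      · rw [← ex_one i j, h]; simp
      · rw [← ex_zero i j, h]; simp
    · rintro ⟨rfl, rfl⟩
      simp [ij]
  by_cases hj : j = 0
  · rw [if_pos hj, PowerSeries.coeff_X]
    by_cases hi : i = 1
    · rw [if_pos hi, if_pos (h.2 ⟨hi, hj⟩), map_one]
    · rw [if_neg hi, if_neg (fun h' => hi (h.1 h').1), map_zero]
  · rw [if_neg hj, if_neg (fun h' => hj (h.1 h').2)]

/-- a power series with exponents `≥ 0` comes from `κ⟦P⟧⟦q⟧` -/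
theorem GPolyB.exists_map (f : OL κ) (hf : f ∈ PS (Lge κ k)) :
    ∃ g : PowerSeries (PowerSeries κ), PowerSeries.map (HahnSeries.ofPowerSeries ℤ κ) g = f := by
  refine ⟨PowerSeries.mk fun b => PowerSeries.mk fun a => (PowerSeries.coeff b f).coeff (a : ℤ),
    ?_⟩
  ext b a
  rw [PowerSeries.coeff_map, PowerSeries.coeff_mk]
  rcases lt_or_ge a 0 with ha | ha
  · rw [hf b a ha, HahnSeries.ofPowerSeries_apply]
    apply HahnSeries.embDomain_of_notMem_range
    rintro ⟨m, hm⟩
    rw [← hm] at ha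
    exact absurd ha (not_lt.2 (Int.natCast_nonneg m))
  · obtain ⟨m, rfl⟩ := Int.eq_ofNat_of_zero_le ha
    rw [HahnSeries.ofPowerSeries_apply_coeff, PowerSeries.coeff_mk]

/-- a unit of `κ⟦P⟧⟦q⟧`, congruent to `1` modulo `q`, from a series with exponents `≥ 0` -/
theorem GPolyB.exists_unit (p : OL κ) (hp : p ∈ PS (Lge κ k)) (hX : PowerSeries.X ∣ p) :
    ∃ g h : PowerSeries (PowerSeries κ), g * h = 1 ∧ PowerSeries.constantCoeff h = 1 ∧
      PowerSeries.map (HahnSeries.ofPowerSeries ℤ κ) g = 1 + p := by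
  obtain ⟨g, hg⟩ := GPolyB.exists_map k κ (1 + p) (add_mem (one_mem _) hp)
  have h0 : PowerSeries.constantCoeff g = ((1 : (PowerSeries κ)ˣ) : PowerSeries κ) := by
    apply HahnSeries.ofPowerSeries_injective (Γ := ℤ)
    rw [← PowerSeries.coeff_zero_eq_constantCoeff_apply, ← PowerSeries.coeff_map, hg, map_add,
      PowerSeries.coeff_zero_one, PowerSeries.coeff_zero_eq_constantCoeff_apply,
      PowerSeries.X_dvd_iff.1 hX, add_zero, Units.val_one, map_one]
  refine ⟨g, PowerSeries.invOfUnit g 1, PowerSeries.mul_invOfUnit _ _ h0, ?_, hg⟩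
  have h1 := congrArg PowerSeries.constantCoeff (PowerSeries.mul_invOfUnit g 1 h0)
  rw [map_mul, h0, Units.val_one, one_mul, map_one] at h1
  exact h1

variable {k κ}

theorem GPolyB.nonPos_toOut_incQ (h : PowerSeries (PowerSeries κ)) :
    NonPos (toOut k κ (incQ k κ h)) := by
  intro b a ha
  rw [coeff_toOut, if_pos (by omega), coeff_incQ, if_neg (by omega)]

theorem GPolyB.nonPos_toInn_incP (h : PowerSeries (PowerSeries κ)) :
    NonPos (toInn k κ (incP k κ h)) := by
  intro b a ha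
  rw [coeff_toInn, if_pos (by omega), coeff_incP, if_neg (by omega)]

theorem GPolyB.nonPos_toInn_serP (h : PowerSeries k) :
    NonPos (toInn k κ (serP k κ h)) := by
  intro b a ha
  rw [coeff_toInn, if_pos (by omega), coeff_serP, if_neg (by omega)]

theorem GPolyB.constantCoeff_toOut_incQ (h : PowerSeries (PowerSeries κ))
    (h1 : PowerSeries.constantCoeff h = 1) :
    PowerSeries.constantCoeff (toOut k κ (incQ k κ h)) = 1 := by
  ext a
  rw [← PowerSeries.coeff_zero_eq_constantCoeff_apply, coeff_toOut, HahnSeries.coeff_one]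
  by_cases ha : a = 0
  · subst ha
    rw [if_pos (by omega), if_pos rfl, coeff_incQ, if_pos (by omega)]
    simp [h1]
  · rw [if_neg ha]
    split_ifs with h2
    · rw [coeff_incQ, if_neg (by omega)]
    · rfl

theorem GPolyB.constantCoeff_toInn_incP (h : PowerSeries (PowerSeries κ))
    (h1 : PowerSeries.constantCoeff h = 1) :
    PowerSeries.constantCoeff (toInn k κ (incP k κ h)) = 1 := by
  ext a
  rw [← PowerSeries.coeff_zero_eq_constantCoeff_apply, coeff_toInn, HahnSeries.coeff_one]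
  by_cases ha : a = 0
  · subst ha
    rw [if_pos (by omega), if_pos rfl, coeff_incP, if_pos (by omega)]
    simp [h1]
  · rw [if_neg ha]
    split_ifs with h2
    · rw [coeff_incP, if_neg (by omega)]
    · rfl

theorem GPolyB.constantCoeff_toInn_serP (h : PowerSeries k) :
    PowerSeries.constantCoeff (toInn k κ (serP k κ h)) =
      algebraMap k _ (PowerSeries.constantCoeff h) := by
  ext a
  rw [← PowerSeries.coeff_zero_eq_constantCoeff_apply, coeff_toInn, coeff_algebraMap]
  by_cases ha : a = 0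
  · subst ha
    rw [if_pos (by omega), if_pos rfl, coeff_serP, if_pos (by omega)]
    simp
  · rw [if_neg ha]
    split_ifs with h2
    · rw [coeff_serP, if_neg (by omega)]
    · rfl

theorem GPolyB.exists_unit_k {ρ : PowerSeries k} (hρ : ρ ≠ 0) :
    ∃ U V : PowerSeries k, ρ = PowerSeries.X ^ ρ.order.toNat * U ∧ U * V = 1 ∧
      PowerSeries.constantCoeff U ≠ 0 := by
  obtain ⟨U, hU⟩ := PowerSeries.X_pow_order_dvd (φ := ρ)
  have h0 : PowerSeries.constantCoeff U ≠ 0 := by
    intro h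
    apply PowerSeries.coeff_order hρ
    have h2 : PowerSeries.coeff ρ.order.toNat (PowerSeries.X ^ ρ.order.toNat * U) = 0 := by
      rw [PowerSeries.coeff_X_pow_mul', if_pos le_rfl, Nat.sub_self,
        PowerSeries.coeff_zero_eq_constantCoeff_apply, h]
    rwa [← hU] at h2
  exact ⟨U, U⁻¹, hU, PowerSeries.mul_inv_cancel U h0, h0⟩

/-- [F-G2, middle part] -/
theorem gpb_poly (m0 : ℕ) {ρ0 ρ1 : PowerSeries k} (hρ0 : ρ0 ≠ 0) (hρ1 : ρ1 ≠ 0)
    (hm0 : ρ1.order < m0) {I : Type} (S : I → W κ) (s0 s1 : W κ) (r0 r1 : OL κ)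
    (hs0 : toOut k κ s0 = PowerSeries.C (TT κ m0) * toOut k κ (serP k κ ρ0) *
      (1 + PowerSeries.X * r0))
    (hs1 : toInn k κ s1 = PowerSeries.C (TT κ m0) * toInn k κ (serP k κ ρ1) *
      (1 + PowerSeries.X * r1))
    (Y Z : I → OL κ) (hY : ∀ i, NonPos (Y i)) (hZ : ∀ i, NonPos (Z i))
    (hSY : ∀ i, toOut k κ (S i) = toOut k κ s0 * Y i)
    (hSZ : ∀ i, toInn k κ (S i) = toInn k κ s1 * Z i) :
    ∃ (b0 b1 D' : ℕ) (u : W κ) (ε : k) (S' : I → (PowerSeries κ)[X]) (y0 z0 : OL κ),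
      IsUnit u ∧ ε ≠ 0 ∧ (∀ i, (S' i).natDegree ≤ D') ∧ 0 < D' ∧
      (∀ i, theta k κ (S' i) * u = WP κ ^ b0 * S i) ∧
      NonPos y0 ∧ PowerSeries.constantCoeff y0 = 1 ∧
      NonPos z0 ∧ PowerSeries.constantCoeff z0 = algebraMap k _ ε ∧
      (∀ i, toOut k κ (theta k κ (S' i)) = PowerSeries.C (TT κ D') * (y0 * Y i)) ∧
      (∀ i, toInn k κ (theta k κ (S' i)) = PowerSeries.X ^ b1 * (z0 * Z i)) := by
  -- leading terms
  obtain ⟨U0, V0, hU0, hV0, h0⟩ := GPolyB.exists_unit_k hρ0
  obtain ⟨U1, V1, hU1, hV1, h1⟩ := GPolyB.exists_unit_k hρ1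
  set a := ρ0.order.toNat with ha
  set c := ρ1.order.toNat with hc
  have hcm : c < m0 := by
    rw [← PowerSeries.coe_toNat_order hρ1] at hm0
    exact_mod_cast hm0
  -- factorisations
  obtain ⟨p, r, hpX, hrX, hp, hr, hpr⟩ := exists_factor_circle (A := κ) k (PowerSeries.X * r0)
    (dvd_mul_right _ _)
  obtain ⟨p', r', hpX', hrX', hp', hr', hpr'⟩ := exists_factor_circle (A := κ) k
    (PowerSeries.X * r1) (dvd_mul_right _ _)
  obtain ⟨g, h, hgh, hh, hg⟩ := GPolyB.exists_unit k κ p hp hpX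
  obtain ⟨g', h', hgh', hh', hg'⟩ := GPolyB.exists_unit k κ p' hp' hpX'
  -- the unit and its inverse
  set u : W κ := serP k κ U0 * incP k κ g * incQ k κ g' with hu
  set w : W κ := serP k κ V0 * incP k κ h * incQ k κ h' with hw
  have huw : u * w = 1 := by
    have e1 : serP k κ U0 * serP k κ V0 = 1 := by rw [← map_mul, hV0, map_one]
    have e2 : incP k κ g * incP k κ h = 1 := by rw [← map_mul, hgh, map_one]
    have e3 : incQ k κ g' * incQ k κ h' = 1 := by rw [← map_mul, hgh', map_one]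
    calc u * w = (serP k κ U0 * serP k κ V0) * (incP k κ g * incP k κ h) *
        (incQ k κ g' * incQ k κ h') := by rw [hu, hw]; ring
      _ = 1 := by rw [e1, e2, e3]; ring
  -- the two factors
  set y0 : OL κ := (1 + r) * toOut k κ (incQ k κ h') with hy0
  set z0 : OL κ := toInn k κ (serP k κ U1) * (1 + r') *
    (toInn k κ (serP k κ V0) * toInn k κ (incP k κ h)) with hz0
  set f : I → W κ := fun i => S i * w with hf
  have hfo : ∀ i, toOut k κ (f i) = PowerSeries.C (TT κ (m0 + a : ℕ)) * (y0 * Y i) := by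
    intro i
    have e1 : toOut k κ (serP k κ U0) * toOut k κ (serP k κ V0) = 1 := by
      rw [← map_mul, ← map_mul, hV0, map_one, map_one]
    have e2 : (1 + p) * toOut k κ (incP k κ h) = 1 := by
      rw [← hg, ← toOut_incP k κ, ← map_mul, ← map_mul, hgh, map_one, map_one]
    have e3 : toOut k κ (serP k κ ρ0) = PowerSeries.C (TT κ a) * toOut k κ (serP k κ U0) := by
      rw [hU0, map_mul, map_mul, map_pow, map_pow, GPolyB.serP_X, toOut_P, ← map_pow,
        GPolyB.TT_pow, mul_one]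
    have e4 : PowerSeries.C (TT κ (m0 + a : ℕ)) =
        PowerSeries.C (TT κ m0) * PowerSeries.C (TT κ a) := by
      rw [← map_mul, GPolyB.TT_mul]
      push_cast
      rfl
    have e5 : toOut k κ (f i) = PowerSeries.C (TT κ m0) *
        (PowerSeries.C (TT κ a) * toOut k κ (serP k κ U0)) * ((1 + p) * (1 + r)) * Y i *
        (toOut k κ (serP k κ V0) * toOut k κ (incP k κ h) * toOut k κ (incQ k κ h')) := by
      rw [hf]
      simp only
      rw [map_mul, hSY, hs0, hpr, e3, hw, map_mul, map_mul]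
    rw [e5, e4, hy0]
    linear_combination (PowerSeries.C (TT κ m0) * PowerSeries.C (TT κ a) * (1 + r) * Y i *
      toOut k κ (incQ k κ h') * (1 + p) * toOut k κ (incP k κ h)) * e1 +
      (PowerSeries.C (TT κ m0) * PowerSeries.C (TT κ a) * (1 + r) * Y i *
      toOut k κ (incQ k κ h')) * e2
  have hfi : ∀ i, toInn k κ (f i) = PowerSeries.X ^ c *
      (PowerSeries.C (TT κ (m0 - c : ℕ)) * (z0 * Z i)) := by
    intro i
    have e2 : (1 + p') * toInn k κ (incQ k κ h') = 1 := by
      rw [← hg', ← toInn_incQ k κ, ← map_mul, ← map_mul, hgh', map_one, map_one]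
    have e3 : toInn k κ (serP k κ ρ1) = PowerSeries.X ^ c * PowerSeries.C (TT κ (-c)) *
        toInn k κ (serP k κ U1) := by
      rw [hU1, map_mul, map_mul, map_pow, map_pow, GPolyB.serP_X, toInn_P, mul_pow, ← map_pow,
        GPolyB.TT_pow, mul_neg_one]
    have e4 : PowerSeries.C (TT κ (m0 - c : ℕ)) =
        PowerSeries.C (TT κ m0) * PowerSeries.C (TT κ (-c)) := by
      rw [← map_mul, GPolyB.TT_mul, Nat.cast_sub hcm.le]
      rfl
    have e5 : toInn k κ (f i) = PowerSeries.C (TT κ m0) *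
        (PowerSeries.X ^ c * PowerSeries.C (TT κ (-c)) * toInn k κ (serP k κ U1)) *
        ((1 + p') * (1 + r')) * Z i *
        (toInn k κ (serP k κ V0) * toInn k κ (incP k κ h) * toInn k κ (incQ k κ h')) := by
      rw [hf]
      simp only
      rw [map_mul, hSZ, hs1, hpr', e3, hw, map_mul, map_mul]
    rw [e5, e4, hz0]
    linear_combination (PowerSeries.C (TT κ m0) * PowerSeries.C (TT κ (-c)) *
      PowerSeries.X ^ c * toInn k κ (serP k κ U1) * (1 + r') * Z i *
      toInn k κ (serP k κ V0) * toInn k κ (incP k κ h)) * e2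
  have hy0n : NonPos y0 := GPolyB.nonPos_mul
    (GPolyB.nonPos_add GPolyB.nonPos_one (GPolyB.nonPos_of_neg hr)) (GPolyB.nonPos_toOut_incQ _)
  have hz0n : NonPos z0 := GPolyB.nonPos_mul (GPolyB.nonPos_mul (GPolyB.nonPos_toInn_serP _)
    (GPolyB.nonPos_add GPolyB.nonPos_one (GPolyB.nonPos_of_neg hr')))
    (GPolyB.nonPos_mul (GPolyB.nonPos_toInn_serP _) (GPolyB.nonPos_toInn_incP _))
  -- the polynomials
  have hS' : ∀ i, ∃ S' : (PowerSeries κ)[X], S'.natDegree ≤ (m0 + a) + (m0 - c) ∧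
      theta k κ S' = WP κ ^ (m0 - c) * f i := by
    intro i
    refine exists_theta k κ (f i) (m0 + a) (m0 - c) fun i' j' hij => ?_
    rcases hij with hij | hij
    · have h2 := coeff_toOut k κ (f i) j' ((i' : ℤ) - j')
      rw [if_pos (by omega), show ((i' : ℤ) - j' + j').toNat = i' by omega] at h2
      rw [← h2, hfo, GPolyB.coeff_C_TT_mul]
      exact GPolyB.nonPos_mul hy0n (hY i) _ _ (by omega)
    · have h2 := coeff_toInn k κ (f i) i' ((j' : ℤ) - i')
      rw [if_pos (by omega), show ((j' : ℤ) - i' + i').toNat = j' by omega] at h2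
      rw [← h2, hfi, PowerSeries.coeff_X_pow_mul']
      split_ifs with h3
      · rw [GPolyB.coeff_C_TT_mul]
        exact GPolyB.nonPos_mul hz0n (hZ i) _ _ (by omega)
      · rfl
  choose S' hS'1 hS'2 using hS'
  refine ⟨m0 - c, (m0 - c) + c, (m0 + a) + (m0 - c), u,
    PowerSeries.constantCoeff U1 * PowerSeries.constantCoeff V0, S', y0, z0,
    IsUnit.of_mul_eq_one _ huw, ?_, hS'1, by omega, ?_, hy0n, ?_, hz0n, ?_, ?_, ?_⟩
  · apply mul_ne_zero h1
    intro h2
    have := congrArg PowerSeries.constantCoeff hV0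
    rw [map_mul, h2, mul_zero, map_one] at this
    exact one_ne_zero this.symm
  · intro i
    rw [hS'2 i]
    show WP κ ^ (m0 - c) * (S i * w) * u = _
    linear_combination (WP κ ^ (m0 - c) * S i) * huw
  · rw [hy0, map_mul, map_add, map_one, PowerSeries.X_dvd_iff.1 hrX, add_zero, one_mul]
    exact GPolyB.constantCoeff_toOut_incQ _ hh'
  · rw [hz0, map_mul, map_mul, map_mul, map_add, map_one, PowerSeries.X_dvd_iff.1 hrX', add_zero,
      mul_one, GPolyB.constantCoeff_toInn_incP _ hh, mul_one, GPolyB.constantCoeff_toInn_serP,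
      GPolyB.constantCoeff_toInn_serP, ← map_mul]
  · intro i
    rw [hS'2 i, map_mul, map_pow, toOut_P, hfo, ← mul_assoc, ← map_pow, GPolyB.TT_pow, mul_one,
      ← map_mul, GPolyB.TT_mul]
    congr 3
    push_cast
    ring
  · intro i
    rw [hS'2 i, map_mul, map_pow, toInn_P, hfi, mul_pow, ← map_pow, GPolyB.TT_pow, mul_neg_one,
      pow_add]
    have e6 : PowerSeries.C (TT κ (-(m0 - c : ℕ))) * PowerSeries.C (TT κ (m0 - c : ℕ)) =
        (1 : OL κ) := by
      rw [← map_mul, GPolyB.TT_mul, neg_add_cancel, GPolyB.TT_zero, map_one]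
    linear_combination (PowerSeries.X ^ (m0 - c) * PowerSeries.X ^ c * (z0 * Z i)) * e6

end Pool.Agent.VFF
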