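import Pool.Agent.Lib_MP_1858fb_f.GPolyA9

/-!
# MP_1858fb_ag, line F, F-G2: series in one variable on the circles, factors
-/

set_option autoImplicit false

namespace Pool.Agent.VFF

open Pool.Agent.VF Polynomial

variable (k : Type) [Field k] (κ : Type) [CommRing κ] [Algebra k κ]

lemma gp_ij_zero : ij 0 0 = 0 := by
  simp [ij]

lemma gp_coeff_C_LS (a : κ) (m : ℤ) : (HahnSeries.C a : LaurentSeries κ).coeff m =
    if m = 0 then a else 0 := by
  rw [HahnSeries.C_apply, HahnSeries.coeff_single]
  split_ifs <;> rfl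

lemma gp_serP_X : serP k κ PowerSeries.X = WP κ := by
  apply toOut_injective k κ
  rw [toOut_P]
  ext b a
  rw [coeff_toOut, coeff_serP, PowerSeries.coeff_C, PowerSeries.coeff_X]
  by_cases hb : b = 0
  · subst hb
    rw [if_pos rfl, if_pos rfl, TT, HahnSeries.coeff_single]
    by_cases ha : 0 ≤ a
    · rw [if_pos (by simpa using ha)]
      by_cases h1 : a = 1
      · subst h1; simp
      · rw [if_neg (by omega), if_neg h1, map_zero]
    · rw [if_neg (by simpa using ha), if_neg (by omega)]
  · rw [if_neg hb, if_neg hb]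
    simp

/-- the outer circle of `g(P)`, `g` of order `m` -/
lemma gp_out_serP (g : PowerSeries k) (m : ℕ) :
    toOut k κ (serP k κ (PowerSeries.X ^ m * g)) =
      PowerSeries.C (TT κ m) * toOut k κ (serP k κ g) := by
  rw [map_mul, map_mul, map_pow, map_pow, gp_serP_X, toOut_P, gp_TT_pow, mul_one]

/-- the inner circle of `g(P)`, `g` of order `m` -/
lemma gp_inn_serP (g : PowerSeries k) (m : ℕ) :
    toInn k κ (serP k κ (PowerSeries.X ^ m * g)) =
      PowerSeries.X ^ m * PowerSeries.C (TT κ (-m)) * toInn k κ (serP k κ g) := by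
  rw [map_mul, map_mul, map_pow, map_pow, gp_serP_X, toInn_P, mul_pow, gp_TT_pow]
  congr 4
  ring

lemma gp_coeff_inn_serP (g : PowerSeries k) (b : ℕ) (a : ℤ) :
    (PowerSeries.coeff b (toInn k κ (serP k κ g))).coeff a =
      if a = -b then algebraMap k κ (PowerSeries.coeff b g) else 0 := by
  rw [coeff_toInn, coeff_serP]
  by_cases h : a = -b
  · subst h
    simp
  · rw [if_neg h]
    split_ifs with h1 h2
    · exfalso; omega
    · rfl
    · rfl

lemma gp_nonPos_inn_serP (g : PowerSeries k) : NonPos (toInn k κ (serP k κ g)) := by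
  intro b a ha
  rw [gp_coeff_inn_serP, if_neg (by omega)]

lemma gp_T_inn_serP (g : PowerSeries k) : gpT (toInn k κ (serP k κ g)) =
    algebraMap k (PowerSeries κ) (PowerSeries.constantCoeff g) := by
  ext b
  rw [gp_coeff_T, gp_coeff_inn_serP, PowerSeries.algebraMap_apply, PowerSeries.coeff_C]
  by_cases hb : b = 0
  · subst hb; simp
  · rw [if_neg (by omega), if_neg hb]

lemma gp_const_inn_serP (g : PowerSeries k) :
    PowerSeries.constantCoeff (toInn k κ (serP k κ g)) =
      algebraMap k (LaurentSeries κ) (PowerSeries.constantCoeff g) := by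
  ext a
  rw [← PowerSeries.coeff_zero_eq_constantCoeff_apply, gp_coeff_inn_serP, coeff_algebraMap]
  simp

lemma gp_nonPos_out_incQ (g : PowerSeries (PowerSeries κ)) :
    NonPos (toOut k κ (incQ k κ g)) := by
  intro b a ha
  rw [coeff_toOut, if_pos (by omega), coeff_incQ, if_neg (by omega)]

lemma gp_nonPos_inn_incP (g : PowerSeries (PowerSeries κ)) :
    NonPos (toInn k κ (incP k κ g)) := by
  intro b a ha
  rw [coeff_toInn, if_pos (by omega), coeff_incP, if_neg (by omega)]

lemma gp_dvd_out_incQ {g : PowerSeries (PowerSeries κ)} (h : PowerSeries.X ∣ g) :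
    PowerSeries.X ∣ toOut k κ (incQ k κ g) := by
  rw [PowerSeries.X_dvd_iff] at h ⊢
  ext a
  rw [← PowerSeries.coeff_zero_eq_constantCoeff_apply, coeff_toOut, coeff_incQ]
  rw [← PowerSeries.coeff_zero_eq_constantCoeff_apply] at h
  split_ifs with h1 h2
  · have : (a + (0 : ℕ)).toNat = 0 := by omega
    rw [this, h]
    simp
  · simp
  · simp

lemma gp_dvd_inn_incP {g : PowerSeries (PowerSeries κ)} (h : PowerSeries.X ∣ g) :
    PowerSeries.X ∣ toInn k κ (incP k κ g) := by
  rw [PowerSeries.X_dvd_iff] at h ⊢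
  ext a
  rw [← PowerSeries.coeff_zero_eq_constantCoeff_apply, coeff_toInn, coeff_incP]
  rw [← PowerSeries.coeff_zero_eq_constantCoeff_apply] at h
  split_ifs with h1 h2
  · have : (a + (0 : ℕ)).toNat = 0 := by omega
    rw [this, h]
    simp
  · simp
  · simp

variable {κ}

/-- a series without negative powers comes from power series -/
lemma gp_exists_ofPS (p : OL κ) (hp : p ∈ PS (Lge κ k)) (hX : PowerSeries.X ∣ p) :
    ∃ g : PowerSeries (PowerSeries κ), PowerSeries.X ∣ g ∧
      PowerSeries.map (HahnSeries.ofPowerSeries ℤ κ) g = p := by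
  refine ⟨PowerSeries.mk fun b => PowerSeries.mk fun m => (PowerSeries.coeff b p).coeff m,
    ?_, ?_⟩
  · rw [PowerSeries.X_dvd_iff] at hX ⊢
    rw [← PowerSeries.coeff_zero_eq_constantCoeff_apply] at hX ⊢
    ext m
    rw [PowerSeries.coeff_mk, PowerSeries.coeff_mk, hX]
    simp
  · ext b a
    rw [PowerSeries.coeff_map, PowerSeries.coeff_mk]
    have h1 := PowerSeries.coeff_coe (R := κ)
      (PowerSeries.mk fun m => (PowerSeries.coeff b p).coeff (m : ℤ)) a
    rw [h1]
    split_ifs with ha
    · exact (hp b a ha).symm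
    · rw [PowerSeries.coeff_mk]
      congr 1
      omega

include k in
/-- a factorisation of a unit on the circle, `U` in the image of power series -/
lemma gp_factor (Λ : OL κ) (hΛ : PowerSeries.constantCoeff Λ = 1) :
    ∃ (g : PowerSeries (PowerSeries κ)) (r : OL κ), PowerSeries.X ∣ g ∧ PowerSeries.X ∣ r ∧
      Neg r ∧ Λ = PowerSeries.map (HahnSeries.ofPowerSeries ℤ κ) (1 + g) * (1 + r) := by
  obtain ⟨p, r, hp, hr, hp1, hr1, h⟩ := exists_factor_circle (A := κ) k (Λ - 1) (by
    rw [PowerSeries.X_dvd_iff, map_sub, hΛ, map_one, sub_self])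
  obtain ⟨g, hg, hgp⟩ := gp_exists_ofPS k p hp1 hp
  refine ⟨g, r, hg, hr, hr1, ?_⟩
  rw [map_add, map_one, hgp, ← h]
  ring

lemma gp_isUnit_one_add {A : Type} [CommRing A] {g : PowerSeries A} (hg : PowerSeries.X ∣ g) :
    IsUnit (1 + g) := by
  rw [PowerSeries.isUnit_iff_constantCoeff, map_add, PowerSeries.X_dvd_iff.1 hg, add_zero,
    map_one]
  exact isUnit_one

end Pool.Agent.VFF
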