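import Pool.Agent.Lib_MP_1858fb_f.Ring2

set_option autoImplicit false

/-!
# MP_1858fb_ag, line F, F-RING: theta (polynomials over `κ⟦q⟧` in the ring of the annulus)
-/

namespace Pool.Agent.VFF

open Pool.Agent.VF Polynomial

variable (k : Type) [Field k] (κ : Type) [CommRing κ] [Algebra k κ]

/-- the inclusion of `κ⟦q⟧` in `κ⟦P⟧⟦q⟧` -/
noncomputable def Theta2.inc : PowerSeries κ →ₐ[k] PowerSeries (PowerSeries κ) :=
  { PowerSeries.map (PowerSeries.C : κ →+* PowerSeries κ) with
    commutes' := by
      intro r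
      simp only [RingHom.toMonoidHom_eq_coe, OneHom.toFun_eq_coe, MonoidHom.toOneHom_coe,
        MonoidHom.coe_coe]
      rw [PowerSeries.algebraMap_apply, PowerSeries.algebraMap_apply, PowerSeries.map_C,
        PowerSeries.algebraMap_apply] }

theorem Theta2.coeff_inc (g : PowerSeries κ) (i j : ℕ) :
    PowerSeries.coeff i (PowerSeries.coeff j (Theta2.inc k κ g)) =
      if i = 0 then PowerSeries.coeff j g else 0 := by
  have h : Theta2.inc k κ g = PowerSeries.map (PowerSeries.C : κ →+* PowerSeries κ) g := rfl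
  rw [h, PowerSeries.coeff_map, PowerSeries.coeff_C]

/-- `κ⟦q⟧ → κ⟦P, Q⟧`, `q ↦ P Q` -/
noncomputable def Theta2.tau : PowerSeries κ →ₐ[k] W κ := (incP k κ).comp (Theta2.inc k κ)

theorem Theta2.coeff_tau (g : PowerSeries κ) (i j : ℕ) :
    MvPowerSeries.coeff (ij i j) (Theta2.tau k κ g) = if i = j then PowerSeries.coeff i g else 0 := by
  unfold Theta2.tau
  rw [AlgHom.comp_apply, coeff_incP, Theta2.coeff_inc]
  by_cases h : i = j
  · subst h
    simp
  · rw [if_neg h]
    by_cases h1 : j ≤ i
    · rw [if_pos h1, if_neg (by omega)]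
    · rw [if_neg h1]

/-- [F-RING] `κ⟦q⟧[X] → κ⟦P, Q⟧`, `q ↦ P Q`, `X ↦ P` -/
noncomputable def theta : (PowerSeries κ)[X] →ₐ[k] W κ :=
  Polynomial.eval₂AlgHom (Theta2.tau k κ) (WP κ) (fun _ => Commute.all _ _)

theorem theta_X : theta k κ X = WP κ := by
  unfold theta
  simp

theorem Theta2.theta_C (g : PowerSeries κ) : theta k κ (C g) = Theta2.tau k κ g := by
  unfold theta
  simp

theorem coeff_theta_C (g : PowerSeries κ) (i j : ℕ) :
    MvPowerSeries.coeff (ij i j) (theta k κ (C g)) =
      if i = j then PowerSeries.coeff i g else 0 := by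
  rw [Theta2.theta_C, Theta2.coeff_tau]

variable {κ}

theorem Theta2.coeff_P_pow_mul (f : W κ) (n i j : ℕ) :
    MvPowerSeries.coeff (ij i j) (WP κ ^ n * f) =
      if n ≤ i then MvPowerSeries.coeff (ij (i - n) j) f else 0 := by
  unfold WP
  rw [MvPowerSeries.X_pow_eq, MvPowerSeries.coeff_monomial_mul]
  by_cases h : n ≤ i
  · have h1 : Finsupp.single 1 n ≤ ij i j := by
      intro x
      rw [Ring2.ij_eq_ex]
      fin_cases x
      · simp
      · simpa [ex_one] using h
    rw [if_pos h1, if_pos h, one_mul]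
    congr 2
    rw [Ring2.ij_eq_ex, Ring2.ij_eq_ex]
    ext x
    fin_cases x
    · simp [ex_zero]
    · simp [ex_one]
  · have h1 : ¬ Finsupp.single 1 n ≤ ij i j := by
      intro hle
      apply h
      have := hle 1
      rw [Ring2.ij_eq_ex, ex_one] at this
      simpa using this
    rw [if_neg h1, if_neg h]

variable (κ)

theorem Theta2.coeff_theta (S : (PowerSeries κ)[X]) (i j : ℕ) :
    MvPowerSeries.coeff (ij i j) (theta k κ S) =
      if j ≤ i then PowerSeries.coeff j (S.coeff (i - j)) else 0 := by
  induction S using Polynomial.induction_on' with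
  | add p q hp hq =>
    rw [map_add, map_add, hp, hq, Polynomial.coeff_add, map_add]
    by_cases h : j ≤ i
    · simp [h]
    · simp [h]
  | monomial n g =>
    have e : (monomial n g : (PowerSeries κ)[X]) = X ^ n * C g := by
      rw [mul_comm, Polynomial.C_mul_X_pow_eq_monomial]
    rw [Polynomial.coeff_monomial, e, map_mul, map_pow, theta_X, Theta2.coeff_P_pow_mul,
      coeff_theta_C]
    by_cases h1 : n ≤ i
    · rw [if_pos h1]
      by_cases h2 : i - n = j
      · have h3 : n = i - j := by omega
        rw [if_pos h2, if_pos (by omega), if_pos h3, h2]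
      · rw [if_neg h2]
        by_cases h4 : j ≤ i
        · rw [if_pos h4, if_neg (by omega), map_zero]
        · rw [if_neg h4]
    · rw [if_neg h1]
      by_cases h4 : j ≤ i
      · rw [if_pos h4, if_neg (by omega), map_zero]
      · rw [if_neg h4]

theorem theta_injective : Function.Injective (theta k κ) := by
  intro S T h
  ext a j
  have h1 := Theta2.coeff_theta k κ S (a + j) j
  have h2 := Theta2.coeff_theta k κ T (a + j) j
  rw [h, h2] at h1
  simpa using h1.symm

/-- [F-RING] a series with exponents in a strip comes from a polynomial -/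
theorem exists_theta (f : W κ) (a0 b0 : ℕ)
    (h : ∀ i j : ℕ, (a0 + j < i ∨ b0 + i < j) → MvPowerSeries.coeff (ij i j) f = 0) :
    ∃ S : (PowerSeries κ)[X], S.natDegree ≤ a0 + b0 ∧ theta k κ S = WP κ ^ b0 * f := by
  let c : ℕ → PowerSeries κ := fun d => PowerSeries.mk fun j =>
    MvPowerSeries.coeff (ij (d + j) j) (WP κ ^ b0 * f)
  let S : (PowerSeries κ)[X] := ∑ d ∈ Finset.range (a0 + b0 + 1), monomial d (c d)
  have hS : ∀ d, S.coeff d = c d := by
    intro d
    simp only [S, Polynomial.finsetSum_coeff, Polynomial.coeff_monomial]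
    rw [Finset.sum_ite_eq']
    split
    · rfl
    · rename_i hd
      rw [Finset.mem_range] at hd
      ext j
      simp only [c, PowerSeries.coeff_mk, map_zero]
      rw [Theta2.coeff_P_pow_mul, if_pos (by omega)]
      exact (h _ _ (by omega)).symm
  refine ⟨S, ?_, ?_⟩
  · apply Polynomial.natDegree_sum_le_of_forall_le
    intro d hd
    exact (Polynomial.natDegree_monomial_le _).trans (by rw [Finset.mem_range] at hd; omega)
  · apply Ring2.ext_ij
    intro i j
    rw [Theta2.coeff_theta, hS]
    by_cases hij : j ≤ i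
    · rw [if_pos hij]
      simp only [c, PowerSeries.coeff_mk]
      rw [Nat.sub_add_cancel hij]
    · rw [if_neg hij, Theta2.coeff_P_pow_mul]
      split
      · exact (h _ _ (by omega)).symm
      · rfl

theorem theta_map (κ' : Type) [CommRing κ'] [Algebra k κ'] (φ : κ →ₐ[k] κ')
    (S : (PowerSeries κ)[X]) : MvPowerSeries.map (φ : κ →+* κ') (theta k κ S) =
      theta k κ' (S.map (PowerSeries.map (φ : κ →+* κ'))) := by
  apply Ring2.ext_ij
  intro i j
  rw [MvPowerSeries.coeff_map, Theta2.coeff_theta, Theta2.coeff_theta, Polynomial.coeff_map,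
    PowerSeries.coeff_map]
  split
  · rfl
  · exact map_zero _

end Pool.Agent.VFF
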