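import Pool.Agent.Lib_MP_1858fb_f.GPolyB9
import Pool.Agent.Lib_MP_1858fb_f.Theta2

/-!
# MP_1858fb_ag, line F, F-G2: the chart on one circle
-/

set_option autoImplicit false

namespace Pool.Agent.VFF

open Pool.Agent.VF Polynomial

variable {k : Type} [Field k] {κ : Type} [CommRing κ] [Algebra k κ] {N n c : ℕ}

lemma gp_ord {ρ : PowerSeries k} (h : ρ ≠ 0) : ∃ (m : ℕ) (g : PowerSeries k),
    PowerSeries.constantCoeff g ≠ 0 ∧ ρ = PowerSeries.X ^ m * g ∧ ρ.order = m := by
  refine ⟨ρ.order.toNat, ρ.divXPowOrder, ?_, PowerSeries.X_pow_order_mul_divXPowOrder.symm,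
    (PowerSeries.coe_toNat_order h).symm⟩
  rw [PowerSeries.constantCoeff_divXPowOrder]
  exact PowerSeries.coeff_order h

/-- `X ^ m * (unit)` is regular -/
lemma gp_regular (m : ℕ) (u : OL κ) (hu : IsUnit u) (z : OL κ)
    (hz : PowerSeries.X ^ m * u * z = 0) : z = 0 := by
  obtain ⟨w, hw⟩ := hu.exists_right_inv
  have h1 : PowerSeries.X ^ m * (u * z) = 0 := by rw [← mul_assoc]; exact hz
  have h2 : u * z = 0 := by
    ext1 b
    have h3 := congrArg (PowerSeries.coeff (b + m)) h1
    rw [PowerSeries.coeff_X_pow_mul', if_pos (by omega), Nat.add_sub_cancel, map_zero] at h3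
    rw [h3, map_zero]
  calc z = (u * w) * z := by rw [hw, one_mul]
    _ = w * (u * z) := by ring
    _ = 0 := by rw [h2, mul_zero]

/-- the chart on a circle -/
lemma gp_circle [IsAlgClosed k] (D : VData k N n c) {y : Fin (N + 1) → k} (fy : FrameAt D y)
    (Sx : Fin (N + 1) → OL κ) (hS : OnV D.V Sx) (a : OL κ) (ha : ∀ z, a * z = 0 → z = 0)
    (h1 : ∀ i, ∃ r : OL κ, Sx i = a * (algebraMap k _ (y i) + PowerSeries.X * r))
    (w : Fin n → OL κ) (hw : ∀ j, NonPos (w j))
    (h3 : ∀ j : Fin n, lin (fy.l j.succ) Sx = lin (fy.l 0) Sx * w j) :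
    ∃ (Λ : OL κ) (Yo : Fin (N + 1) → OL κ), PowerSeries.constantCoeff Λ = 1 ∧
      (∀ i, Sx i = a * (Λ * Yo i)) ∧ OnV D.V Yo ∧ (∀ i, NonPos (Yo i)) ∧
      (∀ i, PowerSeries.constantCoeff (Yo i) = algebraMap k _ (y i)) ∧
      lin (fy.l 0) Yo = 1 ∧ ∀ j : Fin n, lin (fy.l j.succ) Yo = w j := by
  choose r hr using h1
  have hcc : ∀ x : k, PowerSeries.constantCoeff (algebraMap k (OL κ) x) =
      algebraMap k (LaurentSeries κ) x := by
    intro x
    rw [PowerSeries.algebraMap_apply, PowerSeries.constantCoeff_C]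
  set σ : Fin (N + 1) → OL κ := fun i => algebraMap k _ (y i) + PowerSeries.X * r i with hσ
  have hSσ : Sx = fun i => a * σ i := funext hr
  have hΛ : lin (fy.l 0) σ = 1 + PowerSeries.X * lin (fy.l 0) r := by
    rw [hσ, gp_lin_add, gp_lin_smul, gp_lin_const, fy.hl, if_pos rfl, map_one]
  have hΛ0 : PowerSeries.constantCoeff (lin (fy.l 0) σ) = 1 := by
    rw [hΛ]
    simp
  have hΛu : IsUnit (lin (fy.l 0) σ) := by
    rw [PowerSeries.isUnit_iff_constantCoeff, hΛ0]
    exact isUnit_one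
  obtain ⟨Λi, hΛi⟩ := hΛu.exists_right_inv
  have hΛi0 : PowerSeries.constantCoeff Λi = 1 := by
    have := congrArg PowerSeries.constantCoeff hΛi
    rwa [map_mul, hΛ0, one_mul, map_one] at this
  have hσV : OnV D.V σ := gp_onV_cancel D ha (by rw [← hSσ]; exact hS)
  have hYV : OnV D.V (fun i => Λi * σ i) := gp_onV_smul D Λi hσV
  have hY0 : lin (fy.l 0) (fun i => Λi * σ i) = 1 := by
    rw [gp_lin_smul, mul_comm]
    exact hΛi
  have hYj : ∀ j : Fin n, lin (fy.l j.succ) (fun i => Λi * σ i) = w j := by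
    intro j
    have h4 := h3 j
    rw [hSσ, gp_lin_smul, gp_lin_smul] at h4
    have h5 : a * (lin (fy.l j.succ) σ - lin (fy.l 0) σ * w j) = 0 := by
      rw [mul_sub, h4]
      ring
    have h6 : lin (fy.l j.succ) σ = lin (fy.l 0) σ * w j := sub_eq_zero.1 (ha _ h5)
    rw [gp_lin_smul, h6]
    calc Λi * (lin (fy.l 0) σ * w j) = (lin (fy.l 0) σ * Λi) * w j := by ring
      _ = w j := by rw [hΛi, one_mul]
  have hYc : ∀ i, PowerSeries.constantCoeff (Λi * σ i) = algebraMap k _ (y i) := by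
    intro i
    rw [map_mul, hΛi0, one_mul, hσ]
    simp only [map_add, map_mul, hcc, PowerSeries.constantCoeff_X, zero_mul, add_zero]
  refine ⟨lin (fy.l 0) σ, fun i => Λi * σ i, hΛ0, ?_, hYV, ?_, hYc, hY0, hYj⟩
  · intro i
    rw [hSσ]
    show a * σ i = a * (lin (fy.l 0) σ * (Λi * σ i))
    rw [← mul_assoc (lin (fy.l 0) σ), hΛi, one_mul]
  · have h7 := chart_sub D fy (Lle κ k) (fun i => Λi * σ i) hYV hYc (by
      intro b
      refine Fin.cases ?_ (fun j => ?_) b
      · intro m
        rw [hY0]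
        exact (gp_nonPos_iff k).1 (gp_nonPos_one (k := k)) m
      · intro m
        rw [hYj]
        exact (gp_nonPos_iff k).1 (hw j) m)
    intro i
    exact (gp_nonPos_iff k).2 (h7 i)

/-- the value at the centre of the inner circle -/
lemma gp_center (D : VData k N n c) {v : Fin (N + 1) → k} (fv : FrameAt D v) (hv : v ∈ D.V)
    (Zo : Fin (N + 1) → OL κ) (hZ : OnV D.V Zo) (hN : ∀ i, NonPos (Zo i))
    (hc : ∀ i, PowerSeries.constantCoeff (Zo i) = algebraMap k _ (v i))
    (hl : ∀ a, gpT (lin (fv.l a) Zo) = if a = 0 then 1 else 0) (i : Fin (N + 1)) :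
    gpT (Zo i) = algebraMap k (PowerSeries κ) (v i) := by
  have hfr := frame_deform (A := κ) D fv (fun i => algebraMap k (PowerSeries κ) (v i)) (by
    intro i
    rw [PowerSeries.algebraMap_apply, PowerSeries.constantCoeff_C])
  have key := uniq D.V (Ideal.span {(PowerSeries.X : PowerSeries κ)}) (by
      intro f hf
      ext b
      have h1 := hf (b + 1)
      rw [Ideal.span_singleton_pow, Ideal.mem_span_singleton, PowerSeries.X_pow_dvd_iff] at h1
      rw [h1 b (by omega), map_zero])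
    (fun i => gpT (Zo i)) (fun i => algebraMap k (PowerSeries κ) (v i)) (gp_onV_T hN hZ)
    (by
      intro E hE
      have h1 : MvPolynomial.aeval (fun i => algebraMap k (PowerSeries κ) (v i)) E =
          algebraMap k (PowerSeries κ) (MvPolynomial.aeval v E) :=
        MvPolynomial.aeval_algebraMap_apply (PowerSeries κ) v E
      rw [h1, hE v hv, map_zero])
    (by
      intro i
      rw [Ideal.mem_span_singleton, PowerSeries.X_dvd_iff, map_sub,
        ← PowerSeries.coeff_zero_eq_constantCoeff_apply, gp_coeff_T,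
        PowerSeries.coeff_zero_eq_constantCoeff_apply, hc i, coeff_algebraMap, if_pos rfl,
        PowerSeries.algebraMap_apply, PowerSeries.constantCoeff_C, sub_self])
    fv.l (by
      intro a
      rw [gp_lin_T (fv.l a) hN, hl, gp_lin_const, fv.hl]
      split_ifs <;> simp) fv.E 1 isUnit_one hfr
  exact congrFun key i

end Pool.Agent.VFF
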