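import Pool.Agent.Lib_MP_1858fb_f.GDefs

/-! # MP_1858fb_ag, line F: F-HV, homogeneous evaluation of a curve on `V` is on `V` -/

set_option autoImplicit false

namespace Pool.Agent.VFF

open Pool.Agent.VF Polynomial

/-- the homogeneous evaluation is the value of the homogenized polynomial -/
theorem Hv_aeval_homogenize {A : Type} [CommRing A] (d : ℕ) (p : A[X]) (a b : A) :
    MvPolynomial.aeval ![b, a] (p.homogenize d) = hv d (fun m => p.coeff m) a b := by
  rw [Polynomial.homogenize, map_sum, hv,
    Finset.Nat.sum_antidiagonal_eq_sum_range_succ_mk]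
  refine Finset.sum_congr rfl fun m _ => ?_
  rw [MvPolynomial.aeval_monomial]
  simp [Finsupp.prod_fintype, Fin.prod_univ_two]
  ring

variable (k : Type) [Field k] (κ : Type) [CommRing κ] [Algebra k κ] {N n c : ℕ}

/-- [F-HV] -/
theorem onV_hv [IsAlgClosed k] (D : VData k N n c) {A : Type} [CommRing A] [Algebra k A] (d : ℕ)
    (F : Fin (N + 1) → A[X]) (hd : ∀ i, (F i).natDegree ≤ d) (hF : OnV D.V F) (a b : A) :
    OnV D.V (fun i => hv d (fun m => (F i).coeff m) a b) := by
  have key : ∀ (e : ℕ) (G : MvPolynomial (Fin (N + 1)) k), G ∈ van D.V → G.IsHomogeneous e →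
      MvPolynomial.aeval (fun i => hv d (fun m => (F i).coeff m) a b) G = 0 := by
    intro e G hG he
    have h1 : (MvPolynomial.aeval (fun i => (F i).homogenize d) G :
        MvPolynomial (Fin 2) A).IsHomogeneous (d * e) :=
      he.aeval _ fun i => isHomogeneous_homogenize (F i)
    have h2 : MvPolynomial.aeval ![(X : A[X]), 1]
        (MvPolynomial.aeval (fun i => (F i).homogenize d) G : MvPolynomial (Fin 2) A) = 0 := by
      have h3 := MvPolynomial.comp_aeval_apply (fun i => (F i).homogenize d)
        ((MvPolynomial.aeval ![(X : A[X]), 1] : MvPolynomial (Fin 2) A →ₐ[A] A[X]).restrictScalars k)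
        G
      rw [AlgHom.restrictScalars_apply] at h3
      rw [h3]
      have h4 : (fun i => ((MvPolynomial.aeval ![(X : A[X]), 1] :
          MvPolynomial (Fin 2) A →ₐ[A] A[X]).restrictScalars k) ((F i).homogenize d)) = F := by
        funext i
        rw [AlgHom.restrictScalars_apply]
        exact aeval_homogenize_X_one (F i) (hd i)
      rw [h4]
      exact hF G hG
    have h5 := homogenize_eq_of_isHomogeneous h1 h2
    rw [homogenize_zero] at h5
    have h6 := MvPolynomial.comp_aeval_apply (fun i => (F i).homogenize d)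
      ((MvPolynomial.aeval ![b, a] : MvPolynomial (Fin 2) A →ₐ[A] A).restrictScalars k) G
    rw [← h5, map_zero] at h6
    rw [h6]
    congr 2
    funext i
    rw [AlgHom.restrictScalars_apply, Hv_aeval_homogenize]
  intro E hE
  rw [← MvPolynomial.sum_homogeneousComponent E, map_sum]
  exact Finset.sum_eq_zero fun e _ =>
    key e _ (D.hom E hE e) (MvPolynomial.homogeneousComponent_isHomogeneous e E)

end Pool.Agent.VFF
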