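import Pool.Agent.Lib_MP_1858fb_f.GFix
import Pool.Agent.Lib_MP_1858fb_f.GPoly
import Pool.Agent.Lib_MP_1858fb_f.Hv

/-! # MP_1858fb_ag, line F: F-GLUE from the contraction and the polynomial part -/

set_option autoImplicit false

namespace Pool.Agent.VFF

open Pool.Agent.VF Polynomial

variable (k : Type) [Field k] (κ : Type) [CommRing κ] [Algebra k κ] {N n c : ℕ}

/-- base change of `OnV` for polynomials -/
theorem onV_map_glue {k : Type} [Field k] {N : ℕ} {A B : Type} [CommRing A] [Algebra k A]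
    [CommRing B] [Algebra k B] (φ : A →ₐ[k] B) {V : Set (Fin (N + 1) → k)}
    {F : Fin (N + 1) → A[X]} (hF : OnV V F) :
    OnV V (fun i => (F i).map (φ : A →+* B)) := by
  intro E hE
  have h1 := congrArg (Polynomial.mapAlgHom φ) (hF E hE)
  rw [map_zero, MvPolynomial.comp_aeval_apply] at h1
  exact h1

/-- homogeneous evaluation after base change -/
theorem onV_hv_map_glue {k : Type} [Field k] [IsAlgClosed k] {N n c : ℕ} (D : VData k N n c)
    {A B : Type} [CommRing A] [Algebra k A] [CommRing B] [Algebra k B] (φ : A →ₐ[k] B) (d : ℕ)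
    (F : Fin (N + 1) → A[X]) (hd : ∀ i, (F i).natDegree ≤ d) (hF : OnV D.V F) (a b : B) :
    OnV D.V (fun i => hv d (fun m => φ ((F i).coeff m)) a b) := by
  have h5 := onV_hv k D d (fun i => (F i).map (φ : A →+* B))
    (fun i => (Polynomial.natDegree_map_le).trans (hd i)) (onV_map_glue φ hF) a b
  have h6 : (fun i => hv d (fun m => φ ((F i).coeff m)) a b) =
      fun i => hv d (fun m => ((F i).map (φ : A →+* B)).coeff m) a b := by
    funext i
    congr 1
    funext m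
    rw [Polynomial.coeff_map]
    rfl
  rw [h6]
  exact h5

/-- [F-GLUE] -/
theorem glue [IsAlgClosed k] (D : VData k N n c) {y v : Fin (N + 1) → k} (hy : y ∈ D.V)
    (hv' : v ∈ D.V) (fy : FrameAt D y) (fv : FrameAt D v) {d : ℕ}
    {F : Fin (N + 1) → (MvPowerSeries (Fin (n + n)) (PowerSeries k))[X]}
    {α : Fin (N + 1) → PowerSeries k} {t ρ0 ρ1 : PowerSeries k} (h : GIn D fy fv d F α t ρ0 ρ1)
    (e : Fin n → κ) :
    ∃ (M s b0 b1 D' : ℕ) (x : Fin (n + n) → W κ)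
      (hx : ∀ j, MvPowerSeries.constantCoeff (x j) = 0) (u : W κ) (ε : k)
      (S : Fin (N + 1) → (PowerSeries κ)[X]) (Y Z : Fin (N + 1) → OL κ) (ν ω : PowerSeries κ),
      0 < M ∧ IsUnit u ∧ ε ≠ 0 ∧ (∀ i, (S i).natDegree ≤ D') ∧ 0 < D' ∧
      (∀ i, theta k κ (S i) * u =
        WP κ ^ b0 * hv d (fun m => ev k κ x hx ((F i).coeff m)) (WP κ ^ M) (WQ κ ^ M)) ∧
      (∀ i, NonPos (Y i) ∧ PowerSeries.constantCoeff (Y i) = algebraMap k _ (y i) ∧
        toOut k κ (theta k κ (S i)) = PowerSeries.C (TT κ D') * Y i) ∧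
      (∀ i, NonPos (Z i) ∧ PowerSeries.constantCoeff (Z i) = algebraMap k _ (ε * v i) ∧
        toInn k κ (theta k κ (S i)) = PowerSeries.X ^ b1 * Z i) ∧
      IsUnit ν ∧ (∀ i, (S i).coeff 0 = PowerSeries.X ^ b1 * ν * algebraMap k _ (v i)) ∧
      IsUnit ω ∧ lin (fy.l 0) (fun i => (S i).coeff D') = ω ∧
      (∀ j : Fin n, lin (fy.l j.succ) (fun i => (S i).coeff D') =
        PowerSeries.X ^ s * PowerSeries.C (e j) * ω) := by
  obtain ⟨M, s, x, hx, S, hM, hs, hS, h1, h2, h3, h4⟩ :=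
    glue_fix k κ D hy hv' fy fv h e (ρ1.order.toNat + 1)
  have hM0 : 0 < M := lt_of_lt_of_le (Nat.succ_pos _) hM
  have hord : ρ1.order < ((M * d : ℕ) : ℕ∞) := by
    have hfin : ρ1.order ≠ ⊤ := by
      rw [Ne, PowerSeries.order_eq_top]
      exact h.hρ1
    rw [← ENat.natCast_toNat hfin, Nat.cast_lt]
    have : M ≤ M * d := Nat.le_mul_of_pos_right M h.hd
    omega
  -- the equations of `V` for `S`
  have hSV : OnV D.V S := by
    have h6 : S = fun i => hv d (fun m => ev k κ x hx ((F i).coeff m)) (WP κ ^ M) (WQ κ ^ M) :=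
      funext hS
    rw [h6]
    exact onV_hv_map_glue D (ev k κ x hx) d F h.deg h.onV (WP κ ^ M) (WQ κ ^ M)
  have hcast : ((M * d : ℕ) : ℤ) = (M : ℤ) * (d : ℤ) := Nat.cast_mul M d
  obtain ⟨b0, b1, D', u, ε, S', Y, Z, ν, ω, g1, g2, g3, g4, g5, g6⟩ :=
    glue_poly k κ D hy hv' fy fv h.hα h.hα0 h.hα1 h.hρ0 h.hρ1 e (M * d) s hord hs S hSV
      (by rw [hcast]; exact h1) (by rw [hcast]; exact h2) h3 h4
  refine ⟨M, s, b0, b1, D', x, hx, u, ε, S', Y, Z, ν, ω, hM0, g1, g2, g3, g4, ?_, g6⟩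
  intro i
  rw [g5 i, hS i]

end Pool.Agent.VFF
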