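import Pool.Agent.Lib_MP_1858fb_f.Theta2
import Pool.Agent.Lib_MP_1858fb_f.Ev

/-! # MP_1858fb_ag, line F: piece F-MARK (the marks of the glued curve) -/

namespace Pool.Agent.VFF

open Pool.Agent.VF Polynomial

section Mark

variable {k : Type} [Field k]

/-- `P ↦ γ x`, `Q ↦ δ x` -/
noncomputable def markA (γ δ : k) : Fin 2 → MvPowerSeries Unit k :=
  ![MvPowerSeries.C δ * MvPowerSeries.X (), MvPowerSeries.C γ * MvPowerSeries.X ()]

theorem markA_hasSubst (γ δ : k) : MvPowerSeries.HasSubst (markA γ δ) := by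
  refine MvPowerSeries.hasSubst_of_constantCoeff_zero ?_
  intro i
  fin_cases i <;> simp [markA]

/-- the substitution `P ↦ γ x`, `Q ↦ δ x` -/
noncomputable def markPsi (γ δ : k) : W k →ₐ[k] PowerSeries k :=
  MvPowerSeries.substAlgHom (markA_hasSubst γ δ)

theorem markPsi_P (γ δ : k) : markPsi γ δ (WP k) = PowerSeries.C γ * PowerSeries.X := by
  rw [markPsi, WP, MvPowerSeries.substAlgHom_X]
  rfl

theorem markPsi_Q (γ δ : k) : markPsi γ δ (WQ k) = PowerSeries.C δ * PowerSeries.X := by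
  rw [markPsi, WQ, MvPowerSeries.substAlgHom_X]
  rfl

theorem mark_ij (e : Fin 2 →₀ ℕ) : e = ij (e 1) (e 0) := by
  ext i
  fin_cases i <;> simp [ij]

theorem mark_prod (γ δ : k) (e : Fin 2 →₀ ℕ) :
    (e.prod fun s n => markA γ δ s ^ n : MvPowerSeries Unit k) =
      (PowerSeries.C (γ ^ e 1 * δ ^ e 0) * PowerSeries.X ^ (e 0 + e 1) : PowerSeries k) := by
  rw [Finsupp.prod_fintype _ _ (fun i => pow_zero _), Fin.prod_univ_two]
  change (PowerSeries.C δ * PowerSeries.X : PowerSeries k) ^ e 0 *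
    (PowerSeries.C γ * PowerSeries.X : PowerSeries k) ^ e 1 = _
  rw [mul_pow, mul_pow, map_mul, map_pow, map_pow, pow_add]
  ring

theorem mark_coeff_prod (γ δ : k) (e : Fin 2 →₀ ℕ) (m : ℕ) :
    MvPowerSeries.coeff (Finsupp.single () m)
      (e.prod fun s n => markA γ δ s ^ n : MvPowerSeries Unit k) =
      if e 0 + e 1 = m then γ ^ e 1 * δ ^ e 0 else 0 := by
  rw [mark_prod]
  change PowerSeries.coeff m (PowerSeries.C (γ ^ e 1 * δ ^ e 0) *
    PowerSeries.X ^ (e 0 + e 1) : PowerSeries k) = _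
  rw [PowerSeries.coeff_C_mul, PowerSeries.coeff_X_pow]
  by_cases h : m = e 0 + e 1
  · rw [if_pos h, if_pos h.symm, mul_one]
  · rw [if_neg h, if_neg (Ne.symm h), mul_zero]

theorem mark_psi_theta_C {γ δ : k} (hγδ : γ * δ = 1) (sq : PowerSeries k →ₐ[k] PowerSeries k)
    (hsq : ∀ g m, PowerSeries.coeff m (sq g) = if Even m then PowerSeries.coeff (m / 2) g else 0)
    (g : PowerSeries k) : markPsi γ δ (theta k k (C g)) = sq g := by
  ext m
  rw [hsq]
  have h0 : PowerSeries.coeff m (markPsi γ δ (theta k k (C g))) =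
      finsum (fun e : Fin 2 →₀ ℕ => MvPowerSeries.coeff e (theta k k (C g)) •
        MvPowerSeries.coeff (Finsupp.single () m)
          (e.prod fun s n => markA γ δ s ^ n : MvPowerSeries Unit k)) := by
    rw [markPsi, MvPowerSeries.substAlgHom_apply]
    exact MvPowerSeries.coeff_subst (markA_hasSubst γ δ) _ _
  rw [h0]
  have hterm : ∀ e : Fin 2 →₀ ℕ, MvPowerSeries.coeff e (theta k k (C g)) •
        MvPowerSeries.coeff (Finsupp.single () m)
          (e.prod fun s n => markA γ δ s ^ n : MvPowerSeries Unit k) =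
      if e 1 = e 0 ∧ e 0 + e 1 = m then PowerSeries.coeff (e 1) g else 0 := by
    intro e
    rw [mark_coeff_prod]
    have h1 := coeff_theta_C k k g (e 1) (e 0)
    rw [← mark_ij] at h1
    rw [h1]
    by_cases h2 : e 1 = e 0
    · by_cases h3 : e 0 + e 1 = m
      · rw [if_pos h2, if_pos h3, if_pos ⟨h2, h3⟩, ← h2, ← mul_pow, hγδ, one_pow, smul_eq_mul,
          mul_one]
      · rw [if_neg h3, smul_zero, if_neg]
        exact fun h => h3 h.2
    · rw [if_neg h2, zero_smul, if_neg]
      exact fun h => h2 h.1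
  simp only [hterm]
  by_cases hm : Even m
  · rw [if_pos hm]
    obtain ⟨r, hr⟩ := hm
    rw [finsum_eq_single _ (ij r r)]
    · have e0 : (ij r r) 0 = r := by simp [ij]
      have e1 : (ij r r) 1 = r := by simp [ij]
      rw [e0, e1, if_pos ⟨rfl, hr.symm⟩]
      congr 2
      omega
    · intro e he
      rw [if_neg]
      rintro ⟨h1, h2⟩
      apply he
      rw [mark_ij e]
      have : e 1 = r := by omega
      rw [← h1, this]
  · rw [if_neg hm]
    apply finsum_eq_zero_of_forall_eq_zero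
    intro e
    rw [if_neg]
    rintro ⟨h1, h2⟩
    exact hm ⟨e 0, by omega⟩

theorem mark_psi_theta {γ δ : k} (hγδ : γ * δ = 1) (sq : PowerSeries k →ₐ[k] PowerSeries k)
    (hsq : ∀ g m, PowerSeries.coeff m (sq g) = if Even m then PowerSeries.coeff (m / 2) g else 0)
    (S : (PowerSeries k)[X]) : markPsi γ δ (theta k k S) =
      (S.map (sq : PowerSeries k →+* PowerSeries k)).eval (PowerSeries.C γ * PowerSeries.X) := by
  have h : ((markPsi γ δ : W k →+* PowerSeries k).comp
      (theta k k : (PowerSeries k)[X] →+* W k)) =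
      eval₂RingHom (sq : PowerSeries k →+* PowerSeries k) (PowerSeries.C γ * PowerSeries.X) := by
    apply Polynomial.ringHom_ext
    · intro g
      rw [RingHom.comp_apply, coe_eval₂RingHom, eval₂_C]
      exact mark_psi_theta_C hγδ sq hsq g
    · rw [RingHom.comp_apply, coe_eval₂RingHom, eval₂_X]
      change markPsi γ δ (theta k k X) = _
      rw [theta_X, markPsi_P]
  have h1 := RingHom.congr_fun h S
  rw [coe_eval₂RingHom] at h1
  rw [eval_map]
  exact h1

end Mark

variable (k : Type) [Field k] {N : ℕ}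

/-- [F-MARK] the marks of the glued curve: `q = x ^ 2`, `P = γ x`, `Q = γ⁻¹ x` -/
theorem mark_glue {d M b0 p : ℕ} (hM : 0 < M)
    {F : Fin (N + 1) → (MvPowerSeries (Fin p) (PowerSeries k))[X]}
    (hFd : ∀ i, (F i).natDegree ≤ d) (x : Fin p → W k)
    (hx : ∀ j, MvPowerSeries.constantCoeff (x j) = 0) (u : W k) (hu : IsUnit u)
    (S : Fin (N + 1) → (PowerSeries k)[X])
    (hSu : ∀ i, theta k k (S i) * u =
      WP k ^ b0 * hv d (fun m => ev k k x hx ((F i).coeff m)) (WP k ^ M) (WQ k ^ M))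
    (γ c1 : k) (hγ : γ ^ (2 * M) * c1 = 1) (v : Fin (N + 1) → k)
    (hF : Prop' v (fun i => (F i).eval (algebraMap k _ c1)))
    (sq : PowerSeries k →ₐ[k] PowerSeries k)
    (hsq : ∀ g m, PowerSeries.coeff m (sq g) = if Even m then PowerSeries.coeff (m / 2) g else 0) :
    Prop' v (fun i => ((S i).map (sq : PowerSeries k →+* PowerSeries k)).eval
      (PowerSeries.C γ * PowerSeries.X)) := by
  have hγ0 : γ ≠ 0 := by
    rintro rfl
    rw [zero_pow (by omega), zero_mul] at hγ
    exact zero_ne_one hγ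
  have hγδ : γ * γ⁻¹ = 1 := mul_inv_cancel₀ hγ0
  set ψ := markPsi γ γ⁻¹ with hψ
  have hψu : IsUnit (ψ u) := hu.map ψ
  set A : PowerSeries k := (PowerSeries.C γ * PowerSeries.X) ^ M with hA
  have hQ : (PowerSeries.C γ⁻¹ * PowerSeries.X : PowerSeries k) ^ M = A * PowerSeries.C c1 := by
    have h1 : γ⁻¹ ^ M = γ ^ M * c1 := by
      have h2 : γ ^ M * (γ ^ M * c1) = 1 := by
        rw [← mul_assoc, ← pow_add, ← two_mul]
        exact hγ
      have h3 : γ ^ M * γ⁻¹ ^ M = 1 := by rw [← mul_pow, hγδ, one_pow]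
      exact mul_left_cancel₀ (pow_ne_zero M hγ0) (h3.trans h2.symm)
    rw [hA, mul_pow, mul_pow, ← map_pow, ← map_pow, h1, map_mul]
    ring
  have hkey : ∀ i, ψ (theta k k (S i)) * ψ u =
      (PowerSeries.C γ * PowerSeries.X) ^ b0 * A ^ d *
        ψ (ev k k x hx ((F i).eval (algebraMap k _ c1))) := by
    intro i
    have h1 := congrArg ψ (hSu i)
    rw [map_mul, map_mul, map_pow, hψ, markPsi_P, ← hψ] at h1
    rw [h1, mul_assoc]
    congr 1
    rw [hv, map_sum, eval_eq_sum_range' (Nat.lt_succ_of_le (hFd i)), map_sum, map_sum,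
      Finset.mul_sum]
    refine Finset.sum_congr rfl fun m hm => ?_
    have hmd : m ≤ d := Nat.lt_succ_iff.1 (Finset.mem_range.1 hm)
    rw [map_mul, map_mul, map_pow, map_pow, map_pow, map_pow, hψ, markPsi_P, markPsi_Q, ← hψ,
      hQ, ← hA, map_mul, map_mul, map_pow, map_pow, AlgHom.commutes, AlgHom.commutes, mul_pow]
    have h2 : A ^ d = A ^ (d - m) * A ^ m := by rw [← pow_add, Nat.sub_add_cancel hmd]
    rw [h2]
    have h3 : (algebraMap k (PowerSeries k)) c1 = PowerSeries.C c1 := rfl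
    rw [h3]
    ring
  intro i j
  have h1 := congrArg (fun z => ψ (ev k k x hx z)) (hF i j)
  simp only [map_mul, AlgHom.commutes] at h1
  simp only
  rw [← mark_psi_theta hγδ sq hsq, ← mark_psi_theta hγδ sq hsq, ← hψ]
  apply hψu.mul_right_cancel
  calc ψ (theta k k (S i)) * algebraMap k (PowerSeries k) (v j) * ψ u
      = (ψ (theta k k (S i)) * ψ u) * algebraMap k (PowerSeries k) (v j) := by ring
    _ = (PowerSeries.C γ * PowerSeries.X) ^ b0 * A ^ d *
        (ψ (ev k k x hx ((F i).eval (algebraMap k _ c1))) * algebraMap k (PowerSeries k) (v j)) := by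
          rw [hkey i]
          ring
    _ = (PowerSeries.C γ * PowerSeries.X) ^ b0 * A ^ d *
        (ψ (ev k k x hx ((F j).eval (algebraMap k _ c1))) * algebraMap k (PowerSeries k) (v i)) := by
          rw [h1]
    _ = (ψ (theta k k (S j)) * ψ u) * algebraMap k (PowerSeries k) (v i) := by
          rw [hkey j]
          ring
    _ = ψ (theta k k (S j)) * algebraMap k (PowerSeries k) (v i) * ψ u := by ring

end Pool.Agent.VFF
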