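import Pool.Agent.Lib_MP_1858fb_f.FDefs

/-!
# F-OPEN, part (C): from the unit ideal over the fraction field to the certificate
-/

namespace Pool.Agent.VFF

open Pool.Agent.VF Polynomial

variable {k : Type} [Field k] {N n c : ℕ}

theorem openC_natDegree_le {O : Type} [CommRing O] [Algebra k O] {d e : ℕ}
    (R : Fin (N + 1) → O[X]) (hR : ∀ i, (R i).natDegree ≤ d) (H : MvPolynomial (Fin (N + 1)) k)
    (hH : H.IsHomogeneous e) : (MvPolynomial.aeval R H).natDegree ≤ d * e := by
  classical
  rw [MvPolynomial.aeval_def, MvPolynomial.eval₂_eq']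
  refine natDegree_sum_le_of_forall_le _ _ fun m hm => ?_
  have h1 : ∑ i, m i = e := by
    have h2 := hH (MvPolynomial.mem_support_iff.1 hm)
    rw [Finsupp.weight_apply, Finsupp.sum_fintype _ _ (fun i => by simp)] at h2
    simpa using h2
  have h3 : (∏ i, R i ^ m i).natDegree ≤ d * e := by
    refine (natDegree_prod_le _ _).trans ?_
    rw [← h1, Finset.mul_sum]
    refine Finset.sum_le_sum fun i _ => ?_
    refine natDegree_pow_le.trans ?_
    rw [mul_comm]
    exact Nat.mul_le_mul_right _ (hR i)
  refine natDegree_mul_le.trans ?_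
  have h4 : (algebraMap k O[X] (MvPolynomial.coeff m H)).natDegree = 0 := by
    rw [Polynomial.algebraMap_apply, natDegree_C]
  rw [h4, zero_add]
  exact h3

/-- The algebra over the fraction field: all monomials of degree at most `M`. -/
theorem openC_exists {K : Type} [Field K] {t : ℕ} (f : Fin t → K[X]) (e : Fin t → ℕ)
    (he : ∀ l, (f l).natDegree ≤ e l) (B : Fin t → K[X]) (hB : ∑ l, B l * f l = 1) (l0 : Fin t)
    (hl0 : (f l0).coeff (e l0) ≠ 0) : ∃ M : ℕ, ∀ i ≤ M, ∃ A : Fin t → K[X],
      (∀ l, A l ≠ 0 → (A l).natDegree + e l ≤ M) ∧ ∑ l, A l * f l = X ^ i := by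
  classical
  have hf0 : f l0 ≠ 0 := by
    intro h
    rw [h, coeff_zero] at hl0
    exact hl0 rfl
  have hdeg : (f l0).natDegree = e l0 := le_antisymm (he l0) (le_natDegree_of_ne_zero hl0)
  have hsum : ∀ l, e l ≤ ∑ l, e l := fun l => Finset.single_le_sum (fun _ _ => Nat.zero_le _)
    (Finset.mem_univ l)
  refine ⟨e l0 + ∑ l, e l, fun i hi => ?_⟩
  set A : Fin t → K[X] := fun l => if l = l0 then X ^ i * B l0 +
      ∑ l' ∈ Finset.univ.erase l0, ((X ^ i * B l') / f l0) * f l' else (X ^ i * B l) % f l0 with hA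
  have hAl : ∀ l, l ≠ l0 → A l = (X ^ i * B l) % f l0 := fun l hl => by rw [hA]; simp [hl]
  have hA0 : A l0 = X ^ i * B l0 +
      ∑ l' ∈ Finset.univ.erase l0, ((X ^ i * B l') / f l0) * f l' := by rw [hA]; simp
  have hsumA : ∑ l, A l * f l = X ^ i := by
    rw [← Finset.add_sum_erase _ _ (Finset.mem_univ l0), hA0, add_mul, Finset.sum_mul, add_assoc,
      ← Finset.sum_add_distrib]
    have h1 : ∀ l ∈ Finset.univ.erase l0, X ^ i * B l / f l0 * f l * f l0 + A l * f l =
        X ^ i * (B l * f l) := by
      intro l hl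
      rw [hAl l (Finset.ne_of_mem_erase hl)]
      have h2 := EuclideanDomain.div_add_mod (X ^ i * B l) (f l0)
      calc X ^ i * B l / f l0 * f l * f l0 + (X ^ i * B l) % f l0 * f l
          = (f l0 * (X ^ i * B l / f l0) + (X ^ i * B l) % f l0) * f l := by ring
        _ = X ^ i * (B l * f l) := by rw [h2]; ring
    rw [Finset.sum_congr rfl h1, ← Finset.mul_sum, mul_assoc, ← mul_add,
      Finset.add_sum_erase _ (fun l => B l * f l) (Finset.mem_univ l0), hB, mul_one]
  have hdl : ∀ l, l ≠ l0 → A l ≠ 0 → (A l).natDegree < e l0 := by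
    intro l hl hne
    rw [← hdeg]
    apply natDegree_lt_natDegree hne
    rw [hAl l hl]
    exact degree_mod_lt _ hf0
  refine ⟨A, ?_, hsumA⟩
  intro l hl
  by_cases h : l = l0
  · subst h
    have h1 : A l * f l = X ^ i - ∑ l' ∈ Finset.univ.erase l, A l' * f l' := by
      rw [← hsumA, ← Finset.add_sum_erase _ _ (Finset.mem_univ l)]
      ring
    have h2 : (A l * f l).natDegree ≤ e l + ∑ l, e l := by
      rw [h1]
      refine (natDegree_sub_le _ _).trans (max_le ?_ ?_)
      · rw [natDegree_X_pow]
        exact hi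
      · refine natDegree_sum_le_of_forall_le _ _ fun l' hl' => ?_
        by_cases h3 : A l' = 0
        · rw [h3, zero_mul, natDegree_zero]
          exact Nat.zero_le _
        · refine natDegree_mul_le.trans ?_
          have := hdl l' (Finset.ne_of_mem_erase hl') h3
          have := he l'
          have := hsum l'
          omega
    rwa [natDegree_mul hl hf0, hdeg] at h2
  · have := hdl l h hl
    have := hsum l
    omega

/-- **From the unit ideal over the fraction field to the certificate.** -/
theorem openC_cert_of_span (D : VData k N n c) {O K : Type} [CommRing O] [IsDomain O]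
    [Algebra k O] [Field K] [Algebra O K] [IsFractionRing O K] {d : ℕ} (R : Fin (N + 1) → O[X])
    (hR : ∀ i, (R i).natDegree ≤ d) (B : Fin D.t → K[X])
    (hB : ∑ l, B l * (MvPolynomial.aeval R (D.H l)).map (algebraMap O K) = 1)
    (hinf : ∃ l, (MvPolynomial.aeval R (D.H l)).coeff (d * D.h l) ≠ 0) :
    ∃ μ : O, μ ≠ 0 ∧ ∃ M, Cert D d R μ M := by
  classical
  obtain ⟨l0, hl0⟩ := hinf
  have hinj : Function.Injective (algebraMap O K) := IsFractionRing.injective O K
  obtain ⟨M, hM⟩ := openC_exists (fun l => (MvPolynomial.aeval R (D.H l)).map (algebraMap O K))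
    (fun l => d * D.h l)
    (fun l => natDegree_map_le.trans (openC_natDegree_le R hR _ (D.homH l))) B hB l0 (by
      rw [coeff_map]
      intro h
      exact hl0 (hinj (by rw [h, map_zero])))
  have hM' : ∀ i : Fin (M + 1), ∃ A : Fin D.t → K[X],
      (∀ l, A l ≠ 0 → (A l).natDegree + d * D.h l ≤ M) ∧
      ∑ l, A l * (MvPolynomial.aeval R (D.H l)).map (algebraMap O K) = X ^ i.1 :=
    fun i => hM i.1 (by omega)
  choose A hA1 hA2 using hM'
  obtain ⟨⟨μ, hμ⟩, hb⟩ := IsLocalization.exist_integer_multiples_of_finite (nonZeroDivisors O)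
    (fun x : Fin (M + 1) × Fin D.t × Fin (M + 1) => (A x.1 x.2.1).coeff x.2.2.1)
  choose b hb using hb
  have hμ0 : μ ≠ 0 := nonZeroDivisors.ne_zero hμ
  have hμK : algebraMap O K μ ≠ 0 := fun h => hμ0 (hinj (by rw [h, map_zero]))
  refine ⟨μ, hμ0, M, fun i hi => ?_⟩
  set i' : Fin (M + 1) := ⟨i, by omega⟩ with hi'
  set A' : Fin D.t → O[X] := fun l => ∑ j : Fin (M + 1), monomial j.1 (b (i', l, j)) with hA'
  have hmap : ∀ l, (A' l).map (algebraMap O K) = C (algebraMap O K μ) * A i' l := by
    intro l
    have hdl : (A i' l).natDegree ≤ M := by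
      by_cases h : A i' l = 0
      · rw [h, natDegree_zero]
        exact Nat.zero_le _
      · exact (Nat.le_add_right _ _).trans (hA1 i' l h)
    ext j
    rw [coeff_map, coeff_C_mul, hA', finsetSum_coeff]
    by_cases hj : j ≤ M
    · rw [Finset.sum_eq_single (⟨j, by omega⟩ : Fin (M + 1))]
      · rw [coeff_monomial, if_pos rfl, hb (i', l, _), Algebra.smul_def]
      · intro j' _ hne
        rw [coeff_monomial, if_neg]
        intro h
        exact hne (Fin.ext h)
      · intro h
        exact absurd (Finset.mem_univ _) h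
    · rw [coeff_eq_zero_of_natDegree_lt (p := A i' l) (by omega), mul_zero,
        Finset.sum_eq_zero, map_zero]
      intro j' _
      rw [coeff_monomial, if_neg]
      have := j'.2
      omega
  refine ⟨A', ?_, ?_⟩
  · intro l hl
    have h1 : A i' l ≠ 0 := by
      intro h
      apply hl
      apply map_injective _ hinj
      rw [hmap, h, mul_zero, Polynomial.map_zero]
    have h2 : (A' l).natDegree = (A i' l).natDegree := by
      rw [← natDegree_map_eq_of_injective hinj, hmap, natDegree_C_mul hμK]
    rw [h2]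
    exact hA1 i' l h1
  · apply map_injective _ hinj
    rw [Polynomial.map_sum, Polynomial.map_mul, map_C, Polynomial.map_pow, map_X]
    have h1 : ∀ l, ((A' l) * MvPolynomial.aeval R (D.H l)).map (algebraMap O K) =
        C (algebraMap O K μ) *
          (A i' l * (MvPolynomial.aeval R (D.H l)).map (algebraMap O K)) := by
      intro l
      rw [Polynomial.map_mul, hmap, mul_assoc]
    rw [Finset.sum_congr rfl fun l _ => h1 l, ← Finset.mul_sum, hA2 i']

end Pool.Agent.VFF
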