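import Pool.Agent.Lib_MP_1858fb_f.GDefs
import Pool.Agent.Lib_MP_1858fb_f.Hv
import Pool.Agent.Lib_MP_1858fb_f.OpenC

/-!
# F-OPEN, part (A): a power of `P` is in the ideal of the `H l (S)` in `W`
-/

namespace Pool.Agent.VFF

open Pool.Agent.VF Polynomial

variable {k : Type} [Field k] {N n c : ℕ}

/-- homogeneous evaluation and homogeneous polynomials -/
theorem openA_aeval_hv {A : Type} [CommRing A] [Algebra k A] (d e : ℕ) (F : Fin (N + 1) → A[X])
    (hd : ∀ i, (F i).natDegree ≤ d) (H : MvPolynomial (Fin (N + 1)) k) (hH : H.IsHomogeneous e)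
    (a b : A) : MvPolynomial.aeval (fun i => hv d (fun m => (F i).coeff m) a b) H =
      MvPolynomial.aeval ![b, a] ((MvPolynomial.aeval F H : A[X]).homogenize (d * e)) := by
  have h1 : (MvPolynomial.aeval (fun i => (F i).homogenize d) H :
      MvPolynomial (Fin 2) A).IsHomogeneous (d * e) :=
    hH.aeval _ fun i => isHomogeneous_homogenize (F i)
  have h2 : MvPolynomial.aeval ![(X : A[X]), 1]
      (MvPolynomial.aeval (fun i => (F i).homogenize d) H : MvPolynomial (Fin 2) A) =
      MvPolynomial.aeval F H := by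
    have h3 := MvPolynomial.comp_aeval_apply (fun i => (F i).homogenize d)
      ((MvPolynomial.aeval ![(X : A[X]), 1] : MvPolynomial (Fin 2) A →ₐ[A] A[X]).restrictScalars k)
      H
    rw [AlgHom.restrictScalars_apply] at h3
    rw [h3]
    have h4 : (fun i => ((MvPolynomial.aeval ![(X : A[X]), 1] :
        MvPolynomial (Fin 2) A →ₐ[A] A[X]).restrictScalars k) ((F i).homogenize d)) = F := by
      funext i
      rw [AlgHom.restrictScalars_apply]
      exact aeval_homogenize_X_one (F i) (hd i)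
    rw [h4]
  have h5 := homogenize_eq_of_isHomogeneous h1 h2
  have h6 := MvPolynomial.comp_aeval_apply (fun i => (F i).homogenize d)
    ((MvPolynomial.aeval ![b, a] : MvPolynomial (Fin 2) A →ₐ[A] A).restrictScalars k) H
  rw [h5]
  rw [AlgHom.restrictScalars_apply] at h6
  rw [h6]
  congr 1
  congr 1
  funext i
  rw [AlgHom.restrictScalars_apply, Hv_aeval_homogenize]

/-- The ideal of the `H l (S)` contains `ev μ * a ^ M0 * P ^ B`. -/
theorem openA_mem (D : VData k N n c) {A W' O' : Type} [CommRing A] [Algebra k A] [CommRing W']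
    [Algebra k W'] [CommRing O'] [Algebra k O'] {d M0 : ℕ} {F : Fin (N + 1) → A[X]}
    (hFd : ∀ i, (F i).natDegree ≤ d) {μ : A} (hcert : Cert D d F μ M0) (ev : A →ₐ[k] W')
    (θ : O' →ₐ[k] W') (S : Fin (N + 1) → O') (u : W') (hu : IsUnit u) (a b P : W') (b0 : ℕ)
    (hSu : ∀ i, θ (S i) * u = P ^ b0 * hv d (fun m => ev ((F i).coeff m)) a b) :
    ∃ B, ev μ * a ^ M0 * P ^ B ∈
      Ideal.span (Set.range fun l => θ (MvPolynomial.aeval S (D.H l))) := by
  classical
  set J := Ideal.span (Set.range fun l => θ (MvPolynomial.aeval S (D.H l))) with hJ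
  set G : Fin (N + 1) → W'[X] := fun i => (F i).map (ev : A →+* W') with hG
  have hGd : ∀ i, (G i).natDegree ≤ d := fun i => natDegree_map_le.trans (hFd i)
  have hGc : ∀ i m, (G i).coeff m = ev ((F i).coeff m) := fun i m => coeff_map _ _
  obtain ⟨C', hC1, hC2⟩ := hcert 0 (Nat.zero_le _)
  -- the equation over `W'`
  have hE : ∑ l, (C' l).map (ev : A →+* W') * MvPolynomial.aeval G (D.H l) = C (ev μ) := by
    have h1 := congrArg (Polynomial.mapAlgHom ev) hC2
    rw [map_sum] at h1
    have h2 : ∀ l, Polynomial.mapAlgHom ev (C' l * MvPolynomial.aeval F (D.H l)) =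
        (C' l).map (ev : A →+* W') * MvPolynomial.aeval G (D.H l) := by
      intro l
      rw [map_mul, MvPolynomial.comp_aeval_apply]
      rfl
    rw [Finset.sum_congr rfl fun l _ => h2 l] at h1
    rw [h1, pow_zero, mul_one]
    show (C μ).map (ev : A →+* W') = _
    rw [map_C]
    rfl
  -- homogeneous evaluation of the equation
  have hE2 := congrArg (fun p : W'[X] => MvPolynomial.aeval ![b, a] (p.homogenize M0)) hE
  simp only [homogenize_finsetSum, homogenize_C, map_sum, map_mul, MvPolynomial.aeval_C, map_pow,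
    MvPolynomial.aeval_X] at hE2
  have hterm : ∀ l, MvPolynomial.aeval ![b, a]
      (((C' l).map (ev : A →+* W') * MvPolynomial.aeval G (D.H l)).homogenize M0) ∈
      Ideal.span (Set.range fun l =>
        MvPolynomial.aeval (fun i => hv d (fun m => (G i).coeff m) a b) (D.H l)) := by
    intro l
    by_cases hl : C' l = 0
    · rw [hl, Polynomial.map_zero, zero_mul, homogenize_zero, map_zero]
      exact zero_mem _
    · have h1 := hC1 l hl
      have h2 : M0 = (M0 - d * D.h l) + d * D.h l := by omega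
      rw [h2, homogenize_mul _ _ (natDegree_map_le.trans (by omega))
        (openC_natDegree_le G hGd _ (D.homH l)), map_mul, ← openA_aeval_hv d (D.h l) G hGd _
        (D.homH l) a b]
      exact Ideal.mul_mem_left _ _ (Ideal.subset_span ⟨l, rfl⟩)
  have hmem : ev μ * a ^ M0 ∈ Ideal.span (Set.range fun l =>
      MvPolynomial.aeval (fun i => hv d (fun m => (G i).coeff m) a b) (D.H l)) := by
    have h1 : ev μ * a ^ M0 = ∑ l, MvPolynomial.aeval ![b, a]
        (((C' l).map (ev : A →+* W') * MvPolynomial.aeval G (D.H l)).homogenize M0) := by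
      rw [hE2]
      rfl
    rw [h1]
    exact Ideal.sum_mem _ fun l _ => hterm l
  -- the generators
  have hgen : ∀ l, P ^ (b0 * D.h l) *
      MvPolynomial.aeval (fun i => hv d (fun m => (G i).coeff m) a b) (D.H l) =
      u ^ D.h l * θ (MvPolynomial.aeval S (D.H l)) := by
    intro l
    have hscal : ∀ (r : W') (x : Fin (N + 1) → W'), MvPolynomial.aeval (fun i => r * x i) (D.H l) =
        r ^ D.h l * MvPolynomial.aeval x (D.H l) := by
      intro r x
      rw [MvPolynomial.aeval_def, MvPolynomial.aeval_def, MvPolynomial.eval₂_eq',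
        MvPolynomial.eval₂_eq', Finset.mul_sum]
      refine Finset.sum_congr rfl fun m hm => ?_
      have h1 : ∑ i, m i = D.h l := by
        have h2 := D.homH l (MvPolynomial.mem_support_iff.1 hm)
        rw [Finsupp.weight_apply, Finsupp.sum_fintype _ _ (fun i => by simp)] at h2
        simpa using h2
      simp only [mul_pow]
      rw [Finset.prod_mul_distrib, Finset.prod_pow_eq_pow_sum, h1]
      ring
    rw [pow_mul, ← hscal]
    have h1 : (fun i => P ^ b0 * hv d (fun m => (G i).coeff m) a b) = fun i => u * θ (S i) := by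
      funext i
      rw [mul_comm u, hSu i]
      simp only [hGc]
    rw [h1, hscal u (fun i => θ (S i)), MvPolynomial.comp_aeval_apply]
  have hsum : ∀ l, D.h l ≤ ∑ l, D.h l := fun l =>
    Finset.single_le_sum (fun _ _ => Nat.zero_le _) (Finset.mem_univ l)
  refine ⟨b0 * ∑ l, D.h l, ?_⟩
  have hgen2 : ∀ l, P ^ (b0 * ∑ l, D.h l) *
      MvPolynomial.aeval (fun i => hv d (fun m => (G i).coeff m) a b) (D.H l) ∈ J := by
    intro l
    have h1 : b0 * ∑ l, D.h l = b0 * (∑ l, D.h l - D.h l) + b0 * D.h l := by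
      rw [← Nat.mul_add, Nat.sub_add_cancel (hsum l)]
    rw [h1, pow_add, mul_assoc, hgen l, ← mul_assoc]
    exact Ideal.mul_mem_left _ _ (Ideal.subset_span ⟨l, rfl⟩)
  rw [mul_comm]
  refine Submodule.span_induction (p := fun z _ => P ^ (b0 * ∑ l, D.h l) * z ∈ J) ?_ ?_ ?_ ?_ hmem
  · rintro _ ⟨l, rfl⟩
    exact hgen2 l
  · rw [mul_zero]
    exact zero_mem _
  · intro z z' _ _ h1 h2
    rw [mul_add]
    exact add_mem h1 h2
  · intro r z _ h1
    rw [smul_eq_mul, mul_left_comm]
    exact Ideal.mul_mem_left _ _ h1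

/-- A power of `P` is in the ideal of the `H l (S)`. -/
theorem openA_pow (D : VData k N n c) {W' O' σ : Type} [CommRing W'] [Algebra k W'] [CommRing O']
    [Algebra k O'] {d M0 : ℕ} {F : Fin (N + 1) → (MvPowerSeries σ (PowerSeries k))[X]}
    (hFd : ∀ i, (F i).natDegree ≤ d) {μ : PowerSeries k} (hμ : μ ≠ 0)
    (hcert : Cert D d F (MvPowerSeries.C μ) M0)
    (ev : MvPowerSeries σ (PowerSeries k) →ₐ[k] W') (ser : PowerSeries k →ₐ[k] W')
    (hev : ∀ g, ev (MvPowerSeries.C g) = ser g) (θ : O' →ₐ[k] W') (S : Fin (N + 1) → O') (u : W')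
    (hu : IsUnit u) (b P : W') (M b0 : ℕ) (hser : ser PowerSeries.X = P)
    (hSu : ∀ i, θ (S i) * u = P ^ b0 * hv d (fun m => ev ((F i).coeff m)) (P ^ M) b) :
    ∃ B, P ^ B ∈ Ideal.span (Set.range fun l => θ (MvPolynomial.aeval S (D.H l))) := by
  obtain ⟨B, hB⟩ := openA_mem D hFd hcert ev θ S u hu (P ^ M) b P b0 hSu
  obtain ⟨s, v, hvv⟩ : ∃ (s : ℕ) (v : (PowerSeries k)ˣ),
      μ = PowerSeries.X ^ s * (v : PowerSeries k) :=
    ⟨μ.order.toNat, PowerSeries.Unit_of_divided_by_X_pow_order μ, by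
      rw [PowerSeries.Unit_of_divided_by_X_pow_order_nonzero hμ,
        PowerSeries.X_pow_order_mul_divXPowOrder]⟩
  rw [hev, hvv, map_mul, map_pow, hser] at hB
  refine ⟨s + M * M0 + B, ?_⟩
  have h2 : ser (v : PowerSeries k) * ser ((v⁻¹ : (PowerSeries k)ˣ) : PowerSeries k) = 1 := by
    rw [← map_mul, Units.mul_inv, map_one]
  have h3 : P ^ (s + M * M0 + B) = ser ((v⁻¹ : (PowerSeries k)ˣ) : PowerSeries k) *
      (P ^ s * ser (v : PowerSeries k) * (P ^ M) ^ M0 * P ^ B) := by
    rw [pow_add, pow_add, pow_mul]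
    linear_combination (-(P ^ s * (P ^ M) ^ M0 * P ^ B)) * h2
  rw [h3]
  exact Ideal.mul_mem_left _ _ hB

end Pool.Agent.VFF
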