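import Pool.Agent.Lib_MP_1858fb_f.GDefs
import Pool.Agent.Lib_MP_1858fb_f.Theta2
import Pool.Agent.Lib_MP_1858fb_f.Ev
import Pool.Agent.Lib_MP_1858fb_f.OpenA
import Pool.Agent.Lib_MP_1858fb_f.OpenC
import Pool.Agent.Lib_MP_1858fb_f.Bezout

/-!
# MP_1858fb_ag, line F: F-OPEN, the open condition for the glued curve
-/

namespace Pool.Agent.VFF

open Pool.Agent.VF Polynomial

namespace Open

section adapter

variable (k : Type) [Field k]

theorem equivPP_coeff (w : W k) (i j : ℕ) :
    PowerSeries.coeff i (PowerSeries.coeff j (Ring2.equivPP k w)) =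
      MvPowerSeries.coeff (ij i j) w := by
  have h := Ring2.coeff_symm (Ring2.equivPP k w) i j
  rw [RingEquiv.symm_apply_apply] at h
  exact h.symm

theorem coeff_WP (i j : ℕ) : MvPowerSeries.coeff (ij i j) (WP k) =
    if i = 1 ∧ j = 0 then 1 else 0 := by
  rw [← theta_X k k, Theta2.coeff_theta, coeff_X]
  by_cases h : i = 1 ∧ j = 0
  · obtain ⟨rfl, rfl⟩ := h
    simp
  · rw [if_neg h]
    split_ifs with h1 h2
    · rw [PowerSeries.coeff_one, if_neg]
      rintro rfl
      exact h ⟨by omega, rfl⟩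
    · simp
    · rfl

theorem equivPP_WP : Ring2.equivPP k (WP k) = VFD.P k := by
  ext j i
  rw [equivPP_coeff, coeff_WP, VFD.P, PowerSeries.coeff_C]
  split_ifs with h1 h2 h2
  · rw [h1.1, PowerSeries.coeff_one_X]
  · exact absurd h1.2 h2
  · rw [PowerSeries.coeff_X, if_neg]
    rintro rfl
    exact h1 ⟨rfl, h2⟩
  · simp

theorem serP_X : serP k k PowerSeries.X = WP k := by
  apply Ring2.ext_ij
  intro i j
  rw [coeff_serP, coeff_WP, PowerSeries.coeff_X]
  split_ifs <;> simp_all

theorem equivPP_tau (g : PowerSeries k) :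
    Ring2.equivPP k (Theta2.tau k k g) = VFD.qW k g := by
  ext j i
  rw [equivPP_coeff, Theta2.coeff_tau, VFD.coeff_qW, PowerSeries.coeff_X_pow_mul',
    PowerSeries.coeff_C]
  by_cases h : i = j
  · subst h
    simp
  · rw [if_neg h]
    split_ifs with h1 h2
    · omega
    · rfl
    · rfl

theorem equivPP_theta (T : (PowerSeries k)[X]) :
    Ring2.equivPP k (theta k k T) = T.eval₂ (VFD.qW k) (VFD.P k) := by
  have h1 : theta k k T = T.eval₂ (Theta2.tau k k : PowerSeries k →+* W k) (WP k) := rfl
  have h2 := Polynomial.hom_eval₂ T (Theta2.tau k k : PowerSeries k →+* W k)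
    (Ring2.equivPP k : W k →+* PowerSeries (PowerSeries k)) (WP k)
  rw [h1]
  refine h2.trans ?_
  have h3 : (Ring2.equivPP k : W k →+* PowerSeries (PowerSeries k)).comp
      (Theta2.tau k k : PowerSeries k →+* W k) = VFD.qW k := by
    ext1 g
    exact equivPP_tau k g
  rw [h3]
  congr 1
  exact equivPP_WP k

end adapter

theorem reflect_reflect' {R : Type*} [Semiring R] (N : ℕ) (f : R[X]) :
    reflect N (reflect N f) = f := by
  ext i
  rw [coeff_reflect, coeff_reflect, revAt_invol]

theorem natDegree_reflect_le' {R : Type*} [Semiring R] (N : ℕ) (f : R[X])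
    (hf : f.natDegree ≤ N) : (reflect N f).natDegree ≤ N := by
  rw [natDegree_le_iff_coeff_eq_zero]
  intro i hi
  rw [coeff_reflect, revAt_eq_self_of_lt hi]
  exact coeff_eq_zero_of_natDegree_lt (by omega)

theorem homog_reflect (k : Type) [Field k] (N : ℕ) (T : (PowerSeries k)[X]) :
    VFD.homog N (reflect N T) = Ring2.equivPP k (theta k k T) := by
  rw [VFD.homog, reflect_reflect', equivPP_theta]

/-- from the reversed polynomials to the polynomials -/
theorem span_reflect {K : Type} [Field K] {ι : Type} [Fintype ι] (T : ι → K[X]) (e : ι → ℕ)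
    (he : ∀ l, (T l).natDegree ≤ e l)
    (h : Ideal.span (Set.range fun l => reflect (e l) (T l)) = ⊤)
    (h0 : ∃ l, (T l).coeff 0 ≠ 0) : ∃ B : ι → K[X], ∑ l, B l * T l = 1 := by
  classical
  have h1 : (1 : K[X]) ∈ Ideal.span (Set.range fun l => reflect (e l) (T l)) := by
    rw [h]
    trivial
  obtain ⟨B, hB⟩ := Ideal.mem_span_range_iff_exists_fun.1 h1
  -- `X ^ m` is in the ideal of the `T l`
  set m : ℕ := ∑ l, ((B l).natDegree + e l) with hm
  have hml : ∀ l, (B l).natDegree + e l ≤ m := fun l =>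
    Finset.single_le_sum (f := fun l => (B l).natDegree + e l) (fun _ _ => Nat.zero_le _)
      (Finset.mem_univ l)
  have h2 : (X : K[X]) ^ m = ∑ l, reflect (m - e l) (B l) * T l := by
    have h3 : reflect m (∑ l, B l * reflect (e l) (T l)) =
        ∑ l, reflect (m - e l) (B l) * T l := by
      have h4 : reflect m (∑ l, B l * reflect (e l) (T l)) =
          ∑ l, reflect m (B l * reflect (e l) (T l)) := by
        ext i
        rw [coeff_reflect, finsetSum_coeff, finsetSum_coeff]
        exact Finset.sum_congr rfl fun l _ => (coeff_reflect _ _ _).symm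
      rw [h4]
      refine Finset.sum_congr rfl fun l _ => ?_
      have h5 : m = (m - e l) + e l := by have := hml l; omega
      conv_lhs => rw [h5]
      rw [reflect_mul _ _ (by have := hml l; omega) (natDegree_reflect_le' _ _ (he l)),
        reflect_reflect']
    rw [← h3, hB]
    ext i
    rw [coeff_reflect, coeff_X_pow, coeff_one]
    by_cases hi : i ≤ m
    · rw [revAt_le hi]
      by_cases hi2 : i = m
      · rw [if_pos hi2, if_pos (by omega)]
      · rw [if_neg hi2, if_neg (by omega)]
    · rw [revAt_eq_self_of_lt (by omega), if_neg (by omega), if_neg (by omega)]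
  have h3 : (X : K[X]) ^ m ∈ Ideal.span (Set.range T) := by
    rw [h2]
    exact Ideal.sum_mem _ fun l _ => Ideal.mul_mem_left _ _ (Ideal.subset_span ⟨l, rfl⟩)
  obtain ⟨g, hg⟩ := (IsPrincipalIdealRing.principal (Ideal.span (Set.range T))).principal
  have hgT : ∀ l, g ∣ T l := by
    intro l
    have : T l ∈ Ideal.span (Set.range T) := Ideal.subset_span ⟨l, rfl⟩
    rw [hg] at this
    exact Ideal.mem_span_singleton.1 this
  have hgX : g ∣ X ^ m := by
    rw [hg] at h3
    exact Ideal.mem_span_singleton.1 h3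
  obtain ⟨i, _, hi⟩ := (dvd_prime_pow Polynomial.prime_X m).1 hgX
  have hi0 : i = 0 := by
    by_contra hi0
    obtain ⟨l, hl⟩ := h0
    apply hl
    have h4 : (X : K[X]) ∣ T l :=
      ((dvd_pow_self X hi0).trans hi.symm.dvd).trans (hgT l)
    exact X_dvd_iff.1 h4
  have hgu : IsUnit g := by
    rw [hi0, pow_zero] at hi
    exact associated_one_iff_isUnit.1 hi
  have htop : Ideal.span (Set.range T) = ⊤ := by
    rw [hg]
    exact Ideal.span_singleton_eq_top.2 hgu
  have h6 : (1 : K[X]) ∈ Ideal.span (Set.range T) := by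
    rw [htop]
    trivial
  exact Ideal.mem_span_range_iff_exists_fun.1 h6


/-! ### the circles -/

section circles

variable {k : Type} [Field k] {N n c : ℕ}

theorem aeval_scale {A : Type} [CommRing A] [Algebra k A] (s : A) (x : Fin (N + 1) → A)
    {E : MvPolynomial (Fin (N + 1)) k} {e : ℕ} (hE : E.IsHomogeneous e) :
    MvPolynomial.aeval (fun i => s * x i) E = s ^ e * MvPolynomial.aeval x E := by
  rw [MvPolynomial.aeval_def, MvPolynomial.aeval_def, MvPolynomial.eval₂_eq',
    MvPolynomial.eval₂_eq', Finset.mul_sum]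
  refine Finset.sum_congr rfl fun t ht => ?_
  have h1 : ∑ i, t i = e := by
    have := hE (MvPolynomial.mem_support_iff.1 ht)
    rw [Finsupp.weight_apply, Finsupp.sum_fintype] at this
    · simpa using this
    · simp
  simp only [mul_pow]
  rw [Finset.prod_mul_distrib, Finset.prod_pow_eq_pow_sum, h1]
  ring

theorem map_aeval_ring {A B : Type} [CommRing A] [Algebra k A] [CommRing B] [Algebra k B]
    (φ : A →+* B) (hφ : ∀ a : k, φ (algebraMap k A a) = algebraMap k B a) {M : Type}
    (F : M → A) (E : MvPolynomial M k) :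
    φ (MvPolynomial.aeval F E) = MvPolynomial.aeval (fun i => φ (F i)) E := by
  induction E using MvPolynomial.induction_on with
  | C a => rw [MvPolynomial.aeval_C, MvPolynomial.aeval_C, hφ]
  | add p q hp hq => rw [map_add, map_add, map_add, hp, hq]
  | mul_X p i hp =>
    rw [map_mul, map_mul, map_mul, hp, MvPolynomial.aeval_X, MvPolynomial.aeval_X]

theorem constantCoeff_aeval (Y : Fin (N + 1) → OL k) (y : Fin (N + 1) → k)
    (hY : ∀ i, PowerSeries.constantCoeff (Y i) = algebraMap k _ (y i))
    (E : MvPolynomial (Fin (N + 1)) k) :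
    PowerSeries.constantCoeff (MvPolynomial.aeval Y E) =
      algebraMap k (LaurentSeries k) (MvPolynomial.aeval y E) := by
  rw [map_aeval_ring (PowerSeries.constantCoeff (R := LaurentSeries k)) (fun a => by
    rw [PowerSeries.algebraMap_apply, PowerSeries.constantCoeff_C]) Y E]
  have h1 : (fun i => PowerSeries.constantCoeff (Y i)) =
      fun i => algebraMap k (LaurentSeries k) (y i) := funext hY
  rw [h1]
  exact (map_aeval_ring (algebraMap k (LaurentSeries k)) (fun a => rfl) y E).symm

theorem TT_pow (a b : ℕ) : TT k (a : ℤ) ^ b = TT k ((a * b : ℕ) : ℤ) := by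
  have h : b • (a : ℤ) = ((a * b : ℕ) : ℤ) := by
    rw [nsmul_eq_mul]
    push_cast
    ring
  rw [TT, TT, HahnSeries.single_pow, one_pow, h]

theorem coeff_algebraMap_OL (a : k) (i : ℤ) :
    (algebraMap k (LaurentSeries k) a).coeff i = if i = 0 then a else 0 := by
  have h : algebraMap k (LaurentSeries k) a = HahnSeries.C a := by
    rw [HahnSeries.algebraMap_apply', PowerSeries.algebraMap_apply, HahnSeries.ofPowerSeries_C]
    rfl
  rw [h, HahnSeries.C_apply, HahnSeries.coeff_single]
  split_ifs <;> rfl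

/-- the outer circle -/
theorem outer (S : Fin (N + 1) → (PowerSeries k)[X]) {D' e : ℕ} (H : MvPolynomial (Fin (N + 1)) k)
    (hH : H.IsHomogeneous e) (y : Fin (N + 1) → k) (Y : Fin (N + 1) → OL k)
    (hY : ∀ i, PowerSeries.constantCoeff (Y i) = algebraMap k _ (y i) ∧
      toOut k k (theta k k (S i)) = PowerSeries.C (TT k D') * Y i) (i : ℕ) :
    PowerSeries.constantCoeff ((MvPolynomial.aeval S H).coeff i) =
      if i = D' * e then MvPolynomial.aeval y H else 0 := by
  have h1 : toOut k k (theta k k (MvPolynomial.aeval S H)) =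
      PowerSeries.C (TT k ((D' * e : ℕ) : ℤ)) * MvPolynomial.aeval Y H := by
    rw [MvPolynomial.comp_aeval_apply, MvPolynomial.comp_aeval_apply]
    have h2 : (fun i => (toOut k k) ((theta k k) (S i))) =
        fun i => PowerSeries.C (TT k D') * Y i := funext fun i => (hY i).2
    rw [h2, aeval_scale _ _ hH, ← map_pow, TT_pow]
  have h3 := congrArg (fun f => (PowerSeries.coeff 0 f).coeff (i : ℤ)) h1
  have hL : (PowerSeries.coeff 0 (toOut k k (theta k k (MvPolynomial.aeval S H)))).coeff (i : ℤ) =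
      PowerSeries.constantCoeff ((MvPolynomial.aeval S H).coeff i) := by
    have e1 : ((i : ℤ) + ((0 : ℕ) : ℤ)).toNat = i := by simp
    rw [coeff_toOut, if_pos (by omega), Theta2.coeff_theta, e1, if_pos (Nat.zero_le _),
      Nat.sub_zero, PowerSeries.coeff_zero_eq_constantCoeff_apply]
  have hR : (PowerSeries.coeff 0 (PowerSeries.C (TT k ((D' * e : ℕ) : ℤ)) *
      MvPolynomial.aeval Y H)).coeff (i : ℤ) =
      (TT k ((D' * e : ℕ) : ℤ) * algebraMap k (LaurentSeries k)
        (MvPolynomial.aeval y H)).coeff (i : ℤ) := by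
    rw [PowerSeries.coeff_C_mul, PowerSeries.coeff_zero_eq_constantCoeff_apply,
      constantCoeff_aeval Y y (fun i => (hY i).1)]
  rw [← hL, h3.trans hR, TT]
  have h4 : ((i : ℤ)) = ((i : ℤ) - ((D' * e : ℕ) : ℤ)) + ((D' * e : ℕ) : ℤ) := by ring
  rw [h4, HahnSeries.coeff_single_mul_add, one_mul, coeff_algebraMap_OL]
  by_cases h5 : i = D' * e
  · rw [if_pos h5, if_pos (by rw [h5]; ring)]
  · rw [if_neg h5, if_neg]
    intro h6
    apply h5
    have : (i : ℤ) = ((D' * e : ℕ) : ℤ) := by omega
    exact_mod_cast this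

/-- the inner circle -/
theorem innerCircle (S : Fin (N + 1) → (PowerSeries k)[X]) {b1 e : ℕ}
    (H : MvPolynomial (Fin (N + 1)) k)
    (hH : H.IsHomogeneous e) (v : Fin (N + 1) → k) (Z : Fin (N + 1) → OL k)
    (hZ : ∀ i, PowerSeries.constantCoeff (Z i) = algebraMap k _ (v i) ∧
      toInn k k (theta k k (S i)) = PowerSeries.X ^ b1 * Z i) :
    ∃ u : ℕ → PowerSeries k,
      (∀ j, PowerSeries.X ^ j * (MvPolynomial.aeval S H).coeff j =
        PowerSeries.X ^ (b1 * e) * u j) ∧
      PowerSeries.constantCoeff (u 0) = MvPolynomial.aeval v H ∧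
      ∀ j, 0 < j → PowerSeries.constantCoeff (u j) = 0 := by
  have h1 : toInn k k (theta k k (MvPolynomial.aeval S H)) =
      PowerSeries.X ^ (b1 * e) * MvPolynomial.aeval Z H := by
    rw [MvPolynomial.comp_aeval_apply, MvPolynomial.comp_aeval_apply]
    have h2 : (fun i => (toInn k k) ((theta k k) (S i))) =
        fun i => PowerSeries.X ^ b1 * Z i := funext fun i => (hZ i).2
    rw [h2, aeval_scale _ _ hH, ← pow_mul]
  refine ⟨fun m => PowerSeries.mk fun b =>
    (PowerSeries.coeff b (MvPolynomial.aeval Z H)).coeff (-(m : ℤ)), fun j => ?_, ?_, ?_⟩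
  · ext b
    have h3 := congrArg (fun f => (PowerSeries.coeff b f).coeff (-(j : ℤ))) h1
    have hL : (PowerSeries.coeff b (toInn k k (theta k k (MvPolynomial.aeval S H)))).coeff
        (-(j : ℤ)) = PowerSeries.coeff b (PowerSeries.X ^ j * (MvPolynomial.aeval S H).coeff j) := by
      rw [coeff_toInn, Theta2.coeff_theta, PowerSeries.coeff_X_pow_mul']
      by_cases hj : j ≤ b
      · have e1 : (-(j : ℤ) + (b : ℤ)).toNat = b - j := by omega
        have e2 : b - (b - j) = j := by omega
        rw [if_pos (by omega), e1, if_pos (by omega), e2, if_pos hj]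
      · rw [if_neg (by omega), if_neg hj]
    rw [← hL, h3.trans rfl, PowerSeries.coeff_X_pow_mul', PowerSeries.coeff_X_pow_mul']
    split_ifs
    · rw [PowerSeries.coeff_mk]
    · rfl
  · rw [← PowerSeries.coeff_zero_eq_constantCoeff_apply, PowerSeries.coeff_mk,
      PowerSeries.coeff_zero_eq_constantCoeff_apply, constantCoeff_aeval Z v (fun i => (hZ i).1),
      coeff_algebraMap_OL]
    simp
  · intro j hj
    rw [← PowerSeries.coeff_zero_eq_constantCoeff_apply, PowerSeries.coeff_mk,
      PowerSeries.coeff_zero_eq_constantCoeff_apply, constantCoeff_aeval Z v (fun i => (hZ i).1),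
      coeff_algebraMap_OL, if_neg (by omega)]

end circles

end Open

section main

variable {k : Type} [Field k] {N n c : ℕ}

/-- [F-OPEN] the open condition, for `κ = k` -/
theorem open_cert [IsAlgClosed k] (D : VData k N n c) {y v : Fin (N + 1) → k} (hy : y ∈ D.V)
    (hv' : v ∈ D.V) {d M b0 b1 D' p : ℕ}
    {F : Fin (N + 1) → (MvPowerSeries (Fin p) (PowerSeries k))[X]}
    (hFd : ∀ i, (F i).natDegree ≤ d) {μ : PowerSeries k} (hμ : μ ≠ 0) {M0 : ℕ}
    (hcert : Cert D d F (MvPowerSeries.C μ) M0) (x : Fin p → W k)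
    (hx : ∀ j, MvPowerSeries.constantCoeff (x j) = 0) (u : W k) (hu : IsUnit u) {ε : k}
    (hε : ε ≠ 0) (S : Fin (N + 1) → (PowerSeries k)[X]) (hSd : ∀ i, (S i).natDegree ≤ D')
    (hS : OnV D.V S)
    (hSu : ∀ i, theta k k (S i) * u =
      WP k ^ b0 * hv d (fun m => ev k k x hx ((F i).coeff m)) (WP k ^ M) (WQ k ^ M))
    (Y Z : Fin (N + 1) → OL k)
    (hY : ∀ i, NonPos (Y i) ∧ PowerSeries.constantCoeff (Y i) = algebraMap k _ (y i) ∧
      toOut k k (theta k k (S i)) = PowerSeries.C (TT k D') * Y i)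
    (hZ : ∀ i, NonPos (Z i) ∧ PowerSeries.constantCoeff (Z i) = algebraMap k _ (ε * v i) ∧
      toInn k k (theta k k (S i)) = PowerSeries.X ^ b1 * Z i) :
    ∃ μ' : PowerSeries k, μ' ≠ 0 ∧ ∃ M', Cert D D' S μ' M' := by
  classical
  -- the polynomials
  set T : Fin D.t → (PowerSeries k)[X] := fun l => MvPolynomial.aeval S (D.H l) with hT
  set e : Fin D.t → ℕ := fun l => D' * D.h l with he
  have hTd : ∀ l, (T l).natDegree ≤ e l := fun l => openC_natDegree_le S hSd _ (D.homH l)
  -- outer circle
  obtain ⟨l0, hl0⟩ := ((D.mem_iff y).1 hy).2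
  have hout : ∀ i, PowerSeries.constantCoeff ((T l0).coeff i) =
      if i = e l0 then MvPolynomial.aeval y (D.H l0) else 0 := fun i =>
    Open.outer S (D.H l0) (D.homH l0) y Y (fun i => (hY i).2) i
  -- inner circle
  obtain ⟨l1, hl1⟩ := ((D.mem_iff v).1 hv').2
  obtain ⟨w, hw1, hw2, hw3⟩ := Open.innerCircle S (D.H l1) (D.homH l1) (fun i => ε * v i) Z
    (fun i => (hZ i).2)
  have hw2' : PowerSeries.constantCoeff (w 0) ≠ 0 := by
    rw [hw2, Open.aeval_scale _ _ (D.homH l1)]
    exact mul_ne_zero (pow_ne_zero _ hε) hl1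
  -- the middle
  obtain ⟨B, hB⟩ := openA_pow D hFd hμ hcert (ev k k x hx) (serP k k) (ev_C k k x hx)
    (theta k k) S u hu (WQ k ^ M) (WP k) M b0 (Open.serP_X k) hSu
  have hmid : VFD.P k ^ B * VFD.Q k ^ 0 ∈
      Ideal.span (Set.range fun l => VFD.homog (e l) (reflect (e l) (T l))) := by
    have h1 := Ideal.mem_map_of_mem (Ring2.equivPP k : W k →+* PowerSeries (PowerSeries k)) hB
    rw [Ideal.map_span, ← Set.range_comp] at h1
    have h2 : (Ring2.equivPP k : W k →+* PowerSeries (PowerSeries k)) (WP k ^ B) =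
        VFD.P k ^ B * VFD.Q k ^ 0 := by
      rw [pow_zero, mul_one, map_pow]
      exact congrArg (fun z => z ^ B) (Open.equivPP_WP k)
    rw [h2] at h1
    have h3 : (⇑(Ring2.equivPP k : W k →+* PowerSeries (PowerSeries k)) ∘
        fun l => theta k k (MvPolynomial.aeval S (D.H l))) =
        fun l => VFD.homog (e l) (reflect (e l) (T l)) := by
      funext l
      rw [Open.homog_reflect]
      rfl
    rw [h3] at h1
    exact h1
  -- Bezout
  obtain ⟨hspan, hne⟩ := VFD.bezout (K := FractionRing (PowerSeries k)) e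
    (fun l => reflect (e l) (T l))
    (fun l => Open.natDegree_reflect_le' _ _ (hTd l))
    ⟨l0, MvPolynomial.aeval y (D.H l0), hl0, by
      ext i
      rw [coeff_map, coeff_reflect, hout, coeff_C]
      by_cases hi : i ≤ e l0
      · rw [revAt_le hi]
        by_cases h0 : i = 0
        · rw [if_pos h0, if_pos (by omega)]
        · rw [if_neg h0, if_neg (by omega)]
      · rw [revAt_eq_self_of_lt (by omega), if_neg (by omega), if_neg (by omega)]⟩
    ⟨l1, b1 * D.h l1, w, fun j hj => by
      rw [coeff_reflect, revAt_le (Nat.sub_le _ _), Nat.sub_sub_self hj]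
      exact hw1 j, hw2', fun j hj _ => hw3 j hj⟩
    ⟨B, 0, hmid⟩
  -- back to the variable `P`
  obtain ⟨C', hC'⟩ := Open.span_reflect
    (fun l => (T l).map (algebraMap (PowerSeries k) (FractionRing (PowerSeries k)))) e
    (fun l => natDegree_map_le.trans (hTd l))
    (by
      rw [← hspan]
      congr 2
      funext l
      exact reflect_map _ _ _)
    (by
      obtain ⟨l, hl⟩ := hne
      refine ⟨l, ?_⟩
      rw [coeff_reflect, revAt_le le_rfl, Nat.sub_self] at hl
      rw [coeff_map]
      intro h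
      apply hl
      apply IsFractionRing.injective (PowerSeries k) (FractionRing (PowerSeries k))
      rw [h, map_zero])
  refine openC_cert_of_span D S hSd C' hC' ⟨l0, ?_⟩
  intro h
  apply hl0
  have h1 := hout (e l0)
  rw [if_pos rfl] at h1
  rw [← h1]
  have h2 : (T l0).coeff (e l0) = 0 := h
  rw [h2, map_zero]

end main

end Pool.Agent.VFF
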