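import Pool.Agent.Lib_MP_1858fb_f.GStepE
import Pool.Agent.Lib_MP_1858fb_f.Mark
import Pool.Agent.Lib_MP_1858fb_f.Open
import Pool.Agent.Lib_MP_1858fb_f.Glue

/-! # MP_1858fb_ag, line F: F-GSTEP, second half, the main lemma -/

set_option autoImplicit false

namespace Pool.Agent.VFF

open Pool.Agent.VF Polynomial

variable {k : Type} [Field k] {κ : Type} [CommRing κ] [Algebra k κ] {N n c : ℕ}

/-- the polynomials `S` of the gluing satisfy the equations of `V` -/
theorem gstepD_onV [IsAlgClosed k] (D : VData k N n c) {d M b0 p : ℕ}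
    {F : Fin (N + 1) → (MvPowerSeries (Fin p) (PowerSeries k))[X]}
    (hFd : ∀ i, (F i).natDegree ≤ d) (hF : OnV D.V F) (x : Fin p → W κ)
    (hx : ∀ j, MvPowerSeries.constantCoeff (x j) = 0) (u : W κ) (hu : IsUnit u)
    (S : Fin (N + 1) → (PowerSeries κ)[X])
    (hSu : ∀ i, theta k κ (S i) * u =
      WP κ ^ b0 * hv d (fun m => ev k κ x hx ((F i).coeff m)) (WP κ ^ M) (WQ κ ^ M)) :
    OnV D.V S := by
  have h1 : OnV D.V (fun i => gstepB_mp (ev k κ x hx) (F i)) :=
    gstepB_onV_map (gstepB_mp (ev k κ x hx)) hF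
  have h2 : ∀ i, (gstepB_mp (ev k κ x hx) (F i)).natDegree ≤ d := fun i => by
    rw [gstepB_mp_apply]
    exact natDegree_map_le.trans (hFd i)
  have h3 := gstepB_onV_scale D
    (onV_hv k D d (fun i => gstepB_mp (ev k κ x hx) (F i)) h2 h1 (WP κ ^ M) (WQ κ ^ M))
    (WP κ ^ b0)
  have h4 : OnV D.V (fun i => theta k κ (S i) * u) := by
    have e : (fun i => theta k κ (S i) * u) = fun i => WP κ ^ b0 *
        hv d (fun m => (gstepB_mp (ev k κ x hx) (F i)).coeff m) (WP κ ^ M) (WQ κ ^ M) := by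
      funext i
      rw [hSu]
      simp only [gstepE_mp_coeff]
    rw [e]
    exact h3
  exact gstepB_onV_of_inj (theta k κ) (theta_injective k κ) (gstepB_onV_of_unit D hu h4)

/-- base change of the equation between `S` and `F` -/
theorem gstepD_hSu {κ' : Type} [CommRing κ'] [Algebra k κ'] (φ : κ →ₐ[k] κ') {d M b0 p : ℕ}
    {F : Fin (N + 1) → (MvPowerSeries (Fin p) (PowerSeries k))[X]} (x : Fin p → W κ)
    (hx : ∀ j, MvPowerSeries.constantCoeff (x j) = 0)
    (hx' : ∀ j, MvPowerSeries.constantCoeff (MvPowerSeries.map (φ : κ →+* κ') (x j)) = 0)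
    (u : W κ) (S : Fin (N + 1) → (PowerSeries κ)[X])
    (hSu : ∀ i, theta k κ (S i) * u =
      WP κ ^ b0 * hv d (fun m => ev k κ x hx ((F i).coeff m)) (WP κ ^ M) (WQ κ ^ M))
    (i : Fin (N + 1)) :
    theta k κ' ((S i).map (PowerSeries.map (φ : κ →+* κ'))) *
      MvPowerSeries.map (φ : κ →+* κ') u = WP κ' ^ b0 * hv d (fun m =>
        ev k κ' (fun j => MvPowerSeries.map (φ : κ →+* κ') (x j)) hx' ((F i).coeff m))
        (WP κ' ^ M) (WQ κ' ^ M) := by
  have h1 := congrArg (MvPowerSeries.map (φ : κ →+* κ')) (hSu i)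
  rw [map_mul, theta_map, map_mul, map_pow, gstepE_hv_map, map_pow, map_pow] at h1
  have eP : MvPowerSeries.map (φ : κ →+* κ') (WP κ) = WP κ' := MvPowerSeries.map_X _ _
  have eQ : MvPowerSeries.map (φ : κ →+* κ') (WQ κ) = WQ κ' := MvPowerSeries.map_X _ _
  rw [eP, eQ] at h1
  rw [h1]
  congr 2
  funext m
  exact ev_map k κ κ' φ x hx hx' _

/-- the second half of the induction step, over a ring `κ` with `n` derivations -/
theorem gstepD_main [IsAlgClosed k] (D : VData k N n c) {w : ℕ} (vs : Fin w → Fin (N + 1) → k)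
    {y v : Fin (N + 1) → k} (hy : y ∈ D.V) (hv' : v ∈ D.V) (fy : FrameAt D y)
    (fv : FrameAt D v) {d : ℕ} {F : Fin (N + 1) → (MvPowerSeries (Fin (n + n)) (PowerSeries k))[X]}
    {α : Fin (N + 1) → PowerSeries k} {t ρ0 ρ1 : PowerSeries k} (h : GIn D fy fv d F α t ρ0 ρ1)
    {cm : Fin w → k} (hcm : Function.Injective cm) (hcm0 : ∀ l, cm l ≠ 0)
    (hFm : ∀ l, Prop' (vs l) (fun i => (F i).eval (algebraMap k _ (cm l))))
    {μ : PowerSeries k} (hμ : μ ≠ 0) {M0 : ℕ} (hcert : Cert D d F (MvPowerSeries.C μ) M0)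
    (φ0 : κ →ₐ[k] k) (δ0 : Fin n → κ →+ k)
    (hδ0 : ∀ j f g, δ0 j (f * g) = φ0 f * δ0 j g + φ0 g * δ0 j f)
    (hδ0k : ∀ j, ∀ a : k, δ0 j (algebraMap k κ a) = 0) (e : Fin n → κ)
    (he : ∀ j, φ0 (e j) = 0) (he' : ∀ i j, δ0 i (e j) = if i = j then 1 else 0) :
    ∃ (d : ℕ) (S : Fin (N + 1) → (PowerSeries k)[X]) (γ : Fin w → k)
      (g : Fin n → Fin (N + 1) → (PowerSeries k)[X]),
      0 < d ∧ Function.Injective γ ∧ (∀ l, γ l ≠ 0) ∧ Curve D d S ∧
      Sec D d S (Fin.elim0 : Fin 0 → k) g ∧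
      Prop' v (fun i => (S i).coeff 0) ∧
      ∀ l, Prop' (vs l) (fun i => (S i).eval (PowerSeries.C (γ l) * PowerSeries.X)) := by
  obtain ⟨M, s, b0, b1, D', x, hx, u, ε, S, Y, Z, ν, ω, hM, hu, hε, hSd, hD', hSu, hY, hZ, hν,
    hS0, hω, hl0, hlj⟩ := glue k κ D hy hv' fy fv h e
  have hOnV : OnV D.V S := gstepD_onV D h.deg h.onV x hx u hu S hSu
  -- the constant term
  set φ1 : PowerSeries κ →ₐ[k] PowerSeries k := PowerSeries.mapAlgHom φ0 with hφ1
  have hφ1_apply : ∀ f, φ1 f = PowerSeries.map (φ0 : κ →+* k) f := fun _ => rfl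
  have hφ1X : φ1 PowerSeries.X = PowerSeries.X := by rw [hφ1_apply, PowerSeries.map_X]
  have hx0 : ∀ j, MvPowerSeries.constantCoeff (MvPowerSeries.map (φ0 : κ →+* k) (x j)) = 0 := by
    intro j
    rw [MvPowerSeries.constantCoeff_map, hx j, map_zero]
  set S0 : Fin (N + 1) → (PowerSeries k)[X] := fun i => gstepB_mp φ1 (S i) with hS0def
  have hS0map : ∀ i, S0 i = (S i).map (PowerSeries.map (φ0 : κ →+* k)) := fun _ => rfl
  have hS0d : ∀ i, (S0 i).natDegree ≤ D' := fun i => by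
    rw [hS0map]
    exact natDegree_map_le.trans (hSd i)
  have hS0V : OnV D.V S0 := gstepB_onV_map (gstepB_mp φ1) hOnV
  have hu0 : IsUnit (MvPowerSeries.map (φ0 : κ →+* k) u : W k) :=
    hu.map (MvPowerSeries.map (φ0 : κ →+* k))
  have hSu0 : ∀ i, theta k k (S0 i) * MvPowerSeries.map (φ0 : κ →+* k) u =
      WP k ^ b0 * hv d (fun m => ev k k (fun j => MvPowerSeries.map (φ0 : κ →+* k) (x j)) hx0
        ((F i).coeff m)) (WP k ^ M) (WQ k ^ M) := fun i =>
    gstepD_hSu φ0 x hx hx0 u S hSu i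
  have hth : ∀ i, theta k k (S0 i) = MvPowerSeries.map (φ0 : κ →+* k) (theta k κ (S i)) :=
    fun i => (theta_map k κ k φ0 (S i)).symm
  obtain ⟨μ', hμ', M', hcert'⟩ := open_cert D hy hv' h.deg hμ hcert
    (fun j => MvPowerSeries.map (φ0 : κ →+* k) (x j)) hx0 _ hu0 hε S0 hS0d hS0V hSu0
    (fun i => gstepE_ol φ0 (Y i)) (fun i => gstepE_ol φ0 (Z i))
    (fun i => ⟨gstepE_nonpos φ0 (hY i).1, gstepE_const φ0 (hY i).2.1, by
      rw [hth, gstepE_toOut, (hY i).2.2, gstepE_C_TT]⟩)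
    (fun i => ⟨gstepE_nonpos φ0 (hZ i).1, gstepE_const φ0 (hZ i).2.1, by
      rw [hth, gstepE_toInn, (hZ i).2.2, gstepE_X_pow]⟩)
  -- the sections
  obtain ⟨g, ω0, η', hω0, hη', hgd, hgT, hgl0, hglj, hgg⟩ := gstepE_sections D φ1
    (fun j => gstepB_ps (δ0 j))
    (fun j f g => gstepB_ps_mul (φ0 : κ →+* k) (δ0 j) (hδ0 j) f g)
    (fun j a => by
      ext m
      rw [gstepB_coeff_ps, PowerSeries.algebraMap_apply, PowerSeries.coeff_C]
      split_ifs
      · rw [hδ0k, map_zero]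
      · rw [map_zero, map_zero])
    fy.l hD' S hSd hOnV hν (q1 := PowerSeries.X ^ b1) (v := v)
    (fun j => by
      ext m
      rw [gstepB_coeff_ps, PowerSeries.coeff_X_pow]
      split_ifs
      · have h1 := hδ0k j 1
        rw [map_one] at h1
        rw [h1, map_zero]
      · rw [map_zero, map_zero])
    hS0 hω hl0 (q2 := fun j => PowerSeries.X ^ s * PowerSeries.C (e j))
    (η := PowerSeries.X ^ s) (pow_ne_zero _ PowerSeries.X_ne_zero)
    (fun j => by
      rw [hφ1_apply, map_mul, PowerSeries.map_C]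
      have h1 : (φ0 : κ →+* k) (e j) = 0 := he j
      rw [h1, map_zero, mul_zero])
    (fun i j => by
      ext m
      rw [gstepB_coeff_ps, PowerSeries.coeff_X_pow_mul', PowerSeries.coeff_C]
      split_ifs with h1 h2 h3 h4
      · rw [he', if_pos h3, PowerSeries.coeff_X_pow, if_pos (by omega)]
      · rw [he', if_neg h3, map_zero]
      · rw [map_zero, PowerSeries.coeff_X_pow, if_neg (by omega)]
      · rw [map_zero, map_zero]
      · rw [map_zero, PowerSeries.coeff_X_pow, if_neg (by omega)]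
      · rw [map_zero, map_zero])
    hlj
  -- the marks
  have hγ : ∀ l, ∃ γ : k, γ ^ (2 * M) * cm l = 1 := by
    intro l
    obtain ⟨z, hz⟩ := IsAlgClosed.exists_pow_nat_eq ((cm l)⁻¹) (n := 2 * M) (by omega)
    exact ⟨z, by rw [hz, inv_mul_cancel₀ (hcm0 l)]⟩
  choose γ hγ using hγ
  have hγinj : Function.Injective γ := by
    intro l l' hll
    apply hcm
    have h1 := hγ l
    have h2 := hγ l'
    rw [hll] at h1
    have h3 : γ l' ^ (2 * M) ≠ 0 := left_ne_zero_of_mul_eq_one h2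
    exact mul_left_cancel₀ h3 (h1.trans h2.symm)
  have hγ0 : ∀ l, γ l ≠ 0 := by
    intro l h0
    have h1 := hγ l
    rw [h0, zero_pow (by omega), zero_mul] at h1
    exact zero_ne_one h1
  set sq := gstepB_sq k with hsq
  have hsqi : Function.Injective sq := gstepB_sq_injective k
  have hsq0 : ∀ f, f ≠ 0 → sq f ≠ 0 := fun f hf h0 => hf (hsqi (by rw [h0, map_zero]))
  refine ⟨D', fun i => gstepB_mp sq (S0 i), γ, fun j i => gstepB_mp sq (g j i), hD', hγinj, hγ0,
    ⟨?_, ?_, ?_⟩, ⟨?_, ?_, ?_, ?_⟩, ?_, ?_⟩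
  · intro i
    rw [gstepB_mp_apply]
    exact natDegree_map_le.trans (hS0d i)
  · exact gstepB_onV_map (gstepB_mp sq) hS0V
  · exact ⟨sq μ', hsq0 _ hμ', M', gstepB_cert_map D sq hcert'⟩
  · intro j i
    rw [gstepB_mp_apply]
    exact natDegree_map_le.trans_lt (hgd j i)
  · intro j
    exact gstepB_tang_map (gstepB_mp sq) (hgT j)
  · intro j l
    exact l.elim0
  · refine gstepB_indep fy.l (fun i => (gstepB_mp sq (S0 i)).coeff D')
      (fun j i => (gstepB_mp sq (g j i)).coeff (D' - 1)) (hsq0 _ hω0) (hsq0 _ hη') ?_ ?_ ?_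
    · simp only [gstepE_mp_coeff]
      rw [gstepB_lin_map sq (fy.l 0) (fun i => (S0 i).coeff D')]
      exact congrArg sq hgl0
    · intro j
      simp only [gstepE_mp_coeff]
      rw [gstepB_lin_map sq (fy.l j.succ) (fun i => (S0 i).coeff D')]
      exact (congrArg sq (hglj j)).trans (map_zero sq)
    · intro i j
      simp only [gstepE_mp_coeff]
      rw [gstepB_lin_map sq (fy.l j.succ) (fun a => (g i a).coeff (D' - 1)), hgg]
      split_ifs
      · rfl
      · rw [map_zero]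
  · intro i j
    have h1 : ∀ i, (gstepB_mp sq (S0 i)).coeff 0 =
        sq (φ1 (PowerSeries.X ^ b1 * ν)) * algebraMap k (PowerSeries k) (v i) := by
      intro i
      rw [gstepE_mp_coeff, hS0def]
      simp only [gstepE_mp_coeff]
      rw [hS0, map_mul φ1, map_mul sq, AlgHom.commutes, AlgHom.commutes]
    simp only [h1]
    ring
  · intro l
    exact mark_glue k hM h.deg (fun j => MvPowerSeries.map (φ0 : κ →+* k) (x j)) hx0 _ hu0 S0
      hSu0 (γ l) (cm l) (hγ l) (vs l) (hFm l) sq (gstepB_coeff_sq k)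

/-- **the second half of the induction step** -/
theorem gstep_after [IsAlgClosed k] (D : VData k N n c) {w : ℕ} (vs : Fin w → Fin (N + 1) → k)
    {y v : Fin (N + 1) → k} (hy : y ∈ D.V) (hv' : v ∈ D.V) (fy : FrameAt D y)
    (fv : FrameAt D v) {d : ℕ} {F : Fin (N + 1) → (MvPowerSeries (Fin (n + n)) (PowerSeries k))[X]}
    {α : Fin (N + 1) → PowerSeries k} {t ρ0 ρ1 : PowerSeries k} (h : GIn D fy fv d F α t ρ0 ρ1)
    {cm : Fin w → k} (hcm : Function.Injective cm) (hcm0 : ∀ l, cm l ≠ 0)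
    (hFm : ∀ l, Prop' (vs l) (fun i => (F i).eval (algebraMap k _ (cm l))))
    {μ : PowerSeries k} (hμ : μ ≠ 0) {M0 : ℕ} (hcert : Cert D d F (MvPowerSeries.C μ) M0) :
    ∃ (d : ℕ) (S : Fin (N + 1) → (PowerSeries k)[X]) (γ : Fin w → k)
      (g : Fin n → Fin (N + 1) → (PowerSeries k)[X]),
      0 < d ∧ Function.Injective γ ∧ (∀ l, γ l ≠ 0) ∧ Curve D d S ∧
      Sec D d S (Fin.elim0 : Fin 0 → k) g ∧
      Prop' v (fun i => (S i).coeff 0) ∧
      ∀ l, Prop' (vs l) (fun i => (S i).eval (PowerSeries.C (γ l) * PowerSeries.X)) :=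
  gstepD_main (κ := GDn k n) D vs hy hv' fy fv h hcm hcm0 hFm hμ hcert (gstepB_fst k n)
    (gstepB_snd k n) (gstepB_snd_mul k n) (gstepB_snd_algebraMap k n)
    (fun j => TrivSqZeroExt.inr (Pi.single j 1)) (fun _ => rfl)
    (fun i j => by
      change (Pi.single j (1 : k) : Fin n → k) i = _
      rw [Pi.single_apply])

end Pool.Agent.VFF
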