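import Pool.Agent.Lib_MP_1858fb_f.GStepA
import Pool.Agent.Lib_MP_1858fb_f.GStepD

/-! # MP_1858fb_ag, line F: F-GSTEP, the glued curve -/

set_option autoImplicit false

namespace Pool.Agent.VFF

open Pool.Agent.VF Polynomial

variable {k : Type} [Field k] {N n c : ℕ}

/-- [F-GSTEP] the glued curve over `k((x))`, `q = x ^ 2` -/
theorem glued_curve [IsAlgClosed k] (D : VData k N n c) {w : ℕ} (vs : Fin w → Fin (N + 1) → k)
    (hvs : ∀ l, vs l ∈ D.V) (h : HasCurve D vs) {v : Fin (N + 1) → k} (hv : v ∈ D.V) :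
    ∃ (d : ℕ) (S : Fin (N + 1) → (PowerSeries k)[X]) (γ : Fin w → k)
      (g : Fin n → Fin (N + 1) → (PowerSeries k)[X]),
      0 < d ∧ Function.Injective γ ∧ (∀ l, γ l ≠ 0) ∧ Curve D d S ∧
      Sec D d S (Fin.elim0 : Fin 0 → k) g ∧
      Prop' v (fun i => (S i).coeff 0) ∧
      ∀ l, Prop' (vs l) (fun i => (S i).eval (PowerSeries.C (γ l) * PowerSeries.X)) := by
  obtain ⟨y, hy, fy, fv, d, F, α, t, ρ0, ρ1, cm, μ, M, hG, hcm, hcm0, hμ, hc, hm⟩ :=
    gstep_before D vs hvs h hv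
  exact gstep_after D vs hy hv fy fv hG hcm hcm0 hm hμ hc

end Pool.Agent.VFF
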