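import Pool.Agent.Lib_MP_1858fb_f.GInDef
import Pool.Agent.Lib_MP_1858fb_f.CoverF
import Pool.Agent.Lib_MP_1858fb_f.FrameEx
import Pool.Agent.Lib_MP_1858fb_f.FrameDef
import Pool.Agent.Lib_MP_1858fb_f.FD
import Pool.Agent.Lib_MP_1858fb_f.CertDef
import Pool.Agent.Lib_MP_1858fb_f.ExR

/-! # MP_1858fb_ag, line F: F-GSTEP, first half: from a curve through the points `vs` to the input
of the gluing -/

set_option autoImplicit false

namespace Pool.Agent.VFF

open Pool.Agent.VF Polynomial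

variable {k : Type} [Field k] {N n c : ℕ}

/-- the value at `x` of a curve over a `k`-algebra satisfies the equations -/
theorem gstepA_eval {A : Type} [CommRing A] [Algebra k A] (f : Fin (N + 1) → A[X])
    (E : MvPolynomial (Fin (N + 1)) k) (x : A) :
    (MvPolynomial.aeval f E).eval x = MvPolynomial.aeval (fun i => (f i).eval x) E := by
  rw [← Polynomial.coe_evalRingHom, MvPolynomial.map_aeval, MvPolynomial.aeval_def,
    MvPolynomial.coe_eval₂Hom]
  congr 1
  ext a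
  simp [Polynomial.algebraMap_apply]

/-- the start of a curve over `k` is a point of `V` -/
theorem gstepA_start {D : VData k N n c} {d : ℕ} {R : Fin (N + 1) → k[X]}
    (hR : Curve D d R) : (fun i => (R i).coeff 0) ∈ D.V := by
  have h0 : (fun i => (R i).coeff 0) = fun i => (R i).eval 0 :=
    funext fun i => Polynomial.coeff_zero_eq_eval_zero _
  rw [h0, D.mem_iff]
  refine ⟨fun E hE => ?_, ?_⟩
  · rw [← gstepA_eval, hR.onV E hE, eval_zero]
  · obtain ⟨μ, hμ, M, hM⟩ := hR.cert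
    obtain ⟨A, -, hA⟩ := hM 0 (Nat.zero_le _)
    by_contra hcon
    push Not at hcon
    apply hμ
    have h1 := congrArg (Polynomial.eval 0) hA
    rw [eval_finsetSum] at h1
    simp only [eval_mul, gstepA_eval, hcon, mul_zero, Finset.sum_const_zero, pow_zero, mul_one,
      eval_C] at h1
    exact h1.symm

/-- **F-GSTEP, before the gluing.** -/
theorem gstep_before [IsAlgClosed k] (D : VData k N n c) {w : ℕ} (vs : Fin w → Fin (N + 1) → k)
    (hvs : ∀ l, vs l ∈ D.V) (h : HasCurve D vs) {v : Fin (N + 1) → k} (hv : v ∈ D.V) :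
    ∃ (y : Fin (N + 1) → k) (_ : y ∈ D.V) (fy : FrameAt D y) (fv : FrameAt D v) (d : ℕ)
      (F : Fin (N + 1) → (MvPowerSeries (Fin (n + n)) (PowerSeries k))[X])
      (α : Fin (N + 1) → PowerSeries k) (t ρ0 ρ1 : PowerSeries k) (cm : Fin w → k)
      (μ : PowerSeries k) (M : ℕ), GIn D fy fv d F α t ρ0 ρ1 ∧ Function.Injective cm ∧
      (∀ l, cm l ≠ 0) ∧ μ ≠ 0 ∧ Cert D d F (MvPowerSeries.C μ) M ∧
      ∀ l, Prop' (vs l) (fun i => (F i).eval (algebraMap k _ (cm l))) := by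
  classical
  obtain ⟨d, hd, R, cm, hcm, hcm0, hR, hRm, g, hg⟩ := exists_cover D vs h
  obtain ⟨fv⟩ := exists_frameAt D hv
  obtain ⟨α, R', ρ0, ρ1, g', hα, hα0, hα1, hR', hg', hρ0, hρ1, hR0, hR1, hRm'⟩ :=
    exists_arc_curve D hR cm hcm hcm0 vs hvs hRm hg hv fv
  have hy := gstepA_start hR
  obtain ⟨fy⟩ := exists_frameAt D hy
  have hfr := frame_deform D fv (A := k) α hα0
  obtain ⟨μ, hμ, M, hM⟩ := hR'.cert
  have ht0 : ρ0 * ρ1 * μ ≠ 0 := mul_ne_zero (mul_ne_zero hρ0 hρ1) hμ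
  obtain ⟨t, ht, htd, F, hFd, hFV, hFR, hFm, hF0, hF1, hF2⟩ :=
    fd_int D hR' cm hcm hcm0 vs hvs hRm' hg' hy fy ρ0 hρ0 hR0 α ρ1 hρ1 hR1 fv.l fv.E hα1
      (1 : PowerSeries k) one_ne_zero hfr (p := n + n)
      (fun j q => if q = Fin.castAdd n j then 1 else 0)
      (fun j q => if q = Fin.natAdd n j then 1 else 0) _ ht0
  have hcert : Cert D d F (MvPowerSeries.C μ) M :=
    cert_deform D hμ hM t ((dvd_mul_left _ _).trans htd) F hFd hR'.deg hFR
  have hsumA : ∀ j : Fin n, (∑ q : Fin (n + n), MvPowerSeries.C (algebraMap k (PowerSeries k)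
      (if q = Fin.castAdd n j then 1 else 0)) * MvPowerSeries.X q :
        MvPowerSeries (Fin (n + n)) (PowerSeries k)) = MvPowerSeries.X (Fin.castAdd n j) := by
    intro j
    rw [Finset.sum_eq_single (Fin.castAdd n j)]
    · rw [if_pos rfl, map_one, map_one, one_mul]
    · intro b _ hb
      rw [if_neg hb, map_zero, map_zero, zero_mul]
    · intro h'
      exact absurd (Finset.mem_univ _) h'
  have hsumB : ∀ j : Fin n, (∑ q : Fin (n + n), MvPowerSeries.C (algebraMap k (PowerSeries k)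
      (if q = Fin.natAdd n j then 1 else 0)) * MvPowerSeries.X q :
        MvPowerSeries (Fin (n + n)) (PowerSeries k)) = MvPowerSeries.X (Fin.natAdd n j) := by
    intro j
    rw [Finset.sum_eq_single (Fin.natAdd n j)]
    · rw [if_pos rfl, map_one, map_one, one_mul]
    · intro b _ hb
      rw [if_neg hb, map_zero, map_zero, zero_mul]
    · intro h'
      exact absurd (Finset.mem_univ _) h'
  have htρ0 : ρ0 ∣ t := (Dvd.intro _ (mul_assoc ρ0 ρ1 μ).symm).trans htd
  have htρ1 : ρ1 ∣ t := ((Dvd.intro_left _ rfl : ρ1 ∣ ρ0 * ρ1).mul_right μ).trans htd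
  refine ⟨_, hy, fy, fv, d, F, α, t, ρ0, ρ1, cm, μ, M, ?_, hcm, hcm0, hμ, hcert, hFm⟩
  exact {
    hd := hd
    ht := ht
    hρ0 := hρ0
    hρ1 := hρ1
    deg := hFd
    onV := hFV
    hα := hα
    hα0 := hα0
    hα1 := hα1
    z0 := hF0
    z1 := fun j => by rw [hF1 j, hsumA]
    z2 := fun i => by
      obtain ⟨Δ, hΔ0, hΔ⟩ := hFR i 0
      obtain ⟨t', ht'⟩ := htρ0
      refine ⟨MvPowerSeries.C t' * Δ, by rw [map_mul, hΔ0, mul_zero], ?_⟩
      rw [hΔ, hR0 i, ht', map_mul, map_mul]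
      ring
    i1 := fun j => by rw [hF2 j, hsumB]
    i2 := fun i => by
      obtain ⟨Δ, hΔ0, hΔ⟩ := hFR i d
      obtain ⟨t', ht'⟩ := htρ1
      refine ⟨MvPowerSeries.C t' * Δ, by rw [map_mul, hΔ0, mul_zero], ?_⟩
      rw [hΔ, hR1 i, ht', map_mul, map_mul]
      ring }

end Pool.Agent.VFF
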