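import Pool.Agent.Lib_MP_1858fb_f.FDefs
import Pool.Agent.Lib_MP_1858fb_f.GDefs
import Pool.Agent.Lib_MP_1858fb_f.Dual
import Pool.Agent.Lib_MP_1858fb_f.Data

/-! # MP_1858fb_ag, line F: F-GSTEP, second half, auxiliary lemmas -/

set_option autoImplicit false

namespace Pool.Agent.VFF

open Pool.Agent.VF Polynomial

section Deriv

variable {A B : Type} [CommRing A] [CommRing B]

/-- a derivation along a ring homomorphism, on power series -/
noncomputable def gstepB_ps (δ : A →+ B) : PowerSeries A →+ PowerSeries B where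
  toFun f := PowerSeries.mk fun m => δ (PowerSeries.coeff m f)
  map_zero' := by
    ext m
    simp
  map_add' f g := by
    ext m
    simp

theorem gstepB_coeff_ps (δ : A →+ B) (f : PowerSeries A) (m : ℕ) :
    PowerSeries.coeff m (gstepB_ps δ f) = δ (PowerSeries.coeff m f) := by
  simp [gstepB_ps]

theorem gstepB_ps_mul (φ : A →+* B) (δ : A →+ B) (hδ : ∀ f g, δ (f * g) = φ f * δ g + φ g * δ f)
    (f g : PowerSeries A) : gstepB_ps δ (f * g) =
      PowerSeries.map φ f * gstepB_ps δ g + PowerSeries.map φ g * gstepB_ps δ f := by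
  ext m
  rw [gstepB_coeff_ps, PowerSeries.coeff_mul, map_sum, mul_comm (PowerSeries.map φ g), map_add,
    PowerSeries.coeff_mul, PowerSeries.coeff_mul, ← Finset.sum_add_distrib]
  refine Finset.sum_congr rfl fun p _ => ?_
  rw [hδ, PowerSeries.coeff_map, PowerSeries.coeff_map, gstepB_coeff_ps, gstepB_coeff_ps]
  ring

theorem gstepB_aux (δ : A →+ B) (f : A[X]) (m : ℕ) :
    (∑ i ∈ f.support, monomial i (δ (f.coeff i))).coeff m = δ (f.coeff m) := by
  classical
  simp only [finsetSum_coeff, coeff_monomial, Finset.sum_ite_eq', mem_support_iff]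
  by_cases ha : f.coeff m = 0
  · simp [ha]
  · simp [ha]

/-- a derivation along a ring homomorphism, on polynomials -/
noncomputable def gstepB_pol (δ : A →+ B) : A[X] →+ B[X] where
  toFun f := ∑ i ∈ f.support, monomial i (δ (f.coeff i))
  map_zero' := by simp
  map_add' f g := by
    ext m
    rw [coeff_add, gstepB_aux, gstepB_aux, gstepB_aux, coeff_add, map_add]

theorem gstepB_coeff_pol (δ : A →+ B) (f : A[X]) (m : ℕ) :
    (gstepB_pol δ f).coeff m = δ (f.coeff m) :=
  gstepB_aux δ f m

theorem gstepB_pol_mul (φ : A →+* B) (δ : A →+ B) (hδ : ∀ f g, δ (f * g) = φ f * δ g + φ g * δ f)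
    (f g : A[X]) : gstepB_pol δ (f * g) =
      f.map φ * gstepB_pol δ g + g.map φ * gstepB_pol δ f := by
  ext m
  rw [gstepB_coeff_pol, coeff_mul, map_sum, mul_comm (g.map φ), coeff_add,
    coeff_mul, coeff_mul, ← Finset.sum_add_distrib]
  refine Finset.sum_congr rfl fun p _ => ?_
  rw [hδ, coeff_map, coeff_map, gstepB_coeff_pol, gstepB_coeff_pol]
  ring

theorem gstepB_pol_natDegree (δ : A →+ B) {f : A[X]} {d : ℕ} (h : f.natDegree ≤ d) :
    (gstepB_pol δ f).natDegree ≤ d := by
  rw [natDegree_le_iff_coeff_eq_zero]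
  intro m hm
  rw [gstepB_coeff_pol, coeff_eq_zero_of_natDegree_lt (h.trans_lt hm), map_zero]

end Deriv

section Scale

variable {k : Type} [Field k] {N n c : ℕ}

theorem gstepB_aeval_scale {A : Type} [CommRing A] [Algebra k A] (x : Fin (N + 1) → A) (a : A)
    {E : MvPolynomial (Fin (N + 1)) k} {e : ℕ} (hE : E.IsHomogeneous e) :
    MvPolynomial.aeval (fun i => a * x i) E = a ^ e * MvPolynomial.aeval x E := by
  rw [MvPolynomial.aeval_def, MvPolynomial.aeval_def, MvPolynomial.eval₂_eq,
    MvPolynomial.eval₂_eq, Finset.mul_sum]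
  refine Finset.sum_congr rfl fun m hm => ?_
  have h1 : ∏ i ∈ m.support, (a * x i) ^ m i = a ^ e * ∏ i ∈ m.support, x i ^ m i := by
    simp only [mul_pow]
    rw [Finset.prod_mul_distrib, Finset.prod_pow_eq_pow_sum]
    congr 2
    have h2 := hE (MvPolynomial.mem_support_iff.1 hm)
    rw [← h2]
    simp [Finsupp.weight_apply, Finsupp.sum]
  rw [h1]
  ring

/-- `OnV` is invariant under scaling -/
theorem gstepB_onV_scale (D : VData k N n c) {A : Type} [CommRing A] [Algebra k A]
    {x : Fin (N + 1) → A} (hx : OnV D.V x) (a : A) : OnV D.V (fun i => a * x i) := by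
  intro E hE
  rw [← MvPolynomial.sum_homogeneousComponent E, map_sum]
  refine Finset.sum_eq_zero fun e _ => ?_
  rw [gstepB_aeval_scale x a (MvPolynomial.homogeneousComponent_isHomogeneous e E),
    hx _ (D.hom E hE e), mul_zero]

theorem gstepB_onV_of_unit (D : VData k N n c) {A : Type} [CommRing A] [Algebra k A]
    {x : Fin (N + 1) → A} {u : A} (hu : IsUnit u) (hx : OnV D.V (fun i => x i * u)) :
    OnV D.V x := by
  obtain ⟨u', hu'⟩ := hu.exists_right_inv
  have h := gstepB_onV_scale D hx u'
  have e : (fun i => u' * (x i * u)) = x := by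
    funext i
    linear_combination x i * hu'
  rwa [e] at h

theorem gstepB_onV_map {V : Set (Fin (N + 1) → k)} {A B : Type} [CommRing A] [CommRing B]
    [Algebra k A] [Algebra k B] (φ : A →ₐ[k] B) {x : Fin (N + 1) → A} (hx : OnV V x) :
    OnV V (fun i => φ (x i)) := by
  intro E hE
  rw [dual_aeval, hx E hE, map_zero]

theorem gstepB_onV_of_inj {V : Set (Fin (N + 1) → k)} {A B : Type} [CommRing A] [CommRing B]
    [Algebra k A] [Algebra k B] (φ : A →ₐ[k] B) (hφ : Function.Injective φ)
    {x : Fin (N + 1) → A} (hx : OnV V (fun i => φ (x i))) : OnV V x := by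
  intro E hE
  apply hφ
  rw [← dual_aeval, hx E hE, map_zero]

theorem gstepB_dif_map {A B : Type} [CommRing A] [CommRing B] [Algebra k A] [Algebra k B]
    (φ : A →ₐ[k] B) (E : MvPolynomial (Fin (N + 1)) k) (x w : Fin (N + 1) → A) :
    dif E (fun i => φ (x i)) (fun i => φ (w i)) = φ (dif E x w) := by
  unfold dif
  rw [map_sum]
  refine Finset.sum_congr rfl fun j _ => ?_
  rw [map_mul, dual_aeval]

theorem gstepB_tang_map {V : Set (Fin (N + 1) → k)} {A B : Type} [CommRing A] [CommRing B]
    [Algebra k A] [Algebra k B] (φ : A →ₐ[k] B) {x w : Fin (N + 1) → A} (h : Tang V x w) :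
    Tang V (fun i => φ (x i)) (fun i => φ (w i)) := by
  intro E hE
  rw [gstepB_dif_map, h E hE, map_zero]

theorem gstepB_dif_sub {A : Type} [CommRing A] [Algebra k A]
    (E : MvPolynomial (Fin (N + 1)) k) (x w w' : Fin (N + 1) → A) (a : A) :
    dif E x (fun i => w i - a * w' i) = dif E x w - a * dif E x w' := by
  unfold dif
  rw [Finset.mul_sum, ← Finset.sum_sub_distrib]
  exact Finset.sum_congr rfl fun j _ => by ring

theorem gstepB_dif_smul {A : Type} [CommRing A] [Algebra k A]
    (E : MvPolynomial (Fin (N + 1)) k) (x w : Fin (N + 1) → A) (a : A) :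
    dif E x (fun i => a * w i) = a * dif E x w := by
  unfold dif
  rw [Finset.mul_sum]
  exact Finset.sum_congr rfl fun j _ => by ring

theorem gstepB_lin_map {A B : Type} [CommRing A] [CommRing B] [Algebra k A] [Algebra k B]
    (φ : A →ₐ[k] B) (l : Fin (N + 1) → k) (x : Fin (N + 1) → A) :
    lin l (fun i => φ (x i)) = φ (lin l x) := by
  unfold lin
  rw [map_sum]
  refine Finset.sum_congr rfl fun i _ => ?_
  rw [map_mul, AlgHom.commutes]

theorem gstepB_prop_map {A B : Type} [CommRing A] [CommRing B] [Algebra k A] [Algebra k B]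
    (φ : A →ₐ[k] B) {v : Fin (N + 1) → k} {x : Fin (N + 1) → A} (h : Prop' v x) :
    Prop' v (fun i => φ (x i)) := by
  intro i j
  have h1 := congrArg φ (h i j)
  rw [map_mul, map_mul, AlgHom.commutes, AlgHom.commutes] at h1
  exact h1

/-- image of a polynomial tuple under a homomorphism of the coefficients -/
noncomputable abbrev gstepB_mp {A B : Type} [CommRing A] [CommRing B] [Algebra k A]
    [Algebra k B] (φ : A →ₐ[k] B) : A[X] →ₐ[k] B[X] := Polynomial.mapAlgHom φ

theorem gstepB_mp_apply {A B : Type} [CommRing A] [CommRing B] [Algebra k A]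
    [Algebra k B] (φ : A →ₐ[k] B) (p : A[X]) : gstepB_mp φ p = p.map (φ : A →+* B) := rfl

theorem gstepB_cert_map (D : VData k N n c) {A B : Type} [CommRing A] [CommRing B] [Algebra k A]
    [Algebra k B] (φ : A →ₐ[k] B) {d : ℕ} {R : Fin (N + 1) → A[X]} {μ : A} {M : ℕ}
    (h : Cert D d R μ M) : Cert D d (fun i => gstepB_mp φ (R i)) (φ μ) M := by
  intro i hi
  obtain ⟨T, hT, hs⟩ := h i hi
  refine ⟨fun l => gstepB_mp φ (T l), ?_, ?_⟩
  · intro l hl
    have h0 : T l ≠ 0 := by
      intro h0
      apply hl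
      simp only [h0, map_zero]
    refine le_trans ?_ (hT l h0)
    have h1 : (gstepB_mp φ (T l)).natDegree ≤ (T l).natDegree := by
      rw [gstepB_mp_apply]
      exact natDegree_map_le
    exact Nat.add_le_add_right h1 _
  · have h1 := congrArg (gstepB_mp φ) hs
    rw [map_sum] at h1
    have h2 : gstepB_mp φ (C μ * X ^ i) = C (φ μ) * X ^ i := by
      rw [gstepB_mp_apply]
      simp
    rw [h2] at h1
    rw [← h1]
    refine Finset.sum_congr rfl fun l _ => ?_
    rw [map_mul, dual_aeval]

/-- linear independence from a triangular system of linear forms -/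
theorem gstepB_indep {A : Type} [CommRing A] [IsDomain A] [Algebra k A]
    (l : Fin (n + 1) → Fin (N + 1) → k) (v0 : Fin (N + 1) → A) (v : Fin n → Fin (N + 1) → A)
    {ω η : A} (hω : ω ≠ 0) (hη : η ≠ 0) (h0 : lin (l 0) v0 = ω)
    (h1 : ∀ j : Fin n, lin (l j.succ) v0 = 0)
    (h2 : ∀ i j : Fin n, lin (l j.succ) (v i) = if i = j then η else 0) :
    LinearIndependent A (Fin.cons v0 v : Fin (n + 1) → Fin (N + 1) → A) := by
  rw [Fintype.linearIndependent_iff]
  intro g hg
  have hlin : ∀ a : Fin (n + 1), g 0 * lin (l a) v0 + ∑ i : Fin n, g i.succ * lin (l a) (v i) = 0 := by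
    intro a
    have h3 : lin (l a) (∑ b, g b • (Fin.cons v0 v : Fin (n + 1) → Fin (N + 1) → A) b) =
        g 0 * lin (l a) v0 + ∑ i : Fin n, g i.succ * lin (l a) (v i) := by
      unfold lin
      simp only [Finset.sum_apply, Pi.smul_apply, smul_eq_mul, Fin.sum_univ_succ (n := n),
        Fin.cons_zero, Fin.cons_succ, mul_add, Finset.sum_add_distrib, Finset.mul_sum]
      congr 1
      · exact Finset.sum_congr rfl fun i _ => by ring
      · rw [Finset.sum_comm]
        exact Finset.sum_congr rfl fun i _ => Finset.sum_congr rfl fun j _ => by ring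
    rw [← h3, hg]
    simp [lin]
  have hs : ∀ j : Fin n, g j.succ = 0 := by
    intro j
    have h3 := hlin j.succ
    rw [h1, mul_zero, zero_add] at h3
    simp only [h2, mul_ite, mul_zero, Finset.sum_ite_eq', Finset.mem_univ, if_true] at h3
    exact (mul_eq_zero.1 h3).resolve_right hη
  have h00 : g 0 = 0 := by
    have h3 := hlin 0
    simp only [hs, zero_mul, Finset.sum_const_zero, add_zero, h0] at h3
    exact (mul_eq_zero.1 h3).resolve_right hω
  intro i
  refine Fin.cases h00 hs i

end Scale

section Dn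

variable (k : Type) [Field k] (n : ℕ)

/-- the dual numbers in `n` variables -/
abbrev GDn : Type := TrivSqZeroExt k (Fin n → k)

/-- the constant term -/
noncomputable def gstepB_fst : GDn k n →ₐ[k] k := TrivSqZeroExt.fstHom k k (Fin n → k)

/-- the coefficient of the `j`-th variable -/
def gstepB_snd (j : Fin n) : GDn k n →+ k where
  toFun x := x.snd j
  map_zero' := by simp
  map_add' x y := by simp

theorem gstepB_snd_mul (j : Fin n) (f g : GDn k n) : gstepB_snd k n j (f * g) =
    gstepB_fst k n f * gstepB_snd k n j g + gstepB_fst k n g * gstepB_snd k n j f := by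
  change (f * g).snd j = f.fst * g.snd j + g.fst * f.snd j
  rw [TrivSqZeroExt.snd_mul]
  simp

theorem gstepB_snd_algebraMap (j : Fin n) (a : k) :
    gstepB_snd k n j (algebraMap k (GDn k n) a) = 0 := by
  change (algebraMap k (GDn k n) a).snd j = 0
  rw [TrivSqZeroExt.algebraMap_eq_inl]
  simp

/-- the constant term on power series -/
noncomputable def gstepB_fst1 : PowerSeries (GDn k n) →ₐ[k] PowerSeries k :=
  PowerSeries.mapAlgHom (gstepB_fst k n)

theorem gstepB_fst1_apply (f : PowerSeries (GDn k n)) :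
    gstepB_fst1 k n f = PowerSeries.map (gstepB_fst k n : GDn k n →+* k) f := rfl

/-- the constant term on polynomials -/
noncomputable def gstepB_fst2 : (PowerSeries (GDn k n))[X] →ₐ[k] (PowerSeries k)[X] :=
  gstepB_mp (gstepB_fst1 k n)

theorem gstepB_fst2_apply (f : (PowerSeries (GDn k n))[X]) :
    gstepB_fst2 k n f = f.map (PowerSeries.map (gstepB_fst k n : GDn k n →+* k)) := rfl

/-- the coefficient of the `j`-th variable on power series -/
noncomputable def gstepB_snd1 (j : Fin n) : PowerSeries (GDn k n) →+ PowerSeries k :=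
  gstepB_ps (gstepB_snd k n j)

/-- the coefficient of the `j`-th variable on polynomials -/
noncomputable def gstepB_snd2 (j : Fin n) : (PowerSeries (GDn k n))[X] →+ (PowerSeries k)[X] :=
  gstepB_pol (gstepB_snd1 k n j)

theorem gstepB_snd1_mul (j : Fin n) (f g : PowerSeries (GDn k n)) :
    gstepB_snd1 k n j (f * g) =
      gstepB_fst1 k n f * gstepB_snd1 k n j g + gstepB_fst1 k n g * gstepB_snd1 k n j f :=
  gstepB_ps_mul (gstepB_fst k n : GDn k n →+* k) (gstepB_snd k n j) (gstepB_snd_mul k n j) f g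

theorem gstepB_snd2_mul (j : Fin n) (f g : (PowerSeries (GDn k n))[X]) :
    gstepB_snd2 k n j (f * g) =
      gstepB_fst2 k n f * gstepB_snd2 k n j g + gstepB_fst2 k n g * gstepB_snd2 k n j f :=
  gstepB_pol_mul (gstepB_fst1 k n : PowerSeries (GDn k n) →+* PowerSeries k)
    (gstepB_snd1 k n j) (gstepB_snd1_mul k n j) f g

theorem gstepB_snd1_C (j : Fin n) (a : GDn k n) :
    gstepB_snd1 k n j (PowerSeries.C a) = PowerSeries.C (gstepB_snd k n j a) := by
  ext m
  rw [gstepB_snd1, gstepB_coeff_ps, PowerSeries.coeff_C, PowerSeries.coeff_C]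
  split_ifs <;> simp

theorem gstepB_snd1_algebraMap (j : Fin n) (a : k) :
    gstepB_snd1 k n j (algebraMap k (PowerSeries (GDn k n)) a) = 0 := by
  have h : algebraMap k (PowerSeries (GDn k n)) a = PowerSeries.C (algebraMap k (GDn k n) a) := by
    rw [PowerSeries.algebraMap_apply]
  rw [h, gstepB_snd1_C, gstepB_snd_algebraMap, map_zero]

theorem gstepB_snd2_algebraMap (j : Fin n) (a : k) :
    gstepB_snd2 k n j (algebraMap k (PowerSeries (GDn k n))[X] a) = 0 := by
  ext1 m
  have h : algebraMap k (PowerSeries (GDn k n))[X] a =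
      C (algebraMap k (PowerSeries (GDn k n)) a) := rfl
  rw [gstepB_snd2, gstepB_coeff_pol, h, coeff_C]
  split_ifs
  · rw [gstepB_snd1_algebraMap, coeff_zero]
  · rw [map_zero, coeff_zero]

theorem gstepB_snd1_X_pow_mul (j : Fin n) (b : ℕ) (f : PowerSeries (GDn k n)) :
    gstepB_snd1 k n j (PowerSeries.X ^ b * f) = PowerSeries.X ^ b * gstepB_snd1 k n j f := by
  ext m
  rw [gstepB_snd1, gstepB_coeff_ps, PowerSeries.coeff_X_pow_mul', PowerSeries.coeff_X_pow_mul']
  split_ifs
  · rw [gstepB_coeff_ps]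
  · rw [map_zero]

/-- `x ↦ x ^ 2` on the power series -/
noncomputable def gstepB_sq : PowerSeries k →ₐ[k] PowerSeries k :=
  PowerSeries.expand 2 two_ne_zero

theorem gstepB_coeff_sq (g : PowerSeries k) (m : ℕ) : PowerSeries.coeff m (gstepB_sq k g) =
    if Even m then PowerSeries.coeff (m / 2) g else 0 := by
  rw [gstepB_sq, PowerSeries.coeff_expand]
  simp only [even_iff_two_dvd]

theorem gstepB_sq_injective : Function.Injective (gstepB_sq k) := by
  intro f g h
  ext m
  have h1 := congrArg (PowerSeries.coeff (2 * m)) h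
  rw [gstepB_coeff_sq, gstepB_coeff_sq] at h1
  simpa using h1

end Dn

end Pool.Agent.VFF
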