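import Pool.Agent.Lib_MP_1858fb_f.GDefs
import Pool.Agent.Lib_MP_1858fb_f.Circle

set_option autoImplicit false

/-!
# MP_1858fb_ag, line F, F-RING: toOut, toInn, serP, incP, incQ (first block of Stub2)
-/

namespace Pool.Agent.VFF

open Pool.Agent.VF Polynomial

section Aux

variable (κ : Type) [CommRing κ]

theorem Ring2.ij_eq_ex (i j : ℕ) : ij i j = ex i j := by
  ext x
  fin_cases x
  · simp [ij, ex_zero]
  · simp [ij, ex_one]

theorem Ring2.eq_ij (e : Fin 2 →₀ ℕ) : e = ij (e 1) (e 0) := by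
  rw [Ring2.ij_eq_ex]
  exact eq_ex e

/-- `κ⟦P, Q⟧` as power series in `Q` over the power series in `P` -/
noncomputable def Ring2.equivPP : W κ ≃+* PowerSeries (PowerSeries κ) :=
  RingEquiv.ofBijective (toPP κ) (by
    constructor
    · intro w w' h
      ext e
      rw [eq_ex e, ← coeff_toPP, ← coeff_toPP, h]
    · intro g
      let w : MvPowerSeries (Fin 2) κ :=
        fun e => PowerSeries.coeff (e 1) (PowerSeries.coeff (e 0) g)
      have hw : ∀ e, MvPowerSeries.coeff e w =
          PowerSeries.coeff (e 1) (PowerSeries.coeff (e 0) g) := fun e => rfl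
      refine ⟨w, ?_⟩
      ext j i
      rw [coeff_toPP, hw, ex_zero, ex_one])

variable {κ}

theorem Ring2.coeff_symm (g : PowerSeries (PowerSeries κ)) (i j : ℕ) :
    MvPowerSeries.coeff (ij i j) ((Ring2.equivPP κ).symm g) =
      PowerSeries.coeff i (PowerSeries.coeff j g) := by
  rw [Ring2.ij_eq_ex, ← coeff_toPP]
  congr 2
  exact (Ring2.equivPP κ).apply_symm_apply g

theorem Ring2.ext_ij {f g : W κ}
    (h : ∀ i j, MvPowerSeries.coeff (ij i j) f = MvPowerSeries.coeff (ij i j) g) : f = g := by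
  ext e
  rw [Ring2.eq_ij e]
  exact h _ _

theorem Ring2.coeff_C_ij (a : κ) (i j : ℕ) :
    MvPowerSeries.coeff (ij i j) (MvPowerSeries.C a : W κ) = if i = 0 ∧ j = 0 then a else 0 := by
  rw [MvPowerSeries.coeff_C]
  have : ij i j = 0 ↔ i = 0 ∧ j = 0 := by
    constructor
    · intro h
      rw [Ring2.ij_eq_ex] at h
      constructor
      · rw [← ex_one i j, h]; rfl
      · rw [← ex_zero i j, h]; rfl
    · rintro ⟨rfl, rfl⟩
      simp [ij]
  by_cases h : i = 0 ∧ j = 0
  · rw [if_pos (this.2 h), if_pos h]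
  · rw [if_neg (fun h' => h (this.1 h')), if_neg h]

end Aux

variable (k : Type) [Field k] (κ : Type) [CommRing κ] [Algebra k κ] {N n c : ℕ}

theorem Ring2.algebraMap_OL (r : k) :
    algebraMap k (OL κ) r = PowerSeries.C (HahnSeries.C (algebraMap k κ r)) := by
  rw [PowerSeries.algebraMap_apply, HahnSeries.algebraMap_apply', PowerSeries.algebraMap_apply,
    HahnSeries.ofPowerSeries_C]

theorem Ring2.algebraMap_W (r : k) :
    algebraMap k (W κ) r = MvPowerSeries.C (algebraMap k κ r) := by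
  rw [MvPowerSeries.algebraMap_apply]

/-- [F-RING] outer circle: `P ↦ T`, `Q ↦ q T⁻¹` -/
noncomputable def toOut : W κ →ₐ[k] OL κ :=
  { toOO κ with
    commutes' := by
      intro r
      rw [Ring2.algebraMap_OL, Ring2.algebraMap_W]
      exact toOO_C _ }

theorem Ring2.toOut_apply (f : W κ) : toOut k κ f = toOO κ f := rfl

theorem coeff_toOut (f : W κ) (b : ℕ) (a : ℤ) :
    (PowerSeries.coeff b (toOut k κ f)).coeff a =
      if 0 ≤ a + b then MvPowerSeries.coeff (ij (a + b).toNat b) f else 0 := by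
  rw [Ring2.toOut_apply, coeff_toOO, Ring2.ij_eq_ex]

theorem toOut_P : toOut k κ (WP κ) = PowerSeries.C (TT κ 1) := toOO_X1

theorem toOut_Q : toOut k κ (WQ κ) = PowerSeries.X * PowerSeries.C (TT κ (-1)) := by
  rw [mul_comm]
  exact toOO_X0

/-- exchange of `P` and `Q` as a `k`-algebra isomorphism -/
noncomputable def Ring2.swk : W κ →ₐ[k] W κ :=
  ((sw κ : W κ ≃ₐ[κ] W κ) : W κ →ₐ[κ] W κ).restrictScalars k

theorem Ring2.coeff_swk (f : W κ) (i j : ℕ) :
    MvPowerSeries.coeff (ij i j) (Ring2.swk k κ f) = MvPowerSeries.coeff (ij j i) f := by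
  rw [Ring2.ij_eq_ex, Ring2.ij_eq_ex]
  exact coeff_sw f i j

theorem Ring2.swk_P : Ring2.swk k κ (WP κ) = WQ κ := by
  show MvPowerSeries.rename _ (MvPowerSeries.X 1) = MvPowerSeries.X 0
  rw [MvPowerSeries.rename_X]
  rfl

theorem Ring2.swk_Q : Ring2.swk k κ (WQ κ) = WP κ := by
  show MvPowerSeries.rename _ (MvPowerSeries.X 0) = MvPowerSeries.X 1
  rw [MvPowerSeries.rename_X]
  rfl

theorem Ring2.swk_swk (f : W κ) : Ring2.swk k κ (Ring2.swk k κ f) = f := by
  apply Ring2.ext_ij
  intro i j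
  rw [Ring2.coeff_swk, Ring2.coeff_swk]

/-- [F-RING] inner circle: `Q ↦ T`, `P ↦ q T⁻¹` -/
noncomputable def toInn : W κ →ₐ[k] OL κ := (toOut k κ).comp (Ring2.swk k κ)

theorem coeff_toInn (f : W κ) (b : ℕ) (a : ℤ) :
    (PowerSeries.coeff b (toInn k κ f)).coeff a =
      if 0 ≤ a + b then MvPowerSeries.coeff (ij b (a + b).toNat) f else 0 := by
  rw [toInn, AlgHom.comp_apply, coeff_toOut, Ring2.coeff_swk]

theorem toInn_Q : toInn k κ (WQ κ) = PowerSeries.C (TT κ 1) := by
  rw [toInn, AlgHom.comp_apply, Ring2.swk_Q, toOut_P]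

theorem toInn_P : toInn k κ (WP κ) = PowerSeries.X * PowerSeries.C (TT κ (-1)) := by
  rw [toInn, AlgHom.comp_apply, Ring2.swk_P, toOut_Q]

theorem toOut_injective : Function.Injective (toOut k κ) := toOO_injective

theorem toInn_injective : Function.Injective (toInn k κ) := by
  intro f g h
  have h1 : Ring2.swk k κ f = Ring2.swk k κ g := toOut_injective k κ h
  have h2 := congrArg (Ring2.swk k κ) h1
  rwa [Ring2.swk_swk, Ring2.swk_swk] at h2

/-- [F-RING] `g ↦ g(P)` -/
noncomputable def serP : PowerSeries k →ₐ[k] W κ :=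
  { ((Ring2.equivPP κ).symm : PowerSeries (PowerSeries κ) →+* W κ).comp
      ((PowerSeries.C (R := PowerSeries κ)).comp (PowerSeries.map (algebraMap k κ))) with
    commutes' := by
      intro r
      apply Ring2.ext_ij
      intro i j
      show MvPowerSeries.coeff (ij i j) ((Ring2.equivPP κ).symm (PowerSeries.C
        (PowerSeries.map (algebraMap k κ) (algebraMap k (PowerSeries k) r)))) = _
      rw [Ring2.coeff_symm, PowerSeries.coeff_C, Ring2.algebraMap_W, Ring2.coeff_C_ij,
        PowerSeries.algebraMap_apply, PowerSeries.map_C]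
      by_cases hj : j = 0
      · subst hj
        rw [if_pos rfl, PowerSeries.coeff_C]
        by_cases hi : i = 0
        · simp [hi]
        · simp [hi]
      · rw [if_neg hj, if_neg (fun h => hj h.2), map_zero] }

theorem coeff_serP (g : PowerSeries k) (i j : ℕ) :
    MvPowerSeries.coeff (ij i j) (serP k κ g) =
      if j = 0 then algebraMap k κ (PowerSeries.coeff i g) else 0 := by
  show MvPowerSeries.coeff (ij i j) ((Ring2.equivPP κ).symm (PowerSeries.C
    (PowerSeries.map (algebraMap k κ) g))) = _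
  rw [Ring2.coeff_symm, PowerSeries.coeff_C]
  split_ifs with h
  · rw [PowerSeries.coeff_map]
  · rw [map_zero]

/-- [F-RING] `κ⟦P⟧⟦q⟧ → κ⟦P, Q⟧`, `q ↦ P Q` -/
noncomputable def incP : PowerSeries (PowerSeries κ) →ₐ[k] W κ :=
  { ((Ring2.equivPP κ).symm : PowerSeries (PowerSeries κ) →+* W κ).comp
      (PowerSeries.rescale (PowerSeries.X : PowerSeries κ)) with
    commutes' := by
      intro r
      apply Ring2.ext_ij
      intro i j
      show MvPowerSeries.coeff (ij i j) ((Ring2.equivPP κ).symm (PowerSeries.rescale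
        (PowerSeries.X : PowerSeries κ) (algebraMap k (PowerSeries (PowerSeries κ)) r))) = _
      rw [Ring2.coeff_symm, PowerSeries.coeff_rescale, Ring2.algebraMap_W, Ring2.coeff_C_ij,
        PowerSeries.algebraMap_apply, PowerSeries.coeff_C, PowerSeries.algebraMap_apply]
      by_cases hj : j = 0
      · subst hj
        rw [if_pos rfl, pow_zero, one_mul, PowerSeries.coeff_C]
        by_cases hi : i = 0
        · simp [hi]
        · simp [hi]
      · rw [if_neg hj, if_neg (fun h => hj h.2), mul_zero, map_zero] }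

theorem coeff_incP (g : PowerSeries (PowerSeries κ)) (i j : ℕ) :
    MvPowerSeries.coeff (ij i j) (incP k κ g) =
      if j ≤ i then PowerSeries.coeff (i - j) (PowerSeries.coeff j g) else 0 := by
  show MvPowerSeries.coeff (ij i j) ((Ring2.equivPP κ).symm (PowerSeries.rescale
    (PowerSeries.X : PowerSeries κ) g)) = _
  rw [Ring2.coeff_symm, PowerSeries.coeff_rescale, PowerSeries.coeff_X_pow_mul']

theorem toOut_incP (g : PowerSeries (PowerSeries κ)) :
    toOut k κ (incP k κ g) = PowerSeries.map (HahnSeries.ofPowerSeries ℤ κ) g := by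
  ext b a
  rw [coeff_toOut, PowerSeries.coeff_map]
  rcases lt_or_ge a 0 with ha | ha
  · have h1 : (HahnSeries.ofPowerSeries ℤ κ (PowerSeries.coeff b g)).coeff a = 0 := by
      rw [HahnSeries.ofPowerSeries_apply]
      apply HahnSeries.embDomain_of_notMem_range
      rintro ⟨m, hm⟩
      rw [← hm] at ha
      exact absurd ha (not_lt.2 (Int.natCast_nonneg m))
    rw [h1]
    split_ifs with h
    · rw [coeff_incP, if_neg (by omega)]
    · rfl
  · obtain ⟨m, rfl⟩ := Int.eq_ofNat_of_zero_le ha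
    rw [HahnSeries.ofPowerSeries_apply_coeff, if_pos (by omega), coeff_incP, if_pos (by omega)]
    congr 2
    omega

/-- [F-RING] `κ⟦Q⟧⟦q⟧ → κ⟦P, Q⟧`, `q ↦ P Q` -/
noncomputable def incQ : PowerSeries (PowerSeries κ) →ₐ[k] W κ :=
  (Ring2.swk k κ).comp (incP k κ)

theorem coeff_incQ (g : PowerSeries (PowerSeries κ)) (i j : ℕ) :
    MvPowerSeries.coeff (ij i j) (incQ k κ g) =
      if i ≤ j then PowerSeries.coeff (j - i) (PowerSeries.coeff i g) else 0 := by
  rw [incQ, AlgHom.comp_apply, Ring2.coeff_swk, coeff_incP]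

theorem toInn_incQ (g : PowerSeries (PowerSeries κ)) :
    toInn k κ (incQ k κ g) = PowerSeries.map (HahnSeries.ofPowerSeries ℤ κ) g := by
  rw [toInn, incQ, AlgHom.comp_apply, AlgHom.comp_apply, Ring2.swk_swk, toOut_incP]

theorem toOut_map (κ' : Type) [CommRing κ'] [Algebra k κ'] (φ : κ →ₐ[k] κ') (f : W κ) (b : ℕ)
    (a : ℤ) : (PowerSeries.coeff b (toOut k κ' (MvPowerSeries.map (φ : κ →+* κ') f))).coeff a =
      φ ((PowerSeries.coeff b (toOut k κ f)).coeff a) := by
  rw [coeff_toOut, coeff_toOut]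
  split_ifs with h
  · rw [MvPowerSeries.coeff_map]
    rfl
  · rw [map_zero]

theorem toInn_map (κ' : Type) [CommRing κ'] [Algebra k κ'] (φ : κ →ₐ[k] κ') (f : W κ) (b : ℕ)
    (a : ℤ) : (PowerSeries.coeff b (toInn k κ' (MvPowerSeries.map (φ : κ →+* κ') f))).coeff a =
      φ ((PowerSeries.coeff b (toInn k κ f)).coeff a) := by
  rw [coeff_toInn, coeff_toInn]
  split_ifs with h
  · rw [MvPowerSeries.coeff_map]
    rfl
  · rw [map_zero]

end Pool.Agent.VFF
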