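import Pool.Agent.Lib_MP_1858fb_f.GDefs
import Pool.Agent.Lib_MP_1858fb_f.Ring2
import Pool.Agent.Lib_MP_1858fb_f.Theta2
import Pool.Agent.Lib_MP_1858fb_f.Ev

/-! # MP_1858fb_ag, line F: F-GSTEP, base change of the output of the gluing -/

set_option autoImplicit false

namespace Pool.Agent.VFF

open Pool.Agent.VF Polynomial

section

variable {k : Type} [Field k] {κ κ' : Type} [CommRing κ] [Algebra k κ] [CommRing κ']
  [Algebra k κ'] {N n c : ℕ}

/-- the map on the circles -/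
noncomputable def gstepC_ol (φ : κ →ₐ[k] κ') (f : OL κ) : OL κ' :=
  PowerSeries.mk fun b => (PowerSeries.coeff b f).map φ

theorem gstepC_coeff_ol (φ : κ →ₐ[k] κ') (f : OL κ) (b : ℕ) (a : ℤ) :
    (PowerSeries.coeff b (gstepC_ol φ f)).coeff a = φ ((PowerSeries.coeff b f).coeff a) := by
  rw [gstepC_ol, PowerSeries.coeff_mk, HahnSeries.map_coeff]

theorem gstepC_ol_ext {f g : OL κ}
    (h : ∀ (b : ℕ) (a : ℤ), (PowerSeries.coeff b f).coeff a = (PowerSeries.coeff b g).coeff a) :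
    f = g := by
  refine PowerSeries.ext fun b => HahnSeries.ext (funext fun a => h b a)

theorem gstepC_toOut (φ : κ →ₐ[k] κ') (f : W κ) :
    toOut k κ' (MvPowerSeries.map (φ : κ →+* κ') f) = gstepC_ol φ (toOut k κ f) :=
  gstepC_ol_ext fun b a => by rw [toOut_map, gstepC_coeff_ol]

theorem gstepC_toInn (φ : κ →ₐ[k] κ') (f : W κ) :
    toInn k κ' (MvPowerSeries.map (φ : κ →+* κ') f) = gstepC_ol φ (toInn k κ f) :=
  gstepC_ol_ext fun b a => by rw [toInn_map, gstepC_coeff_ol]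

theorem gstepC_ol_T (φ : κ →ₐ[k] κ') (a : ℤ) (f : OL κ) :
    gstepC_ol φ (PowerSeries.C (TT κ a) * f) = PowerSeries.C (TT κ' a) * gstepC_ol φ f :=
  gstepC_ol_ext fun b a' => by
    rw [gstepC_coeff_ol, PowerSeries.coeff_C_mul, PowerSeries.coeff_C_mul, TT, TT,
      HahnSeries.coeff_single_mul, HahnSeries.coeff_single_mul, gstepC_coeff_ol, map_mul, map_one]

theorem gstepC_ol_X (φ : κ →ₐ[k] κ') (m : ℕ) (f : OL κ) :
    gstepC_ol φ (PowerSeries.X ^ m * f) = PowerSeries.X ^ m * gstepC_ol φ f :=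
  gstepC_ol_ext fun b a => by
    rw [gstepC_coeff_ol, PowerSeries.coeff_X_pow_mul', PowerSeries.coeff_X_pow_mul']
    split_ifs
    · rw [gstepC_coeff_ol]
    · rw [HahnSeries.coeff_zero, HahnSeries.coeff_zero, map_zero]

theorem gstepC_nonPos (φ : κ →ₐ[k] κ') {f : OL κ} (hf : NonPos f) : NonPos (gstepC_ol φ f) := by
  intro b a ha
  rw [gstepC_coeff_ol, hf b a ha, map_zero]

theorem gstepC_algebraMap_coeff (y : k) (a : ℤ) :
    (algebraMap k (LaurentSeries κ) y).coeff a = if a = 0 then algebraMap k κ y else 0 := by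
  rw [HahnSeries.algebraMap_apply', PowerSeries.algebraMap_apply, HahnSeries.ofPowerSeries_C,
    HahnSeries.C_apply]
  by_cases h : a = 0
  · rw [if_pos h, h, HahnSeries.coeff_single_same]
  · rw [if_neg h, HahnSeries.coeff_single_of_ne h]

theorem gstepC_const (φ : κ →ₐ[k] κ') {f : OL κ} {y : k}
    (hf : PowerSeries.constantCoeff f = algebraMap k (LaurentSeries κ) y) :
    PowerSeries.constantCoeff (gstepC_ol φ f) = algebraMap k (LaurentSeries κ') y := by
  refine HahnSeries.ext (funext fun a => ?_)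
  rw [← PowerSeries.coeff_zero_eq_constantCoeff_apply, gstepC_coeff_ol,
    PowerSeries.coeff_zero_eq_constantCoeff_apply, hf, gstepC_algebraMap_coeff,
    gstepC_algebraMap_coeff]
  split_ifs
  · exact φ.commutes y
  · exact map_zero φ

theorem gstepC_hv {A B : Type} [CommRing A] [CommRing B] (ψ : A →+* B) (d : ℕ) (p : ℕ → A)
    (a b : A) : ψ (hv d p a b) = hv d (fun m => ψ (p m)) (ψ a) (ψ b) := by
  unfold hv
  rw [map_sum]
  refine Finset.sum_congr rfl fun m _ => ?_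
  rw [map_mul, map_mul, map_pow, map_pow]

theorem gstepC_WP (φ : κ →ₐ[k] κ') : MvPowerSeries.map (φ : κ →+* κ') (WP κ) = WP κ' := by
  rw [WP, WP, MvPowerSeries.map_X]

theorem gstepC_WQ (φ : κ →ₐ[k] κ') : MvPowerSeries.map (φ : κ →+* κ') (WQ κ) = WQ κ' := by
  rw [WQ, WQ, MvPowerSeries.map_X]

/-- **Base change of the output of the gluing.** -/
theorem gstepC_push (φ : κ →ₐ[k] κ') {d M b0 b1 D' p : ℕ}
    {F : Fin (N + 1) → (MvPowerSeries (Fin p) (PowerSeries k))[X]}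
    (x : Fin p → W κ) (hx : ∀ j, MvPowerSeries.constantCoeff (x j) = 0) (u : W κ)
    (hu : IsUnit u) {y v' : Fin (N + 1) → k} (S : Fin (N + 1) → (PowerSeries κ)[X])
    (hSu : ∀ i, theta k κ (S i) * u =
      WP κ ^ b0 * hv d (fun m => ev k κ x hx ((F i).coeff m)) (WP κ ^ M) (WQ κ ^ M))
    (Y Z : Fin (N + 1) → OL κ)
    (hY : ∀ i, NonPos (Y i) ∧ PowerSeries.constantCoeff (Y i) = algebraMap k _ (y i) ∧
      toOut k κ (theta k κ (S i)) = PowerSeries.C (TT κ D') * Y i)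
    (hZ : ∀ i, NonPos (Z i) ∧ PowerSeries.constantCoeff (Z i) = algebraMap k _ (v' i) ∧
      toInn k κ (theta k κ (S i)) = PowerSeries.X ^ b1 * Z i) :
    ∃ (x' : Fin p → W κ') (hx' : ∀ j, MvPowerSeries.constantCoeff (x' j) = 0) (u' : W κ')
      (Y' Z' : Fin (N + 1) → OL κ'), IsUnit u' ∧
      (∀ i, theta k κ' ((S i).map (PowerSeries.map (φ : κ →+* κ'))) * u' =
        WP κ' ^ b0 * hv d (fun m => ev k κ' x' hx' ((F i).coeff m)) (WP κ' ^ M) (WQ κ' ^ M)) ∧
      (∀ i, NonPos (Y' i) ∧ PowerSeries.constantCoeff (Y' i) = algebraMap k _ (y i) ∧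
        toOut k κ' (theta k κ' ((S i).map (PowerSeries.map (φ : κ →+* κ')))) =
          PowerSeries.C (TT κ' D') * Y' i) ∧
      (∀ i, NonPos (Z' i) ∧ PowerSeries.constantCoeff (Z' i) = algebraMap k _ (v' i) ∧
        toInn k κ' (theta k κ' ((S i).map (PowerSeries.map (φ : κ →+* κ')))) =
          PowerSeries.X ^ b1 * Z' i) := by
  have hx' : ∀ j, MvPowerSeries.constantCoeff (MvPowerSeries.map (φ : κ →+* κ') (x j)) = 0 := by
    intro j
    rw [← MvPowerSeries.coeff_zero_eq_constantCoeff_apply, MvPowerSeries.coeff_map,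
      MvPowerSeries.coeff_zero_eq_constantCoeff_apply, hx, map_zero]
  refine ⟨fun j => MvPowerSeries.map (φ : κ →+* κ') (x j), hx',
    MvPowerSeries.map (φ : κ →+* κ') u, fun i => gstepC_ol φ (Y i), fun i => gstepC_ol φ (Z i),
    hu.map _, fun i => ?_, fun i => ?_, fun i => ?_⟩
  · have h1 := congrArg (MvPowerSeries.map (φ : κ →+* κ')) (hSu i)
    rw [map_mul, theta_map, map_mul, map_pow, gstepC_WP, gstepC_hv, map_pow, map_pow, gstepC_WP,
      gstepC_WQ] at h1
    rw [h1]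
    simp only [ev_map k κ κ' φ x hx hx']
  · refine ⟨gstepC_nonPos φ (hY i).1, gstepC_const φ (hY i).2.1, ?_⟩
    rw [← theta_map, gstepC_toOut, (hY i).2.2, gstepC_ol_T]
  · refine ⟨gstepC_nonPos φ (hZ i).1, gstepC_const φ (hZ i).2.1, ?_⟩
    rw [← theta_map, gstepC_toInn, (hZ i).2.2, gstepC_ol_X]

end

end Pool.Agent.VFF
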