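import Pool.Agent.Lib_MP_1858fb_f.GStepB
import Pool.Agent.Lib_MP_1858fb_f.Ring2
import Pool.Agent.Lib_MP_1858fb_f.Theta2
import Pool.Agent.Lib_MP_1858fb_f.Ev
import Pool.Agent.Lib_MP_1858fb_f.Hv

/-! # MP_1858fb_ag, line F: F-GSTEP, second half -/

set_option autoImplicit false

namespace Pool.Agent.VFF

open Pool.Agent.VF Polynomial

section Circ

variable {k : Type} [Field k] {κ κ' : Type} [CommRing κ] [Algebra k κ] [CommRing κ']
  [Algebra k κ']

theorem gstepE_hv_map {A B : Type} [CommRing A] [CommRing B] (φ : A →+* B) (d : ℕ) (p : ℕ → A)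
    (a b : A) : φ (hv d p a b) = hv d (fun m => φ (p m)) (φ a) (φ b) := by
  unfold hv
  rw [map_sum]
  exact Finset.sum_congr rfl fun m _ => by rw [map_mul, map_mul, map_pow, map_pow]

/-- base change of the series on a circle -/
noncomputable def gstepE_ol (φ : κ →ₐ[k] κ') (f : OL κ) : OL κ' :=
  PowerSeries.mk fun b => HahnSeries.map (PowerSeries.coeff b f) φ

theorem gstepE_coeff_ol (φ : κ →ₐ[k] κ') (f : OL κ) (b : ℕ) (a : ℤ) :
    (PowerSeries.coeff b (gstepE_ol φ f)).coeff a = φ ((PowerSeries.coeff b f).coeff a) := by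
  rw [gstepE_ol, PowerSeries.coeff_mk]
  rfl

theorem gstepE_ol_ext {f g : OL κ} (h : ∀ (b : ℕ) (a : ℤ),
    (PowerSeries.coeff b f).coeff a = (PowerSeries.coeff b g).coeff a) : f = g := by
  ext b a
  exact h b a

theorem gstepE_nonpos (φ : κ →ₐ[k] κ') {f : OL κ} (h : NonPos f) : NonPos (gstepE_ol φ f) := by
  intro b a ha
  rw [gstepE_coeff_ol, h b a ha, map_zero]

theorem gstepE_algebraMap (κ : Type) [CommRing κ] [Algebra k κ] (y : k) :
    algebraMap k (LaurentSeries κ) y = HahnSeries.single 0 (algebraMap k κ y) := by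
  rw [HahnSeries.algebraMap_apply', PowerSeries.algebraMap_apply, HahnSeries.ofPowerSeries_C]
  rfl

theorem gstepE_const (φ : κ →ₐ[k] κ') {f : OL κ} {y : k}
    (h : PowerSeries.constantCoeff f = algebraMap k (LaurentSeries κ) y) :
    PowerSeries.constantCoeff (gstepE_ol φ f) = algebraMap k (LaurentSeries κ') y := by
  ext a
  rw [← PowerSeries.coeff_zero_eq_constantCoeff_apply, gstepE_coeff_ol,
    PowerSeries.coeff_zero_eq_constantCoeff_apply, h, gstepE_algebraMap, gstepE_algebraMap,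
    HahnSeries.coeff_single, HahnSeries.coeff_single]
  split_ifs <;> simp

theorem gstepE_C_TT (φ : κ →ₐ[k] κ') (D : ℤ) (f : OL κ) :
    gstepE_ol φ (PowerSeries.C (TT κ D) * f) = PowerSeries.C (TT κ' D) * gstepE_ol φ f := by
  refine gstepE_ol_ext fun b a => ?_
  rw [gstepE_coeff_ol, PowerSeries.coeff_C_mul, PowerSeries.coeff_C_mul, TT, TT,
    HahnSeries.coeff_single_mul, HahnSeries.coeff_single_mul, gstepE_coeff_ol, one_mul, one_mul]

theorem gstepE_X_pow (φ : κ →ₐ[k] κ') (n : ℕ) (f : OL κ) :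
    gstepE_ol φ (PowerSeries.X ^ n * f) = PowerSeries.X ^ n * gstepE_ol φ f := by
  refine gstepE_ol_ext fun b a => ?_
  rw [gstepE_coeff_ol, PowerSeries.coeff_X_pow_mul', PowerSeries.coeff_X_pow_mul']
  split_ifs
  · rw [gstepE_coeff_ol]
  · simp

theorem gstepE_toOut (φ : κ →ₐ[k] κ') (f : W κ) :
    toOut k κ' (MvPowerSeries.map (φ : κ →+* κ') f) = gstepE_ol φ (toOut k κ f) := by
  refine gstepE_ol_ext fun b a => ?_
  rw [gstepE_coeff_ol, coeff_toOut, coeff_toOut]
  split_ifs
  · rw [MvPowerSeries.coeff_map]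
    rfl
  · rw [map_zero]

theorem gstepE_toInn (φ : κ →ₐ[k] κ') (f : W κ) :
    toInn k κ' (MvPowerSeries.map (φ : κ →+* κ') f) = gstepE_ol φ (toInn k κ f) := by
  refine gstepE_ol_ext fun b a => ?_
  rw [gstepE_coeff_ol, coeff_toInn, coeff_toInn]
  split_ifs
  · rw [MvPowerSeries.coeff_map]
    rfl
  · rw [map_zero]

end Circ

section Sections

variable {k : Type} [Field k] {N n c : ℕ}

theorem gstepE_lin_snd {A B : Type} [CommRing A] [CommRing B] [Algebra k A] [Algebra k B]
    (φ : A →ₐ[k] B) (δ : A →+ B) (hδ : ∀ f g, δ (f * g) = φ f * δ g + φ g * δ f)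
    (hδk : ∀ a : k, δ (algebraMap k A a) = 0) (l : Fin (N + 1) → k) (x : Fin (N + 1) → A) :
    lin l (fun i => δ (x i)) = δ (lin l x) := by
  unfold lin
  rw [map_sum]
  refine Finset.sum_congr rfl fun i _ => ?_
  rw [hδ, hδk, mul_zero, add_zero, AlgHom.commutes]

theorem gstepE_mp_coeff {A B : Type} [CommRing A] [CommRing B] [Algebra k A] [Algebra k B]
    (φ : A →ₐ[k] B) (f : A[X]) (m : ℕ) : (gstepB_mp φ f).coeff m = φ (f.coeff m) := by
  rw [gstepB_mp_apply, coeff_map]
  rfl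

theorem gstepE_pol_algebraMap {A B : Type} [CommRing A] [CommRing B] [Algebra k A]
    (δ : A →+ B) (hδk : ∀ a : k, δ (algebraMap k A a) = 0) (a : k) :
    gstepB_pol δ (algebraMap k A[X] a) = 0 := by
  ext1 m
  have h : algebraMap k A[X] a = C (algebraMap k A a) := rfl
  rw [gstepB_coeff_pol, h, coeff_C]
  split_ifs
  · rw [hδk, coeff_zero]
  · rw [map_zero, coeff_zero]

/-- the sections from the derivations, over general rings -/
theorem gstepE_sections [IsAlgClosed k] (D : VData k N n c) {v : Fin (N + 1) → k}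
    {A B : Type} [CommRing A] [CommRing B] [IsDomain B] [Algebra k A] [Algebra k B]
    (φ : A →ₐ[k] B) (δ : Fin n → A →+ B)
    (hδ : ∀ j f g, δ j (f * g) = φ f * δ j g + φ g * δ j f)
    (hδk : ∀ j, ∀ a : k, δ j (algebraMap k A a) = 0)
    (l : Fin (n + 1) → Fin (N + 1) → k) {D' : ℕ} (hD' : 0 < D')
    (S : Fin (N + 1) → A[X]) (hSd : ∀ i, (S i).natDegree ≤ D')
    (hS : OnV D.V S) {ν ω q1 : A} (hν : IsUnit ν) (hq1 : ∀ j, δ j q1 = 0)
    (hS0 : ∀ i, (S i).coeff 0 = q1 * ν * algebraMap k A (v i))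
    (hω : IsUnit ω) (hl0 : lin (l 0) (fun i => (S i).coeff D') = ω)
    {q2 : Fin n → A} {η : B} (hη : η ≠ 0) (hq2 : ∀ j, φ (q2 j) = 0)
    (hq2' : ∀ i j, δ i (q2 j) = if i = j then η else 0)
    (hlj : ∀ j : Fin n, lin (l j.succ) (fun i => (S i).coeff D') = q2 j * ω) :
    ∃ (g : Fin n → Fin (N + 1) → B[X]) (ω0 η' : B), ω0 ≠ 0 ∧ η' ≠ 0 ∧
      (∀ j i, (g j i).natDegree < D') ∧
      (∀ j, Tang D.V (fun i => gstepB_mp φ (S i)) (g j)) ∧
      lin (l 0) (fun i => (gstepB_mp φ (S i)).coeff D') = ω0 ∧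
      (∀ j : Fin n, lin (l j.succ) (fun i => (gstepB_mp φ (S i)).coeff D') = 0) ∧
      (∀ i j : Fin n, lin (l j.succ) (fun a => (g i a).coeff (D' - 1)) =
        if i = j then η' else 0) := by
  have hV0 : OnV D.V (fun i => gstepB_mp φ (S i)) := gstepB_onV_map (gstepB_mp φ) hS
  have hT : ∀ j : Fin n, Tang D.V (fun i => gstepB_mp φ (S i))
      (fun i => gstepB_pol (δ j) (S i)) := fun j =>
    (dual_sections D.V (gstepB_mp φ) (gstepB_pol (δ j))
      (fun f g => gstepB_pol_mul (φ : A →+* B) (δ j) (hδ j) f g)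
      (gstepE_pol_algebraMap (δ j) (hδk j)) S hS).2
  have hν0 : IsUnit (φ ν) := hν.map φ
  have hω0 : IsUnit (φ ω) := hω.map φ
  obtain ⟨ν', hν'⟩ := hν0.exists_right_inv
  set a : Fin n → B := fun j => δ j ν * ν' with ha
  set P : Fin n → Fin (N + 1) → B[X] := fun j i =>
    gstepB_pol (δ j) (S i) - C (a j) * gstepB_mp φ (S i) with hP
  have hPd : ∀ j i, (P j i).natDegree ≤ D' := by
    intro j i
    have h1 : (gstepB_pol (δ j) (S i)).natDegree ≤ D' := gstepB_pol_natDegree (δ j) (hSd i)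
    have h2 : (C (a j) * gstepB_mp φ (S i)).natDegree ≤ D' := by
      refine (natDegree_C_mul_le _ _).trans ?_
      rw [gstepB_mp_apply]
      exact natDegree_map_le.trans (hSd i)
    exact (natDegree_sub_le _ _).trans (max_le h1 h2)
  have hP0 : ∀ j i, (P j i).coeff 0 = 0 := by
    intro j i
    simp only [hP, coeff_sub, coeff_C_mul, gstepB_coeff_pol, gstepE_mp_coeff, hS0]
    rw [hδ, hδ, hδk, hq1]
    simp only [map_mul, AlgHom.commutes, mul_zero, add_zero, zero_add]
    rw [ha]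
    linear_combination (-(φ q1 * algebraMap k B (v i) * δ j ν)) * hν'
  have hPX : ∀ j i, X * (P j i).divX = P j i := by
    intro j i
    have h1 := divX_mul_X_add (P j i)
    rw [hP0, C_0, add_zero] at h1
    rw [mul_comm]
    exact h1
  refine ⟨fun j i => (P j i).divX, φ ω, η * φ ω, hω0.ne_zero,
    mul_ne_zero hη hω0.ne_zero, ?_, ?_, ?_, ?_, ?_⟩
  · intro j i
    rw [natDegree_divX_eq_natDegree_tsub_one]
    have := hPd j i
    omega
  · intro j E hE
    have h1 : X * dif E (fun i => gstepB_mp φ (S i)) (fun i => (P j i).divX) = 0 := by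
      rw [← gstepB_dif_smul]
      simp only [hPX]
      have h2 := gstepB_dif_sub E (fun i => gstepB_mp φ (S i))
        (fun i => gstepB_pol (δ j) (S i)) (fun i => gstepB_mp φ (S i)) (C (a j))
      simp only [hP]
      rw [h2, hT j E hE, tang_self D hV0 E hE, mul_zero, sub_zero]
    exact (mul_eq_zero.1 h1).resolve_left X_ne_zero
  · simp only [gstepE_mp_coeff]
    rw [gstepB_lin_map φ (l 0) (fun i => (S i).coeff D'), hl0]
  · intro j
    simp only [gstepE_mp_coeff]
    rw [gstepB_lin_map φ (l j.succ) (fun i => (S i).coeff D'), hlj, map_mul, hq2, zero_mul]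
  · intro i j
    have h1 : ∀ b, ((P i b).divX).coeff (D' - 1) = δ i ((S b).coeff D') -
        a i * φ ((S b).coeff D') := by
      intro b
      rw [coeff_divX, Nat.sub_add_cancel hD']
      simp only [hP, coeff_sub, coeff_C_mul, gstepB_coeff_pol, gstepE_mp_coeff]
    have h2 : lin (l j.succ) (fun b => δ i ((S b).coeff D') -
        a i * φ ((S b).coeff D')) =
        lin (l j.succ) (fun b => δ i ((S b).coeff D')) -
        a i * lin (l j.succ) (fun b => φ ((S b).coeff D')) := by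
      unfold lin
      rw [Finset.mul_sum, ← Finset.sum_sub_distrib]
      exact Finset.sum_congr rfl fun b _ => by ring
    simp only [h1]
    rw [h2, gstepE_lin_snd φ (δ i) (hδ i) (hδk i) (l j.succ) (fun b => (S b).coeff D'),
      gstepB_lin_map φ (l j.succ) (fun b => (S b).coeff D'), hlj, hδ, map_mul, hq2, hq2']
    split_ifs <;> ring

end Sections

end Pool.Agent.VFF
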