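import Pool.Agent.Lib_MP_1858fb_f.GenInj
import Pool.Agent.Lib_MP_1858fb_f.FinishA

/-!
# MP_1858fb_ag, F-GEN: the generic point from the formal deformation
-/

set_option autoImplicit false

namespace Pool.Agent.VFF

open Pool.Agent.VF Polynomial

variable {k : Type} [Field k] {N n c : ℕ}

theorem genA_of_sol (D : VData k N n c) {d w M : ℕ} (cm : Fin w → k)
    (vs : Fin w → Fin (N + 1) → k) (y : Fin (N + 1) → k)
    (F : Fin (N + 1) → (MvPowerSeries (Fin n) k)[X]) (hdeg : ∀ i, (F i).natDegree ≤ d)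
    (hon : OnV D.V F)
    (hx0 : (fun i => MvPowerSeries.constantCoeff ((F i).coeff d)) ∈ D.V)
    (hind : LinearIndependent k
      (Fin.cons (fun i => MvPowerSeries.constantCoeff ((F i).coeff d))
      (fun j i => MvPowerSeries.coeff (Finsupp.single j 1) ((F i).coeff d)) :
        Fin (n + 1) → Fin (N + 1) → k))
    (hsol : ∀ (z : Fin (N + 1) → FractionRing (MvPowerSeries (Fin n) k))
      (u : FractionRing (MvPowerSeries (Fin n) k)), u ≠ 0 →
      (∀ i, algebraMap (MvPowerSeries (Fin n) k) (FractionRing (MvPowerSeries (Fin n) k))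
        ((F i).coeff d) = u * z i) →
      Sol D d cm vs y M (FractionRing (MvPowerSeries (Fin n) k)) z)
    (l0 : Fin (N + 1) → k) (hl0 : ∃ x ∈ D.V, lin l0 x ≠ 0)
    (b : MvPolynomial (Fin (N + 1)) k) (e : ℕ) (hb : b.IsHomogeneous e) (hbV : b ∉ van D.V) :
    ∃ (K : Type) (_ : Field K) (_ : Algebra k K) (z : Fin (N + 1) → K), OnV D.V z ∧
      lin l0 z = 1 ∧ MvPolynomial.aeval z b ≠ 0 ∧ Sol D d cm vs y M K z := by
  classical
  let A := MvPowerSeries (Fin n) k
  let K := FractionRing A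
  let Z : Fin (N + 1) → A := fun i => (F i).coeff d
  have hZV : OnV D.V Z := FinishA.onV_coeff D hdeg hon
  have hinj : ∀ {b : MvPolynomial (Fin (N + 1)) k} {e : ℕ}, b.IsHomogeneous e → b ∉ van D.V →
      MvPolynomial.aeval Z b ≠ 0 :=
    fun hb hbV hz => hbV (gen_inj D Z hZV hx0 hind hb hz)
  -- the linear form
  let L : MvPolynomial (Fin (N + 1)) k := ∑ i, MvPolynomial.C (l0 i) * MvPolynomial.X i
  have hL : L.IsHomogeneous 1 := by
    refine MvPolynomial.IsHomogeneous.sum _ _ _ fun i _ => ?_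
    have := (MvPolynomial.isHomogeneous_C (Fin (N + 1)) (l0 i)).mul
      (MvPolynomial.isHomogeneous_X k i)
    rwa [zero_add] at this
  have hLe : ∀ {B : Type} [CommRing B] [Algebra k B] (x : Fin (N + 1) → B),
      MvPolynomial.aeval x L = lin l0 x := by
    intro B _ _ x
    simp only [L, lin, map_sum, map_mul, MvPolynomial.aeval_C, MvPolynomial.aeval_X]
  have hLV : L ∉ van D.V := by
    intro h
    obtain ⟨x, hx, hne⟩ := hl0
    exact hne ((hLe x).symm.trans (h x hx))
  have hlam : lin l0 Z ≠ 0 := by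
    rw [← hLe]
    exact hinj hL hLV
  let ι : A →ₐ[k] K := IsScalarTower.toAlgHom k A K
  have hι : Function.Injective ι := IsFractionRing.injective A K
  set lam : K := ι (lin l0 Z) with hlamdef
  have hlam0 : lam ≠ 0 := by
    intro h
    apply hlam
    apply hι
    rw [map_zero]
    exact h
  let z : Fin (N + 1) → K := fun i => lam⁻¹ * ι (Z i)
  have hze : ∀ (E : MvPolynomial (Fin (N + 1)) k) (e : ℕ), E.IsHomogeneous e →
      MvPolynomial.aeval z E = lam⁻¹ ^ e * ι (MvPolynomial.aeval Z E) := by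
    intro E e hE
    change MvPolynomial.aeval (fun i => lam⁻¹ * ι (Z i)) E = _
    rw [genInj_aeval_smul _ _ hE]
    congr 1
    have h2 : (MvPolynomial.aeval (fun i => ι (Z i)) :
        MvPolynomial (Fin (N + 1)) k →ₐ[k] K) = ι.comp (MvPolynomial.aeval Z) := by
      apply MvPolynomial.algHom_ext
      intro i
      rw [AlgHom.comp_apply, MvPolynomial.aeval_X, MvPolynomial.aeval_X]
    rw [h2]
    rfl
  refine ⟨K, inferInstance, inferInstance, z, ?_, ?_, ?_, ?_⟩
  · refine FinishA.onV_of_hom D fun E hE e he => ?_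
    rw [hze E e he, hZV E hE, map_zero, mul_zero]
  · rw [← hLe, hze L 1 hL, hLe, pow_one, ← hlamdef, inv_mul_cancel₀ hlam0]
  · rw [hze b e hb]
    refine mul_ne_zero (pow_ne_zero _ (inv_ne_zero hlam0)) ?_
    intro h
    apply hinj hb hbV
    apply hι
    rw [h, map_zero]
  · refine hsol z lam hlam0 fun i => ?_
    change ι (Z i) = lam * (lam⁻¹ * ι (Z i))
    rw [← mul_assoc, mul_inv_cancel₀ hlam0, one_mul]

end Pool.Agent.VFF
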