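import Pool.Agent.Lib_MP_1858fb_f.ExRA

/-!
# MP_1858fb_ag, line F: the certificate over the fraction field, with factor `1`
-/

set_option autoImplicit false

namespace Pool.Agent.VFF

open Pool.Agent.VF Polynomial

variable {k : Type} [Field k] {N n c : ℕ}

theorem gencert_map (D : VData k N n c) {O K : Type} [CommRing O] [Algebra k O] [Field K]
    [Algebra k K] [Algebra O K] [IsScalarTower k O K]
    (hinj : Function.Injective (algebraMap O K)) {d : ℕ} {R : Fin (N + 1) → O[X]} {μ : O}
    (hμ : μ ≠ 0) {M : ℕ} (h : Cert D d R μ M) :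
    Cert D d (fun i => (R i).map (algebraMap O K)) (1 : K) M := by
  intro i hi
  obtain ⟨A, hA1, hA2⟩ := h i hi
  have hμK : algebraMap O K μ ≠ 0 := fun h => hμ (hinj (by rw [h, map_zero]))
  refine ⟨fun l => C (algebraMap O K μ)⁻¹ * (A l).map (algebraMap O K), fun l hl => ?_, ?_⟩
  · have h1 : A l ≠ 0 := by
      intro h
      apply hl
      change C (algebraMap O K μ)⁻¹ * (A l).map (algebraMap O K) = 0
      rw [h, Polynomial.map_zero, mul_zero]
    have h2 : (C (algebraMap O K μ)⁻¹ * (A l).map (algebraMap O K)).natDegree ≤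
        (A l).natDegree := (natDegree_C_mul_le _ _).trans natDegree_map_le
    exact (Nat.add_le_add_right h2 _).trans (hA1 l h1)
  · have h3 := congrArg (Polynomial.map (algebraMap O K)) hA2
    rw [Polynomial.map_sum, Polynomial.map_mul, Polynomial.map_C, Polynomial.map_pow,
      Polynomial.map_X] at h3
    have h4 : ∀ l, (C (algebraMap O K μ)⁻¹ * (A l).map (algebraMap O K)) *
        MvPolynomial.aeval (fun i => (R i).map (algebraMap O K)) (D.H l) =
        C (algebraMap O K μ)⁻¹ * (A l * MvPolynomial.aeval R (D.H l)).map (algebraMap O K) := by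
      intro l
      rw [Polynomial.map_mul, exr_map_aeval, mul_assoc]
    rw [Finset.sum_congr rfl fun l _ => h4 l, ← Finset.mul_sum, h3, ← mul_assoc, ← C_mul,
      inv_mul_cancel₀ hμK]

end Pool.Agent.VFF
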