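import Pool.Agent.Lib_MP_1858fb_f.GDefs
import Pool.Agent.Lib_MP_1858fb_w.Inj2
import Pool.Agent.Lib_MP_1858fb_v.Cotangent
import Pool.Agent.Lib_MP_1858fb_v.Inj

/-!
# MP_1858fb_ag, F-GEN: a formal parametrisation of `V` up to scalars satisfies no further equation
-/

set_option autoImplicit false

namespace Pool.Agent.VFF

open Pool.Agent.VF

section

variable {k : Type} [Field k] {N n c : ℕ}

theorem genInj_coeff_mul {σ : Type} (f g : MvPowerSeries σ k) (i : σ) :
    MvPowerSeries.coeff (Finsupp.single i 1) (f * g) =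
      MvPowerSeries.constantCoeff f * MvPowerSeries.coeff (Finsupp.single i 1) g +
      MvPowerSeries.coeff (Finsupp.single i 1) f * MvPowerSeries.constantCoeff g := by
  classical
  rw [MvPowerSeries.coeff_mul, Finsupp.antidiagonal_single]
  simp [Finset.Nat.antidiagonal_succ]

theorem genInj_single {σ : Type} {d : σ →₀ ℕ} (hd : d.degree = 1) :
    ∃ j, d = Finsupp.single j 1 := by
  classical
  have h1 : d ≠ 0 := by
    intro h
    rw [h, map_zero] at hd
    exact zero_ne_one hd
  obtain ⟨j, hj⟩ := Finsupp.ne_iff.1 h1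
  have hle : Finsupp.single j 1 ≤ d := by
    intro i
    by_cases hi : i = j
    · subst hi
      rw [Finsupp.single_eq_same]
      exact Nat.one_le_iff_ne_zero.2 hj
    · rw [Finsupp.single_eq_of_ne hi]
      exact Nat.zero_le _
  refine ⟨j, ?_⟩
  have h2 : d - Finsupp.single j 1 + Finsupp.single j 1 = d := tsub_add_cancel_of_le hle
  have h3 : (d - Finsupp.single j 1).degree = 0 := by
    have h4 := congrArg Finsupp.degree h2
    rw [map_add, Finsupp.degree_single, hd] at h4
    omega
  rw [Finsupp.degree_eq_zero_iff] at h3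
  rw [← h2, h3, zero_add]

theorem genInj_aeval_smul {σ : Type} {A : Type} [CommRing A] [Algebra k A] (u : A) (x : σ → A)
    {b : MvPolynomial σ k} {e : ℕ} (hb : b.IsHomogeneous e) :
    MvPolynomial.aeval (fun i => u * x i) b = u ^ e * MvPolynomial.aeval x b := by
  classical
  rw [MvPolynomial.aeval_def, MvPolynomial.eval₂_eq, MvPolynomial.aeval_def,
    MvPolynomial.eval₂_eq, Finset.mul_sum]
  refine Finset.sum_congr rfl fun s hs => ?_
  have h1 : s.degree = e := by
    have := hb (MvPolynomial.mem_support_iff.1 hs)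
    rw [← this, Finsupp.degree_eq_weight_one]
    rfl
  have h2 : ∏ i ∈ s.support, (u * x i) ^ s i = u ^ e * ∏ i ∈ s.support, x i ^ s i := by
    rw [← h1, Finsupp.degree_apply, ← Finset.prod_pow_eq_pow_sum, ← Finset.prod_mul_distrib]
    exact Finset.prod_congr rfl fun i _ => mul_pow _ _ _
  rw [h2]
  ring

/-- `n + 1` independent vectors have dual linear forms -/
theorem genInj_dual {κ ι : Type} [Fintype ι] [DecidableEq κ] (u : κ → ι → k)
    (hu : LinearIndependent k u) :
    ∃ a : κ → ι → k, ∀ i j, ∑ l, a i l * u j l = if i = j then 1 else 0 := by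
  classical
  have h1 : ∀ i : κ, ∃ φ : (ι → k) →ₗ[k] k, ∀ j, φ (u j) = if i = j then 1 else 0 := by
    intro i
    obtain ⟨φ, hφ⟩ := LinearMap.exists_extend
      ((Finsupp.lapply i).comp (hu.repr : _ →ₗ[k] (κ →₀ k)))
    refine ⟨φ, fun j => ?_⟩
    have h2 := LinearMap.congr_fun hφ ⟨u j, Submodule.subset_span ⟨j, rfl⟩⟩
    rw [LinearMap.comp_apply] at h2
    refine h2.trans ?_
    rw [LinearMap.comp_apply]
    have h3 : hu.repr ⟨u j, Submodule.subset_span ⟨j, rfl⟩⟩ = Finsupp.single j 1 :=
      hu.repr_eq_single j _ rfl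
    change (hu.repr ⟨u j, Submodule.subset_span ⟨j, rfl⟩⟩) i = _
    rw [h3, Finsupp.single_apply]
    by_cases h : i = j
    · rw [if_pos h, if_pos h.symm]
    · rw [if_neg h, if_neg (fun h' => h h'.symm)]
  choose φ hφ using h1
  refine ⟨fun i l => φ i (Pi.single l 1), fun i j => ?_⟩
  rw [← hφ i j]
  conv_rhs => rw [← Finset.univ_sum_single (u j), map_sum]
  refine Finset.sum_congr rfl fun l _ => ?_
  have h4 : (Pi.single l (u j l) : ι → k) = u j l • Pi.single l 1 := by
    rw [← Pi.single_smul, smul_eq_mul, mul_one]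
  rw [h4, map_smul, smul_eq_mul, mul_comm]

theorem gen_inj (D : VData k N n c) (Z : Fin (N + 1) → MvPowerSeries (Fin n) k)
    (hOn : OnV D.V Z) (hx0 : (fun i => MvPowerSeries.constantCoeff (Z i)) ∈ D.V)
    (hind : LinearIndependent k (Fin.cons (fun i => MvPowerSeries.constantCoeff (Z i))
      (fun j i => MvPowerSeries.coeff (Finsupp.single j 1) (Z i)) :
        Fin (n + 1) → Fin (N + 1) → k))
    {b : MvPolynomial (Fin (N + 1)) k} {e : ℕ} (hb : b.IsHomogeneous e)
    (hz : MvPolynomial.aeval Z b = 0) : b ∈ van D.V := by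
  classical
  set x0 : Fin (N + 1) → k := fun i => MvPowerSeries.constantCoeff (Z i) with hx0def
  let em : Fin n ↪ Fin (n + 1) := Fin.succEmb n
  let ρ : MvPowerSeries (Fin n) k →ₐ[k] MvPowerSeries (Fin (n + 1)) k :=
    MvPowerSeries.rename em
  let u : MvPowerSeries (Fin (n + 1)) k := 1 + MvPowerSeries.X 0
  let Ψ : Fin (N + 1) → MvPowerSeries (Fin (n + 1)) k := fun i => u * ρ (Z i)
  have hρ0 : ∀ f, MvPowerSeries.constantCoeff (ρ f) = MvPowerSeries.constantCoeff f :=
    fun f => MvPowerSeries.constantCoeff_rename _ f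
  have hρs : ∀ f (j : Fin n), MvPowerSeries.coeff (Finsupp.single j.succ 1) (ρ f) =
      MvPowerSeries.coeff (Finsupp.single j 1) f := by
    intro f j
    have h1 := MvPowerSeries.coeff_embDomain_rename em f (Finsupp.single j 1)
    rwa [Finsupp.embDomain_single] at h1
  have hρz : ∀ f, MvPowerSeries.coeff (Finsupp.single (0 : Fin (n + 1)) 1) (ρ f) = 0 := by
    intro f
    apply MvPowerSeries.coeff_rename_eq_zero
    rintro ⟨s, hs⟩
    have h1 := DFunLike.congr_fun hs 0
    rw [Finsupp.mapDomain_of_notMem_range _ _ (by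
      rintro ⟨j, hj⟩
      exact Fin.succ_ne_zero j hj), Finsupp.single_eq_same] at h1
    exact zero_ne_one h1
  have hu0 : MvPowerSeries.constantCoeff u = 1 := by simp [u]
  have hΨ0 : ∀ i, MvPowerSeries.constantCoeff (Ψ i) = x0 i := by
    intro i
    change MvPowerSeries.constantCoeff (u * ρ (Z i)) = x0 i
    rw [map_mul, hu0, one_mul, hρ0]
  have hlin : ∀ (j : Fin (n + 1)) i, MvPowerSeries.coeff (Finsupp.single j 1) (Ψ i) =
      (Fin.cons x0 (fun j i => MvPowerSeries.coeff (Finsupp.single j 1) (Z i)) :
        Fin (n + 1) → Fin (N + 1) → k) j i := by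
    intro j i
    change MvPowerSeries.coeff (Finsupp.single j 1) (u * ρ (Z i)) = _
    rw [genInj_coeff_mul, hu0, one_mul, hρ0]
    refine Fin.cases ?_ (fun j => ?_) j
    · rw [hρz, Fin.cons_zero, zero_add]
      simp [u, MvPowerSeries.coeff_one, hx0def]
    · rw [hρs, Fin.cons_succ]
      have h1 : MvPowerSeries.coeff (Finsupp.single j.succ 1) u = 0 := by
        change MvPowerSeries.coeff (Finsupp.single j.succ 1)
          (1 + MvPowerSeries.X 0 : MvPowerSeries (Fin (n + 1)) k) = 0
        rw [map_add, MvPowerSeries.coeff_one, MvPowerSeries.coeff_X, if_neg, if_neg, add_zero]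
        · intro h
          have := DFunLike.congr_fun h 0
          rw [Finsupp.single_eq_same, Finsupp.single_eq_of_ne (Fin.succ_ne_zero j).symm] at this
          exact zero_ne_one this
        · intro h
          have := DFunLike.congr_fun h j.succ
          rw [Finsupp.single_eq_same] at this
          exact one_ne_zero this
      rw [h1, zero_mul, add_zero]
  -- values of `Ψ`
  have hΨe : ∀ (E : MvPolynomial (Fin (N + 1)) k) (e : ℕ), E.IsHomogeneous e →
      MvPolynomial.aeval Ψ E = u ^ e * ρ (MvPolynomial.aeval Z E) := by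
    intro E e hE
    have h1 := genInj_aeval_smul u (fun i => ρ (Z i)) hE
    change MvPolynomial.aeval (fun i => u * ρ (Z i)) E = _
    rw [h1]
    congr 1
    have h2 : (MvPolynomial.aeval (fun i => ρ (Z i)) :
        MvPolynomial (Fin (N + 1)) k →ₐ[k] _) = ρ.comp (MvPolynomial.aeval Z) := by
      apply MvPolynomial.algHom_ext
      intro i
      rw [AlgHom.comp_apply, MvPolynomial.aeval_X, MvPolynomial.aeval_X]
    rw [h2]
    rfl
  have hΨV : ∀ E ∈ van D.V, MvPolynomial.aeval Ψ E = 0 := by
    intro E hE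
    rw [← MvPolynomial.sum_homogeneousComponent E, map_sum]
    refine Finset.sum_eq_zero fun i _ => ?_
    rw [hΨe _ i (MvPolynomial.homogeneousComponent_isHomogeneous i E),
      hOn _ (D.hom E hE i), map_zero, mul_zero]
  -- the coordinate ring
  have hprime : (van D.V).IsPrime := by
    constructor
    · intro htop
      have h1 : (1 : MvPolynomial (Fin (N + 1)) k) ∈ van D.V := (Ideal.eq_top_iff_one _).1 htop
      have h2 := h1 x0 hx0
      rw [map_one] at h2
      exact one_ne_zero h2
    · intro a b hab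
      exact D.irr.2 a b hab
  have hmV : ∀ G ∈ van D.V, (MvPolynomial.aeval x0 :
      MvPolynomial (Fin (N + 1)) k →ₐ[k] k) G = 0 := fun G hG => hG x0 hx0
  let A := MvPolynomial (Fin (N + 1)) k ⧸ van D.V
  have hdom : IsDomain A := Ideal.Quotient.isDomain _
  let φ : A →ₐ[k] MvPowerSeries (Fin (n + 1)) k :=
    Ideal.Quotient.liftₐ (van D.V) (MvPolynomial.aeval Ψ) hΨV
  let fm : A →ₐ[k] k := Ideal.Quotient.liftₐ (van D.V) (MvPolynomial.aeval x0) hmV
  have hφ : ∀ G, φ (Ideal.Quotient.mk _ G) = MvPolynomial.aeval Ψ G := fun G => rfl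
  have hfm : ∀ G, fm (Ideal.Quotient.mk _ G) = MvPolynomial.aeval x0 G := fun G => rfl
  have hc0 : ∀ a : A, MvPowerSeries.constantCoeff (φ a) = fm a := by
    intro a
    obtain ⟨G, rfl⟩ := Ideal.Quotient.mk_surjective a
    rw [hφ, hfm]
    induction G using MvPolynomial.induction_on with
    | C a =>
      rw [MvPolynomial.aeval_C, MvPolynomial.aeval_C, MvPowerSeries.algebraMap_apply]
      simp
    | add p q hp hq => rw [map_add, map_add, hp, hq, map_add]
    | mul_X p l hp =>
      rw [map_mul, map_mul, hp, MvPolynomial.aeval_X, hΨ0, map_mul, MvPolynomial.aeval_X]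
  have hspan : RingHom.ker fm = Ideal.span (Set.range fun i =>
      (Ideal.Quotient.mk (van D.V) (MvPolynomial.X i - MvPolynomial.C (x0 i)) : A)) := by
    apply le_antisymm
    · intro b hb
      obtain ⟨G, rfl⟩ := Ideal.Quotient.mk_surjective b
      rw [RingHom.mem_ker, hfm] at hb
      have h4 : G ∈ mAt x0 := mem_mAt_iff.2 hb
      have h5 := Ideal.mem_map_of_mem (Ideal.Quotient.mk (van D.V)) h4
      rw [mAt, Ideal.map_span] at h5
      have h6 : (Ideal.Quotient.mk (van D.V)) '' (Set.range fun l =>
          MvPolynomial.X l - MvPolynomial.C (x0 l)) =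
          Set.range fun i =>
            (Ideal.Quotient.mk (van D.V) (MvPolynomial.X i - MvPolynomial.C (x0 i)) : A) := by
        rw [← Set.range_comp]
        rfl
      rwa [h6] at h5
    · rw [Ideal.span_le]
      rintro _ ⟨i, rfl⟩
      change _ ∈ RingHom.ker fm
      rw [RingHom.mem_ker, hfm]
      simp
  obtain ⟨E, H, hE, hli, _, _⟩ := D.smooth x0 hx0
  have hmap : ∀ G ∈ (mAt x0) ^ 2, (Ideal.Quotient.mk (van D.V) G : A) ∈
      (RingHom.ker fm) ^ 2 := by
    intro G hG
    have h4 := Ideal.mem_map_of_mem (Ideal.Quotient.mk (van D.V)) hG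
    rw [Ideal.map_pow] at h4
    refine Ideal.pow_right_mono ?_ 2 h4
    rw [Ideal.map_le_iff_le_comap]
    intro G' hG'
    rw [Ideal.mem_comap, RingHom.mem_ker, hfm]
    exact mem_mAt_iff.1 hG'
  have hnc := D.hc
  obtain ⟨y, hy, hgen⟩ := _root_.VF.exists_generators (k := k) (m := RingHom.ker fm)
    (fun i => (Ideal.Quotient.mk (van D.V) (MvPolynomial.X i - MvPolynomial.C (x0 i)) : A)) hspan
    (c := c) (n := n + 1) (by rw [Fintype.card_fin]; omega)
    (fun j i => MvPolynomial.aeval x0 (MvPolynomial.pderiv i (E j))) hli (by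
      intro j
      have h4 := hmap _ (sub_linear_mem x0 (E j))
      have h5 : MvPolynomial.eval x0 (E j) = 0 := hE j x0 hx0
      rw [h5, map_zero, sub_zero, map_sub, Ideal.Quotient.eq_zero_iff_mem.2 (hE j), zero_sub] at h4
      have h6 := (RingHom.ker fm ^ 2).neg_mem h4
      rw [neg_neg, map_sum] at h6
      have h7 : (∑ i, algebraMap k A (MvPolynomial.aeval x0 (MvPolynomial.pderiv i (E j))) *
          (Ideal.Quotient.mk (van D.V) (MvPolynomial.X i - MvPolynomial.C (x0 i)) : A)) =
          ∑ i, Ideal.Quotient.mk (van D.V) (MvPolynomial.C (MvPolynomial.eval x0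
            (MvPolynomial.pderiv i (E j))) * (MvPolynomial.X i - MvPolynomial.C (x0 i))) := by
        refine Finset.sum_congr rfl fun i _ => ?_
        rw [map_mul]
        rfl
      rw [h7]
      exact h6)
  obtain ⟨a, ha⟩ := genInj_dual _ hind
  have hinj : Function.Injective φ := by
    refine _root_.VF.krull_inj (m := RingHom.ker fm) ?_ ?_ hy hgen ?_
    · intro b
      refine ⟨fm b, ?_⟩
      rw [RingHom.mem_ker, map_sub, AlgHom.commutes]
      exact sub_self _
    · intro b hb
      rw [hc0]
      exact hb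
    · intro i
      refine ⟨∑ l, algebraMap k A (a i l) *
        (Ideal.Quotient.mk (van D.V) (MvPolynomial.X l - MvPolynomial.C (x0 l)) : A), ?_, ?_⟩
      · refine Ideal.sum_mem _ fun l _ => Ideal.mul_mem_left _ _ ?_
        rw [RingHom.mem_ker, hfm]
        simp
      · have e1 : φ (∑ l, algebraMap k A (a i l) *
            (Ideal.Quotient.mk (van D.V) (MvPolynomial.X l - MvPolynomial.C (x0 l)) : A)) =
            ∑ l, MvPowerSeries.C (a i l) * (Ψ l - MvPowerSeries.C (x0 l)) := by
          rw [map_sum]
          refine Finset.sum_congr rfl fun l _ => ?_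
          rw [map_mul, AlgHom.commutes, hφ, map_sub, MvPolynomial.aeval_X, MvPolynomial.aeval_C]
          rfl
        rw [e1]
        refine MvPowerSeries.le_order fun d hd => ?_
        have hd2 : d.degree < 2 := by exact_mod_cast hd
        rcases Nat.lt_succ_iff_lt_or_eq.1 hd2 with hd3 | hd3
        · have hd4 : d = 0 := by
            rw [← Finsupp.degree_eq_zero_iff]
            omega
          subst hd4
          rw [MvPowerSeries.coeff_zero_eq_constantCoeff_apply, map_sub, map_sum]
          rw [MvPowerSeries.constantCoeff_X, sub_zero]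
          refine Finset.sum_eq_zero fun l _ => ?_
          rw [map_mul, map_sub, hΨ0, MvPowerSeries.constantCoeff_C,
            MvPowerSeries.constantCoeff_C, sub_self, mul_zero]
        · obtain ⟨j, rfl⟩ : ∃ j, d = Finsupp.single j 1 := genInj_single hd3
          rw [map_sub, map_sum]
          have e2 : ∀ l, MvPowerSeries.coeff (Finsupp.single j 1)
              (MvPowerSeries.C (a i l) * (Ψ l - MvPowerSeries.C (x0 l))) =
              a i l * (Fin.cons x0 (fun j i => MvPowerSeries.coeff (Finsupp.single j 1) (Z i)) :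
                Fin (n + 1) → Fin (N + 1) → k) j l := by
            intro l
            rw [MvPowerSeries.coeff_C_mul, map_sub, hlin, MvPowerSeries.coeff_C, if_neg, sub_zero]
            intro h
            have := DFunLike.congr_fun h j
            rw [Finsupp.single_eq_same] at this
            exact one_ne_zero this
          rw [Finset.sum_congr rfl fun l _ => e2 l, ha i j, MvPowerSeries.coeff_X]
          by_cases hij : i = j
          · subst hij
            rw [if_pos rfl, if_pos rfl, sub_self]
          · rw [if_neg hij, if_neg, sub_self]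
            intro h
            exact hij ((Finsupp.single_left_injective one_ne_zero h).symm)
  have hfin : φ (Ideal.Quotient.mk _ b) = φ 0 := by
    rw [hφ, hΨe b e hb, hz, map_zero, mul_zero, map_zero]
  exact Ideal.Quotient.eq_zero_iff_mem.1 (hinj hfin)

end

end Pool.Agent.VFF
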