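import Pool.Agent.Lib_MP_1858fb_f.GDefs
import Pool.Agent.Lib_MP_1858fb_f.ExRA
import Pool.Agent.Lib_MP_1858fb_s.Der

/-!
# MP_1858fb_ag, line F: the sections of the generic deformation (part of F-GEN)

`gen_sec`: the derivatives of the deformation `F` of the generic curve, divided by `X`, are the
sections over the fraction field of the ring of power series.
-/

set_option autoImplicit false

namespace Pool.Agent.VFF

open Pool.Agent.VF Pool.Agent.VFS Polynomial

variable {k : Type} [Field k] {N n c : ℕ}

theorem gensec_map_lin {A B : Type} [CommRing A] [Algebra k A] [CommRing B] [Algebra k B]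
    (φ : A →ₐ[k] B) (l : Fin (N + 1) → k) (x : Fin (N + 1) → A) :
    φ (lin l x) = lin l (fun i => φ (x i)) := by
  unfold lin
  rw [map_sum]
  refine Finset.sum_congr rfl fun i _ => ?_
  rw [map_mul, AlgHom.commutes]

theorem gensec_der_lin {A : Type} [CommRing A] [Algebra k A] (D : Derivation k A A)
    (l : Fin (N + 1) → k) (x : Fin (N + 1) → A) : D (lin l x) = lin l (fun i => D (x i)) := by
  unfold lin
  rw [map_sum]
  refine Finset.sum_congr rfl fun i _ => ?_
  rw [D.leibniz, D.map_algebraMap, smul_zero, add_zero, smul_eq_mul]

/-- The sections over the fraction field. -/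
theorem gen_sec (D : VData k N n c) {d w : ℕ} (hd : 0 < d)
    {F : Fin (N + 1) → (MvPowerSeries (Fin n) k)[X]} (hdeg : ∀ i, (F i).natDegree ≤ d)
    (hon : OnV D.V F) (y : Fin (N + 1) → k)
    (h0 : ∀ i, (F i).coeff 0 = algebraMap k (MvPowerSeries (Fin n) k) (y i))
    (cm : Fin w → k) (hcm0 : ∀ l, cm l ≠ 0) (vs : Fin w → Fin (N + 1) → k)
    (hvs : ∀ l, vs l ≠ 0)
    (hmk : ∀ l, Prop' (vs l)
      (fun i => (F i).eval (algebraMap k (MvPowerSeries (Fin n) k) (cm l))))
    (hne : ∀ l, ∃ i, (F i).eval (algebraMap k (MvPowerSeries (Fin n) k) (cm l)) ≠ 0)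
    (l : Fin (n + 1) → Fin (N + 1) → k) (t : k) (ht : t ≠ 0) (a : Fin n → k)
    (hlam : lin (l 0) (fun i => (F i).coeff d) ≠ 0)
    (hl : ∀ j : Fin n, lin (l j.succ) (fun i => (F i).coeff d) =
      (MvPowerSeries.C (a j) + MvPowerSeries.C (t ^ 2) * MvPowerSeries.X j) *
        lin (l 0) (fun i => (F i).coeff d))
    {K : Type} [Field K] [Algebra k K] [Algebra (MvPowerSeries (Fin n) k) K]
    [IsScalarTower k (MvPowerSeries (Fin n) k) K] [IsFractionRing (MvPowerSeries (Fin n) k) K] :
    ∃ g' : Fin n → Fin (N + 1) → K[X],
      Sec D d (fun i => (F i).map (algebraMap (MvPowerSeries (Fin n) k) K)) cm g' := by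
  classical
  let P := MvPowerSeries (Fin n) k
  have hPdom : IsDomain P := NoZeroDivisors.to_isDomain P
  have hinj : Function.Injective (algebraMap P K) := IsFractionRing.injective P K
  have htow : ∀ a : k, algebraMap P K (algebraMap k P a) = algebraMap k K a := fun a =>
    (IsScalarTower.algebraMap_apply k P K a).symm
  let DD : Fin n → Derivation k P P := fun q => MvPowerSeries.pderiv k q
  let G : Fin n → Fin (N + 1) → P[X] := fun q i => divX (coefD (DD q) (F i))
  have hG : ∀ q i, X * G q i = coefD (DD q) (F i) := by
    intro q i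
    have h1 := divX_mul_X_add (coefD (DD q) (F i))
    have h2 : (coefD (DD q) (F i)).coeff 0 = 0 := by
      rw [coeff_coefD, h0, Derivation.map_algebraMap]
    rw [h2, C_0, add_zero, mul_comm] at h1
    exact h1
  -- the factors at the marks
  have hS : ∀ l', ∃ S : P, S ≠ 0 ∧ ∀ i, (F i).eval (algebraMap k P (cm l')) =
      S * algebraMap k P (vs l' i) := by
    intro l'
    obtain ⟨j0, hj0⟩ := Function.ne_iff.1 (hvs l')
    rw [Pi.zero_apply] at hj0
    have h1 : ∀ i, (F i).eval (algebraMap k P (cm l')) =
        ((F j0).eval (algebraMap k P (cm l')) * algebraMap k P (vs l' j0)⁻¹) *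
          algebraMap k P (vs l' i) := by
      intro i
      have h2 := hmk l' i j0
      change (F i).eval _ * _ = (F j0).eval _ * _ at h2
      calc (F i).eval (algebraMap k P (cm l'))
          = (F i).eval (algebraMap k P (cm l')) * algebraMap k P (vs l' j0) *
              algebraMap k P (vs l' j0)⁻¹ := by
            rw [mul_assoc, ← map_mul, mul_inv_cancel₀ hj0, map_one, mul_one]
        _ = _ := by rw [h2]; ring
    refine ⟨_, ?_, h1⟩
    intro h
    obtain ⟨i, hi⟩ := hne l'
    apply hi
    rw [h1 i, h, zero_mul]
  choose S hS0 hS using hS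
  refine ⟨fun q i => (G q i).map (algebraMap P K), ⟨?_, ?_, ?_, ?_⟩⟩
  · -- degrees
    intro q i
    rw [Polynomial.natDegree_map_eq_of_injective hinj]
    change (divX (coefD (DD q) (F i))).natDegree < d
    rw [natDegree_divX_eq_natDegree_tsub_one]
    have h1 := (natDegree_coefD_le (DD q) (F i)).trans (hdeg i)
    omega
  · -- tangency
    intro q E hE
    have h1 : dif E F (G q) = 0 := by
      have h2 : X * dif E F (G q) = 0 := by
        have h3 := der_aeval_eq_zero (coefD (DD q)) F E (hon E hE)
        rw [← h3]
        unfold dif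
        rw [Finset.mul_sum]
        refine Finset.sum_congr rfl fun i _ => ?_
        rw [← hG]
        ring
      exact (mul_eq_zero.1 h2).resolve_left X_ne_zero
    rw [← exr_map_dif, h1, Polynomial.map_zero]
  · -- values at the marks
    intro q l'
    refine ⟨algebraMap P K (DD q (S l')) * (algebraMap P K (S l'))⁻¹ *
      (algebraMap k K (cm l'))⁻¹, fun i => ?_⟩
    have hSK : algebraMap P K (S l') ≠ 0 := fun h => hS0 l' (hinj (by rw [h, map_zero]))
    have hcK : algebraMap k K (cm l') ≠ 0 := fun h =>
      hcm0 l' ((algebraMap k K).injective (by rw [h, map_zero]))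
    have h1 : algebraMap k P (cm l') * (G q i).eval (algebraMap k P (cm l')) =
        DD q (S l') * algebraMap k P (vs l' i) := by
      have h2 := congrArg (Polynomial.eval (algebraMap k P (cm l'))) (hG q i)
      rw [eval_mul, eval_X, eval_coefD, hS l' i, Derivation.leibniz, Derivation.map_algebraMap,
        smul_zero, zero_add, smul_eq_mul] at h2
      rw [h2, mul_comm]
    have h3 := congrArg (algebraMap P K) h1
    rw [map_mul, map_mul, htow, htow] at h3
    have h4 : ((F i).map (algebraMap P K)).eval (algebraMap k K (cm l')) =
        algebraMap P K (S l') * algebraMap k K (vs l' i) := by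
      rw [← htow, eval_map_apply, hS l' i, map_mul, htow]
    have h5 : ((G q i).map (algebraMap P K)).eval (algebraMap k K (cm l')) =
        algebraMap P K ((G q i).eval (algebraMap k P (cm l'))) := by
      rw [← htow, eval_map_apply]
    change ((G q i).map (algebraMap P K)).eval (algebraMap k K (cm l')) = _ *
      ((F i).map (algebraMap P K)).eval (algebraMap k K (cm l'))
    rw [h4, h5]
    field_simp
    rw [mul_comm] at h3
    exact h3
  · -- independence
    rw [Fintype.linearIndependent_iff]
    intro x hx
    rw [Fin.sum_univ_succ] at hx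
    simp only [Fin.cons_zero, Fin.cons_succ] at hx
    -- coefficients
    have hcF : ∀ i, ((F i).map (algebraMap P K)).coeff d = algebraMap P K ((F i).coeff d) :=
      fun i => coeff_map _ _
    have hcG : ∀ q i, ((G q i).map (algebraMap P K)).coeff (d - 1) =
        algebraMap P K (DD q ((F i).coeff d)) := by
      intro q i
      rw [coeff_map]
      change algebraMap P K ((divX (coefD (DD q) (F i))).coeff (d - 1)) = _
      rw [coeff_divX, coeff_coefD, Nat.sub_add_cancel hd]
    -- apply a linear form
    have hlin : ∀ l' : Fin (N + 1) → k, x 0 * algebraMap P K (lin l' (fun i => (F i).coeff d)) +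
        ∑ q, x q.succ * algebraMap P K (DD q (lin l' (fun i => (F i).coeff d))) = 0 := by
      intro l'
      have h1 : ∀ i, x 0 * algebraMap P K ((F i).coeff d) +
          ∑ q, x q.succ * algebraMap P K (DD q ((F i).coeff d)) = 0 := by
        intro i
        have h2 := congrFun hx i
        rw [Pi.add_apply, Pi.smul_apply, Finset.sum_apply, smul_eq_mul, hcF, Pi.zero_apply] at h2
        rw [← h2]
        congr 1
        refine Finset.sum_congr rfl fun q _ => ?_
        rw [Pi.smul_apply, smul_eq_mul, hcG]
      have h3 : ∑ i, algebraMap k K (l' i) * (x 0 * algebraMap P K ((F i).coeff d) +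
          ∑ q, x q.succ * algebraMap P K (DD q ((F i).coeff d))) = 0 :=
        Finset.sum_eq_zero fun i _ => by rw [h1 i, mul_zero]
      rw [← h3]
      simp only [mul_add, Finset.sum_add_distrib]
      congr 1
      · unfold lin
        rw [map_sum, Finset.mul_sum]
        refine Finset.sum_congr rfl fun i _ => ?_
        rw [map_mul, htow]
        ring
      · simp only [gensec_der_lin]
        unfold lin
        simp only [map_sum, Finset.mul_sum]
        rw [Finset.sum_comm]
        refine Finset.sum_congr rfl fun i _ => Finset.sum_congr rfl fun q _ => ?_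
        rw [map_mul, htow]
        ring
    have hlam0 := hlin (l 0)
    have hx1 : ∀ j : Fin n, x j.succ = 0 := by
      intro j
      have h1 := hlin (l j.succ)
      rw [hl j] at h1
      have h2 : ∀ q, DD q ((MvPowerSeries.C (a j) + MvPowerSeries.C (t ^ 2) *
          MvPowerSeries.X j) * lin (l 0) (fun i => (F i).coeff d)) =
          (MvPowerSeries.C (a j) + MvPowerSeries.C (t ^ 2) * MvPowerSeries.X j) *
            DD q (lin (l 0) (fun i => (F i).coeff d)) +
          (if q = j then MvPowerSeries.C (t ^ 2) * lin (l 0) (fun i => (F i).coeff d) else 0) := by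
        intro q
        change MvPowerSeries.pderiv k q _ = _ * MvPowerSeries.pderiv k q _ + _
        rw [Derivation.leibniz, map_add, MvPowerSeries.pderiv_C, zero_add, Derivation.leibniz,
          MvPowerSeries.pderiv_C, smul_zero, add_zero]
        simp only [smul_eq_mul]
        congr 1
        by_cases hq : q = j
        · subst hq
          rw [if_pos rfl, MvPowerSeries.pderiv_X_self]
          ring
        · rw [if_neg hq, MvPowerSeries.pderiv_X_of_ne (fun h => hq h.symm)]
          ring
      simp only [h2, map_add, map_mul, mul_add, Finset.sum_add_distrib] at h1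
      have h3 : ∑ q, x q.succ * algebraMap P K (if q = j then MvPowerSeries.C (t ^ 2) *
          lin (l 0) (fun i => (F i).coeff d) else 0) =
          x j.succ * (algebraMap P K (MvPowerSeries.C (t ^ 2)) *
            algebraMap P K (lin (l 0) (fun i => (F i).coeff d))) := by
        rw [Finset.sum_eq_single j]
        · rw [if_pos rfl, map_mul]
        · intro q _ hq
          rw [if_neg hq, map_zero, mul_zero]
        · intro h
          exact absurd (Finset.mem_univ j) h
      rw [h3] at h1
      have h4 : x j.succ * (algebraMap P K (MvPowerSeries.C (t ^ 2)) *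
            algebraMap P K (lin (l 0) (fun i => (F i).coeff d))) = 0 := by
        have h5 : ∑ q, x q.succ * ((algebraMap P K (MvPowerSeries.C (a j)) +
            algebraMap P K (MvPowerSeries.C (t ^ 2)) * algebraMap P K (MvPowerSeries.X j)) *
              algebraMap P K (DD q (lin (l 0) (fun i => (F i).coeff d)))) =
            (algebraMap P K (MvPowerSeries.C (a j)) +
            algebraMap P K (MvPowerSeries.C (t ^ 2)) * algebraMap P K (MvPowerSeries.X j)) *
              ∑ q, x q.succ * algebraMap P K (DD q (lin (l 0) (fun i => (F i).coeff d))) := by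
          rw [Finset.mul_sum]
          exact Finset.sum_congr rfl fun q _ => by ring
        rw [h5] at h1
        linear_combination h1 - (algebraMap P K (MvPowerSeries.C (a j)) +
            algebraMap P K (MvPowerSeries.C (t ^ 2)) * algebraMap P K (MvPowerSeries.X j)) * hlam0
      refine (mul_eq_zero.1 h4).resolve_right (mul_ne_zero ?_ ?_)
      · intro h
        have h6 : (MvPowerSeries.C (t ^ 2) : P) = 0 := hinj (by rw [h, map_zero])
        have h7 := congrArg MvPowerSeries.constantCoeff h6
        rw [MvPowerSeries.constantCoeff_C, map_zero] at h7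
        exact pow_ne_zero 2 ht h7
      · exact fun h => hlam (hinj (by rw [h, map_zero]))
    intro j
    refine Fin.cases ?_ hx1 j
    rw [Finset.sum_eq_zero (fun q _ => by rw [hx1 q, zero_mul]), add_zero] at hlam0
    exact (mul_eq_zero.1 hlam0).resolve_right (fun h => hlam (hinj (by rw [h, map_zero])))

end Pool.Agent.VFF
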