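import Pool.Agent.Lib_MP_1858fb_f.CertEx
import Pool.Agent.Lib_MP_1858fb_f.FinishA
import Pool.Agent.Lib_MP_1858fb_f.Dual
import Pool.Agent.Lib_MP_1858fb_f.FDBase

/-! # MP_1858fb_ag, line F, piece F-GEN: tools (ends of a curve, derivatives of power series) -/

set_option autoImplicit false

namespace Pool.Agent.VFF

open Pool.Agent.VF Polynomial

section ends

variable {k : Type} [Field k] {N n c : ℕ}

theorem genSol_aeval_hom {A : Type} [CommRing A] [Algebra k A] {d e : ℕ}
    {R : Fin (N + 1) → A[X]} (hd : ∀ i, (R i).natDegree ≤ d)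
    {E : MvPolynomial (Fin (N + 1)) k} (hE : E.IsHomogeneous e) :
    (MvPolynomial.aeval R E).natDegree ≤ e * d ∧ (MvPolynomial.aeval R E).coeff (e * d) =
      MvPolynomial.aeval (fun i => (R i).coeff d) E := by
  rw [mul_comm e d]
  exact ⟨FinishA.natDegree_aeval_le hd hE, FinishA.coeff_aeval_top hd hE⟩

theorem genSol_aeval_coeff_zero {A : Type} [CommRing A] [Algebra k A] (R : Fin (N + 1) → A[X])
    (P : MvPolynomial (Fin (N + 1)) k) :
    (MvPolynomial.aeval R P).coeff 0 = MvPolynomial.aeval (fun i => (R i).coeff 0) P := by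
  have h := MvPolynomial.comp_aeval_apply (f := R)
    ((Polynomial.aeval (R := A) (0 : A)).restrictScalars k) P
  simp only [AlgHom.coe_restrictScalars', ← Polynomial.coeff_zero_eq_aeval_zero] at h
  exact h

theorem genSol_onV_zero (D : VData k N n c) {A : Type} [CommRing A] [Algebra k A]
    {R : Fin (N + 1) → A[X]} (h : OnV D.V R) : OnV D.V (fun i => (R i).coeff 0) := by
  intro E hE
  rw [← genSol_aeval_coeff_zero, h E hE, coeff_zero]

theorem genSol_onV_inf (D : VData k N n c) {A : Type} [CommRing A] [Algebra k A] {d : ℕ}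
    {R : Fin (N + 1) → A[X]} (hd : ∀ i, (R i).natDegree ≤ d) (h : OnV D.V R) :
    OnV D.V (fun i => (R i).coeff d) := by
  intro E hE
  rw [← MvPolynomial.sum_homogeneousComponent E, map_sum]
  refine Finset.sum_eq_zero fun e _ => ?_
  have h1 := (genSol_aeval_hom hd (MvPolynomial.homogeneousComponent_isHomogeneous e E)).2
  rw [← h1, h _ (D.hom E hE e), coeff_zero]

/-- the starting point of a curve over `k` is in `V` -/
theorem genSol_mem_zero (D : VData k N n c) {d : ℕ} {R : Fin (N + 1) → k[X]}
    (hR : Curve D d R) : (fun i => (R i).coeff 0) ∈ D.V := by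
  rw [D.mem_iff]
  refine ⟨genSol_onV_zero D hR.onV, ?_⟩
  obtain ⟨μ, hμ, M, hM⟩ := hR.cert
  obtain ⟨A, -, hA⟩ := hM 0 (Nat.zero_le _)
  by_contra hcon
  push Not at hcon
  apply hμ
  have h1 := congrArg (fun p : k[X] => p.coeff 0) hA
  simp only [finsetSum_coeff, pow_zero, mul_one, coeff_C_zero] at h1
  rw [← h1]
  refine Finset.sum_eq_zero fun l _ => ?_
  rw [mul_coeff_zero, genSol_aeval_coeff_zero, hcon l, mul_zero]

/-- the end point of a curve over `k` is in `V` -/
theorem genSol_mem_inf (D : VData k N n c) {d : ℕ} {R : Fin (N + 1) → k[X]}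
    (hR : Curve D d R) : (fun i => (R i).coeff d) ∈ D.V := by
  rw [D.mem_iff]
  refine ⟨genSol_onV_inf D hR.deg hR.onV, ?_⟩
  obtain ⟨μ, hμ, M, hM⟩ := hR.cert
  obtain ⟨A, hA1, hA2⟩ := hM M le_rfl
  by_contra hcon
  push Not at hcon
  apply hμ
  have h1 := congrArg (fun p : k[X] => p.coeff M) hA2
  simp only [finsetSum_coeff, coeff_C_mul, coeff_X_pow, if_true, mul_one] at h1
  rw [← h1]
  refine Finset.sum_eq_zero fun l _ => ?_
  by_cases hl : A l = 0
  · rw [hl, zero_mul, coeff_zero]
  · have h2 := hA1 l hl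
    obtain ⟨h3, h4⟩ := genSol_aeval_hom hR.deg (D.homH l)
    have h5 : M = (M - D.h l * d) + D.h l * d := by
      rw [Nat.sub_add_cancel]
      calc D.h l * d = d * D.h l := mul_comm _ _
        _ ≤ M := le_trans (Nat.le_add_left _ _) h2
    have h6 : (A l).natDegree ≤ M - D.h l * d := by
      rw [mul_comm d] at h2
      omega
    rw [h5, coeff_mul_add_eq_of_natDegree_le h6 h3, h4, hcon l, mul_zero]

theorem genSol_frame_map {A B : Type} [CommRing A] [Algebra k A] [CommRing B] [Algebra k B]
    (φ : A →ₐ[k] B) {V : Set (Fin (N + 1) → k)} {l : Fin (n + 1) → Fin (N + 1) → k}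
    {E : Fin c → MvPolynomial (Fin (N + 1)) k} {x : Fin (N + 1) → A} {μ : A}
    (h : Frame V l E x μ) : Frame V l E (fun i => φ (x i)) (φ μ) := by
  obtain ⟨h1, B, hB⟩ := h
  refine ⟨h1, fun i a => φ (B i a), fun i j => ?_⟩
  have h2 := congrArg φ (hB i j)
  rw [map_sum] at h2
  have h3 : φ (if i = j then μ else 0) = if i = j then φ μ else 0 := by
    split_ifs <;> simp
  rw [h3] at h2
  rw [← h2]
  refine Finset.sum_congr rfl fun a _ => ?_
  rw [map_mul]
  congr 1
  rcases a with a | b
  · exact (φ.commutes _).symm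
  · simp only [row, Sum.elim_inr]
    exact dual_aeval φ _ _

/-- the ideal of the power series without constant coefficient is separated -/
theorem genSol_sep {A : Type} [CommRing A] {p : ℕ} (a : MvPowerSeries (Fin p) A)
    (h : ∀ m : ℕ, a ∈ (RingHom.ker (MvPowerSeries.constantCoeff (σ := Fin p) (R := A))) ^ m) :
    a = 0 := by
  have key : ∀ (m : ℕ) (f : MvPowerSeries (Fin p) A),
      f ∈ (RingHom.ker (MvPowerSeries.constantCoeff (σ := Fin p) (R := A))) ^ m →
        ∀ e : Fin p →₀ ℕ, e.degree < m → MvPowerSeries.coeff e f = 0 := by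
    intro m
    induction m with
    | zero => intro f _ e he; omega
    | succ m ih =>
      intro f hf
      rw [pow_succ] at hf
      refine Submodule.mul_induction_on hf ?_ ?_
      · intro g hg g' hg' e he
        have h1 : (m : ℕ∞) ≤ g.order := MvPowerSeries.nat_le_order fun e' he' => ih g hg e' he'
        have h2 : (1 : ℕ∞) ≤ g'.order := by
          rw [MvPowerSeries.one_le_order_iff_constCoeff_eq_zero]
          exact hg'
        have h3 : ((m + 1 : ℕ) : ℕ∞) ≤ (g * g').order := by
          refine le_trans ?_ MvPowerSeries.le_order_mul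
          push_cast
          exact add_le_add h1 h2
        exact MvPowerSeries.coeff_of_lt_order (lt_of_lt_of_le (by exact_mod_cast he) h3)
      · intro g g' hg hg' e he
        rw [map_add, hg e he, hg' e he, add_zero]
  ext e
  rw [key (e.degree + 1) a (h _) e (Nat.lt_succ_self _), map_zero]

end ends

section deriv

variable {k : Type} [Field k] {A K : Type} [CommRing A] [Algebra k A] [CommRing K] [Algebra k K]

/-- apply an additive map to the coefficients -/
noncomputable def genSolD (ψ : A →+ K) : A[X] →+ K[X] where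
  toFun f := f.sum fun m a => monomial m (ψ a)
  map_zero' := by rw [sum_zero_index]
  map_add' f g := by
    rw [sum_add_index]
    · intro i
      rw [map_zero, monomial_zero_right]
    · intro i a b
      rw [map_add, map_add (monomial i)]

theorem genSolD_coeff (ψ : A →+ K) (f : A[X]) (m : ℕ) :
    (genSolD ψ f).coeff m = ψ (f.coeff m) := by
  show (f.sum fun m a => monomial m (ψ a)).coeff m = _
  rw [sum_def, finsetSum_coeff]
  simp only [coeff_monomial]
  rw [Finset.sum_ite_eq' f.support m]
  by_cases h : m ∈ f.support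
  · rw [if_pos h]
  · rw [if_neg h, notMem_support_iff.1 h, map_zero]

theorem genSolD_natDegree (ψ : A →+ K) {f : A[X]} {d : ℕ} (hf : f.natDegree ≤ d) :
    (genSolD ψ f).natDegree ≤ d := by
  rw [natDegree_le_iff_coeff_eq_zero] at hf ⊢
  intro m hm
  rw [genSolD_coeff, hf m hm, map_zero]

theorem genSolD_mul (φ : A →+* K) (ψ : A →+ K)
    (hψ : ∀ a b, ψ (a * b) = φ a * ψ b + φ b * ψ a) (f g : A[X]) :
    genSolD ψ (f * g) = f.map φ * genSolD ψ g + g.map φ * genSolD ψ f := by
  ext m
  rw [genSolD_coeff, coeff_add, coeff_mul, coeff_mul, mul_comm (g.map φ), coeff_mul, map_sum,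
    ← Finset.sum_add_distrib]
  refine Finset.sum_congr rfl fun x _ => ?_
  rw [hψ, coeff_map, coeff_map, genSolD_coeff, genSolD_coeff]
  ring

theorem genSolD_eval (ψ : A →+ K) (hψ : ∀ a (c : k), ψ (a * algebraMap k A c) =
    ψ a * algebraMap k K c) (f : A[X]) (c : k) :
    (genSolD ψ f).eval (algebraMap k K c) = ψ (f.eval (algebraMap k A c)) := by
  induction f using Polynomial.induction_on' with
  | add p q hp hq => rw [map_add, eval_add, eval_add, map_add, hp, hq]
  | monomial m a =>
    have h : genSolD ψ (monomial m a) = monomial m (ψ a) := by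
      ext t
      rw [genSolD_coeff, coeff_monomial, coeff_monomial]
      split_ifs with h1
      · rfl
      · rw [map_zero]
    rw [h, eval_monomial, eval_monomial, ← map_pow, ← map_pow, hψ]

end deriv

end Pool.Agent.VFF
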