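import Mathlib
set_option autoImplicit false
set_option linter.unusedSectionVars false
/-!
Implicit functions (multivariate Hensel lemma) in complete filtered commutative rings.
-/
noncomputable section
open scoped BigOperators
open Finset

namespace Pool.Agent.VFH

/-- a complete separated multiplicative filtration by ideals -/
structure Filt (A : Type*) [CommRing A] where
  J : ℕ → Ideal A
  anti : ∀ n, J (n + 1) ≤ J n
  mul : ∀ m n x y, x ∈ J m → y ∈ J n → x * y ∈ J (m + n)
  sep : ∀ x, (∀ n, x ∈ J n) → x = 0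
  compl : ∀ u : ℕ → A, (∀ n, u (n + 1) - u n ∈ J n) → ∃ x, ∀ n, x - u n ∈ J n

namespace Filt

variable {A : Type*} [CommRing A] (F : Filt A)

theorem le_of_le {m n : ℕ} (h : m ≤ n) : F.J n ≤ F.J m := by
  induction n, h using Nat.le_induction with
  | base => exact le_rfl
  | succ n _ ih => exact (F.anti n).trans ih

/-- **fixed points**: a map which improves congruences by one has exactly one fixed point in each
admissible class -/
theorem fixed {ι : Type*} (T : (ι → A) → (ι → A)) (x0 : ι → A)
    (h0 : ∀ x, (∀ i, x i - x0 i ∈ F.J 1) → ∀ i, T x i - x0 i ∈ F.J 1)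
    (hT : ∀ m x y, 1 ≤ m → (∀ i, x i - x0 i ∈ F.J 1) → (∀ i, y i - x0 i ∈ F.J 1) →
      (∀ i, x i - y i ∈ F.J m) → ∀ i, T x i - T y i ∈ F.J (m + 1)) :
    ∃! x : ι → A, (∀ i, x i - x0 i ∈ F.J 1) ∧ T x = x := by
  classical
  let u : ℕ → ι → A := fun n => T^[n] x0
  have hu : ∀ n, u (n + 1) = T (u n) := fun n => Function.iterate_succ_apply' T n x0
  have h1 : ∀ n i, u n i - x0 i ∈ F.J 1 := by
    intro n
    induction n with
    | zero => intro i; simp [u]
    | succ n ih => intro i; rw [hu]; exact h0 _ ih i
  have h2 : ∀ n i, u (n + 1) i - u n i ∈ F.J (n + 1) := by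
    intro n
    induction n with
    | zero => intro i; exact h1 1 i
    | succ n ih =>
      intro i
      have := hT (n + 1) (u (n + 1)) (u n) (by omega) (h1 _) (h1 _) ih i
      rw [← hu, ← hu] at this
      exact this
  have h3 : ∀ i, ∃ z, ∀ n, z - u n i ∈ F.J n :=
    fun i => F.compl (fun n => u n i) (fun n => F.anti n (h2 n i))
  choose x hx using h3
  have hx' : ∀ n i, x i - u n i ∈ F.J (n + 1) := by
    intro n i
    have a := hx i (n + 1)
    have b := h2 n i
    have e : x i - u n i = (x i - u (n + 1) i) + (u (n + 1) i - u n i) := by ring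
    rw [e]; exact Ideal.add_mem _ a b
  have hx1 : ∀ i, x i - x0 i ∈ F.J 1 := fun i => by simpa [u] using hx' 0 i
  have hfix : T x = x := by
    funext i
    refine sub_eq_zero.1 (F.sep _ fun n => ?_)
    have a := hT (n + 1) x (u n) (by omega) hx1 (h1 n) (hx' n) i
    have b := hx' (n + 1) i
    rw [← hu] at a
    have e : T x i - x i = (T x i - u (n + 1) i) - (x i - u (n + 1) i) := by ring
    rw [e]
    exact F.le_of_le (by omega : n ≤ n + 2) (Ideal.sub_mem _ a b)
  refine ⟨x, ⟨hx1, hfix⟩, ?_⟩
  rintro y ⟨hy1, hy⟩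
  funext i
  refine sub_eq_zero.1 (F.sep _ fun n => ?_)
  have key : ∀ n i, y i - x i ∈ F.J (n + 1) := by
    intro n
    induction n with
    | zero =>
      intro i
      have e : y i - x i = (y i - x0 i) - (x i - x0 i) := by ring
      rw [e]; exact Ideal.sub_mem _ (hy1 i) (hx1 i)
    | succ n ih =>
      intro i
      have := hT (n + 1) y x (by omega) hy1 hx1 ih i
      rw [hy, hfix] at this
      exact this
  exact F.anti n (key n i)

/-- mean value estimate for polynomials -/
theorem taylor {σ : Type*} [Fintype σ] (p : MvPolynomial σ A) (x0 x y : σ → A) (m : ℕ)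
    (hx : ∀ s, x s - x0 s ∈ F.J 1) (hy : ∀ s, y s - x0 s ∈ F.J 1)
    (hxy : ∀ s, x s - y s ∈ F.J m) :
    MvPolynomial.eval x p - MvPolynomial.eval y p -
      ∑ s, MvPolynomial.eval x0 (MvPolynomial.pderiv s p) * (x s - y s) ∈ F.J (m + 1) ∧
    MvPolynomial.eval x p - MvPolynomial.eval y p ∈ F.J m ∧
    MvPolynomial.eval y p - MvPolynomial.eval x0 p ∈ F.J 1 := by
  classical
  induction p using MvPolynomial.induction_on with
  | C a => simp
  | add p q hp hq =>
    obtain ⟨p1, p2, p3⟩ := hp
    obtain ⟨q1, q2, q3⟩ := hq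
    refine ⟨?_, ?_, ?_⟩
    · have := Ideal.add_mem _ p1 q1
      simp only [map_add, add_mul, Finset.sum_add_distrib]
      convert this using 1
      ring
    · have := Ideal.add_mem _ p2 q2
      simp only [map_add]
      convert this using 1
      ring
    · have := Ideal.add_mem _ p3 q3
      simp only [map_add]
      convert this using 1
      ring
  | mul_X p i hp =>
    obtain ⟨p1, p2, p3⟩ := hp
    have hsum : ∑ s, MvPolynomial.eval x0 (MvPolynomial.pderiv s (p * MvPolynomial.X i)) *
        (x s - y s) = (∑ s, MvPolynomial.eval x0 (MvPolynomial.pderiv s p) * (x s - y s)) * x0 i +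
          MvPolynomial.eval x0 p * (x i - y i) := by
      rw [Finset.sum_mul]
      have : ∀ s, MvPolynomial.eval x0 (MvPolynomial.pderiv s (p * MvPolynomial.X i)) *
          (x s - y s) = MvPolynomial.eval x0 (MvPolynomial.pderiv s p) * (x s - y s) * x0 i +
            (if s = i then MvPolynomial.eval x0 p * (x i - y i) else 0) := by
        intro s
        rw [Derivation.leibniz, MvPolynomial.pderiv_X]
        by_cases h : s = i
        · subst h
          simp
          ring
        · have h' : i ≠ s := fun h2 => h h2.symm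
          simp [h]
          ring
      rw [Finset.sum_congr rfl fun s _ => this s, Finset.sum_add_distrib,
        Finset.sum_ite_eq' Finset.univ i]
      simp
    refine ⟨?_, ?_, ?_⟩
    · rw [hsum]
      simp only [map_mul, MvPolynomial.eval_X]
      have a : (MvPolynomial.eval x p - MvPolynomial.eval y p -
          ∑ s, MvPolynomial.eval x0 (MvPolynomial.pderiv s p) * (x s - y s)) * x0 i ∈
          F.J (m + 1) := Ideal.mul_mem_right _ _ p1
      have b : (MvPolynomial.eval x p - MvPolynomial.eval y p) * (x i - x0 i) ∈ F.J (m + 1) :=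
        F.mul _ _ _ _ p2 (hx i)
      have c : (MvPolynomial.eval y p - MvPolynomial.eval x0 p) * (x i - y i) ∈ F.J (m + 1) := by
        have := F.mul _ _ _ _ p3 (hxy i)
        rwa [add_comm] at this
      have := Ideal.add_mem _ (Ideal.add_mem _ a b) c
      convert this using 1
      ring
    · simp only [map_mul, MvPolynomial.eval_X]
      have a : (MvPolynomial.eval x p - MvPolynomial.eval y p) * x i ∈ F.J m :=
        Ideal.mul_mem_right _ _ p2
      have b : MvPolynomial.eval y p * (x i - y i) ∈ F.J m := Ideal.mul_mem_left _ _ (hxy i)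
      have := Ideal.add_mem _ a b
      convert this using 1
      ring
    · simp only [map_mul, MvPolynomial.eval_X]
      have a : (MvPolynomial.eval y p - MvPolynomial.eval x0 p) * y i ∈ F.J 1 :=
        Ideal.mul_mem_right _ _ p3
      have b : MvPolynomial.eval x0 p * (y i - x0 i) ∈ F.J 1 := Ideal.mul_mem_left _ _ (hy i)
      have := Ideal.add_mem _ a b
      convert this using 1
      ring

/-- insert the unknowns `z` at the places `e` -/
def ins {c : ℕ} {σ : Type*} [DecidableEq σ] (e : Fin c → σ) (y : σ → A) (z : Fin c → A) : σ → A :=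
  fun s => if h : ∃ j, e j = s then z h.choose else y s

theorem ins_apply {c : ℕ} {σ : Type*} [DecidableEq σ] {e : Fin c → σ}
    (he : Function.Injective e) (y : σ → A) (z : Fin c → A) (j : Fin c) :
    ins e y z (e j) = z j := by
  have h : ∃ i, e i = e j := ⟨j, rfl⟩
  rw [ins, dif_pos h]
  exact congrArg z (he h.choose_spec)

theorem ins_apply_of_ne {c : ℕ} {σ : Type*} [DecidableEq σ] {e : Fin c → σ} (y : σ → A)
    (z : Fin c → A) (s : σ) (hs : ∀ j, e j ≠ s) : ins e y z s = y s := by
  rw [ins, dif_neg]
  rintro ⟨j, hj⟩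
  exact hs j hj

/-- **implicit functions**: polynomial equations with an invertible Jacobian block -/
theorem implicit {c : ℕ} {σ : Type*} [Fintype σ] [DecidableEq σ]
    (E : Fin c → MvPolynomial σ A) (e : Fin c → σ) (he : Function.Injective e) (x0 : σ → A)
    (h0 : ∀ i, MvPolynomial.eval x0 (E i) ∈ F.J 1)
    (hdet : IsUnit (Matrix.det
      (Matrix.of fun i j => MvPolynomial.eval x0 (MvPolynomial.pderiv (e j) (E i)))))
    (y : σ → A) (hy : ∀ s, y s - x0 s ∈ F.J 1) :
    ∃! x : σ → A, (∀ s, (∀ j, e j ≠ s) → x s = y s) ∧ (∀ s, x s - x0 s ∈ F.J 1) ∧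
      ∀ i, MvPolynomial.eval x (E i) = 0 := by
  classical
  set D : Matrix (Fin c) (Fin c) A :=
    Matrix.of fun i j => MvPolynomial.eval x0 (MvPolynomial.pderiv (e j) (E i)) with hD
  obtain ⟨B, hBD⟩ : ∃ B : Matrix (Fin c) (Fin c) A, B * D = 1 ∧ D * B = 1 :=
    ⟨D⁻¹, Matrix.nonsing_inv_mul D hdet, Matrix.mul_nonsing_inv D hdet⟩
  obtain ⟨hB1, hB2⟩ := hBD
  -- the map
  let T : (Fin c → A) → (Fin c → A) := fun z j =>
    z j - ∑ i, B j i * MvPolynomial.eval (ins e y z) (E i)
  have hins : ∀ z : Fin c → A, (∀ j, z j - x0 (e j) ∈ F.J 1) →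
      ∀ s, ins e y z s - x0 s ∈ F.J 1 := by
    intro z hz s
    by_cases h : ∃ j, e j = s
    · obtain ⟨j, rfl⟩ := h
      rw [ins_apply he]; exact hz j
    · rw [ins_apply_of_ne y z s (fun j hj => h ⟨j, hj⟩)]; exact hy s
  have hfix := F.fixed T (fun j => x0 (e j)) ?_ ?_
  rotate_left
  · intro z hz j
    have h1 : ∀ i, MvPolynomial.eval (ins e y z) (E i) ∈ F.J 1 := by
      intro i
      have := (F.taylor (E i) x0 (ins e y z) (ins e y z) 1 (hins z hz) (hins z hz)
        (fun s => by simp)).2.2
      have h2 := Ideal.add_mem _ this (h0 i)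
      simpa using h2
    have h2 : ∑ i, B j i * MvPolynomial.eval (ins e y z) (E i) ∈ F.J 1 :=
      Ideal.sum_mem _ fun i _ => Ideal.mul_mem_left _ _ (h1 i)
    have h3 := Ideal.sub_mem _ (hz j) h2
    have e1 : T z j - x0 (e j) = z j - x0 (e j) -
        ∑ i, B j i * MvPolynomial.eval (ins e y z) (E i) := by simp only [T]; ring
    rw [e1]; exact h3
  · intro m z w hm hz hw hzw j
    have hd : ∀ s, ins e y z s - ins e y w s ∈ F.J m := by
      intro s
      by_cases h : ∃ j, e j = s
      · obtain ⟨j, rfl⟩ := h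
        rw [ins_apply he, ins_apply he]; exact hzw j
      · rw [ins_apply_of_ne y z s (fun j hj => h ⟨j, hj⟩),
          ins_apply_of_ne y w s (fun j hj => h ⟨j, hj⟩)]
        simp
    have ht : ∀ i, MvPolynomial.eval (ins e y z) (E i) - MvPolynomial.eval (ins e y w) (E i) -
        ∑ l, D i l * (z l - w l) ∈ F.J (m + 1) := by
      intro i
      have h1 := (F.taylor (E i) x0 (ins e y z) (ins e y w) m (hins z hz) (hins w hw) hd).1
      have h2 : ∑ s, MvPolynomial.eval x0 (MvPolynomial.pderiv s (E i)) *
          (ins e y z s - ins e y w s) = ∑ l, D i l * (z l - w l) := by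
        have h3 : ∑ l, D i l * (z l - w l) = ∑ s ∈ Finset.univ.image e,
            MvPolynomial.eval x0 (MvPolynomial.pderiv s (E i)) *
              (ins e y z s - ins e y w s) := by
          rw [Finset.sum_image (fun a _ b _ h => he h)]
          refine Finset.sum_congr rfl fun l _ => ?_
          rw [ins_apply he, ins_apply he, hD]; rfl
        rw [h3]
        symm
        refine Finset.sum_subset (Finset.subset_univ _) fun s _ hs => ?_
        have hs' : ∀ j, e j ≠ s := fun j hj => hs (Finset.mem_image.2 ⟨j, Finset.mem_univ _, hj⟩)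
        rw [ins_apply_of_ne y z s hs', ins_apply_of_ne y w s hs', sub_self, mul_zero]
      rwa [h2] at h1
    have hlin : ∑ i, B j i * ∑ l, D i l * (z l - w l) = z j - w j := by
      have : ∀ v : Fin c → A, ∑ i, B j i * ∑ l, D i l * v l = v j := by
        intro v
        have h4 : (B * D).mulVec v j = v j := by rw [hB1, Matrix.one_mulVec]
        rw [← Matrix.mulVec_mulVec] at h4
        simpa [Matrix.mulVec, dotProduct] using h4
      exact this fun l => z l - w l
    have e1 : T z j - T w j = -∑ i, B j i * (MvPolynomial.eval (ins e y z) (E i) -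
        MvPolynomial.eval (ins e y w) (E i) - ∑ l, D i l * (z l - w l)) := by
      simp only [mul_sub, Finset.sum_sub_distrib]
      have hlin' : ∑ i, B j i * ∑ l, (D i l * z l - D i l * w l) = z j - w j := by
        rw [← hlin]
        refine Finset.sum_congr rfl fun i _ => ?_
        congr 1
        refine Finset.sum_congr rfl fun l _ => ?_
        ring
      simp only [T]
      have h5 : ∑ i, (B j i * ∑ l, D i l * z l - B j i * ∑ l, D i l * w l) = z j - w j := by
        rw [← hlin']
        refine Finset.sum_congr rfl fun i _ => ?_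
        rw [Finset.sum_sub_distrib, mul_sub]
      rw [Finset.sum_sub_distrib] at h5
      rw [h5]
      ring
    rw [e1]
    exact Submodule.neg_mem _ (Ideal.sum_mem _ fun i _ => Ideal.mul_mem_left _ _ (ht i))
  obtain ⟨z, ⟨hz1, hz2⟩, hzu⟩ := hfix
  have hsol : ∀ z : Fin c → A, T z = z ↔ ∀ i, MvPolynomial.eval (ins e y z) (E i) = 0 := by
    intro z
    constructor
    · intro h
      have h1 : ∀ j, ∑ i, B j i * MvPolynomial.eval (ins e y z) (E i) = 0 := by
        intro j
        have := congrFun h j
        simp only [T] at this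
        have h2 := sub_eq_self.1 this
        exact h2
      have h3 : B.mulVec (fun i => MvPolynomial.eval (ins e y z) (E i)) = 0 := by
        funext j
        exact h1 j
      have h4 : (D * B).mulVec (fun i => MvPolynomial.eval (ins e y z) (E i)) = 0 := by
        rw [← Matrix.mulVec_mulVec, h3, Matrix.mulVec_zero]
      rw [hB2, Matrix.one_mulVec] at h4
      exact fun i => congrFun h4 i
    · intro h
      funext j
      simp [T, h]
  refine ⟨ins e y z, ⟨fun s hs => ins_apply_of_ne y z s hs, hins z hz1, (hsol z).1 hz2⟩, ?_⟩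
  rintro x ⟨hx1, hx2, hx3⟩
  have hxz : x = ins e y fun j => x (e j) := by
    funext s
    by_cases h : ∃ j, e j = s
    · obtain ⟨j, rfl⟩ := h
      rw [ins_apply he]
    · rw [ins_apply_of_ne y _ s (fun j hj => h ⟨j, hj⟩), hx1 s (fun j hj => h ⟨j, hj⟩)]
  have h6 : (fun j => x (e j)) = z := by
    refine hzu _ ⟨fun j => hx2 (e j), (hsol _).2 fun i => ?_⟩
    rw [← hxz]; exact hx3 i
  rw [hxz, h6]

/-- the same with equations over a ring of coefficients `k` and `φ : k →+* A` -/
theorem implicit_map {k : Type*} [CommRing k] (φ : k →+* A) {c : ℕ} {σ : Type*} [Fintype σ]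
    [DecidableEq σ] (E : Fin c → MvPolynomial σ k) (e : Fin c → σ) (he : Function.Injective e)
    (x0 : σ → A) (h0 : ∀ i, MvPolynomial.eval₂ φ x0 (E i) ∈ F.J 1)
    (hdet : IsUnit (Matrix.det
      (Matrix.of fun i j => MvPolynomial.eval₂ φ x0 (MvPolynomial.pderiv (e j) (E i)))))
    (y : σ → A) (hy : ∀ s, y s - x0 s ∈ F.J 1) :
    ∃! x : σ → A, (∀ s, (∀ j, e j ≠ s) → x s = y s) ∧ (∀ s, x s - x0 s ∈ F.J 1) ∧
      ∀ i, MvPolynomial.eval₂ φ x (E i) = 0 := by
  have h := F.implicit (fun i => MvPolynomial.map φ (E i)) e he x0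
    (fun i => by rw [MvPolynomial.eval_map]; exact h0 i) (by
      have : (Matrix.of fun i j => MvPolynomial.eval x0
          (MvPolynomial.pderiv (e j) (MvPolynomial.map φ (E i)))) =
          Matrix.of fun i j => MvPolynomial.eval₂ φ x0 (MvPolynomial.pderiv (e j) (E i)) := by
        ext i j
        simp only [Matrix.of_apply]
        rw [MvPolynomial.pderiv_map, MvPolynomial.eval_map]
      rw [this]; exact hdet) y hy
  simpa only [MvPolynomial.eval_map] using h

/-- naturality: a solution with values in a smaller filtered ring -/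
theorem implicit_natural {k : Type*} [CommRing k] (φ : k →+* A) {A' : Type*} [CommRing A']
    (F' : Filt A') (φ' : k →+* A') (ψ : A' →+* A) (hφ : ∀ c, ψ (φ' c) = φ c)
    (hψ : ∀ x ∈ F'.J 1, ψ x ∈ F.J 1) {c : ℕ} {σ : Type*} [Fintype σ]
    [DecidableEq σ] (E : Fin c → MvPolynomial σ k) (e : Fin c → σ) (he : Function.Injective e)
    (x0 : σ → A') (h0 : ∀ i, MvPolynomial.eval₂ φ' x0 (E i) ∈ F'.J 1)
    (hdet : IsUnit (Matrix.det
      (Matrix.of fun i j => MvPolynomial.eval₂ φ' x0 (MvPolynomial.pderiv (e j) (E i)))))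
    (x : σ → A) (hx0 : ∀ s, x s - ψ (x0 s) ∈ F.J 1) (hxE : ∀ i, MvPolynomial.eval₂ φ x (E i) = 0)
    (y : σ → A') (hy : ∀ s, y s - x0 s ∈ F'.J 1)
    (hxy : ∀ s, (∀ j, e j ≠ s) → x s = ψ (y s)) :
    ∃ x' : σ → A', (∀ s, x s = ψ (x' s)) ∧ (∀ s, (∀ j, e j ≠ s) → x' s = y s) ∧
      (∀ s, x' s - x0 s ∈ F'.J 1) ∧ ∀ i, MvPolynomial.eval₂ φ' x' (E i) = 0 := by
  obtain ⟨x', ⟨h1, h2, h3⟩, -⟩ := F'.implicit_map φ' E e he x0 h0 hdet y hy
  have hφ' : ψ.comp φ' = φ := RingHom.ext hφ
  have hev : ∀ (z : σ → A') (p : MvPolynomial σ k),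
      MvPolynomial.eval₂ φ (fun s => ψ (z s)) p = ψ (MvPolynomial.eval₂ φ' z p) := by
    intro z p
    rw [← hφ', MvPolynomial.hom_eval₂]
  have hu := F.implicit_map φ E e he (fun s => ψ (x0 s))
    (fun i => by rw [hev]; exact hψ _ (h0 i)) (by
      have : (Matrix.of fun i j => MvPolynomial.eval₂ φ (fun s => ψ (x0 s))
          (MvPolynomial.pderiv (e j) (E i))) =
          (Matrix.of fun i j => MvPolynomial.eval₂ φ' x0
            (MvPolynomial.pderiv (e j) (E i))).map ψ := by
        ext i j
        simp only [Matrix.of_apply, Matrix.map_apply]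
        exact hev x0 _
      have h5 : IsUnit (ψ (Matrix.det (Matrix.of fun i j => MvPolynomial.eval₂ φ' x0
            (MvPolynomial.pderiv (e j) (E i))))) := hdet.map ψ
      rw [this]
      have h6 := RingHom.map_det ψ (Matrix.of fun i j => MvPolynomial.eval₂ φ' x0
            (MvPolynomial.pderiv (e j) (E i)))
      rw [h6] at h5
      exact h5)
    (fun s => ψ (y s)) (fun s => by rw [← map_sub]; exact hψ _ (hy s))
  refine ⟨x', ?_, h1, h2, h3⟩
  intro s
  have e1 := hu.unique (y₁ := x) (y₂ := fun s => ψ (x' s)) ⟨hxy, hx0, hxE⟩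
    ⟨fun s hs => congrArg ψ (h1 s hs), fun s => by rw [← map_sub]; exact hψ _ (h2 s),
      fun i => by rw [hev, h3, map_zero]⟩
  exact congrFun e1 s

end Filt

/-! ### Instances -/

/-- power series in one variable over a commutative ring, filtered by the order -/
def psFilt (R : Type*) [CommRing R] : Filt (PowerSeries R) where
  J n :=
    { carrier := {f | ∀ i, i < n → PowerSeries.coeff i f = 0}
      add_mem' := fun {a b} ha hb i hi => by rw [map_add, ha i hi, hb i hi, add_zero]
      zero_mem' := fun i _ => map_zero _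
      smul_mem' := fun r x hx i hi => by
        rw [smul_eq_mul, PowerSeries.coeff_mul]
        refine Finset.sum_eq_zero fun p hp => ?_
        rw [Finset.HasAntidiagonal.mem_antidiagonal] at hp
        rw [hx p.2 (by omega), mul_zero] }
  anti n f hf i hi := hf i (by omega)
  mul m n x y hx hy i hi := by
    rw [PowerSeries.coeff_mul]
    refine Finset.sum_eq_zero fun p hp => ?_
    rw [Finset.HasAntidiagonal.mem_antidiagonal] at hp
    by_cases h : p.1 < m
    · rw [hx p.1 h, zero_mul]
    · rw [hy p.2 (by omega), mul_zero]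
  sep x hx := PowerSeries.ext fun n => by rw [map_zero]; exact hx (n + 1) n (by omega)
  compl u hu := by
    refine ⟨PowerSeries.mk fun i => PowerSeries.coeff i (u (i + 1)), fun n i hi => ?_⟩
    rw [map_sub, PowerSeries.coeff_mk, sub_eq_zero]
    have key : ∀ j, i + 1 ≤ j → PowerSeries.coeff i (u j) = PowerSeries.coeff i (u (i + 1)) := by
      intro j hj
      induction j, hj using Nat.le_induction with
      | base => rfl
      | succ j hj ih =>
        have := hu j i (by omega)
        rw [map_sub, sub_eq_zero] at this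
        rw [this, ih]
    exact (key n (by omega)).symm

theorem mem_psFilt {R : Type*} [CommRing R] (n : ℕ) (f : PowerSeries R) :
    f ∈ (psFilt R).J n ↔ ∀ i, i < n → PowerSeries.coeff i f = 0 := Iff.rfl

theorem mem_psFilt_one {R : Type*} [CommRing R] (f : PowerSeries R) :
    f ∈ (psFilt R).J 1 ↔ PowerSeries.constantCoeff f = 0 := by
  rw [mem_psFilt]
  constructor
  · intro h
    have := h 0 (by omega)
    rwa [PowerSeries.coeff_zero_eq_constantCoeff] at this
  · intro h i hi
    obtain rfl : i = 0 := by omega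
    rwa [PowerSeries.coeff_zero_eq_constantCoeff]

/-- power series in several variables over a commutative ring, filtered by the total degree -/
def mvFilt (σ R : Type*) [CommRing R] : Filt (MvPowerSeries σ R) where
  J n :=
    { carrier := {f | ∀ d : σ →₀ ℕ, d.degree < n → MvPowerSeries.coeff d f = 0}
      add_mem' := fun {a b} ha hb i hi => by rw [map_add, ha i hi, hb i hi, add_zero]
      zero_mem' := fun i _ => map_zero _
      smul_mem' := fun r x hx i hi => by
        classical
        rw [smul_eq_mul, MvPowerSeries.coeff_mul]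
        refine Finset.sum_eq_zero fun p hp => ?_
        rw [Finset.HasAntidiagonal.mem_antidiagonal] at hp
        have : p.2.degree ≤ i.degree := by rw [← hp, map_add]; omega
        rw [hx p.2 (by omega), mul_zero] }
  anti n f hf i hi := hf i (by omega)
  mul m n x y hx hy i hi := by
    classical
    rw [MvPowerSeries.coeff_mul]
    refine Finset.sum_eq_zero fun p hp => ?_
    rw [Finset.HasAntidiagonal.mem_antidiagonal] at hp
    have h2 : p.1.degree + p.2.degree = i.degree := by rw [← hp, map_add]
    by_cases h : p.1.degree < m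
    · rw [hx p.1 h, zero_mul]
    · rw [hy p.2 (by omega), mul_zero]
  sep x hx := MvPowerSeries.ext fun n => by rw [map_zero]; exact hx (n.degree + 1) n (by omega)
  compl u hu := by
    let w : MvPowerSeries σ R := fun d => MvPowerSeries.coeff d (u (d.degree + 1))
    refine ⟨w, fun n i hi => ?_⟩
    have e : MvPowerSeries.coeff i w = MvPowerSeries.coeff i (u (i.degree + 1)) := rfl
    rw [map_sub, e, sub_eq_zero]
    have key : ∀ j, i.degree + 1 ≤ j →
        MvPowerSeries.coeff i (u j) = MvPowerSeries.coeff i (u (i.degree + 1)) := by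
      intro j hj
      induction j, hj using Nat.le_induction with
      | base => rfl
      | succ j hj ih =>
        have := hu j i (by omega)
        rw [map_sub, sub_eq_zero] at this
        rw [this, ih]
    exact (key n (by omega)).symm

theorem mem_mvFilt {σ R : Type*} [CommRing R] (n : ℕ) (f : MvPowerSeries σ R) :
    f ∈ (mvFilt σ R).J n ↔ ∀ d : σ →₀ ℕ, d.degree < n → MvPowerSeries.coeff d f = 0 := Iff.rfl

theorem mem_mvFilt_one {σ R : Type*} [CommRing R] (f : MvPowerSeries σ R) :
    f ∈ (mvFilt σ R).J 1 ↔ MvPowerSeries.constantCoeff f = 0 := by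
  rw [mem_mvFilt]
  constructor
  · intro h
    have := h 0 (by simp)
    rwa [MvPowerSeries.coeff_zero_eq_constantCoeff] at this
  · intro h d hd
    have : d = 0 := by
      rw [← Finsupp.degree_eq_zero_iff]; omega
    rw [this, MvPowerSeries.coeff_zero_eq_constantCoeff]
    exact h

end Pool.Agent.VFH
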