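import Pool.Agent.Lib_MP_1858fb_f.GDefs
import Pool.Agent.Lib_MP_1858fb_f.CertEx
import Pool.Agent.Lib_MP_1858fb_w.Van2
import Pool.Agent.Lib_MP_1858fb_w.Van6

/-! # MP_1858fb_ag, line F: [F-START] from the very free curve -/

namespace Pool.Agent.VFF

open Pool.Agent.VF Polynomial

variable {k : Type} [Field k] {N n c : ℕ}

namespace StartAux

theorem exists_cons_basis {E : Type} [AddCommGroup E] [Module k E] {n : ℕ}
    (h : Module.finrank k E = n + 1) {v : E} (hv : v ≠ 0) :
    ∃ u : Fin n → E, LinearIndependent k (Fin.cons v u : Fin (n + 1) → E) := by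
  have main : ∀ m ≤ n, ∃ u : Fin m → E, LinearIndependent k (Fin.cons v u : Fin (m + 1) → E) := by
    intro m
    induction m with
    | zero =>
      intro _
      refine ⟨Fin.elim0, ?_⟩
      rw [Fintype.linearIndependent_iff]
      intro g hg i
      have h1 : g 0 • v = 0 := by
        rw [Fin.sum_univ_succ, Fin.cons_zero] at hg
        simpa using hg
      have h2 : i = 0 := Fin.ext (by have := i.2; omega)
      rw [h2]
      exact (smul_eq_zero.1 h1).resolve_right hv
    | succ m ih =>
      intro hm
      obtain ⟨u, hu⟩ := ih (by omega)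
      obtain ⟨x, hx⟩ := exists_linearIndependent_snoc_of_lt_finrank hu (by omega)
      refine ⟨Fin.snoc u x, ?_⟩
      rw [Fin.cons_snoc_eq_snoc_cons]
      exact hx
  exact main n le_rfl

/-- the polynomials of a tuple of forms -/
noncomputable def tp {d : ℕ} (F : Fin (d + 1) → Fin (N + 1) → k) (i : Fin (N + 1)) : k[X] :=
  ∑ j : Fin (d + 1), C (F j i) * X ^ (j : ℕ)

theorem tp_eval {d : ℕ} (F : Fin (d + 1) → Fin (N + 1) → k) (i : Fin (N + 1)) (x : k) :
    (tp F i).eval x = val F 1 x i := by
  simp [tp, val, Polynomial.eval_finsetSum]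

theorem tp_natDegree {d : ℕ} (F : Fin (d + 1) → Fin (N + 1) → k) (i : Fin (N + 1)) :
    (tp F i).natDegree ≤ d := by
  apply natDegree_sum_le_of_forall_le
  intro j _
  refine (natDegree_C_mul_X_pow_le _ _).trans ?_
  have := j.2
  omega

theorem tp_coeff {d : ℕ} (F : Fin (d + 1) → Fin (N + 1) → k) (i : Fin (N + 1)) :
    (tp F i).coeff d = F (Fin.last d) i := by
  rw [tp, finset_sum_coeff, Finset.sum_eq_single (Fin.last d)]
  · simp
  · intro j _ hj
    rw [coeff_C_mul_X_pow, if_neg]
    intro h
    exact hj (Fin.ext (by simp [h]))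
  · intro h
    exact absurd (Finset.mem_univ _) h

theorem poly_zero [Infinite k] {f : k[X]} (h : ∀ x, f.eval x = 0) : f = 0 := by
  apply Polynomial.eq_zero_of_infinite_isRoot
  exact Set.infinite_univ.mono fun s _ => h s

theorem dif_poly_eval (E : MvPolynomial (Fin (N + 1)) k) (R g : Fin (N + 1) → k[X]) (x : k) :
    (dif E R g).eval x = dif E (fun i => (R i).eval x) (fun i => (g i).eval x) :=
  V6.eval_dif E R g x

/-- a section of degree `≤ d - 1` with prescribed value at infinity, modulo the curve -/
theorem exists_sec [Infinite k] {V : Set (Fin (N + 1) → k)} {d : ℕ}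
    {F : Fin (d + 1) → Fin (N + 1) → k} (hEul : ∀ E ∈ van V, dif E (tp F) (tp F) = 0)
    (hvf : VeryFree V F) {w : Fin (N + 1) → k} (hw : w ∈ Tan V (val F 0 1)) :
    ∃ (g : Fin (N + 1) → k[X]) (b : k), (∀ i, g i ≠ 0 → (g i).natDegree + 1 ≤ d) ∧
      Tang V (tp F) g ∧ ∀ i, (X * g i).coeff d = w i + b * F (Fin.last d) i := by
  obtain ⟨G, hG, ⟨a, ha⟩, a', ha'⟩ := hvf 1 0 0 1 (by simp) 0 (Submodule.zero_mem _) w hw
  have h0 : ∀ i, (tp G i - C a * tp F i).eval 0 = 0 := by
    intro i
    rw [eval_sub, eval_mul, eval_C, tp_eval, tp_eval, ha]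
    simp
  have h1 : ∀ i, ∃ g, tp G i - C a * tp F i = X * g := by
    intro i
    have h2 := dvd_iff_isRoot.2 (h0 i)
    rw [C_0, sub_zero] at h2
    exact h2
  choose g hg using h1
  refine ⟨g, a' - a, fun i hi => ?_, fun E hE => ?_, fun i => ?_⟩
  · have h2 : (tp G i - C a * tp F i).natDegree ≤ d :=
      (natDegree_sub_le _ _).trans (max_le (tp_natDegree G i)
        ((natDegree_C_mul_le _ _).trans (tp_natDegree F i)))
    rw [hg i, natDegree_mul X_ne_zero hi, natDegree_X] at h2
    omega
  · have hX : X * dif E (tp F) g = 0 := by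
      have e1 : X * dif E (tp F) g = dif E (tp F) (tp G) - C a * dif E (tp F) (tp F) := by
        simp only [dif, Finset.mul_sum, ← Finset.sum_sub_distrib]
        refine Finset.sum_congr rfl fun i _ => ?_
        linear_combination (-(MvPolynomial.aeval (tp F) (MvPolynomial.pderiv i E))) * hg i
      rw [e1, hEul E hE, mul_zero, sub_zero]
      apply poly_zero
      intro x
      rw [dif_poly_eval]
      have e2 : (fun i => (tp F i).eval x) = val F 1 x := funext fun i => tp_eval F i x
      have e3 : (fun i => (tp G i).eval x) = val G 1 x := funext fun i => tp_eval G i x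
      rw [e2, e3]
      exact hG 1 x E hE
    exact (mul_eq_zero.1 hX).resolve_left X_ne_zero
  · rw [← hg i, coeff_sub, coeff_C_mul, tp_coeff, tp_coeff]
    have h2 := congrFun ha' i
    rw [V6.val_zero_one, Pi.add_apply, Pi.smul_apply, V6.val_zero_one, smul_eq_mul] at h2
    rw [h2]
    ring

end StartAux

open StartAux in
/-- [F-START] from the very free curve -/
theorem start [IsAlgClosed k] (D : VData k N n c) {d : ℕ} (F : Fin (d + 1) → Fin (N + 1) → k)
    (hF : IsCurve D.V F) (hvf : VeryFree D.V F) :
    HasCurve D (Fin.elim0 : Fin 0 → Fin (N + 1) → k) := by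
  classical
  have hInf : Infinite k := IsAlgClosed.instInfinite
  have hfin : ∀ x : k, (fun i => (tp F i).eval x) ∈ D.V := by
    intro x
    have : (fun i => (tp F i).eval x) = val F 1 x := funext fun i => tp_eval F i x
    rw [this]
    exact hF 1 x (Or.inl one_ne_zero)
  have hoo : (fun i => (tp F i).coeff d) ∈ D.V := by
    have : (fun i => (tp F i).coeff d) = val F 0 1 := funext fun i => by
      rw [tp_coeff, V6.val_zero_one]
    rw [this]
    exact hF 0 1 (Or.inr one_ne_zero)
  have honV : OnV D.V (tp F) := by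
    intro E hE
    apply poly_zero
    intro x
    rw [V6.eval_aeval]
    exact hE _ (hfin x)
  have hEul : ∀ E ∈ van D.V, dif E (tp F) (tp F) = 0 := by
    intro E hE
    have h4 : E = ∑ e ∈ Finset.range (E.totalDegree + 1), MvPolynomial.homogeneousComponent e E :=
      (MvPolynomial.sum_homogeneousComponent E).symm
    have h1 : ∀ e, dif (MvPolynomial.homogeneousComponent e E) (tp F) (tp F) = 0 := by
      intro e
      have h2 := (MvPolynomial.homogeneousComponent_isHomogeneous e E).sum_X_mul_pderiv
      have h3 := congrArg (MvPolynomial.aeval (tp F)) h2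
      rw [map_sum, map_nsmul, honV _ (D.hom E hE e), smul_zero] at h3
      rw [← h3]
      refine Finset.sum_congr rfl fun i _ => ?_
      rw [map_mul, MvPolynomial.aeval_X, mul_comm]
    have h5 : dif E (tp F) (tp F) = ∑ e ∈ Finset.range (E.totalDegree + 1),
        dif (MvPolynomial.homogeneousComponent e E) (tp F) (tp F) := by
      conv_lhs => rw [h4]
      simp only [dif, map_sum, Finset.sum_mul]
      exact Finset.sum_comm
    rw [h5]
    exact Finset.sum_eq_zero fun e _ => h1 e
  have hval : val F 0 1 = fun i => F (Fin.last d) i := funext fun i => V6.val_zero_one F i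
  have hV0 : val F 0 1 ∈ D.V := hF 0 1 (Or.inr one_ne_zero)
  have hlast0 : val F 0 1 ≠ 0 := by
    intro h
    obtain ⟨-, l, hl⟩ := (D.mem_iff _).1 hV0
    apply hl
    rw [h]
    have h1 := D.homH l
    have h2 : MvPolynomial.aeval (0 : Fin (N + 1) → k) (D.H l) = 0 := by
      have h3 : MvPolynomial.aeval (0 : Fin (N + 1) → k) (D.H l) =
          MvPolynomial.constantCoeff (D.H l) := by
        simp [MvPolynomial.aeval_zero]
      rw [h3, MvPolynomial.constantCoeff_eq]
      apply h1.coeff_eq_zero
      rw [map_zero]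
      exact (D.hpos l).ne
    exact h2
  have hTan0 : val F 0 1 ∈ Tan D.V (val F 0 1) := by
    intro E hE
    have h4 : E = ∑ e ∈ Finset.range (E.totalDegree + 1), MvPolynomial.homogeneousComponent e E :=
      (MvPolynomial.sum_homogeneousComponent E).symm
    have h1 : ∀ e, dif (MvPolynomial.homogeneousComponent e E) (val F 0 1) (val F 0 1) = 0 := by
      intro e
      have h2 := (MvPolynomial.homogeneousComponent_isHomogeneous e E).sum_X_mul_pderiv
      have h3 := congrArg (MvPolynomial.aeval (val F 0 1)) h2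
      rw [map_sum, map_nsmul, D.hom E hE e _ hV0, smul_zero] at h3
      refine Eq.trans ?_ h3
      refine Finset.sum_congr rfl fun i _ => ?_
      rw [map_mul, MvPolynomial.aeval_X, mul_comm]
    have h5 : dif E (val F 0 1) (val F 0 1) = ∑ e ∈ Finset.range (E.totalDegree + 1),
        dif (MvPolynomial.homogeneousComponent e E) (val F 0 1) (val F 0 1) := by
      conv_lhs => rw [h4]
      simp only [dif, map_sum, Finset.sum_mul]
      exact Finset.sum_comm
    rw [h5]
    exact Finset.sum_eq_zero fun e _ => h1 e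
  have hfr : Module.finrank k (Tan D.V (val F 0 1)) = n + 1 := by
    have h1 := finrank_tan hV0 (D.smooth _ hV0)
    rw [Fintype.card_fin] at h1
    have := D.hc
    omega
  obtain ⟨u, hu⟩ := exists_cons_basis hfr (v := ⟨_, hTan0⟩) (by
    intro h
    exact hlast0 (congrArg Subtype.val h))
  have hu' : LinearIndependent k (Fin.cons (val F 0 1)
      (fun j => (u j : Fin (N + 1) → k)) : Fin (n + 1) → Fin (N + 1) → k) := by
    have h1 := hu.map' (Tan D.V (val F 0 1)).subtype (Submodule.ker_subtype _)
    have h2 : (Fin.cons (val F 0 1)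
        (fun j => (u j : Fin (N + 1) → k)) : Fin (n + 1) → Fin (N + 1) → k) =
        ((Tan D.V (val F 0 1)).subtype ∘
          (Fin.cons ⟨val F 0 1, hTan0⟩ u : Fin (n + 1) → _)) := by
      funext j
      refine Fin.cases ?_ (fun j => ?_) j
      · rfl
      · rfl
    rw [h2]
    exact h1
  rw [Fintype.linearIndependent_iff] at hu'
  choose g b hgd hgt hgc using fun j => exists_sec hEul hvf (u j).2
  have hd : 0 < d := by
    rcases Nat.eq_zero_or_pos d with h0 | h0
    · exfalso
      subst h0
      have h1 := hu' (Fin.cons (b ⟨0, D.hn⟩) (fun j => if j = ⟨0, D.hn⟩ then 1 else 0)) (by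
        funext i
        have h2 := hgc ⟨0, D.hn⟩ i
        rw [coeff_X_mul_zero] at h2
        simp only [Fin.sum_univ_succ, Fin.cons_zero, Fin.cons_succ, Pi.add_apply, Pi.smul_apply,
          Finset.sum_apply, smul_eq_mul, Pi.zero_apply, ite_mul, one_mul, zero_mul,
          Finset.sum_ite_eq', Finset.mem_univ, if_true, V6.val_zero_one]
        rw [add_comm]
        exact h2.symm) (Fin.succ ⟨0, D.hn⟩)
      rw [Fin.cons_succ, if_pos rfl] at h1
      exact one_ne_zero h1
    · exact h0
  obtain ⟨M, hM⟩ := cert_of_points D (R := tp F) (tp_natDegree F)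
    (fun x => ((D.mem_iff _).1 (hfin x)).2) ((D.mem_iff _).1 hoo).2
  have hgc' : ∀ j i, (g j i).coeff (d - 1) =
      (u j : Fin (N + 1) → k) i + b j * F (Fin.last d) i := by
    intro j i
    rw [← hgc j i]
    obtain ⟨e, rfl⟩ : ∃ e, d = e + 1 := ⟨d - 1, by omega⟩
    rw [coeff_X_mul]
    rfl
  refine ⟨d, hd, tp F, Fin.elim0, fun a => a.elim0, fun l => l.elim0,
    ⟨tp_natDegree F, honV, 1, one_ne_zero, M, hM⟩, fun l => l.elim0, g,
    ⟨fun j i => ?_, hgt, fun _ l => l.elim0, ?_⟩⟩
  · by_cases h0 : g j i = 0
    · rw [h0, natDegree_zero]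
      exact hd
    · have := hgd j i h0
      omega
  · rw [Fintype.linearIndependent_iff]
    intro s hs
    have h1 := hu' (Fin.cons (s 0 + ∑ j, s (Fin.succ j) * b j) (fun j => s (Fin.succ j))) (by
      funext i
      have h2 := congrFun hs i
      simp only [Fin.sum_univ_succ, Fin.cons_zero, Fin.cons_succ, Pi.add_apply, Pi.smul_apply,
        Finset.sum_apply, smul_eq_mul, Pi.zero_apply, hgc', tp_coeff, V6.val_zero_one] at h2 ⊢
      refine Eq.trans ?_ h2
      rw [add_mul, Finset.sum_mul, add_assoc, ← Finset.sum_add_distrib]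
      congr 1
      refine Finset.sum_congr rfl fun j _ => ?_
      ring)
    have h4 : ∀ j : Fin n, s (Fin.succ j) = 0 := by
      intro j
      have := h1 (Fin.succ j)
      rwa [Fin.cons_succ] at this
    have h5 : s 0 = 0 := by
      have := h1 0
      rw [Fin.cons_zero] at this
      simpa only [h4, zero_mul, Finset.sum_const_zero, add_zero] using this
    intro l
    exact Fin.cases h5 (fun j => h4 j) l

end Pool.Agent.VFF
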