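import Pool.Agent.Lib_MP_1858fb_f.StepT
import Pool.Agent.Lib_MP_1858fb_s.Transfer

/-! # MP_1858fb_ag, line F: curves over a domain over `k` specialise to curves over `k` -/

namespace Pool.Agent.VFF

open Pool.Agent.VF Polynomial

variable {k : Type} [Field k] {N n c : ℕ}

theorem stepF_exists_spec [IsAlgClosed k] {P : Type} [CommRing P] [IsDomain P] [Algebra k P]
    {S U : Set P} (hS : S.Finite) (hU : U.Finite) (hU0 : ∀ u ∈ U, u ≠ 0) :
    ∃ (A : Subalgebra k P) (φ : A →ₐ[k] k), S ⊆ A ∧ ∀ u ∈ U, ∃ h : u ∈ A, φ ⟨u, h⟩ ≠ 0 := by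
  let ι : P →ₐ[k] FractionRing P := IsScalarTower.toAlgHom k P (FractionRing P)
  have hinj : Function.Injective ι := IsFractionRing.injective P (FractionRing P)
  obtain ⟨A', φ', h1, h2⟩ := VFS.exists_spec (k := k) (K := FractionRing P) (hS.image ι)
    (hU.image ι) (by
      rintro _ ⟨u, hu, rfl⟩
      rw [Ne, map_eq_zero_iff ι hinj]
      exact hU0 u hu)
  let ψ : A'.comap ι →ₐ[k] A' :=
    AlgHom.codRestrict (ι.comp (A'.comap ι).val) A' fun x => x.2
  refine ⟨A'.comap ι, φ'.comp ψ, ?_, ?_⟩
  · intro s hs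
    exact h1 ⟨s, hs, rfl⟩
  · intro u hu
    obtain ⟨h3, h4⟩ := h2 (ι u) ⟨u, hu, rfl⟩
    exact ⟨h3, h4⟩

/-- a right inverse up to a factor -/
theorem stepF_minor {P : Type} [CommRing P] [IsDomain P] {a b : Type} [Fintype a] [Fintype b]
    [DecidableEq a] [DecidableEq b] (M : a → b → P) (h : LinearIndependent P M) :
    ∃ (B : b × a → P) (δ : P), δ ≠ 0 ∧
      ∀ i j, ∑ l, M i l * B (l, j) = if i = j then δ else 0 := by
  let K := FractionRing P
  have hinj : Function.Injective (algebraMap P K) := IsFractionRing.injective P K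
  let M' : a → b → K := fun i l => algebraMap P K (M i l)
  have hM' : LinearIndependent K M' := by
    rw [← LinearIndependent.iff_fractionRing P K]
    let f : (b → P) →ₗ[P] (b → K) := LinearMap.compLeft (Algebra.linearMap P K) b
    have hf : LinearMap.ker f = ⊥ := by
      rw [LinearMap.ker_eq_bot]
      intro x y hxy
      funext l
      exact hinj (congrFun hxy l)
    exact h.map' f hf
  have hfi : Function.Injective (Fintype.linearCombination K M') := by
    rw [← LinearMap.ker_eq_bot, LinearMap.ker_eq_bot']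
    intro w hw
    funext i
    exact Fintype.linearIndependent_iff.1 hM' w
      (by rwa [Fintype.linearCombination_apply] at hw) i
  obtain ⟨g, hg⟩ := (Fintype.linearCombination K M').exists_leftInverse_of_injective
    (LinearMap.ker_eq_bot.2 hfi)
  let B' : b × a → K := fun x => g (Pi.single x.1 1) x.2
  have hB' : ∀ i j, ∑ l, M' i l * B' (l, j) = if i = j then 1 else 0 := by
    intro i j
    have h1 : M' i = ∑ l, M' i l • (Pi.single l (1 : K) : b → K) := by
      funext l'
      simp [Finset.sum_apply, Pi.single_apply]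
    have h2 : g (M' i) = Pi.single i 1 := by
      have := LinearMap.congr_fun hg (Pi.single i 1)
      simpa [Fintype.linearCombination_apply, Pi.single_apply] using this
    have h3 := congrFun h2 j
    rw [h1, map_sum, Finset.sum_apply] at h3
    simp only [map_smul, Pi.smul_apply, smul_eq_mul] at h3
    simp only [B']
    rw [h3, Pi.single_apply]
    by_cases hij : i = j
    · simp [hij]
    · rw [if_neg hij, if_neg fun h => hij h.symm]
  obtain ⟨δ, hδ⟩ := IsLocalization.exist_integer_multiples_of_finite (nonZeroDivisors P) B'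
  choose B hB using hδ
  refine ⟨B, δ, nonZeroDivisors.coe_ne_zero δ, fun i j => ?_⟩
  apply hinj
  have h4 : algebraMap P K (∑ l, M i l * B (l, j)) = algebraMap P K δ * ∑ l, M' i l * B' (l, j) := by
    rw [map_sum, Finset.mul_sum]
    refine Finset.sum_congr rfl fun l _ => ?_
    rw [map_mul, hB (l, j), Algebra.smul_def]
    simp only [M']
    ring
  rw [h4, hB']
  split_ifs <;> simp

theorem stepF_ind {P : Type} [CommRing P] [IsDomain P] {a b : Type} [Fintype a] [Fintype b]
    [DecidableEq a] (M : a → b → P) (B : b × a → P) (δ : P) (hδ : δ ≠ 0)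
    (h : ∀ i j, ∑ l, M i l * B (l, j) = if i = j then δ else 0) : LinearIndependent P M := by
  rw [Fintype.linearIndependent_iff]
  intro w hw j
  have h1 : ∑ l, (∑ i, w i • M i) l * B (l, j) = w j * δ := by
    calc ∑ l, (∑ i, w i • M i) l * B (l, j)
        = ∑ i, w i * ∑ l, M i l * B (l, j) := by
          simp only [Finset.sum_apply, Pi.smul_apply, smul_eq_mul, Finset.sum_mul, Finset.mul_sum]
          rw [Finset.sum_comm]
          refine Finset.sum_congr rfl fun i _ => Finset.sum_congr rfl fun l _ => by ring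
      _ = w j * δ := by
          simp [h]
  rw [hw] at h1
  simp only [Pi.zero_apply, zero_mul, Finset.sum_const_zero] at h1
  exact (mul_eq_zero.1 h1.symm).resolve_right hδ

theorem stepF_aeval {A B : Type} [CommRing A] [CommRing B] [Algebra k A] [Algebra k B]
    (f : A →ₐ[k] B) {σ : Type} (Q : σ → A[X]) (E : MvPolynomial σ k) :
    MvPolynomial.aeval (fun i => (Q i).map (f : A →+* B)) E
      = (MvPolynomial.aeval Q E).map (f : A →+* B) := by
  have h3 : (fun a => (Q a).map (f : A →+* B)) = fun a => Polynomial.mapAlgHom f (Q a) := rfl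
  rw [h3, ← MvPolynomial.comp_aeval_apply]
  rfl

theorem stepF_lift {P : Type} [CommRing P] [Algebra k P] (A : Subalgebra k P) {α : Type}
    (F : α → P[X]) (h : ∀ a, ((F a).coeffs : Set P) ⊆ A) :
    ∃ Q : α → A[X], ∀ a, (Q a).map (A.val : A →+* P) = F a := by
  have : ∀ a, ∃ q : A[X], q.map (A.val : A →+* P) = F a := by
    intro a
    have h1 : F a ∈ Polynomial.lifts (A.val : A →+* P) := by
      rw [Polynomial.lifts_iff_coeff_lifts]
      intro m
      by_cases h0 : (F a).coeff m = 0
      · exact ⟨0, by rw [map_zero, h0]⟩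
      · have h2 : (F a).coeff m ∈ A := by
          apply h a
          rw [Finset.mem_coe, Polynomial.mem_coeffs_iff]
          exact ⟨m, Polynomial.mem_support_iff.mpr h0, rfl⟩
        exact ⟨⟨(F a).coeff m, h2⟩, rfl⟩
    exact (Polynomial.mem_lifts _).1 h1
  choose Q hQ using this
  exact ⟨Q, hQ⟩

/-- a curve with sections over a domain over `k` specialises to a curve over `k` -/
theorem step_spec [IsAlgClosed k] (D : VData k N n c) {P : Type} [CommRing P] [IsDomain P]
    [Algebra k P] {d : ℕ} (hd : 0 < d) {S : Fin (N + 1) → P[X]} (hS : Curve D d S)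
    {g : Fin n → Fin (N + 1) → P[X]} (hg : Sec D d S (Fin.elim0 : Fin 0 → k) g) {m : ℕ}
    (v : Fin m → Fin (N + 1) → k) (p : Fin m → P) (hp : Function.Injective p)
    (hP : ∀ l, Prop' (v l) (fun i => (S i).eval (p l))) : HasCurve D v := by
  classical
  obtain ⟨μ, hμ, M, hM⟩ := hS.cert
  choose A0 hA1 hA2 using hM
  let A' : ℕ → Fin D.t → P[X] := fun j => if h : j ≤ M then A0 j h else 0
  have hA' : ∀ j ≤ M, ∀ l, A' j l ≠ 0 → (A' j l).natDegree + d * D.h l ≤ M := by
    intro j hj l hl
    simp only [A', dif_pos hj] at hl ⊢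
    exact hA1 j hj l hl
  have hA'' : ∀ j ≤ M, ∑ l, A' j l * MvPolynomial.aeval S (D.H l) = C μ * X ^ j := by
    intro j hj
    simp only [A', dif_pos hj]
    exact hA2 j hj
  obtain ⟨B, δ, hδ, hB⟩ := stepF_minor _ hg.ind
  -- the elements needed
  let F : (Fin (N + 1) ⊕ (Fin n × Fin (N + 1))) ⊕ (Fin (M + 1) × Fin D.t) → P[X] :=
    Sum.elim (Sum.elim S fun x => g x.1 x.2) fun x => A' x.1 x.2
  let T : Set P := (⋃ a, ((F a).coeffs : Set P)) ∪ Set.range B ∪ Set.range p
  have hT : T.Finite := ((Set.finite_iUnion fun a => (F a).coeffs.finite_toSet).union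
    (Set.finite_range B)).union (Set.finite_range p)
  let U : Set P := {μ, δ} ∪ (fun x : Fin m × Fin m => p x.1 - p x.2) '' {x | x.1 ≠ x.2}
  have hU : U.Finite := ((Set.finite_singleton δ).insert μ).union ((Set.toFinite _).image _)
  obtain ⟨A, φ, hTA, hUA⟩ := stepF_exists_spec (k := k) hT hU (by
    rintro u ((rfl | rfl) | ⟨x, hx, rfl⟩)
    · exact hμ
    · exact hδ
    · exact sub_ne_zero.2 fun h => hx (hp h))
  obtain ⟨hμA, hμφ⟩ := hUA μ (Or.inl (Or.inl rfl))
  obtain ⟨hδA, hδφ⟩ := hUA δ (Or.inl (Or.inr rfl))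
  have hBA : ∀ x, B x ∈ A := fun x => hTA (Or.inl (Or.inr ⟨x, rfl⟩))
  have hpA : ∀ l, p l ∈ A := fun l => hTA (Or.inr ⟨l, rfl⟩)
  obtain ⟨Q, hQ⟩ := stepF_lift A F fun a x hx =>
    hTA (Or.inl (Or.inl (Set.mem_iUnion.2 ⟨a, hx⟩)))
  have hval : Function.Injective (A.val : A →+* P) := Subtype.val_injective
  have hmap : Function.Injective (fun q : A[X] => q.map (A.val : A →+* P)) :=
    Polynomial.map_injective _ hval
  let QS : Fin (N + 1) → A[X] := fun i => Q (Sum.inl (Sum.inl i))
  let Qg : Fin n → Fin (N + 1) → A[X] := fun j i => Q (Sum.inl (Sum.inr (j, i)))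
  let QA : ℕ → Fin D.t → A[X] := fun j l =>
    if h : j < M + 1 then Q (Sum.inr (⟨j, h⟩, l)) else 0
  have hQS : ∀ i, (QS i).map (A.val : A →+* P) = S i := fun i => hQ (Sum.inl (Sum.inl i))
  have hQg : ∀ j i, (Qg j i).map (A.val : A →+* P) = g j i :=
    fun j i => hQ (Sum.inl (Sum.inr (j, i)))
  have hQA : ∀ j ≤ M, ∀ l, (QA j l).map (A.val : A →+* P) = A' j l := by
    intro j hj l
    have h1 : j < M + 1 := by omega
    simp only [QA, dif_pos h1]
    exact hQ (Sum.inr (⟨j, h1⟩, l))
  have hSA : S = fun i => (QS i).map (A.val : A →+* P) := by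
    funext i
    exact (hQS i).symm
  have haev : ∀ E : MvPolynomial (Fin (N + 1)) k,
      (MvPolynomial.aeval QS E).map (A.val : A →+* P) = MvPolynomial.aeval S E := by
    intro E
    rw [hSA, stepF_aeval]
  -- degrees
  have hdeg : ∀ q : A[X], (q.map (φ : A →+* k)).natDegree ≤ (q.map (A.val : A →+* P)).natDegree := by
    intro q
    rw [natDegree_map_eq_of_injective hval]
    exact natDegree_map_le
  have hcoeff : ∀ (q : A[X]) (j : ℕ), ((q.coeff j : A) : P) = (q.map (A.val : A →+* P)).coeff j := by
    intro q j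
    rw [coeff_map]
    rfl
  refine step_translate D hd (R := fun i => (QS i).map (φ : A →+* k))
    (g := fun j i => (Qg j i).map (φ : A →+* k)) ?_ ?_ v (fun l => φ ⟨p l, hpA l⟩) ?_ ?_
  · refine ⟨fun i => (hdeg _).trans (by rw [hQS]; exact hS.deg i), ?_, φ ⟨μ, hμA⟩, hμφ, M, ?_⟩
    · intro E hE
      rw [stepF_aeval]
      have h1 : MvPolynomial.aeval QS E = 0 := by
        apply hmap
        show (MvPolynomial.aeval QS E).map (A.val : A →+* P) = (0 : A[X]).map _
        rw [haev, hS.onV E hE, Polynomial.map_zero]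
      rw [h1, Polynomial.map_zero]
    · intro i hi
      refine ⟨fun l => (QA i l).map (φ : A →+* k), fun l hl => ?_, ?_⟩
      · have h1 : A' i l ≠ 0 := by
          intro h0
          apply hl
          have : QA i l = 0 := by
            apply hmap
            show (QA i l).map (A.val : A →+* P) = (0 : A[X]).map _
            rw [hQA i hi, h0, Polynomial.map_zero]
          show (QA i l).map (φ : A →+* k) = 0
          rw [this, Polynomial.map_zero]
        have h2 := hA' i hi l h1
        have h3 := hdeg (QA i l)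
        rw [hQA i hi] at h3
        show ((QA i l).map (φ : A →+* k)).natDegree + d * D.h l ≤ M
        omega
      · have h1 : ∑ l, QA i l * MvPolynomial.aeval QS (D.H l)
            = C (⟨μ, hμA⟩ : A) * X ^ i := by
          apply hmap
          show (∑ l, QA i l * MvPolynomial.aeval QS (D.H l)).map (A.val : A →+* P)
            = (C (⟨μ, hμA⟩ : A) * X ^ i).map (A.val : A →+* P)
          rw [Polynomial.map_sum, Polynomial.map_mul, Polynomial.map_C, Polynomial.map_pow,
            Polynomial.map_X]
          have h2 : (A.val : A →+* P) ⟨μ, hμA⟩ = μ := rfl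
          rw [h2, ← hA'' i hi]
          refine Finset.sum_congr rfl fun l _ => ?_
          rw [Polynomial.map_mul, hQA i hi, haev]
        have h3 := congrArg (fun q : A[X] => q.map (φ : A →+* k)) h1
        simp only [Polynomial.map_sum, Polynomial.map_mul, Polynomial.map_C, Polynomial.map_pow,
          Polynomial.map_X] at h3
        rw [← show (φ : A →+* k) ⟨μ, hμA⟩ = φ ⟨μ, hμA⟩ from rfl, ← h3]
        refine Finset.sum_congr rfl fun l _ => ?_
        rw [stepF_aeval]
  · refine ⟨fun j i => lt_of_le_of_lt (hdeg _) (by rw [hQg]; exact hg.deg j i), ?_,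
      fun _ l => l.elim0, ?_⟩
    · intro j E hE
      have h1 : dif E QS (Qg j) = 0 := by
        apply hmap
        show (dif E QS (Qg j)).map (A.val : A →+* P) = (0 : A[X]).map _
        rw [Polynomial.map_zero, ← hg.tan j E hE]
        unfold dif
        rw [Polynomial.map_sum]
        refine Finset.sum_congr rfl fun i _ => ?_
        rw [Polynomial.map_mul, haev, hQg]
      have h2 := congrArg (fun q : A[X] => q.map (φ : A →+* k)) h1
      unfold dif at h2 ⊢
      simp only [Polynomial.map_sum, Polynomial.map_mul, Polynomial.map_zero] at h2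
      rw [← h2]
      refine Finset.sum_congr rfl fun i _ => ?_
      rw [stepF_aeval]
    · refine stepF_ind _ (fun x => φ ⟨B x, hBA x⟩) (φ ⟨δ, hδA⟩) hδφ ?_
      intro i j
      let MA : Fin (n + 1) → Fin (N + 1) → A :=
        Fin.cons (fun i => (QS i).coeff d) (fun j i => (Qg j i).coeff (d - 1))
      have h1 : ∀ i l, ((MA i l : A) : P) = (Fin.cons (fun i => (S i).coeff d)
          (fun j i => (g j i).coeff (d - 1)) : Fin (n + 1) → Fin (N + 1) → P) i l := by
        intro i l
        refine Fin.cases ?_ (fun i => ?_) i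
        · simp only [MA, Fin.cons_zero]
          rw [hcoeff, hQS]
        · simp only [MA, Fin.cons_succ]
          rw [hcoeff, hQg]
      have h2 : ∀ i l, φ (MA i l) = (Fin.cons (fun i => ((QS i).map (φ : A →+* k)).coeff d)
          (fun j i => ((Qg j i).map (φ : A →+* k)).coeff (d - 1)) :
            Fin (n + 1) → Fin (N + 1) → k) i l := by
        intro i l
        refine Fin.cases ?_ (fun i => ?_) i
        · simp only [MA, Fin.cons_zero]
          rw [coeff_map]
          rfl
        · simp only [MA, Fin.cons_succ]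
          rw [coeff_map]
          rfl
      have h3 : ∑ l, MA i l * ⟨B (l, j), hBA (l, j)⟩ = if i = j then ⟨δ, hδA⟩ else 0 := by
        apply Subtype.ext
        have h4 := hB i j
        rw [AddSubmonoidClass.coe_finsetSum]
        have h5 : ((if i = j then (⟨δ, hδA⟩ : A) else 0 : A) : P) = if i = j then δ else 0 := by
          split_ifs <;> rfl
        rw [h5, ← h4]
        refine Finset.sum_congr rfl fun l _ => ?_
        rw [← h1]
        rfl
      have h6 := congrArg φ h3
      rw [map_sum] at h6
      have h7 : φ (if i = j then (⟨δ, hδA⟩ : A) else 0) = if i = j then φ ⟨δ, hδA⟩ else 0 := by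
        split_ifs
        · rfl
        · exact map_zero φ
      rw [h7] at h6
      rw [← h6]
      refine Finset.sum_congr rfl fun l _ => ?_
      rw [map_mul, ← h2]
  · intro a b hab
    by_contra hne
    obtain ⟨h1, h2⟩ := hUA (p a - p b) (Or.inr ⟨(a, b), hne, rfl⟩)
    apply h2
    have h3 : (⟨p a - p b, h1⟩ : A) = ⟨p a, hpA a⟩ - ⟨p b, hpA b⟩ := rfl
    rw [h3, map_sub, sub_eq_zero]
    exact hab
  · intro l i j
    have h1 : ∀ i, (((QS i).eval (⟨p l, hpA l⟩ : A) : A) : P) = (S i).eval (p l) := by
      intro i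
      rw [← hQS i]
      exact (Polynomial.eval_map_apply (A.val : A →+* P) (⟨p l, hpA l⟩ : A)).symm
    have h2 : ∀ i, ((QS i).map (φ : A →+* k)).eval (φ ⟨p l, hpA l⟩)
        = φ ((QS i).eval (⟨p l, hpA l⟩ : A)) := by
      intro i
      exact Polynomial.eval_map_apply (φ : A →+* k) (⟨p l, hpA l⟩ : A)
    show ((QS i).map (φ : A →+* k)).eval (φ ⟨p l, hpA l⟩) * algebraMap k k (v l j)
      = ((QS j).map (φ : A →+* k)).eval (φ ⟨p l, hpA l⟩) * algebraMap k k (v l i)
    have h3 : (QS i).eval (⟨p l, hpA l⟩ : A) * algebraMap k A (v l j)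
        = (QS j).eval (⟨p l, hpA l⟩ : A) * algebraMap k A (v l i) := by
      apply Subtype.ext
      have h4 := hP l i j
      simp only at h4
      rw [← h1, ← h1] at h4
      exact h4
    have h5 := congrArg φ h3
    rw [map_mul, map_mul, φ.commutes, φ.commutes] at h5
    rw [h2, h2]
    exact h5

/-- [F-STEP] from `k⟦x⟧` back to `k` (Nullstellensatz), translation of the parameters -/
theorem step [IsAlgClosed k] (D : VData k N n c) {w : ℕ} (vs : Fin w → Fin (N + 1) → k)
    (hvs : ∀ l, vs l ∈ D.V) {v : Fin (N + 1) → k} (hv : v ∈ D.V)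
    (h : ∃ (d : ℕ) (S : Fin (N + 1) → (PowerSeries k)[X]) (γ : Fin w → k)
      (g : Fin n → Fin (N + 1) → (PowerSeries k)[X]),
      0 < d ∧ Function.Injective γ ∧ (∀ l, γ l ≠ 0) ∧ Curve D d S ∧
      Sec D d S (Fin.elim0 : Fin 0 → k) g ∧
      Prop' v (fun i => (S i).coeff 0) ∧
      ∀ l, Prop' (vs l) (fun i => (S i).eval (PowerSeries.C (γ l) * PowerSeries.X))) :
    HasCurve D (Fin.snoc vs v : Fin (w + 1) → Fin (N + 1) → k) := by
  obtain ⟨d, S, γ, g, hd, hγ, hγ0, hS, hg, h0, hl⟩ := h
  have hcoe : ∀ a : k, PowerSeries.coeff 1 (PowerSeries.C a * PowerSeries.X) = a := by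
    intro a
    rw [PowerSeries.coeff_C_mul]
    simp
  refine step_spec D hd hS hg _
    (Fin.snoc (fun l => PowerSeries.C (γ l) * PowerSeries.X) 0 : Fin (w + 1) → PowerSeries k)
    ?_ ?_
  · intro a b
    refine Fin.lastCases ?_ (fun a => ?_) a
    · refine Fin.lastCases (fun _ => rfl) (fun b => ?_) b
      intro hab
      rw [Fin.snoc_last, Fin.snoc_castSucc] at hab
      have := congrArg (PowerSeries.coeff 1) hab
      rw [hcoe, map_zero] at this
      exact absurd this.symm (hγ0 b)
    · refine Fin.lastCases (fun hab => ?_) (fun b => ?_) b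
      · rw [Fin.snoc_last, Fin.snoc_castSucc] at hab
        have := congrArg (PowerSeries.coeff 1) hab
        rw [hcoe, map_zero] at this
        exact absurd this (hγ0 a)
      · intro hab
        rw [Fin.snoc_castSucc, Fin.snoc_castSucc] at hab
        have := congrArg (PowerSeries.coeff 1) hab
        rw [hcoe, hcoe] at this
        rw [hγ this]
  · intro l
    refine Fin.lastCases ?_ (fun l => ?_) l
    · rw [Fin.snoc_last, Fin.snoc_last]
      intro i j
      have := h0 i j
      simp only [← Polynomial.coeff_zero_eq_eval_zero]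
      exact this
    · rw [Fin.snoc_castSucc, Fin.snoc_castSucc]
      exact hl l

end Pool.Agent.VFF
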