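import Pool.Agent.Lib_MP_1858fb_f.GDefs
import Pool.Agent.Lib_MP_1858fb_f.Data
import Pool.Agent.Lib_MP_1858fb_f.StepF
import Pool.Agent.Lib_MP_1858fb_f.Start
import Pool.Agent.Lib_MP_1858fb_f.Finish
import Pool.Agent.Lib_MP_1858fb_s.Final

set_option autoImplicit false

/-! # MP_1858fb_ag, line F: the main theorem from the glued curve -/

namespace Pool.Agent.VFF

open Pool.Agent.VF Polynomial

variable {k : Type} [Field k] {N n c : ℕ}

/-- The statement of the existence of the glued curve. -/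
def Glued (D : VData k N n c) : Prop :=
  ∀ (w : ℕ) (vs : Fin w → Fin (N + 1) → k), (∀ l, vs l ∈ D.V) → HasCurve D vs →
    ∀ v : Fin (N + 1) → k, v ∈ D.V →
    ∃ (d : ℕ) (S : Fin (N + 1) → (PowerSeries k)[X]) (γ : Fin w → k)
      (g : Fin n → Fin (N + 1) → (PowerSeries k)[X]),
      0 < d ∧ Function.Injective γ ∧ (∀ l, γ l ≠ 0) ∧ Curve D d S ∧
      Sec D d S (Fin.elim0 : Fin 0 → k) g ∧
      Prop' v (fun i => (S i).coeff 0) ∧
      ∀ l, Prop' (vs l) (fun i => (S i).eval (PowerSeries.C (γ l) * PowerSeries.X))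

/-- All finite families of points of `V` lie on a curve with sections. -/
theorem hasCurve_all_of_glued [IsAlgClosed k] (D : VData k N n c) (hglue : Glued D)
    (h0 : HasCurve D (Fin.elim0 : Fin 0 → Fin (N + 1) → k)) :
    ∀ (m : ℕ) (vs : Fin m → Fin (N + 1) → k), (∀ l, vs l ∈ D.V) → HasCurve D vs := by
  intro m
  induction m with
  | zero =>
    intro vs _
    have : vs = Fin.elim0 := by funext l; exact l.elim0
    rw [this]
    exact h0
  | succ m ih =>
    intro vs hvs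
    have hi : ∀ l, Fin.init vs l ∈ D.V := fun l => hvs l.castSucc
    have hl : vs (Fin.last m) ∈ D.V := hvs (Fin.last m)
    have h1 := hglue m (Fin.init vs) hi (ih _ hi) (vs (Fin.last m)) hl
    have h2 := step D (Fin.init vs) hi hl h1
    rwa [Fin.snoc_init_self] at h2

/-- [F-MAIN] from the glued curve -/
theorem main_of_glued [IsAlgClosed k] {V : Set (Fin (N + 1) → k)} (hV : LocClosed V)
    (hirr : Irred V) (hn : 0 < n) (hc : n + c = N) (hs : ∀ x ∈ V, SmoothAt c V x)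
    (hglue : ∀ D : VData k N n c, D.V = V → Glued D) {d : ℕ}
    (F : Fin (d + 1) → Fin (N + 1) → k) (hF : IsCurve V F) (hvf : VeryFree V F) {m : ℕ}
    (vs : Fin m → Fin (N + 1) → k) (hvs : ∀ l, vs l ∈ V) :
    ∃ (d : ℕ) (F : Fin (d + 1) → Fin (N + 1) → k) (cm : Fin m → k), Function.Injective cm ∧
      IsCurve V F ∧ VeryFree V F ∧ ∀ l, ∃ a : k, a ≠ 0 ∧ val F 1 (cm l) = a • vs l := by
  obtain ⟨D, rfl⟩ := exists_vdata hV hirr hn hc hs
  exact finish D vs hvs
    (hasCurve_all_of_glued D (hglue D rfl) (start D F hF hvf) m vs hvs)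

/-- [F-FINAL] smooth points, from the glued curve -/
theorem hasProp_of_glued [IsAlgClosed k] {V : Set (Fin (N + 1) → k)} (hV : LocClosed V)
    (hirr : Irred V) (hc : c < N) (hs : ∀ x ∈ V, SmoothAt c V x)
    (hglue : ∀ D : VData k N (N - c) c, D.V = V → Glued D)
    (h : ∃ (d : ℕ) (F : Fin (d + 1) → Fin (N + 1) → k), IsCurve V F ∧ VeryFree V F) :
    VFS.HasProp V := by
  obtain ⟨d, F, hF, hvf⟩ := h
  refine VFS.hasProp_of_main hV hirr hc hs fun m vs hvs _ => ?_
  obtain ⟨d', F', cm, -, h1, h2, h3⟩ :=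
    main_of_glued hV hirr (n := N - c) (by omega) (by omega) hs hglue F hF hvf vs hvs
  refine ⟨d', F', h1, h2, fun i => ?_⟩
  obtain ⟨a, ha, hval⟩ := h3 i
  refine ⟨a⁻¹, 1, cm i, inv_ne_zero ha, Or.inl one_ne_zero, ?_⟩
  rw [hval, smul_smul, inv_mul_cancel₀ ha, one_smul]

end Pool.Agent.VFF
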