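import Pool.Agent.Lib_MP_1858fb_f.GStep
import Pool.Agent.Lib_MP_1858fb_f.Main1

set_option autoImplicit false

/-! # MP_1858fb_ag, line F: the main theorem -/

namespace Pool.Agent.VFF

open Pool.Agent.VF Polynomial

variable {k : Type} [Field k] {N n c : ℕ}

theorem glued [IsAlgClosed k] (D : VData k N n c) : Glued D :=
  fun _ vs hvs h _ hv => glued_curve D vs hvs h hv

/-- **Main theorem**: a smooth quasi-projective variety `V` of dimension at least one over an
algebraically closed field, with a very free curve: any finite number of points of `V` lies on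
one very free curve. -/
theorem main [IsAlgClosed k] {V : Set (Fin (N + 1) → k)} (hV : LocClosed V)
    (hirr : Irred V) (hn : 0 < n) (hc : n + c = N) (hs : ∀ x ∈ V, SmoothAt c V x) {d : ℕ}
    (F : Fin (d + 1) → Fin (N + 1) → k) (hF : IsCurve V F) (hvf : VeryFree V F) {m : ℕ}
    (vs : Fin m → Fin (N + 1) → k) (hvs : ∀ l, vs l ∈ V) :
    ∃ (d : ℕ) (F : Fin (d + 1) → Fin (N + 1) → k) (cm : Fin m → k), Function.Injective cm ∧
      IsCurve V F ∧ VeryFree V F ∧ ∀ l, ∃ a : k, a ≠ 0 ∧ val F 1 (cm l) = a • vs l :=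
  main_of_glued hV hirr hn hc hs (fun D _ => glued D) F hF hvf vs hvs

/-- The property which defines `V₀` holds for `V`. -/
theorem hasProp [IsAlgClosed k] {V : Set (Fin (N + 1) → k)} (hV : LocClosed V)
    (hirr : Irred V) (hc : c < N) (hs : ∀ x ∈ V, SmoothAt c V x)
    (h : ∃ (d : ℕ) (F : Fin (d + 1) → Fin (N + 1) → k), IsCurve V F ∧ VeryFree V F) :
    VFS.HasProp V :=
  hasProp_of_glued hV hirr hc hs (fun D _ => glued D) h

end Pool.Agent.VFF
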