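import Pool.Agent.Lib_MP_1858fb_f.GDefs

/-! # MP_1858fb_ag, line F: STUBS 3 (curve selection, induction step, final theorem) -/

namespace Pool.Agent.VFF

open Pool.Agent.VF Polynomial

variable {k : Type} [Field k] {N n c : ℕ}

/-- [F-SEL] curve selection: a system of equations over `V`, solvable over a field at points of
`V` outside of every proper closed subset, is solvable over `k((τ))` along an arc through the
given point `v`. The linear form `λ0` normalises the coordinate vectors. -/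
theorem curve_sel [IsAlgClosed k] (D : VData k N n c) {v : Fin (N + 1) → k} (hv : v ∈ D.V)
    (l0 : Fin (N + 1) → k) (hl0 : lin l0 v = 1) {r : ℕ}
    (Sys : Finset (MvPolynomial (Fin (N + 1) ⊕ Fin r) k))
    (h : ∀ (b : MvPolynomial (Fin (N + 1)) k) (e : ℕ), b.IsHomogeneous e → b ∉ van D.V →
      ∃ (K : Type) (_ : Field K) (_ : Algebra k K) (z : Fin (N + 1) → K) (x : Fin r → K),
        OnV D.V z ∧ lin l0 z = 1 ∧ MvPolynomial.aeval z b ≠ 0 ∧
        ∀ f ∈ Sys, MvPolynomial.aeval (Sum.elim z x) f = 0) :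
    ∃ (z : Fin (N + 1) → PowerSeries k) (x : Fin r → LaurentSeries k), OnV D.V z ∧
      lin l0 z = 1 ∧ (∀ i, PowerSeries.constantCoeff (z i) = v i) ∧
      ∀ f ∈ Sys, MvPolynomial.aeval
        (Sum.elim (fun i => HahnSeries.ofPowerSeries ℤ k (z i)) x) f = 0 := by
  sorry

/-- [F-SYS] the system of equations for `Sol` -/
theorem exists_sys (D : VData k N n c) (d : ℕ) {w : ℕ} (cm : Fin w → k)
    (vs : Fin w → Fin (N + 1) → k) (y : Fin (N + 1) → k) (M : ℕ) :
    ∃ (r : ℕ) (Sys : Finset (MvPolynomial (Fin (N + 1) ⊕ Fin r) k)),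
      ∀ (K : Type) [Field K] [Algebra k K] (z : Fin (N + 1) → K),
        Sol D d cm vs y M K z ↔
          ∃ x : Fin r → K, ∀ f ∈ Sys, MvPolynomial.aeval (Sum.elim z x) f = 0 := by
  sorry

/-- [F-GEN] generic solvability, from the formal deformation of `R0` (`fd_int` with `O = k`,
`p = n`, `a = 0`, `b = 1`, i.e. `F(0) = R0(0)` fixed and `F(∞)` moving in all directions) and the
injectivity of `k[V] → k⟦ξ⟧`. -/
theorem exists_gen [IsAlgClosed k] (D : VData k N n c) {d w : ℕ} {R : Fin (N + 1) → k[X]}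
    (hR : Curve D d R) (cm : Fin w → k) (hcm : Function.Injective cm) (hcm0 : ∀ l, cm l ≠ 0)
    (vs : Fin w → Fin (N + 1) → k) (hvs : ∀ l, vs l ∈ D.V)
    (hRm : ∀ l, Prop' (vs l) (fun i => (R i).eval (cm l)))
    {g : Fin n → Fin (N + 1) → k[X]} (hg : Sec D d R cm g) :
    ∃ (M : ℕ), ∀ (l0 : Fin (N + 1) → k), (∃ x ∈ D.V, lin l0 x ≠ 0) →
      ∀ (b : MvPolynomial (Fin (N + 1)) k) (e : ℕ), b.IsHomogeneous e → b ∉ van D.V →
      ∃ (K : Type) (_ : Field K) (_ : Algebra k K) (z : Fin (N + 1) → K), OnV D.V z ∧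
        lin l0 z = 1 ∧ MvPolynomial.aeval z b ≠ 0 ∧
        Sol D d cm vs (fun i => (R i).coeff 0) M K z := by
  sorry

/-- [F-EXR] the curve over `k((τ))` from `y` to an arc at `v`, with cleared denominators -/
theorem exists_arc_curve [IsAlgClosed k] (D : VData k N n c) {d w : ℕ} {R : Fin (N + 1) → k[X]}
    (hR : Curve D d R) (cm : Fin w → k) (hcm : Function.Injective cm) (hcm0 : ∀ l, cm l ≠ 0)
    (vs : Fin w → Fin (N + 1) → k) (hvs : ∀ l, vs l ∈ D.V)
    (hRm : ∀ l, Prop' (vs l) (fun i => (R i).eval (cm l)))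
    {g : Fin n → Fin (N + 1) → k[X]} (hg : Sec D d R cm g) {v : Fin (N + 1) → k} (hv : v ∈ D.V)
    (fv : FrameAt D v) :
    ∃ (α : Fin (N + 1) → PowerSeries k) (R' : Fin (N + 1) → (PowerSeries k)[X])
      (ρ0 ρ1 : PowerSeries k) (g' : Fin n → Fin (N + 1) → (PowerSeries k)[X]),
      OnV D.V α ∧ (∀ i, PowerSeries.constantCoeff (α i) = v i) ∧ lin (fv.l 0) α = 1 ∧
      Curve D d R' ∧ Sec D d R' cm g' ∧ ρ0 ≠ 0 ∧ ρ1 ≠ 0 ∧
      (∀ i, (R' i).coeff 0 = ρ0 * algebraMap k _ ((R i).coeff 0)) ∧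
      (∀ i, (R' i).coeff d = ρ1 * α i) ∧
      ∀ l, Prop' (vs l) (fun i => (R' i).eval (algebraMap k _ (cm l))) := by
  sorry

/-- [F-COVER] pull back by `X ↦ X ^ (w + 1)`: sections adapted to the marks -/
theorem exists_cover [IsAlgClosed k] (D : VData k N n c) {w : ℕ} (vs : Fin w → Fin (N + 1) → k)
    (h : HasCurve D vs) :
    ∃ d : ℕ, 0 < d ∧ ∃ (R : Fin (N + 1) → k[X]) (cm : Fin w → k), Function.Injective cm ∧
      (∀ l, cm l ≠ 0) ∧ Curve D d R ∧ (∀ l, Prop' (vs l) (fun i => (R i).eval (cm l))) ∧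
      ∃ g : Fin n → Fin (N + 1) → k[X], Sec D d R cm g := by
  sorry

/-- [F-DUAL] derivative of the equations -/
theorem dual_sections (V : Set (Fin (N + 1) → k)) {A B : Type} [CommRing A] [CommRing B]
    [Algebra k A] [Algebra k B] (φ : A →ₐ[k] B) (δ : A →+ B)
    (hδ : ∀ f g, δ (f * g) = φ f * δ g + φ g * δ f) (hδk : ∀ a : k, δ (algebraMap k A a) = 0)
    (S : Fin (N + 1) → A) (h : OnV V S) :
    OnV V (fun i => φ (S i)) ∧ Tang V (fun i => φ (S i)) (fun i => δ (S i)) := by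
  sorry

/-- [F-CERTEX] over an algebraically closed field the certificate exists if no point of the
projective line is mapped into the closed set -/
theorem cert_of_points [IsAlgClosed k] (D : VData k N n c) {d : ℕ} {R : Fin (N + 1) → k[X]}
    (hd : ∀ i, (R i).natDegree ≤ d) (h : ∀ x : k, ∃ l, MvPolynomial.aeval
      (fun i => (R i).eval x) (D.H l) ≠ 0)
    (hinf : ∃ l, MvPolynomial.aeval (fun i => (R i).coeff d) (D.H l) ≠ 0) :
    ∃ M, Cert D d R (1 : k) M := by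
  sorry

/-- [F-GSTEP] the glued curve over `k((x))`, `q = x ^ 2` -/
theorem glued_curve [IsAlgClosed k] (D : VData k N n c) {w : ℕ} (vs : Fin w → Fin (N + 1) → k)
    (hvs : ∀ l, vs l ∈ D.V) (h : HasCurve D vs) {v : Fin (N + 1) → k} (hv : v ∈ D.V) :
    ∃ (d : ℕ) (S : Fin (N + 1) → (PowerSeries k)[X]) (γ : Fin w → k)
      (g : Fin n → Fin (N + 1) → (PowerSeries k)[X]),
      0 < d ∧ Function.Injective γ ∧ (∀ l, γ l ≠ 0) ∧ Curve D d S ∧
      Sec D d S (Fin.elim0 : Fin 0 → k) g ∧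
      Prop' v (fun i => (S i).coeff 0) ∧
      ∀ l, Prop' (vs l) (fun i => (S i).eval (PowerSeries.C (γ l) * PowerSeries.X)) := by
  sorry

/-- [F-STEP] from `k⟦x⟧` back to `k` (Nullstellensatz), translation of the parameters -/
theorem step [IsAlgClosed k] (D : VData k N n c) {w : ℕ} (vs : Fin w → Fin (N + 1) → k)
    (hvs : ∀ l, vs l ∈ D.V) {v : Fin (N + 1) → k} (hv : v ∈ D.V)
    (h : ∃ (d : ℕ) (S : Fin (N + 1) → (PowerSeries k)[X]) (γ : Fin w → k)
      (g : Fin n → Fin (N + 1) → (PowerSeries k)[X]),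
      0 < d ∧ Function.Injective γ ∧ (∀ l, γ l ≠ 0) ∧ Curve D d S ∧
      Sec D d S (Fin.elim0 : Fin 0 → k) g ∧
      Prop' v (fun i => (S i).coeff 0) ∧
      ∀ l, Prop' (vs l) (fun i => (S i).eval (PowerSeries.C (γ l) * PowerSeries.X))) :
    HasCurve D (Fin.snoc vs v : Fin (w + 1) → Fin (N + 1) → k) := by
  sorry

/-- [F-START] from the very free curve -/
theorem start [IsAlgClosed k] (D : VData k N n c) {d : ℕ} (F : Fin (d + 1) → Fin (N + 1) → k)
    (hF : IsCurve D.V F) (hvf : VeryFree D.V F) :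
    HasCurve D (Fin.elim0 : Fin 0 → Fin (N + 1) → k) := by
  sorry

/-- [F-END] back to the definitions of `Defs.lean` -/
theorem finish [IsAlgClosed k] (D : VData k N n c) {m : ℕ} (vs : Fin m → Fin (N + 1) → k)
    (hvs : ∀ l, vs l ∈ D.V) (h : HasCurve D vs) :
    ∃ (d : ℕ) (F : Fin (d + 1) → Fin (N + 1) → k) (cm : Fin m → k), Function.Injective cm ∧
      IsCurve D.V F ∧ VeryFree D.V F ∧ ∀ l, ∃ a : k, a ≠ 0 ∧ val F 1 (cm l) = a • vs l := by
  sorry

/-- [F-MAIN] -/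
theorem main [IsAlgClosed k] {V : Set (Fin (N + 1) → k)} (hV : LocClosed V) (hirr : Irred V)
    (hn : 0 < n) (hc : n + c = N) (hs : ∀ x ∈ V, SmoothAt c V x) {d : ℕ}
    (F : Fin (d + 1) → Fin (N + 1) → k) (hF : IsCurve V F) (hvf : VeryFree V F) {m : ℕ}
    (vs : Fin m → Fin (N + 1) → k) (hvs : ∀ l, vs l ∈ V) :
    ∃ (d : ℕ) (F : Fin (d + 1) → Fin (N + 1) → k) (cm : Fin m → k), Function.Injective cm ∧
      IsCurve V F ∧ VeryFree V F ∧ ∀ l, ∃ a : k, a ≠ 0 ∧ val F 1 (cm l) = a • vs l := by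
  sorry

end Pool.Agent.VFF
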