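import Pool.Agent.Lib_MP_1858fb_f.Stub1
import Pool.Agent.Lib_MP_1858fb_f.Stub3

/-! # MP_1858fb_ag, line F: the main theorem from the pieces -/

namespace Pool.Agent.VFF

open Pool.Agent.VF Polynomial

variable {k : Type} [Field k] {N n c : ℕ}

/-- All finite families of points of `V` lie on a curve with sections. -/
theorem hasCurve_all [IsAlgClosed k] (D : VData k N n c)
    (h0 : HasCurve D (Fin.elim0 : Fin 0 → Fin (N + 1) → k)) :
    ∀ (m : ℕ) (vs : Fin m → Fin (N + 1) → k), (∀ l, vs l ∈ D.V) → HasCurve D vs := by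
  intro m
  induction m with
  | zero =>
    intro vs _
    have : vs = Fin.elim0 := by funext l; exact l.elim0
    rw [this]
    exact h0
  | succ m ih =>
    intro vs hvs
    have hi : ∀ l, Fin.init vs l ∈ D.V := fun l => hvs l.castSucc
    have hl : vs (Fin.last m) ∈ D.V := hvs (Fin.last m)
    have h1 := glued_curve D (Fin.init vs) hi (ih _ hi) hl
    have h2 := step D (Fin.init vs) hi hl h1
    rwa [Fin.snoc_init_self] at h2

/-- [F-MAIN] -/
theorem main' [IsAlgClosed k] {V : Set (Fin (N + 1) → k)} (hV : LocClosed V) (hirr : Irred V)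
    (hn : 0 < n) (hc : n + c = N) (hs : ∀ x ∈ V, SmoothAt c V x) {d : ℕ}
    (F : Fin (d + 1) → Fin (N + 1) → k) (hF : IsCurve V F) (hvf : VeryFree V F) {m : ℕ}
    (vs : Fin m → Fin (N + 1) → k) (hvs : ∀ l, vs l ∈ V) :
    ∃ (d : ℕ) (F : Fin (d + 1) → Fin (N + 1) → k) (cm : Fin m → k), Function.Injective cm ∧
      IsCurve V F ∧ VeryFree V F ∧ ∀ l, ∃ a : k, a ≠ 0 ∧ val F 1 (cm l) = a • vs l := by
  obtain ⟨D, rfl⟩ := exists_vdata hV hirr hn hc hs
  exact finish D vs hvs (hasCurve_all D (start D F hF hvf) m vs hvs)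

end Pool.Agent.VFF
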