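import Pool.Agent.Lib_MP_1858fb_f.GDefs
import Pool.Agent.Lib_MP_1858fb_f.SysAux

/-!
# MP_1858fb_ag, line F: base change along an injective homomorphism of domains (F-GS2)
-/

set_option autoImplicit false

namespace Pool.Agent.VFF

open Pool.Agent.VF Polynomial

variable {k : Type} [Field k] {N n c : ℕ}

/-- linear independence over a domain by a square matrix -/
theorem mapC_li_iff {O : Type} [CommRing O] [IsDomain O] {a b : ℕ} (v : Fin a → Fin b → O) :
    LinearIndependent O v ↔ ∃ (s : O) (B : Fin a → Fin b → O), s ≠ 0 ∧
      ∀ i j, ∑ l, B i l * v j l = if i = j then s else 0 := by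
  classical
  constructor
  · intro hv
    let K := FractionRing O
    have hinj : Function.Injective (algebraMap O K) := IsFractionRing.injective O K
    have hvK : LinearIndependent K (fun j l => algebraMap O K (v j l) : Fin a → Fin b → K) := by
      rw [Fintype.linearIndependent_iff]
      intro c hc
      obtain ⟨s, hs⟩ := IsLocalization.exist_integer_multiples_of_finset (nonZeroDivisors O)
        (Finset.univ.image c)
      have hs' : ∀ j, ∃ e : O, algebraMap O K e = algebraMap O K s * c j := by
        intro j
        obtain ⟨e, he⟩ := hs (c j) (Finset.mem_image_of_mem _ (Finset.mem_univ j))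
        exact ⟨e, by rw [he, Algebra.smul_def]⟩
      choose e he using hs'
      have h1 : ∑ j, e j • v j = 0 := by
        funext l
        apply hinj
        rw [Finset.sum_apply, map_sum, Pi.zero_apply, map_zero]
        have h2 := congrArg (fun x => algebraMap O K s * x) (congrFun hc l)
        simp only [Finset.sum_apply, Pi.smul_apply, smul_eq_mul, Pi.zero_apply, mul_zero,
          Finset.mul_sum] at h2
        rw [← h2]
        refine Finset.sum_congr rfl fun j _ => ?_
        rw [Pi.smul_apply, smul_eq_mul, map_mul, he]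
        ring
      intro i
      have h3 := Fintype.linearIndependent_iff.mp hv e h1 i
      have h4 := he i
      rw [h3, map_zero] at h4
      have h5 : algebraMap O K s ≠ 0 := by
        intro h0
        exact nonZeroDivisors.ne_zero s.2 (hinj (by rw [h0, map_zero]))
      exact (mul_eq_zero.mp h4.symm).resolve_left h5
    obtain ⟨B, hB⟩ := (sys_li_iff _).mp hvK
    obtain ⟨s, hs⟩ := IsLocalization.exist_integer_multiples_of_finset (nonZeroDivisors O)
      (Finset.univ.image fun x : Fin a × Fin b => B x.1 x.2)
    have hs' : ∀ i l, ∃ e : O, algebraMap O K e = algebraMap O K s * B i l := by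
      intro i l
      obtain ⟨e, he⟩ := hs (B i l) (Finset.mem_image.mpr ⟨(i, l), Finset.mem_univ _, rfl⟩)
      exact ⟨e, by rw [he, Algebra.smul_def]⟩
    choose e he using hs'
    refine ⟨s, e, nonZeroDivisors.ne_zero s.2, fun i j => ?_⟩
    apply hinj
    rw [map_sum]
    have h1 := congrArg (fun x => algebraMap O K s * x) (hB i j)
    simp only [Finset.mul_sum] at h1
    have h2 : ∀ l, algebraMap O K (e i l * v j l) =
        algebraMap O K s * (B i l * algebraMap O K (v j l)) := by
      intro l
      rw [map_mul, he]
      ring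
    simp only [h2]
    rw [h1]
    split_ifs <;> simp
  · rintro ⟨s, B, hs, hB⟩
    rw [Fintype.linearIndependent_iff]
    intro c hc i
    have h1 : ∑ l, B i l * (∑ j, c j • v j) l = c i * s := by
      have h2 : ∀ l, B i l * (∑ j, c j • v j) l = ∑ j, c j * (B i l * v j l) := by
        intro l
        rw [Finset.sum_apply, Finset.mul_sum]
        refine Finset.sum_congr rfl fun j _ => ?_
        rw [Pi.smul_apply, smul_eq_mul]
        ring
      simp only [h2]
      rw [Finset.sum_comm]
      simp only [← Finset.mul_sum, hB]
      rw [Finset.sum_eq_single i]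
      · rw [if_pos rfl]
      · intro j _ hj
        rw [if_neg hj.symm, mul_zero]
      · intro h
        exact absurd (Finset.mem_univ i) h
    rw [hc] at h1
    simp only [Pi.zero_apply, mul_zero, Finset.sum_const_zero] at h1
    exact (mul_eq_zero.mp h1.symm).resolve_right hs

theorem mapC_li {O O' : Type} [CommRing O] [IsDomain O] [CommRing O'] [IsDomain O']
    (φ : O →+* O') (hφ : Function.Injective φ) {a b : ℕ} {v : Fin a → Fin b → O}
    (hv : LinearIndependent O v) {v' : Fin a → Fin b → O'} (hv' : ∀ j l, v' j l = φ (v j l)) :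
    LinearIndependent O' v' := by
  obtain ⟨s, B, hs, hB⟩ := (mapC_li_iff v).mp hv
  refine (mapC_li_iff v').mpr ⟨φ s, fun i l => φ (B i l), ?_, fun i j => ?_⟩
  · intro h
    exact hs (hφ (by rw [h, map_zero]))
  · have h1 := congrArg φ (hB i j)
    rw [map_sum] at h1
    have h2 : ∀ l, φ (B i l) * v' j l = φ (B i l * v j l) := by
      intro l
      rw [map_mul, hv']
    simp only [h2]
    rw [h1]
    split_ifs <;> simp

theorem mapC_aeval {O O' : Type} [CommRing O] [CommRing O'] [Algebra k O] [Algebra k O']
    (φ : O →ₐ[k] O') {ι : Type} (f : ι → O[X]) (E : MvPolynomial ι k) :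
    MvPolynomial.aeval (fun a => (f a).map (φ : O →+* O')) E =
      (MvPolynomial.aeval f E).map (φ : O →+* O') := by
  have h1 : (MvPolynomial.aeval f E).map (φ : O →+* O') =
      Polynomial.mapAlgHom φ (MvPolynomial.aeval f E) := rfl
  rw [h1, MvPolynomial.comp_aeval_apply]
  rfl

/-- [F-GS2] base change along an injective homomorphism of domains -/
theorem curve_map (D : VData k N n c) {O O' : Type} [CommRing O] [IsDomain O] [CommRing O']
    [IsDomain O'] [Algebra k O] [Algebra k O'] (φ : O →ₐ[k] O') (hφ : Function.Injective φ)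
    {d : ℕ} {R : Fin (N + 1) → O[X]} (hR : Curve D d R) :
    Curve D d (fun i => (R i).map (φ : O →+* O')) := by
  obtain ⟨hdeg, hV, μ, hμ, M, hc⟩ := hR
  refine ⟨fun i => natDegree_map_le.trans (hdeg i), ?_, φ μ, ?_, M, ?_⟩
  · intro E hE
    rw [mapC_aeval, hV E hE, Polynomial.map_zero]
  · intro h
    exact hμ (hφ (by rw [h, map_zero]))
  · intro i hi
    obtain ⟨A, hA1, hA2⟩ := hc i hi
    refine ⟨fun l => (A l).map (φ : O →+* O'), fun l hl => ?_, ?_⟩
    · have h1 : A l ≠ 0 := by
        rintro h0
        apply hl
        show (A l).map (φ : O →+* O') = 0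
        rw [h0, Polynomial.map_zero]
      exact (Nat.add_le_add_right natDegree_map_le _).trans (hA1 l h1)
    · have h1 := congrArg (Polynomial.map (φ : O →+* O')) hA2
      rw [Polynomial.map_sum, Polynomial.map_mul, Polynomial.map_C, Polynomial.map_pow,
        Polynomial.map_X] at h1
      refine Eq.trans ?_ h1
      refine Finset.sum_congr rfl fun l _ => ?_
      rw [Polynomial.map_mul, mapC_aeval]

theorem sec_map (D : VData k N n c) {O O' : Type} [CommRing O] [IsDomain O] [CommRing O']
    [IsDomain O'] [Algebra k O] [Algebra k O'] (φ : O →ₐ[k] O') (hφ : Function.Injective φ)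
    {d w : ℕ} {R : Fin (N + 1) → O[X]} {cm : Fin w → k} {g : Fin n → Fin (N + 1) → O[X]}
    (hg : Sec D d R cm g) :
    Sec D d (fun i => (R i).map (φ : O →+* O')) cm (fun j i => (g j i).map (φ : O →+* O')) := by
  have hev : ∀ (p : O[X]) (x : k), (p.map (φ : O →+* O')).eval (algebraMap k O' x) =
      φ (p.eval (algebraMap k O x)) := by
    intro p x
    have h1 : algebraMap k O' x = (φ : O →+* O') (algebraMap k O x) := (φ.commutes x).symm
    rw [h1, Polynomial.eval_map_apply]
    rfl
  refine ⟨fun j i => lt_of_le_of_lt natDegree_map_le (hg.deg j i), fun j E hE => ?_,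
    fun j l => ?_, ?_⟩
  · have h1 := congrArg (Polynomial.map (φ : O →+* O')) (hg.tan j E hE)
    unfold dif at h1 ⊢
    rw [Polynomial.map_sum, Polynomial.map_zero] at h1
    refine Eq.trans ?_ h1
    refine Finset.sum_congr rfl fun l _ => ?_
    rw [Polynomial.map_mul, mapC_aeval]
  · obtain ⟨a, ha⟩ := hg.mark j l
    refine ⟨φ a, fun i => ?_⟩
    simp only [hev]
    rw [ha, map_mul]
  · refine mapC_li (φ : O →+* O') hφ hg.ind fun j l => ?_
    refine Fin.cases ?_ (fun j => ?_) j
    · simp only [Fin.cons_zero]
      rw [Polynomial.coeff_map]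
    · simp only [Fin.cons_succ]
      rw [Polynomial.coeff_map]

end Pool.Agent.VFF
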