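import Pool.Agent.Lib_MP_1858fb_f.Rings

/-!
Elements of the annulus ring with bounded powers on both circles are polynomials in `z = 1 / P`
over `κ⟦q⟧`; series with coefficients in a subring; powers `≤ 0` and `≥ 0`.
-/

namespace Pool.Agent.VFF

open PowerSeries

/-! ### Series with coefficients in a subring -/

section Sub

variable {A : Type*} [CommRing A]

/-- the power series with coefficients in a subring -/
def coefIn (S : Subring A) : Subring (PowerSeries A) where
  carrier := {f | ∀ j, coeff j f ∈ S}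
  mul_mem' := by
    intro f g hf hg j
    rw [coeff_mul]
    exact Subring.sum_mem _ (fun p _ => S.mul_mem (hf _) (hg _))
  one_mem' := by
    intro j
    rw [coeff_one]
    split
    · exact S.one_mem
    · exact S.zero_mem
  add_mem' := by
    intro f g hf hg j
    rw [map_add]
    exact S.add_mem (hf _) (hg _)
  zero_mem' := by
    intro j
    rw [map_zero]
    exact S.zero_mem
  neg_mem' := by
    intro f hf j
    rw [map_neg]
    exact S.neg_mem (hf _)

theorem mem_coefIn {S : Subring A} {f : PowerSeries A} : f ∈ coefIn S ↔ ∀ j, coeff j f ∈ S :=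
  Iff.rfl

theorem coefIn_eq_map {S : Subring A} {f : PowerSeries A} (hf : f ∈ coefIn S) :
    ∃ g : PowerSeries S, PowerSeries.map S.subtype g = f :=
  ⟨PowerSeries.mk fun j => ⟨coeff j f, hf j⟩, by ext j; simp⟩

theorem map_mem_coefIn {S : Subring A} (g : PowerSeries S) :
    PowerSeries.map S.subtype g ∈ coefIn S := by
  intro j
  rw [coeff_map]
  exact (coeff j g).2

/-- A series with constant coefficient one has its inverse in the same subring. -/
theorem exists_inv_coefIn {S : Subring A} {f : PowerSeries A} (hf : f ∈ coefIn S)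
    (h0 : constantCoeff f = 1) : ∃ g ∈ coefIn S, f * g = 1 ∧ constantCoeff g = 1 := by
  obtain ⟨f', rfl⟩ := coefIn_eq_map hf
  have h1 : constantCoeff f' = 1 := by
    apply Subtype.ext
    rw [← PowerSeries.coeff_zero_eq_constantCoeff_apply, PowerSeries.coeff_map,
      PowerSeries.coeff_zero_eq_constantCoeff_apply] at h0
    exact h0
  have h2 : f' * PowerSeries.invOfUnit f' 1 = 1 :=
    PowerSeries.mul_invOfUnit f' 1 (by simpa using h1)
  refine ⟨PowerSeries.map S.subtype (PowerSeries.invOfUnit f' 1), map_mem_coefIn _, ?_, ?_⟩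
  · rw [← map_mul, h2, map_one]
  · rw [← PowerSeries.coeff_zero_eq_constantCoeff_apply, PowerSeries.coeff_map,
      PowerSeries.coeff_zero_eq_constantCoeff_apply, PowerSeries.constantCoeff_invOfUnit]
    simp

end Sub

variable {κ : Type*} [CommRing κ]

/-- the coefficient of `P ^ i q ^ j` -/
noncomputable def cf (f : O κ) (i : ℤ) (j : ℕ) : κ := (coeff j f).coeff i

theorem cf_ext {f g : O κ} (h : ∀ i j, cf f i j = cf g i j) : f = g := by
  ext j i
  exact h i j

theorem cf_io2 (f : W κ) (i : ℤ) (j : ℕ) :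
    cf (io2 f) i j = if 0 ≤ i + j then coeff (i + j).toNat (coeff j f) else 0 := by
  unfold cf
  rw [coeff_io2, HahnSeries.coeff_single_mul, one_mul]
  have e : i - -(j : ℤ) = i + j := by ring
  rw [e]
  by_cases h : 0 ≤ i + j
  · rw [if_pos h]
    obtain ⟨k, hk⟩ := Int.eq_ofNat_of_zero_le h
    rw [hk, Int.toNat_natCast, HahnSeries.ofPowerSeries_apply_coeff]
  · rw [if_neg h]
    have h1 := PowerSeries.coeff_coe (R := κ) (coeff j f) (i + j)
    rw [if_pos (by omega)] at h1
    exact h1

theorem cf_io1 (f : W κ) (i : ℤ) (j : ℕ) :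
    cf (io1 f) i j = if 0 ≤ i + j then coeff j (coeff (i + j).toNat f) else 0 := by
  rw [io1_apply, cf_io2, coeff_swap]

/-! ### Laurent series with restricted powers -/

/-- Laurent series with powers `≤ 0` -/
def negL (κ : Type*) [CommRing κ] : Subring (LaurentSeries κ) where
  carrier := {x | ∀ i, 0 < i → x.coeff i = 0}
  mul_mem' := by
    intro x y hx hy i hi
    rw [HahnSeries.coeff_mul]
    apply Finset.sum_eq_zero
    rintro ⟨a, b⟩ hab
    obtain ⟨ha, hb, hab⟩ := Finset.mem_antidiagonal.1 hab
    simp only at ha hb hab ⊢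
    by_cases h : 0 < a
    · rw [hx a h, zero_mul]
    · rw [hy b (by omega), mul_zero]
  one_mem' := by
    intro i hi
    rw [HahnSeries.coeff_one, if_neg (by omega)]
  add_mem' := by
    intro x y hx hy i hi
    rw [HahnSeries.coeff_add, hx i hi, hy i hi, add_zero]
  zero_mem' := by
    intro i _
    rfl
  neg_mem' := by
    intro x hx i hi
    rw [HahnSeries.coeff_neg, hx i hi, neg_zero]

/-- Laurent series with powers `≥ 0` -/
def posL (κ : Type*) [CommRing κ] : Subring (LaurentSeries κ) where
  carrier := {x | ∀ i, i < 0 → x.coeff i = 0}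
  mul_mem' := by
    intro x y hx hy i hi
    rw [HahnSeries.coeff_mul]
    apply Finset.sum_eq_zero
    rintro ⟨a, b⟩ hab
    obtain ⟨ha, hb, hab⟩ := Finset.mem_antidiagonal.1 hab
    simp only at ha hb hab ⊢
    by_cases h : a < 0
    · rw [hx a h, zero_mul]
    · rw [hy b (by omega), mul_zero]
  one_mem' := by
    intro i hi
    rw [HahnSeries.coeff_one, if_neg (by omega)]
  add_mem' := by
    intro x y hx hy i hi
    rw [HahnSeries.coeff_add, hx i hi, hy i hi, add_zero]
  zero_mem' := by
    intro i _
    rfl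
  neg_mem' := by
    intro x hx i hi
    rw [HahnSeries.coeff_neg, hx i hi, neg_zero]

theorem mem_negL {x : LaurentSeries κ} : x ∈ negL κ ↔ ∀ i, 0 < i → x.coeff i = 0 := Iff.rfl

theorem mem_posL {x : LaurentSeries κ} : x ∈ posL κ ↔ ∀ i, i < 0 → x.coeff i = 0 := Iff.rfl

/-- A series with only powers `≥ 0` is a power series. -/
theorem posL_eq (x : LaurentSeries κ) (hx : x ∈ posL κ) :
    ∃ y : PowerSeries κ, HahnSeries.ofPowerSeries ℤ κ y = x := by
  refine ⟨PowerSeries.mk fun n => x.coeff n, ?_⟩
  ext i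
  have h1 := PowerSeries.coeff_coe (R := κ) (PowerSeries.mk fun n => x.coeff (n : ℤ)) i
  rw [h1]
  split
  · rename_i h
    exact (hx i h).symm
  · rename_i h
    rw [coeff_mk]
    congr 1
    omega

/-- Elements of `O` with powers of `P` at least `0` come from `κ⟦P⟧⟦q⟧`. -/
theorem exists_incl_of_posL {f : O κ} (hf : f ∈ coefIn (posL κ)) :
    ∃ g : PowerSeries (S κ), incl g = f := by
  choose y hy using fun j => posL_eq (coeff j f) (hf j)
  refine ⟨PowerSeries.mk y, ?_⟩
  ext1 j
  rw [coeff_incl, coeff_mk, hy]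

theorem incl_mem (g : PowerSeries (S κ)) : incl g ∈ coefIn (posL κ) := by
  intro j i hi
  rw [coeff_incl]
  have h1 := PowerSeries.coeff_coe (R := κ) (coeff j g) i
  rw [if_pos hi] at h1
  exact h1

/-- On the outer circle an element of `κ⟦Q⟧⟦q⟧` has only powers `P ^ (≤ 0)`. -/
theorem io2_up1_mem (g : PowerSeries (S κ)) : io2 (up1 g) ∈ coefIn (negL κ) := by
  intro j i hi
  change cf (io2 (up1 g)) i j = 0
  rw [cf_io2, if_pos (by omega), up1_apply, coeff_swap, coeff_up2, PowerSeries.coeff_X_pow_mul',
    if_neg (by omega)]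

/-- On the inner circle an element of `κ⟦P⟧⟦q⟧` has only powers `Q ^ (≤ 0)`. -/
theorem io1_up2_mem (g : PowerSeries (S κ)) : io1 (up2 g) ∈ coefIn (negL κ) := by
  have h := io2_up1_mem g
  rwa [io1_apply, ← up1_apply]

/-! ### Polynomials in `z = 1 / P` over `κ⟦q⟧` -/

/-- `P ^ i` -/
noncomputable def Pz (i : ℤ) : LaurentSeries κ := HahnSeries.single i 1

theorem Pz_pow (i : ℤ) (j : ℕ) : (Pz i : LaurentSeries κ) ^ j = Pz (j * i) := by
  simp [Pz, HahnSeries.single_pow]

/-- `κ⟦q⟧ → O` -/
noncomputable def cq : PowerSeries κ →+* O κ := PowerSeries.map HahnSeries.C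

/-- the substitution `z ↦ 1 / P` -/
noncomputable def ez : Polynomial (PowerSeries κ) →+* O κ :=
  Polynomial.eval₂RingHom cq (PowerSeries.C (Pz (-1)))

theorem ez_monomial (d : ℕ) (c : PowerSeries κ) :
    ez (Polynomial.monomial d c) = cq c * PowerSeries.C (Pz (-(d : ℤ))) := by
  unfold ez
  rw [Polynomial.coe_eval₂RingHom, Polynomial.eval₂_monomial, ← map_pow, Pz_pow]
  congr 3
  ring

theorem cf_cq_mul (c : PowerSeries κ) (a : ℤ) (i : ℤ) (j : ℕ) :
    cf (cq c * PowerSeries.C (Pz a)) i j = if i = a then coeff j c else 0 := by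
  unfold cf cq
  rw [PowerSeries.coeff_mul_C, PowerSeries.coeff_map]
  unfold Pz
  rw [HahnSeries.coeff_mul_single, mul_one, HahnSeries.C_apply, HahnSeries.coeff_single]
  by_cases h : i = a
  · simp [h]
  · have h' : ¬ (i - a = 0) := by omega
    simp [h, h']

theorem cf_ez (F : Polynomial (PowerSeries κ)) (d j : ℕ) :
    cf (ez F) (-(d : ℤ)) j = coeff j (F.coeff d) := by
  induction F using Polynomial.induction_on' with
  | add p q hp hq =>
    rw [map_add, Polynomial.coeff_add, map_add, ← hp, ← hq]
    unfold cf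
    rw [map_add, HahnSeries.coeff_add]
  | monomial e c =>
    rw [ez_monomial, cf_cq_mul, Polynomial.coeff_monomial]
    by_cases h : d = e
    · simp [h]
    · have h1 : ¬ (-(d : ℤ) = -(e : ℤ)) := by omega
      have h2 : ¬ (e = d) := fun h' => h h'.symm
      rw [if_neg h1, if_neg h2, map_zero]

theorem cf_ez_pos (F : Polynomial (PowerSeries κ)) (i : ℤ) (hi : 0 < i) (j : ℕ) :
    cf (ez F) i j = 0 := by
  induction F using Polynomial.induction_on' with
  | add p q hp hq =>
    rw [map_add]
    unfold cf at hp hq ⊢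
    rw [map_add, HahnSeries.coeff_add, hp, hq, add_zero]
  | monomial e c =>
    rw [ez_monomial, cf_cq_mul, if_neg (by omega)]

theorem ez_injective : Function.Injective (ez : Polynomial (PowerSeries κ) → O κ) := by
  intro F G h
  ext d j
  rw [← cf_ez, ← cf_ez, h]

/-- An element of `W` with only powers `P ^ (≤ 0)` on the outer circle and only powers
`Q ^ (≤ D)` on the inner circle is a polynomial of degree at most `D` in `z = 1 / P`. -/
theorem exists_poly (f : W κ) (D : ℕ) (hn : ∀ i j, 0 < i → cf (io2 f) i j = 0)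
    (hD : ∀ i j, (D : ℤ) < i → cf (io1 f) i j = 0) :
    ∃ F : Polynomial (PowerSeries κ), F.natDegree ≤ D ∧ ez F = io2 f ∧
      ∀ d j, coeff j (F.coeff d) = if d ≤ j then coeff (j - d) (coeff j f) else 0 := by
  have h1 : ∀ i j : ℕ, j < i → coeff i (coeff j f) = 0 := by
    intro i j hij
    have h := hn ((i : ℤ) - j) j (by omega)
    rw [cf_io2, if_pos (by omega)] at h
    have e : ((i : ℤ) - j + j).toNat = i := by omega
    rwa [e] at h
  have h2 : ∀ i j : ℕ, i + D < j → coeff i (coeff j f) = 0 := by
    intro i j hij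
    have h := hD ((j : ℤ) - i) i (by omega)
    rw [cf_io1, if_pos (by omega)] at h
    have e : ((j : ℤ) - i + i).toNat = j := by omega
    rwa [e] at h
  let c : ℕ → PowerSeries κ := fun d => PowerSeries.mk fun j =>
    if d ≤ j then coeff (j - d) (coeff j f) else 0
  let F : Polynomial (PowerSeries κ) := ∑ d ∈ Finset.range (D + 1), Polynomial.monomial d (c d)
  have hF : ∀ d, F.coeff d = c d := by
    intro d
    simp only [F, Polynomial.finsetSum_coeff, Polynomial.coeff_monomial]
    rw [Finset.sum_ite_eq']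
    split
    · rfl
    · rename_i hd
      rw [Finset.mem_range] at hd
      ext j
      simp only [c, coeff_mk, map_zero]
      split
      · exact (h2 _ _ (by omega)).symm
      · rfl
  have hFc : ∀ d j, coeff j (F.coeff d) = if d ≤ j then coeff (j - d) (coeff j f) else 0 := by
    intro d j
    rw [hF, coeff_mk]
  refine ⟨F, ?_, ?_, hFc⟩
  · apply Polynomial.natDegree_sum_le_of_forall_le
    intro d hd
    exact (Polynomial.natDegree_monomial_le _).trans (by rw [Finset.mem_range] at hd; omega)
  · apply cf_ext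
    intro i j
    by_cases hi : 0 < i
    · rw [cf_ez_pos _ _ hi, hn i j hi]
    · obtain ⟨d, hd⟩ : ∃ d : ℕ, i = -(d : ℤ) := ⟨(-i).toNat, by omega⟩
      subst hd
      rw [cf_ez, hFc, cf_io2]
      by_cases hdj : d ≤ j
      · rw [if_pos hdj, if_pos (by omega)]
        have e : (-(d : ℤ) + j).toNat = j - d := by omega
        rw [e]
      · rw [if_neg hdj, if_neg (by omega)]

end Pool.Agent.VFF
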