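import Pool.Agent.Lib_MP_1858fb_f.Main
import Pool.Agent.Lib_MP_1858fb_g.Defs2

set_option autoImplicit false

/-! # MP_1858fb_ag: the quasi-projective theorem in the form used by line G -/

namespace Pool.Agent.VFF

open Pool.Agent.VF

/-- The main theorem of line F in the form `QPTheorem`. -/
theorem qpTheorem (k : Type) [Field k] [IsAlgClosed k] : VFG.QPTheorem k := by
  intro N c d m V F v hc hV hirr hs hF hvf hv
  obtain ⟨d', F', a, ha, h1, h2, h3⟩ :=
    main (n := N - c) (c := c) hV hirr (by omega) (by omega) hs F hF hvf v hv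
  exact ⟨d', F', a, ha, h1, h2, h3⟩

end Pool.Agent.VFF
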