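import Mathlib

/-!
# Abstract recursion with bounded denominators: the tools

* `taylor2`: second order Taylor expansion of a polynomial over any commutative ring;
* `ordI`: the ideal of the power series of order at least `n`;
* `exists_ginv`: a matrix `A` over a domain has a generalised inverse `B` up to a factor `t ≠ 0`.
-/

namespace Pool.Agent.VFF.RecC

open MvPolynomial

section Taylor

/-- Second order Taylor expansion. -/
theorem taylor2 {R A σ : Type*} [CommRing R] [CommRing A] [Algebra R A] [Fintype σ]
    (x h : σ → A) (Φ : MvPolynomial σ R) :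
    aeval (x + h) Φ - aeval x Φ - ∑ i, h i * aeval x (pderiv i Φ) ∈
      Ideal.span (Set.range h) ^ 2 := by
  classical
  induction Φ using MvPolynomial.induction_on with
  | C a => simp
  | add p q hp hq =>
    have h1 := add_mem hp hq
    convert h1 using 1
    simp only [map_add, mul_add, Finset.sum_add_distrib]
    ring
  | mul_X p i hp =>
    have hh : ∀ j, h j ∈ Ideal.span (Set.range h) := fun j => Ideal.subset_span ⟨j, rfl⟩
    have hL : ∑ j, h j * aeval x (pderiv j p) ∈ Ideal.span (Set.range h) :=
      Ideal.sum_mem _ fun j _ => Ideal.mul_mem_right _ _ (hh j)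
    have e1 : ∑ j, h j * aeval x (pderiv j (p * X i)) =
        (∑ j, h j * aeval x (pderiv j p)) * x i + h i * aeval x p := by
      have e2 : ∀ j, h j * aeval x (pderiv j (p * X i)) =
          h j * aeval x (pderiv j p) * x i + (if i = j then h i * aeval x p else 0) := by
        intro j
        rw [pderiv_mul, pderiv_X, map_add, map_mul, map_mul, aeval_X]
        by_cases hij : i = j
        · subst hij
          rw [Pi.single_eq_same, if_pos rfl, map_one]
          ring
        · rw [Pi.single_eq_of_ne hij, if_neg hij, map_zero]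
          ring
      simp only [e2]
      rw [Finset.sum_add_distrib, ← Finset.sum_mul, Finset.sum_ite_eq]
      simp
    have e3 : aeval (x + h) (p * X i) - aeval x (p * X i) -
        ∑ j, h j * aeval x (pderiv j (p * X i)) =
        (aeval (x + h) p - aeval x p - ∑ j, h j * aeval x (pderiv j p)) * (x i + h i) +
          (∑ j, h j * aeval x (pderiv j p)) * h i := by
      rw [e1, map_mul, map_mul, aeval_X, aeval_X, Pi.add_apply]
      ring
    rw [e3]
    refine add_mem (Ideal.mul_mem_right _ _ hp) ?_
    rw [pow_two]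
    exact Ideal.mul_mem_mul hL (hh i)

end Taylor

section Ord

variable {R : Type*} [CommRing R]

/-- The ideal of the power series of order at least `n`. -/
def ordI (p : ℕ) (R : Type*) [CommRing R] (n : ℕ) : Ideal (MvPowerSeries (Fin p) R) where
  carrier := {f | ∀ m : Fin p →₀ ℕ, m.degree < n → MvPowerSeries.coeff m f = 0}
  add_mem' := fun ha hb m hm => by rw [map_add, ha m hm, hb m hm, add_zero]
  zero_mem' := fun m _ => map_zero _
  smul_mem' := fun c f hf m hm => by
    classical
    rw [smul_eq_mul, MvPowerSeries.coeff_mul]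
    refine Finset.sum_eq_zero fun t ht => ?_
    rw [Finset.HasAntidiagonal.mem_antidiagonal] at ht
    have h1 : t.1.degree + t.2.degree = m.degree := by rw [← ht, map_add]
    rw [hf t.2 (by omega), mul_zero]

theorem mem_ordI {p n : ℕ} {f : MvPowerSeries (Fin p) R} :
    f ∈ ordI p R n ↔ ∀ m : Fin p →₀ ℕ, m.degree < n → MvPowerSeries.coeff m f = 0 := Iff.rfl

theorem mul_mem_ordI {p a b : ℕ} {f g : MvPowerSeries (Fin p) R} (hf : f ∈ ordI p R a)
    (hg : g ∈ ordI p R b) : f * g ∈ ordI p R (a + b) := by
  classical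
  intro m hm
  rw [MvPowerSeries.coeff_mul]
  refine Finset.sum_eq_zero fun t ht => ?_
  rw [Finset.HasAntidiagonal.mem_antidiagonal] at ht
  have h1 : t.1.degree + t.2.degree = m.degree := by rw [← ht, map_add]
  rcases lt_or_ge t.1.degree a with h | h
  · rw [hf t.1 h, zero_mul]
  · rw [hg t.2 (by omega), mul_zero]

theorem sq_ordI_le {p n : ℕ} : ordI p R n ^ 2 ≤ ordI p R (n + n) := by
  rw [pow_two, Ideal.mul_le]
  exact fun f hf g hg => mul_mem_ordI hf hg

theorem coeff_mul_of_mem {p j : ℕ} {f g : MvPowerSeries (Fin p) R} (hf : f ∈ ordI p R j)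
    (m : Fin p →₀ ℕ) (hm : m.degree ≤ j) :
    MvPowerSeries.coeff m (f * g) = MvPowerSeries.coeff m f * MvPowerSeries.constantCoeff g := by
  classical
  rw [MvPowerSeries.coeff_mul, Finset.sum_eq_single (m, 0)]
  · rw [MvPowerSeries.coeff_zero_eq_constantCoeff_apply]
  · intro t ht hne
    rw [Finset.HasAntidiagonal.mem_antidiagonal] at ht
    have h1 : t.1.degree + t.2.degree = m.degree := by rw [← ht, map_add]
    rcases Nat.eq_zero_or_pos t.2.degree with h | h
    · exfalso
      apply hne
      have h2 : t.2 = 0 := (Finsupp.degree_eq_zero_iff _).1 h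
      ext1
      · rw [← ht, h2, add_zero]
      · exact h2
    · rw [hf t.1 (by omega), zero_mul]
  · intro h
    exact absurd (Finset.HasAntidiagonal.mem_antidiagonal.2 (by simp)) h

/-- the change of the coefficients of degree at most `j` under a correction of order `j` -/
theorem coeff_step {O : Type*} [CommRing O] [Algebra O R] {r p : ℕ}
    (Φ : MvPolynomial (Fin r ⊕ Fin p) O) (x δ : Fin r → MvPowerSeries (Fin p) R)
    (ξ : Fin p → MvPowerSeries (Fin p) R) {j : ℕ} (hj : 0 < j) (hδ : ∀ i, δ i ∈ ordI p R j)
    (m : Fin p →₀ ℕ) (hm : m.degree ≤ j) :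
    MvPowerSeries.coeff m (aeval (Sum.elim (x + δ) ξ) Φ) =
      MvPowerSeries.coeff m (aeval (Sum.elim x ξ) Φ) +
        ∑ i, MvPowerSeries.coeff m (δ i) *
          MvPowerSeries.constantCoeff (aeval (Sum.elim x ξ) (pderiv (Sum.inl i) Φ)) := by
  have h1 := taylor2 (Sum.elim x ξ) (Sum.elim δ 0) Φ
  have h2 : Sum.elim x ξ + Sum.elim δ (0 : Fin p → MvPowerSeries (Fin p) R) =
      Sum.elim (x + δ) ξ := by
    funext i
    rcases i with i | i <;> simp
  rw [h2] at h1
  have h3 : Ideal.span (Set.range (Sum.elim δ (0 : Fin p → MvPowerSeries (Fin p) R))) ≤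
      ordI p R j := by
    rw [Ideal.span_le]
    rintro _ ⟨i | i, rfl⟩
    · exact hδ i
    · exact zero_mem _
  have h4 := (sq_ordI_le (R := R)) (Ideal.pow_right_mono h3 2 h1) m (by omega)
  rw [map_sub, map_sub, Fintype.sum_sum_type, map_add, map_sum] at h4
  simp only [Sum.elim_inl, Sum.elim_inr, Pi.zero_apply, zero_mul, Finset.sum_const_zero, map_zero,
    add_zero] at h4
  rw [Finset.sum_congr rfl fun i _ => coeff_mul_of_mem (hδ i) m hm] at h4
  linear_combination h4

/-- the constant coefficient of the value of a polynomial -/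
theorem constantCoeff_aeval {O : Type*} [CommRing O] [Algebra O R] {σ : Type*} {p : ℕ}
    (Φ : MvPolynomial σ O) (x : σ → MvPowerSeries (Fin p) R) (x0 : σ → O)
    (hx : ∀ i, MvPowerSeries.constantCoeff (x i) = algebraMap O R (x0 i)) :
    MvPowerSeries.constantCoeff (aeval x Φ) = algebraMap O R (eval x0 Φ) := by
  rw [map_aeval]
  have h1 : (MvPowerSeries.constantCoeff (σ := Fin p) (R := R)).comp
      (algebraMap O (MvPowerSeries (Fin p) R)) = algebraMap O R := by
    ext a
    rw [RingHom.comp_apply, MvPowerSeries.algebraMap_apply, MvPowerSeries.constantCoeff_C]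
  rw [h1]
  have h2 : (fun i => MvPowerSeries.constantCoeff (x i)) = fun i => algebraMap O R (x0 i) :=
    funext hx
  rw [h2]
  change aeval (algebraMap O R ∘ x0) Φ = _
  rw [aeval_algebraMap_apply]
  rfl

end Ord

section Ginv

/-- A generalised inverse of a linear map of vector spaces. -/
theorem exists_ginv_linear {F V W : Type*} [Field F] [AddCommGroup V] [Module F V]
    [AddCommGroup W] [Module F W] (f : V →ₗ[F] W) :
    ∃ g : W →ₗ[F] V, ∀ v, f (g (f v)) = f v := by
  obtain ⟨g, hg⟩ := LinearMap.exists_rightInverse_of_surjective f.rangeRestrict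
    (LinearMap.range_rangeRestrict f)
  obtain ⟨g', hg'⟩ := LinearMap.exists_extend g
  refine ⟨g', fun v => ?_⟩
  have h1 : g' (f v) = g (f.rangeRestrict v) := by
    rw [← hg']
    rfl
  rw [h1]
  have h2 := LinearMap.congr_fun hg (f.rangeRestrict v)
  exact congrArg Subtype.val h2

/-- A generalised inverse of a matrix over a domain, up to a factor. -/
theorem exists_ginv {O : Type*} [CommRing O] [IsDomain O] {m n : Type*} [Fintype m] [Fintype n]
    (A : m → n → O) :
    ∃ (t : O) (B : n → m → O), t ≠ 0 ∧
      ∀ a b, ∑ i, ∑ a', A a i * (B i a' * A a' b) = t * A a b := by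
  classical
  let F := FractionRing O
  let AF : Matrix m n F := fun a i => algebraMap O F (A a i)
  obtain ⟨g, hg⟩ := exists_ginv_linear (Matrix.toLin' AF)
  let BF : Matrix n m F := LinearMap.toMatrix' g
  have h1 : AF * BF * AF = AF := by
    apply Matrix.toLin'.injective
    apply LinearMap.ext
    intro v
    rw [Matrix.toLin'_mul, Matrix.toLin'_mul]
    show Matrix.toLin' AF (Matrix.toLin' BF (Matrix.toLin' AF v)) = _
    rw [Matrix.toLin'_toMatrix']
    exact hg v
  obtain ⟨⟨t, ht⟩, hb⟩ := IsLocalization.exist_integer_multiples_of_finite (nonZeroDivisors O)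
    (fun x : n × m => BF x.1 x.2)
  choose B hB using hb
  refine ⟨t, fun i a => B (i, a), nonZeroDivisors.ne_zero ht, fun a b => ?_⟩
  apply IsFractionRing.injective O F
  have hB' : ∀ i a', algebraMap O F (B (i, a')) = algebraMap O F t * BF i a' := by
    intro i a'
    rw [hB (i, a'), Algebra.smul_def]
  have h2 := congrFun (congrFun h1 a) b
  rw [Matrix.mul_assoc, Matrix.mul_apply] at h2
  simp only [Matrix.mul_apply] at h2
  rw [map_sum, map_mul]
  have h3 : algebraMap O F (A a b) = AF a b := rfl
  rw [h3, ← h2, Finset.mul_sum]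
  refine Finset.sum_congr rfl fun i _ => ?_
  rw [map_sum, Finset.mul_sum, Finset.mul_sum]
  refine Finset.sum_congr rfl fun a' _ => ?_
  rw [map_mul, map_mul, hB']
  show algebraMap O F (A a i) * (algebraMap O F t * BF i a' * algebraMap O F (A a' b)) =
    algebraMap O F t * (algebraMap O F (A a i) * (BF i a' * algebraMap O F (A a' b)))
  ring

end Ginv

end Pool.Agent.VFF.RecC
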