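import Mathlib

/-!
# Rings of the formal gluing

`W = κ⟦P⟧⟦Q⟧`, `q = P Q`, the outer circle `κ((P))⟦q⟧` and the inner circle `κ((Q))⟦q⟧`.
Both circles are the same type `O κ`.
-/

namespace Pool.Agent.VFF

open PowerSeries

section Cong

variable {R : Type*} [CommRing R]

/-- congruence modulo `q^j` -/
def Cg (j : ℕ) (x y : PowerSeries R) : Prop := ∀ i < j, coeff i x = coeff i y

theorem Cg.refl (j : ℕ) (x : PowerSeries R) : Cg j x x := fun _ _ => rfl

theorem Cg.symm {j : ℕ} {x y : PowerSeries R} (h : Cg j x y) : Cg j y x :=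
  fun i hi => (h i hi).symm

theorem Cg.trans {j : ℕ} {x y z : PowerSeries R} (h : Cg j x y) (h' : Cg j y z) : Cg j x z :=
  fun i hi => (h i hi).trans (h' i hi)

theorem Cg.mono {i j : ℕ} {x y : PowerSeries R} (h : Cg j x y) (hij : i ≤ j) : Cg i x y :=
  fun l hl => h l (lt_of_lt_of_le hl hij)

theorem cg_zero (x y : PowerSeries R) : Cg 0 x y := fun i hi => absurd hi (Nat.not_lt_zero i)

theorem Cg.add {j : ℕ} {x y x' y' : PowerSeries R} (h : Cg j x y) (h' : Cg j x' y') :
    Cg j (x + x') (y + y') := fun i hi => by rw [map_add, map_add, h i hi, h' i hi]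

theorem Cg.neg {j : ℕ} {x y : PowerSeries R} (h : Cg j x y) : Cg j (-x) (-y) :=
  fun i hi => by rw [map_neg, map_neg, h i hi]

theorem Cg.sub {j : ℕ} {x y x' y' : PowerSeries R} (h : Cg j x y) (h' : Cg j x' y') :
    Cg j (x - x') (y - y') := fun i hi => by rw [map_sub, map_sub, h i hi, h' i hi]

theorem Cg.mul {j : ℕ} {x y x' y' : PowerSeries R} (h : Cg j x y) (h' : Cg j x' y') :
    Cg j (x * x') (y * y') := by
  intro i hi
  rw [coeff_mul, coeff_mul]
  refine Finset.sum_congr rfl fun p hp => ?_
  have h1 := Finset.HasAntidiagonal.mem_antidiagonal.1 hp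
  rw [h p.1 (by omega), h' p.2 (by omega)]

theorem Cg.pow {j : ℕ} {x y : PowerSeries R} (h : Cg j x y) (n : ℕ) : Cg j (x ^ n) (y ^ n) := by
  induction n with
  | zero => simpa using Cg.refl j 1
  | succ n ih => rw [pow_succ, pow_succ]; exact ih.mul h

theorem Cg.sum {ι : Type*} {j : ℕ} (s : Finset ι) {x y : ι → PowerSeries R}
    (h : ∀ a ∈ s, Cg j (x a) (y a)) : Cg j (∑ a ∈ s, x a) (∑ a ∈ s, y a) := by
  intro i hi
  rw [map_sum, map_sum]
  exact Finset.sum_congr rfl fun a ha => h a ha i hi

theorem Cg.map {R' : Type*} [CommRing R'] (f : R →+* R') {j : ℕ} {x y : PowerSeries R}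
    (h : Cg j x y) : Cg j (PowerSeries.map f x) (PowerSeries.map f y) := by
  intro i hi
  rw [coeff_map, coeff_map, h i hi]

theorem Cg.rescale (a : R) {j : ℕ} {x y : PowerSeries R}
    (h : Cg j x y) : Cg j (PowerSeries.rescale a x) (PowerSeries.rescale a y) := by
  intro i hi
  rw [coeff_rescale, coeff_rescale, h i hi]

/-- multiplication by `q^n` -/
theorem Cg.X_pow_mul {j : ℕ} (n : ℕ) {x y : PowerSeries R} (h : Cg j x y) :
    Cg (j + n) (X ^ n * x) (X ^ n * y) := by
  intro i hi
  rw [coeff_X_pow_mul', coeff_X_pow_mul']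
  split_ifs with hn
  · exact h _ (by omega)
  · rfl

theorem cg_X_pow_mul_zero (n : ℕ) (x : PowerSeries R) : Cg n (X ^ n * x) 0 := by
  intro i hi
  rw [coeff_X_pow_mul', if_neg (by omega), map_zero]

theorem cg_iff_dvd (j : ℕ) (x y : PowerSeries R) : Cg j x y ↔ X ^ j ∣ x - y := by
  rw [X_pow_dvd_iff]
  simp only [map_sub, sub_eq_zero, Cg]

theorem eq_of_cg {x y : PowerSeries R} (h : ∀ j, Cg j x y) : x = y := by
  ext i
  exact h (i + 1) i (Nat.lt_succ_self i)

/-- A contraction for the `q`-adic congruences has a fixed point. -/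
theorem exists_fixed {ι : Type*} (Ψ : (ι → PowerSeries R) → ι → PowerSeries R)
    (h : ∀ x y j, (∀ a, Cg j (x a) (y a)) → ∀ a, Cg (j + 1) (Ψ x a) (Ψ y a)) :
    ∃ x, Ψ x = x := by
  set s : ℕ → ι → PowerSeries R := fun n => Ψ^[n] 0 with hs
  have hstep : ∀ n, s (n + 1) = Ψ (s n) := fun n => Function.iterate_succ_apply' Ψ n 0
  have hc : ∀ n a, Cg n (s n a) (s (n + 1) a) := by
    intro n
    induction n with
    | zero => exact fun a => cg_zero _ _
    | succ n ih =>
      intro a
      rw [hstep (n + 1)]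
      conv_lhs => rw [hstep n]
      exact h _ _ n ih a
  have hc' : ∀ n m a, n ≤ m → Cg n (s n a) (s m a) := by
    intro n m a hnm
    induction m, hnm using Nat.le_induction with
    | base => exact Cg.refl _ _
    | succ m hnm ih => exact ih.trans ((hc m a).mono hnm)
  refine ⟨fun a => PowerSeries.mk fun i => coeff i (s (i + 1) a), ?_⟩
  set x : ι → PowerSeries R := fun a => PowerSeries.mk fun i => coeff i (s (i + 1) a) with hx
  have hxs : ∀ n a, Cg n (x a) (s n a) := by
    intro n a i hi
    rw [hx]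
    simp only [coeff_mk]
    exact hc' (i + 1) n a (by omega) i (Nat.lt_succ_self i)
  funext a
  apply eq_of_cg
  intro j
  have h1 : Cg (j + 1) (Ψ x a) (s (j + 1) a) := by
    rw [hstep j]
    exact h _ _ j (hxs j) a
  exact (h1.mono (Nat.le_succ j)).trans (((hxs (j + 1) a).mono (Nat.le_succ j)).symm)

theorem fixed_unique {ι : Type*} (Ψ : (ι → PowerSeries R) → ι → PowerSeries R)
    (h : ∀ x y j, (∀ a, Cg j (x a) (y a)) → ∀ a, Cg (j + 1) (Ψ x a) (Ψ y a))
    {x y : ι → PowerSeries R} (hx : Ψ x = x) (hy : Ψ y = y) : x = y := by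
  have h1 : ∀ j a, Cg j (x a) (y a) := by
    intro j
    induction j with
    | zero => exact fun a => cg_zero _ _
    | succ j ih =>
      intro a
      rw [← hx, ← hy]
      exact h x y j ih a
  funext a
  exact eq_of_cg fun j => h1 j a

end Cong

variable (κ : Type*) [CommRing κ]

/-- the inner coefficients -/
abbrev S : Type _ := PowerSeries κ

/-- Laurent series -/
abbrev Lr : Type _ := LaurentSeries κ

/-- the ring of the annulus: `κ⟦P⟧⟦Q⟧` -/
abbrev W : Type _ := PowerSeries (PowerSeries κ)

/-- the ring of a circle: `κ((P))⟦q⟧`, or `κ((Q))⟦q⟧` -/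
abbrev O : Type _ := PowerSeries (LaurentSeries κ)

variable {κ}

/-- exchange of the two variables -/
noncomputable def swapFun (f : W κ) : W κ :=
  PowerSeries.mk fun j => PowerSeries.mk fun i => coeff j (coeff i f)

theorem coeff_swapFun (f : W κ) (i j : ℕ) :
    coeff i (coeff j (swapFun f)) = coeff j (coeff i f) := by
  rw [swapFun, coeff_mk, coeff_mk]

theorem coeff_coeff_mul (f g : W κ) (i j : ℕ) :
    coeff i (coeff j (f * g)) = ∑ p ∈ Finset.HasAntidiagonal.antidiagonal j,
      ∑ r ∈ Finset.HasAntidiagonal.antidiagonal i,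
        coeff r.1 (coeff p.1 f) * coeff r.2 (coeff p.2 g) := by
  rw [coeff_mul, map_sum]
  exact Finset.sum_congr rfl fun p _ => coeff_mul _ _ _

theorem W_ext {f g : W κ} (h : ∀ i j, coeff i (coeff j f) = coeff i (coeff j g)) : f = g := by
  ext j i
  exact h i j

/-- exchange of the two variables -/
noncomputable def swap : W κ ≃+* W κ where
  toFun := swapFun
  invFun := swapFun
  left_inv f := W_ext fun i j => by rw [coeff_swapFun, coeff_swapFun]
  right_inv f := W_ext fun i j => by rw [coeff_swapFun, coeff_swapFun]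
  map_mul' f g := W_ext fun i j => by
    rw [coeff_swapFun, coeff_coeff_mul, coeff_coeff_mul, Finset.sum_comm]
    refine Finset.sum_congr rfl fun p _ => Finset.sum_congr rfl fun r _ => ?_
    rw [coeff_swapFun, coeff_swapFun]
  map_add' f g := W_ext fun i j => by
    rw [coeff_swapFun, map_add, map_add, map_add, map_add, coeff_swapFun, coeff_swapFun]

theorem coeff_swap (f : W κ) (i j : ℕ) :
    coeff i (coeff j (swap f)) = coeff j (coeff i f) := coeff_swapFun f i j

theorem swap_swap (f : W κ) : swap (swap f) = f :=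
  W_ext fun i j => by rw [coeff_swap, coeff_swap]

/-- the inclusion of power series into Laurent series, coefficientwise -/
noncomputable def incl : PowerSeries (S κ) →+* O κ :=
  PowerSeries.map (HahnSeries.ofPowerSeries ℤ κ)

theorem coeff_incl (f : PowerSeries (S κ)) (j : ℕ) :
    coeff j (incl f) = HahnSeries.ofPowerSeries ℤ κ (coeff j f) := by
  rw [incl, coeff_map]

theorem incl_injective : Function.Injective (incl (κ := κ)) := by
  intro f g h
  ext1 j
  apply HahnSeries.ofPowerSeries_injective (Γ := ℤ)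
  rw [← coeff_incl, ← coeff_incl, h]

/-- the annulus to the outer circle: `Q = q / P` -/
noncomputable def io2 : W κ →+* O κ :=
  (PowerSeries.rescale (HahnSeries.single (-1 : ℤ) (1 : κ))).comp incl

/-- the annulus to the inner circle: `P = q / Q` -/
noncomputable def io1 : W κ →+* O κ := io2.comp (swap (κ := κ) : W κ →+* W κ)

/-- `f(P, q)` in the annulus, `q = P Q` -/
noncomputable def up2 : PowerSeries (S κ) →+* W κ := PowerSeries.rescale (X : S κ)

/-- `f(Q, q)` in the annulus, `q = P Q` -/
noncomputable def up1 : PowerSeries (S κ) →+* W κ := (swap (κ := κ) : W κ →+* W κ).comp up2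

theorem io1_apply (f : W κ) : io1 f = io2 (swap f) := rfl

theorem up1_apply (f : PowerSeries (S κ)) : up1 f = swap (up2 f) := rfl

theorem swap_up1 (f : PowerSeries (S κ)) : swap (up1 f) = up2 f := by
  rw [up1_apply, swap_swap]

theorem coeff_up2 (f : PowerSeries (S κ)) (j : ℕ) : coeff j (up2 f) = X ^ j * coeff j f := by
  rw [up2, coeff_rescale]

theorem coeff_io2 (f : W κ) (j : ℕ) :
    coeff j (io2 f) = HahnSeries.single (-(j : ℤ)) (1 : κ) *
      HahnSeries.ofPowerSeries ℤ κ (coeff j f) := by
  rw [io2, RingHom.comp_apply, coeff_rescale, coeff_incl, HahnSeries.single_pow]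
  simp

theorem io2_up2 (f : PowerSeries (S κ)) : io2 (up2 f) = incl f := by
  ext1 j
  rw [coeff_io2, coeff_up2, coeff_incl, map_mul, HahnSeries.ofPowerSeries_X_pow, ← mul_assoc,
    HahnSeries.single_mul_single]
  simp

theorem io1_up1 (f : PowerSeries (S κ)) : io1 (up1 f) = incl f := by
  rw [io1_apply, swap_up1, io2_up2]

theorem io2_injective : Function.Injective (io2 (κ := κ)) := by
  intro f g h
  ext1 j
  apply HahnSeries.ofPowerSeries_injective (Γ := ℤ)
  have h1 := congrArg (fun x => HahnSeries.single ((j : ℤ)) (1 : κ) * coeff j x) h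
  simp only [coeff_io2, ← mul_assoc, HahnSeries.single_mul_single] at h1
  simpa using h1

theorem io1_injective : Function.Injective (io1 (κ := κ)) :=
  io2_injective.comp (swap (κ := κ)).injective

end Pool.Agent.VFF
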