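import Mathlib

/-!
# The rings of the formal gluing

`W = κ[[P, Q]]`, `O = κ((P))[[q]]`, `toO : W → O`, `P ↦ P`, `Q ↦ q / P`, and the exchange of `P`
and `Q` on `W`.
-/

namespace Pool.Agent.Lib_MP_1858fb_f

open PowerSeries HahnSeries Finset
open scoped LaurentSeries PowerSeries

noncomputable section

variable {κ : Type*} [CommRing κ]

/-- `κ[[P, Q]]`: power series in `Q` (outer variable) over `κ[[P]]` (inner variable) -/
abbrev W (κ : Type*) : Type _ := PowerSeries (PowerSeries κ)

/-- `κ((P))[[q]]` -/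
abbrev O (κ : Type*) [CommRing κ] : Type _ := PowerSeries (LaurentSeries κ)

/-- the coefficient of `P^i Q^j` -/
def cf (w : W κ) (i j : ℕ) : κ := PowerSeries.coeff i (PowerSeries.coeff j w)

lemma W_ext {w w' : W κ} (h : ∀ i j, cf w i j = cf w' i j) : w = w' := by
  ext j i
  exact h i j

lemma cf_mul (w w' : W κ) (i j : ℕ) : cf (w * w') i j =
    ∑ a ∈ antidiagonal j, ∑ b ∈ antidiagonal i, cf w b.1 a.1 * cf w' b.2 a.2 := by
  rw [cf, PowerSeries.coeff_mul, map_sum]
  refine sum_congr rfl fun a _ => ?_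
  rw [PowerSeries.coeff_mul]
  rfl

/-- the exchange of `P` and `Q` -/
def swapFun (w : W κ) : W κ := PowerSeries.mk fun j => PowerSeries.mk fun i => cf w j i

lemma cf_swapFun (w : W κ) (i j : ℕ) : cf (swapFun w) i j = cf w j i := by
  rw [cf, swapFun, PowerSeries.coeff_mk, PowerSeries.coeff_mk]

/-- the exchange of `P` and `Q` -/
def swap : W κ ≃+* W κ where
  toFun := swapFun
  invFun := swapFun
  left_inv w := W_ext fun i j => by rw [cf_swapFun, cf_swapFun]
  right_inv w := W_ext fun i j => by rw [cf_swapFun, cf_swapFun]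
  map_mul' w w' := W_ext fun i j => by
    rw [cf_swapFun, cf_mul, cf_mul, sum_comm]
    simp only [cf_swapFun]
  map_add' w w' := W_ext fun i j => by
    rw [cf_swapFun, cf, cf, map_add, map_add, map_add, map_add]
    exact congrArg₂ (· + ·) (cf_swapFun w i j).symm (cf_swapFun w' i j).symm

@[simp] lemma cf_swap (w : W κ) (i j : ℕ) : cf (swap w) i j = cf w j i := cf_swapFun w i j

@[simp] lemma swap_swap (w : W κ) : swap (swap w) = w := W_ext fun i j => by simp

lemma swap_C (r : κ) : swap (PowerSeries.C (PowerSeries.C r) : W κ) =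
    PowerSeries.C (PowerSeries.C r) := by
  refine W_ext fun i j => ?_
  rw [cf_swap, cf, cf, PowerSeries.coeff_C, PowerSeries.coeff_C]
  split_ifs <;> simp_all [PowerSeries.coeff_C]

/-- `P` -/
def vP : W κ := PowerSeries.C PowerSeries.X

/-- `Q` -/
def vQ : W κ := PowerSeries.X

lemma swap_vQ : swap (vQ : W κ) = vP := by
  refine W_ext fun i j => ?_
  rw [cf_swap, cf, cf, vP, vQ, PowerSeries.coeff_X, PowerSeries.coeff_C]
  split_ifs <;> simp_all [PowerSeries.coeff_one, PowerSeries.coeff_X]

lemma swap_vP : swap (vP : W κ) = vQ := by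
  rw [← swap_vQ, swap_swap]

/-- `1 / P` -/
def iP : LaurentSeries κ := HahnSeries.single (-1 : ℤ) 1

lemma iP_pow (j : ℕ) : (iP : LaurentSeries κ) ^ j = HahnSeries.single (-(j : ℤ)) 1 := by
  rw [iP, HahnSeries.single_pow, one_pow]
  congr 1
  simp

/-- `P ↦ P`, `Q ↦ q / P` -/
def toO : W κ →+* O κ :=
  (PowerSeries.rescale iP).comp (PowerSeries.map (HahnSeries.ofPowerSeries ℤ κ))

lemma coeff_toO (w : W κ) (j : ℕ) : PowerSeries.coeff j (toO w) =
    HahnSeries.single (-(j : ℤ)) 1 * HahnSeries.ofPowerSeries ℤ κ (PowerSeries.coeff j w) := by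
  rw [toO, RingHom.comp_apply, PowerSeries.coeff_rescale, PowerSeries.coeff_map, iP_pow]

lemma coeff_coeff_toO (w : W κ) (j : ℕ) (n : ℤ) : (PowerSeries.coeff j (toO w)).coeff n =
    if 0 ≤ n + j then cf w (n + j).toNat j else 0 := by
  rw [coeff_toO, HahnSeries.coeff_single_mul, one_mul, sub_neg_eq_add, cf,
    PowerSeries.coeff_coe]
  by_cases h : 0 ≤ n + j
  · rw [if_neg (not_lt.2 h), if_pos h]
    congr 2
    omega
  · rw [if_pos (not_le.1 h), if_neg h]

lemma coeff_toO_sub (w : W κ) (i j : ℕ) :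
    (PowerSeries.coeff j (toO w)).coeff ((i : ℤ) - j) = cf w i j := by
  rw [coeff_coeff_toO, if_pos (by omega)]
  congr 1
  omega

lemma toO_injective : Function.Injective (toO : W κ → O κ) := by
  intro w w' h
  refine W_ext fun i j => ?_
  rw [← coeff_toO_sub, ← coeff_toO_sub, h]

lemma toO_vP : toO (vP : W κ) = PowerSeries.C (HahnSeries.single (1 : ℤ) 1) := by
  rw [toO, RingHom.comp_apply, vP, PowerSeries.map_C, HahnSeries.ofPowerSeries_X]
  ext j n
  rw [PowerSeries.coeff_rescale, PowerSeries.coeff_C]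
  split_ifs with h
  · rw [h, pow_zero, one_mul]
  · rw [mul_zero]

lemma toO_vQ : toO (vQ : W κ) = PowerSeries.C iP * PowerSeries.X := by
  rw [toO, RingHom.comp_apply, vQ, PowerSeries.map_X, PowerSeries.rescale_X]

lemma iP_mul : (iP : LaurentSeries κ) * HahnSeries.single (1 : ℤ) 1 = 1 := by
  rw [iP, HahnSeries.single_mul_single]
  simp

/-! ### Bounded powers -/

/-- only powers of `P` at most `D` -/
def Le (D : ℤ) (f : O κ) : Prop := ∀ (j : ℕ) (n : ℤ), D < n → (PowerSeries.coeff j f).coeff n = 0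

lemma Le.mono {D D' : ℤ} (h : D ≤ D') {f : O κ} (hf : Le D f) : Le D' f :=
  fun j n hn => hf j n (lt_of_le_of_lt h hn)

lemma Le.add {D : ℤ} {f g : O κ} (hf : Le D f) (hg : Le D g) : Le D (f + g) := by
  intro j n hn
  rw [map_add, HahnSeries.coeff_add', Pi.add_apply, hf j n hn, hg j n hn, add_zero]

lemma laurent_mul {D D' : ℤ} {x y : LaurentSeries κ} (hx : ∀ n, D < n → x.coeff n = 0)
    (hy : ∀ n, D' < n → y.coeff n = 0) (n : ℤ) (hn : D + D' < n) : (x * y).coeff n = 0 := by
  rw [HahnSeries.coeff_mul]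
  refine sum_eq_zero fun a ha => ?_
  rw [mem_addAntidiagonal] at ha
  by_contra hne
  have h1 : a.1 ≤ D := by
    by_contra h
    exact hne (by rw [hx _ (not_le.1 h), zero_mul])
  have h2 : a.2 ≤ D' := by
    by_contra h
    exact hne (by rw [hy _ (not_le.1 h), mul_zero])
  omega

lemma coeff_sum' {ι : Type*} (s : Finset ι) (f : ι → LaurentSeries κ) (n : ℤ) :
    (∑ a ∈ s, f a).coeff n = ∑ a ∈ s, (f a).coeff n := by
  induction s using Finset.cons_induction with
  | empty => simp
  | cons a s ha ih => rw [sum_cons, sum_cons, HahnSeries.coeff_add', Pi.add_apply, ih]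

lemma Le.mul {D D' : ℤ} {f g : O κ} (hf : Le D f) (hg : Le D' g) : Le (D + D') (f * g) := by
  intro j n hn
  rw [PowerSeries.coeff_mul, coeff_sum']
  exact sum_eq_zero fun a _ => laurent_mul (hf a.1) (hg a.2) n hn

lemma Le.zero (D : ℤ) : Le D (0 : O κ) := by
  intro j n _
  simp

lemma Le.one : Le 0 (1 : O κ) := by
  intro j n hn
  rw [PowerSeries.coeff_one]
  split_ifs
  · rw [HahnSeries.coeff_one, if_neg (by omega)]
  · simp

lemma Le.pow {D : ℤ} {f : O κ} (hf : Le D f) (m : ℕ) : Le (m * D) (f ^ m) := by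
  induction m with
  | zero => simpa using Le.one
  | succ m ih =>
    rw [pow_succ]
    have := ih.mul hf
    refine this.mono (le_of_eq ?_)
    push_cast
    ring

/-- Laurent series with nonpositive powers only -/
def npos (κ : Type*) [CommRing κ] : Subring (LaurentSeries κ) where
  carrier := {x | ∀ n : ℤ, 0 < n → x.coeff n = 0}
  mul_mem' := by
    intro x y hx hy n hn
    exact laurent_mul (D := 0) (D' := 0) hx hy n (by simpa using hn)
  one_mem' := by
    intro n hn
    rw [HahnSeries.coeff_one, if_neg (by omega)]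
  add_mem' := by
    intro x y hx hy n hn
    rw [HahnSeries.coeff_add', Pi.add_apply, hx n hn, hy n hn, add_zero]
  zero_mem' := by
    intro n _
    simp
  neg_mem' := by
    intro x hx n hn
    rw [HahnSeries.coeff_neg', Pi.neg_apply, hx n hn, neg_zero]

/-- inverses in `R[[q]]` have coefficients in the same subring -/
lemma exists_inv_mem {R : Type*} [CommRing R] (A : Subring R) (f : R⟦X⟧)
    (hf : ∀ j, PowerSeries.coeff j f ∈ A) (h1 : PowerSeries.constantCoeff f = 1) :
    ∃ g : R⟦X⟧, (∀ j, PowerSeries.coeff j g ∈ A) ∧ f * g = 1 := by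
  set F : A⟦X⟧ := PowerSeries.mk fun j => ⟨PowerSeries.coeff j f, hf j⟩ with hF
  have hFf : PowerSeries.map A.subtype F = f := by
    ext j
    rw [PowerSeries.coeff_map, hF, PowerSeries.coeff_mk]
    rfl
  have hF1 : PowerSeries.constantCoeff F = 1 := by
    apply Subtype.ext
    rw [← PowerSeries.coeff_zero_eq_constantCoeff_apply, hF, PowerSeries.coeff_mk]
    rw [← PowerSeries.coeff_zero_eq_constantCoeff_apply] at h1
    exact h1
  have hu : IsUnit F := by
    rw [PowerSeries.isUnit_iff_constantCoeff, hF1]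
    exact isUnit_one
  obtain ⟨G, hG⟩ := hu.exists_right_inv
  refine ⟨PowerSeries.map A.subtype G, fun j => ?_, ?_⟩
  · rw [PowerSeries.coeff_map]
    exact (PowerSeries.coeff j G).2
  · rw [← hFf, ← map_mul, hG, map_one]

lemma Le.exists_inv {f : O κ} (hf : Le 0 f) (h1 : PowerSeries.constantCoeff f = 1) :
    ∃ g : O κ, Le 0 g ∧ f * g = 1 := by
  obtain ⟨g, hg, h⟩ := exists_inv_mem (npos κ) f (fun j n hn => hf j n hn) h1
  exact ⟨g, fun j n hn => hg j n hn, h⟩

/-! ### Power series in `P` and `q` inside `W` -/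

/-- `κ[[P]][[q]] → κ[[P, Q]]`, `q ↦ P Q` -/
def inc : W κ →+* W κ := PowerSeries.rescale PowerSeries.X

lemma cf_inc (f : W κ) (i j : ℕ) : cf (inc f) i j = if j ≤ i then cf f (i - j) j else 0 := by
  rw [cf, inc, PowerSeries.coeff_rescale, PowerSeries.coeff_X_pow_mul']
  rfl

lemma toO_inc (f : W κ) : toO (inc f) = PowerSeries.map (HahnSeries.ofPowerSeries ℤ κ) f := by
  rw [toO, RingHom.comp_apply, inc]
  ext j : 1
  rw [PowerSeries.coeff_rescale, PowerSeries.coeff_map, PowerSeries.coeff_rescale, map_mul,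
    map_pow, HahnSeries.ofPowerSeries_X, PowerSeries.coeff_map, ← mul_assoc, ← mul_pow, iP_mul,
    one_pow, one_mul]

/-- power series in `Q` and `q` have only nonpositive powers of `P` -/
lemma Le_toO_swap_inc (f : W κ) : Le 0 (toO (swap (inc f))) := by
  intro j n hn
  rw [coeff_coeff_toO]
  split_ifs with h
  · rw [cf_swap, cf_inc, if_neg]
    omega
  · rfl

/-! ### Laurent polynomials -/

/-- `κ[[q]][z] → κ((P))[[q]]`, `z ↦ 1 / P` -/
def ev : Polynomial κ⟦X⟧ →+* O κ :=
  Polynomial.eval₂RingHom (PowerSeries.map HahnSeries.C) (PowerSeries.C iP)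

lemma ev_C (a : κ⟦X⟧) : ev (Polynomial.C a) = PowerSeries.map HahnSeries.C a := by
  rw [ev, Polynomial.coe_eval₂RingHom, Polynomial.eval₂_C]

lemma ev_X : ev (Polynomial.X : Polynomial κ⟦X⟧) = PowerSeries.C iP := by
  rw [ev, Polynomial.coe_eval₂RingHom, Polynomial.eval₂_X]

lemma coeff_ev (p : Polynomial κ⟦X⟧) (j : ℕ) (n : ℤ) : (PowerSeries.coeff j (ev p)).coeff n =
    if n ≤ 0 then PowerSeries.coeff j (p.coeff (-n).toNat) else 0 := by
  induction p using Polynomial.induction_on' with
  | add p q hp hq =>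
    rw [map_add, map_add, HahnSeries.coeff_add', Pi.add_apply, hp, hq]
    split_ifs
    · rw [Polynomial.coeff_add, map_add]
    · rw [add_zero]
  | monomial k a =>
    rw [← Polynomial.C_mul_X_pow_eq_monomial, map_mul, map_pow, ev_C, ev_X, ← map_pow,
      PowerSeries.coeff_mul_C, PowerSeries.coeff_map, iP_pow, HahnSeries.coeff_mul_single,
      mul_one, HahnSeries.C_apply, HahnSeries.coeff_single, Polynomial.coeff_C_mul_X_pow]
    by_cases h : n = -(k : ℤ)
    · subst h
      simp
    · rw [if_neg (by omega)]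
      split_ifs with h1 h2
      · exfalso; omega
      · simp
      · rfl

lemma ev_injective : Function.Injective (ev : Polynomial κ⟦X⟧ → O κ) := by
  intro p q h
  ext k j
  have h1 := coeff_ev p j (-(k : ℤ))
  have h2 := coeff_ev q j (-(k : ℤ))
  rw [h, h2] at h1
  simpa using h1.symm

lemma Le_ev (p : Polynomial κ⟦X⟧) : Le 0 (ev p) := by
  intro j n hn
  rw [coeff_ev, if_neg (by omega)]

/-- An element of `W` whose expansion in `κ((P))[[q]]` has only powers of `P` at most `D` and
whose expansion in `κ((Q))[[q]]` has only powers of `Q` at most `D'` is a Laurent polynomial in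
`P` over `κ[[q]]`. -/
theorem exists_poly {D D' : ℕ} (w : W κ) (h2 : Le D (toO w)) (h1 : Le D' (toO (swap w))) :
    ∃ p : Polynomial κ⟦X⟧, p.natDegree ≤ D + D' ∧
      (∀ k j, PowerSeries.coeff j (p.coeff k) = (PowerSeries.coeff j (toO w)).coeff ((D : ℤ) - k)) ∧
      toO w = PowerSeries.C (HahnSeries.single (D : ℤ) 1) * ev p := by
  set g : ℕ → κ⟦X⟧ := fun k =>
    PowerSeries.mk fun j => (PowerSeries.coeff j (toO w)).coeff ((D : ℤ) - k) with hg
  have hzero : ∀ (j : ℕ) (n : ℤ), n < -(D' : ℤ) → (PowerSeries.coeff j (toO w)).coeff n = 0 := by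
    intro j n hn
    rw [coeff_coeff_toO]
    split_ifs with h
    · have h3 := h1 (n + j).toNat (-n) (by omega)
      rw [coeff_coeff_toO, if_pos (by omega), cf_swap] at h3
      rw [← h3]
      congr 1
      omega
    · rfl
  set p : Polynomial κ⟦X⟧ := ∑ k ∈ range (D + D' + 1), Polynomial.monomial k (g k) with hp
  have hpc : ∀ k, p.coeff k = g k := by
    intro k
    rw [hp, Polynomial.finsetSum_coeff]
    simp only [Polynomial.coeff_monomial]
    rw [sum_ite_eq' (range (D + D' + 1)) k g]
    split_ifs with hk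
    · rfl
    · ext j
      rw [mem_range, not_lt] at hk
      rw [hg, PowerSeries.coeff_mk, hzero j _ (by omega), map_zero]
  refine ⟨p, ?_, ?_, ?_⟩
  · rw [Polynomial.natDegree_le_iff_coeff_eq_zero]
    intro k hk
    rw [hpc]
    ext j
    rw [hg, PowerSeries.coeff_mk, hzero j _ (by omega), map_zero]
  · intro k j
    rw [hpc, hg, PowerSeries.coeff_mk]
  · ext j n
    rw [PowerSeries.coeff_C_mul, HahnSeries.coeff_single_mul, one_mul, coeff_ev]
    split_ifs with h
    · rw [hpc, hg, PowerSeries.coeff_mk]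
      congr 1
      omega
    · exact h2 j n (by omega)

end

end Pool.Agent.Lib_MP_1858fb_f
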