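import Pool.Agent.Lib_MP_1858fb_f.GDefs

/-! # MP_1858fb_ag, line F: the sections of the glued curve [F-GS4] -/

namespace Pool.Agent.VFF

open Pool.Agent.VF Polynomial

variable {k : Type} [Field k] {N n c : ℕ}

theorem Secs_lin_sum {A : Type} [CommRing A] [Algebra k A] (l : Fin (N + 1) → k) {ι : Type}
    (s : Finset ι) (c : ι → A) (x : ι → Fin (N + 1) → A) :
    lin l (∑ j ∈ s, c j • x j) = ∑ j ∈ s, c j * lin l (x j) := by
  unfold lin
  simp only [Finset.sum_apply, Pi.smul_apply, smul_eq_mul, Finset.mul_sum]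
  rw [Finset.sum_comm]
  refine Finset.sum_congr rfl fun j _ => Finset.sum_congr rfl fun i _ => ?_
  ring

theorem Secs_lin_sub {A : Type} [CommRing A] [Algebra k A] (l : Fin (N + 1) → k) (a : A)
    (x y : Fin (N + 1) → A) : lin l (fun i => x i - a * y i) = lin l x - a * lin l y := by
  unfold lin
  rw [Finset.mul_sum, ← Finset.sum_sub_distrib]
  refine Finset.sum_congr rfl fun i _ => ?_
  ring

theorem Secs_dif_sub {A : Type} [CommRing A] [Algebra k A] (E : MvPolynomial (Fin (N + 1)) k)
    (a : A) (z x y : Fin (N + 1) → A) :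
    dif E z (fun i => x i - a * y i) = dif E z x - a * dif E z y := by
  unfold dif
  rw [Finset.mul_sum, ← Finset.sum_sub_distrib]
  refine Finset.sum_congr rfl fun i _ => ?_
  ring

theorem Secs_dif_mul {A : Type} [CommRing A] [Algebra k A] (E : MvPolynomial (Fin (N + 1)) k)
    (a : A) (z x : Fin (N + 1) → A) : dif E z (fun i => a * x i) = a * dif E z x := by
  unfold dif
  rw [Finset.mul_sum]
  refine Finset.sum_congr rfl fun i _ => ?_
  ring

/-- [F-GS4] the sections of the glued curve -/
theorem secs_of_dual (D : VData k N n c) {O : Type} [CommRing O] [IsDomain O] [Algebra k O]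
    {d : ℕ} (hd : 0 < d) (S0 : Fin (N + 1) → O[X]) (S1 : Fin n → Fin (N + 1) → O[X])
    (h0d : ∀ i, (S0 i).natDegree ≤ d) (h1d : ∀ j i, (S1 j i).natDegree ≤ d)
    (ht0 : Tang D.V S0 S0) (ht1 : ∀ j, Tang D.V S0 (S1 j))
    (hz : ∀ j, ∃ a : O, ∀ i, (S1 j i).coeff 0 = a * (S0 i).coeff 0)
    (l : Fin (n + 1) → Fin (N + 1) → k) (ω0 τ : O) (hω : ω0 ≠ 0) (hτ : τ ≠ 0)
    (hl0 : lin (l 0) (fun i => (S0 i).coeff d) = ω0)
    (hl1 : ∀ i : Fin n, lin (l i.succ) (fun i' => (S0 i').coeff d) = 0)
    (hl2 : ∀ i j : Fin n, lin (l i.succ) (fun i' => (S1 j i').coeff d) =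
      if i = j then τ else 0) :
    ∃ g : Fin n → Fin (N + 1) → O[X], Sec D d S0 (Fin.elim0 : Fin 0 → k) g := by
  choose a ha using hz
  set p : Fin n → Fin (N + 1) → O[X] := fun j i => S1 j i - C (a j) * S0 i with hp
  have hp0 : ∀ j i, (p j i).coeff 0 = 0 := by
    intro j i
    simp only [hp, coeff_sub, coeff_C_mul]
    rw [ha j i, sub_self]
  have hpX : ∀ j i, X * divX (p j i) = p j i := by
    intro j i
    have h := X_mul_divX_add (p j i)
    rwa [hp0, C_0, add_zero] at h
  have hpd : ∀ j i, (p j i).natDegree ≤ d := by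
    intro j i
    refine (natDegree_sub_le _ _).trans (max_le (h1d j i) ?_)
    exact (natDegree_C_mul_le _ _).trans (h0d i)
  have hco : ∀ j i, (divX (p j i)).coeff (d - 1) = (S1 j i).coeff d - a j * (S0 i).coeff d := by
    intro j i
    rw [coeff_divX, Nat.sub_add_cancel hd]
    simp only [hp, coeff_sub, coeff_C_mul]
  refine ⟨fun j i => divX (p j i), ⟨?_, ?_, ?_, ?_⟩⟩
  · intro j i
    rw [natDegree_divX_eq_natDegree_tsub_one]
    have := hpd j i
    omega
  · intro j E hE
    have h1 : X * dif E S0 (fun i => divX (p j i)) = 0 := by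
      rw [← Secs_dif_mul]
      have e : (fun i => X * divX (p j i)) = fun i => S1 j i - C (a j) * S0 i := by
        funext i
        exact hpX j i
      rw [e, Secs_dif_sub, ht1 j E hE, ht0 E hE, mul_zero, sub_zero]
    exact (mul_eq_zero.1 h1).resolve_left X_ne_zero
  · intro _ l
    exact l.elim0
  · rw [Fintype.linearIndependent_iff]
    intro c hc
    have hlin : ∀ b : Fin (n + 1), c 0 * lin (l b) (fun i => (S0 i).coeff d) +
        ∑ j : Fin n, c j.succ * (lin (l b) (fun i => (S1 j i).coeff d) -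
          a j * lin (l b) (fun i => (S0 i).coeff d)) = 0 := by
      intro b
      have h1 : lin (l b) (0 : Fin (N + 1) → O) = 0 := by simp [lin]
      rw [← hc, Secs_lin_sum, Fin.sum_univ_succ] at h1
      rw [← h1]
      simp only [Fin.cons_zero, Fin.cons_succ]
      congr 1
      refine Finset.sum_congr rfl fun j _ => ?_
      rw [← Secs_lin_sub]
      congr 2
      funext i
      exact (hco j i).symm
    have hsucc : ∀ i : Fin n, c i.succ = 0 := by
      intro i
      have h1 := hlin i.succ
      simp only [hl1, hl2, mul_zero, zero_add, sub_zero, mul_ite] at h1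
      rw [Finset.sum_ite_eq Finset.univ i, if_pos (Finset.mem_univ _)] at h1
      exact (mul_eq_zero.1 h1).resolve_right hτ
    have hzero : c 0 = 0 := by
      have h1 := hlin 0
      simp only [hsucc, zero_mul, Finset.sum_const_zero, add_zero, hl0] at h1
      exact (mul_eq_zero.1 h1).resolve_right hω
    intro i
    refine Fin.cases hzero hsucc i

end Pool.Agent.VFF
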