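import Pool.Agent.Lib_MP_1858fb_f.FDefs
import Pool.Agent.Lib_MP_1858fb_w.ChartA
import Pool.Agent.Lib_MP_1858fb_w.ObsM

/-!
# MP_1858fb_ag, line F: smoothness at points over an extension field

A point over a field extension `K` of `k` that satisfies the equations of `V` and lies in the open
part has the local data of `SmoothAt` (Nullstellensatz over `k`). Consequence: the hypotheses
`LocGen` of the obstruction lemma for every curve over `K`, and the rows at infinity.
-/

set_option autoImplicit false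

namespace Pool.Agent.VFF

open Pool.Agent.VF Polynomial

variable {k : Type} [Field k] {N n c : ℕ}

/-- A set of polynomials without a common zero on `V` has no common zero at the points of `V` over
an extension field. -/
theorem smoothExt_transfer [IsAlgClosed k] (D : VData k N n c)
    (S : Set (MvPolynomial (Fin (N + 1)) k))
    (hS : ∀ x ∈ D.V, ∃ Q ∈ S, MvPolynomial.aeval x Q ≠ 0)
    {K : Type*} [Field K] [Algebra k K] (x : Fin (N + 1) → K)
    (hx : ∀ E ∈ van D.V, MvPolynomial.aeval x E = 0)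
    (hxH : ∃ l, MvPolynomial.aeval x (D.H l) ≠ 0) :
    ∃ Q ∈ S, MvPolynomial.aeval x Q ≠ 0 := by
  classical
  obtain ⟨l, hl⟩ := hxH
  by_contra hcon
  push Not at hcon
  set J : Ideal (MvPolynomial (Fin (N + 1)) k) := van D.V ⊔ Ideal.span S with hJ
  have h1 : D.H l ∈ MvPolynomial.vanishingIdeal k (MvPolynomial.zeroLocus k J) := by
    intro p hp
    by_contra hne
    have hpV : p ∈ D.V := by
      rw [D.mem_iff]
      exact ⟨fun E hE => hp E (Ideal.mem_sup_left hE), l, hne⟩
    obtain ⟨Q, hQ, hQp⟩ := hS p hpV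
    exact hQp (hp Q (Ideal.mem_sup_right (Ideal.subset_span hQ)))
  rw [MvPolynomial.vanishingIdeal_zeroLocus_eq_radical] at h1
  obtain ⟨m, hm⟩ := h1
  have h2 : J ≤ RingHom.ker (MvPolynomial.aeval x : MvPolynomial (Fin (N + 1)) k →ₐ[k] K) := by
    rw [hJ, sup_le_iff, Ideal.span_le]
    exact ⟨fun E hE => hx E hE, fun Q hQ => hcon Q hQ⟩
  have h3 := h2 hm
  rw [RingHom.mem_ker, map_pow] at h3
  exact hl (eq_zero_of_pow_eq_zero h3)

theorem smoothExt_det {L : Type*} [Field L] [Algebra k L] (y : Fin (N + 1) → L)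
    (E : Fin c → MvPolynomial (Fin (N + 1)) k) (e : Fin c → Fin (N + 1)) :
    MvPolynomial.aeval y (Matrix.of fun i j => MvPolynomial.pderiv (e j) (E i)).det =
      (Matrix.of fun i j => MvPolynomial.aeval y (MvPolynomial.pderiv (e j) (E i))).det := by
  rw [AlgHom.map_det]
  rfl

/-- **Smoothness over an extension field.** -/
theorem smoothExt_main [IsAlgClosed k] (D : VData k N n c) {K : Type*} [Field K] [Algebra k K]
    (x : Fin (N + 1) → K) (hx : ∀ E ∈ van D.V, MvPolynomial.aeval x E = 0)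
    (hxH : ∃ l, MvPolynomial.aeval x (D.H l) ≠ 0) :
    ∃ (E : Fin c → MvPolynomial (Fin (N + 1)) k) (G : MvPolynomial (Fin (N + 1)) k),
      (∀ b, E b ∈ van D.V) ∧ MvPolynomial.aeval x G ≠ 0 ∧
      (∀ E' ∈ van D.V, G * E' ∈ Ideal.span (Set.range E)) ∧
      LinearIndependent K (fun (b : Fin c) (i : Fin (N + 1)) =>
        MvPolynomial.aeval x (MvPolynomial.pderiv i (E b))) := by
  classical
  set S : Set (MvPolynomial (Fin (N + 1)) k) :=
    {Q | ∃ (E : Fin c → MvPolynomial (Fin (N + 1)) k) (G : MvPolynomial (Fin (N + 1)) k)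
      (e : Fin c → Fin (N + 1)), (∀ b, E b ∈ van D.V) ∧
      (∀ E' ∈ van D.V, G * E' ∈ Ideal.span (Set.range E)) ∧
      Q = G * (Matrix.of fun i j => MvPolynomial.pderiv (e j) (E i)).det} with hS
  obtain ⟨Q, ⟨E, G, e, hE, hG, rfl⟩, hQ⟩ := smoothExt_transfer D S (by
    intro y hy
    obtain ⟨E, G, e, hE, hG, hloc, he, hd⟩ := exists_minor_smooth (D.smooth y hy)
    refine ⟨_, ⟨E, G, e, hE, hloc, rfl⟩, ?_⟩
    rw [map_mul, smoothExt_det]
    exact mul_ne_zero hG hd) x hx hxH
  rw [map_mul, smoothExt_det] at hQ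
  obtain ⟨hG0, hd0⟩ := mul_ne_zero_iff.1 hQ
  refine ⟨E, G, hE, hG0, hG, ?_⟩
  have h1 : LinearIndependent K (Matrix.of fun i j =>
      MvPolynomial.aeval x (MvPolynomial.pderiv (e j) (E i))).row :=
    Matrix.linearIndependent_rows_of_det_ne_zero hd0
  exact LinearIndependent.of_comp (LinearMap.funLeft K K e) h1

end Pool.Agent.VFF
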