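import Pool.Agent.Lib_MP_1858fb_f.GDefs

/-! # MP_1858fb_ag, line F: translation of the parameter of a curve -/

namespace Pool.Agent.VFF

open Pool.Agent.VF Polynomial

variable {k : Type} [Field k] {N n c : ℕ}

theorem stepT_coeff (s : k) {p : k[X]} {d : ℕ} (hp : p.natDegree ≤ d) :
    (taylor s p).coeff d = p.coeff d := by
  rcases hp.lt_or_eq with h | h
  · rw [coeff_eq_zero_of_natDegree_lt (by rwa [natDegree_taylor]), coeff_eq_zero_of_natDegree_lt h]
  · rw [← h, coeff_taylor_natDegree, coeff_natDegree]

theorem stepT_aeval (s : k) {σ : Type} (R : σ → k[X]) (E : MvPolynomial σ k) :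
    MvPolynomial.aeval (fun i => taylor s (R i)) E = taylor s (MvPolynomial.aeval R E) := by
  have := MvPolynomial.comp_aeval_apply (R := k) (φ := taylorAlgHom s) R E
  exact this.symm

theorem stepT_cert (D : VData k N n c) (s : k) {d : ℕ} {R : Fin (N + 1) → k[X]} {μ : k} {M : ℕ}
    (hc : Cert D d R μ M) : Cert D d (fun i => taylor s (R i)) μ M := by
  classical
  intro i hi
  choose A hA1 hA2 using hc
  let A' : ℕ → Fin D.t → k[X] := fun j => if h : j ≤ M then A j h else 0
  have hA' : ∀ j ≤ M, ∀ l, A' j l ≠ 0 → (A' j l).natDegree + d * D.h l ≤ M := by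
    intro j hj l hl
    simp only [A', dif_pos hj] at hl ⊢
    exact hA1 j hj l hl
  have hA'' : ∀ j ≤ M, ∑ l, A' j l * MvPolynomial.aeval R (D.H l) = C μ * X ^ j := by
    intro j hj
    simp only [A', dif_pos hj]
    exact hA2 j hj
  let p : k[X] := (X - C s) ^ i
  let B : Fin D.t → k[X] := fun l => ∑ j ∈ Finset.range (M + 1), C (p.coeff j) * A' j l
  have hp : p.natDegree < M + 1 := by
    refine lt_of_le_of_lt (natDegree_pow_le) ?_
    rw [natDegree_X_sub_C]
    omega
  refine ⟨fun l => taylor s (B l), fun l hl => ?_, ?_⟩
  · rw [natDegree_taylor]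
    have hB : B l ≠ 0 := by
      intro h0
      apply hl
      simp only [h0, map_zero]
    obtain ⟨j0, hj0, hj0'⟩ := Finset.exists_ne_zero_of_sum_ne_zero hB
    rw [Finset.mem_range] at hj0
    have h1 := hA' j0 (by omega) l (right_ne_zero_of_mul hj0')
    have h2 : (B l).natDegree ≤ M - d * D.h l := by
      apply natDegree_sum_le_of_forall_le
      intro j hj
      rw [Finset.mem_range] at hj
      refine (natDegree_C_mul_le _ _).trans ?_
      by_cases h0 : A' j l = 0
      · rw [h0]
        simp
      · have := hA' j (by omega) l h0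
        omega
    omega
  · have h3 : ∑ l, B l * MvPolynomial.aeval R (D.H l) = C μ * p := by
      calc ∑ l, B l * MvPolynomial.aeval R (D.H l)
          = ∑ j ∈ Finset.range (M + 1), C (p.coeff j) *
              ∑ l, A' j l * MvPolynomial.aeval R (D.H l) := by
            simp only [B, Finset.sum_mul, Finset.mul_sum]
            rw [Finset.sum_comm]
            refine Finset.sum_congr rfl fun j _ => Finset.sum_congr rfl fun l _ => by ring
        _ = ∑ j ∈ Finset.range (M + 1), C (p.coeff j) * (C μ * X ^ j) := by
            refine Finset.sum_congr rfl fun j hj => ?_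
            rw [Finset.mem_range] at hj
            rw [hA'' j (by omega)]
        _ = C μ * p := by
            conv_rhs => rw [p.as_sum_range_C_mul_X_pow' hp]
            rw [Finset.mul_sum]
            refine Finset.sum_congr rfl fun j _ => by ring
    have h4 := congrArg (taylorAlgHom s) h3
    rw [map_sum, map_mul] at h4
    have h5 : taylorAlgHom s p = X ^ i := by
      simp only [p]
      rw [map_pow, map_sub]
      congr 1
      show taylor s X - taylor s (C s) = X
      rw [taylor_X, taylor_C]
      ring
    have h6 : taylorAlgHom s (C μ) = C μ := taylor_C _ _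
    rw [h5, h6] at h4
    rw [← h4]
    refine Finset.sum_congr rfl fun l _ => ?_
    rw [map_mul, stepT_aeval]
    rfl

/-- a curve over an infinite field with given values at arbitrary distinct parameters -/
theorem step_translate [Infinite k] (D : VData k N n c) {d : ℕ} (hd : 0 < d)
    {R : Fin (N + 1) → k[X]} (hR : Curve D d R) {g : Fin n → Fin (N + 1) → k[X]}
    (hg : Sec D d R (Fin.elim0 : Fin 0 → k) g) {m : ℕ} (v : Fin m → Fin (N + 1) → k)
    (cm : Fin m → k) (hcm : Function.Injective cm)
    (hP : ∀ l, Prop' (v l) (fun i => (R i).eval (cm l))) : HasCurve D v := by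
  classical
  obtain ⟨s, hs⟩ := (Set.finite_range cm).exists_notMem
  obtain ⟨μ, hμ, M, hM⟩ := hR.cert
  refine ⟨d, hd, fun i => taylor s (R i), fun l => cm l - s, ?_, ?_, ?_, ?_,
    fun j i => taylor s (g j i), ?_⟩
  · intro a b hab
    exact hcm (sub_left_injective hab)
  · intro l h
    exact hs ⟨l, sub_eq_zero.1 h⟩
  · refine ⟨fun i => by rw [natDegree_taylor]; exact hR.deg i, ?_, μ, hμ, M, stepT_cert D s hM⟩
    intro E hE
    rw [stepT_aeval, hR.onV E hE, map_zero]
  · intro l i j
    have h1 : ∀ i, (taylor s (R i)).eval (cm l - s) = (R i).eval (cm l) := by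
      intro i
      rw [taylor_eval]
      congr 1
      ring
    have := hP l i j
    simp only [h1]
    exact this
  · refine ⟨fun j i => by rw [natDegree_taylor]; exact hg.deg j i, ?_, fun _ l => l.elim0, ?_⟩
    · intro j E hE
      have h1 := hg.tan j E hE
      unfold dif at h1 ⊢
      have h2 := congrArg (taylorAlgHom s) h1
      rw [map_sum, map_zero] at h2
      rw [← h2]
      refine Finset.sum_congr rfl fun i _ => ?_
      rw [map_mul, stepT_aeval]
      rfl
    · have h1 : (fun i => (taylor s (R i)).coeff d) = fun i => (R i).coeff d := by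
        funext i
        exact stepT_coeff s (hR.deg i)
      have h2 : (fun j i => (taylor s (g j i)).coeff (d - 1))
          = fun j i => (g j i).coeff (d - 1) := by
        funext j i
        exact stepT_coeff s (by have := hg.deg j i; omega)
      rw [h1, h2]
      exact hg.ind

end Pool.Agent.VFF
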