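import Pool.Agent.Lib_MP_1858fb_f.FDefs

/-! # MP_1858fb_ag, line F: STUBS 1 (geometry and formal deformation) -/

namespace Pool.Agent.VFF

open Pool.Agent.VF Polynomial

variable {k : Type} [Field k] {N n c : ℕ}

/-- [F-DATA] -/
theorem exists_vdata [IsAlgClosed k] {V : Set (Fin (N + 1) → k)} (hV : LocClosed V)
    (hirr : Irred V) (hn : 0 < n) (hc : n + c = N) (hs : ∀ x ∈ V, SmoothAt c V x) :
    ∃ D : VData k N n c, D.V = V := by
  sorry

/-- [F-DATA] `van V` is a homogeneous ideal. -/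
theorem van_homog [IsAlgClosed k] (D : VData k N n c) {E : MvPolynomial (Fin (N + 1)) k}
    (hE : E ∈ van D.V) (e : ℕ) : MvPolynomial.homogeneousComponent e E ∈ van D.V := by
  sorry

/-- [F-DATA] Euler -/
theorem tang_self [IsAlgClosed k] (D : VData k N n c) {A : Type} [CommRing A] [Algebra k A]
    {x : Fin (N + 1) → A} (hx : OnV D.V x) : Tang D.V x x := by
  sorry

/-- [F-DATA] -/
theorem exists_frameAt [IsAlgClosed k] (D : VData k N n c) {y : Fin (N + 1) → k} (hy : y ∈ D.V) :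
    Nonempty (FrameAt D y) := by
  sorry

/-- [F-UNIQ] points with the same frame coordinates which are congruent are equal -/
theorem uniq {A : Type} [CommRing A] [Algebra k A] (V : Set (Fin (N + 1) → k)) (I : Ideal A)
    (hI : ∀ a : A, (∀ m : ℕ, a ∈ I ^ m) → a = 0) (x x' : Fin (N + 1) → A) (hx : OnV V x)
    (hx' : OnV V x') (hxx : ∀ i, x i - x' i ∈ I) (l : Fin (n + 1) → Fin (N + 1) → k)
    (hl : ∀ a, lin (l a) x = lin (l a) x') (E : Fin c → MvPolynomial (Fin (N + 1)) k) (μ : A)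
    (hμ : IsUnit μ) (hfr : Frame V l E x' μ) : x = x' := by
  sorry

/-- [F-CHART] A point of `V` over `A⟦X⟧`, congruent to `y`, whose frame coordinates have all
coefficients in the subalgebra `B`, has all coefficients in `B`. -/
theorem chart_sub [IsAlgClosed k] (D : VData k N n c) {y : Fin (N + 1) → k} (fy : FrameAt D y)
    {A : Type} [CommRing A] [Algebra k A] (B : Subalgebra k A) (x : Fin (N + 1) → PowerSeries A)
    (hx : OnV D.V x) (hx0 : ∀ i, PowerSeries.constantCoeff (x i) = algebraMap k A (y i))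
    (hl : ∀ a m, PowerSeries.coeff m (lin (fy.l a) x) ∈ B) :
    ∀ i m, PowerSeries.coeff m (x i) ∈ B := by
  sorry

/-- [F-FRAME] the frame at `v` is a frame at every power series point congruent to `v` -/
theorem frame_deform {v : Fin (N + 1) → k} (D : VData k N n c) (fv : FrameAt D v)
    {A : Type} [CommRing A] [Algebra k A] (α : Fin (N + 1) → PowerSeries A)
    (hα : ∀ i, PowerSeries.constantCoeff (α i) = algebraMap k A (v i)) :
    Frame D.V fv.l fv.E α (1 : PowerSeries A) := by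
  sorry

/-- [F-OBS] obstruction lemma with marks, over an algebraically closed field `K`. -/
theorem obs [IsAlgClosed k] (D : VData k N n c) {K : Type} [Field K] [IsAlgClosed K]
    [Algebra k K] {d w : ℕ} {R : Fin (N + 1) → K[X]} (hR : Curve D d R) (cm : Fin w → k)
    (hcm : Function.Injective cm) {g : Fin n → Fin (N + 1) → K[X]} (hg : Sec D d R cm g)
    (o : MvPolynomial (Fin (N + 1)) k → K[X])
    (ho_add : ∀ E ∈ van D.V, ∀ E' ∈ van D.V, o (E + E') = o E + o E')
    (ho_mul : ∀ G, ∀ E ∈ van D.V, o (G * E) = MvPolynomial.aeval R G * o E)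
    (ho_deg : ∀ E ∈ van D.V, ∀ e, E.IsHomogeneous e → (o E).natDegree ≤ d * e)
    (ho_cm : ∀ E ∈ van D.V, ∀ l, (o E).eval (algebraMap k K (cm l)) = 0) :
    ∃ δ : Fin (N + 1) → K[X], (∀ i, (δ i).natDegree ≤ d) ∧ (∀ E ∈ van D.V, dif E R δ = o E) ∧
      ∀ l, ∃ a : K, ∀ i, (δ i).eval (algebraMap k K (cm l)) =
        a * (R i).eval (algebraMap k K (cm l)) := by
  sorry

/-- [F-GG] `n` sections of degree `≤ d - 1`, independent together with `R` at `X = 0`. -/
theorem gg [IsAlgClosed k] (D : VData k N n c) {K : Type} [Field K] [IsAlgClosed K]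
    [Algebra k K] {d w : ℕ} {R : Fin (N + 1) → K[X]} (hR : Curve D d R) (cm : Fin w → k)
    (hcm : Function.Injective cm) (hcm0 : ∀ l, cm l ≠ 0) {g : Fin n → Fin (N + 1) → K[X]}
    (hg : Sec D d R cm g) :
    ∃ g' : Fin n → Fin (N + 1) → K[X], (∀ j i, (g' j i).natDegree < d) ∧
      (∀ j, Tang D.V R (g' j)) ∧
      (∀ j l, ∃ a : K, ∀ i, (g' j i).eval (algebraMap k K (cm l)) =
        a * (R i).eval (algebraMap k K (cm l))) ∧
      LinearIndependent K (Fin.cons (fun i => (R i).eval 0) (fun j i => (g' j i).eval 0) :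
        Fin (n + 1) → Fin (N + 1) → K) := by
  sorry

/-- [F-REC] Abstract recursion with bounded denominators. `Φ s` are polynomials in the unknowns
`x` (`Fin r`) and the parameters `ξ` (`Fin p`), `x0` solves the system at `ξ = 0`, and every
solution modulo degree `j` over `K` (an extension field of `O`) can be corrected in degree `j`
to a solution modulo degree `j + 1`. -/
theorem rec_int {O K : Type} [CommRing O] [IsDomain O] [Field K] [Algebra O K]
    (hinj : Function.Injective (algebraMap O K)) {r p : ℕ} {S : Type} [Finite S] (x0 : Fin r → O)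
    (Φ : S → MvPolynomial (Fin r ⊕ Fin p) O)
    (h0 : ∀ s, MvPolynomial.eval (Sum.elim x0 0) (Φ s) = 0)
    (hU : ∀ j : ℕ, 0 < j → ∀ x : Fin r → MvPowerSeries (Fin p) K,
      (∀ i, MvPowerSeries.constantCoeff (x i) = algebraMap O K (x0 i)) →
      (∀ s, ∀ m : Fin p →₀ ℕ, m.degree < j → MvPowerSeries.coeff m
        (MvPolynomial.aeval (Sum.elim x (fun q => MvPowerSeries.X q)) (Φ s)) = 0) →
      ∃ δ : Fin r → MvPowerSeries (Fin p) K,
        (∀ i, ∀ m : Fin p →₀ ℕ, m.degree ≠ j → MvPowerSeries.coeff m (δ i) = 0) ∧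
        (∀ s, ∀ m : Fin p →₀ ℕ, m.degree ≤ j → MvPowerSeries.coeff m
          (MvPolynomial.aeval (Sum.elim (x + δ) (fun q => MvPowerSeries.X q)) (Φ s)) = 0))
    (t0 : O) (ht0 : t0 ≠ 0) :
    ∃ t : O, t ≠ 0 ∧ t0 ∣ t ∧ ∃ Δ : Fin r → MvPowerSeries (Fin p) O,
      (∀ i, MvPowerSeries.constantCoeff (Δ i) = 0) ∧
      ∀ s, MvPolynomial.aeval (Sum.elim
        (fun i => MvPowerSeries.C (x0 i) + MvPowerSeries.C t * Δ i)
        (fun q => MvPowerSeries.C (t ^ 2) * MvPowerSeries.X q)) (Φ s) = 0 := by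
  sorry

/-- [F-FD] The formal deformation with bounded denominators, with moving ends and marks. -/
theorem fd_int [IsAlgClosed k] (D : VData k N n c) {O : Type} [CommRing O] [IsDomain O]
    [Algebra k O] {d w : ℕ} {R : Fin (N + 1) → O[X]} (hR : Curve D d R) (cm : Fin w → k)
    (hcm : Function.Injective cm) (hcm0 : ∀ l, cm l ≠ 0) (vs : Fin w → Fin (N + 1) → k)
    (hvs : ∀ l, vs l ∈ D.V)
    (hRm : ∀ l, Prop' (vs l) (fun i => (R i).eval (algebraMap k O (cm l))))
    {g : Fin n → Fin (N + 1) → O[X]} (hg : Sec D d R cm g)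
    {y : Fin (N + 1) → k} (hy : y ∈ D.V) (fy : FrameAt D y) (ρ0 : O) (hρ0 : ρ0 ≠ 0)
    (hR0 : ∀ i, (R i).coeff 0 = ρ0 * algebraMap k O (y i))
    (α : Fin (N + 1) → O) (ρ1 : O) (hρ1 : ρ1 ≠ 0) (hR1 : ∀ i, (R i).coeff d = ρ1 * α i)
    (l : Fin (n + 1) → Fin (N + 1) → k) (E : Fin c → MvPolynomial (Fin (N + 1)) k)
    (hα0 : lin (l 0) α = 1) (μ : O) (hμ : μ ≠ 0) (hfr : Frame D.V l E α μ)
    {p : ℕ} (a b : Fin n → Fin p → k) (t0 : O) (ht0 : t0 ≠ 0) :
    ∃ t : O, t ≠ 0 ∧ t0 ∣ t ∧ ∃ F : Fin (N + 1) → (MvPowerSeries (Fin p) O)[X],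
      (∀ i, (F i).natDegree ≤ d) ∧ OnV D.V F ∧
      (∀ i m, ∃ Δ : MvPowerSeries (Fin p) O, MvPowerSeries.constantCoeff Δ = 0 ∧
        (F i).coeff m = MvPowerSeries.C ((R i).coeff m) + MvPowerSeries.C t * Δ) ∧
      (∀ l', Prop' (vs l') (fun i => (F i).eval (algebraMap k _ (cm l')))) ∧
      (lin (fy.l 0) (fun i => (F i).coeff 0) = MvPowerSeries.C ρ0) ∧
      (∀ j : Fin n, lin (fy.l j.succ) (fun i => (F i).coeff 0) =
        MvPowerSeries.C (ρ0 * t ^ 2) *
          ∑ q, MvPowerSeries.C (algebraMap k O (a j q)) * MvPowerSeries.X q) ∧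
      (∀ j : Fin n, lin (l j.succ) (fun i => (F i).coeff d) =
        (MvPowerSeries.C (lin (l j.succ) α) + MvPowerSeries.C (t ^ 2) *
          ∑ q, MvPowerSeries.C (algebraMap k O (b j q)) * MvPowerSeries.X q) *
        lin (l 0) (fun i => (F i).coeff d)) := by
  sorry

/-- [F-CERT] deformation of the certificate -/
theorem cert_deform (D : VData k N n c) {O : Type} [CommRing O] [IsDomain O] [Algebra k O]
    {d M p : ℕ} {R : Fin (N + 1) → O[X]} {μ : O} (hμ : μ ≠ 0) (hc : Cert D d R μ M) (t : O)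
    (ht : μ ∣ t) (F : Fin (N + 1) → (MvPowerSeries (Fin p) O)[X]) (hF : ∀ i, (F i).natDegree ≤ d)
    (hRd : ∀ i, (R i).natDegree ≤ d)
    (hFR : ∀ i m, ∃ Δ : MvPowerSeries (Fin p) O, MvPowerSeries.constantCoeff Δ = 0 ∧
        (F i).coeff m = MvPowerSeries.C ((R i).coeff m) + MvPowerSeries.C t * Δ) :
    Cert D d F (MvPowerSeries.C μ) M := by
  sorry

end Pool.Agent.VFF
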