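import Pool.Agent.Lib_MP_1858fb_f.GInDef

/-! # MP_1858fb_ag, line F: STUBS 2 (rings and gluing) -/

namespace Pool.Agent.VFF

open Pool.Agent.VF Polynomial

variable (k : Type) [Field k] (κ : Type) [CommRing κ] [Algebra k κ] {N n c : ℕ}

/-- [F-RING] outer circle: `P ↦ T`, `Q ↦ q T⁻¹` -/
noncomputable def toOut : W κ →ₐ[k] OL κ := sorry

theorem coeff_toOut (f : W κ) (b : ℕ) (a : ℤ) :
    (PowerSeries.coeff b (toOut k κ f)).coeff a =
      if 0 ≤ a + b then MvPowerSeries.coeff (ij (a + b).toNat b) f else 0 := by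
  sorry

theorem toOut_P : toOut k κ (WP κ) = PowerSeries.C (TT κ 1) := by sorry

theorem toOut_Q : toOut k κ (WQ κ) = PowerSeries.X * PowerSeries.C (TT κ (-1)) := by sorry

/-- [F-RING] inner circle: `Q ↦ T`, `P ↦ q T⁻¹` -/
noncomputable def toInn : W κ →ₐ[k] OL κ := sorry

theorem coeff_toInn (f : W κ) (b : ℕ) (a : ℤ) :
    (PowerSeries.coeff b (toInn k κ f)).coeff a =
      if 0 ≤ a + b then MvPowerSeries.coeff (ij b (a + b).toNat) f else 0 := by
  sorry

theorem toInn_Q : toInn k κ (WQ κ) = PowerSeries.C (TT κ 1) := by sorry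

theorem toInn_P : toInn k κ (WP κ) = PowerSeries.X * PowerSeries.C (TT κ (-1)) := by sorry

theorem toOut_injective : Function.Injective (toOut k κ) := by sorry

theorem toInn_injective : Function.Injective (toInn k κ) := by sorry

/-- [F-RING] `g ↦ g(P)` -/
noncomputable def serP : PowerSeries k →ₐ[k] W κ := sorry

theorem coeff_serP (g : PowerSeries k) (i j : ℕ) :
    MvPowerSeries.coeff (ij i j) (serP k κ g) =
      if j = 0 then algebraMap k κ (PowerSeries.coeff i g) else 0 := by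
  sorry

/-- [F-RING] `κ⟦P⟧⟦q⟧ → κ⟦P, Q⟧`, `q ↦ P Q` -/
noncomputable def incP : PowerSeries (PowerSeries κ) →ₐ[k] W κ := sorry

theorem coeff_incP (g : PowerSeries (PowerSeries κ)) (i j : ℕ) :
    MvPowerSeries.coeff (ij i j) (incP k κ g) =
      if j ≤ i then PowerSeries.coeff (i - j) (PowerSeries.coeff j g) else 0 := by
  sorry

theorem toOut_incP (g : PowerSeries (PowerSeries κ)) :
    toOut k κ (incP k κ g) = PowerSeries.map (HahnSeries.ofPowerSeries ℤ κ) g := by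
  sorry

/-- [F-RING] `κ⟦Q⟧⟦q⟧ → κ⟦P, Q⟧`, `q ↦ P Q` -/
noncomputable def incQ : PowerSeries (PowerSeries κ) →ₐ[k] W κ := sorry

theorem coeff_incQ (g : PowerSeries (PowerSeries κ)) (i j : ℕ) :
    MvPowerSeries.coeff (ij i j) (incQ k κ g) =
      if i ≤ j then PowerSeries.coeff (j - i) (PowerSeries.coeff i g) else 0 := by
  sorry

theorem toInn_incQ (g : PowerSeries (PowerSeries κ)) :
    toInn k κ (incQ k κ g) = PowerSeries.map (HahnSeries.ofPowerSeries ℤ κ) g := by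
  sorry

/-- [F-RING] `κ⟦q⟧[X] → κ⟦P, Q⟧`, `q ↦ P Q`, `X ↦ P` -/
noncomputable def theta : (PowerSeries κ)[X] →ₐ[k] W κ := sorry

theorem theta_X : theta k κ X = WP κ := by sorry

theorem coeff_theta_C (g : PowerSeries κ) (i j : ℕ) :
    MvPowerSeries.coeff (ij i j) (theta k κ (C g)) =
      if i = j then PowerSeries.coeff i g else 0 := by
  sorry

theorem theta_injective : Function.Injective (theta k κ) := by sorry

/-- [F-RING] a series with exponents in a strip comes from a polynomial -/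
theorem exists_theta (f : W κ) (a0 b0 : ℕ)
    (h : ∀ i j : ℕ, (a0 + j < i ∨ b0 + i < j) → MvPowerSeries.coeff (ij i j) f = 0) :
    ∃ S : (PowerSeries κ)[X], S.natDegree ≤ a0 + b0 ∧ theta k κ S = WP κ ^ b0 * f := by
  sorry

/-- [F-EV] evaluation of a power series over `k⟦τ⟧` at `τ = P` and small elements `x` of `W` -/
noncomputable def ev {p : ℕ} (x : Fin p → W κ) (hx : ∀ j, MvPowerSeries.constantCoeff (x j) = 0) :
    MvPowerSeries (Fin p) (PowerSeries k) →ₐ[k] W κ := sorry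

theorem ev_C {p : ℕ} (x : Fin p → W κ) (hx : ∀ j, MvPowerSeries.constantCoeff (x j) = 0)
    (g : PowerSeries k) : ev k κ x hx (MvPowerSeries.C g) = serP k κ g := by sorry

theorem ev_X {p : ℕ} (x : Fin p → W κ) (hx : ∀ j, MvPowerSeries.constantCoeff (x j) = 0)
    (j : Fin p) : ev k κ x hx (MvPowerSeries.X j) = x j := by sorry

/-- Hadamard -/
theorem ev_sub {p : ℕ} (x : Fin p → W κ) (hx : ∀ j, MvPowerSeries.constantCoeff (x j) = 0)
    (x' : Fin p → W κ) (hx' : ∀ j, MvPowerSeries.constantCoeff (x' j) = 0)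
    (G : MvPowerSeries (Fin p) (PowerSeries k)) :
    ∃ h : Fin p → W κ, ev k κ x hx G - ev k κ x' hx' G = ∑ j, (x j - x' j) * h j := by
  sorry

/-- the part without constant coefficient is in the ideal of the `x j` -/
theorem ev_of_constantCoeff {p : ℕ} (x : Fin p → W κ)
    (hx : ∀ j, MvPowerSeries.constantCoeff (x j) = 0) (G : MvPowerSeries (Fin p) (PowerSeries k))
    (hG : MvPowerSeries.constantCoeff G = 0) :
    ∃ h : Fin p → W κ, ev k κ x hx G = ∑ j, x j * h j := by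
  sorry

/-- [F-HV] -/
theorem onV_hv [IsAlgClosed k] (D : VData k N n c) {A : Type} [CommRing A] [Algebra k A] (d : ℕ)
    (F : Fin (N + 1) → A[X]) (hd : ∀ i, (F i).natDegree ≤ d) (hF : OnV D.V F) (a b : A) :
    OnV D.V (fun i => hv d (fun m => (F i).coeff m) a b) := by
  sorry

/-- [F-NAT] naturality in `κ` -/
theorem ev_map (κ' : Type) [CommRing κ'] [Algebra k κ'] (φ : κ →ₐ[k] κ') {p : ℕ} (x : Fin p → W κ)
    (hx : ∀ j, MvPowerSeries.constantCoeff (x j) = 0)
    (hx' : ∀ j, MvPowerSeries.constantCoeff (MvPowerSeries.map (φ : κ →+* κ') (x j)) = 0)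
    (G : MvPowerSeries (Fin p) (PowerSeries k)) :
    MvPowerSeries.map (φ : κ →+* κ') (ev k κ x hx G) =
      ev k κ' (fun j => MvPowerSeries.map (φ : κ →+* κ') (x j)) hx' G := by
  sorry

theorem theta_map (κ' : Type) [CommRing κ'] [Algebra k κ'] (φ : κ →ₐ[k] κ')
    (S : (PowerSeries κ)[X]) : MvPowerSeries.map (φ : κ →+* κ') (theta k κ S) =
      theta k κ' (S.map (PowerSeries.map (φ : κ →+* κ'))) := by
  sorry

theorem toOut_map (κ' : Type) [CommRing κ'] [Algebra k κ'] (φ : κ →ₐ[k] κ') (f : W κ) (b : ℕ)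
    (a : ℤ) : (PowerSeries.coeff b (toOut k κ' (MvPowerSeries.map (φ : κ →+* κ') f))).coeff a =
      φ ((PowerSeries.coeff b (toOut k κ f)).coeff a) := by
  sorry

/-- [F-GLUE] -/
theorem glue [IsAlgClosed k] (D : VData k N n c) {y v : Fin (N + 1) → k} (hy : y ∈ D.V)
    (hv' : v ∈ D.V) (fy : FrameAt D y) (fv : FrameAt D v) {d : ℕ}
    {F : Fin (N + 1) → (MvPowerSeries (Fin (n + n)) (PowerSeries k))[X]}
    {α : Fin (N + 1) → PowerSeries k} {t ρ0 ρ1 : PowerSeries k} (h : GIn D fy fv d F α t ρ0 ρ1)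
    (e : Fin n → κ) :
    ∃ (M s b0 b1 D' : ℕ) (x : Fin (n + n) → W κ)
      (hx : ∀ j, MvPowerSeries.constantCoeff (x j) = 0) (u : W κ) (ε : k)
      (S : Fin (N + 1) → (PowerSeries κ)[X]) (Y Z : Fin (N + 1) → OL κ) (ν ω : PowerSeries κ),
      0 < M ∧ IsUnit u ∧ ε ≠ 0 ∧ (∀ i, (S i).natDegree ≤ D') ∧ 0 < D' ∧
      (∀ i, theta k κ (S i) * u =
        WP κ ^ b0 * hv d (fun m => ev k κ x hx ((F i).coeff m)) (WP κ ^ M) (WQ κ ^ M)) ∧
      (∀ i, NonPos (Y i) ∧ PowerSeries.constantCoeff (Y i) = algebraMap k _ (y i) ∧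
        toOut k κ (theta k κ (S i)) = PowerSeries.C (TT κ D') * Y i) ∧
      (∀ i, NonPos (Z i) ∧ PowerSeries.constantCoeff (Z i) = algebraMap k _ (ε * v i) ∧
        toInn k κ (theta k κ (S i)) = PowerSeries.X ^ b1 * Z i) ∧
      IsUnit ν ∧ (∀ i, (S i).coeff 0 = PowerSeries.X ^ b1 * ν * algebraMap k _ (v i)) ∧
      IsUnit ω ∧ lin (fy.l 0) (fun i => (S i).coeff D') = ω ∧
      (∀ j : Fin n, lin (fy.l j.succ) (fun i => (S i).coeff D') =
        PowerSeries.X ^ s * PowerSeries.C (e j) * ω) := by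
  sorry

/-- [F-OPEN] the open condition, for `κ = k` -/
theorem open_cert [IsAlgClosed k] (D : VData k N n c) {y v : Fin (N + 1) → k} (hy : y ∈ D.V)
    (hv' : v ∈ D.V) {d M b0 b1 D' p : ℕ}
    {F : Fin (N + 1) → (MvPowerSeries (Fin p) (PowerSeries k))[X]}
    (hFd : ∀ i, (F i).natDegree ≤ d) {μ : PowerSeries k} (hμ : μ ≠ 0) {M0 : ℕ}
    (hcert : Cert D d F (MvPowerSeries.C μ) M0) (x : Fin p → W k)
    (hx : ∀ j, MvPowerSeries.constantCoeff (x j) = 0) (u : W k) (hu : IsUnit u) {ε : k}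
    (hε : ε ≠ 0) (S : Fin (N + 1) → (PowerSeries k)[X]) (hSd : ∀ i, (S i).natDegree ≤ D')
    (hS : OnV D.V S)
    (hSu : ∀ i, theta k k (S i) * u =
      WP k ^ b0 * hv d (fun m => ev k k x hx ((F i).coeff m)) (WP k ^ M) (WQ k ^ M))
    (Y Z : Fin (N + 1) → OL k)
    (hY : ∀ i, NonPos (Y i) ∧ PowerSeries.constantCoeff (Y i) = algebraMap k _ (y i) ∧
      toOut k k (theta k k (S i)) = PowerSeries.C (TT k D') * Y i)
    (hZ : ∀ i, NonPos (Z i) ∧ PowerSeries.constantCoeff (Z i) = algebraMap k _ (ε * v i) ∧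
      toInn k k (theta k k (S i)) = PowerSeries.X ^ b1 * Z i) :
    ∃ μ' : PowerSeries k, μ' ≠ 0 ∧ ∃ M', Cert D D' S μ' M' := by
  sorry

/-- [F-MARK] the marks of the glued curve: `q = x ^ 2`, `P = γ x`, `Q = γ⁻¹ x` -/
theorem mark_glue {d M b0 p : ℕ} (hM : 0 < M)
    {F : Fin (N + 1) → (MvPowerSeries (Fin p) (PowerSeries k))[X]}
    (hFd : ∀ i, (F i).natDegree ≤ d) (x : Fin p → W k)
    (hx : ∀ j, MvPowerSeries.constantCoeff (x j) = 0) (u : W k) (hu : IsUnit u)
    (S : Fin (N + 1) → (PowerSeries k)[X])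
    (hSu : ∀ i, theta k k (S i) * u =
      WP k ^ b0 * hv d (fun m => ev k k x hx ((F i).coeff m)) (WP k ^ M) (WQ k ^ M))
    (γ c1 : k) (hγ : γ ^ (2 * M) * c1 = 1) (v : Fin (N + 1) → k)
    (hF : Prop' v (fun i => (F i).eval (algebraMap k _ c1)))
    (sq : PowerSeries k →ₐ[k] PowerSeries k)
    (hsq : ∀ g m, PowerSeries.coeff m (sq g) = if Even m then PowerSeries.coeff (m / 2) g else 0) :
    Prop' v (fun i => ((S i).map (sq : PowerSeries k →+* PowerSeries k)).eval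
      (PowerSeries.C γ * PowerSeries.X)) := by
  sorry

end Pool.Agent.VFF
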