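import Pool.Agent.Lib_MP_1858fb_f.Stub2
import Pool.Agent.Lib_MP_1858fb_f.NegDef

/-! # MP_1858fb_ag, line F: STUBS 4 (the two halves of F-GLUE) -/

namespace Pool.Agent.VFF

open Pool.Agent.VF Polynomial

variable (k : Type) [Field k] (κ : Type) [CommRing κ] [Algebra k κ] {N n c : ℕ}

/-- [F-G1] the contraction -/
theorem glue_fix [IsAlgClosed k] (D : VData k N n c) {y v : Fin (N + 1) → k} (hy : y ∈ D.V)
    (hv' : v ∈ D.V) (fy : FrameAt D y) (fv : FrameAt D v) {d : ℕ}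
    {F : Fin (N + 1) → (MvPowerSeries (Fin (n + n)) (PowerSeries k))[X]}
    {α : Fin (N + 1) → PowerSeries k} {t ρ0 ρ1 : PowerSeries k} (h : GIn D fy fv d F α t ρ0 ρ1)
    (e : Fin n → κ) (Mmin : ℕ) :
    ∃ (M s : ℕ) (x : Fin (n + n) → W κ) (hx : ∀ j, MvPowerSeries.constantCoeff (x j) = 0)
      (S : Fin (N + 1) → W κ), Mmin ≤ M ∧ 0 < s ∧
      (∀ i, S i = hv d (fun m => ev k κ x hx ((F i).coeff m)) (WP κ ^ M) (WQ κ ^ M)) ∧
      (∀ i, ∃ r : OL κ, toOut k κ (S i) = PowerSeries.C (TT κ (M * d)) *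
        toOut k κ (serP k κ ρ0) * (algebraMap k _ (y i) + PowerSeries.X * r)) ∧
      (∀ i, ∃ r : OL κ, toInn k κ (S i) = PowerSeries.C (TT κ (M * d)) *
        toInn k κ (serP k κ ρ1) * (algebraMap k _ (v i) + PowerSeries.X * r)) ∧
      (∀ j : Fin n, ∃ r : OL κ, Neg r ∧ PowerSeries.X ∣ r ∧
        toOut k κ (lin (fy.l j.succ) S) = toOut k κ (lin (fy.l 0) S) *
          (PowerSeries.X ^ s * algebraMap κ _ (e j) + r)) ∧
      (∀ j : Fin n, ∃ r : OL κ, Neg r ∧ PowerSeries.X ∣ r ∧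
        toInn k κ (lin (fv.l j.succ) S) = toInn k κ (lin (fv.l 0) S) *
          (toInn k κ (serP k κ (lin (fv.l j.succ) α)) + r)) := by
  sorry

/-- [F-G2] charts on the two circles, factorisation of the two units, the polynomials -/
theorem glue_poly [IsAlgClosed k] (D : VData k N n c) {y v : Fin (N + 1) → k} (hy : y ∈ D.V)
    (hv' : v ∈ D.V) (fy : FrameAt D y) (fv : FrameAt D v)
    {α : Fin (N + 1) → PowerSeries k} (hα : OnV D.V α)
    (hα0 : ∀ i, PowerSeries.constantCoeff (α i) = v i) (hα1 : lin (fv.l 0) α = 1)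
    {ρ0 ρ1 : PowerSeries k} (hρ0 : ρ0 ≠ 0) (hρ1 : ρ1 ≠ 0) (e : Fin n → κ) (m0 s : ℕ)
    (hm0 : ρ1.order < m0) (hs : 0 < s) (S : Fin (N + 1) → W κ) (hS : OnV D.V S)
    (h1 : ∀ i, ∃ r : OL κ, toOut k κ (S i) = PowerSeries.C (TT κ m0) *
      toOut k κ (serP k κ ρ0) * (algebraMap k _ (y i) + PowerSeries.X * r))
    (h2 : ∀ i, ∃ r : OL κ, toInn k κ (S i) = PowerSeries.C (TT κ m0) *
      toInn k κ (serP k κ ρ1) * (algebraMap k _ (v i) + PowerSeries.X * r))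
    (h3 : ∀ j : Fin n, ∃ r : OL κ, Neg r ∧ PowerSeries.X ∣ r ∧
      toOut k κ (lin (fy.l j.succ) S) = toOut k κ (lin (fy.l 0) S) *
        (PowerSeries.X ^ s * algebraMap κ _ (e j) + r))
    (h4 : ∀ j : Fin n, ∃ r : OL κ, Neg r ∧ PowerSeries.X ∣ r ∧
      toInn k κ (lin (fv.l j.succ) S) = toInn k κ (lin (fv.l 0) S) *
        (toInn k κ (serP k κ (lin (fv.l j.succ) α)) + r)) :
    ∃ (b0 b1 D' : ℕ) (u : W κ) (ε : k) (S' : Fin (N + 1) → (PowerSeries κ)[X])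
      (Y Z : Fin (N + 1) → OL κ) (ν ω : PowerSeries κ),
      IsUnit u ∧ ε ≠ 0 ∧ (∀ i, (S' i).natDegree ≤ D') ∧ 0 < D' ∧
      (∀ i, theta k κ (S' i) * u = WP κ ^ b0 * S i) ∧
      (∀ i, NonPos (Y i) ∧ PowerSeries.constantCoeff (Y i) = algebraMap k _ (y i) ∧
        toOut k κ (theta k κ (S' i)) = PowerSeries.C (TT κ D') * Y i) ∧
      (∀ i, NonPos (Z i) ∧ PowerSeries.constantCoeff (Z i) = algebraMap k _ (ε * v i) ∧
        toInn k κ (theta k κ (S' i)) = PowerSeries.X ^ b1 * Z i) ∧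
      IsUnit ν ∧ (∀ i, (S' i).coeff 0 = PowerSeries.X ^ b1 * ν * algebraMap k _ (v i)) ∧
      IsUnit ω ∧ lin (fy.l 0) (fun i => (S' i).coeff D') = ω ∧
      (∀ j : Fin n, lin (fy.l j.succ) (fun i => (S' i).coeff D') =
        PowerSeries.X ^ s * PowerSeries.C (e j) * ω) := by
  sorry

end Pool.Agent.VFF
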