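import Pool.Agent.Lib_MP_1858fb_f.GDefs

/-! # MP_1858fb_ag, line F: STUBS 5 (parts of F-GSTEP) -/

namespace Pool.Agent.VFF

open Pool.Agent.VF Polynomial

variable {k : Type} [Field k] {N n c : ℕ}

/-- [F-GS2] base change along an injective homomorphism of domains -/
theorem curve_map (D : VData k N n c) {O O' : Type} [CommRing O] [IsDomain O] [CommRing O']
    [IsDomain O'] [Algebra k O] [Algebra k O'] (φ : O →ₐ[k] O') (hφ : Function.Injective φ)
    {d : ℕ} {R : Fin (N + 1) → O[X]} (hR : Curve D d R) :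
    Curve D d (fun i => (R i).map (φ : O →+* O')) := by
  sorry

theorem sec_map (D : VData k N n c) {O O' : Type} [CommRing O] [IsDomain O] [CommRing O']
    [IsDomain O'] [Algebra k O] [Algebra k O'] (φ : O →ₐ[k] O') (hφ : Function.Injective φ)
    {d w : ℕ} {R : Fin (N + 1) → O[X]} {cm : Fin w → k} {g : Fin n → Fin (N + 1) → O[X]}
    (hg : Sec D d R cm g) :
    Sec D d (fun i => (R i).map (φ : O →+* O')) cm (fun j i => (g j i).map (φ : O →+* O')) := by
  sorry

/-- the first order parameters `ε 1, .., ε n` -/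
abbrev Eps (k : Type) [Field k] (n : ℕ) : Type := TrivSqZeroExt k (Fin n → k)

/-- [F-GS1] `ε = 0` -/
noncomputable def fstP (k : Type) [Field k] (n : ℕ) :
    (PowerSeries (Eps k n))[X] →ₐ[k] (PowerSeries k)[X] := sorry

/-- [F-GS1] the coefficient of `ε j` -/
noncomputable def sndP (k : Type) [Field k] {n : ℕ} (j : Fin n) :
    (PowerSeries (Eps k n))[X] →+ (PowerSeries k)[X] := sorry

theorem coeff_fstP (f : (PowerSeries (Eps k n))[X]) (m b : ℕ) :
    PowerSeries.coeff b ((fstP k n f).coeff m) = (PowerSeries.coeff b (f.coeff m)).fst := by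
  sorry

theorem coeff_sndP (j : Fin n) (f : (PowerSeries (Eps k n))[X]) (m b : ℕ) :
    PowerSeries.coeff b ((sndP k j f).coeff m) = (PowerSeries.coeff b (f.coeff m)).snd j := by
  sorry

theorem fstP_eq_map (f : (PowerSeries (Eps k n))[X]) : fstP k n f =
    f.map (PowerSeries.map ((TrivSqZeroExt.fstHom k k (Fin n → k) : Eps k n →ₐ[k] k) :
      Eps k n →+* k)) := by
  sorry

theorem sndP_mul (j : Fin n) (f g : (PowerSeries (Eps k n))[X]) :
    sndP k j (f * g) = fstP k n f * sndP k j g + fstP k n g * sndP k j f := by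
  sorry

theorem sndP_algebraMap (j : Fin n) (a : k) :
    sndP k j (algebraMap k (PowerSeries (Eps k n))[X] a) = 0 := by
  sorry

/-- [F-GS4] the sections of the glued curve -/
theorem secs_of_dual (D : VData k N n c) {O : Type} [CommRing O] [IsDomain O] [Algebra k O]
    {d : ℕ} (hd : 0 < d) (S0 : Fin (N + 1) → O[X]) (S1 : Fin n → Fin (N + 1) → O[X])
    (h0d : ∀ i, (S0 i).natDegree ≤ d) (h1d : ∀ j i, (S1 j i).natDegree ≤ d)
    (ht0 : Tang D.V S0 S0) (ht1 : ∀ j, Tang D.V S0 (S1 j))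
    (hz : ∀ j, ∃ a : O, ∀ i, (S1 j i).coeff 0 = a * (S0 i).coeff 0)
    (l : Fin (n + 1) → Fin (N + 1) → k) (ω0 τ : O) (hω : ω0 ≠ 0) (hτ : τ ≠ 0)
    (hl0 : lin (l 0) (fun i => (S0 i).coeff d) = ω0)
    (hl1 : ∀ i : Fin n, lin (l i.succ) (fun i' => (S0 i').coeff d) = 0)
    (hl2 : ∀ i j : Fin n, lin (l i.succ) (fun i' => (S1 j i').coeff d) =
      if i = j then τ else 0) :
    ∃ g : Fin n → Fin (N + 1) → O[X], Sec D d S0 (Fin.elim0 : Fin 0 → k) g := by
  sorry

end Pool.Agent.VFF
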