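import Mathlib
import Pool.Agent.Lib_MP_1858fb_w.Defs
import Pool.Agent.Lib_MP_1858fb_w.Formal

set_option autoImplicit false

/-!
# MP_1858fb_ag, line F: the coordinates of a point of `V` in a complete ring belong to the
subring that contains its local coordinates
-/

namespace Pool.Agent.VF

open MvPolynomial

variable {k : Type} [Field k] {σ : Type} [Fintype σ]

/-- If the differentials of the members of `van V` at `p` and the coordinates in `T` have only
the common zero `0`, a `k`-subspace of an algebra `B` contains a vector if it contains its
coordinates in `T` and the values of all differentials. -/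
theorem mem_of_chart {B : Type*} [CommRing B] [Algebra k B] (V : Set (σ → k)) (p : σ → k)
    (T : Set σ) (hT : ∀ w ∈ Tan V p, (∀ j ∈ T, w j = 0) → w = 0) (L : Submodule k B)
    (c : σ → B) (hc : ∀ j ∈ T, c j ∈ L)
    (hE : ∀ E ∈ van V, ∑ l, aeval p (pderiv l E) • c l ∈ L) (j : σ) : c j ∈ L := by
  classical
  -- the vectors of coefficients of the relations
  let S : Submodule k (σ → k) :=
    { carrier := {g | ∑ l, g l • c l ∈ L}
      add_mem' := by
        intro a b ha hb
        have : ∑ l, (a + b) l • c l = ∑ l, a l • c l + ∑ l, b l • c l := by
          rw [← Finset.sum_add_distrib]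
          exact Finset.sum_congr rfl fun l _ => by rw [Pi.add_apply, add_smul]
        show ∑ l, (a + b) l • c l ∈ L
        rw [this]
        exact L.add_mem ha hb
      zero_mem' := by
        show ∑ l, (0 : σ → k) l • c l ∈ L
        simp
      smul_mem' := by
        intro r a ha
        have : ∑ l, (r • a) l • c l = r • ∑ l, a l • c l := by
          rw [Finset.smul_sum]
          exact Finset.sum_congr rfl fun l _ => by rw [Pi.smul_apply, smul_eq_mul, mul_smul]
        show ∑ l, (r • a) l • c l ∈ L
        rw [this]
        exact L.smul_mem _ ha }
  have htop : S = ⊤ := by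
    by_contra hne
    obtain ⟨f, hf0, hf⟩ := S.exists_le_ker_of_lt_top (lt_top_iff_ne_top.2 hne)
    apply hf0
    -- the vector of the functional f
    let w : σ → k := fun l => f (Pi.single l 1)
    have hfg : ∀ g : σ → k, f g = ∑ l, g l * w l := by
      intro g
      conv_lhs => rw [show g = ∑ l, g l • (Pi.single l 1 : σ → k) from by
        funext i
        simp [Finset.sum_apply, Pi.single_apply]]
      rw [map_sum]
      exact Finset.sum_congr rfl fun l _ => by rw [map_smul, smul_eq_mul]
    have hw : w = 0 := by
      apply hT
      · intro E hE'
        have h1 : (fun l => aeval p (pderiv l E)) ∈ S := hE E hE'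
        have h2 := hf h1
        rw [LinearMap.mem_ker, hfg] at h2
        exact h2
      · intro i hi
        have h1 : (Pi.single i 1 : σ → k) ∈ S := by
          show ∑ l, (Pi.single i 1 : σ → k) l • c l ∈ L
          have : ∑ l, (Pi.single i 1 : σ → k) l • c l = c i := by
            rw [Finset.sum_eq_single i]
            · simp
            · intro b _ hb
              rw [Pi.single_eq_of_ne hb, zero_smul]
            · intro h
              exact absurd (Finset.mem_univ i) h
          rw [this]
          exact hc i hi
        exact hf h1
    ext l
    simpa using congrFun hw l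
  have h1 : (Pi.single j 1 : σ → k) ∈ S := by rw [htop]; trivial
  have h2 : ∑ l, (Pi.single j 1 : σ → k) l • c l = c j := by
    rw [Finset.sum_eq_single j]
    · simp
    · intro b _ hb
      rw [Pi.single_eq_of_ne hb, zero_smul]
    · intro h
      exact absurd (Finset.mem_univ j) h
  have h3 : ∑ l, (Pi.single j 1 : σ → k) l • c l ∈ L := h1
  rwa [h2] at h3

/-- A point `s` of `V` with coordinates in `B[[q]]` that specialises to `p` (where the
coordinates in `T` are local coordinates, with the scaling) has all its coordinates in `L[[q]]`
if the coordinates in `T` are in `L[[q]]`, `L` any subalgebra of `B`. -/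
theorem coeff_mem_of_chart {B : Type*} [CommRing B] [Algebra k B] (V : Set (σ → k)) (p : σ → k)
    (T : Set σ) (hT : ∀ w ∈ Tan V p, (∀ j ∈ T, w j = 0) → w = 0) (L : Subalgebra k B)
    (s : σ → PowerSeries B) (h0 : ∀ j, PowerSeries.constantCoeff (s j) = algebraMap k B (p j))
    (hE : ∀ E ∈ van V, aeval s E = 0) (hs : ∀ j ∈ T, ∀ n, PowerSeries.coeff n (s j) ∈ L)
    (n : ℕ) : ∀ j, PowerSeries.coeff n (s j) ∈ L := by
  induction n using Nat.strong_induction_on with
  | _ n ih =>
    rcases Nat.eq_zero_or_pos n with rfl | hn
    · intro j
      rw [PowerSeries.coeff_zero_eq_constantCoeff_apply, h0]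
      exact L.algebraMap_mem _
    · -- the truncation
      let s'' : σ → PowerSeries L := fun j => PowerSeries.mk fun m =>
        if h : m < n then ⟨PowerSeries.coeff m (s j), ih m h j⟩ else 0
      let f : PowerSeries L →+* PowerSeries B := PowerSeries.map (L.val : L →+* B)
      let s' : σ → PowerSeries B := fun j => f (s'' j)
      have hs' : ∀ j m, PowerSeries.coeff m (s' j) =
          if m < n then PowerSeries.coeff m (s j) else 0 := by
        intro j m
        simp only [s', s'', f, PowerSeries.coeff_map, PowerSeries.coeff_mk]
        split_ifs with h
        · rfl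
        · simp
      let Δ : σ → PowerSeries B := fun j => s j - s' j
      have hΔ : ∀ j, Δ j ∈ Ideal.span {(PowerSeries.X : PowerSeries B) ^ n} := by
        intro j
        rw [Ideal.mem_span_singleton, PowerSeries.X_pow_dvd_iff]
        intro m hm
        simp only [Δ, map_sub, hs', if_pos hm, sub_self]
      have hsum : (fun j => s' j + Δ j) = s := by
        funext j
        simp [Δ]
      apply mem_of_chart V p T hT L.toSubmodule (fun j => PowerSeries.coeff n (s j))
        (fun j hj => hs j hj n)
      intro E hE'
      have htay := Pool.Agent.VF.Fm.taylor_mem (Ideal.span {(PowerSeries.X : PowerSeries B) ^ n})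
        (Ideal.span {(PowerSeries.X : PowerSeries B) ^ (n + 1)}) (by
          intro x hx y hy
          rw [Ideal.mem_span_singleton] at hx hy ⊢
          refine (pow_dvd_pow _ (by omega : n + 1 ≤ n + n)).trans ?_
          rw [pow_add]
          exact mul_dvd_mul hx hy) s' Δ hΔ E
      rw [hsum, hE E hE', zero_sub, Ideal.mem_span_singleton, PowerSeries.X_pow_dvd_iff] at htay
      have h1 := htay n (by omega)
      rw [map_sub, map_neg, map_sum, sub_eq_zero] at h1
      have h2 : ∀ l, PowerSeries.coeff n (aeval s' (pderiv l E) * Δ l) =
          aeval p (pderiv l E) • PowerSeries.coeff n (s l) := by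
        intro l
        have hc : PowerSeries.constantCoeff (aeval s' (pderiv l E)) =
            algebraMap k B (aeval p (pderiv l E)) := by
          have e1 : (PowerSeries.constantCoeff (R := B)) (aeval s' (pderiv l E)) =
              aeval (fun j => PowerSeries.constantCoeff (s' j)) (pderiv l E) := by
            have := MvPolynomial.map_aeval (R := k) s' (PowerSeries.constantCoeff (R := B))
              (pderiv l E)
            rw [this, aeval_def]
            congr 1
          have e2 : (fun j => PowerSeries.constantCoeff (s' j)) =
              fun j => algebraMap k B (p j) := by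
            funext j
            rw [← PowerSeries.coeff_zero_eq_constantCoeff_apply, hs', if_pos hn,
              PowerSeries.coeff_zero_eq_constantCoeff_apply, h0]
          rw [e1, e2]
          exact MvPolynomial.aeval_algebraMap_apply B p (pderiv l E)
        obtain ⟨r, hr⟩ := Ideal.mem_span_singleton.1 (hΔ l)
        have hcr : PowerSeries.coeff n (s l) = PowerSeries.constantCoeff r := by
          have : PowerSeries.coeff n (Δ l) = PowerSeries.coeff n (s l) := by
            simp only [Δ, map_sub, hs', lt_irrefl, if_false, sub_zero]
          rw [← this, hr]
          have := PowerSeries.coeff_X_pow_mul r n 0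
          simpa using this
        rw [hr, hcr]
        have e3 : aeval s' (pderiv l E) * ((PowerSeries.X : PowerSeries B) ^ n * r) =
            (PowerSeries.X : PowerSeries B) ^ n * (aeval s' (pderiv l E) * r) := by ring
        rw [e3]
        have := PowerSeries.coeff_X_pow_mul (aeval s' (pderiv l E) * r) n 0
        rw [zero_add] at this
        rw [this, PowerSeries.coeff_zero_eq_constantCoeff_apply, map_mul, hc, Algebra.smul_def]
      simp only [h2] at h1
      rw [← h1]
      -- the value at the truncation
      apply L.toSubmodule.neg_mem
      have h3 : aeval s' E = f (aeval s'' E) := by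
        have := MvPolynomial.map_aeval (R := k) s'' f E
        rw [this, aeval_def]
        congr 1
      rw [h3]
      simp only [f, PowerSeries.coeff_map]
      exact (PowerSeries.coeff n (aeval s'' E)).2

end Pool.Agent.VF
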