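import Pool.Agent.Lib_MP_1858fb_f.GDefs

/-!
# MP_1858fb_ag, line F, F-SYS part 1: properties given by a finite system of equations
-/

set_option autoImplicit false

namespace Pool.Agent.VFF

open Pool.Agent.VF Polynomial

section SysFrame

variable {k : Type} [Field k]

/-- a scalar function of the unknowns given by a polynomial -/
def SysFn {σ : Type} (F : (K : Type) → [Field K] → [Algebra k K] → (σ → K) → K) : Prop :=
  ∃ p : MvPolynomial σ k, ∀ (K : Type) [Field K] [Algebra k K] (z : σ → K),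
    F K z = MvPolynomial.aeval z p

/-- a polynomial valued function of the unknowns given by a polynomial -/
def SysPx {σ : Type} (F : (K : Type) → [Field K] → [Algebra k K] → (σ → K) → K[X]) : Prop :=
  ∃ p : (MvPolynomial σ k)[X], ∀ (K : Type) [Field K] [Algebra k K] (z : σ → K),
    F K z = p.map (MvPolynomial.aeval z : MvPolynomial σ k →ₐ[k] K).toRingHom

/-- a property of the unknowns given by a finite system of equations with more unknowns -/
def SysP {σ : Type} (P : (K : Type) → [Field K] → [Algebra k K] → (σ → K) → Prop) : Prop :=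
  ∃ (r : ℕ) (S : Finset (MvPolynomial (σ ⊕ Fin r) k)),
    ∀ (K : Type) [Field K] [Algebra k K] (z : σ → K),
      P K z ↔ ∃ x : Fin r → K, ∀ f ∈ S, MvPolynomial.aeval (Sum.elim z x) f = 0

theorem sysFrame_map {σ : Type} {K : Type} [Field K] [Algebra k K] (z : σ → K)
    (c : k) : (MvPolynomial.aeval z : MvPolynomial σ k →ₐ[k] K).toRingHom (MvPolynomial.C c) =
      algebraMap k K c := by
  show MvPolynomial.aeval z (MvPolynomial.C c) = _
  exact MvPolynomial.aeval_C _ _

/-! ### scalar functions -/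

theorem SysFn.var {σ : Type} (i : σ) : SysFn (k := k) (fun K _ _ z => z i) :=
  ⟨MvPolynomial.X i, fun K _ _ z => (MvPolynomial.aeval_X _ _).symm⟩

theorem SysFn.const {σ : Type} (c : k) :
    SysFn (k := k) (σ := σ) (fun K _ _ z => algebraMap k K c) :=
  ⟨MvPolynomial.C c, fun K _ _ z => (MvPolynomial.aeval_C _ _).symm⟩

theorem SysFn.add {σ : Type} {F G : (K : Type) → [Field K] → [Algebra k K] → (σ → K) → K}
    (hF : SysFn F) (hG : SysFn G) : SysFn (k := k) (fun K _ _ z => F K z + G K z) := by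
  obtain ⟨p, hp⟩ := hF
  obtain ⟨q, hq⟩ := hG
  exact ⟨p + q, fun K _ _ z => by beta_reduce; rw [hp, hq, map_add]⟩

theorem SysFn.mul {σ : Type} {F G : (K : Type) → [Field K] → [Algebra k K] → (σ → K) → K}
    (hF : SysFn F) (hG : SysFn G) : SysFn (k := k) (fun K _ _ z => F K z * G K z) := by
  obtain ⟨p, hp⟩ := hF
  obtain ⟨q, hq⟩ := hG
  exact ⟨p * q, fun K _ _ z => by beta_reduce; rw [hp, hq, map_mul]⟩

theorem SysFn.zero {σ : Type} : SysFn (k := k) (σ := σ) (fun K _ _ z => 0) :=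
  ⟨0, fun K _ _ z => (map_zero _).symm⟩

theorem SysFn.one {σ : Type} : SysFn (k := k) (σ := σ) (fun K _ _ z => 1) :=
  ⟨1, fun K _ _ z => (map_one _).symm⟩

theorem SysFn.sum {σ ι : Type} (s : Finset ι)
    {F : ι → (K : Type) → [Field K] → [Algebra k K] → (σ → K) → K}
    (hF : ∀ i, SysFn (F i)) : SysFn (k := k) (fun K _ _ z => ∑ i ∈ s, F i K z) := by
  choose p hp using hF
  exact ⟨∑ i ∈ s, p i, fun K _ _ z => by
    rw [map_sum]
    exact Finset.sum_congr rfl fun i _ => hp i K z⟩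

theorem SysFn.comp {σ τ : Type} {F : (K : Type) → [Field K] → [Algebra k K] → (σ → K) → K}
    (hF : SysFn F) (φ : σ → τ) :
    SysFn (k := k) (fun K _ _ (z : τ → K) => F K (fun i => z (φ i))) := by
  obtain ⟨p, hp⟩ := hF
  exact ⟨MvPolynomial.rename φ p, fun K _ _ z => by
    beta_reduce
    rw [hp, MvPolynomial.aeval_rename]
    rfl⟩

/-! ### polynomial valued functions -/

theorem SysPx.C {σ : Type} {F : (K : Type) → [Field K] → [Algebra k K] → (σ → K) → K}
    (hF : SysFn F) : SysPx (k := k) (fun K _ _ z => Polynomial.C (F K z)) := by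
  obtain ⟨p, hp⟩ := hF
  exact ⟨Polynomial.C p, fun K _ _ z => by
    beta_reduce
    rw [hp, Polynomial.map_C]
    rfl⟩

theorem SysPx.X {σ : Type} : SysPx (k := k) (σ := σ) (fun K _ _ z => (Polynomial.X : K[X])) :=
  ⟨Polynomial.X, fun K _ _ z => Polynomial.map_X _ |>.symm⟩

theorem SysPx.one {σ : Type} : SysPx (k := k) (σ := σ) (fun K _ _ z => (1 : K[X])) :=
  ⟨1, fun K _ _ z => (Polynomial.map_one _).symm⟩

theorem SysPx.zero {σ : Type} : SysPx (k := k) (σ := σ) (fun K _ _ z => (0 : K[X])) :=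
  ⟨0, fun K _ _ z => (Polynomial.map_zero _).symm⟩

theorem SysPx.add {σ : Type} {F G : (K : Type) → [Field K] → [Algebra k K] → (σ → K) → K[X]}
    (hF : SysPx F) (hG : SysPx G) : SysPx (k := k) (fun K _ _ z => F K z + G K z) := by
  obtain ⟨p, hp⟩ := hF
  obtain ⟨q, hq⟩ := hG
  exact ⟨p + q, fun K _ _ z => by beta_reduce; rw [hp, hq, Polynomial.map_add]⟩

theorem SysPx.mul {σ : Type} {F G : (K : Type) → [Field K] → [Algebra k K] → (σ → K) → K[X]}
    (hF : SysPx F) (hG : SysPx G) : SysPx (k := k) (fun K _ _ z => F K z * G K z) := by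
  obtain ⟨p, hp⟩ := hF
  obtain ⟨q, hq⟩ := hG
  exact ⟨p * q, fun K _ _ z => by beta_reduce; rw [hp, hq, Polynomial.map_mul]⟩

theorem SysPx.pow {σ : Type} {F : (K : Type) → [Field K] → [Algebra k K] → (σ → K) → K[X]}
    (hF : SysPx F) (e : ℕ) : SysPx (k := k) (fun K _ _ z => F K z ^ e) := by
  obtain ⟨p, hp⟩ := hF
  exact ⟨p ^ e, fun K _ _ z => by beta_reduce; rw [hp, Polynomial.map_pow]⟩

theorem SysPx.sum {σ ι : Type} (s : Finset ι)
    {F : ι → (K : Type) → [Field K] → [Algebra k K] → (σ → K) → K[X]}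
    (hF : ∀ i, SysPx (F i)) : SysPx (k := k) (fun K _ _ z => ∑ i ∈ s, F i K z) := by
  choose p hp using hF
  exact ⟨∑ i ∈ s, p i, fun K _ _ z => by
    rw [Polynomial.map_sum]
    exact Finset.sum_congr rfl fun i _ => hp i K z⟩

theorem SysPx.comp {σ τ : Type} {F : (K : Type) → [Field K] → [Algebra k K] → (σ → K) → K[X]}
    (hF : SysPx F) (φ : σ → τ) :
    SysPx (k := k) (fun K _ _ (z : τ → K) => F K (fun i => z (φ i))) := by
  obtain ⟨p, hp⟩ := hF
  refine ⟨p.map (MvPolynomial.rename φ : MvPolynomial σ k →ₐ[k] MvPolynomial τ k).toRingHom,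
    fun K _ _ z => ?_⟩
  beta_reduce
  rw [hp, Polynomial.map_map]
  congr 1
  apply RingHom.ext
  intro a
  show MvPolynomial.aeval (fun i => z (φ i)) a = MvPolynomial.aeval z (MvPolynomial.rename φ a)
  rw [MvPolynomial.aeval_rename]
  rfl

theorem SysPx.coeff {σ : Type} {F : (K : Type) → [Field K] → [Algebra k K] → (σ → K) → K[X]}
    (hF : SysPx F) (e : ℕ) : SysFn (k := k) (fun K _ _ z => (F K z).coeff e) := by
  obtain ⟨p, hp⟩ := hF
  exact ⟨p.coeff e, fun K _ _ z => by
    beta_reduce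
    rw [hp, Polynomial.coeff_map]
    rfl⟩

theorem SysPx.eval {σ : Type} {F : (K : Type) → [Field K] → [Algebra k K] → (σ → K) → K[X]}
    (hF : SysPx F) (c : k) :
    SysFn (k := k) (fun K _ _ z => (F K z).eval (algebraMap k K c)) := by
  obtain ⟨p, hp⟩ := hF
  refine ⟨p.eval (MvPolynomial.C c), fun K _ _ z => ?_⟩
  beta_reduce
  rw [hp]
  have h1 := Polynomial.eval_map_apply (MvPolynomial.aeval z : MvPolynomial σ k →ₐ[k] K).toRingHom
    (p := p) (MvPolynomial.C c)
  rw [sysFrame_map] at h1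
  exact h1

theorem SysPx.aeval {σ ι : Type} {R : (K : Type) → [Field K] → [Algebra k K] → (σ → K) → ι → K[X]}
    (hR : ∀ i, SysPx (k := k) (fun K _ _ z => R K z i)) (E : MvPolynomial ι k) :
    SysPx (k := k) (fun K _ _ z => MvPolynomial.aeval (R K z) E) := by
  choose p hp using hR
  refine ⟨MvPolynomial.aeval p E, fun K _ _ z => ?_⟩
  have h1 : (MvPolynomial.aeval p E).map
      (MvPolynomial.aeval z : MvPolynomial σ k →ₐ[k] K).toRingHom =
      Polynomial.mapAlgHom (MvPolynomial.aeval z : MvPolynomial σ k →ₐ[k] K)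
        (MvPolynomial.aeval p E) := rfl
  have h2 : R K z = fun i => Polynomial.mapAlgHom
      (MvPolynomial.aeval z : MvPolynomial σ k →ₐ[k] K) (p i) := funext fun i => hp i K z
  beta_reduce
  rw [h1, MvPolynomial.comp_aeval_apply, h2]

theorem SysPx.dif {σ ι : Type} [Fintype ι]
    {R G : (K : Type) → [Field K] → [Algebra k K] → (σ → K) → ι → K[X]}
    (hR : ∀ i, SysPx (k := k) (fun K _ _ z => R K z i)) (hG : ∀ i, SysPx (k := k) (fun K _ _ z => G K z i))
    (E : MvPolynomial ι k) :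
    SysPx (k := k) (fun K _ _ z => Pool.Agent.VF.dif E (R K z) (G K z)) := by
  unfold Pool.Agent.VF.dif
  exact SysPx.sum _ fun j => (SysPx.aeval hR _).mul (hG j)

/-! ### systems -/

theorem SysP.congr {σ : Type} {P Q : (K : Type) → [Field K] → [Algebra k K] → (σ → K) → Prop}
    (hP : SysP P) (h : ∀ (K : Type) [Field K] [Algebra k K] (z : σ → K), Q K z ↔ P K z) :
    SysP Q := by
  obtain ⟨r, S, hS⟩ := hP
  exact ⟨r, S, fun K _ _ z => (h K z).trans (hS K z)⟩

/-- a system whose additional unknowns are indexed by a finite type -/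
theorem SysP.of_fintype {σ τ : Type} [Finite τ]
    {P : (K : Type) → [Field K] → [Algebra k K] → (σ → K) → Prop}
    (S : Finset (MvPolynomial (σ ⊕ τ) k))
    (h : ∀ (K : Type) [Field K] [Algebra k K] (z : σ → K),
      P K z ↔ ∃ x : τ → K, ∀ f ∈ S, MvPolynomial.aeval (Sum.elim z x) f = 0) : SysP P := by
  classical
  obtain ⟨r, ⟨e⟩⟩ := Finite.exists_equiv_fin τ
  refine ⟨r, S.image (MvPolynomial.rename (Sum.map id e)), fun K _ _ z => (h K z).trans ?_⟩
  constructor
  · rintro ⟨x, hx⟩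
    refine ⟨x ∘ e.symm, fun f hf => ?_⟩
    obtain ⟨g, hg, rfl⟩ := Finset.mem_image.mp hf
    rw [MvPolynomial.aeval_rename]
    have h1 : Sum.elim z (x ∘ e.symm) ∘ Sum.map id e = Sum.elim z x := by
      funext i
      rcases i with i | i
      · rfl
      · simp
    rw [h1]
    exact hx g hg
  · rintro ⟨x, hx⟩
    refine ⟨x ∘ e, fun f hf => ?_⟩
    have h2 := hx _ (Finset.mem_image_of_mem _ hf)
    rw [MvPolynomial.aeval_rename] at h2
    have h1 : Sum.elim z x ∘ Sum.map id e = Sum.elim z (x ∘ e) := by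
      funext i
      rcases i with i | i
      · rfl
      · rfl
    rw [h1] at h2
    exact h2

theorem SysP.forall {σ ι : Type} [Finite ι]
    {P : ι → (K : Type) → [Field K] → [Algebra k K] → (σ → K) → Prop}
    (hP : ∀ i, SysP (P i)) : SysP (k := k) (fun K _ _ z => ∀ i, P i K z) := by
  classical
  have := Fintype.ofFinite ι
  choose r S hS using hP
  refine SysP.of_fintype (τ := Σ i, Fin (r i))
    (Finset.univ.biUnion fun i => (S i).image (MvPolynomial.rename (Sum.map id (Sigma.mk i)))) ?_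
  intro K _ _ z
  have key : ∀ (i : ι) (x : (Σ i, Fin (r i)) → K) (f : MvPolynomial (σ ⊕ Fin (r i)) k),
      MvPolynomial.aeval (Sum.elim z x) (MvPolynomial.rename (Sum.map id (Sigma.mk i)) f) =
        MvPolynomial.aeval (Sum.elim z fun j => x ⟨i, j⟩) f := by
    intro i x f
    rw [MvPolynomial.aeval_rename]
    congr 2
    funext j
    rcases j with j | j <;> rfl
  constructor
  · intro h
    choose x hx using fun i => (hS i K z).mp (h i)
    refine ⟨fun u => x u.1 u.2, fun f hf => ?_⟩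
    obtain ⟨i, _, hf⟩ := Finset.mem_biUnion.mp hf
    obtain ⟨g, hg, rfl⟩ := Finset.mem_image.mp hf
    rw [key]
    exact hx i g hg
  · rintro ⟨x, hx⟩ i
    refine (hS i K z).mpr ⟨fun j => x ⟨i, j⟩, fun g hg => ?_⟩
    rw [← key]
    exact hx _ (Finset.mem_biUnion.mpr ⟨i, Finset.mem_univ _, Finset.mem_image_of_mem _ hg⟩)

theorem SysP.and {σ : Type} {P Q : (K : Type) → [Field K] → [Algebra k K] → (σ → K) → Prop}
    (hP : SysP P) (hQ : SysP Q) : SysP (k := k) (fun K _ _ z => P K z ∧ Q K z) := by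
  have h : SysP (k := k) (fun K _ _ z => ∀ b : Bool, cond b (P K z) (Q K z)) := by
    refine SysP.forall (P := fun b K _ _ z => cond b (P K z) (Q K z)) ?_
    intro b
    cases b
    · exact hQ
    · exact hP
  exact h.congr fun K _ _ z => by
    rw [Bool.forall_bool]
    exact and_comm

theorem SysP.ex {σ τ : Type} [Finite τ]
    {P : (K : Type) → [Field K] → [Algebra k K] → (σ → K) → (τ → K) → Prop}
    (h : SysP (k := k) (fun K _ _ (z : σ ⊕ τ → K) => P K (fun i => z (Sum.inl i))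
      (fun i => z (Sum.inr i)))) :
    SysP (k := k) (fun K _ _ z => ∃ x : τ → K, P K z x) := by
  classical
  obtain ⟨r, S, hS⟩ := h
  refine SysP.of_fintype (τ := τ ⊕ Fin r)
    (S.image (MvPolynomial.rename (Equiv.sumAssoc σ τ (Fin r)))) ?_
  intro K _ _ z
  have key : ∀ (x : τ → K) (y : Fin r → K) (f : MvPolynomial ((σ ⊕ τ) ⊕ Fin r) k),
      MvPolynomial.aeval (Sum.elim z (Sum.elim x y))
        (MvPolynomial.rename (Equiv.sumAssoc σ τ (Fin r)) f) =
        MvPolynomial.aeval (Sum.elim (Sum.elim z x) y) f := by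
    intro x y f
    rw [MvPolynomial.aeval_rename]
    congr 2
    funext j
    rcases j with (j | j) | j <;> rfl
  constructor
  · rintro ⟨x, hx⟩
    obtain ⟨y, hy⟩ := (hS K (Sum.elim z x)).mp hx
    refine ⟨Sum.elim x y, fun f hf => ?_⟩
    obtain ⟨g, hg, rfl⟩ := Finset.mem_image.mp hf
    rw [key]
    exact hy g hg
  · rintro ⟨x, hx⟩
    refine ⟨fun i => x (Sum.inl i), (hS K (Sum.elim z fun i => x (Sum.inl i))).mpr
      ⟨fun i => x (Sum.inr i), fun g hg => ?_⟩⟩
    rw [← key]
    have h1 : Sum.elim (fun i => x (Sum.inl i)) (fun i => x (Sum.inr i)) = x := by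
      funext i
      rcases i with i | i <;> rfl
    rw [h1]
    exact hx _ (Finset.mem_image_of_mem _ hg)

theorem SysP.true {σ : Type} : SysP (k := k) (σ := σ) (fun K _ _ z => True) :=
  ⟨0, ∅, fun K _ _ z => ⟨fun _ => ⟨Fin.elim0, fun f hf => absurd hf (Finset.notMem_empty _)⟩,
    fun _ => trivial⟩⟩

theorem SysP.false {σ : Type} : SysP (k := k) (σ := σ) (fun K _ _ z => False) :=
  ⟨0, {1}, fun K _ _ z => ⟨False.elim, fun ⟨x, hx⟩ => by
    have h := hx 1 (Finset.mem_singleton_self _)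
    rw [map_one] at h
    exact one_ne_zero h⟩⟩

theorem SysP.eqPx {σ : Type} {F G : (K : Type) → [Field K] → [Algebra k K] → (σ → K) → K[X]}
    (hF : SysPx F) (hG : SysPx G) : SysP (k := k) (fun K _ _ z => F K z = G K z) := by
  classical
  obtain ⟨p, hp⟩ := hF
  obtain ⟨q, hq⟩ := hG
  refine SysP.of_fintype (τ := Fin 0) ((p - q).coeffs.image (MvPolynomial.rename Sum.inl)) ?_
  intro K _ _ z
  have key : ∀ (x : Fin 0 → K) (f : MvPolynomial σ k),
      MvPolynomial.aeval (Sum.elim z x) (MvPolynomial.rename Sum.inl f) =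
        MvPolynomial.aeval z f := by
    intro x f
    rw [MvPolynomial.aeval_rename]
    rfl
  rw [hp, hq, ← sub_eq_zero, ← Polynomial.map_sub]
  constructor
  · intro h
    refine ⟨Fin.elim0, fun f hf => ?_⟩
    obtain ⟨g, hg, rfl⟩ := Finset.mem_image.mp hf
    rw [key]
    obtain ⟨m, _, rfl⟩ := Polynomial.mem_coeffs_iff.mp hg
    have h1 := congrArg (fun u => Polynomial.coeff u m) h
    simp only [Polynomial.coeff_map, Polynomial.coeff_zero] at h1
    exact h1
  · rintro ⟨x, hx⟩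
    ext m
    rw [Polynomial.coeff_map, Polynomial.coeff_zero]
    by_cases h0 : (p - q).coeff m = 0
    · rw [h0, map_zero]
    · have h1 := hx _ (Finset.mem_image_of_mem _ (Polynomial.mem_coeffs_iff.mpr
        ⟨m, Polynomial.mem_support_iff.mpr h0, rfl⟩))
      rw [key] at h1
      exact h1

theorem SysP.eqFn {σ : Type} {F G : (K : Type) → [Field K] → [Algebra k K] → (σ → K) → K}
    (hF : SysFn F) (hG : SysFn G) : SysP (k := k) (fun K _ _ z => F K z = G K z) :=
  (SysP.eqPx (SysPx.C hF) (SysPx.C hG)).congr fun K _ _ z => Polynomial.C_inj.symm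

/-- a scalar unknown -/
theorem SysP.ex1 {σ : Type}
    {P : (K : Type) → [Field K] → [Algebra k K] → (σ → K) → K → Prop}
    (h : SysP (k := k) (fun K _ _ (z : σ ⊕ Unit → K) => P K (fun i => z (Sum.inl i))
      (z (Sum.inr ())))) :
    SysP (k := k) (fun K _ _ z => ∃ x : K, P K z x) := by
  have h1 : SysP (k := k) (fun K _ _ (z : σ → K) => ∃ x : Unit → K, P K z (x ())) := SysP.ex h
  exact h1.congr fun K _ _ z => ⟨fun ⟨x, hx⟩ => ⟨fun _ => x, hx⟩, fun ⟨x, hx⟩ => ⟨x (), hx⟩⟩

/-- a nonzero function -/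
theorem SysP.ne0 {σ : Type} {F : (K : Type) → [Field K] → [Algebra k K] → (σ → K) → K}
    (hF : SysFn F) : SysP (k := k) (fun K _ _ z => F K z ≠ 0) := by
  have h1 : SysP (k := k) (fun K _ _ (z : σ → K) => ∃ x : K, F K z * x = 1) :=
    SysP.ex1 (SysP.eqFn ((hF.comp Sum.inl).mul (SysFn.var _)) SysFn.one)
  exact h1.congr fun K _ _ z => ⟨fun h => ⟨(F K z)⁻¹, mul_inv_cancel₀ h⟩,
    fun ⟨x, hx⟩ h0 => by
      rw [h0, zero_mul] at hx
      exact zero_ne_one hx⟩

/-- the polynomials with given coefficients -/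
noncomputable def sysTup {K ι : Type} [Field K] (d : ℕ) (x : ι × Fin (d + 1) → K) (i : ι) : K[X] :=
  ∑ j : Fin (d + 1), Polynomial.C (x (i, j)) * Polynomial.X ^ (j : ℕ)

theorem sysTup_natDegree {K ι : Type} [Field K] (d : ℕ) (x : ι × Fin (d + 1) → K) (i : ι) :
    (sysTup d x i).natDegree ≤ d := by
  unfold sysTup
  refine Polynomial.natDegree_sum_le_of_forall_le _ _ fun j _ => ?_
  exact (Polynomial.natDegree_C_mul_X_pow_le _ _).trans (by have := j.2; omega)

theorem sysTup_eq {K ι : Type} [Field K] (d : ℕ) (R : ι → K[X]) (h : ∀ i, (R i).natDegree ≤ d) :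
    sysTup d (fun u : ι × Fin (d + 1) => (R u.1).coeff u.2) = R := by
  funext i
  unfold sysTup
  rw [Fin.sum_univ_eq_sum_range (fun j => Polynomial.C ((R i).coeff j) * Polynomial.X ^ j) (d + 1)]
  exact (Polynomial.as_sum_range_C_mul_X_pow' (R i) (Nat.lt_succ_of_le (h i))).symm

theorem SysPx.tup {σ ι : Type} {d : ℕ} (φ : ι × Fin (d + 1) → σ) (i : ι) :
    SysPx (k := k) (fun K _ _ (z : σ → K) => sysTup d (fun u => z (φ u)) i) := by
  unfold sysTup
  exact SysPx.sum _ fun j => (SysPx.C (SysFn.var _)).mul (SysPx.X.pow _)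

/-- unknown polynomials of bounded degree -/
theorem SysP.exTup {σ ι : Type} [Finite ι] (d : ℕ)
    {P : (K : Type) → [Field K] → [Algebra k K] → (σ → K) → (ι → K[X]) → Prop}
    (h : SysP (k := k) (fun K _ _ (z : σ ⊕ ι × Fin (d + 1) → K) => P K (fun i => z (Sum.inl i))
      (sysTup d fun u => z (Sum.inr u)))) :
    SysP (k := k) (fun K _ _ z => ∃ R : ι → K[X], (∀ i, (R i).natDegree ≤ d) ∧ P K z R) := by
  have h1 : SysP (k := k) (fun K _ _ (z : σ → K) => ∃ x : ι × Fin (d + 1) → K,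
    P K z (sysTup d x)) := SysP.ex h
  exact h1.congr fun K _ _ z => ⟨fun ⟨R, hd, hR⟩ => ⟨fun u => (R u.1).coeff u.2, by
    rw [sysTup_eq d R hd]; exact hR⟩, fun ⟨x, hx⟩ => ⟨sysTup d x, sysTup_natDegree d x, hx⟩⟩

end SysFrame

end Pool.Agent.VFF
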